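import Mathlib.Data.Set.Finite.List
import Pool.Agent.MP_8c549f_pr.S3.BasicB

-- ======== part 0: Defs
section Part0

/-! PROJECT L2 (small bias in every dimension): definitions. -/

noncomputable section

namespace Pool.Agent.MP_8c549f_pr.L2

open MeasureTheory Finset Real Classical S3
open scoped ENNReal

variable {D : ℕ}

/-! ### operators -/

/-- one step of the walk, acting on functions -/
def Pf (lam : ℝ) (ω : Cfg D) (f : V D → ℝ) (x : V D) : ℝ := ∑ s, pr lam ω x s * f (x + vec s)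

/-- one step from a site of `U` -/
def Pu (lam : ℝ) (ω : Cfg D) (U : Set (V D)) (f : V D → ℝ) : V D → ℝ := U.indicator (Pf lam ω f)

/-- `k` steps, all started from sites of `U` -/
def Pk (lam : ℝ) (ω : Cfg D) (U : Set (V D)) (k : ℕ) (f : V D → ℝ) : V D → ℝ := (Pu lam ω U)^[k] f

/-- Green sum over the times `k < n` -/
def Gs (lam : ℝ) (ω : Cfg D) (U : Set (V D)) (n : ℕ) (f : V D → ℝ) (x : V D) : ℝ :=
  ∑ k ∈ range n, Pk lam ω U k f x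

/-- indicator function of a set -/
def chi (A : Set (V D)) : V D → ℝ := A.indicator fun _ => 1

/-- conductance of the edge crossed by `s` from `x` -/
def cnd (lam : ℝ) (ω : Cfg D) (x : V D) (s : Step D) : ℝ :=
  if ω (edge x s) = true then exp (lam * (expo x s : ℝ)) else 0

/-- `Q` contains the support of `g` and its neighbours -/
def Sup (g : V D → ℝ) (Q : Finset (V D)) : Prop := ∀ x, g x ≠ 0 → x ∈ Q ∧ ∀ s, x + vec s ∈ Q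

/-- local drift -/
def dr (lam : ℝ) (ω : Cfg D) (x : V D) : ℝ := ∑ s, pr lam ω x s * (vec s 0 : ℝ)

/-- drift of the full lattice -/
def d0 (D : ℕ) (lam : ℝ) : ℝ := (exp lam - exp (-lam)) / Zf D lam

/-- localising weight -/
def et (ξ : ℝ) (x y : V D) : ℝ := exp (-(ξ * (nrm (y - x) : ℝ)))

/-- comparison function -/
def wf (lam : ℝ) (ψ : V D → ℝ) (y : V D) : ℝ := exp (-(lam * (y 0 : ℝ)) + ψ y)

/-- probability to leave the ball within `n` steps -/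
def exq (lam : ℝ) (ω : Cfg D) (x : V D) (r n : ℕ) : V D → ℝ :=
  Gs lam ω (ball x r) (n + 1) (chi (ball x r : Set (V D))ᶜ)

/-- the wide sites of a ball -/
def wb' (ω : Cfg D) (h : ℕ) (x : V D) (r : ℕ) : Finset (V D) := (ball x r).filter fun y => Wide ω y h

def box (a : V D) (r : Fin (D + 1) → ℕ) : Finset (V D) :=
  Fintype.piFinset fun j => Ico (a j) (a j + r j)

/-- levels within `k` of `x 0`, other coordinates within `K + k` -/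
def bx (x : V D) (k K : ℕ) : Finset (V D) := Fintype.piFinset fun j =>
  if j = 0 then Icc (x j - k) (x j + k) else Icc (x j - (K + k : ℕ)) (x j + (K + k : ℕ))

/-! ### geometry -/

/-- sums of `w - 1` over the segments of length `m` -/
def Seg (w : V D → ℝ) (m : ℕ) (δ : ℝ) : Prop :=
  ∀ (z : V D) (i : Fin (D + 1)), ∑ k ∈ range m, (w (z + Pi.single i (k : ℤ)) - 1) ≤ δ * m

/-- what the analysis uses of a good configuration in the ball of radius `R` -/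
structure Geo (ω : Cfg D) (R m h : ℕ) (δ : ℝ) (rep : V D → V D) (w : V D → ℝ) : Prop where
  h1 : 1 ≤ h
  hm : h ≤ m
  d0 : 0 ≤ δ
  d1 : δ ≤ 1 / 4
  w1 : ∀ z, 1 ≤ w z
  lev : ∀ z, rep z 0 = z 0
  near : ∀ z, nrm (rep z - z) ≤ h
  wide : ∀ z, nrm z ≤ R → Wide ω (rep z) h
  fix : ∀ z, Wide ω z h → rep z = z
  nml : ∀ z, nrm z ≤ R → w z < 2 → Wide ω z h ∧ ∀ s, ω (edge z s) = true
  seg : Seg w m δ
  cmp : ∀ lam : ℝ, 0 ≤ lam → lam ≤ 1 → ∀ (Q Q' : Finset (V D)) (f : V D → ℝ),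
    (∀ z ∈ Q, nrm z ≤ R ∧ ball z (5 * h) ⊆ Q') →
    ∑ z ∈ Q, ∑ i, exp (2 * lam * (z 0 : ℝ)) *
      (f (rep (z + Pi.single i 1)) - f (rep z)) ^ 2 / w z ≤ (D + 2) * En lam ω Q' f

/-- the scale `l` of the bias `lam` -/
structure Sc (l m : ℕ) (lam : ℝ) : Prop where
  l16 : 16 ≤ l
  m8 : m ^ 8 ≤ l
  lo : 1 / (l : ℝ) ≤ lam
  hi : lam ≤ 4 / (l : ℝ)

/-- the weight of a site -/
def wz (A h : ℕ) (ω : Cfg D) (z : V D) : ℝ :=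
  1 + ∑ t ∈ Ico 1 h, (A : ℝ) ^ (t + 1) * S3.ind (¬ Gd ω z (20 * t) t)

def Nice (A m h : ℕ) (δ : ℝ) (R : ℕ) (ω : Cfg D) : Prop :=
  Gd ω 0 (R + 40 * h) h ∧ ∀ (z : V D) (i : Fin (D + 1)), nrm z ≤ R + m →
    ∑ k ∈ range m, (wz A h ω (z + Pi.single i (k : ℤ)) - 1) ≤ δ * m

def mm (l : ℕ) : ℕ := l.sqrt.sqrt.sqrt

def hA (A l : ℕ) : ℕ := Nat.log (2 * A) (mm l) / 4

/-! ### legs -/

/-- real weight of a list of steps -/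
def wr (lam : ℝ) (ω : Cfg D) : V D → List (Step D) → ℝ
  | _, [] => 1
  | x, s :: l => pr lam ω x s * wr lam ω (x + vec s) l

/-- the martingale part of the level -/
def Mg (lam : ℝ) (ω : Cfg D) : V D → List (Step D) → ℝ
  | _, [] => 0
  | x, s :: l => ((vec s 0 : ℝ) - dr lam ω x) + Mg lam ω (x + vec s) l

/-- first passages to the level `L` within `N` steps -/
def Lg (D L N : ℕ) : Finset (List (Step D)) :=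
  (List.finite_length_le (Step D) N).toFinset.filter fun l => Rec l ∧ lev l = L

def ms (lam : ℝ) (L N : ℕ) (ω : Cfg D) : ℝ := ∑ l ∈ Lg D L N, wr lam ω 0 l

def tt (lam : ℝ) (L N : ℕ) (ω : Cfg D) : ℝ := ∑ l ∈ Lg D L N, wr lam ω 0 l * l.length

def t2 (lam : ℝ) (L N : ℕ) (ω : Cfg D) : ℝ := ∑ l ∈ Lg D L N, wr lam ω 0 l * (l.length : ℝ) ^ 2

/-- legs that go down to the level `- k` -/
def bt (lam : ℝ) (L N k : ℕ) (ω : Cfg D) : ℝ :=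
  ∑ l ∈ (Lg D L N).filter fun l => ∃ i < l.length, H l i ≤ -(k : ℤ), wr lam ω 0 l

/-- law of the end point of a leg -/
def hl (lam : ℝ) (L N : ℕ) (ω : Cfg D) (y : V D) : ℝ :=
  ∑ l ∈ (Lg D L N).filter fun l => pos l = y, wr lam ω 0 l

def ovl (lam : ℝ) (L N : ℕ) (ω ω' : Cfg D) : ℝ :=
  ∑ y ∈ ball 0 N, min (hl lam L N ω y) (hl lam L N ω' y)

/-- agreement on the edges whose lower end has level at least `- k` -/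
def Agr (k : ℕ) (ω ω' : Cfg D) : Prop := ∀ e : Edge D, -(k : ℤ) ≤ e.1 0 → ω e = ω' e

/-! ### the annealed chain of legs -/

/-- `η` on `S`, `ω` elsewhere -/
def ovw (S : Set (Edge D)) (η ω : Cfg D) : Cfg D := fun e => if e ∈ S then η e else ω e

def Past (D : ℕ) : Set (Edge D) := {e | e.1 0 ≤ -1}

/-- average over the edges that are not in the past -/
def Fr (p : ℝ) (u : Cfg D → ℝ) (η : Cfg D) : ℝ := ∫ ω, u (ovw (Past D) η ω) ∂perc D p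

def Kk (lam : ℝ) (L N : ℕ) (u : Cfg D → ℝ) (ω : Cfg D) : ℝ :=
  ∑ l ∈ Lg D L N, wr lam ω 0 l * u (shift (pos l) ω)

/-- expected duration of `n` legs -/
def Vn (lam : ℝ) (L N : ℕ) : ℕ → Cfg D → ℝ
  | 0 => fun _ => 0
  | n + 1 => fun ω => tt lam L N ω + Kk lam L N (Vn lam L N n) ω

/-- bounded and measurable -/
def BM (u : Cfg D → ℝ) : Prop := Measurable u ∧ ∃ C : ℝ, ∀ ω, |u ω| ≤ C

def bad (p : ℝ) (G : Cfg D → Prop) : Cfg D → ℝ := Fr p fun ω => S3.ind (¬ G ω)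

/-- agreement of two pasts down to the level `- k` -/
def AgrP (k : ℕ) (η η' : Cfg D) : Prop := ∀ e : Edge D, -(k : ℤ) ≤ e.1 0 → e.1 0 ≤ -1 → η e = η' e

/-- good configurations are inherited along legs, and legs end -/
structure Inh (lam : ℝ) (L N : ℕ) (G : ℕ → Cfg D → Prop) (τ : ℝ) : Prop where
  meas : ∀ n, MeasurableSet {ω | G n ω}
  inh : ∀ n ω, G (n + 1) ω → ∀ l ∈ Lg D L N, wr lam ω 0 l ≠ 0 → G n (shift (pos l) ω)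
  mass : ∀ n ω, G (n + 1) ω → 1 - τ ≤ ms lam L N ω
  pos : 0 ≤ τ

structure Mix (lam : ℝ) (L N : ℕ) (G : ℕ → Cfg D → Prop) (τ c y : ℝ) : Prop
    extends Inh lam L N G τ where
  c0 : 0 < c
  c1 : c ≤ 1
  y0 : 0 ≤ y
  tim : ∀ n j ω ω', G (n + 1) ω → G (n + 1) ω' → Agr (j * L) ω ω' →
    |tt lam L N ω - tt lam L N ω'| ≤ y / 2 ^ j
  ov0 : ∀ n ω ω', G (n + 1) ω → G (n + 1) ω' → Agr 0 ω ω' → c ≤ ovl lam L N ω ω'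
  ov1 : ∀ n j ω ω', 1 ≤ j → G (n + 1) ω → G (n + 1) ω' → Agr (j * L) ω ω' →
    1 - τ - 1 / (8 * 2 ^ j) ≤ ovl lam L N ω ω'

/-- chains of `n` legs -/
def Chn (D L N : ℕ) : ℕ → Finset (List (Step D))
  | 0 => {[]}
  | n + 1 => (Lg D L N ×ˢ Chn D L N n).image fun q => q.1 ++ q.2

/-- the good events -/
def Gn (A m h : ℕ) (δ : ℝ) (N n : ℕ) (ω : Cfg D) : Prop :=
  Nice A m h δ ((n + 2) * N) ω ∧ Wide ω 0 h

/-! ### regeneration -/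

/-- first passages to the level `m` that never go below the start -/
def FPS (D m : ℕ) : Set (List (Step D)) := {l | Stay l ∧ Rec l ∧ lev l = m}

def QQ (D : ℕ) (p lam : ℝ) (m : ℕ) : ℝ≥0∞ := SS (FPS D m) (wb true p lam)

def XX (D : ℕ) (p lam : ℝ) (m : ℕ) : ℝ≥0∞ := SS (FPS D m) fun l => l.length * wb true p lam l

/-- probability to stay in the levels `0 .. m` for `n` steps -/
def Sl (D : ℕ) (p lam : ℝ) (m n : ℕ) : ℝ≥0∞ :=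
  SS {l : List (Step D) | l.length = n ∧ ∀ k ≤ n, 0 ≤ H l k ∧ H l k ≤ m} (wb true p lam)

/-- third moment of the length of a block -/
def M3 (D : ℕ) (p lam : ℝ) : ℝ≥0∞ :=
  SS {l : List (Step D) | Block l} fun l => (l.length : ℝ≥0∞) ^ 3 * wb true p lam l

/-- mean length of the first passages without a cut -/
def N1 (D : ℕ) (p lam : ℝ) (m : ℕ) : ℝ≥0∞ :=
  SS {l : List (Step D) | l ∈ FPS D m ∧ ∀ t, ¬ Cut l t} fun l => l.length * wb true p lam l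

/-- open the back edge and the edges between sites of negative level -/
def op (ω : Cfg D) : Cfg D := fun e =>
  if e.1 0 ≤ -2 ∨ (e.1 0 = -1 ∧ e.2 ≠ 0) then true else plus ω e

/-- time per level -/
def kap (D : ℕ) (p lam : ℝ) : ℝ := AR D p lam / BR D p lam

/-- the crude estimates of the regeneration structure, with constants `n₀`, `q`, `μ` -/
structure Reg (D : ℕ) (p lam : ℝ) (n₀ : ℕ) (q μ : ℝ) : Prop where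
  p0 : 1 / 2 ≤ p
  p1 : p ≤ 1
  l0 : 0 ≤ lam
  n1 : 1 ≤ n₀
  q0 : 0 < q
  q1 : q ≤ 1
  m0 : 0 < μ
  m1 : μ ≤ 1
  slab : ∀ m n : ℕ, n₀ ≤ n → m ^ 2 ≤ n → Sl D p lam m n ≤ ENNReal.ofReal (1 / (n : ℝ) ^ 8)
  ret : ∀ i : ℕ, Ret D p lam i ≤ ENNReal.ofReal (n₀ * exp (-(μ * i)))
  sum : ∑' i, Ret D p lam i ≤ ENNReal.ofReal (1 - q)
  ht : ∀ m : ℕ, aa D p lam m ≤ ENNReal.ofReal (exp (-(μ * m)))

end Pool.Agent.MP_8c549f_pr.L2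

end

end Part0

-- ======== part 1: SpecA
section Part1

/-! PROJECT L2: statements of the quenched part (tools, geometry, analysis, legs). -/

noncomputable section

namespace Pool.Agent.MP_8c549f_pr.L2

open MeasureTheory Finset Real Classical S3
open scoped ENNReal

/-! ### tools -/

/-- summation by parts, self-adjointness, stability of the energy -/
def IDStmt : Prop := ∀ (D : ℕ) (lam : ℝ) (ω : Cfg D) (Q : Finset (V D)),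
  (∀ φ u : V D → ℝ, Sup φ Q → 2 * ∑ x ∈ Q, pim lam ω x * φ x * (u x - Pf lam ω u x) =
    ∑ x ∈ Q, ∑ s, cnd lam ω x s * ((φ (x + vec s) - φ x) * (u (x + vec s) - u x))) ∧
  (∀ φ u : V D → ℝ, Sup φ Q →
    ∑ x ∈ Q, pim lam ω x * φ x * Pf lam ω u x = ∑ x ∈ Q, pim lam ω x * u x * Pf lam ω φ x) ∧
  (∀ g : V D → ℝ, Sup g Q → ∀ Q', En lam ω Q' g ≤ En lam ω Q g) ∧
  (∀ F : V D → V D → ℝ, (∀ x s, F x (x + vec s) ≠ 0 → x ∈ Q ∧ x + vec s ∈ Q) →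
    ∑ x ∈ Q, ∑ s, cnd lam ω x s * F x (x + vec s) = ∑ x ∈ Q, ∑ s, cnd lam ω x s * F (x + vec s) x)

def EN2Stmt : Prop := ∀ (D : ℕ) (lam ξ : ℝ) (ω : Cfg D) (Q : Finset (V D)) (x : V D) (u : V D → ℝ),
  0 ≤ ξ → ξ ≤ 1 → Sup u Q →
  En lam ω Q (fun y => et ξ x y * u y) ≤
    2 * ∑ y ∈ Q, pim lam ω y * (et ξ x y ^ 2 * u y) * (u y - Pf lam ω u y) +
      4 * ξ ^ 2 * ∑ y ∈ Q, pim lam ω y * (et ξ x y * u y) ^ 2

/-- sums over legs are Green sums -/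
def DICTStmt : Prop := ∀ (D : ℕ) (lam : ℝ) (ω : Cfg D) (L N : ℕ) (U : Set (V D)) (F : ℕ → ℝ)
  (f : V D → ℝ), (∀ y ∈ U, y 0 < (L : ℤ)) →
  ∑ l ∈ (Lg D L N).filter (fun l => ∀ i < l.length, loc l i ∈ U),
      wr lam ω 0 l * (F l.length * f (pos l)) =
    ∑ k ∈ range (N + 1), F k * Pk lam ω U k (Set.indicator {y | y 0 = (L : ℤ)} f) 0

/-! ### geometry -/

def UPStmt : Prop := ∀ (D : ℕ), 1 ≤ D → ∀ (ω : Cfg D) (z : V D) (t : ℕ), 2 ≤ t →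
  Gd ω z (17 * t) t → Big ω z t → Big ω z (t + 1)

/-- the first wide site on the ray -/
def REPStmt : Prop := ∀ (D : ℕ), 1 ≤ D → ∀ (ω : Cfg D) (h : ℕ), 2 ≤ h → ∃ rep : V D → V D,
  (∀ z, rep z 0 = z 0) ∧ (∀ z, nrm (rep z - z) ≤ h) ∧ (∀ z, Wide ω z h → rep z = z) ∧
  (∀ (z y : V D) (t : ℕ), 2 ≤ t → t ≤ h → nrm (y - z) ≤ 1 →
    (∀ t', t ≤ t' → t' ≤ 2 * h → Gd ω z (20 * t') t') → 
    Wide ω (rep y) h ∧ ∃ r ≤ t, rep y = ray y r) ∧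
  ∀ z, (∀ t', 1 ≤ t' → t' ≤ 2 * h → Gd ω z (20 * t') t') →
    Wide ω z h ∧ ∀ s, ω (edge z s) = true

def GEOStmt : Prop := ∀ (D : ℕ), 1 ≤ D → ∃ A : ℕ, 2 ≤ A ∧ ∀ (ω : Cfg D) (R m h : ℕ) (δ : ℝ),
  2 ≤ h → h ≤ m → 0 ≤ δ → δ ≤ 1 / 4 → Nice A m h δ R ω → ∃ rep w, Geo ω R m h δ rep w

/-- exponential bound for events that depend on disjoint sets of edges -/
def CHERStmt : Prop := ∀ (D : ℕ) (p : ℝ), 0 ≤ p → p ≤ 1 → ∀ (I : Finset ℕ) (E : ℕ → Cfg D → Prop)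
  (S : ℕ → Finset (Edge D)) (q a : ℝ), (∀ k ∈ I, Dep (E k) (S k : Set (Edge D))) →
  (∀ k ∈ I, ∀ k' ∈ I, k ≠ k' → Disjoint (S k) (S k')) →
  (∀ k ∈ I, (perc D p).real {ω | E k ω} ≤ q) →
  (perc D p).real {ω | a ≤ ∑ k ∈ I, S3.ind (E k ω)} ≤ exp (q * I.card - a / 2)

/-- few sites of a segment see a long chain -/
def SEG1Stmt : Prop := ∀ (D : ℕ) (p : ℝ), 0 ≤ p → p ≤ 1 → ∀ (z : V D) (i : Fin (D + 1)) (m t : ℕ)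
  (q a : ℝ), 1 ≤ t → 0 ≤ q → (∀ v : V D, (perc D p).real {ω | Ch ω v t} ≤ q) →
  (perc D p).real {ω | a ≤ ∑ k ∈ range m, S3.ind (¬ Gd ω (z + Pi.single i (k : ℤ)) (20 * t) t)} ≤
    50 * t * exp ((40 * t + 1) ^ (D + 1) * q * m - a / (100 * t))

def NICEPStmt : Prop := ∀ (D A K : ℕ) (δ : ℝ), 2 ≤ A → 0 < δ → ∃ (e₀ : ℝ) (l₀ : ℕ), 0 < e₀ ∧
  ∀ (p : ℝ) (l : ℕ), 1 - e₀ ≤ p → p ≤ 1 → 0 ≤ p → l₀ ≤ l →
    2 ≤ hA A l ∧ hA A l ≤ mm l ∧ mm l ^ 8 ≤ l ∧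
    (perc D p).real {ω | ¬ Nice A (mm l) (hA A l) δ (l ^ K) ω} ≤ 1 / (l : ℝ) ^ K

def NICEFStmt : Prop := ∀ (D A m h : ℕ) (δ : ℝ),
  (∀ R, MeasurableSet {ω : Cfg D | Nice A m h δ R ω}) ∧ MeasurableSet {ω : Cfg D | Wide ω 0 h} ∧
  (∀ R R' (y : V D) (ω : Cfg D), R' + nrm y ≤ R → Nice A m h δ R ω → Nice A m h δ R' (shift y ω)) ∧
  (∀ R (ω ω' : Cfg D), (∀ e, ω e = true → ω' e = true) → Nice A m h δ R ω → Nice A m h δ R ω') ∧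
  (∀ (y : V D) (ω : Cfg D), Wide ω y h → Wide (shift y ω) 0 h) ∧
  ∀ ω : Cfg D, Wide (ovw (Past D) (allOpen D) ω) 0 h ∧ Wide (op ω) 0 h

/-! ### functional inequalities -/

def CNTStmt : Prop := ∀ (D m : ℕ) (δ : ℝ) (w : V D → ℝ), 1 ≤ m → 0 ≤ δ → (∀ z, 1 ≤ w z) →
  Seg w m δ →
  (∀ (z : V D) (i : Fin (D + 1)) (r : ℕ), m ≤ r →
    ∑ k ∈ range r, (w (z + Pi.single i (k : ℤ)) - 1) ≤ 2 * δ * r) ∧
  ∀ (a : V D) (r : Fin (D + 1) → ℕ), m ≤ r 0 →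
    ∑ z ∈ box a r, (w z - 1) ≤ 2 * δ * (box a r).card

def PLStmt : Prop := ∀ (D m ρ : ℕ) (δ : ℝ) (w g : V D → ℝ) (a : V D) (r : Fin (D + 1) → ℕ),
  1 ≤ m → 0 ≤ δ → δ ≤ 1 → (∀ z, 1 ≤ w z) → Seg w m δ → (∀ j, m ≤ r j ∧ r j ≤ ρ) →
  ∑ z ∈ box a r, ∑ y ∈ box a r, (g z - g y) ^ 2 ≤ 4 * (D + 1) * (ρ : ℝ) ^ 2 * (box a r).card *
    ∑ z ∈ box a r, ∑ i, (g (z + Pi.single i 1) - g z) ^ 2 / w z

def THStmt : Prop := ∀ D : ℕ, ∃ C : ℝ, 1 ≤ C ∧ ∀ (ξ : ℝ) (x : V D) (T : Finset (V D)),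
  0 < ξ → ξ ≤ 1 → ∑ z ∈ T, et ξ x z ≤ C / ξ ^ (D + 1) ∧
  ∀ (m : ℕ) (δ : ℝ) (w : V D → ℝ), 1 ≤ m → 0 ≤ δ → ξ * m ≤ 1 → (∀ z, 1 ≤ w z) → Seg w m δ →
    ∑ z ∈ T, et ξ x z * (w z - 1) ≤ C * δ / ξ ^ (D + 1)

def NSStmt : Prop := ∀ D : ℕ, ∃ C : ℝ, 1 ≤ C ∧ ∀ (ω : Cfg D) (R m h : ℕ) (δ : ℝ) rep w,
  Geo ω R m h δ rep w → ∀ (lam : ℝ) (x : V D) (r r₁ : ℕ) (g : V D → ℝ) (Q : Finset (V D)),
  0 ≤ lam → lam ≤ 1 → lam * r₁ ≤ 4 → m ≤ r → r ≤ r₁ → nrm x + 2 * r₁ ≤ R →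
  (∀ y, g y ≠ 0 → y ∈ wb' ω h x r₁) → Sup g Q →
  ∑ y ∈ Q, pim lam ω y * g y ^ 2 ≤ C * (r : ℝ) ^ 2 * En lam ω Q g +
    C * (∑ y ∈ Q, pim lam ω y * |g y|) ^ 2 / ((r : ℝ) ^ (D + 1) * exp (2 * lam * (x 0 : ℝ)))

def HDStmt : Prop := ∀ D : ℕ, ∃ K : ℝ, 1 ≤ K ∧ ∀ (ω : Cfg D) (R m h : ℕ) (δ : ℝ) rep w,
  Geo ω R m h δ rep w → ∀ (lam : ℝ) (g : V D → ℝ) (Q : Finset (V D)), 0 < lam → lam * m ≤ 1 →
  (∀ y, g y ≠ 0 → nrm y + h + 1 ≤ R) → Sup g Q →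
  (∀ T : Finset (V D), ∑ z ∈ T, ∑ i, exp (2 * lam * (z 0 : ℝ)) *
    (g (rep (z + Pi.single i 1)) - g (rep z)) ^ 2 / w z ≤ K * En lam ω Q g) ∧
  (∀ T : Finset (V D),
    ∑ z ∈ T, exp (2 * lam * (z 0 : ℝ)) * g (rep z) ^ 2 ≤ K / lam ^ 2 * En lam ω Q g) ∧
  ((∀ y, g y ≠ 0 → Wide ω y h) → ∑ y ∈ Q, pim lam ω y * g y ^ 2 ≤ K / lam ^ 2 * En lam ω Q g)

/-! ### heat kernel, exit times, mean value inequality -/

def SPGStmt : Prop := ∀ (D : ℕ) (lam : ℝ) (ω : Cfg D) (A Q : Finset (V D)) (α κ : ℝ),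
  1 ≤ α → 0 ≤ κ → (∀ x ∈ A, x ∈ Q ∧ ∀ s, x + vec s ∈ Q) →
  (∀ g : V D → ℝ, (∀ x, 0 ≤ g x) → (∀ x, g x ≠ 0 → x ∈ A) → ∑ x ∈ Q, pim lam ω x * g x ≤ 2 →
    ∑ x ∈ Q, pim lam ω x * g x ^ 2 ≤ α * En lam ω Q g + κ) →
  ∀ f : V D → ℝ, (∀ x, 0 ≤ f x) → (∀ x, f x ≠ 0 → x ∈ A) → ∑ x ∈ Q, pim lam ω x * f x ≤ 1 →
  ∀ n : ℕ, ∑ x ∈ Q, pim lam ω x * Pk lam ω A n f x ≤ 1 ∧
    ∑ x ∈ Q, pim lam ω x * Pk lam ω A n f x ^ 2 ≤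
      κ + exp (-(n / (4 * α))) * ∑ x ∈ Q, pim lam ω x * f x ^ 2

def HK0Stmt : Prop := ∀ D : ℕ, ∃ (C : ℝ) (J : ℕ), 1 ≤ C ∧ 1 ≤ J ∧
  ∀ (ω : Cfg D) (R m h : ℕ) (δ : ℝ) rep w, Geo ω R m h δ rep w →
  ∀ (lam : ℝ) (x : V D) (r r₁ n : ℕ), 0 ≤ lam → lam ≤ 1 → lam * r₁ ≤ 4 → m ≤ r → r ≤ r₁ →
  nrm x + 2 * r₁ ≤ R → Wide ω x h → J * (m ^ 3 + 2 * r ^ 2) ≤ n →
  ∑ y ∈ ball x (r₁ + 1), pim lam ω y *
      Pk lam ω (wb' ω h x r₁) n (Pi.single x (pim lam ω x)⁻¹) y ^ 2 ≤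
    C / ((r : ℝ) ^ (D + 1) * exp (2 * lam * (x 0 : ℝ)))

def HKStmt : Prop := ∀ D : ℕ, ∃ (C : ℝ) (J : ℕ), 1 ≤ C ∧ 1 ≤ J ∧
  ∀ (ω : Cfg D) (R m h : ℕ) (δ : ℝ) rep w, Geo ω R m h δ rep w →
  ∀ (lam : ℝ) (x : V D) (r r₁ n : ℕ) (u : V D → ℝ), 0 ≤ lam → lam ≤ 1 → lam * r₁ ≤ 4 → m ≤ r →
  r ≤ r₁ → nrm x + 2 * r₁ ≤ R → Wide ω x h → J * (m ^ 3 + 2 * r ^ 2) ≤ n →
  Pk lam ω (ball x r₁) n ((ball x r₁ : Set (V D)).indicator u) x ≤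
    C * √((∑ y ∈ wb' ω h x r₁, max (u y) 0 ^ 2) / (r : ℝ) ^ (D + 1))

def AGMStmt : Prop := ∀ (D : ℕ) (lam : ℝ) (ω : Cfg D) (x : V D) (r n k : ℕ), 2 ≤ n → 1 ≤ r →
  1 ≤ k → ∑ y ∈ ball x ((r + 1) / 2), pim lam ω y * exq lam ω x r n y ^ 2 ≤
    16 * (k.factorial : ℝ) ^ 2 * (32 * n / (r : ℝ) ^ 2) ^ k * ∑ y ∈ ball x (r + 1), pim lam ω y

def EXStmt : Prop := ∀ D : ℕ, ∃ (C : ℝ) (M : ℕ), 1 ≤ C ∧ 1 ≤ M ∧
  ∀ (ω : Cfg D) (R m h : ℕ) (δ : ℝ) rep w, Geo ω R m h δ rep w →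
  ∀ (lam : ℝ) (x : V D) (r n : ℕ), 0 ≤ lam → lam ≤ 1 → lam * r ≤ 4 → nrm x + 2 * r ≤ R →
  Wide ω x h → 1 ≤ r → M * m ^ 9 * n ≤ r ^ 4 → exq lam ω x r n x ≤ C * n / (r : ℝ) ^ 2

def MVStmt : Prop := ∀ D : ℕ, ∃ (C : ℝ) (M : ℕ), 1 ≤ C ∧ 1 ≤ M ∧
  ∀ (ω : Cfg D) (R m h : ℕ) (δ : ℝ) rep w, Geo ω R m h δ rep w →
  ∀ (lam : ℝ) (x : V D) (r : ℕ) (u : V D → ℝ) (F S : ℝ), 0 ≤ lam → lam ≤ 1 → lam * r ≤ 4 →
  nrm x + 2 * r ≤ R → Wide ω x h → M * m ^ 5 ≤ r → 0 ≤ F → 0 ≤ S →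
  (∀ y ∈ wb' ω h x r, u y - Pf lam ω u y ≤ F) → (∀ y ∈ wb' ω h x (r + 1), u y ≤ S) →
  u x ≤ (r : ℝ) ^ 2 * F + S / 8 + C * √((∑ y ∈ wb' ω h x r, max (u y) 0 ^ 2) / (r : ℝ) ^ (D + 1))

/-! ### Green function bounds -/

def Lip {D : ℕ} (ψ : V D → ℝ) (c : ℝ) : Prop := ∀ y z, |ψ y - ψ z| ≤ c * nrm (y - z)

def GBStmt : Prop := ∀ D : ℕ, ∃ (ξ C : ℝ) (l₀ : ℕ), 0 < ξ ∧ ξ ≤ 1 ∧ 1 ≤ C ∧
  ∀ (ω : Cfg D) (R m h : ℕ) (δ : ℝ) rep w, Geo ω R m h δ rep w → ∀ (l : ℕ) (lam : ℝ), l₀ ≤ l →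
  Sc l m lam → ∀ (U : Finset (V D)) (ψ : V D → ℝ), (∀ y ∈ U, Wide ω y h ∧ nrm y + l ≤ R) →
  Lip ψ (ξ / l) → ∀ n y,
    Gs lam ω U n ((U : Set (V D)).indicator (wf lam ψ)) y ≤ C * (l : ℝ) ^ 2 * wf lam ψ y

def GCStmt : Prop := ∀ (D : ℕ) (lam : ℝ) (ω : Cfg D) (U : Finset (V D)) (v : V D → ℝ) (A : ℝ),
  1 ≤ A → (∀ y, 0 < v y) → (∀ n y, Gs lam ω U n ((U : Set (V D)).indicator v) y ≤ A * v y) →
  (∀ n y, ∑ k ∈ range n, ((k : ℝ) + 1) * Pk lam ω U k ((U : Set (V D)).indicator v) y ≤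
    A ^ 2 * v y) ∧
  (∀ n y, Pk lam ω U n ((U : Set (V D)).indicator v) y ≤ A * exp (-(n / A)) * v y) ∧
  (∀ g : V D → ℝ, ∃ χ : V D → ℝ,
    (∀ y ∈ U, χ y = g y + Pf lam ω χ y) ∧ ∀ y ∉ U, χ y = g y) ∧
  ∀ u : V D → ℝ, (∀ y ∈ U, u y ≤ Pf lam ω u y) → (∀ y ∉ U, u y ≤ 0) → ∀ y, u y ≤ 0

def HITStmt : Prop := ∀ D : ℕ, ∃ (ξ C : ℝ) (l₀ : ℕ), 0 < ξ ∧ ξ ≤ 1 ∧ 1 ≤ C ∧
  ∀ (ω : Cfg D) (R m h : ℕ) (δ : ℝ) rep w, Geo ω R m h δ rep w → ∀ (l : ℕ) (lam : ℝ), l₀ ≤ l →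
  Sc l m lam → ∀ (x : V D) (A Z : Set (V D)) (ψ : V D → ℝ) (n : ℕ) (b : ℝ), Wide ω x h →
  nrm x + n + 2 * l ≤ R → Disjoint A Z → Lip ψ (ξ / l) → 0 < b → (∀ z ∈ Z, b ≤ wf lam ψ z) →
  Gs lam ω A (n + 1) (chi Z) x ≤ C * wf lam ψ x / b

/-- survival below the level `L` -/
def SURStmt : Prop := ∀ D : ℕ, ∃ (C : ℝ) (l₀ : ℕ), 1 ≤ C ∧
  ∀ (ω : Cfg D) (R m h : ℕ) (δ : ℝ) rep w, Geo ω R m h δ rep w → ∀ (l : ℕ) (lam : ℝ), l₀ ≤ l →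
  Sc l m lam → ∀ (x : V D) (U : Set (V D)) (L : ℤ) (n : ℕ), Wide ω x h → nrm x + n + l ≤ R →
  (∀ y ∈ U, y 0 < L) →
  Pk lam ω U n (U.indicator fun y => exp (lam * (L - y 0 : ℤ))) x ≤
    C * (l : ℝ) ^ 2 * exp (-(n / (C * (l : ℝ) ^ 2))) * exp (lam * (L - x 0 : ℤ)) ∧
  ∑ k ∈ range (n + 1), ((k : ℝ) + 1) * Pk lam ω U k (chi U) x ≤
    C * (l : ℝ) ^ 4 * exp (lam * (L - x 0 : ℤ))

def HMStmt : Prop := ∀ (D : ℕ) (ξ : ℝ), 0 < ξ → ξ ≤ 1 → ∃ C : ℝ, 1 ≤ C ∧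
  ∀ (ω : Cfg D) (R m h : ℕ) (δ : ℝ) rep w, Geo ω R m h δ rep w → ∀ (l : ℕ) (lam : ℝ),
  Sc l m lam → ∀ (f : V D → ℝ) (Q : Finset (V D)) (x : V D) (L : ℤ),
  (∀ y, f y ≠ 0 → Wide ω y h ∧ nrm y + l ≤ R ∧ y 0 < L) → Sup f Q →
  |∑ y ∈ Q, pim lam ω y * (et (ξ / l) x y * f y) * (dr lam ω y - d0 D lam)| ≤
    C * √(δ * (l : ℝ) ^ (D + 1) * exp (2 * lam * L)) * √(En lam ω Q f)

def CHIStmt : Prop := ∀ (D : ℕ) (ε : ℝ), 0 < ε → ∃ (δ₀ : ℝ) (l₀ : ℕ), 0 < δ₀ ∧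
  ∀ (ω : Cfg D) (R m h : ℕ) (δ : ℝ) rep w, Geo ω R m h δ rep w → δ ≤ δ₀ → ∀ (l : ℕ) (lam : ℝ),
  l₀ ≤ l → Sc l m lam → ∀ (U : Finset (V D)) (L : ℤ) (χ : V D → ℝ),
  (∀ y ∈ U, Wide ω y h ∧ nrm y + l ≤ R ∧ y 0 < L) →
  (∀ y ∈ U, χ y = dr lam ω y - d0 D lam + Pf lam ω χ y) → (∀ y ∉ U, χ y = 0) →
  ∀ y, |χ y| ≤ ε * l * exp (lam * (L - y 0 : ℤ))

def LCStmt : Prop := ∀ (D : ℕ) (lam : ℝ) (ω : Cfg D) (g η : V D → ℝ) (Q Q' : Finset (V D)),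
  (∀ y, 0 < g y) → Sup η Q → (∀ y, η y ≠ 0 → Pf lam ω g y ≤ g y) → Q' ⊆ Q →
  (∀ y ∈ Q', η y = 1 ∧ ∀ s, η (y + vec s) = 1) →
  En lam ω Q' (fun y => log (g y)) ≤ En lam ω Q η

def WHStmt : Prop := ∀ D κ : ℕ, ∃ (c : ℝ) (l₀ : ℕ), 0 < c ∧
  ∀ (ω : Cfg D) (R m h : ℕ) (δ : ℝ) rep w, Geo ω R m h δ rep w → ∀ (l : ℕ) (lam : ℝ), l₀ ≤ l →
  Sc l m lam → ∀ (x : V D) (g : V D → ℝ), nrm x + (κ + 4) * l ≤ R → (∀ y, 0 ≤ g y) →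
  (∀ y ∈ bx x (3 * l) (κ * l), Wide ω y h → Pf lam ω g y ≤ g y) →
  (bx x l (κ * l)).card ≤ 4 * ((bx x l (κ * l)).filter fun y => Wide ω y h ∧ 1 / 4 ≤ g y).card →
  ∀ y ∈ bx x 0 (κ * l), Wide ω y h → c ≤ g y

/-! ### legs -/

def D0Stmt : Prop := ∀ D : ℕ, d0 D 0 = 0 ∧ (∀ x, 0 ≤ x → 0 ≤ d0 D x ∧ d0 D x ≤ x) ∧
  ∀ x y, 0 ≤ x → x ≤ y → y ≤ 1 → (y - x) / (8 * (D + 1)) ≤ d0 D y - d0 D x

def LEG1Stmt : Prop := ∀ D : ℕ, ∃ Λ₀ : ℕ, ∀ Λ : ℕ, Λ₀ ≤ Λ → ∃ C : ℝ, 1 ≤ C ∧ ∀ K : ℕ, ∃ l₀ : ℕ,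
  ∀ (ω : Cfg D) (R m h : ℕ) (δ : ℝ) rep w, Geo ω R m h δ rep w → ∀ (l : ℕ) (lam : ℝ), l₀ ≤ l →
  Sc l m lam → Wide ω 0 h → 2 * l ^ 4 ≤ R →
  1 - 1 / (l : ℝ) ^ K ≤ ms lam (Λ * l) (l ^ 4) ω ∧ t2 lam (Λ * l) (l ^ 4) ω ≤ C * (l : ℝ) ^ 4 ∧
  ∀ j, 1 ≤ j → bt lam (Λ * l) (l ^ 4) (j * (Λ * l)) ω ≤ 1 / 16 ^ j

def Q1Stmt : Prop := ∀ (D Λ : ℕ) (ε : ℝ), 1 ≤ Λ → 0 < ε → ∃ (δ₀ : ℝ) (l₀ : ℕ), 0 < δ₀ ∧
  ∀ (ω : Cfg D) (R m h : ℕ) (δ : ℝ) rep w, Geo ω R m h δ rep w → δ ≤ δ₀ → ∀ (l : ℕ) (lam : ℝ),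
  l₀ ≤ l → Sc l m lam → Wide ω 0 h → 2 * l ^ 4 ≤ R →
  |tt lam (Λ * l) (l ^ 4) ω - Λ * l / d0 D lam| ≤ ε * (l : ℝ) ^ 2

/-- the site of level `k` above the origin -/
def up (D k : ℕ) : V D := Pi.single 0 (k : ℤ)

def OV1Stmt : Prop := ∀ D : ℕ, ∃ Λ₀ : ℕ, ∀ Λ κ : ℕ, Λ₀ ≤ Λ → ∃ (c : ℝ) (l₀ : ℕ), 0 < c ∧
  ∀ (ω : Cfg D) (R m h : ℕ) (δ : ℝ) rep w, Geo ω R m h δ rep w → ∀ (l : ℕ) (lam : ℝ), l₀ ≤ l →
  Sc l m lam → 2 * l ^ 4 ≤ R → ∀ A B : Set (V D), A ∪ B = {y : V D | y 0 = ((Λ * l : ℕ) : ℤ)} →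
  (∀ y ∈ bx (up D (Λ * l / 2)) 0 (κ * l), Wide ω y h →
    c ≤ Gs lam ω {y : V D | 0 < y 0 ∧ y 0 < ((Λ * l : ℕ) : ℤ)} (l ^ 4 / 2 + 1) (chi A) y) ∨
  (∀ y ∈ bx (up D (Λ * l / 2)) 0 (κ * l), Wide ω y h →
    c ≤ Gs lam ω {y : V D | 0 < y 0 ∧ y 0 < ((Λ * l : ℕ) : ℤ)} (l ^ 4 / 2 + 1) (chi B) y)

def OV2Stmt : Prop := ∀ D Λ : ℕ, 2 ≤ Λ → ∃ κ l₀ : ℕ,
  ∀ (ω : Cfg D) (R m h : ℕ) (δ : ℝ) rep w, Geo ω R m h δ rep w → ∀ (l : ℕ) (lam : ℝ), l₀ ≤ l →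
  Sc l m lam → Wide ω 0 h → 2 * l ^ 4 ≤ R →
  1 / 2 ≤ Gs lam ω {y : V D | y 0 < ((Λ * l / 2 : ℕ) : ℤ)} (l ^ 4 / 2 + 1)
    (chi (bx (up D (Λ * l / 2)) 0 (κ * l) : Set (V D))) 0

def OVStmt : Prop := ∀ D : ℕ, ∃ Λ₀ : ℕ, ∀ Λ : ℕ, Λ₀ ≤ Λ → ∃ (c : ℝ) (l₀ : ℕ), 0 < c ∧ c ≤ 1 ∧
  ∀ (ω ω' : Cfg D) (R m h : ℕ) (δ : ℝ) rep w rep' w', Geo ω R m h δ rep w → Geo ω' R m h δ rep' w' →
  ∀ (l : ℕ) (lam : ℝ), l₀ ≤ l → Sc l m lam → Wide ω 0 h → Wide ω' 0 h → 2 * l ^ 4 ≤ R →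
  Agr 0 ω ω' → c ≤ ovl lam (Λ * l) (l ^ 4) ω ω'

end Pool.Agent.MP_8c549f_pr.L2

end

end Part1

-- ======== part 2: Basic
section Part2

/-! PROJECT L2: elementary facts on the operators, the weights and the scales. -/

noncomputable section

namespace Pool.Agent.MP_8c549f_pr.L2

open MeasureTheory Finset Real Classical S3
open scoped ENNReal

variable {D : ℕ} {lam : ℝ} {ω : Cfg D} {U : Set (V D)}

/-! ### one step -/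

theorem Pf_mono' {f g : V D → ℝ} {x : V D}
    (h : ∀ s, ω (edge x s) = true → f (x + vec s) ≤ g (x + vec s)) :
    Pf lam ω f x ≤ Pf lam ω g x := by
  refine sum_le_sum fun s _ => ?_
  by_cases hs : ω (edge x s) = true
  · exact mul_le_mul_of_nonneg_left (h s hs) (pr_nonneg _ _ _ _)
  · simp [pr, hs]

theorem Pf_congr' {f g : V D → ℝ} {x : V D}
    (h : ∀ s, ω (edge x s) = true → f (x + vec s) = g (x + vec s)) :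
    Pf lam ω f x = Pf lam ω g x :=
  le_antisymm (Pf_mono' fun s hs => (h s hs).le) (Pf_mono' fun s hs => (h s hs).ge)

theorem Pf_mono {f g : V D → ℝ} (h : ∀ y, f y ≤ g y) (x : V D) : Pf lam ω f x ≤ Pf lam ω g x :=
  Pf_mono' fun _ _ => h _

theorem Pf_nonneg {f : V D → ℝ} (h : ∀ y, 0 ≤ f y) (x : V D) : 0 ≤ Pf lam ω f x :=
  sum_nonneg fun _ _ => mul_nonneg (pr_nonneg _ _ _ _) (h _)

theorem Pf_add (f g : V D → ℝ) (x : V D) :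
    Pf lam ω (fun y => f y + g y) x = Pf lam ω f x + Pf lam ω g x := by
  simp only [Pf, mul_add, sum_add_distrib]

theorem Pf_sub (f g : V D → ℝ) (x : V D) :
    Pf lam ω (fun y => f y - g y) x = Pf lam ω f x - Pf lam ω g x := by
  simp only [Pf, mul_sub, sum_sub_distrib]

theorem Pf_mul (c : ℝ) (f : V D → ℝ) (x : V D) :
    Pf lam ω (fun y => c * f y) x = c * Pf lam ω f x := by
  simp only [Pf, mul_sum, mul_left_comm]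

theorem Pf_neg (f : V D → ℝ) (x : V D) : Pf lam ω (fun y => -f y) x = -Pf lam ω f x := by
  simp only [Pf, mul_neg, sum_neg_distrib]

theorem Pf_sum {α : Type} (T : Finset α) (f : α → V D → ℝ) (x : V D) :
    Pf lam ω (fun y => ∑ a ∈ T, f a y) x = ∑ a ∈ T, Pf lam ω (f a) x := by
  simp only [Pf, mul_sum]; exact sum_comm

theorem Pf_const_le {c : ℝ} (hc : 0 ≤ c) (x : V D) : Pf lam ω (fun _ => c) x ≤ c := by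
  rw [Pf, ← sum_mul]; exact mul_le_of_le_one_left hc (sum_pr_le_one _ _ _)

theorem Pf_const {x : V D} (hx : 0 < Zq lam ω x) (c : ℝ) : Pf lam ω (fun _ => c) x = c := by
  rw [Pf, ← sum_mul, sum_pr, div_self hx.ne', one_mul]

theorem Pf_le {f : V D → ℝ} {c : ℝ} {x : V D} (hc : 0 ≤ c)
    (h : ∀ s, ω (edge x s) = true → f (x + vec s) ≤ c) : Pf lam ω f x ≤ c :=
  (Pf_mono' (g := fun _ => c) h).trans (Pf_const_le hc x)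

theorem Pf_lev {x : V D} (hx : 0 < Zq lam ω x) :
    Pf lam ω (fun y => (y 0 : ℝ)) x = x 0 + dr lam ω x := by
  have h := Pf_const hx (x 0 : ℝ)
  simp only [Pf, dr, Pi.add_apply, Int.cast_add, mul_add, sum_add_distrib] at h ⊢
  rw [h]

theorem Pu_of_mem {x : V D} (h : x ∈ U) (f : V D → ℝ) : Pu lam ω U f x = Pf lam ω f x :=
  Set.indicator_of_mem h _

theorem Pu_of_not {x : V D} (h : x ∉ U) (f : V D → ℝ) : Pu lam ω U f x = 0 :=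
  Set.indicator_of_notMem h _

theorem chi_of_mem {x : V D} (h : x ∈ U) : chi U x = 1 := Set.indicator_of_mem h _

theorem chi_of_not {x : V D} (h : x ∉ U) : chi U x = 0 := Set.indicator_of_notMem h _

theorem chi_nonneg (U : Set (V D)) (x : V D) : 0 ≤ chi U x := by
  by_cases h : x ∈ U <;> simp [chi, h]

theorem chi_le_one (U : Set (V D)) (x : V D) : chi U x ≤ 1 := by
  by_cases h : x ∈ U <;> simp [chi, h]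

/-! ### several steps -/

@[simp] theorem Pk_zero (f : V D → ℝ) : Pk lam ω U 0 f = f := rfl

theorem Pk_succ (k : ℕ) (f : V D → ℝ) : Pk lam ω U (k + 1) f = Pu lam ω U (Pk lam ω U k f) :=
  Function.iterate_succ_apply' _ _ _

theorem Pk_succ' (k : ℕ) (f : V D → ℝ) : Pk lam ω U (k + 1) f = Pk lam ω U k (Pu lam ω U f) :=
  Function.iterate_succ_apply _ _ _

theorem Pk_add_apply (j k : ℕ) (f : V D → ℝ) :
    Pk lam ω U (j + k) f = Pk lam ω U j (Pk lam ω U k f) := Function.iterate_add_apply _ _ _ _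

theorem Pk_succ_mem {x : V D} (h : x ∈ U) (k : ℕ) (f : V D → ℝ) :
    Pk lam ω U (k + 1) f x = Pf lam ω (Pk lam ω U k f) x := by rw [Pk_succ, Pu_of_mem h]

theorem Pk_succ_not {x : V D} (h : x ∉ U) (k : ℕ) (f : V D → ℝ) : Pk lam ω U (k + 1) f x = 0 := by
  rw [Pk_succ, Pu_of_not h]

/-- Comparison on the sites that can be reached: `Rr i y` holds for the position `y` at time `i`. -/
theorem Pk_loc {ω' : Cfg D} {U' : Set (V D)} {f f' : V D → ℝ} (n : ℕ) :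
    ∀ (Rr : ℕ → V D → Prop) (x : V D), Rr 0 x →
    (∀ i < n, ∀ y s, Rr i y → y ∈ U → ω (edge y s) = true → Rr (i + 1) (y + vec s)) →
    (∀ i < n, ∀ y, Rr i y → (y ∈ U ↔ y ∈ U') ∧ (y ∈ U → ∀ s, ω (edge y s) = ω' (edge y s))) →
    (∀ y, Rr n y → f y = f' y) → Pk lam ω U n f x = Pk lam ω' U' n f' x := by
  induction n with
  | zero => intro Rr x h0 _ _ h3; exact h3 x h0
  | succ n ih =>
    intro Rr x h0 h1 h2 h3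
    obtain ⟨a, b⟩ := h2 0 (Nat.succ_pos n) x h0
    by_cases hx : x ∈ U
    · rw [Pk_succ_mem hx, Pk_succ_mem (a.1 hx), Pf, Pf]
      refine sum_congr rfl fun s _ => ?_
      rw [← pr_congr lam (b hx)]
      by_cases hs : ω (edge x s) = true
      · rw [ih (fun i => Rr (i + 1)) _ (h1 0 (Nat.succ_pos n) x s h0 hx hs)
          (fun i hi => h1 (i + 1) (by omega)) (fun i hi => h2 (i + 1) (by omega)) h3]
      · simp [pr, hs]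
    · rw [Pk_succ_not hx, Pk_succ_not fun h => hx (a.2 h)]

/-- monotone in the function, on the sites that can be reached -/
theorem Pk_mono_loc {f f' : V D → ℝ} (n : ℕ) :
    ∀ (Rr : ℕ → V D → Prop) (x : V D), Rr 0 x →
    (∀ i < n, ∀ y s, Rr i y → y ∈ U → ω (edge y s) = true → Rr (i + 1) (y + vec s)) →
    (∀ y, Rr n y → f y ≤ f' y) → Pk lam ω U n f x ≤ Pk lam ω U n f' x := by
  induction n with
  | zero => intro Rr x h0 _ h3; exact h3 x h0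
  | succ n ih =>
    intro Rr x h0 h1 h3
    by_cases hx : x ∈ U
    · rw [Pk_succ_mem hx, Pk_succ_mem hx]
      exact Pf_mono' fun s hs => ih (fun i => Rr (i + 1)) _ (h1 0 (Nat.succ_pos n) x s h0 hx hs)
        (fun i hi => h1 (i + 1) (by omega)) h3
    · rw [Pk_succ_not hx, Pk_succ_not hx]

theorem Pk_mono {f g : V D → ℝ} (h : ∀ y, f y ≤ g y) (k : ℕ) (x : V D) :
    Pk lam ω U k f x ≤ Pk lam ω U k g x :=
  Pk_mono_loc k (fun _ _ => True) x trivial (fun _ _ _ _ _ _ _ => trivial) fun y _ => h y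

theorem Pk_nonneg {f : V D → ℝ} (h : ∀ y, 0 ≤ f y) (k : ℕ) : ∀ x, 0 ≤ Pk lam ω U k f x := by
  induction k with
  | zero => exact h
  | succ k ih =>
    intro x
    by_cases hx : x ∈ U
    · rw [Pk_succ_mem hx]; exact Pf_nonneg ih x
    · rw [Pk_succ_not hx]

/-- monotone in the domain -/
theorem Pk_dom {U' : Set (V D)} (hU : U ⊆ U') {f : V D → ℝ} (h : ∀ y, 0 ≤ f y) (k : ℕ) :
    ∀ x, Pk lam ω U k f x ≤ Pk lam ω U' k f x := by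
  induction k with
  | zero => exact fun _ => le_rfl
  | succ k ih =>
    intro x
    by_cases hx : x ∈ U
    · rw [Pk_succ_mem hx, Pk_succ_mem (hU hx)]; exact Pf_mono ih x
    · rw [Pk_succ_not hx]; exact Pk_nonneg h _ x

theorem Pk_le {f : V D → ℝ} {c : ℝ} (hc : 0 ≤ c) (h : ∀ y, f y ≤ c) (k : ℕ) :
    ∀ x, Pk lam ω U k f x ≤ c := by
  induction k with
  | zero => exact h
  | succ k ih =>
    intro x
    by_cases hx : x ∈ U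
    · rw [Pk_succ_mem hx]; exact Pf_le hc fun _ _ => ih _
    · rw [Pk_succ_not hx]; exact hc

theorem Pk_lin (a b : ℝ) (f g : V D → ℝ) (k : ℕ) : ∀ x,
    Pk lam ω U k (fun y => a * f y + b * g y) x = a * Pk lam ω U k f x + b * Pk lam ω U k g x := by
  induction k with
  | zero => exact fun _ => rfl
  | succ k ih =>
    intro x
    by_cases hx : x ∈ U
    · simp only [Pk_succ_mem hx]
      rw [funext ih, Pf_add, Pf_mul, Pf_mul]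
    · simp [Pk_succ_not hx]

theorem Pk_add (f g : V D → ℝ) (k : ℕ) (x : V D) :
    Pk lam ω U k (fun y => f y + g y) x = Pk lam ω U k f x + Pk lam ω U k g x := by
  simpa using Pk_lin (lam := lam) (ω := ω) (U := U) 1 1 f g k x

theorem Pk_sub (f g : V D → ℝ) (k : ℕ) (x : V D) :
    Pk lam ω U k (fun y => f y - g y) x = Pk lam ω U k f x - Pk lam ω U k g x := by
  simpa [sub_eq_add_neg] using Pk_lin (lam := lam) (ω := ω) (U := U) 1 (-1) f g k x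

theorem Pk_mul (c : ℝ) (f : V D → ℝ) (k : ℕ) (x : V D) :
    Pk lam ω U k (fun y => c * f y) x = c * Pk lam ω U k f x := by
  simpa using Pk_lin (lam := lam) (ω := ω) (U := U) c 0 f f k x

theorem Pk_neg (f : V D → ℝ) (k : ℕ) (x : V D) :
    Pk lam ω U k (fun y => -f y) x = -Pk lam ω U k f x := by
  simpa using Pk_mul (lam := lam) (ω := ω) (U := U) (-1) f k x

theorem Pk_sum {α : Type} (T : Finset α) (f : α → V D → ℝ) (k : ℕ) (x : V D) :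
    Pk lam ω U k (fun y => ∑ a ∈ T, f a y) x = ∑ a ∈ T, Pk lam ω U k (f a) x := by
  induction T using Finset.induction_on with
  | empty => simpa using Pk_mul (lam := lam) (ω := ω) (U := U) 0 (fun _ => 0) k x
  | insert a T ha ih => simp only [sum_insert ha]; rw [Pk_add, ih]

theorem abs_Pk_le {f g : V D → ℝ} (h : ∀ y, |f y| ≤ g y) (k : ℕ) (x : V D) :
    |Pk lam ω U k f x| ≤ Pk lam ω U k g x := by
  refine abs_le.2 ⟨?_, Pk_mono (fun y => (abs_le.1 (h y)).2) k x⟩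
  rw [← Pk_neg]; exact Pk_mono (fun y => (abs_le.1 (h y)).1) k x

/-! ### Green sums -/

@[simp] theorem Gs_zero (f : V D → ℝ) (x : V D) : Gs lam ω U 0 f x = 0 := rfl

theorem Gs_succ' (n : ℕ) (f : V D → ℝ) (x : V D) :
    Gs lam ω U (n + 1) f x = Gs lam ω U n f x + Pk lam ω U n f x := sum_range_succ _ _

theorem Gs_succ_mem {x : V D} (h : x ∈ U) (n : ℕ) (f : V D → ℝ) :
    Gs lam ω U (n + 1) f x = f x + Pf lam ω (Gs lam ω U n f) x := by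
  have := Pf_sum (lam := lam) (ω := ω) (range n) (fun k => Pk lam ω U k f) x
  rw [Gs, sum_range_succ', add_comm]
  simp only [Pk_succ_mem h, Pk_zero]
  rw [← this]; rfl

theorem Gs_succ_not {x : V D} (h : x ∉ U) (n : ℕ) (f : V D → ℝ) :
    Gs lam ω U (n + 1) f x = f x := by
  rw [Gs, sum_range_succ']; simp [Pk_succ_not h]

theorem Gs_nonneg {f : V D → ℝ} (h : ∀ y, 0 ≤ f y) (n : ℕ) (x : V D) : 0 ≤ Gs lam ω U n f x :=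
  sum_nonneg fun k _ => Pk_nonneg h k x

theorem Gs_mono {f g : V D → ℝ} (h : ∀ y, f y ≤ g y) (n : ℕ) (x : V D) :
    Gs lam ω U n f x ≤ Gs lam ω U n g x := sum_le_sum fun k _ => Pk_mono h k x

theorem Gs_dom {U' : Set (V D)} (hU : U ⊆ U') {f : V D → ℝ} (h : ∀ y, 0 ≤ f y) (n : ℕ) (x : V D) :
    Gs lam ω U n f x ≤ Gs lam ω U' n f x := sum_le_sum fun k _ => Pk_dom hU h k x

theorem Gs_time {f : V D → ℝ} (h : ∀ y, 0 ≤ f y) {n n' : ℕ} (hn : n ≤ n') (x : V D) :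
    Gs lam ω U n f x ≤ Gs lam ω U n' f x :=
  sum_le_sum_of_subset_of_nonneg (range_mono hn) fun k _ _ => Pk_nonneg h k x

theorem Gs_add (f g : V D → ℝ) (n : ℕ) (x : V D) :
    Gs lam ω U n (fun y => f y + g y) x = Gs lam ω U n f x + Gs lam ω U n g x := by
  simp only [Gs, Pk_add, sum_add_distrib]

theorem Gs_sub (f g : V D → ℝ) (n : ℕ) (x : V D) :
    Gs lam ω U n (fun y => f y - g y) x = Gs lam ω U n f x - Gs lam ω U n g x := by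
  simp only [Gs, Pk_sub, sum_sub_distrib]

theorem Gs_mul (c : ℝ) (f : V D → ℝ) (n : ℕ) (x : V D) :
    Gs lam ω U n (fun y => c * f y) x = c * Gs lam ω U n f x := by
  simp only [Gs, Pk_mul, mul_sum]

/-- the identity of Dynkin -/
theorem dyn (U : Set (V D)) (u : V D → ℝ) (n : ℕ) : ∀ x, u x =
    Gs lam ω U n (U.indicator fun y => u y - Pf lam ω u y) x +
      Gs lam ω U (n + 1) (Uᶜ.indicator u) x + Pk lam ω U n (U.indicator u) x := by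
  induction n with
  | zero =>
    intro x
    by_cases hx : x ∈ U <;> simp [Gs, hx]
  | succ n ih =>
    intro x
    by_cases hx : x ∈ U
    · rw [Gs_succ_mem hx, Gs_succ_mem hx (n + 1), Pk_succ_mem hx, Set.indicator_of_mem hx,
        Set.indicator_of_notMem (by simpa using hx)]
      have := congrFun (congrArg (Pf lam ω) (funext ih)) x
      rw [Pf_add, Pf_add] at this
      linarith
    · rw [Gs_succ_not hx, Gs_succ_not hx, Pk_succ_not hx, Set.indicator_of_notMem hx,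
        Set.indicator_of_mem (by simpa using hx)]
      simp

/-- exit and survival have total mass at most one -/
theorem exit_add_le (U : Set (V D)) (n : ℕ) : ∀ x,
    Gs lam ω U (n + 1) (chi Uᶜ) x + Pk lam ω U n (chi U) x ≤ 1 := by
  induction n with
  | zero => intro x; by_cases hx : x ∈ U <;> simp [Gs, chi, hx]
  | succ n ih =>
    intro x
    by_cases hx : x ∈ U
    · rw [Gs_succ_mem hx, Pk_succ_mem hx, chi_of_not (by simpa using hx), zero_add, ← Pf_add]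
      exact Pf_le zero_le_one fun _ _ => ih _
    · rw [Gs_succ_not hx, Pk_succ_not hx, add_zero]; exact chi_le_one _ _

/-- and exactly one from a site with an open edge -/
theorem exit_add_eq (U : Set (V D)) (n : ℕ) : ∀ x, 0 < Zq lam ω x →
    Gs lam ω U (n + 1) (chi Uᶜ) x + Pk lam ω U n (chi U) x = 1 := by
  induction n with
  | zero => intro x _; by_cases hx : x ∈ U <;> simp [Gs, chi, hx]
  | succ n ih =>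
    intro x h0
    by_cases hx : x ∈ U
    · rw [Gs_succ_mem hx, Pk_succ_mem hx, chi_of_not (by simpa using hx), zero_add, ← Pf_add,
        ← Pf_const h0 1]
      exact Pf_congr' fun s hs => ih _ (Zq_pos_of_conn (Conn.step hs) h0)
    · rw [Gs_succ_not hx, Pk_succ_not hx, add_zero]; exact chi_of_mem (by simpa using hx)

theorem Gs_chi_le_one {Z : Set (V D)} (h : Disjoint U Z) (n : ℕ) (x : V D) :
    Gs lam ω U n (chi Z) x ≤ 1 := by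
  have h1 := exit_add_le (lam := lam) (ω := ω) U n x
  have h2 := Pk_nonneg (lam := lam) (ω := ω) (U := U) (chi_nonneg U) n x
  have h3 : Gs lam ω U n (chi Z) x ≤ Gs lam ω U (n + 1) (chi Uᶜ) x := by
    refine (Gs_mono (fun y => ?_) n x).trans (Gs_time (chi_nonneg _) (Nat.le_succ n) x)
    by_cases hy : y ∈ Z
    · rw [chi_of_mem hy, chi_of_mem (show y ∈ Uᶜ from fun hU => Set.disjoint_left.1 h hU hy)]
    · rw [chi_of_not hy]; exact chi_nonneg _ _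
  linarith

/-- strong Markov property at the hitting time of `Z` -/
theorem Gs_markov {A Z : Set (V D)} (hA : A ⊆ U) (hZ : Disjoint A Z) {f : V D → ℝ}
    (hf : ∀ y, 0 ≤ f y) (n N : ℕ) : ∀ x,
    Gs lam ω A (N + 1) (Z.indicator (Gs lam ω U n f)) x ≤ Gs lam ω U (N + n) f x := by
  induction N with
  | zero =>
    intro x
    simp only [Gs, zero_add, range_one, sum_singleton, Pk_zero]
    exact Set.indicator_le_self' (fun y _ => Gs_nonneg hf n y) x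
  | succ N ih =>
    intro x
    by_cases hx : x ∈ A
    · rw [Gs_succ_mem hx, Set.indicator_of_notMem (Set.disjoint_left.1 hZ hx), zero_add,
        show N + 1 + n = N + n + 1 by ring, Gs_succ_mem (hA hx)]
      linarith [Pf_mono (lam := lam) (ω := ω) ih x, hf x]
    · rw [Gs_succ_not hx]
      exact (Set.indicator_le_self' (fun y _ => Gs_nonneg hf n y) x).trans
        (Gs_time hf (by omega) x)

/-- a walk that leaves `U` through `Z` stays in `A` or visits `U \ A` -/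
theorem Gs_split {A Z : Set (V D)} (hA : A ⊆ U) (hZ : Disjoint U Z) (n : ℕ) : ∀ x,
    Gs lam ω U n (chi Z) x ≤ Gs lam ω A n (chi Z) x + Gs lam ω A n (chi (U \ A)) x := by
  induction n with
  | zero => intro x; simp
  | succ n ih =>
    intro x
    by_cases hx : x ∈ A
    · rw [Gs_succ_mem hx, Gs_succ_mem hx, Gs_succ_mem (hA hx)]
      have := Pf_mono (lam := lam) (ω := ω) ih x
      rw [Pf_add] at this
      linarith [chi_nonneg (U \ A) x]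
    · rw [Gs_succ_not hx, Gs_succ_not hx]
      by_cases hU : x ∈ U
      · rw [chi_of_mem (show x ∈ U \ A from ⟨hU, hx⟩)]
        linarith [Gs_chi_le_one (lam := lam) (ω := ω) hZ (n + 1) x, chi_nonneg Z x]
      · rw [Gs_succ_not hU]; linarith [chi_nonneg (U \ A) x]

/-! ### conductances -/

theorem cnd_nonneg (x : V D) (s : Step D) : 0 ≤ cnd lam ω x s := by
  unfold cnd; split_ifs; exacts [(exp_pos _).le, le_rfl]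

theorem pim_pr (x : V D) (s : Step D) : pim lam ω x * pr lam ω x s = cnd lam ω x s := by
  unfold cnd
  split_ifs with h
  · rw [pr_of_open lam h, pim, mul_assoc, mul_div_cancel₀ _ (Zq_pos lam h).ne', wt, ← exp_add, expo]
    congr 1; push_cast; ring
  · simp [pr, h]

theorem sum_cnd (x : V D) : ∑ s, cnd lam ω x s = pim lam ω x := by
  rw [pim, Zq, mul_sum]
  refine sum_congr rfl fun s _ => ?_
  unfold cnd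
  split_ifs with h
  · rw [wt, ← exp_add, expo]; congr 1; push_cast; ring
  · simp

theorem pim_Pf (f : V D → ℝ) (x : V D) :
    pim lam ω x * Pf lam ω f x = ∑ s, cnd lam ω x s * f (x + vec s) := by
  simp only [Pf, mul_sum, ← mul_assoc, pim_pr]

theorem En_eq (Q : Finset (V D)) (g : V D → ℝ) :
    En lam ω Q g = ∑ x ∈ Q, ∑ s, cnd lam ω x s * (g (x + vec s) - g x) ^ 2 := by
  refine sum_congr rfl fun x _ => sum_congr rfl fun s _ => ?_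
  unfold cnd; split_ifs <;> simp

theorem pim_le (h0 : 0 ≤ lam) (h1 : lam ≤ 1) (x : V D) :
    pim lam ω x ≤ (2 * D + 4) * exp (2 * lam * (x 0 : ℝ)) := by
  rw [pim, mul_comm]
  exact mul_le_mul_of_nonneg_right ((Zq_le_Zf _ _ _).trans (Zf_le h0 h1)) (exp_pos _).le

theorem le_pim (h0 : 0 ≤ lam) (h1 : lam ≤ 1) {x : V D} (hx : 0 < Zq lam ω x) :
    exp (2 * lam * (x 0 : ℝ)) / 3 ≤ pim lam ω x := by
  have := third_le_Zq (abs_le.2 ⟨by linarith, h1⟩) hx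
  rw [pim]; nlinarith [exp_pos (2 * lam * (x 0 : ℝ))]

/-! ### wide sites and scales -/

theorem wide_step {h : ℕ} {x : V D} {s : Step D} (hx : Wide ω x h) (hs : ω (edge x s) = true) :
    Wide ω (x + vec s) h := hx.of_conn (Conn.step hs)

theorem wide_Zq {h : ℕ} (h1 : 1 ≤ h) {x : V D} (hx : Wide ω x h) (lam : ℝ) : 0 < Zq lam ω x := by
  obtain ⟨a, b, ha, hb, hab⟩ := hx
  by_cases e : a = x
  · subst e
    refine Zq_pos_of_ne hb fun e' => ?_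
    subst e'; simp at hab; omega
  · exact Zq_pos_of_ne ha e

theorem mem_wb' {h r : ℕ} {x y : V D} : y ∈ wb' ω h x r ↔ nrm (y - x) ≤ r ∧ Wide ω y h := by
  rw [wb', mem_filter, mem_ball]

theorem nrm_step (y x : V D) (s : Step D) : nrm (y + vec s - x) ≤ nrm (y - x) + 1 := by
  rw [add_sub_right_comm]; exact (nrm_add_le _ _).trans (Nat.add_le_add_left (nrm_vec_le s) _)

/-- only the wide sites within distance `n` matter -/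
theorem Pk_wide {h : ℕ} {x : V D} (hx : Wide ω x h) {U' : Set (V D)} {f f' : V D → ℝ} (n : ℕ)
    (hU : ∀ y, Wide ω y h → nrm (y - x) ≤ n → (y ∈ U ↔ y ∈ U'))
    (hf : ∀ y, Wide ω y h → nrm (y - x) ≤ n → f y = f' y) :
    Pk lam ω U n f x = Pk lam ω U' n f' x :=
  Pk_loc n (fun i y => Wide ω y h ∧ nrm (y - x) ≤ i) x ⟨hx, by simp⟩
    (fun _ _ y s hy _ hs => ⟨wide_step hy.1 hs, (nrm_step y x s).trans (by omega)⟩)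
    (fun i hi y hy => ⟨hU y hy.1 (by omega), fun _ _ => rfl⟩) fun y hy => hf y hy.1 hy.2

theorem Sc.lpos {l m : ℕ} (h : Sc l m lam) : (0 : ℝ) < l := by
  have := h.l16; positivity

theorem Sc.pos {l m : ℕ} (h : Sc l m lam) : 0 < lam := lt_of_lt_of_le (by have := h.lpos; positivity) h.lo

theorem Sc.mul_le {l m : ℕ} (h : Sc l m lam) : lam * l ≤ 4 := (le_div_iff₀ h.lpos).1 h.hi

theorem Sc.le_mul {l m : ℕ} (h : Sc l m lam) : 1 ≤ lam * l := (div_le_iff₀ h.lpos).1 h.lo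

theorem Sc.le_quarter {l m : ℕ} (h : Sc l m lam) : lam ≤ 1 / 4 := by
  have h1 : (16 : ℝ) ≤ l := by exact_mod_cast h.l16
  nlinarith [h.mul_le, h.pos]

/-- `M * m ^ 5 ≤ l` as soon as `M ^ 6 ≤ l` -/
theorem Sc.big {l m : ℕ} (h : Sc l m lam) {M : ℕ} (hM : M ^ 6 ≤ l) : M * m ^ 5 ≤ l := by
  by_cases c : m ≤ M
  · calc M * m ^ 5 ≤ M * M ^ 5 := Nat.mul_le_mul_left _ (Nat.pow_le_pow_left c 5)
      _ = M ^ 6 := by ring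
      _ ≤ l := hM
  · have h1 : 1 ≤ m := by omega
    calc M * m ^ 5 ≤ m * m ^ 5 := Nat.mul_le_mul_right _ (by omega)
      _ = m ^ 6 := by ring
      _ ≤ m ^ 8 := Nat.pow_le_pow_right h1 (by norm_num)
      _ ≤ l := h.m8

theorem Sc.m16 {l m : ℕ} (h : Sc l m lam) : 16 * m ≤ l := by
  have h1 := h.l16
  by_cases c : m ≤ 1
  · omega
  · calc 16 * m ≤ m ^ 7 * m := Nat.mul_le_mul_right _
          ((show 16 ≤ 2 ^ 7 by norm_num).trans (Nat.pow_le_pow_left (by omega) 7))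
      _ = m ^ 8 := by ring
      _ ≤ l := h.m8

/-! ### real weights of lists -/

@[simp] theorem wr_nil (x : V D) : wr lam ω x [] = 1 := rfl

theorem wr_cons (x : V D) (s : Step D) (l : List (Step D)) :
    wr lam ω x (s :: l) = pr lam ω x s * wr lam ω (x + vec s) l := rfl

theorem wr_nonneg (l : List (Step D)) : ∀ x : V D, 0 ≤ wr lam ω x l := by
  induction l with
  | nil => intro x; simp
  | cons s l ih => intro x; exact mul_nonneg (pr_nonneg _ _ _ _) (ih _)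

theorem W_eq_wr (l : List (Step D)) : ∀ x : V D, W lam ω x l = ENNReal.ofReal (wr lam ω x l) := by
  induction l with
  | nil => intro x; simp [W]
  | cons s l ih => intro x; rw [W_cons, ih, wr_cons, ENNReal.ofReal_mul (pr_nonneg _ _ _ _)]

theorem wr_eq_W (x : V D) (l : List (Step D)) : wr lam ω x l = (W lam ω x l).toReal := by
  rw [W_eq_wr, ENNReal.toReal_ofReal (wr_nonneg l x)]

theorem wr_append (x : V D) (u l : List (Step D)) :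
    wr lam ω x (u ++ l) = wr lam ω x u * wr lam ω (x + pos u) l := by
  simp only [wr_eq_W, W_append, ENNReal.toReal_mul]

theorem wr_shift (x y : V D) (l : List (Step D)) :
    wr lam (shift x ω) y l = wr lam ω (y + x) l := by simp only [wr_eq_W, W_shift]

theorem measurable_wr (lam : ℝ) (x : V D) (l : List (Step D)) :
    Measurable fun ω : Cfg D => wr lam ω x l := by
  simp only [wr_eq_W]; exact (measurable_W lam x l).ennreal_toReal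

theorem mem_Lg {L N : ℕ} {l : List (Step D)} :
    l ∈ Lg D L N ↔ l.length ≤ N ∧ Rec l ∧ lev l = L := by simp [Lg]

/-- finite sums of real weights are sums over sets of lists -/
theorem SS_coe (T : Finset (List (Step D))) (f : List (Step D) → ℝ≥0∞) :
    SS (T : Set (List (Step D))) f = ∑ l ∈ T, f l := by
  rw [SS, tsum_eq_sum (s := T) fun l hl => Set.indicator_of_notMem (by simpa using hl) _]
  exact sum_congr rfl fun l hl => Set.indicator_of_mem (by simpa using hl) _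

theorem kraft_wr {T : Finset (List (Step D))} (hT : Antich (T : Set (List (Step D)))) (x : V D) :
    ∑ l ∈ T, wr lam ω x l ≤ 1 := by
  have h := kraft lam ω hT x
  rw [SS_coe] at h
  simp only [W_eq_wr] at h
  rwa [← ENNReal.ofReal_sum_of_nonneg fun l _ => wr_nonneg l x, ENNReal.ofReal_le_one] at h

theorem antich_rec (L : ℤ) : Antich {l : List (Step D) | Rec l ∧ lev l = L} := by
  rintro u ⟨_, hu⟩ l ⟨hl, hl'⟩ ⟨t, rfl⟩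
  by_contra hne
  have ht : t ≠ [] := fun h => hne (by simp [h])
  have h1 := hl u.length (by simpa using List.length_pos_iff.2 ht)
  rw [H_append_left t le_rfl, H_of_le le_rfl] at h1
  omega

theorem antich_Lg (L N : ℕ) : Antich (Lg D L N : Set (List (Step D))) :=
  (antich_rec L).mono fun _ hl => (mem_Lg.1 hl).2

theorem ms_le_one (L N : ℕ) : ms lam L N ω ≤ 1 := kraft_wr (antich_Lg L N) 0

end Pool.Agent.MP_8c549f_pr.L2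

end

end Part2

-- ======== part 3: SpecB
section Part3

/-! PROJECT L2: statements of the annealed part (calculus, chains of legs, regeneration). -/

noncomputable section

namespace Pool.Agent.MP_8c549f_pr.L2

open MeasureTheory Finset Real Classical S3
open scoped ENNReal

/-! ### dependence on the bias -/

def STEPStmt : Prop := ∀ (D : ℕ) (lam a : ℝ) (ω : Cfg D) (l : List (Step D)) (x : V D), |a| ≤ 1 →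
  wr lam ω x l * exp (a * Mg lam ω x l - a ^ 2 * l.length) ≤ wr (lam + a) ω x l ∧
  wr (lam + a) ω x l ≤ wr lam ω x l * exp (a * Mg lam ω x l) ∧ |Mg lam ω x l| ≤ 2 * l.length

def CALStmt : Prop := ∀ (D L N : ℕ) (ω : Cfg D) (x z z' a : ℝ), x ≤ z → z < z' → z - x ≤ 1 →
  z' - z ≤ 1 → 0 < a → a ≤ 1 →
  tt z L N ω - tt x L N ω ≤ (z - x) *
    ((tt z' L N ω - tt z L N ω) / (z' - z) + (z - x + (z' - z)) * t2 z L N ω) ∧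
  ∑ l ∈ Lg D L N, |wr z ω 0 l - wr x ω 0 l| ≤
    2 * (z - x) * (a * tt z L N ω + 2 / a) + 2 * (z - x) ^ 2 * tt z L N ω + (1 - ms z L N ω)

def THREEStmt : Prop := ∀ (D : ℕ) (x s ζ : ℝ) (ω : Cfg D) (l : List (Step D)) (y : V D),
  0 < s → s ≤ ζ → ζ ≤ 1 →
  |wr (x + s) ω y l - ((1 - s / ζ) * wr x ω y l + s / ζ * wr (x + ζ) ω y l)| ≤
    16 * s * ζ * (l.length : ℝ) ^ 2 * (wr x ω y l + wr (x + s) ω y l + wr (x + ζ) ω y l)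

def REGStmt : Prop := ∀ (D : ℕ) (p x s ζ M c : ℝ), 0 ≤ p → p ≤ 1 → 0 < s → s ≤ ζ → ζ ≤ 1 →
  0 ≤ M → (∀ lam, lam = x ∨ lam = x + s ∨ lam = x + ζ →
    SS {l : List (Step D) | Block l} (wb true p lam) = 1 ∧ M3 D p lam ≤ ENNReal.ofReal M) →
  kap D p (x + ζ) - kap D p x ≤ -(c * ζ) → 48 * ζ * M * (1 + M) < c → kap D p (x + s) < kap D p x

/-! ### chains of legs -/

def MPStmt : Prop := ∀ (D : ℕ) (p : ℝ), 0 ≤ p → p ≤ 1 →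
  (∀ S : Set (Edge D), MeasurePreserving (fun q : Cfg D × Cfg D => ovw S q.1 q.2)
    ((perc D p).prod (perc D p)) (perc D p)) ∧
  ∀ y : V D, MeasurePreserving (shift y) (perc D p) (perc D p)

def VBStmt : Prop := ∀ (D : ℕ) (p : ℝ), 0 ≤ p → p ≤ 1 →
  (∀ (S : Set (Edge D)) (η : Cfg D), Measurable (ovw S η)) ∧
  (∀ (u : Cfg D → ℝ) (f : Cfg D → Cfg D), BM u → Measurable f →
    Integrable (fun ω => u (f ω)) (perc D p)) ∧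
  (∀ u : Cfg D → ℝ, BM u → BM (Fr p u)) ∧
  (∀ G : Cfg D → Prop, MeasurableSet {ω | G ω} →
    BM (fun ω => S3.ind (¬ G ω)) ∧ BM (bad p G) ∧ ∀ η, 0 ≤ bad p G η) ∧
  ∀ (lam : ℝ) (L N : ℕ), (BM (tt (D := D) lam L N) ∧ ∀ ω : Cfg D, 0 ≤ tt lam L N ω ∧ tt lam L N ω ≤ N) ∧
    (∀ u : Cfg D → ℝ, BM u → BM (Kk lam L N u)) ∧
    (∀ (u : Cfg D → ℝ) (c : ℝ), 0 ≤ c → (∀ ω, 0 ≤ u ω ∧ u ω ≤ c) →
      ∀ ω, 0 ≤ Kk lam L N u ω ∧ Kk lam L N u ω ≤ c) ∧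
    ∀ n, BM (Vn (D := D) lam L N n) ∧ ∀ ω : Cfg D, (0 ≤ Vn lam L N n ω ∧ Vn lam L N n ω ≤ n * N) ∧
      0 ≤ Fr p (Vn lam L N n) ω ∧ Fr p (Vn lam L N n) ω ≤ n * N

/-- the edges above the end of a first passage are fresh -/
def FRStmt : Prop := ∀ (D : ℕ) (p lam : ℝ), 0 ≤ p → p ≤ 1 → ∀ u : Cfg D → ℝ, BM u →
  (∀ (S : Set (Edge D)) (η : Cfg D) (l : List (Step D)), S ⊆ Past D → Rec l → 0 ≤ lev l →
    ∫ ω, wr lam (ovw S η ω) 0 l * u (shift (pos l) (ovw S η ω)) ∂perc D p =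
      ∫ ω, wr lam (ovw S η ω) 0 l * Fr p u (shift (pos l) (ovw S η ω)) ∂perc D p) ∧
  ∀ (L N : ℕ) (η : Cfg D), Fr p (Kk lam L N u) η = Fr p (Kk lam L N (Fr p u)) η

def CPLStmt : Prop := ∀ (ι : Type) (T : Finset ι) (a₁ a₂ u₁ u₂ b₁ b₂ : ι → ℝ) (A B U τ c : ℝ),
  (∀ i, 0 ≤ a₁ i ∧ 0 ≤ a₂ i ∧ 0 ≤ b₁ i ∧ 0 ≤ b₂ i ∧ u₁ i ≤ U ∧ 0 ≤ u₂ i) → 0 ≤ U → 0 ≤ τ →
  0 ≤ A → A ≤ B → ∑ i ∈ T, a₁ i ≤ 1 → ∑ i ∈ T, a₂ i ≤ 1 → 1 - τ ≤ ∑ i ∈ T, a₂ i →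
  c ≤ ∑ i ∈ T, min (a₁ i) (a₂ i) →
  (∀ i ∈ T, a₁ i ≠ 0 → a₂ i ≠ 0 → u₁ i - u₂ i ≤ A + b₁ i + b₂ i) →
  (∀ i ∈ T, ∀ k ∈ T, u₁ i - u₂ k ≤ B + b₁ i + b₂ k) →
  ∑ i ∈ T, a₁ i * u₁ i - ∑ i ∈ T, a₂ i * u₂ i ≤
    c * A + (1 - c) * B + ∑ i ∈ T, a₁ i * b₁ i + ∑ i ∈ T, a₂ i * b₂ i + τ * U

def MIXStmt : Prop := ∀ (D : ℕ) (p lam : ℝ) (L N : ℕ) (G : ℕ → Cfg D → Prop) (τ c y : ℝ),
  0 ≤ p → p ≤ 1 → Mix lam L N G τ c y → ∀ (n j : ℕ) (η η' : Cfg D), AgrP (j * L) η η' →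
  |Fr p (Vn lam L N n) η - Fr p (Vn lam L N n) η'| ≤
    4 * y / c / 2 ^ j + n * (n * N + 4 * y / c) * (τ + bad p (G n) η + bad p (G n) η')

def TELStmt : Prop := ∀ (D : ℕ) (p x z : ℝ) (L N n₁ : ℕ) (G : ℕ → Cfg D → Prop) (τ c y g θ : ℝ),
  0 ≤ p → p ≤ 1 → Mix x L N G τ c y → Inh z L N G τ → 0 ≤ g → g ≤ N → θ * (4 * y / c) ≤ g →
  (∀ n ω, G (n + 1) ω → tt z L N ω - tt x L N ω ≤ -(2 * g) ∧
    ∑ l ∈ Lg D L N, |wr z ω 0 l - wr x ω 0 l| ≤ θ + τ) →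
  (∀ n ≤ n₁, bad p (G n) (allOpen D) ≤ τ) → ∀ n ≤ n₁, ∀ η : Cfg D,
  Fr p (Vn z L N n) η - Fr p (Vn x L N n) η ≤
    -(n * g) + 7 * (n : ℝ) ^ 2 * (n * N + 4 * y / c) * (τ + bad p (G n) η)

def CHNStmt : Prop := ∀ (D L N : ℕ),
  (∀ n, ∀ l ∈ Chn D L N n, Rec l ∧ lev l = (n * L : ℕ) ∧ l.length ≤ n * N ∧ ∀ i, -(N : ℤ) ≤ H l i) ∧
  ∀ lam : ℝ, (∀ (n : ℕ) (ω : Cfg D), ∑ l ∈ Chn D L N n, wr lam ω 0 l ≤ 1 ∧
    ∑ l ∈ Chn D L N n, wr lam ω 0 l * l.length ≤ Vn lam L N n ω ∧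
    Vn lam L N n ω ≤ ∑ l ∈ Chn D L N n, wr lam ω 0 l * l.length +
      n * N * (1 - ∑ l ∈ Chn D L N n, wr lam ω 0 l)) ∧
  ∀ (G : ℕ → Cfg D → Prop) (τ : ℝ), Inh lam L N G τ → ∀ n ω, G n ω →
    1 - n * τ ≤ ∑ l ∈ Chn D L N n, wr lam ω 0 l

/-- a first piece that stays above the start, followed by `n` legs -/
def LK1Stmt : Prop := ∀ (D L N h₀ N₁ n : ℕ), N ≤ h₀ → ∃ T : Finset (List (Step D)),
  (T : Set (List (Step D))) ⊆ FPS D (h₀ + n * L) ∧ ∀ (lam : ℝ) (ω : Cfg D),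
  ∑ l ∈ T, wr lam ω 0 l = ∑ u ∈ (Lg D h₀ N₁).filter Stay, wr lam ω 0 u *
    ∑ l ∈ Chn D L N n, wr lam (shift (pos u) ω) 0 l ∧
  ∑ l ∈ T, wr lam ω 0 l * l.length = ∑ u ∈ (Lg D h₀ N₁).filter Stay, wr lam ω 0 u *
    (u.length * ∑ l ∈ Chn D L N n, wr lam (shift (pos u) ω) 0 l +
      ∑ l ∈ Chn D L N n, wr lam (shift (pos u) ω) 0 l * l.length)

def QFStmt : Prop := ∀ (D : ℕ) (p lam : ℝ), 0 ≤ p → p ≤ 1 → ∀ k : ℕ,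
  QQ D p lam k + ∑ i ∈ range k, Ret D p lam i ≤ 1 ∧
  (∀ n, 1 ≤ QQ D p lam k + ∑ i ∈ range k, Ret D p lam i + Sl D p lam k n) ∧
  (∀ k', k ≤ k' → QQ D p lam k' ≤ QQ D p lam k) ∧
  ∀ n, SS {l | l ∈ FPS D k ∧ n < l.length} (wb true p lam) ≤ Sl D p lam k n

def LINKStmt : Prop := ∀ (D : ℕ) (p lam : ℝ) (L N h₀ N₁ n M : ℕ) (G : ℕ → Cfg D → Prop)
  (G₀ : Cfg D → Prop) (τ Y E c σ T : ℝ), 0 ≤ p → p ≤ 1 → N ≤ h₀ → Inh lam L N G τ →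
  MeasurableSet {ω | G₀ ω} → (perc D p).real {ω | ¬ G₀ ω} ≤ τ →
  (∀ ω, G₀ ω → ∀ l ∈ Lg D h₀ N₁, wr lam (plus ω) 0 l ≠ 0 → G n (shift (pos l) (plus ω))) →
  0 ≤ Y → 0 ≤ E → 0 ≤ c → c ≤ n * N → 0 ≤ σ → 0 ≤ T →
  (∀ η, |Fr p (Vn lam L N n) η - c| ≤ Y + E * (2 * τ + bad p (G n) η)) →
  SS {l | l ∈ FPS D h₀ ∧ N₁ < l.length} (wb true p lam) ≤ ENNReal.ofReal σ →
  (SS {l | l ∈ FPS D (h₀ + n * L) ∧ M < l.length} fun l => l.length * wb true p lam l) ≤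
    ENNReal.ofReal T →
  |(XX D p lam (h₀ + n * L)).toReal - (QQ D p lam h₀).toReal * c| ≤
    N₁ + Y + 3 * E * τ + 2 * (n : ℝ) ^ 2 * N * τ + n * N * σ + M * (σ + (n + 1) * τ) + T

/-! ### from the quenched estimates to the hypotheses of the chain -/

def BTStmt : Prop := ∀ (D : ℕ) (lam : ℝ) (L N k : ℕ) (ω ω' : Cfg D), Agr k ω ω' →
  ms lam L N ω - bt lam L N k ω ≤ ovl lam L N ω ω' ∧
  tt lam L N ω - tt lam L N ω' ≤ √(t2 lam L N ω * bt lam L N k ω) ∧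
  tt lam L N ω ^ 2 ≤ t2 lam L N ω

def GOODStmt : Prop := ∀ (D A m h N : ℕ) (δ : ℝ),
  (∀ n, MeasurableSet {ω : Cfg D | Gn A m h δ N n ω}) ∧
  (∀ (lam : ℝ) (L n : ℕ) (ω : Cfg D), Gn A m h δ N (n + 1) ω → ∀ l ∈ Lg D L N,
    wr lam ω 0 l ≠ 0 → Gn A m h δ N n (shift (pos l) ω)) ∧
  (∀ (p : ℝ) (n R : ℕ), 0 ≤ p → p ≤ 1 → (n + 2) * N ≤ R →
    bad p (Gn A m h δ N n) (allOpen D) ≤ (perc D p).real {ω | ¬ Nice A m h δ R ω}) ∧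
  ∀ (lam : ℝ) (n R h₀ N₁ : ℕ) (ω : Cfg D), (n + 2) * N + N₁ ≤ R → 12 * h ≤ h₀ →
    Nice A m h δ R ω → ∀ l ∈ Lg D h₀ N₁, wr lam (plus ω) 0 l ≠ 0 →
    Gn A m h δ N n (shift (pos l) (plus ω))

/-- the quenched estimates at the scale `l` -/
structure Qu (D A Λ K l : ℕ) (δ C c ε : ℝ) : Prop where
  leg : ∀ (lam : ℝ) (n : ℕ) (ω : Cfg D), 1 / (l : ℝ) ≤ lam → lam ≤ 4 / (l : ℝ) →
    Gn A (mm l) (hA A l) δ (l ^ 4) n ω →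
    1 - 1 / (l : ℝ) ^ K ≤ ms lam (Λ * l) (l ^ 4) ω ∧ t2 lam (Λ * l) (l ^ 4) ω ≤ C * (l : ℝ) ^ 4 ∧
    (∀ j, 1 ≤ j → bt lam (Λ * l) (l ^ 4) (j * (Λ * l)) ω ≤ 1 / 16 ^ j) ∧
    |tt lam (Λ * l) (l ^ 4) ω - Λ * l / d0 D lam| ≤ ε * (l : ℝ) ^ 2
  ovl : ∀ (lam : ℝ) (n : ℕ) (ω ω' : Cfg D), 1 / (l : ℝ) ≤ lam → lam ≤ 4 / (l : ℝ) →
    Gn A (mm l) (hA A l) δ (l ^ 4) n ω → Gn A (mm l) (hA A l) δ (l ^ 4) n ω' → Agr 0 ω ω' →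
    c ≤ ovl lam (Λ * l) (l ^ 4) ω ω'

def QUStmt : Prop := ∀ D : ℕ, 1 ≤ D → ∃ (A Λ : ℕ) (C c : ℝ), 2 ≤ A ∧ 1 ≤ Λ ∧ 1 ≤ C ∧ 0 < c ∧
  c ≤ 1 ∧ ∀ ε : ℝ, 0 < ε → ∃ δ : ℝ, 0 < δ ∧ ∀ K : ℕ, ∃ l₀ : ℕ, ∀ l, l₀ ≤ l → 2 ≤ hA A l →
    hA A l ≤ mm l → mm l ^ 8 ≤ l → Qu D A Λ K l δ C c ε

def HYP1Stmt : Prop := ∀ (D A Λ K l : ℕ) (δ C c ε lam : ℝ), 1 ≤ C → 0 < c → c ≤ 1 → 0 < ε →
  ε ≤ 1 / 2 → Qu D A Λ K l δ C c ε → 1 / (l : ℝ) ≤ lam → lam ≤ 4 / (l : ℝ) →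
  Mix lam (Λ * l) (l ^ 4) (Gn (D := D) A (mm l) (hA A l) δ (l ^ 4)) (1 / (l : ℝ) ^ K) c
    (√(2 * ε * C) * (l : ℝ) ^ 2)

def HYP2Stmt : Prop := ∀ (D A Λ K l : ℕ) (δ C c ε κ x z : ℝ), 1 ≤ Λ → 1 ≤ C → 4 ≤ l → 0 < κ →
  κ ≤ 1 → 2 * κ * C ≤ Λ / (512 * (D + 1)) → 2 * ε ≤ κ * (Λ / (512 * (D + 1))) →
  Qu D A Λ K l δ C c ε → 1 / (l : ℝ) ≤ x → x ≤ z → z ≤ 3 / (l : ℝ) → z - x ≤ κ / l →
  ∀ (n : ℕ) (ω : Cfg D), Gn A (mm l) (hA A l) δ (l ^ 4) n ω →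
  tt z (Λ * l) (l ^ 4) ω - tt x (Λ * l) (l ^ 4) ω ≤
    -(2 * (Λ / (512 * (D + 1)) * (l : ℝ) ^ 3 * (z - x))) ∧
  ∑ u ∈ Lg D (Λ * l) (l ^ 4), |wr z ω 0 u - wr x ω 0 u| ≤
    (4 * C + 4) * l * (z - x) + 1 / (l : ℝ) ^ K

/-! ### regeneration with polynomial constants -/

def QSStmt : Prop := ∀ D : ℕ, 1 ≤ D → ∃ l₀ : ℕ, ∀ (l m n : ℕ) (lam : ℝ) (ω : Cfg D), l₀ ≤ l →
  1 / (l : ℝ) ≤ lam → lam ≤ 1 → l ^ 8 ≤ n → m ^ 2 ≤ n → Gd ω 0 (2 * n) (hh n) → Wide ω 0 (hh n) →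
  SS {u : List (Step D) | u.length = n ∧ ∀ k ≤ n, H u k ≤ m} (W lam ω 0) ≤
    ENNReal.ofReal (1 / (n : ℝ) ^ 9)

def SLABStmt : Prop := ∀ D : ℕ, 1 ≤ D → ∃ (e₀ : ℝ) (l₀ : ℕ), 0 < e₀ ∧
  ∀ (p lam : ℝ) (l m n : ℕ), 1 - e₀ ≤ p → p ≤ 1 → 0 ≤ p → l₀ ≤ l → 1 / (l : ℝ) ≤ lam → lam ≤ 1 →
  l ^ 8 ≤ n → m ^ 2 ≤ n → (perc D p).real {ω | ¬ Gd ω 0 (2 * n) (hh n)} ≤ 1 / (n : ℝ) ^ 9 ∧
    Sl D p lam m n ≤ ENNReal.ofReal (1 / (n : ℝ) ^ 8)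

def RET0Stmt : Prop := ∀ (D : ℕ) (p lam : ℝ) (i n : ℕ), 0 ≤ p → p ≤ 1 → 0 ≤ lam → lam ≤ 1 →
  Ret D p lam i ≤ Sl D p lam i n +
    ENNReal.ofReal (20 * (D + 1) * (n + 1) * (2 * n + 1) ^ (D + 1) * exp (-(2 * lam * i)))

def RET1Stmt : Prop := ∀ D : ℕ, 1 ≤ D → ∃ (e₀ : ℝ) (l₀ : ℕ), 0 < e₀ ∧
  ∀ (p lam : ℝ) (l i : ℕ), 1 - e₀ ≤ p → p ≤ 1 → 0 ≤ p → l₀ ≤ l → 1 / (l : ℝ) ≤ lam → lam ≤ 1 →
  Ret D p lam i ≤ ENNReal.ofReal ((l : ℝ) ^ 8 * exp (-(i / ((D + 2) * (l : ℝ)))))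

/-- last entrance above the starting level -/
def LASTStmt : Prop := ∀ (D : ℕ) (p lam : ℝ) (k n : ℕ), 0 ≤ p → p ≤ 1 →
  ∫⁻ ω, SS {u : List (Step D) | u.length ≤ n ∧ Rec u ∧ lev u = (k + 1 : ℕ)} (W lam ω 0) ∂perc D p ≤
    (n * (2 * n + 1) ^ (D + 1) : ℕ) * QQ D p lam k

def Q0Stmt : Prop := ∀ D : ℕ, 1 ≤ D → ∃ (e₀ : ℝ) (K l₀ : ℕ), 0 < e₀ ∧
  ∀ (p lam : ℝ) (l : ℕ), 1 - e₀ ≤ p → p ≤ 1 → 0 ≤ p → l₀ ≤ l → 1 / (l : ℝ) ≤ lam → lam ≤ 1 →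
  ∑' i, Ret D p lam i ≤ ENNReal.ofReal (1 - 1 / (l : ℝ) ^ K)

def HTStmt : Prop := ∀ D : ℕ, 1 ≤ D → ∃ C : ℝ, 1 ≤ C ∧ ∀ (p lam A q μ : ℝ), 1 / 2 ≤ p → p ≤ 1 →
  0 ≤ lam → lam ≤ 1 → 1 ≤ A → 0 < q → q ≤ 1 → 0 < μ → μ ≤ 1 →
  (∀ i : ℕ, Ret D p lam i ≤ ENNReal.ofReal (A * exp (-(μ * i)))) →
  ∑' i, Ret D p lam i ≤ ENNReal.ofReal (1 - q) →
  ∀ m : ℕ, aa D p lam m ≤ ENNReal.ofReal (exp (-(q * μ ^ 2 / (C * A) * m)))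

def RGStmt : Prop := ∀ D : ℕ, 1 ≤ D → ∃ (e₀ : ℝ) (K l₀ : ℕ), 0 < e₀ ∧ 1 ≤ l₀ ∧
  ∀ (p lam : ℝ) (l : ℕ), 1 - e₀ ≤ p → p ≤ 1 → l₀ ≤ l → 1 / (l : ℝ) ≤ lam → lam ≤ 1 →
  Reg D p lam (l ^ K) (1 / (l : ℝ) ^ K) (1 / (l : ℝ) ^ K)

def MOMStmt : Prop := ∃ C : ℝ, 1 ≤ C ∧ ∀ (D : ℕ) (p lam : ℝ) (n₀ : ℕ) (q μ : ℝ),
  Reg D p lam n₀ q μ →
  (∀ G : ℕ → Set (List (Step D)), (∀ m, G m ⊆ FPS D m) →
    (∀ m, SS (G m) (wb true p lam) ≤ ENNReal.ofReal (3 * exp (-(μ * m)))) →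
    ∑' m, (SS (G m) fun l => (l.length : ℝ≥0∞) ^ 3 * wb true p lam l) ≤
      ENNReal.ofReal (C * (n₀ : ℝ) ^ 3 / μ ^ 7)) ∧
  ∀ m M : ℕ, n₀ ≤ M → m ^ 2 ≤ M →
    (SS {l | l ∈ FPS D m ∧ M < l.length} fun l => l.length * wb true p lam l) ≤
      ENNReal.ofReal (4 / (M : ℝ) ^ 5)

def ONE2Stmt : Prop := ∃ C : ℝ, 4 ≤ C ∧ ∀ (D : ℕ) (p lam : ℝ) (n₀ : ℕ) (q μ : ℝ),
  Reg D p lam n₀ q μ → qq D p lam ≠ 0 ∧ SS {l : List (Step D) | Block l} (wb true p lam) = 1 ∧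
    M3 D p lam ≤ ENNReal.ofReal (C * (n₀ : ℝ) ^ 3 / μ ^ 7) ∧
    ∑' m, N1 D p lam m ≤ ENNReal.ofReal (C * (n₀ : ℝ) ^ 3 / μ ^ 7) ∧
    AA D p lam ≠ ∞ ∧ BB D p lam ≠ ∞ ∧ 1 ≤ BR D p lam ∧ BR D p lam ≤ AR D p lam ∧
    AR D p lam ≤ C * (n₀ : ℝ) ^ 3 / μ ^ 7

/-- weight of the blocks of height `m` -/
def fB (D : ℕ) (p lam : ℝ) (m : ℕ) : ℝ≥0∞ :=
  SS {l : List (Step D) | Block l ∧ lev l = m} (wb true p lam)

/-- mean length of the blocks of height `m` -/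
def gB (D : ℕ) (p lam : ℝ) (m : ℕ) : ℝ≥0∞ :=
  SS {l : List (Step D) | Block l ∧ lev l = m} fun l => l.length * wb true p lam l

def REN0Stmt : Prop := ∀ (D : ℕ) (p lam : ℝ), 0 ≤ p → p ≤ 1 → ∀ k : ℕ,
  XX D p lam k = N1 D p lam k + ∑ m ∈ range (k + 1),
    (gB D p lam m * QQ D p lam (k - m) + fB D p lam m * XX D p lam (k - m))

def RENAStmt : Prop := ∀ (X Q f g e : ℕ → ℝ) (A B κ q a₁ a₂ a₃ a₄ : ℝ), (∀ m, 0 ≤ f m) →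
  (∀ m, 0 ≤ g m) → (∀ m, 0 ≤ e m) → (∀ m, q ≤ Q m) → f 0 = 0 → HasSum f 1 →
  HasSum (fun m : ℕ => m * f m) B → HasSum g A → κ * B = A → 0 ≤ κ → 0 ≤ q → q ≤ 1 →
  (∀ n, ∑ m ∈ range n, e m ≤ a₁) → (∀ n, ∑ m ∈ range n, (Q m - q) ≤ a₂) →
  (∀ n, ∑ m ∈ range n, m * g m ≤ a₃) → (∀ n, ∑ m ∈ range n, (m : ℝ) ^ 2 * f m ≤ a₄) →
  (∀ k, X k = e k + ∑ m ∈ range (k + 1), (g m * Q (k - m) + f m * X (k - m))) →
  ∀ k, |X k - κ * q * k| ≤ a₁ + A * a₂ + a₃ + κ * a₄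

def RENStmt : Prop := ∃ C : ℝ, 1 ≤ C ∧ ∀ (D : ℕ) (p lam : ℝ) (n₀ : ℕ) (q μ : ℝ),
  Reg D p lam n₀ q μ → ∃ q' : ℝ, q ≤ q' ∧ q' ≤ 1 ∧ 0 ≤ kap D p lam ∧
    kap D p lam ≤ C * (n₀ : ℝ) ^ 3 / μ ^ 7 ∧ ∀ k : ℕ,
    |(XX D p lam k).toReal - kap D p lam * q' * k| ≤ (C * (n₀ : ℝ) ^ 3 / μ ^ 7) ^ 2 ∧
    |(QQ D p lam k).toReal - q'| ≤ 2 * n₀ / μ * exp (-(μ * k))

/-- the error in the comparison of `n` legs with the time per level -/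
def errK (N n₀ n h₀ N₁ M : ℕ) (τ Y μ C : ℝ) : ℝ :=
  N₁ + Y + 3 * (n * (n * N + Y)) * τ + 2 * (n : ℝ) ^ 2 * N * τ + n * N / (N₁ : ℝ) ^ 8 +
    M * (1 / (N₁ : ℝ) ^ 8 + (n + 1) * τ) + 4 / (M : ℝ) ^ 5 + (C * (n₀ : ℝ) ^ 3 / μ ^ 7) ^ 2 +
    C * (n₀ : ℝ) ^ 3 / μ ^ 7 * h₀ + n * N * (2 * n₀ / μ * exp (-(μ * h₀)))

def KAPStmt : Prop := ∃ C : ℝ, 1 ≤ C ∧ ∀ (D : ℕ) (p lam : ℝ) (L N n₀ n h₀ N₁ M : ℕ)
  (G : ℕ → Cfg D → Prop) (G₀ : Cfg D → Prop) (τ c y q μ : ℝ), Mix lam L N G τ c y →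
  Reg D p lam n₀ q μ → bad p (G n) (allOpen D) ≤ τ → MeasurableSet {ω | G₀ ω} →
  (perc D p).real {ω | ¬ G₀ ω} ≤ τ →
  (∀ ω, G₀ ω → ∀ l ∈ Lg D h₀ N₁, wr lam (plus ω) 0 l ≠ 0 → G n (shift (pos l) (plus ω))) →
  N ≤ h₀ → n₀ ≤ N₁ → h₀ ^ 2 ≤ N₁ → n₀ ≤ M → (h₀ + n * L) ^ 2 ≤ M →
  q * |Fr p (Vn lam L N n) (allOpen D) - kap D p lam * (n * L)| ≤
    errK N n₀ n h₀ N₁ M τ (4 * y / c) μ C

/-- the choice of the exponents -/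
def ARStmt : Prop := ∀ (K₀ K₁ Λ : ℕ) (C Y g : ℝ), 0 ≤ C → 0 ≤ Y → 0 < g → ∃ b l₀ : ℕ, 1 ≤ l₀ ∧
  ∀ l : ℕ, l₀ ≤ l → l ^ K₀ ≤ l ^ b ∧ (l ^ (K₀ + 4)) ^ 2 ≤ l ^ b ∧ l ^ K₀ ≤ l ^ (7 * b) ∧
    (l ^ (K₀ + 4) + l ^ (3 * b) * (Λ * l)) ^ 2 ≤ l ^ (7 * b) ∧
    (l ^ (3 * b) + 2) * l ^ 4 + l ^ b ≤ l ^ (20 * b) ∧
    7 * ((l : ℝ) ^ (3 * b)) ^ 2 * ((l : ℝ) ^ (3 * b) * (l : ℝ) ^ 4 + Y * (l : ℝ) ^ 2) *
        (2 / (l : ℝ) ^ (20 * b)) +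
      2 * (l : ℝ) ^ K₀ * errK (l ^ 4) (l ^ K₀) (l ^ (3 * b)) (l ^ (K₀ + 4)) (l ^ b) (l ^ (7 * b))
        (1 / (l : ℝ) ^ (20 * b)) (Y * (l : ℝ) ^ 2) (1 / (l : ℝ) ^ K₀) C ≤
      (l : ℝ) ^ (3 * b) * (g * (l : ℝ) ^ 3 / (l : ℝ) ^ K₁) / 2

def FINStmt : Prop := ∀ D : ℕ, 1 ≤ D → ∃ c : ℝ, 0 < c ∧ ∀ K : ℕ, 2 ≤ K → ∃ (e₀ : ℝ) (l₀ : ℕ),
  0 < e₀ ∧ ∀ (p x : ℝ) (l : ℕ), 1 - e₀ ≤ p → p ≤ 1 → l₀ ≤ l → 1 / (l : ℝ) ≤ x → x ≤ 2 / (l : ℝ) →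
  kap D p (x + 1 / (l : ℝ) ^ K) - kap D p x ≤ -(c * (1 / (l : ℝ) ^ K))

def SMALLStmt : Prop := ∀ D : ℕ, 1 ≤ D → ∃ a p₀ : ℝ, 0 < a ∧ p₀ < 1 ∧ ∀ p, p₀ < p → p < 1 →
  ∀ v : ℝ → ℝ, (∀ x, 0 < x → HasSpeed D p x (v x)) → ∀ x y, 0 < x → x < y → y ≤ a → v x < v y

end Pool.Agent.MP_8c549f_pr.L2

end

end Part3
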