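import Mathlib.MeasureTheory.Integral.Prod
import Pool.Agent.MP_8c549f_pr.L3.Spec

-- ======== part 0: Mp
section Part0

/-! Row Mp: overwriting and shifting preserve the percolation measure. -/

noncomputable section

namespace Pool.Agent.MP_8c549f_pr.L2

open MeasureTheory Finset Real Classical S3

namespace Mp

theorem meas {D : ℕ} (S : Set (Edge D)) :
    Measurable (fun q : Cfg D × Cfg D => ovw S q.1 q.2) := by
  refine measurable_pi_lambda _ fun e => ?_
  by_cases h : e ∈ S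
  · simp only [ovw, h, if_true]
    exact (measurable_pi_apply e).comp measurable_fst
  · simp only [ovw, h, if_false]
    exact (measurable_pi_apply e).comp measurable_snd

theorem pre {D : ℕ} (S : Set (Edge D)) (s : Finset (Edge D)) (t : Edge D → Set Bool) :
    (fun q : Cfg D × Cfg D => ovw S q.1 q.2) ⁻¹' (Set.pi (s : Set (Edge D)) t) =
      (Set.pi ((s.filter fun e => e ∈ S : Finset (Edge D)) : Set (Edge D)) t) ×ˢ
        (Set.pi ((s.filter fun e => ¬ e ∈ S : Finset (Edge D)) : Set (Edge D)) t) := by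
  ext q
  simp only [Set.mem_preimage, Set.mem_pi, Set.mem_prod, Finset.mem_coe, Finset.mem_filter]
  constructor
  · intro h
    refine ⟨fun e he => ?_, fun e he => ?_⟩
    · have := h e he.1
      simpa only [ovw, he.2, if_true] using this
    · have := h e he.1
      simpa only [ovw, he.2, if_false] using this
  · rintro ⟨h1, h2⟩ e he
    by_cases h : e ∈ S
    · simpa only [ovw, h, if_true] using h1 e ⟨he, h⟩
    · simpa only [ovw, h, if_false] using h2 e ⟨he, h⟩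

end Mp

theorem mp : MPStmt := by
  intro D p h0 h1
  have hb := ber_prob h0 h1
  have hp := perc_prob D h0 h1
  refine ⟨fun S => ⟨Mp.meas S, ?_⟩, fun y => ⟨measurable_shift y, ?_⟩⟩
  · refine Measure.eq_infinitePi (fun _ : Edge D => ber p) fun s t ht => ?_
    rw [Measure.map_apply (Mp.meas S) (MeasurableSet.pi s.countable_toSet fun i _ => ht i),
      Mp.pre, Measure.prod_prod]
    unfold perc
    rw [Measure.infinitePi_pi _ fun i _ => ht i, Measure.infinitePi_pi _ fun i _ => ht i,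
      Finset.prod_filter_mul_prod_filter_not]
  · exact Measure.map_infinitePi_infinitePi_of_inj (P := fun _ : Edge D => ber p)
      (f := fun e : Edge D => (e.1 + y, e.2)) fun a b h => by
        simp only [Prod.mk.injEq, add_left_inj] at h
        exact Prod.ext h.1 h.2

end Pool.Agent.MP_8c549f_pr.L2

end

end Part0

-- ======== part 1: Vb
section Part1

/-! PROJECT L2, row Vb: measurability and crude bounds for the annealed chain of legs. -/

noncomputable section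

namespace Pool.Agent.MP_8c549f_pr.L2

open MeasureTheory Finset Real Classical S3

namespace Vb

variable {D : ℕ}

theorem meas_ovw2 (S : Set (Edge D)) : Measurable fun q : Cfg D × Cfg D => ovw S q.1 q.2 := by
  refine measurable_pi_lambda _ fun e => ?_
  unfold ovw
  split_ifs
  · exact (measurable_pi_apply e).comp measurable_fst
  · exact (measurable_pi_apply e).comp measurable_snd

theorem meas_ovw (S : Set (Edge D)) (η : Cfg D) : Measurable (ovw S η) :=
  (meas_ovw2 S).comp (measurable_const.prodMk measurable_id)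

theorem integ {p : ℝ} (h0 : 0 ≤ p) (h1 : p ≤ 1) {u : Cfg D → ℝ} {f : Cfg D → Cfg D} (hu : BM u)
    (hf : Measurable f) : Integrable (fun ω => u (f ω)) (perc D p) := by
  have := perc_prob D h0 h1
  obtain ⟨m, C, hC⟩ := hu
  exact Integrable.of_bound (m.comp hf).aestronglyMeasurable C (ae_of_all _ fun ω => hC _)

theorem Fr_le {p : ℝ} (h0 : 0 ≤ p) (h1 : p ≤ 1) {u : Cfg D → ℝ} (hu : BM u) {c : ℝ}
    (h : ∀ ω, u ω ≤ c) (η : Cfg D) : Fr p u η ≤ c := by
  have := perc_prob D h0 h1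
  have := integral_mono (integ h0 h1 hu (meas_ovw (Past D) η)) (integrable_const c) fun ω => h _
  simpa [Fr] using this

theorem Fr_nonneg {p : ℝ} {u : Cfg D → ℝ} (h : ∀ ω, 0 ≤ u ω) (η : Cfg D) : 0 ≤ Fr p u η :=
  integral_nonneg fun _ => h _

theorem BM_Fr {p : ℝ} (h0 : 0 ≤ p) (h1 : p ≤ 1) {u : Cfg D → ℝ} (hu : BM u) : BM (Fr p u) := by
  have := perc_prob D h0 h1
  obtain ⟨m, C, hC⟩ := hu
  refine ⟨?_, C, fun η => ?_⟩
  · exact (StronglyMeasurable.integral_prod_right (ν := perc D p)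
      (f := fun η ω => u (ovw (Past D) η ω))
      (m.comp (meas_ovw2 (Past D))).stronglyMeasurable).measurable
  · simpa [Fr] using norm_integral_le_of_norm_le_const (μ := perc D p)
      (f := fun ω => u (ovw (Past D) η ω)) (C := C) (ae_of_all _ fun ω => hC _)

theorem BM_ind {G : Cfg D → Prop} (hG : MeasurableSet {ω | G ω}) :
    BM fun ω => S3.ind (¬ G ω) := by
  refine ⟨?_, 1, fun ω => ?_⟩
  · unfold S3.ind
    exact Measurable.ite hG.compl measurable_const measurable_const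
  · exact abs_le.2 ⟨(neg_nonpos.2 zero_le_one).trans (ind_nonneg _), ind_le_one _⟩

theorem sum_le {lam : ℝ} {L N : ℕ} {ω : Cfg D} {g : List (Step D) → ℝ} {c : ℝ} (hc : 0 ≤ c)
    (h : ∀ l ∈ Lg D L N, g l ≤ c) : ∑ l ∈ Lg D L N, wr lam ω 0 l * g l ≤ c := by
  calc _ ≤ ∑ l ∈ Lg D L N, wr lam ω 0 l * c :=
        sum_le_sum fun l hl => mul_le_mul_of_nonneg_left (h l hl) (wr_nonneg l 0)
    _ = ms lam L N ω * c := by rw [ms, sum_mul]
    _ ≤ c := mul_le_of_le_one_left hc (ms_le_one L N)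

theorem tt_bd (lam : ℝ) (L N : ℕ) (ω : Cfg D) : 0 ≤ tt lam L N ω ∧ tt lam L N ω ≤ N :=
  ⟨sum_nonneg fun l _ => mul_nonneg (wr_nonneg l 0) (Nat.cast_nonneg _),
    sum_le (Nat.cast_nonneg _) fun _ hl => Nat.cast_le.2 (mem_Lg.1 hl).1⟩

theorem BM_tt (lam : ℝ) (L N : ℕ) : BM (tt (D := D) lam L N) :=
  ⟨Finset.measurable_sum _ fun l _ => (measurable_wr lam 0 l).mul_const _, N, fun ω => by
    rw [abs_of_nonneg (tt_bd lam L N ω).1]; exact (tt_bd lam L N ω).2⟩

theorem BM_Kk (lam : ℝ) (L N : ℕ) {u : Cfg D → ℝ} (hu : BM u) : BM (Kk lam L N u) := by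
  obtain ⟨m, C, hC⟩ := hu
  refine ⟨Finset.measurable_sum _ fun l _ =>
    (measurable_wr lam 0 l).mul (m.comp (measurable_shift _)), C, fun ω => ?_⟩
  refine (abs_sum_le_sum_abs _ _).trans ?_
  simp only [abs_mul, abs_of_nonneg (wr_nonneg _ _)]
  exact sum_le ((abs_nonneg _).trans (hC ω)) fun _ _ => hC _

theorem Kk_bd (lam : ℝ) (L N : ℕ) {u : Cfg D → ℝ} {c : ℝ} (hc : 0 ≤ c)
    (h : ∀ ω, 0 ≤ u ω ∧ u ω ≤ c) (ω : Cfg D) : 0 ≤ Kk lam L N u ω ∧ Kk lam L N u ω ≤ c :=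
  ⟨sum_nonneg fun l _ => mul_nonneg (wr_nonneg l 0) (h _).1, sum_le hc fun _ _ => (h _).2⟩

theorem Vn_bd (lam : ℝ) (L N n : ℕ) : BM (Vn (D := D) lam L N n) ∧
    ∀ ω : Cfg D, 0 ≤ Vn lam L N n ω ∧ Vn lam L N n ω ≤ n * N := by
  induction n with
  | zero => exact ⟨⟨measurable_const, 0, fun _ => by simp [Vn]⟩, fun _ => by simp [Vn]⟩
  | succ n ih =>
    have hb : ∀ ω : Cfg D, 0 ≤ Vn lam L N (n + 1) ω ∧ Vn lam L N (n + 1) ω ≤ (n + 1 : ℕ) * N := by
      intro ω
      have h1 := tt_bd lam L N ω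
      have h2 := Kk_bd lam L N (by positivity) ih.2 ω
      simp only [Vn]
      push_cast
      constructor <;> linarith [h1.1, h1.2, h2.1, h2.2]
    refine ⟨⟨(BM_tt lam L N).1.add (BM_Kk lam L N ih.1).1, (n + 1 : ℕ) * N, fun ω => ?_⟩, hb⟩
    rw [abs_of_nonneg (hb ω).1]; exact (hb ω).2

end Vb

open Vb in
theorem vb : VBStmt := by
  intro D p h0 h1
  exact ⟨meas_ovw, fun u f hu hf => integ h0 h1 hu hf, fun u hu => BM_Fr h0 h1 hu,
    fun G hG => ⟨BM_ind hG, BM_Fr h0 h1 (BM_ind hG), Fr_nonneg fun ω => ind_nonneg _⟩,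
    fun lam L N => ⟨⟨BM_tt lam L N, tt_bd lam L N⟩, fun u hu => BM_Kk lam L N hu,
      fun u c hc h => Kk_bd lam L N hc h, fun n => ⟨(Vn_bd lam L N n).1, fun ω =>
        ⟨(Vn_bd lam L N n).2 ω, Fr_nonneg (fun ω => ((Vn_bd lam L N n).2 ω).1) ω,
          Fr_le h0 h1 (Vn_bd lam L N n).1 (fun ω => ((Vn_bd lam L N n).2 ω).2) ω⟩⟩⟩⟩

end Pool.Agent.MP_8c549f_pr.L2

end

end Part1

-- ======== part 2: FrS
section Part2

/-! PROJECT L2: the edges above the end of a first passage are fresh. -/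

noncomputable section

namespace Pool.Agent.MP_8c549f_pr.L2

open MeasureTheory Finset Real Classical S3

namespace FrS

variable {D : ℕ}

theorem edge_le (x : V D) (s : Step D) : (edge x s).1 0 ≤ x 0 := by
  obtain ⟨i, b⟩ := s
  cases b
  · by_cases h : (0 : Fin (D + 1)) = i
    · subst h; simp [edge]
    · simp [edge, Pi.single_eq_of_ne h]
  · simp [edge]

theorem wr_le_one (lam : ℝ) (ω : Cfg D) (x : V D) (l : List (Step D)) : wr lam ω x l ≤ 1 := by
  rw [wr_eq_W]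
  exact ENNReal.toReal_le_of_le_ofReal zero_le_one (by simpa using W_le_one lam ω l x)

theorem ovw_comm {S T : Set (Edge D)} (h : ∀ e ∈ S, e ∉ T) (η ω' ω : Cfg D) :
    ovw S η (ovw T ω' ω) = ovw T ω' (ovw S η ω) := by
  funext e
  by_cases h1 : e ∈ S
  · simp [ovw, h1, h e h1]
  · simp [ovw, h1]

theorem wr_ovw (lam : ℝ) {l : List (Step D)} (hl : Rec l) (ω' z : Cfg D) :
    wr lam (ovw {e : Edge D | lev l ≤ e.1 0} ω' z) 0 l = wr lam z 0 l := by
  rw [wr_eq_W, wr_eq_W, W_congr lam (ω' := z) l 0]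
  intro i hi s
  have h1 := edge_le (0 + loc l i) s
  have h2 : (0 + loc l i) 0 < lev l := by rw [zero_add]; exact hl i hi
  exact if_neg (show ¬ lev l ≤ (edge (0 + loc l i) s).1 0 by omega)

theorem shift_ovw (l : List (Step D)) (ω' z : Cfg D) :
    shift (pos l) (ovw {e : Edge D | lev l ≤ e.1 0} ω' z) =
      ovw (Past D) (shift (pos l) z) (shift (pos l) ω') := by
  funext e
  have h0 : (e.1 + pos l) 0 = e.1 0 + lev l := rfl
  by_cases h : e.1 0 ≤ -1
  · rw [ovw, if_pos (show e ∈ Past D from h)]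
    exact if_neg (show ¬ lev l ≤ (e.1 + pos l) 0 by omega)
  · rw [ovw, if_neg (show e ∉ Past D from h)]
    exact if_pos (show lev l ≤ (e.1 + pos l) 0 by omega)

theorem BM_term (lam : ℝ) (l : List (Step D)) {u : Cfg D → ℝ} (hu : BM u) :
    BM fun ω => wr lam ω 0 l * u (shift (pos l) ω) := by
  obtain ⟨hm, C, hC⟩ := hu
  refine ⟨(measurable_wr lam 0 l).mul (hm.comp (measurable_shift _)), C, fun ω => ?_⟩
  rw [abs_mul, abs_of_nonneg (wr_nonneg l 0)]
  exact (mul_le_of_le_one_left (abs_nonneg _) (wr_le_one lam ω 0 l)).trans (hC _)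

end FrS

theorem frS (hM : MPStmt) (hV : VBStmt) : FRStmt := by
  intro D p lam h0 h1 u hu
  have := perc_prob D h0 h1
  obtain ⟨mp1, mp2⟩ := hM D p h0 h1
  obtain ⟨v1, v2, v3, -, -⟩ := hV D p h0 h1
  have key : ∀ (S : Set (Edge D)) (η : Cfg D) (l : List (Step D)), S ⊆ Past D → Rec l →
      0 ≤ lev l →
      ∫ ω, wr lam (ovw S η ω) 0 l * u (shift (pos l) (ovw S η ω)) ∂perc D p =
        ∫ ω, wr lam (ovw S η ω) 0 l * Fr p u (shift (pos l) (ovw S η ω)) ∂perc D p := by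
    intro S η l hS hl hlev
    obtain ⟨hm, C, hC⟩ := FrS.BM_term lam l hu
    have hF : Measurable fun ω => wr lam (ovw S η ω) 0 l * u (shift (pos l) (ovw S η ω)) :=
      hm.comp (v1 S η)
    have hT := mp1 {e : Edge D | lev l ≤ e.1 0}
    have hdis : ∀ e ∈ S, e ∉ {e : Edge D | lev l ≤ e.1 0} := fun e he h => by
      have h2 : e.1 0 ≤ -1 := hS he
      have h3 : lev l ≤ e.1 0 := h
      omega
    have e1 := integral_map (μ := (perc D p).prod (perc D p)) hT.measurable.aemeasurable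
      hF.aestronglyMeasurable
    rw [hT.map_eq] at e1
    refine e1.trans ((integral_prod_symm _ (Integrable.of_bound
      (hF.comp hT.measurable).aestronglyMeasurable C (ae_of_all _ fun q => hC _))).trans ?_)
    refine integral_congr_ae (ae_of_all _ fun ω => ?_)
    simp only [Function.comp_apply, FrS.ovw_comm hdis, FrS.wr_ovw lam hl, FrS.shift_ovw]
    rw [integral_const_mul, Fr]
    have e2 := integral_map (μ := perc D p) (mp2 (pos l)).measurable.aemeasurable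
      (hu.1.comp (v1 (Past D) (shift (pos l) (ovw S η ω)))).aestronglyMeasurable
    rw [(mp2 (pos l)).map_eq] at e2
    exact congrArg _ e2.symm
  refine ⟨key, fun L N η => ?_⟩
  refine (integral_finsetSum _ fun l _ => v2 _ _ (FrS.BM_term lam l hu) (v1 _ η)).trans
    ((sum_congr rfl fun l hl => ?_).trans
      (integral_finsetSum _ fun l _ => v2 _ _ (FrS.BM_term lam l (v3 u hu)) (v1 _ η)).symm)
  obtain ⟨-, h2, h3⟩ := mem_Lg.1 hl
  exact key (Past D) η l subset_rfl h2 (by rw [h3]; exact Int.natCast_nonneg L)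

end Pool.Agent.MP_8c549f_pr.L2

end

end Part2

-- ======== part 3: Cpl
section Part3

noncomputable section

namespace Pool.Agent.MP_8c549f_pr.L2

open MeasureTheory Finset Real Classical S3

theorem cpl : CPLStmt := by
  intro ι T a₁ a₂ u₁ u₂ b₁ b₂ A B U τ c h hU hτ hA hAB h1 h2 h3 hc hd ho
  have hB : 0 ≤ B := hA.trans hAB
  obtain ⟨g, hg0, hgU, hg1, hg2⟩ : ∃ g : ℝ, 0 ≤ g ∧ g ≤ U ∧ (∀ i ∈ T, u₁ i - b₁ i ≤ g) ∧
      ∀ k ∈ T, g - B ≤ u₂ k + b₂ k := by
    rcases T.eq_empty_or_nonempty with rfl | hT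
    · exact ⟨0, le_rfl, hU, by simp, by simp⟩
    · obtain ⟨j, hj, hm⟩ := T.exists_max_image (fun i => u₁ i - b₁ i) hT
      refine ⟨max (u₁ j - b₁ j) 0, le_max_right _ _, max_le ?_ hU,
        fun i hi => (hm i hi).trans (le_max_left _ _), fun k hk => ?_⟩
      · have := h j
        linarith [this.2.2.1, this.2.2.2.2.1]
      · have e1 := ho j hj k hk
        have e2 := h k
        have : max (u₁ j - b₁ j) 0 ≤ u₂ k + b₂ k + B :=
          max_le (by linarith) (by linarith [e2.2.2.2.1, e2.2.2.2.2.2])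
        linarith
  have key : ∀ i ∈ T, a₁ i * u₁ i - a₂ i * u₂ i ≤
      min (a₁ i) (a₂ i) * A + (a₁ i - min (a₁ i) (a₂ i)) * g -
        (a₂ i - min (a₁ i) (a₂ i)) * (g - B) + a₁ i * b₁ i + a₂ i * b₂ i := by
    intro i hi
    have e := h i
    have m0 : 0 ≤ min (a₁ i) (a₂ i) := le_min e.1 e.2.1
    have m1 : 0 ≤ a₁ i - min (a₁ i) (a₂ i) := sub_nonneg.2 (min_le_left _ _)
    have m2 : 0 ≤ a₂ i - min (a₁ i) (a₂ i) := sub_nonneg.2 (min_le_right _ _)
    have k1 := mul_le_mul_of_nonneg_left (hg1 i hi) m1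
    have k2 := mul_le_mul_of_nonneg_left (hg2 i hi) m2
    have k3 : min (a₁ i) (a₂ i) * (u₁ i - u₂ i - b₁ i - b₂ i) ≤ min (a₁ i) (a₂ i) * A := by
      by_cases z1 : a₁ i = 0
      · have : min (a₁ i) (a₂ i) = 0 := by rw [z1]; exact min_eq_left e.2.1
        simp [this]
      by_cases z2 : a₂ i = 0
      · have : min (a₁ i) (a₂ i) = 0 := by rw [z2]; exact min_eq_right e.1
        simp [this]
      exact mul_le_mul_of_nonneg_left (by linarith [hd i hi z1 z2]) m0
    nlinarith [k1, k2, k3]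
  have hs := Finset.sum_le_sum key
  simp only [Finset.sum_sub_distrib, Finset.sum_add_distrib, ← Finset.sum_mul] at hs
  set M := ∑ i ∈ T, min (a₁ i) (a₂ i) with hM
  set S₁ := ∑ i ∈ T, a₁ i
  set S₂ := ∑ i ∈ T, a₂ i
  have p1 : (S₁ - S₂) * g ≤ τ * g := mul_le_mul_of_nonneg_right (by linarith) hg0
  have p2 : τ * g ≤ τ * U := mul_le_mul_of_nonneg_left hgU hτ
  have p3 : S₂ * B ≤ 1 * B := mul_le_mul_of_nonneg_right h2 hB
  have p4 : c * (B - A) ≤ M * (B - A) := mul_le_mul_of_nonneg_right hc (by linarith)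
  nlinarith [p1, p2, p3, p4, hs]

end Pool.Agent.MP_8c549f_pr.L2

end

end Part3

-- ======== part 4: MixS
section Part4

/-! PROJECT L2, row Mix: the expected duration of the legs forgets the remote past. -/

noncomputable section

namespace Pool.Agent.MP_8c549f_pr.L2

open MeasureTheory Finset Real Classical S3

namespace MixS

variable {D : ℕ} {lam : ℝ} {L N : ℕ}

theorem pos_mem {l : List (Step D)} (hl : l ∈ Lg D L N) : pos l ∈ ball (0 : V D) N := by
  rw [mem_ball, sub_zero]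
  exact (nrm_pos_le l).trans (mem_Lg.1 hl).1

theorem Kk_eq (u : Cfg D → ℝ) (ω : Cfg D) :
    Kk lam L N u ω = ∑ y ∈ ball (0 : V D) N, hl lam L N ω y * u (shift y ω) := by
  rw [Kk, ← sum_fiberwise_of_maps_to (fun l hl => pos_mem hl)]
  refine sum_congr rfl fun y _ => ?_
  rw [hl, sum_mul]
  refine sum_congr (by congr) fun l hl => ?_
  rw [(mem_filter.1 hl).2]

theorem hl_sum (ω : Cfg D) : ∑ y ∈ ball (0 : V D) N, hl lam L N ω y = ms lam L N ω := by
  have h := Kk_eq (lam := lam) (L := L) (N := N) (fun _ => 1) ω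
  simp only [Kk, mul_one] at h
  exact h.symm

theorem hl_nonneg (ω : Cfg D) (y : V D) : 0 ≤ hl lam L N ω y :=
  sum_nonneg fun l _ => wr_nonneg l 0

theorem hl_lev {ω : Cfg D} {y : V D} (h : hl lam L N ω y ≠ 0) : y 0 = L := by
  obtain ⟨l, hl', _⟩ := exists_ne_zero_of_sum_ne_zero h
  obtain ⟨h1, h2⟩ := mem_filter.1 hl'
  rw [← h2]
  exact (mem_Lg.1 h1).2.2

theorem agr_ovw {k : ℕ} {η η' : Cfg D} (h : AgrP k η η') (ω : Cfg D) :
    Agr k (ovw (Past D) η ω) (ovw (Past D) η' ω) := by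
  intro e he
  by_cases hp : e ∈ Past D
  · simp only [ovw, if_pos hp]
    exact h e he hp
  · simp only [ovw, if_neg hp]

theorem agrP_shift {j : ℕ} {w w' : Cfg D} (h : Agr (j * L) w w') {y : V D} (hy : y 0 = L) :
    AgrP ((j + 1) * L) (shift y w) (shift y w') := by
  intro e he _
  refine h (e.1 + y, e.2) ?_
  simp only [Pi.add_apply, hy]
  push_cast at he ⊢
  linarith

theorem agrP_zero (η η' : Cfg D) : AgrP (0 * L) η η' := by
  intro e he he'
  simp only [zero_mul, Nat.cast_zero, neg_zero] at he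
  omega

theorem agrP_symm {k : ℕ} {η η' : Cfg D} (h : AgrP k η η') : AgrP k η' η :=
  fun e h1 h2 => (h e h1 h2).symm

/-- the coupling of two legs in two good configurations -/
theorem good (hC : CPLStmt) {G : ℕ → Cfg D → Prop} {τ c y : ℝ} (hM : Mix lam L N G τ c y)
    {u b : Cfg D → ℝ} {U E : ℝ} (hU : 0 ≤ U) (hE : 0 ≤ E) (hu : ∀ η, 0 ≤ u η ∧ u η ≤ U)
    (hb : ∀ η, 0 ≤ b η)
    (ih : ∀ (j : ℕ) (η η' : Cfg D), AgrP (j * L) η η' →
      u η - u η' ≤ 4 * y / c / 2 ^ j + E * (τ + b η + b η'))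
    {n j : ℕ} {w w' : Cfg D} (hw : G (n + 1) w) (hw' : G (n + 1) w') (ha : Agr (j * L) w w') :
    tt lam L N w + Kk lam L N u w - (tt lam L N w' + Kk lam L N u w') ≤
      4 * y / c / 2 ^ j + (E + U + 4 * y / c) * τ +
        E * (Kk lam L N b w + Kk lam L N b w') := by
  have hc := hM.c0
  have hτ := hM.pos
  have hy := hM.y0
  obtain ⟨Y, hY⟩ : ∃ Y, Y = 4 * y / c := ⟨_, rfl⟩
  rw [← hY] at ih ⊢
  have hcY : c * Y = 4 * y := by rw [hY]; field_simp
  have hY0 : 0 ≤ Y := by rw [hY]; positivity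
  have hyY : 4 * y ≤ Y := by nlinarith [hM.c1]
  have ht : tt lam L N w - tt lam L N w' ≤ y / 2 ^ j :=
    (le_abs_self _).trans (hM.tim n j w w' hw hw' ha)
  have key : ∀ c' : ℝ, c' ≤ ovl lam L N w w' →
      Kk lam L N u w - Kk lam L N u w' ≤ c' * (Y / 2 ^ (j + 1) + E * τ) + (1 - c') * (Y + E * τ) +
        E * Kk lam L N b w + E * Kk lam L N b w' + τ * U := by
    intro c' hc'
    have h2 : (1 : ℝ) ≤ 2 ^ (j + 1) := one_le_pow₀ (by norm_num)
    have h := hC (V D) (ball (0 : V D) N) (hl lam L N w) (hl lam L N w')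
      (fun z => u (shift z w)) (fun z => u (shift z w')) (fun z => E * b (shift z w))
      (fun z => E * b (shift z w')) (Y / 2 ^ (j + 1) + E * τ) (Y + E * τ) U τ c'
      (fun z => ⟨hl_nonneg _ _, hl_nonneg _ _, mul_nonneg hE (hb _), mul_nonneg hE (hb _),
        (hu _).2, (hu _).1⟩) hU hτ (by positivity)
      (by have := div_le_self hY0 h2; linarith)
      (by rw [hl_sum]; exact ms_le_one L N) (by rw [hl_sum]; exact ms_le_one L N)
      (by rw [hl_sum]; exact hM.mass n w' hw') hc'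
      (fun z _ h1 _ => by
        have := ih (j + 1) _ _ (agrP_shift ha (hl_lev h1))
        linarith)
      (fun z _ k _ => by
        have := ih 0 (shift z w) (shift k w') (agrP_zero _ _)
        rw [pow_zero, div_one] at this
        linarith)
    rw [Kk_eq u w, Kk_eq u w', Kk_eq b w, Kk_eq b w', mul_sum, mul_sum]
    refine h.trans (le_of_eq ?_)
    congr 2
    · congr 1
      exact sum_congr rfl fun z _ => by ring
    · exact sum_congr rfl fun z _ => by ring
  rcases Nat.eq_zero_or_pos j with rfl | hj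
  · have h := key c (hM.ov0 n w w' hw hw' (by simpa using ha))
    have h1 : 0 ≤ Y * τ := mul_nonneg hY0 hτ
    simp only [zero_add, pow_one, pow_zero, div_one] at h ht ⊢
    nlinarith
  · have h := key _ (hM.ov1 n j w w' hj hw hw' ha)
    obtain ⟨r, hr⟩ : ∃ r : ℝ, r = 1 / 2 ^ j := ⟨_, rfl⟩
    have hr0 : 0 ≤ r := by rw [hr]; positivity
    have e1 : Y / 2 ^ (j + 1) = Y * r / 2 := by rw [hr, pow_succ]; field_simp
    have e2 : (1 : ℝ) / (8 * 2 ^ j) = r / 8 := by rw [hr]; field_simp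
    have e3 : y / 2 ^ j = y * r := by rw [hr]; field_simp
    have e4 : Y / 2 ^ j = Y * r := by rw [hr]; field_simp
    rw [e1, e2] at h
    rw [e3] at ht
    rw [e4]
    have h1 : 0 ≤ Y * r := mul_nonneg hY0 hr0
    have h2 : 0 ≤ Y * r * τ := mul_nonneg h1 hτ
    have h3 : 0 ≤ Y * r * r := mul_nonneg h1 hr0
    have h4 : 4 * y * r ≤ Y * r := mul_le_mul_of_nonneg_right hyY hr0
    nlinarith

end MixS

open MixS in
theorem mixS (hV : VBStmt) (hF : FRStmt) (hC : CPLStmt) : MIXStmt := by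
  intro D p lam L N G τ c y h0 h1 hM
  have := perc_prob D h0 h1
  obtain ⟨vo, vi, vf, vb, vr⟩ := hV D p h0 h1
  obtain ⟨⟨vt, vt'⟩, vk, vk', vn⟩ := vr lam L N
  have hc := hM.c0
  have hτ := hM.pos
  have hy := hM.y0
  have hY0 : 0 ≤ 4 * y / c := by positivity
  have one : ∀ (n j : ℕ) (η η' : Cfg D), AgrP (j * L) η η' →
      Fr p (Vn lam L N n) η - Fr p (Vn lam L N n) η' ≤
        4 * y / c / 2 ^ j + n * (n * N + 4 * y / c) * (τ + bad p (G n) η + bad p (G n) η') := by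
    intro n
    induction n with
    | zero =>
      intro j η η' _
      simp only [Fr, Vn, integral_zero, sub_zero, Nat.cast_zero, zero_mul, add_zero]
      positivity
    | succ n ih =>
      intro j η η' ha
      obtain ⟨E, hE⟩ : ∃ E : ℝ, E = n * (n * N + 4 * y / c) := ⟨_, rfl⟩
      have hE0 : 0 ≤ E := by rw [hE]; positivity
      rw [← hE] at ih
      obtain ⟨b1, b2, b3⟩ := vb (G n) (hM.meas n)
      obtain ⟨c1, c2, c3⟩ := vb (G (n + 1)) (hM.meas (n + 1))
      have hu : BM (Fr p (Vn lam L N n)) := vf _ (vn n).1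
      have hu' : ∀ η : Cfg D, 0 ≤ Fr p (Vn lam L N n) η ∧ Fr p (Vn lam L N n) η ≤ n * N :=
        fun η => ((vn n).2 η).2
      have hnN : (0 : ℝ) ≤ n * N := by positivity
      have e1 : ∀ ζ : Cfg D, Fr p (Vn lam L N (n + 1)) ζ =
          ∫ ω, (tt lam L N (ovw (Past D) ζ ω) +
            Kk lam L N (Fr p (Vn lam L N n)) (ovw (Past D) ζ ω)) ∂perc D p := by
        intro ζ
        have h := (hF D p lam h0 h1 _ (vn n).1).2 L N ζ
        rw [integral_add (vi _ _ vt (vo _ ζ)) (vi _ _ (vk _ hu) (vo _ ζ))]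
        have h' : Fr p (Vn lam L N (n + 1)) ζ = ∫ ω, (tt lam L N (ovw (Past D) ζ ω) +
            Kk lam L N (Vn lam L N n) (ovw (Past D) ζ ω)) ∂perc D p := rfl
        rw [h', integral_add (vi _ _ vt (vo _ ζ)) (vi _ _ (vk _ (vn n).1) (vo _ ζ))]
        exact congrArg _ h
      have e2 : ∀ ζ : Cfg D, ∫ ω, Kk lam L N (bad p (G n)) (ovw (Past D) ζ ω) ∂perc D p ≤
          bad p (G (n + 1)) ζ := by
        intro ζ
        have h : Fr p (Kk lam L N fun ω => S3.ind (¬ G n ω)) ζ =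
            ∫ ω, Kk lam L N (bad p (G n)) (ovw (Past D) ζ ω) ∂perc D p :=
          (hF D p lam h0 h1 _ b1).2 L N ζ
        rw [← h]
        refine integral_mono (vi _ _ (vk _ b1) (vo _ ζ)) (vi _ _ c1 (vo _ ζ)) fun ω => ?_
        by_cases hg : G (n + 1) (ovw (Past D) ζ ω)
        · refine le_trans (le_of_eq ?_) (ind_nonneg _)
          refine sum_eq_zero fun l hl => ?_
          by_cases hw : wr lam (ovw (Past D) ζ ω) 0 l = 0
          · rw [hw, zero_mul]
          · exact mul_eq_zero_of_right _ (ind_neg (not_not.2 (hM.inh n _ hg l hl hw)))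
        · refine le_trans (vk' _ 1 zero_le_one
            (fun _ => ⟨ind_nonneg _, ind_le_one _⟩) _).2 (le_of_eq (ind_pos hg).symm)
      have hK : ∀ w : Cfg D, 0 ≤ Kk lam L N (bad p (G n)) w := fun w =>
        sum_nonneg fun l _ => mul_nonneg (wr_nonneg l 0) (b3 _)
      have pw : ∀ w w' : Cfg D, Agr (j * L) w w' →
          tt lam L N w + Kk lam L N (Fr p (Vn lam L N n)) w -
            (tt lam L N w' + Kk lam L N (Fr p (Vn lam L N n)) w') ≤
          (4 * y / c / 2 ^ j + (E + n * N + 4 * y / c) * τ) +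
            (E * Kk lam L N (bad p (G n)) w + E * Kk lam L N (bad p (G n)) w') +
            ((n * N + N) * S3.ind (¬ G (n + 1) w) + (n * N + N) * S3.ind (¬ G (n + 1) w')) := by
        intro w w' hw
        have hN : (0 : ℝ) ≤ n * N + N := by positivity
        have i1 := mul_nonneg hN (ind_nonneg (¬ G (n + 1) w))
        have i2 := mul_nonneg hN (ind_nonneg (¬ G (n + 1) w'))
        by_cases hg : G (n + 1) w ∧ G (n + 1) w'
        · have := good hC hM hnN hE0 hu' b3 ih hg.1 hg.2 hw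
          linarith
        · have k1 := mul_nonneg hE0 (hK w)
          have k2 := mul_nonneg hE0 (hK w')
          have k3 : 0 ≤ 4 * y / c / 2 ^ j + (E + n * N + 4 * y / c) * τ := by positivity
          have t1 := (vt' w).2
          have t2 := (vt' w').1
          have u1 := (vk' _ _ hnN hu' w).2
          have u2 := (vk' _ _ hnN hu' w').1
          rcases not_and_or.1 hg with hg | hg
          · rw [ind_pos hg]
            linarith
          · rw [ind_pos hg]
            linarith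
      have j1 := fun ζ : Cfg D => (vi _ _ vt (vo (Past D) ζ)).add (vi _ _ (vk _ hu) (vo (Past D) ζ))
      have j2 := fun ζ : Cfg D => (vi _ _ (vk _ b2) (vo (Past D) ζ)).const_mul E
      have j3 := fun ζ : Cfg D => (vi _ _ c1 (vo (Past D) ζ)).const_mul ((n : ℝ) * N + N)
      have hI := integral_mono ((j1 η).sub (j1 η'))
        (((integrable_const (4 * y / c / 2 ^ j + (E + n * N + 4 * y / c) * τ)).add
          ((j2 η).add (j2 η'))).add ((j3 η).add (j3 η')))
        fun ω => pw _ _ (agr_ovw ha ω)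
      rw [integral_sub' (j1 η) (j1 η'),
        integral_add' ((integrable_const _).add ((j2 η).add (j2 η'))) ((j3 η).add (j3 η')),
        integral_add' (integrable_const _) ((j2 η).add (j2 η')), integral_add' (j2 η) (j2 η'),
        integral_add' (j3 η) (j3 η'), integral_const_mul, integral_const_mul, integral_const_mul,
        integral_const_mul, integral_const, probReal_univ, one_smul] at hI
      rw [e1 η, e1 η']
      refine le_trans (le_of_eq rfl) (hI.trans ?_)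
      have f1 := mul_le_mul_of_nonneg_left (e2 η) hE0
      have f2 := mul_le_mul_of_nonneg_left (e2 η') hE0
      have g1 : ∫ ω, S3.ind (¬ G (n + 1) (ovw (Past D) η ω)) ∂perc D p = bad p (G (n + 1)) η := rfl
      have g2 : ∫ ω, S3.ind (¬ G (n + 1) (ovw (Past D) η' ω)) ∂perc D p = bad p (G (n + 1)) η' :=
        rfl
      rw [g1, g2]
      have hN : (0 : ℝ) ≤ N := by positivity
      have hE' : E + (n * N + N) + 4 * y / c ≤
          ((n + 1 : ℕ) : ℝ) * (((n + 1 : ℕ) : ℝ) * N + 4 * y / c) := by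
        rw [hE]; push_cast; nlinarith
      have hs : 0 ≤ τ + bad p (G (n + 1)) η + bad p (G (n + 1)) η' := by
        have := c3 η; have := c3 η'; linarith
      have m1 := mul_le_mul_of_nonneg_right hE' hs
      have m2 := mul_nonneg hN hτ
      have m3 := mul_nonneg hY0 (c3 η)
      have m4 := mul_nonneg hY0 (c3 η')
      nlinarith
  intro n j η η' ha
  refine abs_sub_le_iff.2 ⟨one n j η η' ha, ?_⟩
  have := one n j η' η (agrP_symm ha)
  linarith

end Pool.Agent.MP_8c549f_pr.L2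

end

end Part4

-- ======== part 5: Tel
section Part5

/-! PROJECT L2: the telescoping comparison of the duration of `n` legs for two biases. -/

noncomputable section

namespace Pool.Agent.MP_8c549f_pr.L2

open MeasureTheory Finset Real Classical S3

namespace Tel

/-- the comparison of two weighted sums -/
theorem core {ι : Type} (T : Finset ι) (a b v u B : ι → ℝ) {m E' E Y τ θ c U : ℝ}
    (ha : ∀ i, 0 ≤ a i) (hb : ∀ i, 0 ≤ b i) (hB : ∀ i, 0 ≤ B i) (a1 : ∑ i ∈ T, a i ≤ 1)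
    (a2 : 1 - τ ≤ ∑ i ∈ T, a i) (b1 : ∑ i ∈ T, b i ≤ 1) (b2 : 1 - τ ≤ ∑ i ∈ T, b i)
    (hm : 0 ≤ m) (hE' : 0 ≤ E') (hE : 0 ≤ E) (hY : 0 ≤ Y) (hτ : 0 ≤ τ) (c0 : 0 ≤ c) (c1 : c ≤ U)
    (hv : ∀ i, v i - u i ≤ -m + E' * (τ + B i)) (hu : ∀ i, |u i - c| ≤ Y + E * (2 * τ + B i))
    (htv : ∑ i ∈ T, |a i - b i| ≤ θ + τ) :
    ∑ i ∈ T, a i * v i - ∑ i ∈ T, b i * u i ≤ -m + θ * Y + (m + E' + Y + 4 * E + U) * τ +
      (E' + E) * ∑ i ∈ T, a i * B i + E * ∑ i ∈ T, b i * B i := by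
  have key : ∀ i ∈ T, a i * v i - b i * u i ≤ (-m + E' * τ + 2 * E * τ + c) * a i +
      (2 * E * τ - c) * b i + Y * |a i - b i| + (E' + E) * (a i * B i) + E * (b i * B i) := by
    intro i _
    have h1 : a i * (v i - u i) ≤ a i * (-m + E' * (τ + B i)) :=
      mul_le_mul_of_nonneg_left (hv i) (ha i)
    have h2 : (a i - b i) * (u i - c) ≤ |a i - b i| * (Y + E * (2 * τ + B i)) :=
      (le_abs_self _).trans (by rw [abs_mul]; exact mul_le_mul_of_nonneg_left (hu i) (abs_nonneg _))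
    have h3 : |a i - b i| ≤ a i + b i := abs_le.2 ⟨by linarith [ha i], by linarith [hb i]⟩
    have h4 : |a i - b i| * (E * (2 * τ + B i)) ≤ (a i + b i) * (E * (2 * τ + B i)) :=
      mul_le_mul_of_nonneg_right h3 (mul_nonneg hE (by linarith [hB i]))
    nlinarith
  have h := sum_le_sum key
  simp only [sum_add_distrib, sum_sub_distrib, ← mul_sum] at h
  generalize ∑ i ∈ T, a i = A at *
  generalize ∑ i ∈ T, b i = A' at *
  have h1 : m * (1 - τ) ≤ m * A := mul_le_mul_of_nonneg_left a2 hm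
  have h2 : E' * τ * A ≤ E' * τ := mul_le_of_le_one_right (mul_nonneg hE' hτ) a1
  have h3 : E * τ * A ≤ E * τ := mul_le_of_le_one_right (mul_nonneg hE hτ) a1
  have h4 : E * τ * A' ≤ E * τ := mul_le_of_le_one_right (mul_nonneg hE hτ) b1
  have h5 : c * (A - A') ≤ c * τ := mul_le_mul_of_nonneg_left (by linarith) c0
  have h6 : c * τ ≤ U * τ := mul_le_mul_of_nonneg_right c1 hτ
  have h7 := mul_le_mul_of_nonneg_left htv hY
  nlinarith

variable {D : ℕ} {p : ℝ}

theorem fr_int (hV : VBStmt) (h0 : 0 ≤ p) (h1 : p ≤ 1) {u : Cfg D → ℝ} (hu : BM u) (η : Cfg D) :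
    Integrable (fun ω => u (ovw (Past D) η ω)) (perc D p) :=
  (hV D p h0 h1).2.1 u _ hu ((hV D p h0 h1).1 _ η)

/-- the average of the duration of `n + 1` legs -/
theorem fr_succ (hV : VBStmt) (hF : FRStmt) (h0 : 0 ≤ p) (h1 : p ≤ 1) (lam : ℝ) (L N n : ℕ)
    (η : Cfg D) : Fr p (Vn lam L N (n + 1)) η =
      Fr p (tt lam L N) η + Fr p (Kk lam L N (Fr p (Vn lam L N n))) η := by
  obtain ⟨⟨t1, -⟩, k1, -, v1⟩ := (hV D p h0 h1).2.2.2.2 lam L N
  rw [← (hF D p lam h0 h1 _ (v1 n).1).2 L N η]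
  exact integral_add (fr_int hV h0 h1 t1 η) (fr_int hV h0 h1 (k1 _ (v1 n).1) η)

/-- the bad event after a leg is contained in the bad event before it -/
theorem fr_bad (hV : VBStmt) (hF : FRStmt) (h0 : 0 ≤ p) (h1 : p ≤ 1) {lam τ : ℝ} {L N : ℕ}
    {G : ℕ → Cfg D → Prop} (hI : Inh lam L N G τ) (n : ℕ) (η : Cfg D) :
    Fr p (Kk lam L N (bad p (G n))) η ≤ bad p (G (n + 1)) η := by
  obtain ⟨-, k1, k2, -⟩ := (hV D p h0 h1).2.2.2.2 lam L N
  have b0 := ((hV D p h0 h1).2.2.2.1 (G n) (hI.meas n)).1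
  have b1 := ((hV D p h0 h1).2.2.2.1 (G (n + 1)) (hI.meas (n + 1))).1
  rw [bad, ← (hF D p lam h0 h1 _ b0).2 L N η]
  refine integral_mono (fr_int hV h0 h1 (k1 _ b0) η) (fr_int hV h0 h1 b1 η) fun ω => ?_
  dsimp only
  generalize ovw (Past D) η ω = w
  by_cases hw : G (n + 1) w
  · rw [ind_neg (not_not.2 hw)]
    refine le_of_eq (sum_eq_zero fun l hl => ?_)
    by_cases h : wr lam w 0 l = 0
    · rw [h, zero_mul]
    · exact mul_eq_zero_of_right _ (ind_neg (not_not.2 (hI.inh n w hw l hl h)))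
  · rw [ind_pos hw]
    exact (k2 _ 1 zero_le_one (fun _ => ⟨ind_nonneg _, ind_le_one _⟩) w).2

theorem arith {n N Y : ℝ} (hn : 0 ≤ n) (hN : 0 ≤ N) (hY : 0 ≤ Y) :
    7 * n ^ 2 * (n * N + Y) + (Y + 4 * (n * (n * N + Y)) + 2 * (n + 1) * N) ≤
      7 * (n + 1) ^ 2 * ((n + 1) * N + Y) := by
  have h1 : 0 ≤ n * N := mul_nonneg hn hN
  have h2 : 0 ≤ n * Y := mul_nonneg hn hY
  have h3 : 0 ≤ n * (n * N) := mul_nonneg hn h1
  nlinarith

end Tel

theorem tel (hV : VBStmt) (hF : FRStmt) (hM : MIXStmt) : TELStmt := by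
  intro D p x z L N n₁ G τ c y g θ h0 h1 hx hz g0 gN hθ hG hb n
  have := perc_prob D h0 h1
  have hY : 0 ≤ 4 * y / c := div_nonneg (by linarith [hx.y0]) hx.c0.le
  have hτ := hz.pos
  have hN : (0 : ℝ) ≤ N := Nat.cast_nonneg N
  have hmix := hM D p x L N G τ c y h0 h1 hx
  generalize 4 * y / c = Y at *
  obtain ⟨⟨tx1, tx2⟩, kx1, kx2, vx⟩ := (hV D p h0 h1).2.2.2.2 x L N
  obtain ⟨⟨tz1, tz2⟩, kz1, kz2, vz⟩ := (hV D p h0 h1).2.2.2.2 z L N
  have hfr := (hV D p h0 h1).2.2.1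
  have hbm := fun n => (hV D p h0 h1).2.2.2.1 (G n) (hz.meas n)
  induction n with
  | zero => intro _ η; simp [Fr, Vn]
  | succ n ih =>
    intro hn η
    have hn' : n ≤ n₁ := by omega
    have ih := ih hn'
    have n0 : (0 : ℝ) ≤ n := Nat.cast_nonneg n
    have hE : 0 ≤ (n : ℝ) * (n * N + Y) := by positivity
    have hE' : 0 ≤ 7 * (n : ℝ) ^ 2 * (n * N + Y) := by positivity
    have har := Tel.arith n0 hN hY
    have hu : ∀ η, |Fr p (Vn x L N n) η - Fr p (Vn x L N n) (allOpen D)| ≤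
        Y + n * (n * N + Y) * (2 * τ + bad p (G n) η) := by
      intro η
      have h := hmix n 0 η (allOpen D) fun e h1 h2 => by simp at h1; omega
      have := mul_le_mul_of_nonneg_left (hb n hn') hE
      simp only [pow_zero, div_one] at h
      nlinarith
    generalize (n : ℝ) * (n * N + Y) = E at *
    generalize 7 * (n : ℝ) ^ 2 * (n * N + Y) = E' at *
    have ng : (n : ℝ) * g ≤ n * N := mul_le_mul_of_nonneg_left gN n0
    have key : ∀ w, tt z L N w + Kk z L N (Fr p (Vn z L N n)) w -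
        (tt x L N w + Kk x L N (Fr p (Vn x L N n)) w) ≤
        (-((n + 1) * g) + (E' + (Y + 4 * E + 2 * (n + 1) * N)) * τ) +
          (E' + E) * Kk z L N (bad p (G n)) w + E * Kk x L N (bad p (G n)) w +
          2 * (n + 1) * N * S3.ind (¬ G (n + 1) w) := by
      intro w
      have z0 : 0 ≤ Kk z L N (bad p (G n)) w :=
        sum_nonneg fun l _ => mul_nonneg (wr_nonneg l 0) ((hbm n).2.2 _)
      have x0 : 0 ≤ Kk x L N (bad p (G n)) w :=
        sum_nonneg fun l _ => mul_nonneg (wr_nonneg l 0) ((hbm n).2.2 _)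
      by_cases hw : G (n + 1) w
      · have h := Tel.core (Lg D L N) (fun l => wr z w 0 l) (fun l => wr x w 0 l)
          (fun l => Fr p (Vn z L N n) (shift (pos l) w))
          (fun l => Fr p (Vn x L N n) (shift (pos l) w))
          (fun l => bad p (G n) (shift (pos l) w)) (m := n * g) (U := n * N)
          (fun l => wr_nonneg l 0) (fun l => wr_nonneg l 0) (fun l => (hbm n).2.2 _)
          (ms_le_one L N) (hz.mass n w hw) (ms_le_one L N) (hx.mass n w hw) (mul_nonneg n0 g0)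
          hE' hE hY hτ ((vx n).2 (allOpen D)).2.1 ((vx n).2 (allOpen D)).2.2
          (fun l => ih _) (fun l => hu _) (hG n w hw).2
        have h2 := (hG n w hw).1
        have h3 := mul_le_mul_of_nonneg_right ng hτ
        have h4 := mul_nonneg hN hτ
        rw [ind_neg (not_not.2 hw)]
        simp only [Kk]
        nlinarith
      · have a1 := (kz2 _ (n * N) (mul_nonneg n0 hN) (fun ω => ((vz n).2 ω).2) w).2
        have a2 := (kx2 _ (n * N) (mul_nonneg n0 hN) (fun ω => ((vx n).2 ω).2) w).1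
        have a3 := (tz2 w).2
        have a4 := (tx2 w).1
        have a5 : 0 ≤ (E' + (Y + 4 * E + 2 * (n + 1) * N)) * τ := by positivity
        have a6 := mul_nonneg (add_nonneg hE' hE) z0
        have a7 := mul_nonneg hE x0
        rw [ind_pos hw]
        nlinarith
    have I := fun {u : Cfg D → ℝ} (hu : BM u) => Tel.fr_int hV h0 h1 hu η
    have i1 := I tz1
    have i2 := I (kz1 _ (hfr _ (vz n).1))
    have i3 := I tx1
    have i4 := I (kx1 _ (hfr _ (vx n).1))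
    have j1 := I (kz1 _ (hbm n).2.1)
    have j2 := I (kx1 _ (hbm n).2.1)
    have j3 := I (hbm (n + 1)).1
    have hint := integral_mono ((i1.add i2).sub (i3.add i4))
      ((((integrable_const _).add (j1.const_mul _)).add (j2.const_mul _)).add (j3.const_mul _))
      fun ω => key (ovw (Past D) η ω)
    rw [integral_sub' (i1.add i2) (i3.add i4), integral_add' i1 i2, integral_add' i3 i4,
      integral_add' (((integrable_const _).add (j1.const_mul _)).add (j2.const_mul _))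
        (j3.const_mul _),
      integral_add' ((integrable_const _).add (j1.const_mul _)) (j2.const_mul _),
      integral_add' (integrable_const _) (j1.const_mul _), integral_const_mul, integral_const_mul,
      integral_const_mul, integral_const, probReal_univ, one_smul] at hint
    have b1 := mul_le_mul_of_nonneg_left (Tel.fr_bad hV hF h0 h1 hz n η) (add_nonneg hE' hE)
    have b2 := mul_le_mul_of_nonneg_left (Tel.fr_bad hV hF h0 h1 hx.toInh n η) hE
    have b3 := (hbm (n + 1)).2.2 η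
    have b4 := mul_le_mul_of_nonneg_right har (add_nonneg hτ b3)
    have b5 := mul_nonneg hY b3
    have b6 := mul_nonneg hE b3
    rw [Tel.fr_succ hV hF h0 h1, Tel.fr_succ hV hF h0 h1]
    change Fr p (tt z L N) η + Fr p (Kk z L N (Fr p (Vn z L N n))) η -
      (Fr p (tt x L N) η + Fr p (Kk x L N (Fr p (Vn x L N n))) η) ≤ _ +
      (E' + E) * Fr p (Kk z L N (bad p (G n))) η + E * Fr p (Kk x L N (bad p (G n))) η +
      2 * (n + 1) * N * bad p (G (n + 1)) η at hint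
    push_cast
    nlinarith

end Pool.Agent.MP_8c549f_pr.L2

end

end Part5

-- ======== part 6: ChnS
section Part6

/-! PROJECT L2: chains of legs. -/

noncomputable section

namespace Pool.Agent.MP_8c549f_pr.L2

open MeasureTheory Finset Real Classical S3
open scoped ENNReal

namespace ChnS

variable {D L N : ℕ}

theorem shape (n : ℕ) : ∀ l ∈ Chn D L N n,
    Rec l ∧ lev l = (n * L : ℕ) ∧ l.length ≤ n * N ∧ ∀ i, -(N : ℤ) ≤ H l i := by
  induction n with
  | zero =>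
    intro l hl
    obtain rfl : l = [] := mem_singleton.1 hl
    refine ⟨fun i hi => absurd hi (Nat.not_lt_zero i), by simp [lev, pos], by simp, fun i => ?_⟩
    simp [H, loc, pos]
  | succ n ih =>
    intro l hl
    obtain ⟨⟨u, v⟩, hq, rfl⟩ := mem_image.1 hl
    obtain ⟨hu, hv⟩ := mem_product.1 hq
    obtain ⟨u1, u2, u3⟩ := mem_Lg.1 hu
    obtain ⟨v1, v2, v3, v4⟩ := ih v hv
    dsimp only at u1 u2 u3 ⊢
    refine ⟨fun i hi => ?_, ?_, ?_, fun i => ?_⟩
    · rw [lev_append]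
      by_cases c : i < u.length
      · rw [H_append_left v c.le]
        have := u2 i c
        omega
      · obtain ⟨j, rfl⟩ := Nat.exists_eq_add_of_le (not_lt.1 c)
        rw [H_append_right]
        have := v1 j (by simpa using hi)
        omega
    · rw [lev_append, u3, v2]
      push_cast
      ring
    · rw [List.length_append, Nat.add_mul, one_mul]
      omega
    · by_cases c : i ≤ u.length
      · rw [H_append_left v c]
        have := abs_loc_le u 0 i
        unfold H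
        omega
      · obtain ⟨j, rfl⟩ := Nat.exists_eq_add_of_le (not_le.1 c).le
        rw [H_append_right]
        have := v4 j
        omega

theorem sum_succ (n : ℕ) (f : List (Step D) → ℝ) :
    ∑ l ∈ Chn D L N (n + 1), f l = ∑ u ∈ Lg D L N, ∑ v ∈ Chn D L N n, f (u ++ v) := by
  rw [Chn, sum_image, sum_product]
  rintro ⟨u, v⟩ hq ⟨u', v'⟩ hq' e
  have hu : u ∈ Lg D L N := (mem_product.1 (mem_coe.1 hq)).1
  have hu' : u' ∈ Lg D L N := (mem_product.1 (mem_coe.1 hq')).1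
  have e' : u ++ v = u' ++ v' := e
  obtain rfl : u = u' := by
    rcases List.prefix_or_prefix_of_prefix (List.prefix_append u v)
      (e' ▸ List.prefix_append u' v') with h | h
    · exact antich_Lg L N u hu u' hu' h
    · exact (antich_Lg L N u' hu' u hu h).symm
  rw [List.append_cancel_left e']

variable {lam : ℝ}

theorem wr_app (ω : Cfg D) (u v : List (Step D)) :
    wr lam ω 0 (u ++ v) = wr lam ω 0 u * wr lam (shift (pos u) ω) 0 v := by
  rw [wr_append, wr_shift]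

theorem mass_succ (n : ℕ) (ω : Cfg D) : ∑ l ∈ Chn D L N (n + 1), wr lam ω 0 l =
    ∑ u ∈ Lg D L N, wr lam ω 0 u * ∑ v ∈ Chn D L N n, wr lam (shift (pos u) ω) 0 v := by
  simp only [sum_succ, wr_app, mul_sum]

theorem time_succ (n : ℕ) (ω : Cfg D) : ∑ l ∈ Chn D L N (n + 1), wr lam ω 0 l * l.length =
    ∑ u ∈ Lg D L N, wr lam ω 0 u * (u.length * ∑ v ∈ Chn D L N n, wr lam (shift (pos u) ω) 0 v +
      ∑ v ∈ Chn D L N n, wr lam (shift (pos u) ω) 0 v * v.length) := by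
  rw [sum_succ]
  refine sum_congr rfl fun u _ => ?_
  rw [mul_sum, ← sum_add_distrib, mul_sum]
  refine sum_congr rfl fun v _ => ?_
  rw [wr_app, List.length_append]
  push_cast
  ring

theorem Vn_succ (n : ℕ) (ω : Cfg D) : Vn lam L N (n + 1) ω =
    ∑ u ∈ Lg D L N, wr lam ω 0 u * (u.length + Vn lam L N n (shift (pos u) ω)) := by
  simp only [Vn, tt, Kk, mul_add, sum_add_distrib]

theorem bounds (n : ℕ) : ∀ ω : Cfg D, ∑ l ∈ Chn D L N n, wr lam ω 0 l ≤ 1 ∧
    ∑ l ∈ Chn D L N n, wr lam ω 0 l * l.length ≤ Vn lam L N n ω ∧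
    Vn lam L N n ω ≤ ∑ l ∈ Chn D L N n, wr lam ω 0 l * l.length +
      n * N * (1 - ∑ l ∈ Chn D L N n, wr lam ω 0 l) := by
  induction n with
  | zero => intro ω; simp [Chn, Vn]
  | succ n ih =>
    intro ω
    have hm : ∑ u ∈ Lg D L N, wr lam ω 0 u ≤ 1 := ms_le_one L N
    rw [mass_succ, time_succ, Vn_succ]
    refine ⟨le_trans (sum_le_sum fun u _ => ?_) hm, sum_le_sum fun u _ => ?_, ?_⟩
    · exact mul_le_of_le_one_right (wr_nonneg u 0) (ih _).1
    · refine mul_le_mul_of_nonneg_left (add_le_add ?_ (ih _).2.1) (wr_nonneg u 0)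
      exact mul_le_of_le_one_right (Nat.cast_nonneg _) (ih _).1
    · have hN : (0 : ℝ) ≤ ((n + 1 : ℕ) : ℝ) * N := by positivity
      refine le_trans ?_ (add_le_add le_rfl (mul_le_mul_of_nonneg_left (sub_le_sub_right hm _) hN))
      rw [← sum_sub_distrib, mul_sum, ← sum_add_distrib]
      refine sum_le_sum fun u hu => ?_
      obtain ⟨h1, -, h3⟩ := ih (shift (pos u) ω)
      have h4 : (u.length : ℝ) ≤ N := by exact_mod_cast (mem_Lg.1 hu).1
      have h5 := mul_le_mul_of_nonneg_right h4 (sub_nonneg.2 h1)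
      have h6 := mul_le_mul_of_nonneg_left (add_le_add h5 h3) (wr_nonneg (lam := lam) (ω := ω) u 0)
      push_cast
      linarith

theorem lower {G : ℕ → Cfg D → Prop} {τ : ℝ} (h : Inh lam L N G τ) (n : ℕ) :
    ∀ ω, G n ω → 1 - n * τ ≤ ∑ l ∈ Chn D L N n, wr lam ω 0 l := by
  induction n with
  | zero => intro ω _; simp [Chn]
  | succ n ih =>
    intro ω hω
    have h1 : ∑ u ∈ Lg D L N, wr lam ω 0 u * (1 - n * τ) ≤
        ∑ l ∈ Chn D L N (n + 1), wr lam ω 0 l := by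
      rw [mass_succ]
      refine sum_le_sum fun u hu => ?_
      by_cases c : wr lam ω 0 u = 0
      · simp [c]
      · exact mul_le_mul_of_nonneg_left (ih _ (h.inh n ω hω u hu c)) (wr_nonneg u 0)
    rw [← sum_mul] at h1
    have h2 : 1 - τ ≤ ∑ u ∈ Lg D L N, wr lam ω 0 u := h.mass n ω hω
    have h3 : ∑ u ∈ Lg D L N, wr lam ω 0 u ≤ 1 := ms_le_one L N
    have h4 : (0 : ℝ) ≤ n * τ := mul_nonneg (Nat.cast_nonneg n) h.pos
    have h5 := mul_le_mul_of_nonneg_right h3 h4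
    push_cast
    linarith

end ChnS

theorem chnS : CHNStmt := fun _ _ _ =>
  ⟨ChnS.shape, fun _ => ⟨ChnS.bounds, fun _ _ h => ChnS.lower h⟩⟩

end Pool.Agent.MP_8c549f_pr.L2

end

end Part6

-- ======== part 7: Lk1
section Part7

/-! PROJECT L2, row Lk1: a first piece that stays above the start, followed by a chain of legs. -/

noncomputable section

namespace Pool.Agent.MP_8c549f_pr.L2

open MeasureTheory Finset Real Classical S3
open scoped ENNReal

theorem lk1 (hC : CHNStmt) : LK1Stmt := by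
  intro D L N h₀ N₁ n hN
  obtain ⟨hC1, -⟩ := hC D L N
  have hinj : Set.InjOn (fun q : List (Step D) × List (Step D) => q.1 ++ q.2)
      (((Lg D h₀ N₁).filter Stay ×ˢ Chn D L N n : Finset (List (Step D) × List (Step D))) :
        Set (List (Step D) × List (Step D))) := by
    rintro ⟨u, l⟩ hq ⟨u', l'⟩ hq' he
    have hu : u ∈ Lg D h₀ N₁ := (mem_filter.1 (mem_product.1 (mem_coe.1 hq)).1).1
    have hu' : u' ∈ Lg D h₀ N₁ := (mem_filter.1 (mem_product.1 (mem_coe.1 hq')).1).1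
    have he' : u ++ l = u' ++ l' := he
    have h1 : u <+: u' ++ l' := he' ▸ List.prefix_append u l
    have h2 : u' <+: u' ++ l' := List.prefix_append u' l'
    have huu : u = u' := by
      rcases List.prefix_or_prefix_of_prefix h1 h2 with h | h
      · exact antich_Lg h₀ N₁ u (mem_coe.2 hu) u' (mem_coe.2 hu') h
      · exact (antich_Lg h₀ N₁ u' (mem_coe.2 hu') u (mem_coe.2 hu) h).symm
    subst huu
    rw [List.append_cancel_left he']
  refine ⟨((Lg D h₀ N₁).filter Stay ×ˢ Chn D L N n).image fun q => q.1 ++ q.2, ?_, ?_⟩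
  · intro v hv
    obtain ⟨⟨u, l⟩, hq, rfl⟩ := mem_image.1 (mem_coe.1 hv)
    obtain ⟨hu, hl⟩ := mem_product.1 hq
    obtain ⟨hu1, hst⟩ := mem_filter.1 hu
    obtain ⟨-, hur, hul⟩ := mem_Lg.1 hu1
    obtain ⟨hlr, hll, -, hlo⟩ := hC1 n l hl
    have hN' : (N : ℤ) ≤ h₀ := by exact_mod_cast hN
    have hlev : lev (u ++ l) = ((h₀ + n * L : ℕ) : ℤ) := by
      rw [lev_append, hul, hll]; push_cast; ring
    refine ⟨?_, ?_, hlev⟩
    · intro i _
      by_cases h : i ≤ u.length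
      · show 0 ≤ H (u ++ l) i
        rw [H_append_left l h]; exact hst i h
      · obtain ⟨j, rfl⟩ : ∃ j, i = u.length + j := ⟨i - u.length, by omega⟩
        show 0 ≤ H (u ++ l) (u.length + j)
        rw [H_append_right, hul]
        have := hlo j
        linarith
    · intro i hi
      have hi' : i < u.length + l.length := by simpa using hi
      by_cases h : i < u.length
      · show H (u ++ l) i < lev (u ++ l)
        rw [H_append_left l h.le, lev_append, hll]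
        have h1 := hur i h
        have h2 : (0 : ℤ) ≤ ((n * L : ℕ) : ℤ) := Int.natCast_nonneg _
        linarith
      · obtain ⟨j, rfl⟩ : ∃ j, i = u.length + j := ⟨i - u.length, by omega⟩
        show H (u ++ l) (u.length + j) < lev (u ++ l)
        rw [H_append_right, lev_append]
        have := hlr j (by omega)
        linarith
  · intro lam ω
    have hw : ∀ u l : List (Step D),
        wr lam ω 0 (u ++ l) = wr lam ω 0 u * wr lam (shift (pos u) ω) 0 l := by
      intro u l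
      rw [wr_append, wr_shift]
    constructor
    · rw [sum_image hinj, sum_product]
      refine sum_congr rfl fun u _ => ?_
      rw [mul_sum]
      exact sum_congr rfl fun l _ => hw u l
    · rw [sum_image hinj, sum_product]
      refine sum_congr rfl fun u _ => ?_
      rw [mul_sum, ← sum_add_distrib, mul_sum]
      refine sum_congr rfl fun l _ => ?_
      show wr lam ω 0 (u ++ l) * ((u ++ l).length : ℝ) = _
      rw [hw, List.length_append]
      push_cast
      ring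

end Pool.Agent.MP_8c549f_pr.L2

end

end Part7

-- ======== part 8: Link
section Part8

/-! PROJECT L2, row Link: from the chain of legs to the mean length of first passages. -/

noncomputable section

namespace Pool.Agent.MP_8c549f_pr.L2

open MeasureTheory Finset Real Classical S3
open scoped ENNReal

namespace Link

variable {D : ℕ}

theorem wr_le_one (lam : ℝ) (ω : Cfg D) (x : V D) (l : List (Step D)) : wr lam ω x l ≤ 1 := by
  rw [wr_eq_W]
  exact ENNReal.toReal_le_of_le_ofReal zero_le_one (by simpa using W_le_one lam ω l x)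

theorem plus_eq (ω : Cfg D) : ovw {edge 0 (bck D)} (allOpen D) ω = plus ω := by
  funext e
  by_cases h : e = edge 0 (bck D)
  · subst h; simp [ovw, plus, allOpen]
  · simp [ovw, plus, h]

theorem sub_past : ({edge 0 (bck D)} : Set (Edge D)) ⊆ Past D := by
  rintro e rfl
  simp [Past, edge, bck]

theorem int_wr {p : ℝ} (h0 : 0 ≤ p) (h1 : p ≤ 1) (lam : ℝ) (l : List (Step D)) :
    Integrable (fun ω => wr lam (plus ω) 0 l) (perc D p) := by
  have := perc_prob D h0 h1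
  refine Integrable.of_bound ((measurable_wr lam 0 l).comp measurable_plus).aestronglyMeasurable 1
    (Filter.Eventually.of_forall fun ω => ?_)
  rw [Real.norm_eq_abs, abs_of_nonneg (wr_nonneg _ _)]
  exact wr_le_one _ _ _ _

theorem wb_eq {p : ℝ} (h0 : 0 ≤ p) (h1 : p ≤ 1) (lam : ℝ) (l : List (Step D)) :
    wb true p lam l = ENNReal.ofReal (∫ ω, wr lam (plus ω) 0 l ∂perc D p) := by
  rw [ofReal_integral_eq_lintegral_ofReal (int_wr h0 h1 lam l)
    (Filter.Eventually.of_forall fun ω => wr_nonneg _ _), wb]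
  simp only [cfg_true, W_eq_wr]

theorem SS_fin {p : ℝ} (h0 : 0 ≤ p) (h1 : p ≤ 1) (lam : ℝ) (T : Finset (List (Step D))) :
    SS (T : Set (List (Step D))) (wb true p lam) =
      ENNReal.ofReal (∫ ω, ∑ l ∈ T, wr lam (plus ω) 0 l ∂perc D p) := by
  rw [SS_coe, integral_finsetSum _ fun l _ => int_wr h0 h1 lam l,
    ENNReal.ofReal_sum_of_nonneg fun l _ => integral_nonneg fun ω => wr_nonneg _ _]
  exact sum_congr rfl fun l _ => wb_eq h0 h1 lam l

theorem SS_fin_len {p : ℝ} (h0 : 0 ≤ p) (h1 : p ≤ 1) (lam : ℝ) (T : Finset (List (Step D))) :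
    (SS (T : Set (List (Step D))) fun l => l.length * wb true p lam l) =
      ENNReal.ofReal (∫ ω, ∑ l ∈ T, wr lam (plus ω) 0 l * l.length ∂perc D p) := by
  rw [SS_coe, integral_finsetSum _ fun l _ => (int_wr h0 h1 lam l).mul_const _,
    ENNReal.ofReal_sum_of_nonneg fun l _ => integral_nonneg fun ω =>
      mul_nonneg (wr_nonneg _ _) (Nat.cast_nonneg _)]
  refine sum_congr rfl fun l _ => ?_
  rw [wb_eq h0 h1, integral_mul_const, mul_comm _ (l.length : ℝ),
    ENNReal.ofReal_mul (Nat.cast_nonneg _), ENNReal.ofReal_natCast]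

/-- average of `g` over the ends of the first pieces -/
def K (lam : ℝ) (P : Finset (List (Step D))) (g : Cfg D → ℝ) (ω : Cfg D) : ℝ :=
  ∑ u ∈ P, wr lam (plus ω) 0 u * g (shift (pos u) (plus ω))

theorem int_term {p : ℝ} (h0 : 0 ≤ p) (h1 : p ≤ 1) (lam : ℝ) (u : List (Step D))
    {g : Cfg D → ℝ} (hg : BM g) :
    Integrable (fun ω => wr lam (plus ω) 0 u * g (shift (pos u) (plus ω))) (perc D p) := by
  obtain ⟨hm, C, hC⟩ := hg
  refine (int_wr h0 h1 lam u).mul_bdd (c := C)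
    (hm.comp ((measurable_shift _).comp measurable_plus)).aestronglyMeasurable
    (Filter.Eventually.of_forall fun ω => ?_)
  exact hC _

theorem int_K {p : ℝ} (h0 : 0 ≤ p) (h1 : p ≤ 1) (lam : ℝ) (P : Finset (List (Step D)))
    {g : Cfg D → ℝ} (hg : BM g) : Integrable (K lam P g) (perc D p) :=
  integrable_finsetSum _ fun u _ => int_term h0 h1 lam u hg

theorem K_Fr (hV : VBStmt) (hF : FRStmt) {p : ℝ} (h0 : 0 ≤ p) (h1 : p ≤ 1) (lam : ℝ)
    (P : Finset (List (Step D))) (hP : ∀ u ∈ P, Rec u ∧ 0 ≤ lev u) {g : Cfg D → ℝ} (hg : BM g) :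
    ∫ ω, K lam P g ω ∂perc D p = ∫ ω, K lam P (Fr p g) ω ∂perc D p := by
  unfold K
  rw [integral_finsetSum _ fun u _ => int_term h0 h1 lam u hg,
    integral_finsetSum _ fun u _ => int_term h0 h1 lam u ((hV D p h0 h1).2.2.1 g hg)]
  refine sum_congr rfl fun u hu => ?_
  have := (hF D p lam h0 h1 g hg).1 _ (allOpen D) u sub_past (hP u hu).1 (hP u hu).2
  simpa only [plus_eq] using this

theorem BM_const (c : ℝ) : BM (fun _ : Cfg D => c) := ⟨measurable_const, |c|, fun _ => le_rfl⟩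

theorem sum_le {P : Finset (List (Step D))} {w f : List (Step D) → ℝ} {c : ℝ} (hc : 0 ≤ c)
    (hw : ∀ u, 0 ≤ w u) (h1 : ∑ u ∈ P, w u ≤ 1) (hf : ∀ u ∈ P, w u ≠ 0 → f u ≤ c) :
    ∑ u ∈ P, w u * f u ≤ c := by
  calc ∑ u ∈ P, w u * f u ≤ ∑ u ∈ P, w u * c := sum_le_sum fun u hu => by
        by_cases h : w u = 0
        · simp [h]
        · exact mul_le_mul_of_nonneg_left (hf u hu h) (hw u)
    _ = (∑ u ∈ P, w u) * c := (sum_mul _ _ _).symm
    _ ≤ c := by nlinarith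

end Link

open Link in
theorem link (hV : VBStmt) (hF : FRStmt) (hC : CHNStmt) (hL : LK1Stmt) (hQ : QFStmt) :
    LINKStmt := by
  intro D p lam L N h₀ N₁ n M G G₀ τ Y E c σ T h0 h1 hN hI hG₀ hτ hGG hY hE hc0 hc hσ hT hFr hS hM
  have := perc_prob D h0 h1
  obtain ⟨Tf, hTf, hsum⟩ := hL D L N h₀ N₁ n hN
  set P := (Lg D h₀ N₁).filter Stay with hPdef
  have hτ0 : 0 ≤ τ := hI.pos
  have hP : ∀ u ∈ P, Rec u ∧ 0 ≤ lev u := fun u hu => by
    have := mem_Lg.1 (mem_filter.1 hu).1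
    exact ⟨this.2.1, by rw [this.2.2]; positivity⟩
  have hP1 : ∀ ω, ∑ u ∈ P, wr lam ω 0 u ≤ 1 := fun ω =>
    (sum_le_sum_of_subset_of_nonneg (filter_subset _ _) fun l _ _ => wr_nonneg _ _).trans
      (ms_le_one h₀ N₁)
  set m : Cfg D → ℝ := fun ω => ∑ l ∈ Chn D L N n, wr lam ω 0 l with hm
  set Vt : Cfg D → ℝ := fun ω => ∑ l ∈ Chn D L N n, wr lam ω 0 l * l.length with hVt
  have hCh := ((hC D L N).2 lam).1 n
  have hm0 : ∀ ω, 0 ≤ m ω := fun ω => sum_nonneg fun l _ => wr_nonneg _ _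
  have hm1 : ∀ ω, m ω ≤ 1 := fun ω => (hCh ω).1
  have hVV : ∀ ω, Vt ω ≤ Vn lam L N n ω := fun ω => (hCh ω).2.1
  have hVV' : ∀ ω, Vn lam L N n ω ≤ Vt ω + n * N * (1 - m ω) := fun ω => (hCh ω).2.2
  have hmG : ∀ ω, G n ω → 1 - n * τ ≤ m ω := ((hC D L N).2 lam).2 G τ hI n
  have bm : BM m := ⟨Finset.measurable_sum _ fun l _ => measurable_wr lam 0 l, 1, fun ω => by
    rw [abs_of_nonneg (hm0 ω)]; exact hm1 ω⟩
  have bV : BM (Vn (D := D) lam L N n) := (((hV D p h0 h1).2.2.2.2 lam L N).2.2.2 n).1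
  have bF : BM (Fr p (Vn (D := D) lam L N n)) := (hV D p h0 h1).2.2.1 _ bV
  obtain ⟨bi, bb, hb0⟩ := (hV D p h0 h1).2.2.2.1 (G n) (hI.meas n)
  have b0 := ((hV D p h0 h1).2.2.2.1 G₀ hG₀).1
  have ib : Integrable (fun ω => S3.ind (¬ G₀ ω)) (perc D p) :=
    (hV D p h0 h1).2.1 _ id b0 measurable_id
  have hb : ∫ ω, S3.ind (¬ G₀ ω) ∂perc D p ≤ τ := by
    have e : (fun ω => S3.ind (¬ G₀ ω)) = {ω | ¬ G₀ ω}.indicator fun _ => (1 : ℝ) := by
      funext ω
      by_cases h : G₀ ω <;> simp [S3.ind, h]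
    have hm' : MeasurableSet {ω | ¬ G₀ ω} := hG₀.compl
    rw [e, integral_indicator_const _ hm']
    simpa using hτ
  have i1 := int_K h0 h1 lam P (BM_const (D := D) 1)
  have im := int_K h0 h1 lam P bm
  have iV := int_K h0 h1 lam P bV
  have iF := int_K h0 h1 lam P bF
  have ii := int_K h0 h1 lam P bi
  have ibb := int_K h0 h1 lam P bb
  have iX : Integrable (fun ω => ∑ l ∈ Tf, wr lam (plus ω) 0 l * (l.length : ℝ)) (perc D p) :=
    integrable_finsetSum _ fun l _ => (int_wr h0 h1 lam l).mul_const _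
  -- the four integral inequalities
  have A1 : ∫ ω, K lam P (fun _ => 1) ω ∂perc D p - ∫ ω, K lam P m ω ∂perc D p ≤ (n + 1) * τ := by
    rw [← integral_sub i1 im]
    calc _ ≤ ∫ ω, (n * τ + S3.ind (¬ G₀ ω)) ∂perc D p := by
          refine integral_mono (i1.sub im) ((integrable_const _).add ib) fun ω => ?_
          have e : K lam P (fun _ => 1) ω - K lam P m ω =
              ∑ u ∈ P, wr lam (plus ω) 0 u * (1 - m (shift (pos u) (plus ω))) := by
            simp only [K, ← sum_sub_distrib, mul_sub]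
          show K lam P (fun _ => 1) ω - K lam P m ω ≤ n * τ + S3.ind (¬ G₀ ω)
          rw [e]
          have hn : (0 : ℝ) ≤ n * τ := by positivity
          refine sum_le (add_nonneg hn (ind_nonneg _)) (fun u => wr_nonneg _ _) (hP1 _)
            fun u hu hw => ?_
          by_cases h : G₀ ω
          · have := hmG _ (hGG ω h u (mem_filter.1 hu).1 hw)
            have := ind_nonneg (¬ G₀ ω)
            linarith
          · rw [ind_pos h]
            have := hm0 (shift (pos u) (plus ω))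
            linarith
      _ ≤ (n + 1) * τ := by
          rw [integral_add (integrable_const _) ib]
          simp only [integral_const, probReal_univ, smul_eq_mul, one_mul]
          linarith
  have A2 : ∫ ω, ∑ l ∈ Tf, wr lam (plus ω) 0 l * (l.length : ℝ) ∂perc D p ≤
      N₁ + ∫ ω, K lam P (Vn lam L N n) ω ∂perc D p := by
    calc _ ≤ ∫ ω, ((N₁ : ℝ) + K lam P (Vn lam L N n) ω) ∂perc D p := by
          refine integral_mono iX ((integrable_const _).add iV) fun ω => ?_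
          show ∑ l ∈ Tf, wr lam (plus ω) 0 l * (l.length : ℝ) ≤ N₁ + K lam P (Vn lam L N n) ω
          rw [(hsum lam (plus ω)).2]
          simp only [mul_add, sum_add_distrib]
          refine add_le_add (sum_le (Nat.cast_nonneg _) (fun u => wr_nonneg _ _) (hP1 _)
            fun u hu _ => ?_) (sum_le_sum fun u _ =>
              mul_le_mul_of_nonneg_left (hVV _) (wr_nonneg _ _))
          have h2 : (u.length : ℝ) ≤ N₁ := by exact_mod_cast (mem_Lg.1 (mem_filter.1 hu).1).1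
          calc _ ≤ (u.length : ℝ) * 1 := mul_le_mul_of_nonneg_left (hm1 _) (Nat.cast_nonneg _)
            _ ≤ N₁ := by linarith
      _ = _ := by
          rw [integral_add (integrable_const _) iV]
          simp
  have A3 : ∫ ω, K lam P (Vn lam L N n) ω ∂perc D p ≤
      ∫ ω, ∑ l ∈ Tf, wr lam (plus ω) 0 l * (l.length : ℝ) ∂perc D p + n * N *
        (∫ ω, K lam P (fun _ => 1) ω ∂perc D p - ∫ ω, K lam P m ω ∂perc D p) := by
    have i3 : Integrable (fun a => (n : ℝ) * N * (K lam P (fun _ => 1) a - K lam P m a))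
      (perc D p) := (i1.sub im).const_mul _
    rw [← integral_sub i1 im, ← integral_const_mul, ← integral_add iX i3]
    refine integral_mono iV (iX.add i3) fun ω => ?_
    show K lam P (Vn lam L N n) ω ≤ ∑ l ∈ Tf, wr lam (plus ω) 0 l * (l.length : ℝ) +
      n * N * (K lam P (fun _ => 1) ω - K lam P m ω)
    rw [(hsum lam (plus ω)).2]
    simp only [K, ← sum_sub_distrib, mul_sum P, ← sum_add_distrib]
    refine sum_le_sum fun u _ => ?_
    have a1 := hVV' (shift (pos u) (plus ω))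
    have a2 := hm0 (shift (pos u) (plus ω))
    have a3 : 0 ≤ wr lam (plus ω) 0 u := wr_nonneg _ _
    have a4 : 0 ≤ (u.length : ℝ) * m (shift (pos u) (plus ω)) := by positivity
    have a5 := mul_le_mul_of_nonneg_left a1 a3
    have a6 := mul_nonneg a3 a4
    show _ ≤ wr lam (plus ω) 0 u * (u.length * m (shift (pos u) (plus ω)) +
      Vt (shift (pos u) (plus ω))) + _
    nlinarith
  have A4 : ∫ ω, K lam P (bad p (G n)) ω ∂perc D p ≤ τ := by
    rw [bad, ← K_Fr hV hF h0 h1 lam P hP bi]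
    refine (integral_mono ii ib fun ω => ?_).trans hb
    refine sum_le (ind_nonneg _) (fun u => wr_nonneg _ _) (hP1 _) fun u hu hw => ?_
    exact ind_mono fun h h' => h (hGG ω h' u (mem_filter.1 hu).1 hw)
  have A5 : |∫ ω, K lam P (Vn lam L N n) ω ∂perc D p - (∫ ω, K lam P (fun _ => 1) ω ∂perc D p) * c| ≤
      Y + 3 * E * τ := by
    rw [K_Fr hV hF h0 h1 lam P hP bV, ← integral_mul_const, ← integral_sub iF (i1.mul_const _)]
    refine abs_integral_le_integral_abs.trans ?_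
    calc _ ≤ ∫ ω, ((Y + E * (2 * τ)) + E * K lam P (bad p (G n)) ω) ∂perc D p := by
          refine integral_mono (iF.sub (i1.mul_const _)).abs
            ((integrable_const _).add (ibb.const_mul _)) fun ω => ?_
          show |K lam P (Fr p (Vn lam L N n)) ω - K lam P (fun _ => 1) ω * c| ≤
            (Y + E * (2 * τ)) + E * K lam P (bad p (G n)) ω
          have h2 := sum_le (P := P) (f := fun _ => Y + E * (2 * τ)) (c := Y + E * (2 * τ))
            (by positivity) (fun u => wr_nonneg (lam := lam) (ω := plus ω) u 0) (hP1 _)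
            fun _ _ _ => le_rfl
          refine le_trans ?_ (add_le_add h2 le_rfl)
          simp only [K, sum_mul, mul_sum P, ← sum_sub_distrib, ← sum_add_distrib]
          refine (abs_sum_le_sum_abs _ _).trans (sum_le_sum fun u _ => ?_)
          have a3 : 0 ≤ wr lam (plus ω) 0 u := wr_nonneg _ _
          have a5 := mul_le_mul_of_nonneg_left (hFr (shift (pos u) (plus ω))) a3
          rw [mul_one, ← mul_sub, abs_mul, abs_of_nonneg a3]
          linarith
      _ ≤ _ := by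
          rw [integral_add (integrable_const _) (ibb.const_mul _), integral_const_mul]
          simp only [integral_const, probReal_univ, smul_eq_mul, one_mul]
          have := mul_le_mul_of_nonneg_left A4 hE
          linarith
  -- dictionary
  set q := ∫ ω, K lam P (fun _ => 1) ω ∂perc D p with hq
  set mD := ∫ ω, K lam P m ω ∂perc D p with hmD
  set XD := ∫ ω, ∑ l ∈ Tf, wr lam (plus ω) 0 l * (l.length : ℝ) ∂perc D p with hXD
  have q0 : 0 ≤ q := integral_nonneg fun ω => sum_nonneg fun u _ => by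
    simpa using wr_nonneg u 0
  have mD0 : 0 ≤ mD := integral_nonneg fun ω => sum_nonneg fun u _ =>
    mul_nonneg (wr_nonneg _ _) (hm0 _)
  have XD0 : 0 ≤ XD := integral_nonneg fun ω => sum_nonneg fun u _ =>
    mul_nonneg (wr_nonneg _ _) (Nat.cast_nonneg _)
  have eq : SS (P : Set (List (Step D))) (wb true p lam) = ENNReal.ofReal q := by
    rw [SS_fin h0 h1]; simp [hq, K]
  have emD : SS (Tf : Set (List (Step D))) (wb true p lam) = ENNReal.ofReal mD := by
    rw [SS_fin h0 h1]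
    congr 1
    exact integral_congr_ae (Filter.Eventually.of_forall fun ω => (hsum lam (plus ω)).1)
  have eXD := SS_fin_len h0 h1 lam Tf
  rw [← hXD] at eXD
  have hQ1 : QQ D p lam h₀ ≤ 1 := le_trans le_self_add (hQ D p lam h0 h1 h₀).1
  have hQt : QQ D p lam h₀ ≠ ∞ := ne_top_of_le_ne_top ENNReal.one_ne_top hQ1
  have Ql : q ≤ (QQ D p lam h₀).toReal := by
    refine (ENNReal.ofReal_le_iff_le_toReal hQt).1 ?_
    rw [← eq]
    refine SS_mono (fun u hu => ?_) fun _ _ => le_rfl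
    have hu' := mem_filter.1 (mem_coe.1 hu)
    exact ⟨hu'.2, (mem_Lg.1 hu'.1).2⟩
  have Qu' : QQ D p lam h₀ ≤ ENNReal.ofReal (q + σ) := by
    rw [ENNReal.ofReal_add q0 hσ, ← eq]
    refine le_trans ?_ (add_le_add le_rfl hS)
    refine le_trans (SS_mono (fun u hu => ?_) fun _ _ => le_rfl) (SS_union_le _ _ _)
    by_cases h : N₁ < u.length
    · exact Or.inr ⟨hu, h⟩
    · exact Or.inl (mem_coe.2 (mem_filter.2 ⟨mem_Lg.2 ⟨not_lt.1 h, hu.2⟩, hu.1⟩))
  have Qu : (QQ D p lam h₀).toReal ≤ q + σ :=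
    ENNReal.toReal_le_of_le_ofReal (add_nonneg q0 hσ) Qu'
  have hR0 : 0 ≤ σ + (n + 1) * τ := by positivity
  have hR : SS (FPS D (h₀ + n * L) \ Tf) (wb true p lam) ≤ ENNReal.ofReal (σ + (n + 1) * τ) := by
    have e1 := SS_split (FPS D (h₀ + n * L)) Tf (wb true p lam)
    rw [Set.inter_eq_right.2 hTf, emD] at e1
    have e2 : QQ D p lam (h₀ + n * L) ≤ ENNReal.ofReal mD + ENNReal.ofReal (σ + (n + 1) * τ) := by
      refine (((hQ D p lam h0 h1 h₀).2.2.1 _ (Nat.le_add_right _ _)).trans Qu').trans ?_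
      rw [← ENNReal.ofReal_add mD0 hR0]
      exact ENNReal.ofReal_le_ofReal (by linarith)
    rw [QQ, e1] at e2
    exact (ENNReal.add_le_add_iff_left ENNReal.ofReal_ne_top).1 e2
  have Xu' : XX D p lam (h₀ + n * L) ≤ ENNReal.ofReal (XD + (M * (σ + (n + 1) * τ) + T)) := by
    have hMR : 0 ≤ (M : ℝ) * (σ + (n + 1) * τ) := by positivity
    rw [XX, SS_split (FPS D (h₀ + n * L)) Tf, Set.inter_eq_right.2 hTf, eXD,
      ENNReal.ofReal_add XD0 (add_nonneg hMR hT), ENNReal.ofReal_add hMR hT]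
    refine add_le_add le_rfl ?_
    rw [SS_split _ {l : List (Step D) | l.length ≤ M}]
    refine add_le_add ?_ (le_trans (SS_mono (fun u hu => ?_) fun _ _ => le_rfl) hM)
    · rw [ENNReal.ofReal_mul (Nat.cast_nonneg _), ENNReal.ofReal_natCast]
      refine le_trans ?_ (mul_le_mul_right hR _)
      rw [← SS_mul_left]
      refine SS_mono Set.inter_subset_left fun u hu => ?_
      exact mul_le_mul_left (by exact_mod_cast hu.2) _
    · exact ⟨hu.1.1, not_le.1 hu.2⟩
  have Xu : (XX D p lam (h₀ + n * L)).toReal ≤ XD + (M * (σ + (n + 1) * τ) + T) :=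
    ENNReal.toReal_le_of_le_ofReal (by positivity) Xu'
  have Xl : XD ≤ (XX D p lam (h₀ + n * L)).toReal := by
    refine (ENNReal.ofReal_le_iff_le_toReal (ne_top_of_le_ne_top ENNReal.ofReal_ne_top Xu')).1 ?_
    rw [← eXD]
    exact SS_mono hTf fun _ _ => le_rfl
  have hnN : (0 : ℝ) ≤ n * N := by positivity
  have B1 : (n : ℝ) * N * (q - mD) ≤ 2 * (n : ℝ) ^ 2 * N * τ := by
    have h2 : (n : ℝ) * (n + 1) ≤ 2 * (n : ℝ) ^ 2 := by
      rcases Nat.eq_zero_or_pos n with h | h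
      · simp [h]
      · have : (1 : ℝ) ≤ n := by exact_mod_cast h
        nlinarith
    calc _ ≤ (n : ℝ) * N * ((n + 1) * τ) := mul_le_mul_of_nonneg_left A1 hnN
      _ = (n * (n + 1)) * (N * τ) := by ring
      _ ≤ (2 * (n : ℝ) ^ 2) * (N * τ) := mul_le_mul_of_nonneg_right h2 (by positivity)
      _ = _ := by ring
  have B2 : q * c ≤ (QQ D p lam h₀).toReal * c := mul_le_mul_of_nonneg_right Ql hc0
  have B3 : (QQ D p lam h₀).toReal * c ≤ q * c + n * N * σ := by
    have := mul_le_mul_of_nonneg_right Qu hc0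
    have := mul_le_mul_of_nonneg_left hc hσ
    nlinarith
  have B4 : (0 : ℝ) ≤ 2 * (n : ℝ) ^ 2 * N * τ := by positivity
  have B5 : (0 : ℝ) ≤ n * N * σ := by positivity
  have B6 : (0 : ℝ) ≤ M * (σ + (n + 1) * τ) := by positivity
  have B7 : (0 : ℝ) ≤ N₁ := Nat.cast_nonneg _
  rw [abs_le] at A5 ⊢
  constructor <;> linarith [A5.1, A5.2]

end Pool.Agent.MP_8c549f_pr.L2

end

end Part8

-- ======== part 9: KapS
section Part9

/-! Row Kap: comparison of `n` legs with the time per level. -/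

noncomputable section

namespace Pool.Agent.MP_8c549f_pr.L2

open MeasureTheory Finset Real Classical S3

namespace Kap

lemma fin {q q' c κ X Q nL h₀ a b e K R : ℝ} (h1 : q ≤ q') (h2 : q' ≤ 1) (hq : 0 < q)
    (h3 : 0 ≤ κ) (h4 : κ ≤ K) (h5 : |X - κ * q' * (h₀ + nL)| ≤ b) (h6 : |Q - q'| ≤ e)
    (h7 : |X - Q * c| ≤ a) (h8 : 0 ≤ c) (h9 : c ≤ R) (h0 : 0 ≤ h₀) :
    q * |c - κ * nL| ≤ a + b + K * h₀ + R * e := by
  have e0 : 0 ≤ e := (abs_nonneg _).trans h6
  have e1 : q * |c - κ * nL| ≤ |q' * (c - κ * nL)| := by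
    rw [abs_mul, abs_of_nonneg (hq.le.trans h1)]
    exact mul_le_mul_of_nonneg_right h1 (abs_nonneg _)
  have e2 : |(Q - q') * c| ≤ R * e := by
    rw [abs_mul, abs_of_nonneg h8, mul_comm]
    exact mul_le_mul h9 h6 (abs_nonneg _) (h8.trans h9)
  have e3 : 0 ≤ κ * q' * h₀ := mul_nonneg (mul_nonneg h3 (hq.le.trans h1)) h0
  have e4 : κ * q' * h₀ ≤ K * h₀ :=
    mul_le_mul_of_nonneg_right ((mul_le_of_le_one_right h3 h2).trans h4) h0
  refine e1.trans (abs_le.2 ⟨?_, ?_⟩)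
  · nlinarith [(abs_le.1 e2).2, (abs_le.1 h5).1, (abs_le.1 h7).2]
  · nlinarith [(abs_le.1 e2).1, (abs_le.1 h5).2, (abs_le.1 h7).1]

end Kap

theorem kapS (hV : VBStmt) (hM : MIXStmt) (hL : LINKStmt) (hQ : QFStmt) (hO : MOMStmt)
    (hR : RENStmt) : KAPStmt := by
  obtain ⟨C, hC, hR⟩ := hR
  obtain ⟨C', -, hO⟩ := hO
  refine ⟨C, hC, ?_⟩
  intro D p lam L N n₀ n h₀ N₁ M G G₀ τ c y q μ mix reg hb hm hG0 hin hN h1 h2 h3 h4
  have p0 : 0 ≤ p := le_trans (by norm_num) reg.p0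
  have hY : 0 ≤ 4 * y / c := div_nonneg (mul_nonneg (by norm_num) mix.y0) mix.c0.le
  have hE : (0 : ℝ) ≤ n * (n * N + 4 * y / c) := by positivity
  obtain ⟨q', r1, r2, r3, r4, r5⟩ := hR D p lam n₀ q μ reg
  have hc := (((hV D p p0 reg.p1).2.2.2.2 lam L N).2.2.2 n).2 (allOpen D)
  have link := hL D p lam L N h₀ N₁ n M G G₀ τ (4 * y / c) (n * (n * N + 4 * y / c))
    (Fr p (Vn lam L N n) (allOpen D)) (1 / (N₁ : ℝ) ^ 8) (4 / (M : ℝ) ^ 5) p0 reg.p1 hN mix.toInh
    hm hG0 hin hY hE hc.2.1 hc.2.2 (by positivity) (by positivity) (fun η => ?_)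
    (((hQ D p lam p0 reg.p1 h₀).2.2.2 N₁).trans (reg.slab h₀ N₁ h1 h2))
    ((hO D p lam n₀ q μ reg).2 _ M h3 h4)
  · have k5 := (r5 (h₀ + n * L)).1
    push_cast at k5
    refine (Kap.fin r1 r2 reg.q0 r3 r4 k5 (r5 h₀).2 link hc.2.1 hc.2.2 (Nat.cast_nonneg _)).trans
      (le_of_eq ?_)
    unfold errK
    ring
  · have k := hM D p lam L N G τ c y p0 reg.p1 mix n 0 η (allOpen D) fun e a b => by
      simp only [zero_mul, Nat.cast_zero, neg_zero] at a
      omega
    rw [pow_zero, div_one] at k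
    exact k.trans (add_le_add le_rfl (mul_le_mul_of_nonneg_left (by linarith) hE))

end Pool.Agent.MP_8c549f_pr.L2

end

end Part9

-- ======== part 10: Ar
section Part10

noncomputable section

namespace Pool.Agent.MP_8c549f_pr.L2

open MeasureTheory Finset Real Classical S3

namespace Ar

lemma pw {t : ℝ} (ht : 1 ≤ t) {a b : ℕ} (c : ℕ) (h : a ≤ b + c) : t ^ a / t ^ c ≤ t ^ b := by
  have h0 : 0 < t := by linarith
  rw [div_le_iff₀ (pow_pos h0 c), ← pow_add]
  exact pow_le_pow_right₀ ht h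

lemma ex {t : ℝ} (ht : 1 ≤ t) (k : ℕ) (hk : (k.factorial : ℝ) ≤ t) :
    t ^ k * exp (-(t ^ 4)) ≤ t := by
  have h0 : 0 < t := by linarith
  have h1 : t ^ k / k.factorial ≤ exp t := Real.pow_div_factorial_le_exp t h0.le k
  have hf : (0 : ℝ) < k.factorial := by exact_mod_cast k.factorial_pos
  have h2 : t ≤ t ^ 4 := by
    calc t = t ^ 1 := (pow_one t).symm
      _ ≤ t ^ 4 := pow_le_pow_right₀ ht (by norm_num)
  have h3 : exp t ≤ exp (t ^ 4) := exp_le_exp.2 h2
  rw [div_le_iff₀ hf] at h1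
  have h4 : t ^ k ≤ exp (t ^ 4) * t :=
    h1.trans (mul_le_mul h3 hk hf.le (exp_pos _).le)
  rw [exp_neg, ← div_eq_mul_inv, div_le_iff₀ (exp_pos _)]
  linarith

lemma err (K b l : ℕ) (C Y : ℝ) (hC : 0 ≤ C) (hb : 21 * K + 8 ≤ b) (hl : 1 ≤ l)
    (hCl : C ≤ l) (hYl : Y ≤ l) (hk : (((3 * b + 4 + 2 * K).factorial : ℕ) : ℝ) ≤ l) :
    errK (l ^ 4) (l ^ K) (l ^ (3 * b)) (l ^ (K + 4)) (l ^ b) (l ^ (7 * b))
        (1 / (l : ℝ) ^ (20 * b)) (Y * (l : ℝ) ^ 2) (1 / (l : ℝ) ^ K) C ≤ 22 * (l : ℝ) ^ b := by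
  have ht : (1 : ℝ) ≤ l := by exact_mod_cast hl
  unfold errK
  push_cast
  generalize (l : ℝ) = t at *
  have h0 : 0 < t := by linarith
  have mono : ∀ {a c : ℕ}, a ≤ c → t ^ a ≤ t ^ c := fun h => pow_le_pow_right₀ ht h
  have hY3 : Y * t ^ 2 ≤ t ^ 3 := by
    calc Y * t ^ 2 ≤ t * t ^ 2 := mul_le_mul_of_nonneg_right hYl (by positivity)
      _ = t ^ 3 := by ring
  have t2 : Y * t ^ 2 ≤ t ^ b := hY3.trans (mono (by omega))
  have t3 : 3 * (t ^ (3 * b) * (t ^ (3 * b) * t ^ 4 + Y * t ^ 2)) * (1 / t ^ (20 * b)) ≤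
      6 * t ^ b := by
    have a1 : Y * t ^ 2 ≤ t ^ (3 * b) * t ^ 4 := by
      rw [← pow_add]; exact hY3.trans (mono (by omega))
    have a2 : t ^ (6 * b + 4) / t ^ (20 * b) ≤ t ^ b := pw ht _ (by omega)
    calc 3 * (t ^ (3 * b) * (t ^ (3 * b) * t ^ 4 + Y * t ^ 2)) * (1 / t ^ (20 * b))
        ≤ 3 * (t ^ (3 * b) * (t ^ (3 * b) * t ^ 4 + t ^ (3 * b) * t ^ 4)) * (1 / t ^ (20 * b)) := by
          gcongr
      _ = 6 * (t ^ (6 * b + 4) / t ^ (20 * b)) := by ring
      _ ≤ 6 * t ^ b := by linarith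
  have t4 : 2 * (t ^ (3 * b)) ^ 2 * t ^ 4 * (1 / t ^ (20 * b)) ≤ 2 * t ^ b := by
    have a2 : t ^ (6 * b + 4) / t ^ (20 * b) ≤ t ^ b := pw ht _ (by omega)
    calc 2 * (t ^ (3 * b)) ^ 2 * t ^ 4 * (1 / t ^ (20 * b))
        = 2 * (t ^ (6 * b + 4) / t ^ (20 * b)) := by ring
      _ ≤ 2 * t ^ b := by linarith
  have t5 : t ^ (3 * b) * t ^ 4 / (t ^ b) ^ 8 ≤ t ^ b := by
    have a2 : t ^ (3 * b + 4) / t ^ (8 * b) ≤ t ^ b := pw ht _ (by omega)
    calc t ^ (3 * b) * t ^ 4 / (t ^ b) ^ 8 = t ^ (3 * b + 4) / t ^ (8 * b) := by ring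
      _ ≤ t ^ b := a2
  have t6 : t ^ (7 * b) * (1 / (t ^ b) ^ 8 + (t ^ (3 * b) + 1) * (1 / t ^ (20 * b))) ≤
      3 * t ^ b := by
    have a1 : t ^ (7 * b) / t ^ (8 * b) ≤ t ^ b := pw ht _ (by omega)
    have a2 : t ^ (10 * b) / t ^ (20 * b) ≤ t ^ b := pw ht _ (by omega)
    have a3 : t ^ (7 * b) / t ^ (20 * b) ≤ t ^ b := pw ht _ (by omega)
    calc t ^ (7 * b) * (1 / (t ^ b) ^ 8 + (t ^ (3 * b) + 1) * (1 / t ^ (20 * b)))
        = t ^ (7 * b) / t ^ (8 * b) + t ^ (10 * b) / t ^ (20 * b) +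
          t ^ (7 * b) / t ^ (20 * b) := by ring
      _ ≤ 3 * t ^ b := by linarith
  have t7 : 4 / (t ^ (7 * b)) ^ 5 ≤ 4 * t ^ b := by
    have a1 : t ^ 0 / t ^ (35 * b) ≤ t ^ b := pw ht _ (by omega)
    calc 4 / (t ^ (7 * b)) ^ 5 = 4 * (t ^ 0 / t ^ (35 * b)) := by ring
      _ ≤ 4 * t ^ b := by linarith
  have e1 : C * (t ^ K) ^ 3 / (1 / t ^ K) ^ 7 = C * t ^ (10 * K) := by
    field_simp
    ring
  have c1 : C * t ^ (10 * K) ≤ t ^ (10 * K + 1) := by
    calc C * t ^ (10 * K) ≤ t * t ^ (10 * K) := mul_le_mul_of_nonneg_right hCl (by positivity)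
      _ = t ^ (10 * K + 1) := by ring
  have t8 : (C * (t ^ K) ^ 3 / (1 / t ^ K) ^ 7) ^ 2 ≤ t ^ b := by
    rw [e1]
    calc (C * t ^ (10 * K)) ^ 2 ≤ (t ^ (10 * K + 1)) ^ 2 := by gcongr
      _ = t ^ (20 * K + 2) := by ring
      _ ≤ t ^ b := mono (by omega)
  have t9 : C * (t ^ K) ^ 3 / (1 / t ^ K) ^ 7 * t ^ (K + 4) ≤ t ^ b := by
    rw [e1]
    calc C * t ^ (10 * K) * t ^ (K + 4) ≤ t ^ (10 * K + 1) * t ^ (K + 4) := by gcongr
      _ = t ^ (11 * K + 5) := by ring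
      _ ≤ t ^ b := mono (by omega)
  have t10 : t ^ (3 * b) * t ^ 4 * (2 * t ^ K / (1 / t ^ K) * exp (-(1 / t ^ K * t ^ (K + 4)))) ≤
      2 * t ^ b := by
    have e2 : 1 / t ^ K * t ^ (K + 4) = t ^ 4 := by
      field_simp
      ring
    have e3 : 2 * t ^ K / (1 / t ^ K) = 2 * t ^ (2 * K) := by
      field_simp
      ring
    have a1 := ex ht _ hk
    have a2 : t ≤ t ^ b := by
      calc t = t ^ 1 := (pow_one t).symm
        _ ≤ t ^ b := mono (by omega)
    rw [e2, e3]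
    calc t ^ (3 * b) * t ^ 4 * (2 * t ^ (2 * K) * exp (-(t ^ 4)))
        = 2 * (t ^ (3 * b + 4 + 2 * K) * exp (-(t ^ 4))) := by ring
      _ ≤ 2 * t ^ b := by linarith
  linarith

end Ar

theorem arS : ARStmt := by
  intro K₀ K₁ Λ C Y g hC _ hg
  obtain ⟨b, hb⟩ : ∃ b : ℕ, b = 21 * K₀ + K₁ + 8 := ⟨_, rfl⟩
  refine ⟨b, Λ + 2 + ⌈C⌉₊ + ⌈Y⌉₊ + ⌈200 / g⌉₊ + (3 * b + 4 + 2 * K₀).factorial, by omega, ?_⟩
  intro l hl
  have hl1 : 1 ≤ l := by omega
  have mono : ∀ {a c : ℕ}, a ≤ c → l ^ a ≤ l ^ c := fun h => Nat.pow_le_pow_right hl1 h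
  refine ⟨mono (by omega), ?_, mono (by omega), ?_, ?_, ?_⟩
  · rw [← pow_mul]; exact mono (by omega)
  · have a1 : l ^ (K₀ + 4) ≤ l ^ (3 * b) * l := by
      rw [← pow_succ]; exact mono (by omega)
    have a2 : Λ + 1 ≤ l := by omega
    have a3 : l ^ (K₀ + 4) + l ^ (3 * b) * (Λ * l) ≤ l ^ (3 * b + 2) := by
      calc l ^ (K₀ + 4) + l ^ (3 * b) * (Λ * l) ≤ l ^ (3 * b) * l + l ^ (3 * b) * (Λ * l) := by
            omega
        _ = l ^ (3 * b) * l * (Λ + 1) := by ring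
        _ ≤ l ^ (3 * b) * l * l := Nat.mul_le_mul_left _ a2
        _ = l ^ (3 * b + 2) := by ring
    calc (l ^ (K₀ + 4) + l ^ (3 * b) * (Λ * l)) ^ 2 ≤ (l ^ (3 * b + 2)) ^ 2 :=
          Nat.pow_le_pow_left a3 2
      _ = l ^ (6 * b + 4) := by ring
      _ ≤ l ^ (7 * b) := mono (by omega)
  · have a1 : l ^ 4 ≤ l ^ (3 * b + 4) := mono (by omega)
    have a2 : l ^ b ≤ l ^ (3 * b + 4) := mono (by omega)
    have a3 : 2 ≤ l := by omega
    have a4 : 4 ≤ l ^ 2 := by
      calc 4 = 2 ^ 2 := by norm_num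
        _ ≤ l ^ 2 := Nat.pow_le_pow_left a3 2
    calc (l ^ (3 * b) + 2) * l ^ 4 + l ^ b = l ^ (3 * b + 4) + 2 * l ^ 4 + l ^ b := by ring
      _ ≤ l ^ (3 * b + 4) * 4 := by omega
      _ ≤ l ^ (3 * b + 4) * l ^ 2 := Nat.mul_le_mul_left _ a4
      _ = l ^ (3 * b + 6) := by ring
      _ ≤ l ^ (20 * b) := mono (by omega)
  · have hCl : C ≤ l := (Nat.le_ceil C).trans (by exact_mod_cast (by omega : ⌈C⌉₊ ≤ l))
    have hYl : Y ≤ l := (Nat.le_ceil Y).trans (by exact_mod_cast (by omega : ⌈Y⌉₊ ≤ l))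
    have hgl : 200 / g ≤ l :=
      (Nat.le_ceil _).trans (by exact_mod_cast (by omega : ⌈200 / g⌉₊ ≤ l))
    have hk : (((3 * b + 4 + 2 * K₀).factorial : ℕ) : ℝ) ≤ l := by
      exact_mod_cast (by omega : (3 * b + 4 + 2 * K₀).factorial ≤ l)
    have hE := Ar.err K₀ b l C Y hC (by omega) hl1 hCl hYl hk
    have ht : (1 : ℝ) ≤ l := by exact_mod_cast hl1
    generalize errK (l ^ 4) (l ^ K₀) (l ^ (3 * b)) (l ^ (K₀ + 4)) (l ^ b) (l ^ (7 * b))
        (1 / (l : ℝ) ^ (20 * b)) (Y * (l : ℝ) ^ 2) (1 / (l : ℝ) ^ K₀) C = E at hE ⊢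
    generalize (l : ℝ) = t at *
    have h0 : 0 < t := by linarith
    have mo : ∀ {a c : ℕ}, a ≤ c → t ^ a ≤ t ^ c := fun h => pow_le_pow_right₀ ht h
    have hY3 : Y * t ^ 2 ≤ t ^ (3 * b) * t ^ 4 := by
      calc Y * t ^ 2 ≤ t * t ^ 2 := mul_le_mul_of_nonneg_right hYl (by positivity)
        _ = t ^ 3 := by ring
        _ ≤ t ^ (3 * b + 4) := mo (by omega)
        _ = t ^ (3 * b) * t ^ 4 := by ring
    have s1 : 7 * (t ^ (3 * b)) ^ 2 * (t ^ (3 * b) * t ^ 4 + Y * t ^ 2) * (2 / t ^ (20 * b)) ≤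
        28 * t ^ (b + K₀) := by
      have a2 : t ^ (9 * b + 4) / t ^ (20 * b) ≤ t ^ (b + K₀) := Ar.pw ht _ (by omega)
      calc 7 * (t ^ (3 * b)) ^ 2 * (t ^ (3 * b) * t ^ 4 + Y * t ^ 2) * (2 / t ^ (20 * b))
          ≤ 7 * (t ^ (3 * b)) ^ 2 * (t ^ (3 * b) * t ^ 4 + t ^ (3 * b) * t ^ 4) *
            (2 / t ^ (20 * b)) := by gcongr
        _ = 28 * (t ^ (9 * b + 4) / t ^ (20 * b)) := by ring
        _ ≤ 28 * t ^ (b + K₀) := by linarith
    have s2 : 2 * t ^ K₀ * E ≤ 44 * t ^ (b + K₀) := by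
      calc 2 * t ^ K₀ * E ≤ 2 * t ^ K₀ * (22 * t ^ b) := by gcongr
        _ = 44 * t ^ (b + K₀) := by ring
    have s3 : t ^ (b + K₀ + 1) ≤ t ^ (3 * b + 3) / t ^ K₁ := by
      rw [le_div_iff₀ (pow_pos h0 _), ← pow_add]
      exact mo (by omega)
    have s4 : 200 ≤ g * t := by
      rw [div_le_iff₀ hg] at hgl
      linarith
    have s5 : 0 < t ^ (b + K₀) := pow_pos h0 _
    calc 7 * (t ^ (3 * b)) ^ 2 * (t ^ (3 * b) * t ^ 4 + Y * t ^ 2) * (2 / t ^ (20 * b)) +
          2 * t ^ K₀ * E ≤ 200 * t ^ (b + K₀) / 2 := by linarith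
      _ ≤ g * t * t ^ (b + K₀) / 2 := by gcongr
      _ = g * t ^ (b + K₀ + 1) / 2 := by ring
      _ ≤ g * (t ^ (3 * b + 3) / t ^ K₁) / 2 := by gcongr
      _ = t ^ (3 * b) * (g * t ^ 3 / t ^ K₁) / 2 := by ring

end Pool.Agent.MP_8c549f_pr.L2

end

end Part10

-- ======== part 11: FinS
section Part11

/-! PROJECT L2, row Fin: the time per level decreases by a definite amount. -/

noncomputable section

namespace Pool.Agent.MP_8c549f_pr.L2

open MeasureTheory Finset Real Classical S3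

namespace FinS

lemma arith (ax az kx kz T err n g S P Lr c s : ℝ) (hP : 0 < P) (hn : 0 < n) (hL : 0 < Lr)
    (hx : 1 / P * |ax - kx * (n * Lr)| ≤ err) (hz : 1 / P * |az - kz * (n * Lr)| ≤ err)
    (hT : az - ax ≤ -(n * g) + T) (hS : T ≤ S) (hA : S + 2 * P * err ≤ n * g / 2)
    (hc : c * s * Lr ≤ g / 2) : kz - kx ≤ -(c * s) := by
  have h1 : |ax - kx * (n * Lr)| ≤ P * err := by
    rw [one_div, inv_mul_le_iff₀ hP] at hx; exact hx
  have h2 : |az - kz * (n * Lr)| ≤ P * err := by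
    rw [one_div, inv_mul_le_iff₀ hP] at hz; exact hz
  have h3 := (abs_le.1 h1).2
  have h4 := (abs_le.1 h2).1
  have h5 : (kz - kx) * (n * Lr) ≤ -(n * g / 2) := by linarith
  have h6 : n * (c * s * Lr) ≤ n * (g / 2) := mul_le_mul_of_nonneg_left hc hn.le
  have h7 : (kz - kx) * (n * Lr) ≤ -(c * s) * (n * Lr) := by linarith
  exact le_of_mul_le_mul_right h7 (mul_pos hn hL)

lemma eps (C c cg κ : ℝ) (hC : 1 ≤ C) (hc : 0 < c) (hg : 0 < cg) (hκ : 0 < κ) :
    ∃ ε : ℝ, 0 < ε ∧ ε ≤ 1 / 2 ∧ 2 * ε ≤ κ * cg ∧ (4 * C + 4) * (4 * √(2 * ε * C) / c) ≤ cg := by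
  have hC0 : 0 < C := by linarith
  set w : ℝ := cg * c / (16 * (C + 1)) with hw
  have hw0 : 0 < w := by positivity
  refine ⟨min (1 / 2) (min (κ * cg / 2) (w ^ 2 / (2 * C))), by positivity, min_le_left _ _, ?_, ?_⟩
  · have : min (1 / 2) (min (κ * cg / 2) (w ^ 2 / (2 * C))) ≤ κ * cg / 2 :=
      (min_le_right _ _).trans (min_le_left _ _)
    linarith
  · have h1 : min (1 / 2) (min (κ * cg / 2) (w ^ 2 / (2 * C))) ≤ w ^ 2 / (2 * C) :=
      (min_le_right _ _).trans (min_le_right _ _)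
    have h2 : 2 * min (1 / 2) (min (κ * cg / 2) (w ^ 2 / (2 * C))) * C ≤ w ^ 2 := by
      rw [le_div_iff₀ (by positivity)] at h1; linarith
    have h3 : √(2 * min (1 / 2) (min (κ * cg / 2) (w ^ 2 / (2 * C))) * C) ≤ w :=
      Real.sqrt_le_iff.2 ⟨hw0.le, h2⟩
    calc _ ≤ (4 * C + 4) * (4 * w / c) := by gcongr
      _ = cg := by rw [hw]; field_simp; ring

end FinS

theorem finS (hQ : QUStmt) (h1 : HYP1Stmt) (h2 : HYP2Stmt) (hT : TELStmt) (hK : KAPStmt)
    (hR : RGStmt) (hN : NICEPStmt) (hF : NICEFStmt) (hG : GOODStmt) (hA : ARStmt) : FINStmt := by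
  intro D hD
  obtain ⟨A, Λ, C, c, hA2, hΛ, hC, hc0, hc1, hQ'⟩ := hQ D hD
  have hΛr : (1 : ℝ) ≤ Λ := by exact_mod_cast hΛ
  have hC0 : 0 < C := by linarith
  obtain ⟨cg, hcg⟩ : ∃ cg : ℝ, cg = Λ / (512 * (D + 1)) := ⟨_, rfl⟩
  have hcg0 : 0 < cg := by rw [hcg]; positivity
  have hcgΛ : cg ≤ Λ := by
    rw [hcg]; apply div_le_self (by linarith)
    have : (0 : ℝ) ≤ D := Nat.cast_nonneg D
    linarith
  obtain ⟨κ, hκ⟩ : ∃ κ : ℝ, κ = min 1 (cg / (2 * C)) := ⟨_, rfl⟩
  have hκ0 : 0 < κ := by rw [hκ]; positivity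
  have hκ1 : κ ≤ 1 := by rw [hκ]; exact min_le_left _ _
  have hκ2 : 2 * κ * C ≤ cg := by
    have : κ ≤ cg / (2 * C) := by rw [hκ]; exact min_le_right _ _
    rw [le_div_iff₀ (by positivity)] at this; linarith
  obtain ⟨ε, hε0, hε1, hε2, hε3⟩ := FinS.eps C c cg κ hC hc0 hcg0 hκ0
  obtain ⟨δ, hδ, hQ''⟩ := hQ' ε hε0
  obtain ⟨e₁, K₀, l₁, he₁, -, hR'⟩ := hR D hD
  obtain ⟨C', hC', hK'⟩ := hK
  refine ⟨1 / (1024 * (D + 1)), by positivity, fun K₁ hK₁ => ?_⟩
  obtain ⟨Y, hY⟩ : ∃ Y : ℝ, Y = 4 * √(2 * ε * C) / c := ⟨_, rfl⟩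
  have hY0 : 0 ≤ Y := by rw [hY]; positivity
  obtain ⟨b, l₂, -, hA'⟩ := hA K₀ K₁ Λ C' Y cg (by linarith) hY0 hcg0
  obtain ⟨l₃, hQ3⟩ := hQ'' (20 * b)
  obtain ⟨e₂, l₄, he₂, hN'⟩ := hN D A (20 * b) δ hA2 hδ
  refine ⟨min e₁ e₂, l₁ + l₂ + l₃ + l₄ + Λ + ⌈1 / κ⌉₊ + 4, lt_min he₁ he₂,
    fun p x l hp hp1 hl hx1 hx2 => ?_⟩
  have hl4 : 4 ≤ l := by omega
  have hlr : (4 : ℝ) ≤ l := by exact_mod_cast hl4
  have hl0 : (0 : ℝ) < l := by linarith
  have hlΛ : (Λ : ℝ) ≤ l := by exact_mod_cast (by omega : Λ ≤ l)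
  have hlκ : 1 / κ ≤ l := (Nat.le_ceil _).trans (by exact_mod_cast (by omega : ⌈1 / κ⌉₊ ≤ l))
  obtain ⟨s, hs⟩ : ∃ s : ℝ, s = 1 / (l : ℝ) ^ K₁ := ⟨_, rfl⟩
  have hs0 : 0 < s := by rw [hs]; positivity
  have hsκ : s ≤ κ / l := by
    have h1 : (l : ℝ) ^ 2 ≤ (l : ℝ) ^ K₁ := pow_le_pow_right₀ (by linarith) hK₁
    have h2 : 1 ≤ κ * l := by
      rw [div_le_iff₀ hκ0] at hlκ; linarith
    rw [hs, div_le_div_iff₀ (by positivity) hl0]
    nlinarith [mul_le_mul_of_nonneg_left h1 hκ0.le]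
  have hs1 : s ≤ 1 / l := hsκ.trans (by gcongr)
  have hi1 : 4 / (l : ℝ) ≤ 1 := by rw [div_le_one hl0]; exact hlr
  have h34 : 3 / (l : ℝ) ≤ 4 / l := by gcongr; norm_num
  have h11 : 1 / (l : ℝ) ≤ 4 / l := by gcongr; norm_num
  have hz3 : x + s ≤ 3 / (l : ℝ) := by
    have : 3 / (l : ℝ) = 2 / l + 1 / l := by ring
    linarith
  have hp₁ : 1 - e₁ ≤ p := le_trans (by linarith [min_le_left e₁ e₂]) hp
  have hp₂ : 1 - e₂ ≤ p := le_trans (by linarith [min_le_right e₁ e₂]) hp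
  have Rx := hR' p x l hp₁ hp1 (by omega) hx1 (by linarith)
  have Rz := hR' p (x + s) l hp₁ hp1 (by omega) (by linarith) (by linarith)
  have hp0 : 0 ≤ p := le_trans (by norm_num) Rx.p0
  obtain ⟨n1, n2, n3, n4⟩ := hN' p l hp₂ hp1 hp0 (by omega)
  have hQu := hQ3 l (by omega) n1 n2 n3
  have Mx := h1 D A Λ (20 * b) l δ C c ε x hC hc0 hc1 hε0 hε1 hQu hx1 (by linarith)
  have Mz := h1 D A Λ (20 * b) l δ C c ε (x + s) hC hc0 hc1 hε0 hε1 hQu (by linarith) (by linarith)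
  obtain ⟨a1, a2, a3, a4, a5, a6⟩ := hA' l (by omega)
  obtain ⟨-, -, g3, g4⟩ := hG D A (mm l) (L2.hA A l) (l ^ 4) δ
  have hYe : 4 * (√(2 * ε * C) * (l : ℝ) ^ 2) / c = Y * (l : ℝ) ^ 2 := by rw [hY]; ring
  have hbad : ∀ n ≤ l ^ (3 * b), bad p (Gn (D := D) A (mm l) (L2.hA A l) δ (l ^ 4) n) (allOpen D) ≤
      1 / (l : ℝ) ^ (20 * b) := fun n hn =>
    (g3 p n (l ^ (20 * b)) hp0 hp1 (le_trans (Nat.mul_le_mul_right _ (by omega))
      (le_trans (Nat.le_add_right _ _) a5))).trans n4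
  have h12 : 12 * L2.hA A l ≤ l ^ (K₀ + 4) := by
    have e1 : mm l ≤ mm l ^ 8 := Nat.le_self_pow (by norm_num) _
    have e2 : 4 ^ 3 ≤ l ^ 3 := Nat.pow_le_pow_left hl4 3
    have e3 : l ^ 4 ≤ l ^ (K₀ + 4) := Nat.pow_le_pow_right (by omega) (by omega)
    have e4 : 64 * l ≤ l ^ 3 * l := Nat.mul_le_mul_right _ e2
    have e5 : l ^ 4 = l ^ 3 * l := by ring
    omega
  have hNh : l ^ 4 ≤ l ^ (K₀ + 4) := Nat.pow_le_pow_right (by omega) (by omega)
  have kp : ∀ lam : ℝ, Mix lam (Λ * l) (l ^ 4) (Gn (D := D) A (mm l) (L2.hA A l) δ (l ^ 4))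
      (1 / (l : ℝ) ^ (20 * b)) c (√(2 * ε * C) * (l : ℝ) ^ 2) →
      Reg D p lam (l ^ K₀) (1 / (l : ℝ) ^ K₀) (1 / (l : ℝ) ^ K₀) →
      1 / (l : ℝ) ^ K₀ * |Fr p (Vn lam (Λ * l) (l ^ 4) (l ^ (3 * b))) (allOpen D) -
        kap D p lam * ((l : ℝ) ^ (3 * b) * (Λ * l))| ≤
      errK (l ^ 4) (l ^ K₀) (l ^ (3 * b)) (l ^ (K₀ + 4)) (l ^ b) (l ^ (7 * b))
        (1 / (l : ℝ) ^ (20 * b)) (Y * (l : ℝ) ^ 2) (1 / (l : ℝ) ^ K₀) C' := by
    intro lam hM hRg
    have := hK' D p lam (Λ * l) (l ^ 4) (l ^ K₀) (l ^ (3 * b)) (l ^ (K₀ + 4)) (l ^ b) (l ^ (7 * b))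
      _ (Nice A (mm l) (L2.hA A l) δ (l ^ (20 * b))) _ c _ _ _ hM hRg (hbad _ le_rfl)
      ((hF D A (mm l) (L2.hA A l) δ).1 _) n4
      (fun ω hω u hu hw => g4 lam _ _ _ _ ω a5 h12 hω u hu hw) hNh a1 a2 a3 a4
    rw [hYe] at this
    push_cast at this
    exact this
  have hsx : x + s - x = s := by ring
  have tl := hT D p x (x + s) (Λ * l) (l ^ 4) (l ^ (3 * b)) _ _ c _ (cg * (l : ℝ) ^ 3 * s)
    ((4 * C + 4) * l * s) hp0 hp1 Mx Mz.toInh (by positivity)
    (by
      push_cast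
      have e1 : s ≤ 1 := by linarith
      calc cg * (l : ℝ) ^ 3 * s ≤ l * (l : ℝ) ^ 3 * 1 := by gcongr; linarith
        _ = (l : ℝ) ^ 4 := by ring)
    (by
      rw [hYe]
      rw [← hY] at hε3
      calc (4 * C + 4) * l * s * (Y * (l : ℝ) ^ 2) = (4 * C + 4) * Y * ((l : ℝ) ^ 3 * s) := by ring
        _ ≤ cg * ((l : ℝ) ^ 3 * s) := by gcongr
        _ = _ := by ring)
    (fun n ω hω => by
      have := h2 D A Λ (20 * b) l δ C c ε κ x (x + s) hΛ hC hl4 hκ0 hκ1 (hcg ▸ hκ2) (hcg ▸ hε2) hQu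
        hx1 (by linarith) hz3 (by linarith) (n + 1) ω hω
      rw [hsx, ← hcg] at this
      exact this)
    hbad _ le_rfl (allOpen D)
  rw [hYe] at tl
  push_cast at tl
  rw [← hs]
  refine FinS.arith _ _ _ _ _ _ ((l : ℝ) ^ (3 * b)) (cg * (l : ℝ) ^ 3 * s) _ ((l : ℝ) ^ K₀)
    (Λ * l) _ _ (by positivity) (by positivity) (by positivity) (kp x Mx Rx) (kp _ Mz Rz) tl ?_
    (a6.trans (le_of_eq (by rw [hs]; ring))) ?_
  · have := hbad _ le_rfl
    have e : 2 / (l : ℝ) ^ (20 * b) = 1 / (l : ℝ) ^ (20 * b) + 1 / (l : ℝ) ^ (20 * b) := by ring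
    rw [e]
    gcongr
  · have e1 : (l : ℝ) ≤ (l : ℝ) ^ 3 := le_self_pow₀ (by linarith) (by norm_num)
    calc 1 / (1024 * ((D : ℝ) + 1)) * s * (Λ * l) = cg * l * s / 2 := by
          rw [hcg]; field_simp; ring
      _ ≤ cg * (l : ℝ) ^ 3 * s / 2 := by gcongr

end Pool.Agent.MP_8c549f_pr.L2

end

end Part11
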