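import Mathlib.Algebra.Order.BigOperators.Ring.Finset
import Mathlib.Algebra.Order.Chebyshev
import Mathlib.Analysis.SpecialFunctions.Exp
import Pool.Agent.MP_8c549f_pr.L3.Spec

-- ======== part 0: Up
section Part0

/-! PROJECT L2, row Up: a big cluster at scale `t` is big at scale `t + 1`. -/

noncomputable section

namespace Pool.Agent.MP_8c549f_pr.L2

open MeasureTheory Finset Real Classical S3

namespace Up

theorem ray_ray {D : ℕ} (z : V D) (a b : ℕ) : ray (ray z a) b = ray z (a + b) := by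
  simp only [ray, add_assoc, ← Pi.single_add, Nat.cast_add]

theorem chain (hU : LUStmt) (hE : LEStmt) {D : ℕ} (hD : 1 ≤ D) (ω : Cfg D) (z : V D) (t : ℕ)
    (ht : 2 ≤ t) (hG : Gd ω z (17 * t) t) (hB : Big ω z t) (k : ℕ) (hk : k ≤ 9) :
    ∃ a, k * t ≤ a ∧ a ≤ (k + 1) * t ∧ Big ω (ray z a) t ∧ Conn ω z (ray z a) := by
  induction k with
  | zero =>
    have e : ray z 0 = z := by simp [ray]
    exact ⟨0, by omega, by omega, by rwa [e], by rw [e]; exact Conn.refl ω z⟩
  | succ k ih =>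
    obtain ⟨a, h1, h2, h3, h4⟩ := ih (by omega)
    have hkt : (k + 1) * t ≤ 9 * t := Nat.mul_le_mul_right t hk
    have e1 : (k + 1) * t = k * t + t := by ring
    have e2 : (k + 1 + 1) * t = k * t + 2 * t := by ring
    obtain ⟨r, hr, hb⟩ := hE D hD ω (ray z ((k + 1) * t)) t
      (hG.mono (by rw [nrm_ray]; omega))
    rw [ray_ray] at hb
    obtain ⟨b, hb'⟩ : ∃ b, (k + 1) * t + r = a + b := ⟨(k + 1) * t + r - a, by omega⟩
    refine ⟨(k + 1) * t + r, by omega, by omega, hb, h4.trans ?_⟩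
    refine (hU D hD ω _ _ t ht h3 hb ?_ (hG.mono (by rw [nrm_ray]; omega))).conn
    rw [hb', ← ray_ray, nrm_ray]
    omega

end Up

theorem upS (hU : LUStmt) (hE : LEStmt) : UPStmt := by
  intro D hD ω z t ht hG hB
  obtain ⟨a, h1, -, -, h4⟩ := Up.chain hU hE hD ω z t ht hG hB 9 le_rfl
  exact ⟨_, h4, by rw [nrm_ray]; omega⟩

end Pool.Agent.MP_8c549f_pr.L2

end

end Part0

-- ======== part 1: Rep
section Part1

/-! PROJECT L2, row Rep: the first wide site on the ray. -/

noncomputable section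

namespace Pool.Agent.MP_8c549f_pr.L2

open MeasureTheory Finset Real Classical S3

namespace Rep

variable {D : ℕ}

/-- the first wide site on the ray, if there is one within distance `h` -/
def rp (ω : Cfg D) (h : ℕ) (y : V D) : V D :=
  if H : ∃ r, r ≤ h ∧ Wide ω (ray y r) h then ray y (Nat.find H) else y

theorem ray_zero (y : V D) : ray y 0 = y := by simp [ray]

theorem ray_succ (y : V D) (k : ℕ) : ray y (k + 1) = ray y k + vec ((Fin.last D, true) : Step D) := by
  rw [vec_true, ray, ray, add_assoc, ← Pi.single_add]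
  push_cast
  rfl

theorem ray_lev (hD : 1 ≤ D) (y : V D) (r : ℕ) : ray y r 0 = y 0 := by
  have h : (0 : Fin (D + 1)) ≠ Fin.last D := by
    intro e
    have := congrArg Fin.val e
    simp only [Fin.val_zero, Fin.val_last] at this
    omega
  simp [ray, Pi.single_eq_of_ne h]

theorem wide_of_big {ω : Cfg D} {v : V D} {h : ℕ} (H : Big ω v (2 * h)) : Wide ω v h := by
  obtain ⟨c, h1, h2⟩ := H
  exact ⟨c, v, h1, Conn.refl _ _, by omega⟩

theorem upTo (hU : UPStmt) (hD : 1 ≤ D) {ω : Cfg D} {v : V D} {t : ℕ} (ht : 2 ≤ t) (hb : Big ω v t)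
    (n : ℕ) (hg : ∀ t', t ≤ t' → t' ≤ t + n → Gd ω v (17 * t') t') : Big ω v (t + n) := by
  induction n with
  | zero => exact hb
  | succ n ih =>
    exact hU D hD ω v (t + n) (by omega) (hg _ (by omega) (by omega))
      (ih fun t' h1 h2 => hg t' h1 (by omega))

theorem sum_abs_vec (s : Step D) : ∑ j, |vec s j| = 1 := by
  obtain ⟨i, g⟩ := s
  have e : ∀ j, |vec ((i, g) : Step D) j| = if j = i then 1 else 0 := fun j => by
    by_cases hj : j = i
    · subst hj
      cases g <;> simp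
    · cases g <;> simp [hj]
  simp [e]

theorem ch_one {ω : Cfg D} {v : V D} (h : badS ω v) : Ch ω v 1 := by
  obtain ⟨s, hs⟩ := h
  refine ⟨⟨s, hs⟩, v + vec s, by simp, Relation.ReflTransGen.single ⟨?_, rev s, ?_⟩⟩
  · have := sum_abs_vec s
    simp only [Pi.add_apply, add_sub_cancel_left]
    omega
  · rwa [edge_rev]

theorem open_of_gd {ω : Cfg D} {z v : V D} {R : ℕ} (h : Gd ω z R 1) (hv : nrm (v - z) ≤ R)
    (s : Step D) : ω (edge v s) = true := by
  by_contra hn
  exact h v hv (ch_one ⟨s, by simpa using hn⟩)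

theorem conn_ray {ω : Cfg D} {z : V D} {R : ℕ} (h : Gd ω z R 1) (k : ℕ) (hk : k ≤ R) :
    Conn ω z (ray z k) := by
  induction k with
  | zero => rw [ray_zero]; exact Conn.refl _ _
  | succ k ih =>
    rw [ray_succ]
    exact (ih (by omega)).trans (Conn.step (open_of_gd h (by rw [nrm_ray]; omega) _))

end Rep

open Rep in
theorem repS (hE : LEStmt) (hU : UPStmt) : REPStmt := by
  intro D hD ω h hh
  refine ⟨rp ω h, fun z => ?_, fun z => ?_, fun z hz => ?_, fun z y t ht hth hy hg => ?_,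
    fun z hg => ?_⟩
  · unfold rp
    split_ifs
    · exact ray_lev hD _ _
    · rfl
  · unfold rp
    split_ifs with H
    · rw [nrm_ray]
      exact (Nat.find_spec H).1
    · simp
  · have H : ∃ r, r ≤ h ∧ Wide ω (ray z r) h := ⟨0, Nat.zero_le _, by rwa [ray_zero]⟩
    have h0 : Nat.find H = 0 :=
      Nat.le_zero.1 (Nat.find_min' H ⟨Nat.zero_le _, by rwa [ray_zero]⟩)
    rw [rp, dif_pos H, h0, ray_zero]
  · obtain ⟨r, hr, hb⟩ := hE D hD ω y t ((hg t le_rfl (by omega)).mono (by omega))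
    have hn : nrm (ray y r - z) ≤ t + 1 := by
      have := nrm_tri (ray y r) y z
      rw [nrm_ray] at this
      omega
    have hb2 := upTo hU hD ht hb (2 * h - t) fun t' h1 h2 =>
      (hg t' h1 (by omega)).mono (by omega)
    rw [show t + (2 * h - t) = 2 * h by omega] at hb2
    have hw := wide_of_big hb2
    have H : ∃ r, r ≤ h ∧ Wide ω (ray y r) h := ⟨r, by omega, hw⟩
    rw [rp, dif_pos H]
    exact ⟨(Nat.find_spec H).2, Nat.find H, (Nat.find_min' H ⟨by omega, hw⟩).trans hr, rfl⟩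
  · have h1 : Gd ω z 20 1 := hg 1 le_rfl (by omega)
    refine ⟨?_, fun s => open_of_gd h1 (by simp) s⟩
    have hb : Big ω z 2 := ⟨ray z 12, conn_ray h1 12 (by omega), by rw [nrm_ray]⟩
    have hb2 := upTo hU hD le_rfl hb (2 * h - 2) fun t' h1 h2 =>
      (hg t' (by omega) (by omega)).mono (by rw [sub_self, nrm_zero]; omega)
    rw [show 2 + (2 * h - 2) = 2 * h by omega] at hb2
    exact wide_of_big hb2

end Pool.Agent.MP_8c549f_pr.L2

end

end Part1

-- ======== part 2: GeoS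
section Part2

/-! PROJECT L2, row GeoS: nice configurations are geometrically good. -/

noncomputable section

namespace Pool.Agent.MP_8c549f_pr.L2

open MeasureTheory Finset Real Classical S3

namespace GeoS

variable {D : ℕ} {ω : Cfg D}

/-- the local energy -/
def El (lam : ℝ) (ω : Cfg D) (f : V D → ℝ) (x : V D) : ℝ :=
  ∑ s, cnd lam ω x s * (f (x + vec s) - f x) ^ 2

theorem El_nonneg (lam : ℝ) (f : V D → ℝ) (x : V D) : 0 ≤ El lam ω f x :=
  sum_nonneg fun s _ => mul_nonneg (cnd_nonneg x s) (sq_nonneg _)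

theorem gd_up {z : V D} {R t t' : ℕ} (h : Gd ω z R t) (ht : t ≤ t') : Gd ω z R t' :=
  fun v hv hc => h v hv ⟨hc.1, hc.2.imp fun _ hx => ⟨ht.trans hx.1, hx.2⟩⟩

theorem term_nonneg (A t : ℕ) (P : Prop) : 0 ≤ (A : ℝ) ^ (t + 1) * S3.ind P := by
  unfold S3.ind
  split_ifs <;> positivity

theorem one_le_wz (A h : ℕ) (z : V D) : 1 ≤ wz A h ω z :=
  le_add_of_nonneg_right (sum_nonneg fun t _ => term_nonneg A t _)

theorem le_wz {A h t : ℕ} {z : V D} (h1 : 1 ≤ t) (h2 : t < h) (hb : ¬ Gd ω z (20 * t) t) :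
    1 + (A : ℝ) ^ (t + 1) ≤ wz A h ω z := by
  have := single_le_sum (f := fun t => (A : ℝ) ^ (t + 1) * S3.ind (¬ Gd ω z (20 * t) t))
    (fun t _ => term_nonneg A t _) (mem_Ico.2 ⟨h1, h2⟩)
  simp only [S3.ind, if_pos hb, mul_one] at this
  simp only [wz, S3.ind]
  linarith

theorem exch {Q Q' : Finset (V D)} {r : ℕ} (h : ∀ z ∈ Q, ball z r ⊆ Q') {E : V D → ℝ}
    (hE : ∀ x, 0 ≤ E x) :
    ∑ z ∈ Q, ∑ x ∈ ball z r, E x ≤ (2 * r + 1 : ℝ) ^ (D + 1) * ∑ x ∈ Q', E x := by
  have e : ∀ z ∈ Q, ∑ x ∈ ball z r, E x = ∑ x ∈ Q', if x ∈ ball z r then E x else 0 := by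
    intro z hz
    rw [sum_ite_mem, inter_eq_right.2 (h z hz)]
  rw [sum_congr rfl e, sum_comm, mul_sum]
  refine sum_le_sum fun x _ => ?_
  rw [← sum_filter, sum_const, nsmul_eq_mul]
  refine mul_le_mul_of_nonneg_right ?_ (hE x)
  have h1 : (Q.filter fun z => x ∈ ball z r).card ≤ (ball x r).card :=
    card_le_card fun z hz => mem_ball.2 (by
      rw [nrm_sub_comm]
      exact mem_ball.1 (mem_filter.1 hz).2)
  rw [card_ball] at h1
  exact_mod_cast h1

/-- the charge at scale `t` -/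
def ch (D A t : ℕ) : ℝ := (10 * t + 1 : ℝ) ^ (D + 1) * exp (10 * t + 1) / (A : ℝ) ^ t

theorem ch_nonneg (D A t : ℕ) : 0 ≤ ch D A t := by
  unfold ch
  positivity

theorem ch_le (D t : ℕ) (ht : 1 ≤ t) :
    ch D (2 * (11 ^ (D + 1) * 11 ^ (D + 1) * 3 ^ 11)) t * (10 * t + 1 : ℝ) ^ (D + 1) ≤
      (1 / 2) ^ t := by
  have h1 : (10 * t + 1 : ℝ) ≤ 11 ^ t := by
    have := one_add_mul_le_pow (a := (10 : ℝ)) (by norm_num) t
    norm_num at this
    linarith
  have h2 : (10 * t + 1 : ℝ) ^ (D + 1) ≤ (11 ^ (D + 1)) ^ t := by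
    rw [← pow_mul, mul_comm (D + 1), pow_mul]
    exact pow_le_pow_left₀ (by positivity) h1 _
  have h3 : exp (10 * t + 1) ≤ (3 ^ 11) ^ t := by
    have ht' : (1 : ℝ) ≤ t := by exact_mod_cast ht
    calc exp (10 * t + 1) ≤ exp ((11 * t : ℕ) : ℝ) := exp_le_exp.2 (by push_cast; linarith)
      _ = exp 1 ^ (11 * t) := (exp_one_pow _).symm
      _ ≤ 3 ^ (11 * t) :=
        pow_le_pow_left₀ (exp_pos _).le (exp_one_lt_d9.le.trans (by norm_num)) _
      _ = _ := pow_mul _ _ _
  rw [ch, div_mul_eq_mul_div, div_le_iff₀ (by positivity)]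
  push_cast
  refine le_trans (b := ((11 : ℝ) ^ (D + 1)) ^ t * (3 ^ 11) ^ t * (11 ^ (D + 1)) ^ t)
    (by gcongr) (le_of_eq ?_)
  rw [← mul_pow, ← mul_pow, ← mul_pow]
  congr 1
  ring

theorem path (hP : PathEStmt) {lam : ℝ} (h0 : 0 ≤ lam) (h1 : lam ≤ 1) {z a b : V D} {t : ℕ}
    (ha : a ∈ ball z (5 * t)) (hab : OC ω (ball z (5 * t)) a b) (f : V D → ℝ) :
    exp (2 * lam * (z 0 : ℝ)) * (f b - f a) ^ 2 ≤
      (10 * t + 1 : ℝ) ^ (D + 1) * exp (10 * t + 1) * ∑ x ∈ ball z (5 * t), El lam ω f x := by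
  have h := hP D ω _ a b f ha hab
  rw [card_ball] at h
  refine (mul_le_mul_of_nonneg_left h (exp_pos _).le).trans ?_
  rw [mul_left_comm, mul_assoc ((10 * t + 1 : ℝ) ^ (D + 1))]
  refine mul_le_mul (le_of_eq (by push_cast; ring)) ?_
    (mul_nonneg (exp_pos _).le (sum_nonneg fun x _ => sum_nonneg fun s _ => by
      split_ifs <;> positivity)) (by positivity)
  rw [mul_sum, mul_sum]
  refine sum_le_sum fun x hx => ?_
  rw [El, mul_sum, mul_sum]
  refine sum_le_sum fun s _ => ?_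
  unfold cnd
  split_ifs
  · rw [← mul_assoc, ← exp_add]
    refine mul_le_mul_of_nonneg_right (exp_le_exp.2 ?_) (sq_nonneg _)
    have e1 := (abs_le.1 (nrm_le_iff.1 (mem_ball.1 hx) 0)).1
    have e2 := (vec_bounds s 0).1
    have e3 : ((2 * z 0 - expo x s : ℤ) : ℝ) ≤ ((10 * t + 1 : ℤ) : ℝ) := by
      refine Int.cast_le.2 ?_
      simp only [expo, Pi.sub_apply] at e1 ⊢
      push_cast at e1
      omega
    push_cast at e3
    have e4 : (0 : ℝ) ≤ 10 * t + 1 := by positivity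
    nlinarith [mul_le_mul_of_nonneg_left e3 h0, mul_le_mul_of_nonneg_right h1 e4]
  · simp

theorem nrm_rays (y : V D) (i : Fin (D + 1)) {r r' t : ℕ} (h : r ≤ t) (h' : r' ≤ t) :
    nrm (ray (y + Pi.single i 1) r' - ray y r) ≤ t + 1 := by
  have e : ray (y + Pi.single i 1) r' - ray y r =
      Pi.single (Fin.last D) ((r' : ℤ) - r) + Pi.single i 1 := by
    rw [ray, ray, Pi.single_sub]
    abel
  rw [e]
  refine (nrm_add_le _ _).trans ?_
  rw [nrm_single, nrm_single]
  omega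

end GeoS

open GeoS in
theorem geoS (hL : LUStmt) (hP : PathEStmt) (hR : REPStmt) : GEOStmt := by
  intro D hD
  refine ⟨2 * (11 ^ (D + 1) * 11 ^ (D + 1) * 3 ^ 11),
    Nat.le_mul_of_pos_right _ (by positivity), ?_⟩
  have hch := ch_le D
  have hA1 : (1 : ℝ) ≤ ((2 * (11 ^ (D + 1) * 11 ^ (D + 1) * 3 ^ 11) : ℕ) : ℝ) :=
    Nat.one_le_cast.2 (Nat.pos_of_ne_zero (by positivity))
  generalize 2 * (11 ^ (D + 1) * 11 ^ (D + 1) * 3 ^ 11) = A at hch hA1 ⊢
  intro ω R m h δ h2 hm d0 d1 hN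
  obtain ⟨rep, r1, r2, r3, r4, r5⟩ := hR D hD ω h h2
  have hG : ∀ z, nrm z ≤ R → ∀ t', h ≤ t' → t' ≤ 2 * h → Gd ω z (20 * t') t' :=
    fun z hz t' a b => gd_up (hN.1.mono (by rw [sub_zero]; omega)) a
  have hn : ∀ z, nrm z ≤ R → (∀ t, 1 ≤ t → t < h → Gd ω z (20 * t) t) →
      Wide ω z h ∧ ∀ s, ω (edge z s) = true := fun z hz H =>
    r5 z fun t' a b => if c : t' < h then H t' a c else hG z hz t' (by omega) b
  refine ⟨rep, fun z => if nrm z ≤ R then wz A h ω z else 1,
    ⟨by omega, hm, d0, d1, fun z => ?_, r1, r2, fun z hz => ?_, r3, fun z hz hw => ?_,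
      fun z i => ?_, fun lam l0 l1 Q Q' f hQ => ?_⟩⟩
  · split_ifs
    exacts [one_le_wz _ _ _, le_rfl]
  · exact (r4 z z h h2 le_rfl (by simp) (hG z hz)).1
  · refine hn z hz fun t a b => by_contra fun c => ?_
    have h3 := le_wz (A := A) a b c
    have h4 := one_le_pow₀ (n := t + 1) hA1
    simp only [if_pos hz] at hw
    linarith
  · by_cases c : nrm z ≤ R + m
    · refine le_trans (sum_le_sum fun k _ => ?_) (hN.2 z i c)
      split_ifs
      exacts [le_rfl, sub_le_sub_right (one_le_wz _ _ _) _]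
    · refine le_trans (le_of_eq (sum_eq_zero fun k hk => ?_)) (by positivity)
      have h3 := nrm_sub_le (z + Pi.single i (k : ℤ)) (Pi.single i (k : ℤ))
      rw [add_sub_cancel_right, nrm_single, Int.natAbs_natCast] at h3
      have h4 := mem_range.1 hk
      simp only [if_neg (show ¬ nrm (z + Pi.single i (k : ℤ)) ≤ R by omega), sub_self]
  · have hv : ∀ i : Fin (D + 1), vec ((i, true) : Step D) = Pi.single i 1 := fun i => if_pos rfl
    have key : ∀ z ∈ Q, ∀ i, exp (2 * lam * (z 0 : ℝ)) *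
        (f (rep (z + Pi.single i 1)) - f (rep z)) ^ 2 / (if nrm z ≤ R then wz A h ω z else 1) ≤
        cnd lam ω z (i, true) * (f (z + vec (i, true)) - f z) ^ 2 +
          ∑ t ∈ Ico 2 (h + 1), ch D A t * ∑ x ∈ ball z (5 * t), El lam ω f x := by
      intro z hz i
      have hz' := (hQ z hz).1
      have hs : ∀ t ∈ Ico 2 (h + 1), 0 ≤ ch D A t * ∑ x ∈ ball z (5 * t), El lam ω f x :=
        fun t _ => mul_nonneg (ch_nonneg _ _ _) (sum_nonneg fun x _ => El_nonneg lam f x)
      rw [if_pos hz']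
      by_cases c : ∀ t, 1 ≤ t → t < h → Gd ω z (20 * t) t
      · obtain ⟨w1, w2⟩ := hn z hz' c
        have w3 := wide_step w1 (w2 (i, true))
        rw [← hv, r3 _ w1, r3 _ w3]
        refine le_add_of_le_of_nonneg ((div_le_self (by positivity) (one_le_wz _ _ _)).trans ?_)
          (sum_nonneg hs)
        rw [cnd, if_pos (w2 _)]
        refine mul_le_mul_of_nonneg_right (exp_le_exp.2 ?_) (sq_nonneg _)
        have e1 : (0 : ℤ) ≤ vec ((i, true) : Step D) 0 := by
          rw [hv, Pi.single_apply]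
          split_ifs <;> norm_num
        have e2 : (0 : ℝ) ≤ (vec ((i, true) : Step D) 0 : ℤ) := by exact_mod_cast e1
        rw [expo]
        push_cast
        nlinarith [mul_nonneg l0 e2]
      · obtain ⟨t0, hb, hmax⟩ := exists_max_image
          ((Ico 1 h).filter fun t => ¬ Gd ω z (20 * t) t) id (by
            push Not at c
            obtain ⟨t, a, b, e⟩ := c
            exact ⟨t, mem_filter.2 ⟨mem_Ico.2 ⟨a, b⟩, e⟩⟩)
        obtain ⟨hb1, hb2⟩ := mem_filter.1 hb
        obtain ⟨a, b⟩ := mem_Ico.1 hb1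
        have hg : ∀ t', t0 + 1 ≤ t' → t' ≤ 2 * h → Gd ω z (20 * t') t' := fun t' a' b' => by
          by_cases c' : t' < h
          · by_contra e
            have := hmax t' (mem_filter.2 ⟨mem_Ico.2 ⟨by omega, c'⟩, e⟩)
            simp only [id] at this
            omega
          · exact hG z hz' t' (by omega) b'
        obtain ⟨u1, r, hr, e1⟩ := r4 z z (t0 + 1) (by omega) b (by simp) hg
        obtain ⟨u2, r', hr', e2⟩ := r4 z (z + Pi.single i 1) (t0 + 1) (by omega) b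
          (by rw [add_sub_cancel_left, nrm_single]; rfl) hg
        have bg : ∀ y, Wide ω y h → Big ω y (t0 + 1) := fun y hy =>
          hy.big.imp fun _ hx => ⟨hx.1, le_trans (by omega) hx.2⟩
        have n1 : nrm (rep z - z) ≤ t0 + 1 := by rwa [e1, nrm_ray]
        have n2 : nrm (rep (z + Pi.single i 1) - rep z) ≤ 2 * (t0 + 1) := by
          rw [e1, e2]
          exact (nrm_rays z i hr hr').trans (by omega)
        have oc := hL D hD ω _ _ (t0 + 1) (by omega) (bg _ u1) (bg _ u2) n2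
          ((hg _ le_rfl (by omega)).mono (by omega))
        have oc' : OC ω (ball z (5 * (t0 + 1))) (rep z) (rep (z + Pi.single i 1)) :=
          oc.mono fun x hx => mem_ball.2 (by
            have := nrm_tri x (rep z) z
            have := mem_ball.1 hx
            omega)
        have p1 := path hP l0 l1 (mem_ball.2 (by omega)) oc' f
        refine le_add_of_nonneg_of_le (mul_nonneg (cnd_nonneg _ _) (sq_nonneg _))
          (le_trans ?_ (single_le_sum hs (mem_Ico.2 ⟨by omega, Nat.succ_lt_succ b⟩ :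
            t0 + 1 ∈ Ico 2 (h + 1))))
        rw [ch, div_mul_eq_mul_div]
        refine div_le_div₀ (le_trans (by positivity) p1) p1 (by positivity) ?_
        linarith [le_wz (A := A) a b hb2]
    have hE : En lam ω Q' f = ∑ x ∈ Q', El lam ω f x := En_eq Q' f
    have hE0 : 0 ≤ ∑ x ∈ Q', El lam ω f x := sum_nonneg fun x _ => El_nonneg lam f x
    have s1 : ∑ z ∈ Q, ∑ i, cnd lam ω z (i, true) * (f (z + vec (i, true)) - f z) ^ 2 ≤
        ∑ x ∈ Q', El lam ω f x := by
      refine le_trans (sum_le_sum fun z _ => ?_) (sum_le_sum_of_subset_of_nonneg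
        (fun z hz => (hQ z hz).2 (self_mem_ball _ _)) fun x _ _ => El_nonneg lam f x)
      rw [El, Fintype.sum_prod_type]
      refine sum_le_sum fun i _ => ?_
      rw [Fintype.sum_bool]
      exact le_add_of_nonneg_right (mul_nonneg (cnd_nonneg _ _) (sq_nonneg _))
    have s2 : ∑ z ∈ Q, ∑ t ∈ Ico 2 (h + 1), ch D A t * ∑ x ∈ ball z (5 * t), El lam ω f x ≤
        ∑ x ∈ Q', El lam ω f x := by
      rw [sum_comm]
      calc _ ≤ ∑ t ∈ Ico 2 (h + 1), (1 / 2 : ℝ) ^ t * ∑ x ∈ Q', El lam ω f x := by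
            refine sum_le_sum fun t ht => ?_
            obtain ⟨a, b⟩ := mem_Ico.1 ht
            rw [← mul_sum]
            refine (mul_le_mul_of_nonneg_left (exch (fun z hz => (ball_mono z (by omega)).trans
              (hQ z hz).2) (El_nonneg lam f)) (ch_nonneg _ _ _)).trans ?_
            rw [← mul_assoc]
            refine mul_le_mul_of_nonneg_right (le_trans (le_of_eq ?_) (hch t (by omega))) hE0
            push_cast
            ring
        _ ≤ _ := by
            rw [← sum_mul]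
            refine mul_le_of_le_one_left hE0
              ((geom_sum_Ico_le_of_lt_one (by norm_num) (by norm_num)).trans (by norm_num))
    refine (sum_le_sum fun z hz => sum_le_sum fun i _ => key z hz i).trans ?_
    simp only [sum_add_distrib, sum_const, card_univ, Fintype.card_fin, nsmul_eq_mul, ← mul_sum]
    rw [hE]
    push_cast
    have hd : (0 : ℝ) ≤ D + 1 := by positivity
    nlinarith [mul_le_mul_of_nonneg_left s2 hd]

end Pool.Agent.MP_8c549f_pr.L2

end

end Part2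

-- ======== part 3: Cher
section Part3

/-! PROJECT L2: exponential bound for events that depend on disjoint sets of edges. -/

noncomputable section

namespace Pool.Agent.MP_8c549f_pr.L2

open MeasureTheory Finset Real Classical S3
open scoped ENNReal

namespace Cher

variable {D : ℕ}

/-- the exponential weight of one event -/
def F (E : Cfg D → Prop) (ω : Cfg D) : ℝ≥0∞ := ENNReal.ofReal (exp (S3.ind (E ω) / 2))

theorem F_dep {E : Cfg D → Prop} {S : Set (Edge D)} (h : Dep E S) : Dep (F E) S :=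
  fun ω ω' e => by simp only [F, h ω ω' e]

theorem F_le (E : Cfg D → Prop) (ω : Cfg D) :
    F E ω ≤ 1 + {ω | E ω}.indicator (fun _ => (1 : ℝ≥0∞)) ω := by
  by_cases h : E ω
  · have h1 : exp (1 / 2 : ℝ) ≤ 2 := by
      have h2 : exp (1 / 2 : ℝ) * exp (1 / 2 : ℝ) = exp 1 := by rw [← exp_add]; norm_num
      have h3 := exp_one_lt_d9
      nlinarith [exp_pos (1 / 2 : ℝ)]
    rw [Set.indicator_of_mem (show ω ∈ {ω | E ω} from h), F, S3.ind, if_pos h, one_add_one_eq_two]
    exact ENNReal.ofReal_le_of_le_toReal (by simpa using h1)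
  · rw [Set.indicator_of_notMem (show ω ∉ {ω | E ω} from h), F, S3.ind, if_neg h]
    simp

theorem int_F {p q : ℝ} (h0 : 0 ≤ p) (h1 : p ≤ 1) {E : Cfg D → Prop}
    (hm : MeasurableSet {ω | E ω}) (hq : (perc D p).real {ω | E ω} ≤ q) :
    ∫⁻ ω, F E ω ∂perc D p ≤ ENNReal.ofReal (exp q) := by
  have := perc_prob D h0 h1
  refine (lintegral_mono (F_le E)).trans ?_
  rw [lintegral_add_left measurable_const, lintegral_indicator hm]
  simp only [lintegral_const, measure_univ, mul_one, MeasurableSet.univ, Measure.restrict_apply,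
    Set.univ_inter, one_mul]
  rw [← ofReal_measureReal (measure_ne_top _ _), ← ENNReal.ofReal_one,
    ← ENNReal.ofReal_add zero_le_one measureReal_nonneg]
  exact ENNReal.ofReal_le_ofReal (by linarith [add_one_le_exp q])

theorem prod_dep (I : Finset ℕ) {E : ℕ → Cfg D → Prop} {S : ℕ → Finset (Edge D)}
    (h : ∀ k ∈ I, Dep (E k) (S k : Set (Edge D))) :
    Dep (fun ω => ∏ k ∈ I, F (E k) ω) (I.biUnion S : Set (Edge D)) := fun ω ω' e =>
  prod_congr rfl fun k hk => F_dep (h k hk) ω ω' fun x hx =>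
    e x (by simpa using ⟨k, hk, by simpa using hx⟩)

theorem int_prod {p q : ℝ} (h0 : 0 ≤ p) (h1 : p ≤ 1) (E : ℕ → Cfg D → Prop)
    (S : ℕ → Finset (Edge D)) (I : Finset ℕ) : (∀ k ∈ I, Dep (E k) (S k : Set (Edge D))) →
    (∀ k ∈ I, ∀ k' ∈ I, k ≠ k' → Disjoint (S k) (S k')) →
    (∀ k ∈ I, (perc D p).real {ω | E k ω} ≤ q) →
    ∫⁻ ω, ∏ k ∈ I, F (E k) ω ∂perc D p ≤ ENNReal.ofReal (exp (q * I.card)) := by
  have := perc_prob D h0 h1
  induction I using Finset.induction_on with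
  | empty => intro _ _ _; simp
  | insert a I ha ih =>
    intro hD hS hq
    have hD' : ∀ k ∈ I, Dep (E k) (S k : Set (Edge D)) := fun k hk => hD k (mem_insert_of_mem hk)
    have hA := hD a (mem_insert_self a I)
    have hd : Disjoint (S a : Set (Edge D)) (I.biUnion S : Set (Edge D)) := by
      rw [disjoint_coe, disjoint_biUnion_right]
      exact fun k hk => hS a (mem_insert_self a I) k (mem_insert_of_mem hk) fun e => ha (e ▸ hk)
    simp only [prod_insert ha]
    rw [Pool.Agent.MP_8c549f_pr.ind D p h0 h1 _ _ _ _ ((F_dep hA).measurable (finite_toSet _))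
      ((prod_dep I hD').measurable (finite_toSet _)) (F_dep hA) (prod_dep I hD') hd,
      card_insert_of_notMem ha, Nat.cast_add_one, mul_add_one, add_comm, exp_add,
      ENNReal.ofReal_mul (exp_pos _).le]
    exact mul_le_mul' (int_F h0 h1 (hA.measurableSet (finite_toSet _)) (hq a (mem_insert_self a I)))
      (ih hD' (fun k hk k' hk' => hS k (mem_insert_of_mem hk) k' (mem_insert_of_mem hk'))
        fun k hk => hq k (mem_insert_of_mem hk))

end Cher

open Cher in
theorem cher : CHERStmt := by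
  intro D p h0 h1 I E S q a hD hS hq
  have hI := int_prod h0 h1 E S I hD hS hq
  have hm := (prod_dep I hD).measurable (finite_toSet _)
  have hM := mul_meas_ge_le_lintegral (μ := perc D p) hm (ENNReal.ofReal (exp (a / 2)))
  have hsub : {ω | a ≤ ∑ k ∈ I, S3.ind (E k ω)} ⊆
      {ω | ENNReal.ofReal (exp (a / 2)) ≤ ∏ k ∈ I, F (E k) ω} := by
    intro ω hω
    have h2 : a ≤ ∑ k ∈ I, S3.ind (E k ω) := hω
    show ENNReal.ofReal (exp (a / 2)) ≤ ∏ k ∈ I, F (E k) ω
    simp only [F]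
    rw [← ENNReal.ofReal_prod_of_nonneg fun k _ => (exp_pos _).le, ← exp_sum, ← sum_div]
    exact ENNReal.ofReal_le_ofReal (exp_le_exp.2 (by linarith))
  have h3 : ENNReal.ofReal (exp (a / 2)) * perc D p {ω | a ≤ ∑ k ∈ I, S3.ind (E k ω)} ≤
      ENNReal.ofReal (exp (q * I.card)) :=
    (mul_le_mul' le_rfl (measure_mono hsub)).trans (hM.trans hI)
  have h4 := ENNReal.toReal_mono ENNReal.ofReal_ne_top h3
  rw [ENNReal.toReal_mul, ENNReal.toReal_ofReal (exp_pos _).le,
    ENNReal.toReal_ofReal (exp_pos _).le] at h4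
  rw [exp_sub, le_div_iff₀ (exp_pos _), mul_comm]
  exact h4

end Pool.Agent.MP_8c549f_pr.L2

end

end Part3

-- ======== part 4: Seg1
section Part4

/-! PROJECT L2, row Seg1: few sites of a segment see a long chain. -/

noncomputable section

namespace Pool.Agent.MP_8c549f_pr.L2

open MeasureTheory Finset Real Classical S3

namespace Seg1

variable {D : ℕ}

theorem gd_local {ω ω' : Cfg D} {y : V D} {R h : ℕ}
    (H : ∀ e ∈ (near (ball y (R + h + 1)) : Set (Edge D)), ω e = ω' e) (hg : Gd ω' y R h) :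
    Gd ω y R h := fun v hv hc => hg v hv (Ch_local (fun x hx s => H _ (mem_coe.2 (mem_near.2
      ⟨x, mem_ball.2 (by have := nrm_tri x v y; omega), s, rfl⟩))) hc)

theorem dep_gd (y : V D) (R h : ℕ) :
    Dep (fun ω : Cfg D => ¬ Gd ω y R h) (near (ball y (R + h + 1)) : Set (Edge D)) :=
  fun _ _ H => propext (not_congr ⟨gd_local fun e he => (H e he).symm, gd_local H⟩)

theorem nrm_of_near {y : V D} {R : ℕ} {e : Edge D} (h : e ∈ near (ball y R)) :
    nrm (e.1 - y) ≤ R + 1 := by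
  rcases mem_near'.1 h with h | h
  · exact (mem_ball.1 h).trans (Nat.le_succ _)
  · have h1 := mem_ball.1 h
    have h2 := nrm_tri e.1 (e.1 + Pi.single e.2 1) y
    have h3 : nrm (e.1 - (e.1 + Pi.single e.2 1)) = 1 := by
      rw [nrm_sub_comm, add_sub_cancel_left, nrm_single]; rfl
    omega

theorem disj {y y' : V D} {R : ℕ} (h : 2 * R + 2 < nrm (y - y')) :
    Disjoint (near (ball y R)) (near (ball y' R)) := by
  refine disjoint_left.2 fun e h1 h2 => ?_
  have a1 := nrm_of_near h1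
  have a2 := nrm_of_near h2
  have a3 := nrm_tri y e.1 y'
  rw [nrm_sub_comm y e.1] at a3
  omega

theorem prob_le {p q : ℝ} (h0 : 0 ≤ p) (h1 : p ≤ 1) {h : ℕ}
    (H : ∀ v : V D, (perc D p).real {ω | Ch ω v h} ≤ q) (y : V D) (R : ℕ) :
    (perc D p).real {ω | ¬ Gd ω y R h} ≤ (2 * R + 1) ^ (D + 1) * q := by
  have e : {ω : Cfg D | ¬ Gd ω y R h} = {ω | ∃ v ∈ ball y R, Ch ω v h} := by
    ext ω
    simp [Gd, mem_ball]
  have := real_exists_le h0 h1 (ball y R) (fun v ω => Ch ω v h) fun v _ => H v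
  rw [card_ball] at this
  rw [e]
  exact_mod_cast this

theorem far {M k k' : ℕ} (h : k % M = k' % M) (hne : k ≠ k') : M ≤ ((k : ℤ) - k').natAbs := by
  have hd : (M : ℤ) ∣ (k : ℤ) - k' := (Nat.modEq_iff_dvd.1 (Eq.symm h : k' ≡ k [MOD M]))
  have := Int.natAbs_le_of_dvd_ne_zero hd (by omega)
  simpa using this

theorem pigeon {M m : ℕ} (hM : 0 < M) (f : ℕ → ℝ) {a : ℝ} (h : a ≤ ∑ k ∈ range m, f k) :
    ∃ j ∈ range M, a / M ≤ ∑ k ∈ (range m).filter (fun k => k % M = j), f k := by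
  have hM' : (0 : ℝ) < M := by exact_mod_cast hM
  refine exists_le_of_sum_le (nonempty_range_iff.2 hM.ne') ?_
  rw [sum_fiberwise_of_maps_to fun k _ => mem_range.2 (Nat.mod_lt k hM), sum_const, card_range,
    nsmul_eq_mul, mul_div_cancel₀ _ hM'.ne']
  exact h

theorem cls (hC : CHERStmt) {p q : ℝ} (h0 : 0 ≤ p) (h1 : p ≤ 1) (y : ℕ → V D) (R t : ℕ)
    (H : ∀ v : V D, (perc D p).real {ω | Ch ω v t} ≤ q) (I : Finset ℕ)
    (hI : ∀ k ∈ I, ∀ k' ∈ I, k ≠ k' → 2 * (R + t + 1) + 2 < nrm (y k - y k')) (a : ℝ) :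
    (perc D p).real {ω | a ≤ ∑ k ∈ I, S3.ind (¬ Gd ω (y k) R t)} ≤
      exp ((2 * R + 1) ^ (D + 1) * q * I.card - a / 2) :=
  hC D p h0 h1 I (fun k ω => ¬ Gd ω (y k) R t) (fun k => near (ball (y k) (R + t + 1))) _ a
    (fun k _ => dep_gd (y k) R t) (fun k hk k' hk' hne => disj (hI k hk k' hk' hne))
    fun k _ => prob_le h0 h1 H (y k) R

theorem gen (hC : CHERStmt) {p q : ℝ} (h0 : 0 ≤ p) (h1 : p ≤ 1) (hq : 0 ≤ q) (y : ℕ → V D)
    (R t M m : ℕ) (hM : 0 < M) (H : ∀ v : V D, (perc D p).real {ω | Ch ω v t} ≤ q)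
    (hy : ∀ k k', k % M = k' % M → k ≠ k' → 2 * (R + t + 1) + 2 < nrm (y k - y k')) (a : ℝ) :
    (perc D p).real {ω | a ≤ ∑ k ∈ range m, S3.ind (¬ Gd ω (y k) R t)} ≤
      M * exp ((2 * R + 1) ^ (D + 1) * q * m - a / M / 2) := by
  have := perc_prob D h0 h1
  have key := real_exists_le h0 h1 (range M)
    (fun j ω => a / M ≤ ∑ k ∈ (range m).filter (fun k => k % M = j), S3.ind (¬ Gd ω (y k) R t))
    (c := exp ((2 * R + 1) ^ (D + 1) * q * m - a / M / 2)) fun j _ => by
      refine (cls hC h0 h1 y R t H ((range m).filter fun k => k % M = j) (fun k hk k' hk' =>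
        hy k k' ((mem_filter.1 hk).2.trans (mem_filter.1 hk').2.symm)) (a / M)).trans
        (exp_le_exp.2 ?_)
      have h2 : (((range m).filter fun k => k % M = j).card : ℝ) ≤ m := by
        exact_mod_cast (card_filter_le _ _).trans_eq (card_range m)
      exact sub_le_sub_right (mul_le_mul_of_nonneg_left h2 (by positivity)) _
  rw [card_range] at key
  exact (measureReal_mono (fun ω hω => pigeon hM _ hω) (measure_ne_top _ _)).trans key

end Seg1

theorem seg1 (hC : CHERStmt) : SEG1Stmt := by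
  intro D p h0 h1 z i m t q a ht hq H
  have ht' : (0 : ℝ) < t := by exact_mod_cast ht
  have key := Seg1.gen hC h0 h1 hq (fun k => z + Pi.single i (k : ℤ)) (20 * t) t (50 * t) m
    (by omega) H (fun k k' h hne => by
      have h2 := Seg1.far h hne
      rw [add_sub_add_left_eq_sub, ← Pi.single_sub, nrm_single]
      omega) a
  have h3 : a / (50 * t : ℕ) / 2 = a / (100 * t) := by
    push_cast
    field_simp
    ring
  have h4 : (2 * (20 * t : ℕ) + 1 : ℝ) = 40 * t + 1 := by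
    push_cast
    ring
  rw [h3, h4] at key
  refine key.trans_eq ?_
  push_cast
  rfl

end Pool.Agent.MP_8c549f_pr.L2

end

end Part4

-- ======== part 5: Nicep
section Part5

/-! PROJECT L2: nice configurations have high probability. -/

noncomputable section

namespace Pool.Agent.MP_8c549f_pr.L2

open MeasureTheory Finset Real Classical S3

namespace Nicep

theorem mm_le (l : ℕ) : mm l ^ 8 ≤ l := by
  have h1 := Nat.sqrt_le' l
  have h2 := Nat.sqrt_le' l.sqrt
  have h3 := Nat.sqrt_le' l.sqrt.sqrt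
  calc mm l ^ 8 = ((mm l ^ 2) ^ 2) ^ 2 := by ring
    _ ≤ (l.sqrt.sqrt ^ 2) ^ 2 := Nat.pow_le_pow_left (Nat.pow_le_pow_left h3 2) 2
    _ ≤ l.sqrt ^ 2 := Nat.pow_le_pow_left h2 2
    _ ≤ l := h1

theorem lt_mm (l : ℕ) : l < (mm l + 1) ^ 8 := by
  have h1 : l + 1 ≤ (l.sqrt + 1) ^ 2 := Nat.lt_succ_sqrt' l
  have h2 : l.sqrt + 1 ≤ (l.sqrt.sqrt + 1) ^ 2 := Nat.lt_succ_sqrt' l.sqrt
  have h3 : l.sqrt.sqrt + 1 ≤ (mm l + 1) ^ 2 := Nat.lt_succ_sqrt' l.sqrt.sqrt
  calc l < (l.sqrt + 1) ^ 2 := h1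
    _ ≤ ((l.sqrt.sqrt + 1) ^ 2) ^ 2 := Nat.pow_le_pow_left h2 2
    _ ≤ (((mm l + 1) ^ 2) ^ 2) ^ 2 := Nat.pow_le_pow_left (Nat.pow_le_pow_left h3 2) 2
    _ = (mm l + 1) ^ 8 := by ring

theorem le_mm {M l : ℕ} (h : M ^ 8 ≤ l) : M ≤ mm l := by
  have := lt_of_pow_lt_pow_left₀ 8 (Nat.zero_le _) (lt_of_le_of_lt h (lt_mm l))
  omega

theorem geom (h : ℕ) : ∑ t ∈ range h, (1 / 2 : ℝ) ^ (t + 1) = 1 - (1 / 2) ^ h := by
  induction h with
  | zero => simp
  | succ n ih => rw [sum_range_succ, ih]; ring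

/-- the deterministic part -/
theorem seg_le {D A m h : ℕ} {δ : ℝ} (hA : 2 ≤ A) (hδ : 0 < δ) (ω : Cfg D) (z : V D)
    (i : Fin (D + 1))
    (H : ∀ t ∈ Ico 1 h, ∑ k ∈ range m, S3.ind (¬ Gd ω (z + Pi.single i (k : ℤ)) (20 * t) t) ≤
      δ * m / (2 * A : ℝ) ^ (t + 1)) :
    ∑ k ∈ range m, (wz A h ω (z + Pi.single i (k : ℤ)) - 1) ≤ δ * m := by
  have hA0 : (0 : ℝ) < A := by exact_mod_cast (by omega : 0 < A)
  have e : ∀ k : ℕ, wz A h ω (z + Pi.single i (k : ℤ)) - 1 =
      ∑ t ∈ Ico 1 h, (A : ℝ) ^ (t + 1) * S3.ind (¬ Gd ω (z + Pi.single i (k : ℤ)) (20 * t) t) := fun k => by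
    unfold wz; ring
  have hm : 0 ≤ δ * m := by positivity
  simp only [e]
  rw [sum_comm]
  calc _ ≤ ∑ t ∈ Ico 1 h, δ * m * (1 / 2 : ℝ) ^ (t + 1) := by
        refine sum_le_sum fun t ht => ?_
        rw [← mul_sum]
        refine (mul_le_mul_of_nonneg_left (H t ht) (by positivity)).trans (le_of_eq ?_)
        rw [mul_pow, one_div, inv_pow]
        field_simp
    _ ≤ ∑ t ∈ range h, δ * m * (1 / 2 : ℝ) ^ (t + 1) := by
        refine sum_le_sum_of_subset_of_nonneg (fun t ht => ?_) fun t _ _ => by positivity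
        exact mem_range.2 (mem_Ico.1 ht).2
    _ ≤ δ * m := by
        rw [← mul_sum, geom]
        have : (0 : ℝ) ≤ (1 / 2) ^ h := by positivity
        nlinarith

theorem exp_le {γ G : ℝ} (hG : 0 < G) (h : G ≤ γ) (n : ℕ) : exp (-(γ * n)) ≤ 1 / G ^ n := by
  have h1 : G ≤ exp γ := by have := add_one_le_exp γ; linarith
  rw [exp_neg, mul_comm, exp_nat_mul, one_div]
  exact inv_anti₀ (by positivity) (pow_le_pow_left₀ hG.le h1 n)

theorem lin_le (c t : ℕ) : c * t + 1 ≤ (c + 1) ^ (t + 1) := by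
  have h := one_add_mul_le_pow (a := (c : ℤ)) (by omega) t
  have h2 : c * t + 1 ≤ (c + 1) ^ t := by
    zify; rw [add_comm (c : ℤ) 1]; linarith
  exact h2.trans (Nat.pow_le_pow_right (by omega) (by omega))

/-- the first term of the exponent is at most half of the second -/
theorem half {d t : ℕ} {B δ γ m : ℝ} (hB : 0 < B) (hδ : 0 < δ) (hm : 0 ≤ m) (ht : 1 ≤ t)
    (hγ : 41 ^ d * 201 * B * (1 + 1 / δ) ≤ γ) :
    (40 * t + 1 : ℝ) ^ d * exp (-(γ * (t + 1))) * m - δ * m / B ^ (t + 1) / (100 * t) ≤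
      -(δ * m / (200 * (B ^ (t + 1) * t))) := by
  have ht0 : (0 : ℝ) < t := by exact_mod_cast ht
  have h1 : (40 * t + 1 : ℝ) ≤ 41 ^ (t + 1) := by exact_mod_cast lin_le 40 t
  have h2 : (200 * t + 1 : ℝ) ≤ 201 ^ (t + 1) := by exact_mod_cast lin_le 200 t
  have h3 : 1 / δ ≤ (1 + 1 / δ) ^ (t + 1) := by
    have : 0 < 1 / δ := by positivity
    exact le_trans (by linarith) (le_self_pow₀ (by linarith) (by omega))
  have h4 := exp_le (by positivity) hγ (t + 1)
  push_cast at h4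
  have h5 : (40 * t + 1 : ℝ) ^ d ≤ (41 ^ d) ^ (t + 1) := by
    rw [← pow_mul, mul_comm d, pow_mul]
    exact pow_le_pow_left₀ (by positivity) h1 d
  have h6 : (40 * t + 1 : ℝ) ^ d * (200 * (B ^ (t + 1) * t)) * (1 / δ) ≤
      (41 ^ d * 201 * B * (1 + 1 / δ)) ^ (t + 1) := by
    rw [mul_pow, mul_pow, mul_pow]
    refine mul_le_mul ?_ h3 (by positivity) (by positivity)
    rw [show (40 * t + 1 : ℝ) ^ d * (200 * (B ^ (t + 1) * t)) =
      (40 * t + 1 : ℝ) ^ d * (200 * t) * B ^ (t + 1) by ring]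
    exact mul_le_mul_of_nonneg_right
      (mul_le_mul h5 (by linarith) (by positivity) (by positivity)) (by positivity)
  have h7 : (40 * t + 1 : ℝ) ^ d * exp (-(γ * (t + 1))) ≤ δ / (200 * (B ^ (t + 1) * t)) := by
    refine (mul_le_mul_of_nonneg_left h4 (by positivity)).trans ?_
    rw [mul_one_div, div_le_div_iff₀ (by positivity) (by positivity)]
    have := mul_le_mul_of_nonneg_left h6 hδ.le
    refine le_trans (le_of_eq ?_) this
    field_simp
  have h8 := mul_le_mul_of_nonneg_right h7 hm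
  have e1 : δ * m / B ^ (t + 1) / (100 * t) = 2 * (δ / (200 * (B ^ (t + 1) * t)) * m) := by
    field_simp; ring
  have e2 : δ * m / (200 * (B ^ (t + 1) * t)) = δ / (200 * (B ^ (t + 1) * t)) * m := by ring
  rw [e1, e2]; linarith

/-- stretched exponential against a power -/
theorem tail {k : ℕ} {δ m w : ℝ} (hδ : 0 < δ) (hm : 0 < m) (hw : 0 < w) (h : w ^ 2 ≤ m) :
    exp (-(δ * m / (200 * w))) ≤ ((2 * k).factorial * (40000 / δ ^ 2) ^ k) / m ^ k := by
  have hu : 0 < δ * m / (200 * w) := by positivity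
  have h1 := Real.pow_div_factorial_le_exp _ hu.le (2 * k)
  have h2 : m / (40000 / δ ^ 2) ≤ (δ * m / (200 * w)) ^ 2 := by
    rw [div_pow, div_le_div_iff₀ (by positivity) (by positivity)]
    have : (δ * m) ^ 2 * (40000 / δ ^ 2) = m * (40000 * m) := by field_simp
    rw [this]
    exact mul_le_mul_of_nonneg_left (by nlinarith) hm.le
  have h3 := pow_le_pow_left₀ (by positivity) h2 k
  rw [← pow_mul, div_pow] at h3
  have hf : (0 : ℝ) < (2 * k).factorial := by exact_mod_cast Nat.factorial_pos _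
  rw [exp_neg, ← inv_div ((m : ℝ) ^ k)]
  refine inv_anti₀ (by positivity) (le_trans ?_ h1)
  rw [mul_comm, ← div_div]
  exact div_le_div_of_nonneg_right h3 hf.le

theorem count {m l K c : ℕ} (hm : 83 ≤ m) (hl : l ≤ m ^ 16) (hc : c ≤ 40 * m) :
    2 * (l ^ K + c) + 1 ≤ m ^ (16 * K + 2) := by
  have h1 : l ^ K ≤ m ^ (16 * K) := by rw [pow_mul]; exact Nat.pow_le_pow_left hl K
  have h2 : m ^ (16 * K) ≤ m ^ (16 * K + 1) := Nat.pow_le_pow_right (by omega) (by omega)
  have h3 : m ≤ m ^ (16 * K + 1) := Nat.le_self_pow (by omega) m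
  have h4 : 83 * m ^ (16 * K + 1) ≤ m * m ^ (16 * K + 1) := Nat.mul_le_mul_right _ hm
  have h5 : m ^ (16 * K + 2) = m * m ^ (16 * K + 1) := by ring
  omega

theorem sub {D A : ℕ} {δ : ℝ} (hA : 2 ≤ A) (hδ : 0 < δ) (m h R : ℕ) :
    {ω : Cfg D | ¬ Nice A m h δ R ω} ⊆ {ω | ∃ v ∈ ball (0 : V D) (R + 40 * h), Ch ω v h} ∪
      {ω | ∃ z ∈ ball (0 : V D) (R + m), ∃ i ∈ (univ : Finset (Fin (D + 1))),
        ∃ t ∈ Ico 1 h, δ * m / (2 * A : ℝ) ^ (t + 1) ≤
          ∑ j ∈ range m, S3.ind (¬ Gd ω (z + Pi.single i (j : ℤ)) (20 * t) t)} := by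
  intro ω hω
  rw [Set.mem_union, Set.mem_ofPred_eq, Set.mem_ofPred_eq]
  rw [Set.mem_ofPred_eq] at hω
  by_contra hn
  obtain ⟨n1, n2⟩ := not_or.1 hn
  apply hω
  constructor
  · intro v hv hc
    exact n1 ⟨v, mem_ball.2 hv, hc⟩
  · intro z i hz
    have hz' : z ∈ ball (0 : V D) (R + m) := mem_ball.2 (by rw [sub_zero]; exact hz)
    have H : ∀ t ∈ Ico 1 h, ∑ k ∈ range m, S3.ind (¬ Gd ω (z + Pi.single i (k : ℤ)) (20 * t) t) ≤
        δ * m / (2 * A : ℝ) ^ (t + 1) := by
      intro t ht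
      by_contra hlt
      exact n2 ⟨z, hz', i, mem_univ _, t, ht, (not_le.1 hlt).le⟩
    exact seg_le hA hδ ω z i H

end Nicep

open Nicep in
theorem nicep (hP : PeiStmt) (hS : SEG1Stmt) : NICEPStmt := by
  intro D A K δ hA2 hδ
  obtain ⟨E, hE⟩ : ∃ E, E = (16 * K + 2) * (D + 1) := ⟨_, rfl⟩
  obtain ⟨k, hk⟩ : ∃ k, k = E + 16 * K + 3 := ⟨_, rfl⟩
  obtain ⟨C, hC⟩ : ∃ C : ℝ, C = (2 * k).factorial * (40000 / δ ^ 2) ^ k := ⟨_, rfl⟩
  have hC0 : 0 ≤ C := by rw [hC]; positivity
  have hA0 : (0 : ℝ) < 2 * A := by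
    have : (0 : ℝ) < A := by exact_mod_cast (by omega : 0 < A)
    linarith
  obtain ⟨γ, hγ1, hγ2⟩ : ∃ γ : ℝ, 41 ^ (D + 1) * 201 * (2 * A : ℝ) * (1 + 1 / δ) ≤ γ ∧
      (2 * A : ℝ) ^ (4 * k) ≤ γ := ⟨max _ _, le_max_left _ _, le_max_right _ _⟩
  obtain ⟨e₀, he₀, hp⟩ := hP D γ
  obtain ⟨M, hM⟩ := exists_nat_ge (100 * (D + 1) * C)
  refine ⟨e₀, (83 + (2 * A) ^ 8 + M) ^ 8, he₀, fun p l hp1 hp2 hp0 hl => ?_⟩
  have hm := le_mm hl
  have hlt := lt_mm l
  have hle := mm_le l
  have hh : hA A l = Nat.log (2 * A) (mm l) / 4 := rfl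
  generalize hA A l = h at hh ⊢
  generalize mm l = m at hm hlt hle hh ⊢
  have hm83 : 83 ≤ m := by omega
  have hB1 : 1 < 2 * A := by omega
  have hL8 : 8 ≤ Nat.log (2 * A) m := Nat.le_log_of_pow_le hB1 (by omega)
  have hx4 : ((2 * A) ^ h) ^ 4 ≤ m := by
    rw [← pow_mul]
    exact (Nat.pow_le_pow_right (by omega) (by omega)).trans
      (Nat.pow_log_le_self (2 * A) (by omega : m ≠ 0))
  have hx5 : m ≤ ((2 * A) ^ 4) ^ (h + 1) := by
    rw [← pow_mul]
    exact (Nat.lt_pow_succ_log_self hB1 m).le.trans (Nat.pow_le_pow_right (by omega) (by omega))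
  have hhx : h ≤ (2 * A) ^ h := (Nat.lt_pow_self hB1).le
  have hhm : h ≤ m := hhx.trans ((Nat.le_self_pow (by omega) _).trans hx4)
  have hl16 : l ≤ m ^ 16 := by
    have : m + 1 ≤ m ^ 2 := by nlinarith
    calc l ≤ (m + 1) ^ 8 := hlt.le
      _ ≤ (m ^ 2) ^ 8 := Nat.pow_le_pow_left this 8
      _ = m ^ 16 := by ring
  refine ⟨by omega, hhm, hle, ?_⟩
  have := perc_prob D hp0 hp2
  have hmR : (83 : ℝ) ≤ m := by exact_mod_cast hm83
  have hm0 : (0 : ℝ) < m := by linarith
  have hl0 : (0 : ℝ) < l := by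
    have : 0 < l := lt_of_lt_of_le (pow_pos (by omega) 8) hle
    exact_mod_cast this
  have hcard : ∀ c : ℕ, c ≤ 40 * m → ((ball (0 : V D) (l ^ K + c)).card : ℝ) ≤ (m : ℝ) ^ E := by
    intro c hc
    rw [card_ball, hE, pow_mul]
    exact_mod_cast Nat.pow_le_pow_left (count hm83 hl16 hc) (D + 1)
  -- the sites
  have b1 : (perc D p).real {ω | ∃ v ∈ ball (0 : V D) (l ^ K + 40 * h), Ch ω v h} ≤
      (m : ℝ) ^ E * (1 / (m : ℝ) ^ k) := by
    have hq : ∀ v ∈ ball (0 : V D) (l ^ K + 40 * h),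
        (perc D p).real {ω | Ch ω v h} ≤ 1 / (m : ℝ) ^ k := by
      intro v _
      have h1 := exp_le (by positivity) hγ2 (h + 1)
      push_cast at h1
      refine ((hp p hp1 hp2 hp0 v h).trans h1).trans ?_
      refine one_div_le_one_div_of_le (by positivity) ?_
      have h2 : (m : ℝ) ≤ ((2 * A) ^ 4) ^ (h + 1) := by exact_mod_cast hx5
      calc (m : ℝ) ^ k ≤ (((2 * A) ^ 4) ^ (h + 1)) ^ k := pow_le_pow_left₀ hm0.le h2 k
        _ = _ := by rw [← pow_mul, ← pow_mul, ← pow_mul]; congr 1; ring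
    exact (real_exists_le hp0 hp2 _ _ hq).trans
      (mul_le_mul_of_nonneg_right (hcard _ (by omega)) (by positivity))
  -- the segments
  have b2 : (perc D p).real {ω | ∃ z ∈ ball (0 : V D) (l ^ K + m), ∃ i ∈ (univ : Finset (Fin (D + 1))),
      ∃ t ∈ Ico 1 h, δ * m / (2 * A : ℝ) ^ (t + 1) ≤
        ∑ j ∈ range m, S3.ind (¬ Gd ω (z + Pi.single i (j : ℤ)) (20 * t) t)} ≤
      (m : ℝ) ^ E * ((D + 1) * (m * (50 * m * (C / (m : ℝ) ^ k)))) := by
    refine (real_exists_le hp0 hp2 _ _ (c := (D + 1) * (m * (50 * m * (C / (m : ℝ) ^ k))))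
      fun z _ => ?_).trans (mul_le_mul_of_nonneg_right (hcard _ (by omega)) (by positivity))
    refine (real_exists_le hp0 hp2 _ _ (c := m * (50 * m * (C / (m : ℝ) ^ k)))
      fun i _ => ?_).trans (le_of_eq (by simp))
    have hc : ((Ico 1 h).card : ℝ) ≤ m := by
      rw [Nat.card_Ico]; exact_mod_cast (by omega : h - 1 ≤ m)
    refine (real_exists_le hp0 hp2 _ _ (c := 50 * m * (C / (m : ℝ) ^ k))
      fun t ht => ?_).trans (mul_le_mul_of_nonneg_right hc (by positivity))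
    obtain ⟨t1, t2⟩ := mem_Ico.1 ht
    have ht0 : (0 : ℝ) < t := by exact_mod_cast t1
    refine (hS D p hp0 hp2 z i m t _ _ t1 (exp_pos _).le fun v => hp p hp1 hp2 hp0 v t).trans ?_
    have htm : (t : ℝ) ≤ m := by exact_mod_cast (by omega : t ≤ m)
    refine mul_le_mul (by linarith) ?_ (exp_pos _).le (by positivity)
    refine (exp_le_exp.2 (half hA0 hδ hm0.le t1 hγ1)).trans ?_
    rw [hC]
    refine tail hδ hm0 (by positivity) ?_
    have h1 : (2 * A) ^ (t + 1) ≤ (2 * A) ^ h := Nat.pow_le_pow_right (by omega) (by omega)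
    have h2 : ((2 * A) ^ (t + 1) * t) ^ 2 ≤ m := by
      refine le_trans ?_ hx4
      calc _ ≤ ((2 * A) ^ h * (2 * A) ^ h) ^ 2 :=
            Nat.pow_le_pow_left (Nat.mul_le_mul h1 (by omega)) 2
        _ = _ := by ring
    exact_mod_cast h2
  refine le_trans (measureReal_mono (sub hA2 hδ m h (l ^ K)) (measure_ne_top _ _))
    ((measureReal_union_le _ _).trans ((add_le_add b1 b2).trans ?_))
  · have hlK : (l : ℝ) ^ K ≤ (m : ℝ) ^ (16 * K) := by
      rw [pow_mul]
      exact pow_le_pow_left₀ hl0.le (by exact_mod_cast hl16) K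
    refine le_trans ?_ (one_div_le_one_div_of_le (by positivity) hlK)
    have hMm : (M : ℝ) ≤ m := by exact_mod_cast (by omega : M ≤ m)
    have e : (m : ℝ) ^ E * (1 / (m : ℝ) ^ k) +
        (m : ℝ) ^ E * ((D + 1) * (m * (50 * m * (C / (m : ℝ) ^ k)))) =
        (1 + 50 * (D + 1) * C * m ^ 2) / m ^ 3 * (1 / (m : ℝ) ^ (16 * K)) := by
      rw [hk]; field_simp; ring
    rw [e]
    refine mul_le_of_le_one_left (by positivity) ((div_le_one (by positivity)).2 ?_)
    have h1 : 100 * (D + 1) * C * (m : ℝ) ^ 2 ≤ m * m ^ 2 :=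
      mul_le_mul_of_nonneg_right (hM.trans hMm) (by positivity)
    have h2 : (2 : ℝ) ≤ m ^ 3 := le_trans (by linarith) (le_self_pow₀ (by linarith) (by omega))
    nlinarith

end Pool.Agent.MP_8c549f_pr.L2

end

end Part5

-- ======== part 6: Nicef
section Part6

/-! PROJECT L2, row Nicef: formal properties of the good events. -/

noncomputable section

namespace Pool.Agent.MP_8c549f_pr.L2

open MeasureTheory Finset Real Classical S3

namespace Nicef

variable {D : ℕ}

theorem bad_shift {ω : Cfg D} {y v : V D} : badS (shift y ω) v ↔ badS ω (v + y) := by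
  simp only [badS, shift_edge]

theorem ch_shift {ω : Cfg D} {y v : V D} {t : ℕ} (h : Ch (shift y ω) v t) : Ch ω (v + y) t := by
  obtain ⟨h0, c, h1, h2⟩ := h
  refine ⟨bad_shift.1 h0, c + y, by simpa using h1, ?_⟩
  clear h1
  induction h2 with
  | refl => exact .refl
  | tail _ hbc ih => exact ih.tail ⟨by simpa using hbc.1, bad_shift.1 hbc.2⟩

theorem gd_shift {ω : Cfg D} {y z : V D} {R t : ℕ} (h : Gd ω (z + y) R t) :
    Gd (shift y ω) z R t := fun v hv hc => h (v + y) (by simpa using hv) (ch_shift hc)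

theorem gd_shift_iff {ω : Cfg D} {y z : V D} {R t : ℕ} :
    Gd (shift y ω) z R t ↔ Gd ω (z + y) R t := by
  refine ⟨fun h => ?_, gd_shift⟩
  have e : ω = shift (-y) (shift y ω) := by rw [shift_shift]; simp
  rw [e]
  exact gd_shift (by simpa using h)

theorem wz_shift (A h : ℕ) (ω : Cfg D) (y z : V D) :
    wz A h (shift y ω) z = wz A h ω (z + y) := by
  simp only [wz, gd_shift_iff]

theorem bad_anti {ω ω' : Cfg D} (H : ∀ e, ω e = true → ω' e = true) {v : V D} (h : badS ω' v) :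
    badS ω v := by
  obtain ⟨s, hs⟩ := h
  refine ⟨s, ?_⟩
  cases e : ω (edge v s) with
  | false => rfl
  | true => rw [H _ e] at hs; exact absurd hs (by simp)

theorem ch_anti {ω ω' : Cfg D} (H : ∀ e, ω e = true → ω' e = true) {v : V D} {t : ℕ}
    (h : Ch ω' v t) : Ch ω v t := by
  obtain ⟨h0, c, h1, h2⟩ := h
  exact ⟨bad_anti H h0, c, h1, rtg_mono (fun _ _ k => ⟨k.1, bad_anti H k.2⟩) h2⟩

theorem gd_up {ω ω' : Cfg D} (H : ∀ e, ω e = true → ω' e = true) {z : V D} {R t : ℕ}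
    (h : Gd ω z R t) : Gd ω' z R t := fun v hv hc => h v hv (ch_anti H hc)

theorem wz_anti {ω ω' : Cfg D} (H : ∀ e, ω e = true → ω' e = true) (A h : ℕ) (z : V D) :
    wz A h ω' z ≤ wz A h ω z := by
  unfold wz
  refine add_le_add le_rfl (sum_le_sum fun t _ => mul_le_mul_of_nonneg_left ?_ (by positivity))
  exact ind_mono fun k k' => k (gd_up H k')

theorem meas_ch (v : V D) (t : ℕ) : MeasurableSet {ω : Cfg D | Ch ω v t} := by
  refine Dep.measurableSet (S := (near (ball v (t + 1)) : Set (Edge D))) (fun ω ω' h => ?_)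
    (Finset.finite_toSet _)
  have k : ∀ x, nrm (x - v) ≤ t + 1 → ∀ s, ω (edge x s) = ω' (edge x s) := fun x hx s =>
    h _ (Finset.mem_coe.2 (mem_near.2 ⟨x, mem_ball.2 hx, s, rfl⟩))
  exact propext ⟨Ch_local k, Ch_local fun x hx s => (k x hx s).symm⟩

theorem meas_gd (z : V D) (R t : ℕ) : MeasurableSet {ω : Cfg D | Gd ω z R t} := by
  have e : {ω : Cfg D | Gd ω z R t} =
      ⋂ v : V D, ⋂ _ : nrm (v - z) ≤ R, {ω : Cfg D | Ch ω v t}ᶜ := by
    ext ω; simp [Gd]
  rw [e]
  exact MeasurableSet.iInter fun v => MeasurableSet.iInter fun _ => (meas_ch v t).compl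

theorem meas_wz (A h : ℕ) (z : V D) : Measurable fun ω : Cfg D => wz A h ω z := by
  unfold wz
  refine measurable_const.add (Finset.measurable_sum _ fun t _ => measurable_const.mul ?_)
  unfold S3.ind
  exact Measurable.ite (meas_gd z (20 * t) t).compl measurable_const measurable_const

theorem meas_nice (A m h : ℕ) (δ : ℝ) (R : ℕ) :
    MeasurableSet {ω : Cfg D | Nice A m h δ R ω} := by
  have e : {ω : Cfg D | Nice A m h δ R ω} = {ω : Cfg D | Gd ω 0 (R + 40 * h) h} ∩
      ⋂ z : V D, ⋂ i : Fin (D + 1), ⋂ _ : nrm z ≤ R + m, {ω : Cfg D |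
        ∑ k ∈ range m, (wz A h ω (z + Pi.single i (k : ℤ)) - 1) ≤ δ * m} := by
    ext ω; simp only [Nice, Set.mem_ofPred_eq, Set.mem_inter_iff, Set.mem_iInter]
  rw [e]
  refine (meas_gd _ _ _).inter (MeasurableSet.iInter fun z => MeasurableSet.iInter fun i =>
    MeasurableSet.iInter fun _ => measurableSet_le ?_ measurable_const)
  exact Finset.measurable_sum _ fun k _ => (meas_wz A h _).sub measurable_const

theorem meas_wide (h : ℕ) : MeasurableSet {ω : Cfg D | Wide ω 0 h} := by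
  have e : {ω : Cfg D | Wide ω 0 h} = ⋃ a : V D, ⋃ b : V D, ⋃ _ : 12 * h ≤ nrm (a - b),
      {ω : Cfg D | Conn ω 0 a} ∩ {ω : Cfg D | Conn ω 0 b} := by
    ext ω
    simp only [Wide, Set.mem_ofPred_eq, Set.mem_iUnion, Set.mem_inter_iff]
    exact ⟨fun ⟨a, b, h1, h2, h3⟩ => ⟨a, b, h3, h1, h2⟩, fun ⟨a, b, h3, h1, h2⟩ => ⟨a, b, h1, h2, h3⟩⟩
  rw [e]
  exact MeasurableSet.iUnion fun a => MeasurableSet.iUnion fun b => MeasurableSet.iUnion fun _ =>
    (measurableSet_conn 0 a).inter (measurableSet_conn 0 b)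

theorem wide_line {ω : Cfg D}
    (H : ∀ k : ℕ, ω (edge (Pi.single 0 (-(k : ℤ))) (bck D)) = true) (h : ℕ) : Wide ω 0 h := by
  have k : ∀ n : ℕ, Conn ω 0 (Pi.single 0 (-(n : ℤ))) := by
    intro n
    induction n with
    | zero => simpa using Conn.refl ω 0
    | succ n ih =>
      have e : (Pi.single 0 (-((n + 1 : ℕ) : ℤ)) : V D) =
          Pi.single 0 (-(n : ℤ)) + vec (bck D) := by
        rw [vec_bck, ← Pi.single_neg, ← Pi.single_add]; congr 1; push_cast; ring
      rw [e]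
      exact ih.trans (Conn.step (H n))
  refine ⟨_, 0, k (12 * h), Conn.refl ω 0, ?_⟩
  rw [sub_zero, nrm_single, Int.natAbs_neg, Int.natAbs_natCast]

theorem lev_edge (k : ℕ) :
    (edge (Pi.single 0 (-(k : ℤ)) : V D) (bck D)).1 0 = -(k : ℤ) - 1 := by
  simp [bck]

end Nicef

theorem nicef : NICEFStmt := by
  intro D A m h δ
  refine ⟨Nicef.meas_nice A m h δ, Nicef.meas_wide h, ?_, ?_, ?_, ?_⟩
  · rintro R R' y ω hR ⟨h1, h2⟩
    refine ⟨Nicef.gd_shift (h1.mono (by simp only [zero_add, sub_zero]; omega)), fun z i hz => ?_⟩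
    have := h2 (z + y) i (by have := nrm_add_le z y; omega)
    simpa only [Nicef.wz_shift, add_right_comm _ _ y] using this
  · rintro R ω ω' H ⟨h1, h2⟩
    refine ⟨Nicef.gd_up H h1, fun z i hz => le_trans (sum_le_sum fun k _ => ?_) (h2 z i hz)⟩
    exact sub_le_sub_right (Nicef.wz_anti H A h _) 1
  · rintro y ω ⟨a, b, h1, h2, h3⟩
    exact ⟨a - y, b - y, conn_shift.2 (by simpa using h1), conn_shift.2 (by simpa using h2),
      by simpa using h3⟩
  · intro ω
    refine ⟨Nicef.wide_line (fun k => ?_) h, Nicef.wide_line (fun k => ?_) h⟩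
    · have e : edge (Pi.single 0 (-(k : ℤ)) : V D) (bck D) ∈ Past D := by
        have := Nicef.lev_edge (D := D) k
        simp only [Past, Set.mem_ofPred_eq]
        omega
      simp only [ovw, if_pos e, allOpen]
    · unfold op
      split_ifs with c
      · rfl
      · have := Nicef.lev_edge (D := D) k
        have e : k = 0 := by
          by_contra hk
          exact c (Or.inl (by omega))
        subst e
        simpa using plus_bck ω

end Pool.Agent.MP_8c549f_pr.L2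

end

end Part6

-- ======== part 7: Cnt
section Part7

noncomputable section

namespace Pool.Agent.MP_8c549f_pr.L2

open MeasureTheory Finset Real Classical S3

namespace Cnt

variable {D : ℕ}

theorem blocks {m : ℕ} {δ : ℝ} {w : V D → ℝ} (hS : Seg w m δ) (z : V D) (i : Fin (D + 1))
    (q : ℕ) : ∑ k ∈ range (q * m), (w (z + Pi.single i (k : ℤ)) - 1) ≤ q * (δ * m) := by
  induction q with
  | zero => simp
  | succ q ih =>
    rw [Nat.succ_mul, sum_range_add]
    have h := hS (z + Pi.single i ((q * m : ℕ) : ℤ)) i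
    have e : ∀ k : ℕ, z + Pi.single i ((q * m + k : ℕ) : ℤ) =
        z + Pi.single i ((q * m : ℕ) : ℤ) + Pi.single i (k : ℤ) := by
      intro k
      rw [Nat.cast_add, Pi.single_add, add_assoc]
    simp only [e]
    push_cast at h ih ⊢
    linarith

theorem line {m : ℕ} {δ : ℝ} {w : V D → ℝ} (hm : 1 ≤ m) (hδ : 0 ≤ δ) (hw : ∀ z, 1 ≤ w z)
    (hS : Seg w m δ) (z : V D) (i : Fin (D + 1)) (r : ℕ) (hr : m ≤ r) :
    ∑ k ∈ range r, (w (z + Pi.single i (k : ℤ)) - 1) ≤ 2 * δ * r := by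
  have h1 : r ≤ (r / m + 1) * m := by
    rw [mul_comm]
    exact (Nat.lt_mul_div_succ r hm).le
  have h2 : (r / m + 1) * m ≤ 2 * r := by
    have := Nat.div_mul_le_self r m
    rw [Nat.succ_mul]
    omega
  have h3 : (((r / m + 1 : ℕ) : ℝ)) * m ≤ 2 * r := by exact_mod_cast h2
  calc _ ≤ ∑ k ∈ range ((r / m + 1) * m), (w (z + Pi.single i (k : ℤ)) - 1) :=
        sum_le_sum_of_subset_of_nonneg (range_mono h1) fun k _ _ => sub_nonneg.2 (hw _)
    _ ≤ ((r / m + 1 : ℕ) : ℝ) * (δ * m) := blocks hS z i _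
    _ ≤ 2 * δ * r := by nlinarith [mul_le_mul_of_nonneg_left h3 hδ]

theorem sum_box (a : V D) (r : Fin (D + 1) → ℕ) (f : V D → ℝ) :
    ∑ z ∈ box a r, f z =
      ∑ t ∈ Fintype.piFinset (fun j : Fin D => Ico (a j.succ) (a j.succ + r j.succ)),
        ∑ k ∈ range (r 0), f ((Fin.cons (a 0) t : V D) + Pi.single 0 (k : ℤ)) := by
  rw [← sum_product']
  have key : ∀ z ∈ box a r,
      (Fin.cons (a 0) (Fin.tail z) : V D) + Pi.single 0 (((z 0 - a 0).toNat : ℕ) : ℤ) = z := by
    intro z hz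
    have h0 := mem_Ico.1 (Fintype.mem_piFinset.1 hz 0)
    funext j
    refine Fin.cases ?_ (fun j => ?_) j
    · simp only [Pi.add_apply, Fin.cons_zero, Pi.single_eq_same]
      omega
    · simp [Fin.tail]
  refine sum_nbij' (fun z => (Fin.tail z, (z 0 - a 0).toNat))
    (fun p => (Fin.cons (a 0) p.1 : V D) + Pi.single 0 (p.2 : ℤ)) ?_ ?_ key ?_ ?_
  · intro z hz
    have h := Fintype.mem_piFinset.1 hz
    have h0 := mem_Ico.1 (h 0)
    refine mem_product.2 ⟨Fintype.mem_piFinset.2 fun j => h j.succ, mem_range.2 ?_⟩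
    show (z 0 - a 0).toNat < r 0
    omega
  · rintro ⟨t, k⟩ hp
    obtain ⟨h1, h2⟩ := mem_product.1 hp
    have h3 : k < r 0 := mem_range.1 h2
    refine Fintype.mem_piFinset.2 fun j => ?_
    refine Fin.cases ?_ (fun j => ?_) j
    · simp only [Pi.add_apply, Fin.cons_zero, Pi.single_eq_same, mem_Ico]
      omega
    · simpa using Fintype.mem_piFinset.1 h1 j
  · rintro ⟨t, k⟩ _
    refine Prod.ext ?_ ?_
    · funext j
      simp [Fin.tail]
    · simp
  · intro z hz
    rw [key z hz]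

end Cnt

theorem cnt : CNTStmt := by
  intro D m δ w hm hδ hw hS
  refine ⟨Cnt.line hm hδ hw hS, fun a r hr => ?_⟩
  have h1 := Cnt.sum_box a r fun _ => 1
  rw [sum_const, nsmul_eq_mul, mul_one] at h1
  rw [h1, Cnt.sum_box a r fun z => w z - 1, mul_sum]
  refine sum_le_sum fun t _ => ?_
  rw [sum_const, card_range, nsmul_eq_mul, mul_one]
  exact Cnt.line hm hδ hw hS _ 0 _ hr

end Pool.Agent.MP_8c549f_pr.L2

end

end Part7

-- ======== part 8: Pl
section Part8

/-! PROJECT L2: the weighted Poincare inequality on a box. -/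

noncomputable section

namespace Pool.Agent.MP_8c549f_pr.L2

open MeasureTheory Finset Real Classical S3

namespace Pl

variable {D : ℕ}

theorem mem_box {a : V D} {r : Fin (D + 1) → ℕ} {x : V D} :
    x ∈ box a r ↔ ∀ j, a j ≤ x j ∧ x j < a j + r j := by
  simp [box, Fintype.mem_piFinset]

/-- the first `n` coordinates from `y`, the others from `z` -/
def mix (z y : V D) (n : ℕ) : V D := fun j => if (j : ℕ) < n then y j else z j

theorem mix_zero (z y : V D) : mix z y 0 = z := by funext j; simp [mix]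

theorem mix_last (z y : V D) : mix z y (D + 1) = y := by funext j; simp [mix, j.2]

theorem mix_succ (z y : V D) (i : Fin (D + 1)) :
    mix z y (i + 1) = Function.update (mix z y i) i (y i) := by
  funext j
  by_cases h : j = i
  · subst h; simp [mix]
  · have h' : (j : ℕ) ≠ i := fun e => h (Fin.ext e)
    rw [Function.update_of_ne h]
    simp only [mix]
    by_cases h1 : (j : ℕ) < i
    · rw [if_pos h1, if_pos (by omega)]
    · rw [if_neg h1, if_neg (by omega)]

theorem mix_mem {a : V D} {r : Fin (D + 1) → ℕ} {z y : V D} (hz : z ∈ box a r) (hy : y ∈ box a r)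
    (n : ℕ) : mix z y n ∈ box a r := by
  rw [mem_box] at *
  intro j
  simp only [mix]
  split_ifs
  exacts [hy j, hz j]

theorem mix_mix (z y : V D) (n : ℕ) : mix (mix z y n) (mix y z n) n = z := by
  funext j
  simp only [mix]
  split_ifs <;> rfl

theorem sum_mix (a : V D) (r : Fin (D + 1) → ℕ) (n : ℕ) (Φ : V D → ℝ) :
    ∑ z ∈ box a r, ∑ y ∈ box a r, Φ (mix z y n) = (box a r).card * ∑ u ∈ box a r, Φ u := by
  have h1 : ∑ p ∈ box a r ×ˢ box a r, Φ (mix p.1 p.2 n) = ∑ p ∈ box a r ×ˢ box a r, Φ p.1 := by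
    refine sum_nbij' (fun p => (mix p.1 p.2 n, mix p.2 p.1 n))
      (fun p => (mix p.1 p.2 n, mix p.2 p.1 n)) ?_ ?_ ?_ ?_ ?_
    · intro p hp
      rw [mem_product] at hp ⊢
      exact ⟨mix_mem hp.1 hp.2 n, mix_mem hp.2 hp.1 n⟩
    · intro p hp
      rw [mem_product] at hp ⊢
      exact ⟨mix_mem hp.1 hp.2 n, mix_mem hp.2 hp.1 n⟩
    · intro p _; simp only [mix_mix]
    · intro p _; simp only [mix_mix]
    · intro p _; rfl
  rw [sum_product, sum_product] at h1
  rw [h1, mul_sum]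
  exact sum_congr rfl fun u _ => by simp

theorem sum_line (a : V D) (r : Fin (D + 1) → ℕ) (i : Fin (D + 1)) (ψ : V D → ℝ) :
    ∑ u ∈ box a r, ∑ k ∈ range (r i), ψ (Function.update u i (a i + k)) =
      r i * ∑ u ∈ box a r, ψ u := by
  have hm : ∀ p ∈ box a r ×ˢ range (r i),
      (Function.update p.1 i (a i + p.2), (p.1 i - a i).toNat) ∈ box a r ×ˢ range (r i) := by
    intro p hp
    rw [mem_product, mem_box, mem_range] at hp ⊢
    refine ⟨fun j => ?_, ?_⟩
    · by_cases h : j = i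
      · subst h
        have := hp.2
        simp only [Function.update_self]
        omega
      · simp only [Function.update_of_ne h]; exact hp.1 j
    · have := hp.1 i
      simp only
      omega
  have hi : ∀ p ∈ box a r ×ˢ range (r i),
      (Function.update (Function.update p.1 i (a i + p.2)) i (a i + ((p.1 i - a i).toNat : ℕ)),
        (Function.update p.1 i (a i + p.2) i - a i).toNat) = p := by
    intro p hp
    rw [mem_product, mem_box] at hp
    have := hp.1 i
    refine Prod.ext ?_ ?_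
    · simp only [Function.update_idem]
      rw [show a i + ((p.1 i - a i).toNat : ℕ) = p.1 i by omega, Function.update_eq_self]
    · simp
  have h1 : ∑ p ∈ box a r ×ˢ range (r i), ψ (Function.update p.1 i (a i + p.2)) =
      ∑ p ∈ box a r ×ˢ range (r i), ψ p.1 :=
    sum_nbij' (fun p => (Function.update p.1 i (a i + p.2), (p.1 i - a i).toNat))
      (fun p => (Function.update p.1 i (a i + p.2), (p.1 i - a i).toNat)) hm hm hi hi
      fun p _ => rfl
  rw [sum_product, sum_product] at h1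
  rw [h1, mul_sum]
  exact sum_congr rfl fun u _ => by simp

theorem tele (φ : ℕ → ℝ) {s t n : ℕ} (hs : s ≤ n) (ht : t ≤ n) :
    |φ t - φ s| ≤ ∑ k ∈ range n, |φ (k + 1) - φ k| := by
  have key : ∀ s t : ℕ, s ≤ t → t ≤ n → |φ t - φ s| ≤ ∑ k ∈ range n, |φ (k + 1) - φ k| := by
    intro s t hst ht
    rw [← sum_Ico_sub φ hst]
    refine (abs_sum_le_sum_abs _ _).trans (sum_le_sum_of_subset_of_nonneg ?_ fun _ _ _ => abs_nonneg _)
    intro k hk
    rw [mem_Ico] at hk
    exact mem_range.2 (by omega)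
  rcases le_total s t with h | h
  · exact key s t h ht
  · rw [abs_sub_comm]; exact key t s h hs

theorem line (φ w : ℕ → ℝ) {s t n : ℕ} (hs : s < n) (ht : t < n) (hw : ∀ k, 0 < w k) {c : ℝ}
    (hc : ∑ k ∈ range n, w k ≤ c) :
    (φ t - φ s) ^ 2 ≤ c * ∑ k ∈ range n, (φ (k + 1) - φ k) ^ 2 / w k := by
  have h1 := tele φ hs.le ht.le
  have h2 := sq_sum_div_le_sum_sq_div (range n) (fun k => |φ (k + 1) - φ k|) fun k _ => hw k
  have h3 : 0 < ∑ k ∈ range n, w k := sum_pos (fun k _ => hw k) ⟨s, mem_range.2 hs⟩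
  simp only [sq_abs] at h2
  rw [div_le_iff₀ h3] at h2
  have h4 : 0 ≤ ∑ k ∈ range n, (φ (k + 1) - φ k) ^ 2 / w k :=
    sum_nonneg fun k _ => div_nonneg (sq_nonneg _) (hw k).le
  calc (φ t - φ s) ^ 2 = |φ t - φ s| ^ 2 := (sq_abs _).symm
    _ ≤ (∑ k ∈ range n, |φ (k + 1) - φ k|) ^ 2 := pow_le_pow_left₀ (abs_nonneg _) h1 2
    _ ≤ _ := h2.trans (by rw [mul_comm]; exact mul_le_mul_of_nonneg_right hc h4)

theorem upd_add (u : V D) (i : Fin (D + 1)) (s k : ℤ) :
    Function.update u i s + Pi.single i k = Function.update u i (s + k) := by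
  funext j
  by_cases h : j = i
  · subst h; simp
  · simp [Function.update_of_ne h, Pi.single_eq_of_ne h]

end Pl

open Pl in
theorem pl (hC : CNTStmt) : PLStmt := by
  intro D m ρ δ w g a r hm h0 h1 hw hS hr
  have hw0 : ∀ z, 0 < w z := fun z => lt_of_lt_of_le one_pos (hw z)
  set G : Fin (D + 1) → V D → ℝ := fun i x => (g (x + Pi.single i 1) - g x) ^ 2 / w x with hG
  have hG0 : ∀ i x, 0 ≤ G i x := fun i x => div_nonneg (sq_nonneg _) (hw0 x).le
  have hρ : ∀ i, (r i : ℝ) ≤ ρ := fun i => by exact_mod_cast (hr i).2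
  have hl : ∀ (i : Fin (D + 1)), ∀ u ∈ box a r, ∀ y ∈ box a r,
      (g (Function.update u i (y i)) - g u) ^ 2 ≤
        3 * ρ * ∑ k ∈ range (r i), G i (Function.update u i (a i + k)) := by
    intro i u hu y hy
    have hu' := mem_box.1 hu i
    have hy' := mem_box.1 hy i
    have hc := (hC D m δ w hm h0 hw hS).1 (Function.update u i (a i)) i (r i) (hr i).1
    simp only [upd_add, sum_sub_distrib, sum_const, card_range, nsmul_eq_mul, mul_one] at hc
    have hc' : ∑ k ∈ range (r i), w (Function.update u i (a i + k)) ≤ 3 * ρ := by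
      have : (0 : ℝ) ≤ r i := Nat.cast_nonneg _
      nlinarith [hρ i]
    have := line (fun k : ℕ => g (Function.update u i (a i + k)))
      (fun k : ℕ => w (Function.update u i (a i + k))) (s := (u i - a i).toNat)
      (t := (y i - a i).toNat) (n := r i) (by omega) (by omega) (fun k => hw0 _) hc'
    rw [show a i + ((u i - a i).toNat : ℕ) = u i by omega,
      show a i + ((y i - a i).toNat : ℕ) = y i by omega, Function.update_eq_self] at this
    refine this.trans (le_of_eq ?_)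
    congr 1
    refine sum_congr rfl fun k _ => ?_
    simp only [hG, upd_add, Nat.cast_add, Nat.cast_one, add_assoc]
  have hp : ∀ z ∈ box a r, ∀ y ∈ box a r, (g z - g y) ^ 2 ≤ (D + 1) * (3 * ρ) *
      ∑ i : Fin (D + 1), ∑ k ∈ range (r i), G i (Function.update (mix z y i) i (a i + k)) := by
    intro z hz y hy
    have e1 := sum_range_sub (fun n => g (mix z y n)) (D + 1)
    rw [mix_zero, mix_last, sum_range] at e1
    have e2 := sq_sum_le_card_mul_sum_sq (s := (univ : Finset (Fin (D + 1))))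
      (f := fun i => g (mix z y (i + 1)) - g (mix z y i))
    rw [e1, card_univ, Fintype.card_fin] at e2
    rw [show (g z - g y) ^ 2 = (g y - g z) ^ 2 by ring, mul_assoc, mul_sum]
    refine e2.trans ?_
    push_cast
    refine mul_le_mul_of_nonneg_left (sum_le_sum fun i _ => ?_) (by positivity)
    rw [mix_succ]
    exact hl i _ (mix_mem hz hy i) y hy
  refine (sum_le_sum fun z hz => sum_le_sum fun y hy => hp z hz y hy).trans ?_
  simp only [← mul_sum]
  have e3 : ∑ z ∈ box a r, ∑ y ∈ box a r, ∑ i : Fin (D + 1), ∑ k ∈ range (r i),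
      G i (Function.update (mix z y i) i (a i + k)) =
      ∑ i : Fin (D + 1), (box a r).card * (r i * ∑ x ∈ box a r, G i x) := by
    rw [sum_congr rfl fun z _ => sum_comm, sum_comm]
    refine sum_congr rfl fun i _ => ?_
    rw [sum_mix a r i fun u => ∑ k ∈ range (r i), G i (Function.update u i (a i + k)),
      sum_line a r i (G i)]
  rw [e3]
  have e4 : ∑ i : Fin (D + 1), (box a r).card * (r i * ∑ x ∈ box a r, G i x) ≤
      (box a r).card * (ρ * ∑ x ∈ box a r, ∑ i, G i x) := by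
    rw [sum_comm, mul_sum, mul_sum]
    exact sum_le_sum fun i _ => mul_le_mul_of_nonneg_left
      (mul_le_mul_of_nonneg_right (hρ i) (sum_nonneg fun x _ => hG0 i x)) (Nat.cast_nonneg _)
  have e5 : 0 ≤ ∑ x ∈ box a r, ∑ i, G i x := sum_nonneg fun x _ => sum_nonneg fun i _ => hG0 i x
  refine (mul_le_mul_of_nonneg_left e4 (by positivity)).trans ?_
  change _ ≤ _ * ∑ x ∈ box a r, ∑ i, G i x
  have e6 : 0 ≤ ((D : ℝ) + 1) * (ρ : ℝ) ^ 2 * (box a r).card * ∑ x ∈ box a r, ∑ i, G i x := by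
    positivity
  nlinarith

end Pool.Agent.MP_8c549f_pr.L2

end

end Part8

-- ======== part 9: Th
section Part9

/-! PROJECT L2, row Th: sums of the localising weight. -/

noncomputable section

namespace Pool.Agent.MP_8c549f_pr.L2

open MeasureTheory Finset Real Classical S3

namespace Th

variable {D : ℕ}

theorem ball_eq (x : V D) (R : ℕ) :
    ball x R = box (fun j => x j - R) fun _ => 2 * R + 1 := by
  ext z
  simp only [ball, box, Fintype.mem_piFinset, mem_Icc, mem_Ico]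
  refine forall_congr' fun j => ?_
  push_cast
  omega

theorem ser (d : ℕ) : ∃ S : ℝ, 0 ≤ S ∧ ∀ J : ℕ,
    ∑ j ∈ range J, exp (-(j : ℝ)) * ((j : ℝ) + 1) ^ d ≤ S := by
  have h1 := (summable_nat_add_iff 1).2 (Real.summable_pow_mul_exp_neg_nat_mul d one_pos)
  have h2 : Summable fun j : ℕ => exp (-(j : ℝ)) * ((j : ℝ) + 1) ^ d := by
    refine (h1.mul_left (exp 1)).congr fun j => ?_
    push_cast
    rw [mul_left_comm, ← exp_add, mul_comm]
    congr 2
    ring
  have h3 : ∀ j : ℕ, 0 ≤ exp (-(j : ℝ)) * ((j : ℝ) + 1) ^ d := fun j => by positivity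
  exact ⟨_, tsum_nonneg h3, fun J => h2.sum_le_tsum _ fun j _ => h3 j⟩

theorem main (hC : CNTStmt) {S : ℝ}
    (hS : ∀ J : ℕ, ∑ j ∈ range J, exp (-(j : ℝ)) * ((j : ℝ) + 1) ^ (D + 1) ≤ S)
    (ξ : ℝ) (x : V D) (T : Finset (V D)) (h0 : 0 < ξ) (h1 : ξ ≤ 1) (m : ℕ) (δ : ℝ)
    (w : V D → ℝ) (hm : 1 ≤ m) (hδ : 0 ≤ δ) (hξ : ξ * m ≤ 1) (hw : ∀ z, 1 ≤ w z)
    (hs : Seg w m δ) :
    ∑ z ∈ T, et ξ x z * (w z - 1) ≤ 2 * 6 ^ (D + 1) * S * δ / ξ ^ (D + 1) := by
  obtain ⟨M, hM1, hM2⟩ : ∃ M : ℕ, 1 / ξ ≤ M ∧ (M : ℝ) ≤ 2 / ξ := by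
    refine ⟨⌈1 / ξ⌉₊, Nat.le_ceil _, ?_⟩
    have a1 : (⌈1 / ξ⌉₊ : ℝ) < 1 / ξ + 1 := Nat.ceil_lt_add_one (by positivity)
    have a2 : 1 ≤ 1 / ξ := by rw [le_div_iff₀ h0]; linarith
    have a3 : 2 / ξ = 1 / ξ + 1 / ξ := by ring
    linarith
  have hM3 : 1 ≤ ξ * M := by rw [div_le_iff₀ h0] at hM1; linarith
  have hmM : m ≤ M := by
    have : (m : ℝ) ≤ M := le_trans (by rw [le_div_iff₀ h0]; linarith) hM1
    exact_mod_cast this
  have hM0 : 0 < M := by omega
  set J := T.sup (fun z => nrm (z - x)) + 1 with hJ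
  have hmap : ∀ z ∈ T, nrm (z - x) / M ∈ range J := fun z hz => by
    have := le_sup (f := fun z => nrm (z - x)) hz
    have h2 := Nat.div_le_self (nrm (z - x)) M
    rw [mem_range]; omega
  rw [← sum_fiberwise_of_maps_to hmap]
  have key : ∀ j ∈ range J, ∑ z ∈ T with nrm (z - x) / M = j, et ξ x z * (w z - 1) ≤
      (2 * 6 ^ (D + 1) * δ / ξ ^ (D + 1)) * (exp (-(j : ℝ)) * ((j : ℝ) + 1) ^ (D + 1)) := by
    intro j _
    have b1 : ∑ z ∈ T with nrm (z - x) / M = j, et ξ x z * (w z - 1) ≤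
        ∑ z ∈ T with nrm (z - x) / M = j, exp (-(j : ℝ)) * (w z - 1) := by
      refine sum_le_sum fun z hz => mul_le_mul_of_nonneg_right ?_ (by linarith [hw z])
      have c1 : j * M ≤ nrm (z - x) := by
        rw [← (mem_filter.1 hz).2]; exact Nat.div_mul_le_self _ _
      have c2 : (j : ℝ) * M ≤ nrm (z - x) := by exact_mod_cast c1
      have c3 : (0 : ℝ) ≤ j := Nat.cast_nonneg j
      refine exp_le_exp.2 (neg_le_neg ?_)
      nlinarith [mul_le_mul_of_nonneg_left c2 h0.le, mul_le_mul_of_nonneg_left hM3 c3]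
    have b2 : ∑ z ∈ T with nrm (z - x) / M = j, (w z - 1) ≤
        ∑ z ∈ ball x ((j + 1) * M), (w z - 1) := by
      refine sum_le_sum_of_subset_of_nonneg (fun z hz => mem_ball.2 ?_) fun z _ _ => by
        linarith [hw z]
      rw [← (mem_filter.1 hz).2]
      have := Nat.lt_div_mul_add (a := nrm (z - x)) hM0
      rw [add_mul, one_mul]; omega
    have b3 : ∑ z ∈ ball x ((j + 1) * M), (w z - 1) ≤
        2 * δ * ((2 * ((j + 1) * M) + 1 : ℕ) : ℝ) ^ (D + 1) := by
      have := (hC D m δ w hm hδ hw hs).2 (fun i => x i - ((j + 1) * M : ℕ))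
        (fun _ => 2 * ((j + 1) * M) + 1) (by
          have : M ≤ (j + 1) * M := Nat.le_mul_of_pos_left _ (Nat.succ_pos j)
          show m ≤ 2 * ((j + 1) * M) + 1
          omega)
      rw [← ball_eq, card_ball] at this
      exact_mod_cast this
    have b4 : ((2 * ((j + 1) * M) + 1 : ℕ) : ℝ) ≤ 6 / ξ * ((j : ℝ) + 1) := by
      have c3 : (0 : ℝ) ≤ j := Nat.cast_nonneg j
      have c4 : (1 : ℝ) ≤ M := by exact_mod_cast hM0
      have c5 : 6 / ξ = 3 * (2 / ξ) := by ring
      push_cast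
      rw [c5]
      nlinarith [mul_le_mul_of_nonneg_left hM2 (show (0 : ℝ) ≤ j + 1 by linarith),
        mul_le_mul_of_nonneg_left c4 c3]
    have b5 := pow_le_pow_left₀ (Nat.cast_nonneg _) b4 (D + 1)
    rw [← mul_sum] at b1
    refine b1.trans ?_
    have b6 : ∑ z ∈ T with nrm (z - x) / M = j, (w z - 1) ≤
        2 * δ * (6 / ξ * ((j : ℝ) + 1)) ^ (D + 1) :=
      b2.trans (b3.trans (mul_le_mul_of_nonneg_left b5 (by positivity)))
    refine (mul_le_mul_of_nonneg_left b6 (exp_pos _).le).trans (le_of_eq ?_)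
    rw [mul_pow, div_pow]
    ring
  refine (sum_le_sum key).trans ?_
  rw [← mul_sum]
  refine (mul_le_mul_of_nonneg_left (hS J) (by positivity)).trans (le_of_eq ?_)
  ring

end Th

theorem th (hC : CNTStmt) : THStmt := by
  intro D
  obtain ⟨S, hS0, hS⟩ := Th.ser (D + 1)
  have hp : 0 ≤ 2 * 6 ^ (D + 1) * S := by positivity
  refine ⟨1 + 2 * 6 ^ (D + 1) * S, by linarith, fun ξ x T h0 h1 => ⟨?_, ?_⟩⟩
  · have := Th.main hC hS ξ x T h0 h1 1 1 (fun _ => 2) le_rfl zero_le_one (by simpa using h1)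
      (fun _ => by norm_num) (fun z i => by norm_num)
    have e : ∀ z, et ξ x z * ((2 : ℝ) - 1) = et ξ x z := fun z => by ring
    simp only [e, mul_one] at this
    refine this.trans ?_
    gcongr
    linarith
  · intro m δ w hm hδ hξ hw hs
    refine (Th.main hC hS ξ x T h0 h1 m δ w hm hδ hξ hw hs).trans ?_
    gcongr
    linarith

end Pool.Agent.MP_8c549f_pr.L2

end

end Part9
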