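import Mathlib.Analysis.Complex.ExponentialBounds
import Pool.Agent.MP_8c549f_pr.L3.Spec

-- ======== part 0: Ex
section Part0

/-! PROJECT L2, row Ex: the probability of an early exit from a ball. -/

noncomputable section

namespace Pool.Agent.MP_8c549f_pr.L2

open MeasureTheory Finset Real Classical S3

namespace Ex

variable {D : ℕ} {lam : ℝ} {ω : Cfg D}

theorem nonneg (x : V D) (r n : ℕ) (y : V D) : 0 ≤ exq lam ω x r n y :=
  Gs_nonneg (chi_nonneg _) _ _

theorem le_one (x : V D) (r n : ℕ) (y : V D) : exq lam ω x r n y ≤ 1 :=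
  Gs_chi_le_one disjoint_compl_right _ _

theorem early (x : V D) {r n : ℕ} (h : n ≤ r) : exq lam ω x r n x ≤ 0 := by
  rw [exq, Gs]
  refine sum_nonpos fun k hk => ?_
  have hk' := mem_range.1 hk
  refine (Pk_mono_loc (f' := fun _ => 0) k (fun i y => nrm (y - x) ≤ i) x (by simp)
    (fun i _ y s hy _ _ => (nrm_step y x s).trans (by omega)) fun y hy => ?_).trans
    (Pk_le le_rfl (fun _ => le_rfl) k x)
  have hb : y ∈ (ball x r : Set (V D)) := mem_coe.2 (mem_ball.2 (by omega))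
  have hc : y ∉ (ball x r : Set (V D))ᶜ := fun c => c hb
  exact (chi_of_not hc).le

theorem sub (x : V D) (r n : ℕ) {y : V D} (hy : y ∈ ball x r) :
    exq lam ω x r n y ≤ Pf lam ω (exq lam ω x r n) y := by
  have hy' : y ∈ (ball x r : Set (V D)) := mem_coe.2 hy
  have hc : y ∉ (ball x r : Set (V D))ᶜ := fun c => c hy'
  rw [exq, Gs_succ_mem hy', chi_of_not hc, zero_add]
  exact Pf_mono (fun z => Gs_time (chi_nonneg _) (Nat.le_succ n) z) y

theorem split (x : V D) {r r' : ℕ} (h : r' ≤ r) (n n' : ℕ) :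
    exq lam ω x r n x ≤ exq lam ω x r' n' x +
      Pk lam ω (ball x r') n' ((ball x r' : Set (V D)).indicator (exq lam ω x r n)) x := by
  have e := dyn (lam := lam) (ω := ω) (ball x r' : Set (V D)) (exq lam ω x r n) n' x
  have a : Gs lam ω (ball x r') n' ((ball x r' : Set (V D)).indicator
      fun y => exq lam ω x r n y - Pf lam ω (exq lam ω x r n) y) x ≤ 0 := by
    refine sum_nonpos fun k _ => Pk_le le_rfl (fun y => ?_) k x
    by_cases c : y ∈ (ball x r' : Set (V D))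
    · rw [Set.indicator_of_mem c]
      exact sub_nonpos.2 (sub x r n (ball_mono x h (mem_coe.1 c)))
    · rw [Set.indicator_of_notMem c]
  have b : Gs lam ω (ball x r') (n' + 1) ((ball x r' : Set (V D))ᶜ.indicator (exq lam ω x r n)) x ≤
      exq lam ω x r' n' x := by
    refine Gs_mono (fun y => ?_) _ x
    by_cases c : y ∈ (ball x r' : Set (V D))ᶜ
    · rw [Set.indicator_of_mem c, chi_of_mem c]; exact le_one x r n y
    · rw [Set.indicator_of_notMem c, chi_of_not c]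
  linarith

theorem lev {x y : V D} {r : ℕ} (h : nrm (y - x) ≤ r) : |(y 0 : ℝ) - x 0| ≤ r := by
  have := nrm_le_iff.1 h 0
  rw [Pi.sub_apply] at this
  exact_mod_cast this

/-- the constant of the square sum -/
def A (D : ℕ) : ℝ :=
  48 * exp 18 * ((D + 3).factorial : ℝ) ^ 2 * 32 ^ (D + 3) * (2 * D + 4) * 5 ^ (D + 1)

theorem A_pos (D : ℕ) : 0 < A D := by
  have := Nat.factorial_pos (D + 3)
  unfold A; positivity

theorem sq_sum (hA : AGMStmt) (h0 : 0 ≤ lam) (h1 : lam ≤ 1) {h : ℕ} (hh : 1 ≤ h) (x : V D)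
    {r n : ℕ} (hr : 1 ≤ r) (hn : 2 ≤ n) (hl : lam * r ≤ 4) :
    ∑ y ∈ wb' ω h x ((r + 1) / 2), max (exq lam ω x r n y) 0 ^ 2 ≤
      A D * ((n : ℝ) / (r : ℝ) ^ 2) ^ (D + 3) * (r : ℝ) ^ (D + 1) := by
  have hr' : (1 : ℝ) ≤ r := by exact_mod_cast hr
  have e0 := exp_pos (2 * lam * (x 0 : ℝ))
  have a : exp (2 * lam * (x 0 : ℝ)) *
      ∑ y ∈ wb' ω h x ((r + 1) / 2), max (exq lam ω x r n y) 0 ^ 2 ≤
      3 * exp 8 * ∑ y ∈ ball x ((r + 1) / 2), pim lam ω y * exq lam ω x r n y ^ 2 := by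
    rw [mul_sum, mul_sum]
    refine (sum_le_sum fun y hy => ?_).trans (sum_le_sum_of_subset_of_nonneg (filter_subset _ _)
      fun y _ _ => mul_nonneg (by positivity) (mul_nonneg (pim_nonneg _ _ _) (sq_nonneg _)))
    obtain ⟨y1, y2⟩ := mem_wb'.1 hy
    rw [max_eq_left (nonneg x r n y), ← mul_assoc]
    refine mul_le_mul_of_nonneg_right ?_ (sq_nonneg _)
    have l := (abs_le.1 (lev (y1.trans (show (r + 1) / 2 ≤ r by omega)))).1
    have p := le_pim h0 h1 (wide_Zq hh y2 lam)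
    have q : exp (2 * lam * (x 0 : ℝ)) ≤ exp 8 * exp (2 * lam * (y 0 : ℝ)) := by
      rw [← exp_add]; refine exp_le_exp.2 ?_
      nlinarith [mul_le_mul_of_nonneg_left l h0]
    nlinarith [mul_le_mul_of_nonneg_left p (exp_pos 8).le]
  have b : ∑ y ∈ ball x (r + 1), pim lam ω y ≤
      (5 * (r : ℝ)) ^ (D + 1) * ((2 * D + 4) * (exp 10 * exp (2 * lam * (x 0 : ℝ)))) := by
    refine (sum_le_card_nsmul _ _ ((2 * D + 4) * (exp 10 * exp (2 * lam * (x 0 : ℝ))))
      fun y hy => ?_).trans ?_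
    · refine (pim_le h0 h1 y).trans (mul_le_mul_of_nonneg_left ?_ (by positivity))
      have l := (abs_le.1 (lev (mem_ball.1 hy))).2
      push_cast at l
      rw [← exp_add]; refine exp_le_exp.2 ?_
      nlinarith [mul_le_mul_of_nonneg_left l h0]
    · rw [nsmul_eq_mul, card_ball]
      refine mul_le_mul_of_nonneg_right ?_ (by positivity)
      push_cast
      exact pow_le_pow_left₀ (by positivity) (by linarith) _
  have c := hA D lam ω x r n (D + 3) hn hr (by omega)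
  refine le_of_mul_le_mul_left (a.trans ?_) e0
  refine (mul_le_mul_of_nonneg_left (c.trans (mul_le_mul_of_nonneg_left b (by positivity)))
    (by positivity)).trans (le_of_eq ?_)
  have e : exp 18 = exp 8 * exp 10 := by rw [← exp_add]; norm_num
  rw [A, e, mul_div_assoc, mul_pow, mul_pow]
  ring

theorem root {S a t r ρ c : ℝ} (d : ℕ) (ha : 0 ≤ a) (ht : 0 < t) (hρ : 0 < ρ) (hr : 0 ≤ r)
    (hS : S ≤ a * t ^ (d + 2) * r ^ d) (h : t * r ≤ c * ρ) :
    √(S / ρ ^ d) ≤ √(a * c ^ d) * t := by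
  have h2 : (t * r) ^ d ≤ (c * ρ) ^ d := pow_le_pow_left₀ (by positivity) h d
  have hc : 0 ≤ c := by
    by_contra hc
    nlinarith [mul_nonneg ht.le hr, mul_pos (neg_pos.2 (not_le.1 hc)) hρ]
  rw [← sqrt_sq ht.le, ← sqrt_mul (by positivity)]
  refine sqrt_le_sqrt ?_
  rw [div_le_iff₀ (by positivity)]
  refine hS.trans ?_
  have := mul_le_mul_of_nonneg_left h2 (show 0 ≤ a * t ^ 2 by positivity)
  rw [mul_pow, mul_pow] at this
  calc a * t ^ (d + 2) * r ^ d = a * t ^ 2 * (t ^ d * r ^ d) := by ring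
    _ ≤ a * t ^ 2 * (c ^ d * ρ ^ d) := this
    _ = _ := by ring

theorem scale {J m n r : ℕ} (hJ : 1 ≤ J) (hm : 1 ≤ m) (h : (64 * J) ^ 3 * m ^ 9 * n ≤ r ^ 4)
    (h1 : r < n) (h2 : n < r ^ 2) : ∃ ρ : ℕ, m ≤ ρ ∧ ρ ≤ (r + 1) / 2 ∧ 2 ≤ r ∧
      J * (m ^ 3 + 2 * ρ ^ 2) ≤ n / 16 ∧ n ≤ 192 * J * ρ ^ 2 := by
  have a : 64 * J * m ^ 3 < n := by
    refine lt_of_pow_lt_pow_left₀ 3 (Nat.zero_le _) ?_
    refine Nat.lt_of_mul_lt_mul_right (a := n) ?_
    calc (64 * J * m ^ 3) ^ 3 * n = (64 * J) ^ 3 * m ^ 9 * n := by ring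
      _ ≤ r ^ 4 := h
      _ < n ^ 4 := Nat.pow_lt_pow_left h1 (by norm_num)
      _ = n ^ 3 * n := by ring
  have m3 : m ^ 2 ≤ m ^ 3 := Nat.pow_le_pow_right hm (by norm_num)
  have m1 : 1 ≤ m ^ 2 := Nat.one_le_pow _ _ hm
  have b : 4 * (J * m ^ 3) ≤ n / 16 := by rw [mul_assoc] at a; omega
  have c : m ^ 3 ≤ n / 16 / (3 * J) :=
    (Nat.le_div_iff_mul_le (by omega)).2 (by nlinarith [Nat.zero_le (J * m ^ 3)])
  obtain ⟨q, hq⟩ : ∃ q, q = n / 16 / (3 * J) := ⟨_, rfl⟩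
  have q1 : 3 * J * q ≤ n / 16 := hq ▸ Nat.mul_div_le _ _
  have q2 : n / 16 < 3 * J * (q + 1) := hq ▸ Nat.lt_mul_div_succ _ (by omega)
  rw [← hq] at c
  have s1 : q.sqrt ^ 2 ≤ q := Nat.sqrt_le' q
  have s2 : q < (q.sqrt + 1) ^ 2 := Nat.lt_succ_sqrt' q
  have s3 : m ≤ q.sqrt := Nat.le_sqrt'.2 (m3.trans c)
  have s4 : J * q.sqrt ^ 2 ≤ J * q := Nat.mul_le_mul_left _ s1
  have s5 : q ≤ J * q := Nat.le_mul_of_pos_left _ hJ
  have r2 : 2 ≤ r := by
    by_contra hr
    have : r ^ 2 ≤ r := by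
      have : r = 0 ∨ r = 1 := by omega
      rcases this with rfl | rfl <;> norm_num
    omega
  refine ⟨q.sqrt, s3, ?_, r2, by nlinarith, ?_⟩
  · have : (2 * q.sqrt) ^ 2 < r ^ 2 := by
      rw [mul_assoc] at q1
      rw [mul_pow]; omega
    have := lt_of_pow_lt_pow_left₀ 2 (Nat.zero_le _) this
    omega
  · have s6 : q + 1 ≤ 4 * q.sqrt ^ 2 := by nlinarith
    have s7 := Nat.mul_le_mul_left (3 * J) s6
    have : n / 16 + 1 ≤ 12 * (J * q.sqrt ^ 2) := by nlinarith
    rw [mul_assoc]; omega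

end Ex

theorem exS (hH : HKStmt) (hA : AGMStmt) : EXStmt := by
  intro D
  obtain ⟨C, J, hC, hJ, H⟩ := hH D
  have hK : 0 ≤ C * √(Ex.A D * (192 * J) ^ (D + 1)) := by positivity
  obtain ⟨K, eK⟩ : ∃ K, K = C * √(Ex.A D * (192 * J) ^ (D + 1)) := ⟨_, rfl⟩
  rw [← eK] at hK
  refine ⟨1 + 2 * K, (64 * J) ^ 3, by linarith, Nat.one_le_pow _ _ (by omega), ?_⟩
  intro ω R m h δ rep w G lam x r n h0 h1
  induction r using Nat.strong_induction_on generalizing n with
  | _ r ih =>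
  intro hl hR hx hr hM
  have hr' : (0 : ℝ) < r := by exact_mod_cast hr
  rcases le_or_gt n r with c1 | c1
  · exact (Ex.early x c1).trans (by positivity)
  rcases le_or_gt (r ^ 2) n with c2 | c2
  · refine (Ex.le_one x r n x).trans ?_
    rw [le_div_iff₀ (by positivity)]
    have : (r : ℝ) ^ 2 ≤ n := by exact_mod_cast c2
    nlinarith [mul_nonneg hK (Nat.cast_nonneg (α := ℝ) n)]
  have hm : 1 ≤ m := G.h1.trans G.hm
  obtain ⟨ρ, p1, p2, p3, p4, p5⟩ := Ex.scale hJ hm hM c1 c2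
  have q1 : (r + 1) / 2 < r := by omega
  have q2 : r ≤ 2 * ((r + 1) / 2) := by omega
  have q3 : 16 * (n / 16) ≤ n := Nat.mul_div_le _ _
  obtain ⟨r', e'⟩ : ∃ r', r' = (r + 1) / 2 := ⟨_, rfl⟩
  have S := Ex.sq_sum (ω := ω) hA h0 h1 G.h1 x hr (show 2 ≤ n by omega) hl
  rw [← e'] at q1 q2 p2 S
  obtain ⟨n', en⟩ : ∃ n', n' = n / 16 := ⟨_, rfl⟩
  rw [← en] at q3 p4
  have l' : lam * r' ≤ 4 :=
    (mul_le_mul_of_nonneg_left (by exact_mod_cast q1.le) h0).trans hl
  have I := ih r' q1 n' l' (by omega) hx (by omega) (by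
    have := Nat.pow_le_pow_left q2 4
    have := Nat.mul_le_mul_left ((64 * J) ^ 3 * m ^ 9) q3
    nlinarith)
  have T := H ω R m h δ rep w G lam x ρ r' n' (exq lam ω x r n) h0 h1 l' p1 p2 (by omega) hx p4
  have hn : (0 : ℝ) < n := by exact_mod_cast (show 0 < n by omega)
  have hρ : (0 : ℝ) < ρ := by exact_mod_cast (show 0 < ρ by omega)
  have ρr : (ρ : ℝ) ≤ r := by exact_mod_cast (show ρ ≤ r by omega)
  have p5' : (n : ℝ) ≤ 192 * J * (ρ : ℝ) ^ 2 := by exact_mod_cast p5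
  have W := Ex.root (c := 192 * J) (D + 1) (Ex.A_pos D).le (show 0 < (n : ℝ) / (r : ℝ) ^ 2 by
    positivity) hρ hr'.le S (by
      rw [div_mul_eq_mul_div, div_le_iff₀ (by positivity)]
      have := mul_le_mul_of_nonneg_left ρr (show 0 ≤ 192 * (J : ℝ) * ρ by positivity)
      nlinarith [mul_le_mul_of_nonneg_right (p5'.trans (by nlinarith : 192 * J * (ρ : ℝ) ^ 2 ≤
        192 * J * ρ * r)) hr'.le])
  have T' := T.trans (mul_le_mul_of_nonneg_left W (by linarith))
  rw [← mul_assoc, ← eK] at T'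
  have I' : (1 + 2 * K) * n' / (r' : ℝ) ^ 2 ≤ (1 + 2 * K) * (n / (r : ℝ) ^ 2) / 4 := by
    have a1 : (r : ℝ) ≤ 2 * r' := by exact_mod_cast q2
    have a2 : 16 * (n' : ℝ) ≤ n := by exact_mod_cast q3
    have a3 : (0 : ℝ) < r' := by linarith
    rw [mul_div_assoc, mul_div_assoc, div_div]
    refine mul_le_mul_of_nonneg_left ?_ (by linarith)
    rw [div_le_div_iff₀ (by positivity) (by positivity)]
    have a4 : (r : ℝ) ^ 2 ≤ 4 * r' ^ 2 := by nlinarith
    nlinarith [mul_le_mul_of_nonneg_left a4 (Nat.cast_nonneg (α := ℝ) n'),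
      mul_le_mul_of_nonneg_right a2 (sq_nonneg (r' : ℝ))]
  have t0 : 0 ≤ (n : ℝ) / (r : ℝ) ^ 2 := by positivity
  have := Ex.split (lam := lam) (ω := ω) x q1.le n n'
  rw [mul_div_assoc]
  nlinarith [mul_nonneg hK t0]

end Pool.Agent.MP_8c549f_pr.L2

end

end Part0

-- ======== part 1: Mv
section Part1

/-! PROJECT L2: the mean value inequality. -/

noncomputable section

namespace Pool.Agent.MP_8c549f_pr.L2

open MeasureTheory Finset Real Classical S3

namespace Mv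

variable {D : ℕ} {lam : ℝ} {ω : Cfg D}

/-- the source term -/
theorem src {h r n : ℕ} {x : V D} {u : V D → ℝ} {F : ℝ} (hx : Wide ω x h) (hF : 0 ≤ F)
    (hu : ∀ y ∈ wb' ω h x r, u y - Pf lam ω u y ≤ F) :
    Gs lam ω (ball x r) n ((ball x r : Set (V D)).indicator fun y => u y - Pf lam ω u y) x ≤
      n * F := by
  refine (sum_le_card_nsmul _ _ F fun k _ => ?_).trans (by simp)
  refine (Pk_mono_loc (f' := fun _ => F) k (fun _ y => Wide ω y h) x hx
    (fun _ _ y s hy _ hs => wide_step hy hs) fun y hy => ?_).trans (Pk_le hF (fun _ => le_rfl) k x)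
  by_cases hb : y ∈ (ball x r : Set (V D))
  · rw [Set.indicator_of_mem hb]
    exact hu y (mem_wb'.2 ⟨mem_ball.1 hb, hy⟩)
  · rw [Set.indicator_of_notMem hb]
    exact hF

/-- the boundary term -/
theorem bdy {h r n : ℕ} {x : V D} {u : V D → ℝ} {S : ℝ} (hx : Wide ω x h)
    (hu : ∀ y ∈ wb' ω h x (r + 1), u y ≤ S) :
    Gs lam ω (ball x r) (n + 1) ((ball x r : Set (V D))ᶜ.indicator u) x ≤
      S * exq lam ω x r n x := by
  rw [exq, ← Gs_mul]
  refine sum_le_sum fun k _ => Pk_mono_loc k (fun _ y => Wide ω y h ∧ nrm (y - x) ≤ r + 1) x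
    ⟨hx, by simp⟩ (fun _ _ y s hy hb hs => ⟨wide_step hy.1 hs, (nrm_step y x s).trans
      (Nat.add_le_add_right (mem_ball.1 hb) 1)⟩) fun y hy => ?_
  by_cases hb : y ∈ (ball x r : Set (V D))ᶜ
  · rw [Set.indicator_of_mem hb, chi_of_mem hb, mul_one]
    exact hu y (mem_wb'.2 ⟨hy.2, hy.1⟩)
  · rw [Set.indicator_of_notMem hb, chi_of_not hb, mul_zero]

theorem root {X a ρ r : ℝ} {d : ℕ} (hX : 0 ≤ X) (ha : 1 ≤ a) (hρ : 0 < ρ) (hr : 0 < r)
    (h : r ≤ a * ρ) : √(X / ρ ^ d) ≤ a ^ d * √(X / r ^ d) := by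
  have h1 : (1 : ℝ) ≤ a ^ d := one_le_pow₀ ha
  rw [← sqrt_sq (zero_le_one.trans h1), ← sqrt_mul (sq_nonneg _), ← mul_div_assoc]
  refine sqrt_le_sqrt ?_
  rw [div_le_div_iff₀ (by positivity) (by positivity)]
  have h2 : r ^ d ≤ a ^ d * ρ ^ d := by
    rw [← mul_pow]
    exact pow_le_pow_left₀ hr.le h d
  have h3 : a ^ d * ρ ^ d ≤ (a ^ d) ^ 2 * ρ ^ d :=
    mul_le_mul_of_nonneg_right (by nlinarith) (by positivity)
  calc X * r ^ d ≤ X * ((a ^ d) ^ 2 * ρ ^ d) := mul_le_mul_of_nonneg_left (h2.trans h3) hX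
    _ = _ := by ring

end Mv

open Mv in
theorem mv (hH : HKStmt) (hE : EXStmt) : MVStmt := by
  intro D
  obtain ⟨CH, J, hCH, hJ, HK⟩ := hH D
  obtain ⟨CE, ME, hCE, hME, EX⟩ := hE D
  obtain ⟨E, hE8⟩ := exists_nat_ge (8 * CE)
  have hE1 : 1 ≤ E := by
    have : (1 : ℝ) ≤ E := by linarith
    exact_mod_cast this
  obtain ⟨K, hK⟩ : ∃ K, K = E * (3 * J) := ⟨_, rfl⟩
  have hK1 : 1 ≤ K := hK ▸ Nat.mul_pos hE1 (by omega)
  have hK2 : (1 : ℝ) ≤ 2 * K := by
    have : (1 : ℝ) ≤ K := by exact_mod_cast hK1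
    linarith
  refine ⟨CH * (2 * K) ^ (D + 1), K * ME, one_le_mul_of_one_le_of_one_le hCH (one_le_pow₀ hK2),
    Nat.mul_pos hK1 hME, ?_⟩
  intro ω R m h δ rep w G lam x r u F S l0 l1 lr hR hx hM hF hS hu hb
  have m1 : 1 ≤ m := G.h1.trans G.hm
  have m5 : 1 ≤ m ^ 5 := Nat.one_le_pow _ _ m1
  have a1 : K * m ^ 5 ≤ r := (Nat.mul_le_mul_right _ (Nat.le_mul_of_pos_right K hME)).trans hM
  have a2 : ME * m ^ 5 ≤ r := (Nat.mul_le_mul_right _ (Nat.le_mul_of_pos_left ME hK1)).trans hM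
  obtain ⟨ρ, hρ⟩ : ∃ ρ, ρ = r / K := ⟨_, rfl⟩
  have b1 : m ^ 5 ≤ ρ := hρ ▸ (Nat.le_div_iff_mul_le hK1).2 (mul_comm K _ ▸ a1)
  have b2 : K * ρ ≤ r := hρ ▸ Nat.mul_div_le r K
  have b3 : r < K * (ρ + 1) := hρ ▸ Nat.lt_mul_div_succ r hK1
  have b4 : ρ ≤ r := (Nat.le_mul_of_pos_left ρ hK1).trans b2
  have ρ1 : 1 ≤ ρ := m5.trans b1
  have r1 : 1 ≤ r := ρ1.trans b4
  have c1 : E * (3 * J * ρ ^ 2) ≤ r ^ 2 := by
    calc E * (3 * J * ρ ^ 2) = K * ρ ^ 2 := by rw [hK]; ring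
      _ ≤ K * K * ρ ^ 2 := Nat.mul_le_mul_right _ (Nat.le_mul_of_pos_right K hK1)
      _ = (K * ρ) ^ 2 := by ring
      _ ≤ r ^ 2 := Nat.pow_le_pow_left b2 2
  have c2 : 3 * J * ρ ^ 2 ≤ r ^ 2 := (Nat.le_mul_of_pos_left _ hE1).trans c1
  have c3 : ME * m ^ 9 * (3 * J * ρ ^ 2) ≤ r ^ 4 := by
    have : m ^ 4 ≤ r := (Nat.pow_le_pow_right m1 (by norm_num)).trans (b1.trans b4)
    calc ME * m ^ 9 * (3 * J * ρ ^ 2) = ME * m ^ 5 * m ^ 4 * (3 * J * ρ ^ 2) := by ring
      _ ≤ r * r * r ^ 2 := Nat.mul_le_mul (Nat.mul_le_mul a2 this) c2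
      _ = r ^ 4 := by ring
  have c4 : J * (m ^ 3 + 2 * ρ ^ 2) ≤ 3 * J * ρ ^ 2 := by
    have : m ^ 3 ≤ ρ ^ 2 := ((Nat.pow_le_pow_right m1 (by norm_num)).trans b1).trans
      (Nat.le_self_pow (by norm_num) ρ)
    calc J * (m ^ 3 + 2 * ρ ^ 2) ≤ J * (ρ ^ 2 + 2 * ρ ^ 2) := Nat.mul_le_mul_left _ (by omega)
      _ = 3 * J * ρ ^ 2 := by ring
  have e1 := EX ω R m h δ rep w G lam x r _ l0 l1 lr hR hx r1 c3
  have e2 := HK ω R m h δ rep w G lam x ρ r _ u l0 l1 lr
    ((Nat.le_self_pow (by norm_num) m).trans b1) b4 hR hx c4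
  generalize 3 * J * ρ ^ 2 = n at c1 c2 e1 e2
  have rp : (0 : ℝ) < r := by exact_mod_cast r1
  have ρp : (0 : ℝ) < ρ := by exact_mod_cast ρ1
  have f1 : CE * n / (r : ℝ) ^ 2 ≤ 1 / 8 := by
    have k1 : (E : ℝ) * n ≤ (r : ℝ) ^ 2 := by exact_mod_cast c1
    have k2 := mul_le_mul_of_nonneg_right hE8 (Nat.cast_nonneg (α := ℝ) n)
    rw [div_le_iff₀ (by positivity)]
    linarith
  have f2 : (n : ℝ) * F ≤ (r : ℝ) ^ 2 * F :=
    mul_le_mul_of_nonneg_right (by exact_mod_cast c2) hF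
  have f3 : (r : ℝ) ≤ 2 * K * ρ := by
    have : r ≤ 2 * K * ρ := by nlinarith
    exact_mod_cast this
  have f4 := mul_le_mul_of_nonneg_left (root (d := D + 1)
    (sum_nonneg fun y (_ : y ∈ wb' ω h x r) => sq_nonneg (max (u y) 0)) hK2 ρp rp f3)
    (zero_le_one.trans hCH)
  have f5 := mul_le_mul_of_nonneg_left (e1.trans f1) hS
  have f6 := src (n := n) hx hF hu
  have f7 := bdy (lam := lam) (n := n) hx hb
  rw [dyn (lam := lam) (ω := ω) (ball x r) u n x, mul_assoc]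
  linarith

end Pool.Agent.MP_8c549f_pr.L2

end

end Part1

-- ======== part 2: Gb
section Part2

/-! PROJECT L2, row Gb: the bound on the Green function against the comparison function. -/

noncomputable section

namespace Pool.Agent.MP_8c549f_pr.L2

open MeasureTheory Finset Real Classical S3

namespace Gb

variable {D : ℕ} {lam : ℝ} {ω : Cfg D}

theorem sum_le_supp (A Q : Finset (V D)) (F : V D → ℝ) (h0 : ∀ y, 0 ≤ F y)
    (h : ∀ y, F y ≠ 0 → y ∈ Q) : ∑ y ∈ A, F y ≤ ∑ y ∈ Q, F y := by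
  rw [← sum_filter_ne_zero A]
  exact sum_le_sum_of_subset_of_nonneg (fun y hy => h y (mem_filter.1 hy).2) fun y _ _ => h0 y

theorem pim_nn (x : V D) : 0 ≤ pim lam ω x := by
  rw [← sum_cnd]; exact sum_nonneg fun s _ => cnd_nonneg x s

theorem En_nn (Q : Finset (V D)) (g : V D → ℝ) : 0 ≤ En lam ω Q g := by
  rw [En_eq]
  exact sum_nonneg fun x _ => sum_nonneg fun s _ => mul_nonneg (cnd_nonneg x s) (sq_nonneg _)

theorem sup_nb (U : Finset (V D)) (g : V D → ℝ) (h : ∀ y, g y ≠ 0 → y ∈ U) :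
    Sup g (U.biUnion fun y => ball y 1) := fun x hx =>
  ⟨mem_biUnion.2 ⟨x, h x hx, self_mem_ball x 1⟩, fun s =>
    mem_biUnion.2 ⟨x, h x hx, mem_ball.2 (by simp)⟩⟩

theorem gs_off {U : Set (V D)} (v : V D → ℝ) (n : ℕ) {y : V D} (hy : y ∉ U) :
    Gs lam ω U n (U.indicator v) y = 0 := by
  cases n with
  | zero => rfl
  | succ n => rw [Gs_succ_not hy, Set.indicator_of_notMem hy]

theorem gs_sub {U : Set (V D)} {v : V D → ℝ} (hv : ∀ y, 0 ≤ v y) (n : ℕ) (y : V D) :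
    Gs lam ω U n (U.indicator v) y - Pf lam ω (Gs lam ω U n (U.indicator v)) y ≤
      U.indicator v y := by
  have ha : ∀ z, 0 ≤ U.indicator v z := fun z => Set.indicator_nonneg (fun z _ => hv z) z
  have hP := Pf_nonneg (lam := lam) (ω := ω) (Gs_nonneg (lam := lam) (ω := ω) (U := U) ha n) y
  by_cases hy : y ∈ U
  · cases n with
    | zero => rw [Gs_zero]; linarith [ha y]
    | succ n =>
      have := Pf_mono (lam := lam) (ω := ω)
        (Gs_time (lam := lam) (ω := ω) (U := U) ha (Nat.le_succ n)) y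
      rw [Gs_succ_mem hy]; linarith
  · rw [gs_off v n hy]; linarith [ha y]

theorem lev_le (x y : V D) : |(y 0 : ℝ) - x 0| ≤ nrm (y - x) := by
  have := abs_le_nrm (y - x) 0
  rw [Pi.sub_apply] at this
  exact_mod_cast this

/-- the weight of the source term -/
theorem src_le (h0 : 0 ≤ lam) (h1 : lam ≤ 1) {ψ : V D → ℝ} {e : ℝ} (hψ : Lip ψ (e / 2))
    (x y : V D) : pim lam ω y * (et e x y * wf lam ψ y) ^ 2 ≤
      (2 * D + 4) * exp (2 * ψ x) * et e x y := by
  have h2 := (abs_le.1 (hψ y x)).2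
  calc pim lam ω y * (et e x y * wf lam ψ y) ^ 2
      ≤ (2 * D + 4) * exp (2 * lam * (y 0 : ℝ)) * (et e x y * wf lam ψ y) ^ 2 :=
        mul_le_mul_of_nonneg_right (pim_le h0 h1 y) (sq_nonneg _)
    _ = (2 * D + 4) * exp (2 * ψ y - 2 * (e * (nrm (y - x) : ℝ))) := by
        rw [mul_assoc, et, wf, ← exp_add, sq, ← exp_add, ← exp_add]
        congr 2; ring
    _ ≤ (2 * D + 4) * exp (2 * ψ x + -(e * (nrm (y - x) : ℝ))) :=
        mul_le_mul_of_nonneg_left (exp_le_exp.2 (by linarith)) (by positivity)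
    _ = _ := by rw [exp_add, et, mul_assoc]

/-- the weighted square norm of the Green sum -/
theorem l2 (hE : EN2Stmt) {K L e : ℝ} (hK : 1 ≤ K) (hL : 1 ≤ L) (he : 0 < e) (he1 : e ≤ 1)
    (he2 : 8 * K * e ^ 2 = 1) (Q : Finset (V D)) (x : V D) (u a : V D → ℝ) (hu : ∀ y, 0 ≤ u y)
    (hs : Sup u Q) (ha : ∀ y, u y - Pf lam ω u y ≤ a y)
    (hH : ∑ y ∈ Q, pim lam ω y * (et (e / L) x y * u y) ^ 2 ≤
      K * L ^ 2 * En lam ω Q fun y => et (e / L) x y * u y) :
    ∑ y ∈ Q, pim lam ω y * (et (e / L) x y * u y) ^ 2 ≤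
      16 * K ^ 2 * L ^ 4 * ∑ y ∈ Q, pim lam ω y * (et (e / L) x y * a y) ^ 2 := by
  have hL0 : 0 < L := by linarith
  have h1 := hE D lam (e / L) ω Q x u (by positivity) ((div_le_one hL0).2 (he1.trans hL)) hs
  set t := K * L ^ 2 with ht
  have t0 : 0 < t := by positivity
  have h2 : t * (2 * ∑ y ∈ Q, pim lam ω y * (et (e / L) x y ^ 2 * u y) * (u y - Pf lam ω u y)) ≤
      (∑ y ∈ Q, pim lam ω y * (et (e / L) x y * u y) ^ 2) / 4 +
        4 * t ^ 2 * ∑ y ∈ Q, pim lam ω y * (et (e / L) x y * a y) ^ 2 := by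
    rw [mul_sum, mul_sum, mul_sum, sum_div, ← sum_add_distrib]
    refine sum_le_sum fun y _ => ?_
    have p0 := pim_nn (lam := lam) (ω := ω) y
    have q0 : 0 ≤ pim lam ω y * (et (e / L) x y ^ 2 * u y) :=
      mul_nonneg p0 (mul_nonneg (sq_nonneg _) (hu y))
    have q1 := mul_le_mul_of_nonneg_left (mul_le_mul_of_nonneg_left (ha y) q0) t0.le
    have q2 := mul_nonneg p0 (sq_nonneg (et (e / L) x y * u y / 2 - 2 * t * (et (e / L) x y * a y)))
    nlinarith [q1, q2]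
  have h3 : t * (4 * (e / L) ^ 2) = 1 / 2 := by
    rw [ht]; field_simp; linarith
  have h4 := mul_le_mul_of_nonneg_left h1 t0.le
  rw [mul_add, ← mul_assoc t (4 * (e / L) ^ 2), h3] at h4
  have h5 : 16 * K ^ 2 * L ^ 4 = 16 * t ^ 2 := by rw [ht]; ring
  rw [h5]; linarith

theorem exp_le_two {s : ℝ} (h : s ≤ 5 / 8) : exp s ≤ 2 := by
  have := Real.log_two_gt_d9
  calc exp s ≤ exp (log 2) := exp_le_exp.2 (by linarith)
    _ = 2 := exp_log (by norm_num)

/-- the comparison function changes by a factor at most two -/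
theorem wf_le (h0 : 0 ≤ lam) {ψ : V D → ℝ} {c : ℝ} (hψ : Lip ψ c) (x y : V D)
    (h : (lam + c) * nrm (y - x) ≤ 5 / 8) : wf lam ψ y ≤ 2 * wf lam ψ x := by
  have h1 := (abs_le.1 (hψ y x)).2
  have h2 := mul_le_mul_of_nonneg_left (abs_le.1 (lev_le x y)).1 h0
  have h3 : exp (-(lam * (y 0 : ℝ)) + ψ y - (-(lam * (x 0 : ℝ)) + ψ x)) ≤ 2 :=
    exp_le_two (by linarith)
  rwa [exp_sub, div_le_iff₀ (exp_pos _)] at h3

/-- lower bound of the weight near the centre -/
theorem low (h0 : 0 ≤ lam) (h1 : lam ≤ 1) {e : ℝ} (x y : V D) (hy : 0 < Zq lam ω y)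
    (h : (lam + e) * nrm (y - x) ≤ 5 / 16) (c : ℝ) :
    exp (2 * lam * (x 0 : ℝ)) * c ^ 2 ≤ 6 * (pim lam ω y * (et e x y * c) ^ 2) := by
  have h2 := mul_le_mul_of_nonneg_left (abs_le.1 (lev_le x y)).1 h0
  have h3 : exp (2 * lam * (x 0 : ℝ) - (2 * lam * (y 0 : ℝ) + (-(e * (nrm (y - x) : ℝ)) +
      -(e * (nrm (y - x) : ℝ))))) ≤ 2 := exp_le_two (by linarith)
  rw [exp_sub, div_le_iff₀ (exp_pos _), exp_add, exp_add, ← sq] at h3
  have h4 := mul_le_mul_of_nonneg_right (le_pim (ω := ω) h0 h1 hy) (sq_nonneg (et e x y))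
  have h5 : exp (2 * lam * (x 0 : ℝ)) ≤ 6 * (pim lam ω y * et e x y ^ 2) := by
    unfold et at h4 ⊢; linarith
  have := mul_le_mul_of_nonneg_right h5 (sq_nonneg c)
  rw [mul_pow]; linarith

end Gb

open Gb in
theorem gb (hE : EN2Stmt) (hH : HDStmt) (hT : THStmt) (hM : MVStmt) : GBStmt := by
  intro D
  obtain ⟨K, hK, HD⟩ := hH D
  obtain ⟨CT, hCT, TH⟩ := hT D
  obtain ⟨CM, M, hCM, -, MV⟩ := hM D
  obtain ⟨e, he, he2⟩ : ∃ e : ℝ, 0 < e ∧ 8 * K * e ^ 2 = 1 :=
    ⟨√(1 / (8 * K)), by positivity, by rw [sq_sqrt (by positivity)]; field_simp⟩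
  have he1 : e ≤ 1 := by
    by_contra c
    have c' := not_le.1 c
    nlinarith [mul_le_mul hK (show 1 ≤ e ^ 2 by nlinarith) zero_le_one (by linarith)]
  obtain ⟨E, hE0, hE2⟩ : ∃ E : ℝ, 0 ≤ E ∧
      E ^ 2 = 96 * K ^ 2 * ((2 * D + 4) * CT / e ^ (D + 1)) * 32 ^ (D + 1) :=
    ⟨√_, sqrt_nonneg _, sq_sqrt (by positivity)⟩
  have hCE : 0 ≤ CM * E := by positivity
  refine ⟨e / 2, 2 * (2 + CM * E), (M * 16) ^ 6, by positivity, by linarith, by linarith, ?_⟩
  intro ω R m h δ rep w hG l lam hl hS U ψ hU hψ n y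
  have L0 := hS.lpos
  have L16 : (16 : ℝ) ≤ l := by exact_mod_cast hS.l16
  have lam0 := hS.pos
  have lam1 : lam ≤ 1 := by linarith [hS.le_quarter]
  have hv : ∀ z, 0 < wf lam ψ z := fun z => exp_pos _
  set a := (U : Set (V D)).indicator (wf lam ψ) with hadef
  have ha0 : ∀ z, 0 ≤ a z := fun z => Set.indicator_nonneg (fun z _ => (hv z).le) z
  have hav : ∀ z, a z ≤ wf lam ψ z := fun z => Set.indicator_le_self' (fun z _ => (hv z).le) z
  set u := Gs lam ω U n a with hudef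
  have hu0 : ∀ z, 0 ≤ u z := Gs_nonneg ha0 n
  have hoff : ∀ z, z ∉ U → u z = 0 := fun z hz => gs_off _ n (by simpa using hz)
  have hsub : ∀ z, u z - Pf lam ω u z ≤ a z := gs_sub (fun z => (hv z).le) n
  by_cases hy : y ∈ U
  swap
  · rw [hoff y hy]; have := hv y; positivity
  obtain ⟨x, hx, hmax⟩ := exists_max_image U (fun z => u z / wf lam ψ z) ⟨y, hy⟩
  set S := u x / wf lam ψ x with hSdef
  have S0 : 0 ≤ S := div_nonneg (hu0 x) (hv x).le
  have huS : ∀ z, u z ≤ S * wf lam ψ z := fun z => by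
    by_cases hz : z ∈ U
    · exact (div_le_iff₀ (hv z)).1 (hmax z hz)
    · rw [hoff z hz]; exact mul_nonneg S0 (hv z).le
  suffices hfin : S ≤ 2 * (2 + CM * E) * (l : ℝ) ^ 2 from
    (huS y).trans (mul_le_mul_of_nonneg_right hfin (hv y).le)
  -- the energy estimate
  have hin : ∀ z, u z ≠ 0 → z ∈ U := fun z hz => by_contra fun c => hz (hoff z c)
  have hin' : ∀ z, et (e / l) x z * u z ≠ 0 → z ∈ U := fun z hz => hin z (right_ne_zero_of_mul hz)
  have m16 := hS.m16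
  have l16 := hS.l16
  have hhm := hG.hm
  have hlm : lam * m ≤ 1 := by
    have : (16 * m : ℝ) ≤ l := by exact_mod_cast m16
    nlinarith [hS.mul_le]
  set Q := U.biUnion fun y => ball y 1 with hQ
  have h1 := (HD ω R m h δ rep w hG lam (fun z => et (e / l) x z * u z) Q lam0 hlm
    (fun z hz => by have := (hU z (hin' z hz)).2; omega) (sup_nb U _ hin')).2.2
    fun z hz => (hU z (hin' z hz)).1
  have hKl : K / lam ^ 2 ≤ K * (l : ℝ) ^ 2 := by
    rw [div_le_iff₀ (by positivity), mul_assoc, ← mul_pow]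
    have : 1 ≤ ((l : ℝ) * lam) ^ 2 := one_le_pow₀ (by linarith [hS.le_mul])
    nlinarith
  have h2 := l2 hE hK (by linarith) he he1 he2 Q x u a hu0 (sup_nb U _ hin) hsub
    (h1.trans (mul_le_mul_of_nonneg_right hKl (En_nn _ _)))
  have el0 : 0 < e / l := by positivity
  have el1 : e / l ≤ 1 / l := div_le_div_of_nonneg_right he1 L0.le
  have hψ' : Lip ψ (e / l / 2) := by rwa [div_right_comm]
  have h3 : ∑ z ∈ Q, pim lam ω z * (et (e / l) x z * a z) ^ 2 ≤
      (2 * D + 4) * exp (2 * ψ x) * (CT / (e / l) ^ (D + 1)) := by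
    refine le_trans (sum_le_sum fun z _ => ?_) ((mul_sum _ _ _).symm.trans_le
      (mul_le_mul_of_nonneg_left (TH (e / l) x Q el0 ((div_le_one L0).2 (by linarith))).1
        (by positivity)))
    refine le_trans ?_ (src_le (ω := ω) lam0.le lam1 hψ' x z)
    have e0 : 0 ≤ et (e / l) x z := (exp_pos _).le
    exact mul_le_mul_of_nonneg_left (pow_le_pow_left₀ (mul_nonneg e0 (ha0 z))
      (mul_le_mul_of_nonneg_left (hav z) e0) 2) (pim_nn z)
  -- the small ball
  obtain ⟨r, hr⟩ : ∃ r, r = l / 16 := ⟨_, rfl⟩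
  have r1 : (16 * r : ℝ) ≤ l := by exact_mod_cast (show 16 * r ≤ l by omega)
  have r2 : (l : ℝ) ≤ 32 * r := by exact_mod_cast (show l ≤ 32 * r by omega)
  have r0 : (0 : ℝ) < r := by linarith
  have c5 : lam + e / l ≤ 5 / l := by
    have := hS.hi
    have : (5 : ℝ) / l = 4 / l + 1 / l := by ring
    linarith
  have near : ∀ z (c : ℝ), (nrm (z - x) : ℝ) ≤ c * l → (lam + e / l) * nrm (z - x) ≤ 5 * c :=
    fun z c hz => by
      calc (lam + e / l) * nrm (z - x) ≤ 5 / l * (c * l) :=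
            mul_le_mul c5 hz (Nat.cast_nonneg _) (by positivity)
        _ = 5 * c := by field_simp
  have h4 : exp (2 * lam * (x 0 : ℝ)) * ∑ z ∈ wb' ω h x r, max (u z) 0 ^ 2 ≤
      6 * ∑ z ∈ Q, pim lam ω z * (et (e / l) x z * u z) ^ 2 := by
    refine le_trans ?_ (mul_le_mul_of_nonneg_left (sum_le_supp (wb' ω h x r) Q _
      (fun z => mul_nonneg (pim_nn z) (sq_nonneg _)) fun z hz =>
        (sup_nb U _ hin' z fun c => hz (by rw [c]; simp)).1) (by norm_num))
    rw [mul_sum, mul_sum]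
    refine sum_le_sum fun z hz => ?_
    obtain ⟨z1, z2⟩ := mem_wb'.1 hz
    have z3 : (nrm (z - x) : ℝ) ≤ r := by exact_mod_cast z1
    rw [max_eq_left (hu0 z)]
    exact low lam0.le lam1 x z (wide_Zq hG.h1 z2 lam)
      (by linarith [near z (1 / 16) (by linarith)]) _
  have h5 : (∑ z ∈ wb' ω h x r, max (u z) 0 ^ 2) / (r : ℝ) ^ (D + 1) ≤
      (E * (l : ℝ) ^ 2 * wf lam ψ x) ^ 2 := by
    have w2 : exp (2 * ψ x) = exp (2 * lam * (x 0 : ℝ)) * wf lam ψ x ^ 2 := by
      rw [wf, sq, ← exp_add, ← exp_add]; congr 1; ring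
    have p1 : (l : ℝ) ^ (D + 1) ≤ 32 ^ (D + 1) * (r : ℝ) ^ (D + 1) := by
      rw [← mul_pow]; exact pow_le_pow_left₀ L0.le r2 _
    rw [div_le_iff₀ (by positivity)]
    refine le_of_mul_le_mul_left ?_ (exp_pos (2 * lam * (x 0 : ℝ)))
    calc _ ≤ 6 * (16 * K ^ 2 * (l : ℝ) ^ 4 *
          ((2 * D + 4) * exp (2 * ψ x) * (CT / (e / l) ^ (D + 1)))) :=
          h4.trans (mul_le_mul_of_nonneg_left
            (h2.trans (mul_le_mul_of_nonneg_left h3 (by positivity))) (by norm_num))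
      _ = 96 * K ^ 2 * ((2 * D + 4) * CT / e ^ (D + 1)) * (l : ℝ) ^ 4 * exp (2 * ψ x) *
          (l : ℝ) ^ (D + 1) := by rw [div_pow]; field_simp; norm_num
      _ ≤ 96 * K ^ 2 * ((2 * D + 4) * CT / e ^ (D + 1)) * (l : ℝ) ^ 4 * exp (2 * ψ x) *
          (32 ^ (D + 1) * (r : ℝ) ^ (D + 1)) := mul_le_mul_of_nonneg_left p1 (by positivity)
      _ = _ := by rw [mul_pow, mul_pow, hE2, w2]; ring
  have h6 : √((∑ z ∈ wb' ω h x r, max (u z) 0 ^ 2) / (r : ℝ) ^ (D + 1)) ≤
      E * (l : ℝ) ^ 2 * wf lam ψ x :=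
    sqrt_le_iff.2 ⟨by have := hv x; positivity, h5⟩
  have two : ∀ z, nrm (z - x) ≤ r + 1 → wf lam ψ z ≤ 2 * wf lam ψ x := fun z hz => by
    have z3 : (nrm (z - x) : ℝ) ≤ r + 1 := by exact_mod_cast hz
    have z4 := near z (1 / 8) (by linarith)
    have z5 : (lam + e / l / 2) * nrm (z - x) ≤ (lam + e / l) * nrm (z - x) :=
      mul_le_mul_of_nonneg_right (by linarith) (Nat.cast_nonneg _)
    exact wf_le lam0.le hψ' x z (by linarith)
  have hbig := hS.big hl
  have h7 := MV ω R m h δ rep w hG lam x r u (2 * wf lam ψ x) (2 * (S * wf lam ψ x)) lam0.le lam1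
    (by nlinarith [hS.mul_le]) (by have := (hU x hx).2; omega) (hU x hx).1
    (by rw [mul_right_comm] at hbig; omega) (by have := hv x; positivity)
    (by have := hv x; positivity)
    (fun z hz => (hsub z).trans ((hav z).trans (two z ((mem_wb'.1 hz).1.trans (Nat.le_succ r)))))
    (fun z hz => (huS z).trans (by
      have := mul_le_mul_of_nonneg_left (two z (mem_wb'.1 hz).1) S0
      linarith))
  have hux : u x = S * wf lam ψ x := by rw [hSdef, div_mul_cancel₀ _ (hv x).ne']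
  have h8 := mul_le_mul_of_nonneg_left h6 (show 0 ≤ CM by linarith)
  have h9 : (r : ℝ) ^ 2 * (2 * wf lam ψ x) ≤ (l : ℝ) ^ 2 * (2 * wf lam ψ x) :=
    mul_le_mul_of_nonneg_right (pow_le_pow_left₀ r0.le (by linarith) 2) (by linarith [hv x])
  have h10 : 0 ≤ S * wf lam ψ x := mul_nonneg S0 (hv x).le
  refine le_of_mul_le_mul_right ?_ (hv x)
  linarith

end Pool.Agent.MP_8c549f_pr.L2

end

end Part2

-- ======== part 3: Gc
section Part3

/-! PROJECT L2, row Gc: consequences of a bound on the Green sums. -/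

noncomputable section

namespace Pool.Agent.MP_8c549f_pr.L2

open MeasureTheory Finset Real Classical S3
open scoped ENNReal

namespace Gc

variable {D : ℕ} {lam : ℝ} {ω : Cfg D}

theorem diag (t : ℕ → ℝ) (ht : ∀ k, 0 ≤ t k) (n : ℕ) :
    ∑ k ∈ range n, ((k : ℝ) + 1) * t k ≤ ∑ j ∈ range n, ∑ i ∈ range n, t (j + i) := by
  have h := Finset.sum_range_diag_flip n fun j i => t (j + i)
  have e : ∑ k ∈ range n, ((k : ℝ) + 1) * t k =
      ∑ m ∈ range n, ∑ k ∈ range (m + 1), t (k + (m - k)) := by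
    refine sum_congr rfl fun m _ => ?_
    rw [sum_congr rfl fun k hk => show t (k + (m - k)) = t m by
      rw [Nat.add_sub_cancel' (Nat.lt_succ_iff.1 (mem_range.1 hk))]]
    simp
  rw [e, h]
  exact sum_le_sum fun j _ =>
    sum_le_sum_of_subset_of_nonneg (range_mono (Nat.sub_le _ _)) fun i _ _ => ht _

theorem tsum_mem {U : Set (V D)} {g : V D → ℝ} (hs : ∀ y, Summable fun k => Pk lam ω U k g y)
    {y : V D} (hy : y ∈ U) :
    ∑' k, Pk lam ω U k g y = g y + Pf lam ω (fun z => ∑' k, Pk lam ω U k g z) y := by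
  rw [(hs y).tsum_eq_zero_add, Pk_zero]
  congr 1
  simp only [Pk_succ_mem hy, Pf]
  rw [Summable.tsum_finsetSum fun s _ => (hs _).mul_left _]
  exact sum_congr rfl fun s _ => tsum_mul_left

theorem tsum_not {U : Set (V D)} (g : V D → ℝ) {y : V D} (hy : y ∉ U) :
    ∑' k, Pk lam ω U k g y = g y := by
  rw [tsum_eq_single 0]
  · rfl
  · intro k hk
    obtain ⟨k, rfl⟩ := Nat.exists_eq_succ_of_ne_zero hk
    exact Pk_succ_not hy k g

/-- a function that vanishes off a finite set is dominated by a multiple of a positive one -/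
theorem dom (U : Finset (V D)) {v : V D → ℝ} (hv : ∀ y, 0 < v y) (f : V D → ℝ) :
    ∃ M : ℝ, 0 ≤ M ∧ ∀ y, |(U : Set (V D)).indicator f y| ≤ M * (U : Set (V D)).indicator v y := by
  refine ⟨∑ z ∈ U, |f z| / v z, sum_nonneg fun z _ => div_nonneg (abs_nonneg _) (hv z).le,
    fun y => ?_⟩
  by_cases hy : y ∈ U
  · rw [Set.indicator_of_mem (by simpa using hy), Set.indicator_of_mem (by simpa using hy),
      ← div_le_iff₀ (hv y)]
    exact single_le_sum (f := fun z => |f z| / v z)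
      (fun z _ => div_nonneg (abs_nonneg _) (hv z).le) hy
  · rw [Set.indicator_of_notMem (by simpa using hy), Set.indicator_of_notMem (by simpa using hy)]
    simp

theorem decay {U : Set (V D)} {a : V D → ℝ} {A : ℝ} (hA : 1 ≤ A) (a0 : ∀ y, 0 ≤ a y)
    (hG : ∀ n y, Gs lam ω U n a y ≤ A * a y) (n : ℕ) (y : V D) :
    Pk lam ω U n a y ≤ A * exp (-(n / A)) * a y := by
  have hA0 : 0 < A := by linarith
  have hs : ∀ z, Summable fun k => Pk lam ω U k a z := fun z =>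
    summable_of_sum_range_le (fun k => Pk_nonneg a0 k z) fun m => hG m z
  set w : V D → ℝ := fun z => ∑' k, Pk lam ω U k a z with hw
  have w1 : ∀ z, w z ≤ A * a z := fun z =>
    Real.tsum_le_of_sum_range_le (fun k => Pk_nonneg a0 k z) fun m => hG m z
  have w0 : ∀ z, a z ≤ w z := fun z =>
    (hs z).le_tsum 0 fun k _ => Pk_nonneg a0 k z
  have q0 : 0 ≤ 1 - 1 / A := by
    have : 1 / A ≤ 1 := (div_le_one hA0).2 hA
    linarith
  have step : ∀ z, Pu lam ω U w z ≤ (1 - 1 / A) * w z := by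
    intro z
    by_cases hz : z ∈ U
    · rw [Pu_of_mem hz]
      have e : w z = a z + Pf lam ω w z := tsum_mem hs hz
      have : 1 / A * w z ≤ a z := by
        rw [one_div, inv_mul_le_iff₀ hA0]; exact w1 z
      linarith
    · rw [Pu_of_not hz]; exact mul_nonneg q0 ((a0 z).trans (w0 z))
  have it : ∀ (m : ℕ) z, Pk lam ω U m w z ≤ (1 - 1 / A) ^ m * w z := by
    intro m
    induction m with
    | zero => intro z; simp
    | succ m ih =>
      intro z
      rw [Pk_succ']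
      refine (Pk_mono step m z).trans ?_
      rw [Pk_mul, pow_succ', mul_assoc]
      exact mul_le_mul_of_nonneg_left (ih z) q0
  have ex : (1 - 1 / A) ^ n ≤ exp (-(n / A)) := by
    have h1 : 1 - 1 / A ≤ exp (-(1 / A)) := by linarith [add_one_le_exp (-(1 / A))]
    calc (1 - 1 / A) ^ n ≤ exp (-(1 / A)) ^ n := pow_le_pow_left₀ q0 h1 n
      _ = exp (-(n / A)) := by rw [← exp_nat_mul]; congr 1; ring
  calc Pk lam ω U n a y ≤ Pk lam ω U n w y := Pk_mono w0 n y
    _ ≤ (1 - 1 / A) ^ n * w y := it n y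
    _ ≤ exp (-(n / A)) * (A * a y) :=
        mul_le_mul ex (w1 y) ((a0 y).trans (w0 y)) (exp_pos _).le
    _ = _ := by ring

end Gc

theorem gc : GCStmt := by
  intro D lam ω U v A hA hv hG0
  have hA0 : 0 < A := by linarith
  set a : V D → ℝ := (U : Set (V D)).indicator v with ha
  have a0 : ∀ y, 0 ≤ a y := fun y => Set.indicator_nonneg (fun z _ => (hv z).le) y
  have a1 : ∀ y, a y ≤ v y := fun y => Set.indicator_le_self' (fun z _ => (hv z).le) y
  have hG : ∀ n y, Gs lam ω U n a y ≤ A * a y := by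
    intro n y
    by_cases hy : y ∈ (U : Set (V D))
    · rw [show a y = v y from Set.indicator_of_mem hy _]; exact hG0 n y
    · have e : a y = 0 := Set.indicator_of_notMem hy _
      cases n with
      | zero => rw [Gs_zero, e, mul_zero]
      | succ n => rw [Gs_succ_not hy, e, mul_zero]
  have hd : ∀ (n : ℕ) y, Pk lam ω U n a y ≤ A * exp (-(n / A)) * v y := fun n y =>
    (Gc.decay hA a0 hG n y).trans (mul_le_mul_of_nonneg_left (a1 y) (by positivity))
  refine ⟨fun n y => ?_, hd, fun g => ?_, fun u hu hu0 y => ?_⟩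
  · refine (Gc.diag (fun k => Pk lam ω U k a y) (fun k => Pk_nonneg a0 k y) n).trans ?_
    have e : ∑ j ∈ range n, ∑ i ∈ range n, Pk lam ω U (j + i) a y =
        Gs lam ω U n (Gs lam ω U n a) y := by
      refine sum_congr rfl fun j _ => ?_
      simp only [Pk_add_apply]
      exact (Pk_sum (range n) (fun i => Pk lam ω U i a) j y).symm
    rw [e]
    refine (Gs_mono (hG n) n y).trans ?_
    rw [Gs_mul, sq, mul_assoc]
    exact mul_le_mul_of_nonneg_left (hG0 n y) hA0.le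
  · obtain ⟨M, -, hM⟩ := Gc.dom U hv (Pf lam ω g)
    have hs : ∀ y, Summable fun k => Pk lam ω U k g y := by
      intro y
      rw [← summable_nat_add_iff 1]
      refine Summable.of_norm_bounded (g := fun k => M * Pk lam ω U k a y)
        ((summable_of_sum_range_le (fun k => Pk_nonneg a0 k y) fun m => hG m y).mul_left M)
        fun k => ?_
      rw [Real.norm_eq_abs, Pk_succ', ← Pk_mul]
      exact abs_Pk_le hM k y
    exact ⟨fun y => ∑' k, Pk lam ω U k g y, fun y hy => Gc.tsum_mem hs (by simpa using hy),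
      fun y hy => Gc.tsum_not g (by simpa using hy)⟩
  · set b : V D → ℝ := (U : Set (V D)).indicator fun z => max (u z) 0 with hb
    obtain ⟨M, M0, hM⟩ := Gc.dom U hv fun z => max (u z) 0
    have b0 : ∀ z, 0 ≤ b z := fun z => Set.indicator_nonneg (fun z _ => le_max_right _ _) z
    have ub : ∀ z, u z ≤ b z := by
      intro z
      by_cases hz : z ∈ U
      · rw [show b z = max (u z) 0 from Set.indicator_of_mem (by simpa using hz) _]
        exact le_max_left _ _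
      · exact (hu0 z hz).trans (b0 z)
    have st : ∀ z, b z ≤ Pu lam ω U b z := by
      intro z
      by_cases hz : z ∈ (U : Set (V D))
      · rw [Pu_of_mem hz, show b z = max (u z) 0 from Set.indicator_of_mem hz _]
        exact max_le ((hu z (by simpa using hz)).trans (Pf_mono ub z)) (Pf_nonneg b0 z)
      · rw [Pu_of_not hz, show b z = 0 from Set.indicator_of_notMem hz _]
    have it : ∀ n : ℕ, b y ≤ Pk lam ω U n b y := by
      intro n
      induction n with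
      | zero => exact le_rfl
      | succ n ih => rw [Pk_succ']; exact ih.trans (Pk_mono st n y)
    have bd : ∀ n : ℕ, u y ≤ M * (A * exp (-(n / A)) * v y) := by
      intro n
      refine ((ub y).trans (it n)).trans ((Pk_mono (fun z => (le_abs_self _).trans (hM z)) n y).trans ?_)
      rw [Pk_mul]
      exact mul_le_mul_of_nonneg_left (hd n y) M0
    have lim : Filter.Tendsto (fun n : ℕ => M * (A * exp (-(n / A)) * v y)) Filter.atTop (nhds 0) := by
      have h1 : Filter.Tendsto (fun n : ℕ => exp (-((n : ℝ) / A))) Filter.atTop (nhds 0) :=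
        tendsto_exp_neg_atTop_nhds_zero.comp (tendsto_natCast_atTop_atTop.atTop_div_const hA0)
      simpa using ((h1.const_mul A).mul_const (v y)).const_mul M
    exact ge_of_tendsto' lim bd

end Pool.Agent.MP_8c549f_pr.L2

end

end Part3

-- ======== part 4: Hit
section Part4

/-! PROJECT L2: the probability to hit a set is bounded by the comparison function. -/

noncomputable section

namespace Pool.Agent.MP_8c549f_pr.L2

open MeasureTheory Finset Real Classical S3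

namespace Hit

variable {D : ℕ}

/-- the comparison function is nearly constant on a small ball -/
theorem wf_half {l m r : ℕ} {lam ξ : ℝ} {ψ : V D → ℝ} (hS : Sc l m lam) (h1 : ξ ≤ 1)
    (hψ : Lip ψ (ξ / l)) (hr : 16 * r ≤ l) {y z : V D} (hy : nrm (y - z) ≤ r) :
    wf lam ψ z / 2 ≤ wf lam ψ y := by
  have hl := hS.lpos
  have hr' : (16 : ℝ) * r ≤ l := by exact_mod_cast hr
  have hy' : (nrm (y - z) : ℝ) ≤ r := by exact_mod_cast hy
  have a1 : (y 0 : ℝ) - z 0 ≤ r := by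
    have h2 := (le_abs_self _).trans (abs_le_nrm (y - z) 0)
    rw [Pi.sub_apply] at h2
    have h3 : y 0 - z 0 ≤ (r : ℤ) := h2.trans (by exact_mod_cast hy)
    exact_mod_cast h3
  have a2 : lam * ((y 0 : ℝ) - z 0) ≤ 1 / 4 := by
    have := mul_le_mul_of_nonneg_left a1 hS.pos.le
    have h4 := mul_le_mul_of_nonneg_left hr' hS.pos.le
    nlinarith [hS.mul_le]
  have a3 : ξ / l * nrm (y - z) ≤ 1 / 16 := by
    rw [div_mul_eq_mul_div, div_le_iff₀ hl]
    have : ξ * nrm (y - z) ≤ 1 * r := mul_le_mul h1 hy' (by positivity) zero_le_one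
    linarith
  have a4 := (abs_le.1 ((hψ y z).trans a3)).1
  have a5 : wf lam ψ y = wf lam ψ z *
      exp (-(lam * (y 0 : ℝ)) + ψ y - (-(lam * (z 0 : ℝ)) + ψ z)) := by
    rw [wf, wf, ← exp_add]; congr 1; ring
  have a6 := add_one_le_exp (-(lam * (y 0 : ℝ)) + ψ y - (-(lam * (z 0 : ℝ)) + ψ z))
  have a7 : 0 < wf lam ψ z := exp_pos _
  rw [a5]
  nlinarith

/-- the walk that stays in a small ball collects the comparison function -/
theorem stay {lam : ℝ} {ω : Cfg D} {h r n : ℕ} {z : V D} {U : Set (V D)} {v : V D → ℝ} {c : ℝ}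
    (h1 : 1 ≤ h) (hz : Wide ω z h) (hc : 0 ≤ c) (hv : ∀ y, 0 ≤ v y)
    (hU : ∀ y, Wide ω y h → nrm (y - z) ≤ r → y ∈ U ∧ c ≤ v y)
    (hq : ∀ k < n, exq lam ω z r k z ≤ 1 / 2) :
    n * c / 2 ≤ Gs lam ω U n (U.indicator v) z := by
  have key : ∀ k ∈ range n, c / 2 ≤ Pk lam ω U k (U.indicator v) z := fun k hk => by
    have e1 := exit_add_eq (lam := lam) (ω := ω) (ball z r : Set (V D)) k z (wide_Zq h1 hz lam)
    have e2 := hq k (mem_range.1 hk)
    rw [exq] at e2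
    have e3 := Pk_mul (lam := lam) (ω := ω) (U := (ball z r : Set (V D))) c
      (chi (ball z r : Set (V D))) k z
    have e4 : Pk lam ω (ball z r : Set (V D)) k (fun y => c * chi (ball z r : Set (V D)) y) z =
        Pk lam ω (wb' ω h z r : Set (V D)) k (fun y => c * chi (wb' ω h z r : Set (V D)) y) z := by
      have e : ∀ y, Wide ω y h →
          (y ∈ (ball z r : Set (V D)) ↔ y ∈ (wb' ω h z r : Set (V D))) := fun y hy => by
        simp [mem_ball, mem_wb', hy]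
      refine Pk_wide hz k (fun y hy _ => e y hy) fun y hy _ => ?_
      by_cases m : y ∈ (ball z r : Set (V D))
      · rw [chi_of_mem m, chi_of_mem ((e y hy).1 m)]
      · rw [chi_of_not m, chi_of_not fun m' => m ((e y hy).2 m')]
    have e5 : Pk lam ω (wb' ω h z r : Set (V D)) k
        (fun y => c * chi (wb' ω h z r : Set (V D)) y) z ≤ Pk lam ω U k (U.indicator v) z := by
      have n1 : ∀ y, 0 ≤ U.indicator v y := fun y => Set.indicator_nonneg (fun y _ => hv y) y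
      refine (Pk_mono (fun y => ?_) k z).trans (Pk_dom (fun y hy => ?_) n1 k z)
      · by_cases m : y ∈ (wb' ω h z r : Set (V D))
        · have m' := mem_wb'.1 (mem_coe.1 m)
          rw [chi_of_mem m, mul_one, Set.indicator_of_mem (hU y m'.2 m'.1).1]
          exact (hU y m'.2 m'.1).2
        · rw [chi_of_not m, mul_zero]; exact n1 y
      · have m' := mem_wb'.1 (mem_coe.1 hy)
        exact (hU y m'.2 m'.1).1
    nlinarith
  have := card_nsmul_le_sum (range n) _ _ key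
  rw [card_range, nsmul_eq_mul] at this
  rw [Gs]; linarith

end Hit

theorem hit (hG : GBStmt) (hE : EXStmt) : HITStmt := by
  intro D
  obtain ⟨ξ, CG, lG, x0, x1, hCG, hG⟩ := hG D
  obtain ⟨CE, M, hCE, hM, hE⟩ := hE D
  obtain ⟨E, hE1⟩ := exists_nat_ge (2 * CE)
  have hE2 : (1 : ℝ) ≤ E := by linarith
  have hE3 : 1 ≤ E := by exact_mod_cast hE2
  refine ⟨ξ, 8192 * E * CG, max lG (max ((1024 * M) ^ 6) (16 * E)), x0, x1, by nlinarith, ?_⟩
  intro ω R m h δ rep w hg l lam hl hS x A Z ψ n b hx hR hAZ hψ hb hZ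
  have l1 : lG ≤ l := (le_max_left _ _).trans hl
  have l2 : (1024 * M) ^ 6 ≤ l := (le_max_left _ _).trans ((le_max_right _ _).trans hl)
  have l3 : 16 * E ≤ l := (le_max_right _ _).trans ((le_max_right _ _).trans hl)
  have l4 := hS.l16
  obtain ⟨r, hr⟩ : ∃ r, r = l / 16 := ⟨_, rfl⟩
  have r1 : 16 * r ≤ l := by omega
  have r2 : l ≤ 32 * r := by omega
  have r3 : E ≤ r := by omega
  obtain ⟨n0, hn0⟩ : ∃ n0, n0 = r ^ 2 / E := ⟨_, rfl⟩
  have n1 : n0 * E ≤ r ^ 2 := hn0 ▸ Nat.div_mul_le_self _ _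
  have n2 : r ^ 2 < (n0 + 1) * E := by
    rw [hn0, mul_comm]; exact Nat.lt_mul_div_succ _ (by omega)
  have n3 : 1 ≤ n0 := by
    rw [hn0]; exact Nat.div_pos (by nlinarith) (by omega)
  have n4 : l ^ 2 ≤ 2048 * E * n0 := by nlinarith
  have m1 : M * m ^ 9 ≤ r ^ 2 := by
    have a1 := hS.big l2
    have a2 := hS.m8
    have a3 : m ≤ m ^ 5 := Nat.le_self_pow (by norm_num) m
    have a4 : 1024 * M * m ≤ l := (Nat.mul_le_mul_left _ a3).trans a1
    have a5 : 1024 * M * m * m ^ 8 ≤ l * l := Nat.mul_le_mul a4 a2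
    have a6 : l * l ≤ 32 * r * (32 * r) := Nat.mul_le_mul r2 r2
    have a7 : 1024 * (M * m ^ 9) ≤ 1024 * r ^ 2 := by
      calc 1024 * (M * m ^ 9) = 1024 * M * m * m ^ 8 := by ring
        _ ≤ 32 * r * (32 * r) := a5.trans a6
        _ = 1024 * r ^ 2 := by ring
    omega
  have rpos : (0 : ℝ) < r := by exact_mod_cast (show 0 < r by omega)
  have lpos := hS.lpos
  have vpos : ∀ y, 0 < wf lam ψ y := fun y => exp_pos _
  set U : Finset (V D) := wb' ω h x (n + l) with hU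
  have tri : ∀ y : V D, nrm y ≤ nrm (y - x) + nrm x := fun y => by
    simpa using nrm_add_le (y - x) x
  have g1 := hG ω R m h δ rep w hg l lam l1 hS U ψ (fun y hy => by
    have := mem_wb'.1 hy
    exact ⟨this.2, by have := tri y; omega⟩) hψ (n + n0) x
  have low : ∀ z ∈ Z ∩ (wb' ω h x n : Set (V D)), n0 * (b / 2) / 2 ≤
      Gs lam ω U n0 ((U : Set (V D)).indicator (wf lam ψ)) z := fun z hz => by
    have hz' := mem_wb'.1 (mem_coe.1 hz.2)
    refine Hit.stay (r := r) hg.h1 hz'.2 (by positivity) (fun y => (vpos y).le)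
      (fun y hy hyz => ⟨mem_coe.2 (mem_wb'.2 ⟨?_, hy⟩), ?_⟩) fun k hk => ?_
    · have := nrm_tri y z x; omega
    · linarith [Hit.wf_half hS x1 hψ r1 hyz, hZ z hz.1]
    · have b1 : lam * r ≤ 4 := by
        have : (r : ℝ) ≤ l := by exact_mod_cast (show r ≤ l by omega)
        nlinarith [hS.mul_le, hS.pos]
      have b2 : k * E ≤ r ^ 2 := (Nat.mul_le_mul_right _ hk.le).trans n1
      have b3 : M * m ^ 9 * k ≤ r ^ 4 := by
        calc M * m ^ 9 * k ≤ r ^ 2 * r ^ 2 := Nat.mul_le_mul m1 (by nlinarith)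
          _ = r ^ 4 := by ring
      refine (hE ω R m h δ rep w hg lam z r k hS.pos.le (by linarith [hS.le_quarter]) b1
        (by have := tri z; omega) hz'.2 (by omega) b3).trans ?_
      rw [div_le_iff₀ (by positivity)]
      have b4 : (k : ℝ) * E ≤ (r : ℝ) ^ 2 := by exact_mod_cast b2
      have b5 : (0 : ℝ) ≤ k := Nat.cast_nonneg k
      nlinarith
  have e1 : Gs lam ω A (n + 1) (chi Z) x =
      Gs lam ω (A ∩ U) (n + 1) (chi (Z ∩ (wb' ω h x n : Set (V D)))) x := by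
    refine sum_congr rfl fun k hk => ?_
    have hk' := mem_range.1 hk
    refine Pk_wide hx k (fun y hy hyx => ⟨fun a => ⟨a, mem_coe.2 (mem_wb'.2 ⟨by omega, hy⟩)⟩,
      fun a => a.1⟩) fun y hy hyx => ?_
    by_cases a : y ∈ Z
    · rw [chi_of_mem a, chi_of_mem (U := Z ∩ (wb' ω h x n : Set (V D)))
        ⟨a, mem_coe.2 (mem_wb'.2 ⟨by omega, hy⟩)⟩]
    · rw [chi_of_not a, chi_of_not (U := Z ∩ (wb' ω h x n : Set (V D))) fun a' => a a'.1]
  have f0 : ∀ y, 0 ≤ (U : Set (V D)).indicator (wf lam ψ) y := fun y =>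
    Set.indicator_nonneg (fun y _ => (vpos y).le) y
  have e2 := Gs_markov (lam := lam) (ω := ω) (U := (U : Set (V D))) (A := A ∩ U)
    (Z := Z ∩ (wb' ω h x n : Set (V D))) Set.inter_subset_right
    (hAZ.mono Set.inter_subset_left Set.inter_subset_left) f0 n0 n x
  have e3 := Gs_mul (lam := lam) (ω := ω) (U := A ∩ U) (n0 * (b / 2) / 2)
    (chi (Z ∩ (wb' ω h x n : Set (V D)))) (n + 1) x
  have e4 : Gs lam ω (A ∩ U) (n + 1)
      (fun y => n0 * (b / 2) / 2 * chi (Z ∩ (wb' ω h x n : Set (V D))) y) x ≤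
      Gs lam ω (A ∩ U) (n + 1) ((Z ∩ (wb' ω h x n : Set (V D))).indicator
        (Gs lam ω U n0 ((U : Set (V D)).indicator (wf lam ψ)))) x := by
    refine Gs_mono (fun y => ?_) _ _
    by_cases a : y ∈ Z ∩ (wb' ω h x n : Set (V D))
    · rw [chi_of_mem a, mul_one, Set.indicator_of_mem a]; exact low y a
    · rw [chi_of_not a, mul_zero, Set.indicator_of_notMem a]
  rw [e3, ← e1] at e4
  have e5 := e4.trans (e2.trans g1)
  have n5 : (l : ℝ) ^ 2 ≤ 2048 * E * n0 := by exact_mod_cast n4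
  have n6 : (0 : ℝ) < n0 := by exact_mod_cast n3
  rw [le_div_iff₀ hb]
  have e6 : CG * (l : ℝ) ^ 2 * wf lam ψ x ≤ CG * (2048 * E * n0) * wf lam ψ x :=
    mul_le_mul_of_nonneg_right (mul_le_mul_of_nonneg_left n5 (by linarith)) (vpos x).le
  refine le_of_mul_le_mul_left ?_ n6
  nlinarith

end Pool.Agent.MP_8c549f_pr.L2

end

end Part4

-- ======== part 5: Sur
section Part5

/-! PROJECT L2: survival below a level. -/

noncomputable section

namespace Pool.Agent.MP_8c549f_pr.L2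

open MeasureTheory Finset Real Classical S3

theorem sur (hG : GBStmt) (hC : GCStmt) : SURStmt := by
  intro D
  obtain ⟨ξ, C, l₀, hξ, -, hC1, hGB⟩ := hG D
  refine ⟨C ^ 2, l₀, one_le_pow₀ hC1, ?_⟩
  intro ω R m h δ rep w hgeo l lam hl hs x U L n hx hR hU
  set U' : Finset (V D) := (wb' ω h x n).filter fun y => y ∈ U with hU'
  set v : V D → ℝ := fun y => exp (lam * (L - y 0 : ℤ)) with hv
  have hl1 : (1 : ℝ) ≤ l := by
    have : (16 : ℝ) ≤ l := by exact_mod_cast hs.l16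
    linarith
  have hl2 : (1 : ℝ) ≤ (l : ℝ) ^ 2 := one_le_pow₀ hl1
  have hA : 1 ≤ C * (l : ℝ) ^ 2 := one_le_mul_of_one_le_of_one_le hC1 hl2
  have hvw : ∀ y, v y = exp (lam * L) * wf lam (fun _ => 0) y := by
    intro y
    simp only [hv, wf, ← exp_add]
    congr 1
    push_cast
    ring
  have hmem : ∀ y ∈ U', Wide ω y h ∧ nrm y + l ≤ R := by
    intro y hy
    obtain ⟨h1, h2⟩ := mem_wb'.1 (mem_filter.1 hy).1
    refine ⟨h2, ?_⟩
    have h3 := nrm_add_le (y - x) x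
    rw [sub_add_cancel] at h3
    omega
  have hlip : Lip (fun _ : V D => (0 : ℝ)) (ξ / l) := by
    intro y z
    have := hs.lpos
    simp only [sub_self, abs_zero]
    positivity
  have hgs : ∀ k y, Gs lam ω U' k ((U' : Set (V D)).indicator v) y ≤ C * (l : ℝ) ^ 2 * v y := by
    intro k y
    have e : (U' : Set (V D)).indicator v =
        fun y => exp (lam * L) * (U' : Set (V D)).indicator (wf lam fun _ => 0) y := by
      funext z
      by_cases hz : z ∈ (U' : Set (V D))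
      · rw [Set.indicator_of_mem hz, Set.indicator_of_mem hz, hvw]
      · rw [Set.indicator_of_notMem hz, Set.indicator_of_notMem hz, mul_zero]
    rw [e, Gs_mul, hvw, mul_left_comm]
    exact mul_le_mul_of_nonneg_left (hGB ω R m h δ rep w hgeo l lam hl hs U' _ hmem hlip k y)
      (exp_pos _).le
  obtain ⟨g1, g2, -, -⟩ := hC D lam ω U' v _ hA (fun y => exp_pos _) hgs
  have hiff : ∀ y, Wide ω y h → nrm (y - x) ≤ n → (y ∈ U ↔ y ∈ (U' : Set (V D))) := by
    intro y h1 h2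
    simp only [hU', coe_filter, Set.mem_ofPred_eq, mem_wb']
    exact ⟨fun h3 => ⟨⟨h2, h1⟩, h3⟩, fun h3 => h3.2⟩
  have hloc : ∀ k ≤ n, Pk lam ω U k (U.indicator v) x =
      Pk lam ω U' k ((U' : Set (V D)).indicator v) x := by
    intro k hk
    refine Pk_wide hx k (fun y h1 h2 => hiff y h1 (h2.trans hk)) fun y h1 h2 => ?_
    by_cases hy : y ∈ U
    · rw [Set.indicator_of_mem hy, Set.indicator_of_mem ((hiff y h1 (h2.trans hk)).1 hy)]
    · rw [Set.indicator_of_notMem hy,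
        Set.indicator_of_notMem fun h3 => hy ((hiff y h1 (h2.trans hk)).2 h3)]
  have hCC : C * (l : ℝ) ^ 2 ≤ C ^ 2 * (l : ℝ) ^ 2 :=
    mul_le_mul_of_nonneg_right (by nlinarith) (by linarith)
  constructor
  · rw [hloc n le_rfl]
    refine (g2 n x).trans (mul_le_mul_of_nonneg_right ?_ (exp_pos _).le)
    refine mul_le_mul hCC (exp_le_exp.2 (neg_le_neg ?_)) (exp_pos _).le (by linarith)
    exact div_le_div_of_nonneg_left (Nat.cast_nonneg n) (by linarith) hCC
  · have h1 : ∀ y, chi U y ≤ U.indicator v y := by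
      intro y
      by_cases hy : y ∈ U
      · rw [chi_of_mem hy, Set.indicator_of_mem hy]
        refine one_le_exp (mul_nonneg hs.pos.le ?_)
        have := hU y hy
        exact_mod_cast (by omega : (0 : ℤ) ≤ L - y 0)
      · rw [chi_of_not hy, Set.indicator_of_notMem hy]
    refine le_trans (sum_le_sum fun k hk => ?_) ((g1 (n + 1) x).trans (le_of_eq (by ring)))
    rw [← hloc k (Nat.lt_succ_iff.1 (mem_range.1 hk))]
    exact mul_le_mul_of_nonneg_left (Pk_mono h1 k x) (by positivity)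

end Pool.Agent.MP_8c549f_pr.L2

end

end Part5

-- ======== part 6: Hm
section Part6

/-! PROJECT L2, row Hm: the drift defect is small in the dual energy norm. -/

noncomputable section

namespace Pool.Agent.MP_8c549f_pr.L2

open MeasureTheory Finset Real Classical S3

namespace Hm

variable {D : ℕ} {lam : ℝ} {ω : Cfg D}

theorem sum_shift (T : Finset (V D)) (g : V D → ℝ) (v : V D)
    (h : ∀ z, g z ≠ 0 → z ∈ T ∧ z - v ∈ T) : ∑ z ∈ T, g (z + v) = ∑ z ∈ T, g z := by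
  refine sum_bij_ne_zero (fun z _ _ => z + v) (fun z _ hz => (h _ hz).1)
    (fun a _ _ b _ _ e => add_right_cancel e) (fun z _ hz => ?_) fun _ _ _ => rfl
  exact ⟨z - v, (h z hz).2, by simpa using hz, by simp⟩

theorem pim_dr (y : V D) :
    pim lam ω y * dr lam ω y = cnd lam ω y (fwd D) - cnd lam ω (y - Pi.single 0 1) (fwd D) := by
  have h1 : cnd lam ω y (bck D) = cnd lam ω (y - Pi.single 0 1) (fwd D) := by
    have e1 : edge y (bck D) = edge (y - Pi.single 0 1) (fwd D) := by simp [edge, fwd, bck]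
    have e2 : expo y (bck D) = expo (y - Pi.single 0 1) (fwd D) := by
      simp only [expo, vec_fwd_zero, vec_bck_zero, Pi.sub_apply, Pi.single_eq_same]; ring
    rw [cnd, cnd, e1, e2]
  rw [dr, mul_sum]
  simp only [← mul_assoc, pim_pr]
  rw [sum_step, h1]
  simp [vec_side_zero, sub_eq_add_neg]

theorem cnd_fwd (z : V D) : cnd lam ω z (fwd D) =
    if ω (edge z (fwd D)) = true then exp (2 * lam * (z 0 : ℝ)) * exp lam else 0 := by
  rw [cnd, ← exp_add, expo, vec_fwd_zero]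
  congr 2; push_cast; ring

/-- the defect at one site -/
def Rz (lam : ℝ) (ω : Cfg D) (φ ψ : V D → ℝ) (z : V D) : ℝ :=
  (cnd lam ω z (fwd D) * (φ z - φ (z + Pi.single 0 1)) -
    exp (2 * lam * (z 0 : ℝ)) * exp lam * (ψ z - ψ (z + Pi.single 0 1))) -
  d0 D lam * (pim lam ω z * φ z - Zf D lam * exp (2 * lam * (z 0 : ℝ)) * ψ z)

theorem sum_Rz (T : Finset (V D)) (φ ψ : V D → ℝ)
    (hφ : ∀ z, φ z ≠ 0 → z ∈ T ∧ z - Pi.single 0 1 ∈ T)
    (hψ : ∀ z, ψ z ≠ 0 → z ∈ T ∧ z - Pi.single 0 1 ∈ T) :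
    ∑ y ∈ T, pim lam ω y * φ y * (dr lam ω y - d0 D lam) = ∑ z ∈ T, Rz lam ω φ ψ z := by
  have h1 := sum_shift T (fun y => cnd lam ω (y - Pi.single 0 1) (fwd D) * φ y) (Pi.single 0 1)
    fun z hz => hφ z (right_ne_zero_of_mul hz)
  have h2 := sum_shift T (fun y => exp (2 * lam * (y 0 : ℝ)) * exp (-lam) * ψ y) (Pi.single 0 1)
    fun z hz => hψ z (right_ne_zero_of_mul hz)
  have e2 : ∀ z : V D, exp (2 * lam * (((z + Pi.single 0 1 : V D) 0 : ℤ) : ℝ)) * exp (-lam) =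
      exp (2 * lam * (z 0 : ℝ)) * exp lam := fun z => by
    rw [← exp_add, ← exp_add]; congr 1
    simp only [Pi.add_apply, Pi.single_eq_same]; push_cast; ring
  have e3 : d0 D lam * Zf D lam = exp lam - exp (-lam) := div_mul_cancel₀ _ (Zf_pos D lam).ne'
  simp only [add_sub_cancel_right, e2] at h1 h2
  have h3 : ∀ z, Rz lam ω φ ψ z = pim lam ω z * φ z * (dr lam ω z - d0 D lam) +
      (cnd lam ω (z - Pi.single 0 1) (fwd D) * φ z - cnd lam ω z (fwd D) * φ (z + Pi.single 0 1)) +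
      (exp (2 * lam * (z 0 : ℝ)) * exp lam * ψ (z + Pi.single 0 1) -
        exp (2 * lam * (z 0 : ℝ)) * exp (-lam) * ψ z) := fun z => by
    have := pim_dr (lam := lam) (ω := ω) z
    rw [Rz]
    linear_combination (-φ z) * this + exp (2 * lam * (z 0 : ℝ)) * ψ z * e3
  simp only [h3, sum_add_distrib, sum_sub_distrib, h1, h2, sub_self, add_zero]

theorem Rz_zero {φ ψ : V D → ℝ} {z : V D} (h1 : φ z = ψ z)
    (h2 : φ (z + Pi.single 0 1) = ψ (z + Pi.single 0 1)) (ho : ∀ s, ω (edge z s) = true) :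
    Rz lam ω φ ψ z = 0 := by
  have : Zq lam ω z = Zf D lam := by simp [Zq, ho, sum_wt]
  rw [Rz, cnd_fwd, if_pos (ho _), pim, this, h1, h2]; ring

theorem abs_Rz {φ ψ : V D → ℝ} {h : ℕ} (hd : 0 ≤ d0 D lam) (h1 : ∀ z, Wide ω z h → φ z = ψ z)
    (h2 : ∀ z, ¬ Wide ω z h → φ z = 0) (z : V D) :
    |Rz lam ω φ ψ z| ≤ exp (2 * lam * (z 0 : ℝ)) *
      (exp lam * |ψ z - ψ (z + Pi.single 0 1)| + d0 D lam * Zf D lam * |ψ z|) := by
  have hE := exp_pos (2 * lam * (z 0 : ℝ))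
  have hl := exp_pos lam
  have a1 : |cnd lam ω z (fwd D) * (φ z - φ (z + Pi.single 0 1)) -
      exp (2 * lam * (z 0 : ℝ)) * exp lam * (ψ z - ψ (z + Pi.single 0 1))| ≤
      exp (2 * lam * (z 0 : ℝ)) * exp lam * |ψ z - ψ (z + Pi.single 0 1)| := by
    have b : |(0 : ℝ) - exp (2 * lam * (z 0 : ℝ)) * exp lam * (ψ z - ψ (z + Pi.single 0 1))| ≤
        exp (2 * lam * (z 0 : ℝ)) * exp lam * |ψ z - ψ (z + Pi.single 0 1)| := by
      rw [zero_sub, abs_neg, abs_mul, abs_of_pos (mul_pos hE hl)]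
    rw [cnd_fwd]
    split_ifs with ho
    · have hc : Conn ω z (z + Pi.single 0 1) := by simpa [vec_fwd] using Conn.step ho
      by_cases hw : Wide ω z h
      · rw [h1 z hw, h1 _ (hw.of_conn hc), sub_self, abs_zero]; positivity
      · rw [h2 z hw, h2 _ fun hw' => hw (hw'.of_conn hc.symm), sub_self, mul_zero]; exact b
    · rw [zero_mul]; exact b
  have a2 : |pim lam ω z * φ z - Zf D lam * exp (2 * lam * (z 0 : ℝ)) * ψ z| ≤
      Zf D lam * exp (2 * lam * (z 0 : ℝ)) * |ψ z| := by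
    have z0 := Zq_nonneg lam ω z
    have z1 := Zq_le_Zf lam ω z
    by_cases hw : Wide ω z h
    · rw [h1 z hw, ← sub_mul, abs_mul, pim]
      refine mul_le_mul_of_nonneg_right (abs_le.2 ⟨?_, ?_⟩) (abs_nonneg _) <;> nlinarith
    · rw [h2 z hw, mul_zero, zero_sub, abs_neg, abs_mul,
        abs_of_pos (mul_pos (Zf_pos D lam) hE)]
  rw [Rz]
  refine (abs_sub _ _).trans ?_
  rw [abs_mul (d0 D lam), abs_of_nonneg hd]
  nlinarith [mul_le_mul_of_nonneg_left a2 hd]

theorem et_step {ζ : ℝ} (h0 : 0 ≤ ζ) (h1 : ζ ≤ 1) (x z : V D) :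
    et ζ x (z + Pi.single 0 1) ≤ 3 * et ζ x z ∧
      |et ζ x z - et ζ x (z + Pi.single 0 1)| ≤ 2 * ζ * et ζ x z := by
  have a1 : nrm (z + Pi.single 0 1 - x) ≤ nrm (z - x) + 1 := by
    simpa [vec_fwd] using nrm_step z x (fwd D)
  have a2 : nrm (z - x) ≤ nrm (z + Pi.single 0 1 - x) + 1 := by
    have := nrm_step (z + Pi.single 0 1) x (bck D)
    rwa [vec_bck, add_neg_cancel_right] at this
  have b1 : (nrm (z + Pi.single 0 1 - x) : ℝ) ≤ nrm (z - x) + 1 := by exact_mod_cast a1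
  have b2 : (nrm (z - x) : ℝ) ≤ nrm (z + Pi.single 0 1 - x) + 1 := by exact_mod_cast a2
  set t : ℝ := ζ * ((nrm (z - x) : ℝ) - nrm (z + Pi.single 0 1 - x)) with ht
  have hta : |t| ≤ ζ := by
    rw [ht, abs_mul, abs_of_nonneg h0]
    exact mul_le_of_le_one_right h0 (abs_le.2 ⟨by linarith, by linarith⟩)
  have e : et ζ x (z + Pi.single 0 1) = et ζ x z * exp t := by
    rw [et, et, ← exp_add]; congr 1; rw [ht]; ring
  have hp : 0 < et ζ x z := exp_pos _
  have c := Real.abs_exp_sub_one_le (hta.trans h1)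
  have c' := abs_le.1 c
  rw [e]
  refine ⟨by nlinarith, ?_⟩
  rw [← mul_one_sub, abs_mul, abs_of_pos hp, abs_sub_comm]
  nlinarith

theorem sq_aux {E EL η w a b c r : ℝ} (hE : 0 ≤ E) (hEL : E ≤ EL) (h0 : 0 ≤ η) (h1 : η ≤ 1)
    (hw : 2 ≤ w) (hr : |r| ≤ E * (η * (9 * |a| + c * |b|))) :
    r ^ 2 ≤ 2 * EL * (η * (w - 1)) * (162 * (E * a ^ 2 / w) + 2 * c ^ 2 * (E * b ^ 2)) := by
  have hw0 : 0 < w := by linarith
  have s1 : r ^ 2 ≤ (E * (η * (9 * |a| + c * |b|))) ^ 2 := by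
    rw [← sq_abs r]; exact pow_le_pow_left₀ (abs_nonneg _) hr 2
  have s2 : (9 * |a| + c * |b|) ^ 2 ≤ 162 * a ^ 2 + 2 * c ^ 2 * b ^ 2 := by
    rw [← sq_abs a, ← sq_abs b]; nlinarith [sq_nonneg (9 * |a| - c * |b|)]
  have s3 : E * (162 * a ^ 2 + 2 * c ^ 2 * b ^ 2) ≤
      w * (162 * (E * a ^ 2 / w) + 2 * c ^ 2 * (E * b ^ 2)) := by
    have e : w * (162 * (E * a ^ 2 / w)) = 162 * (E * a ^ 2) := by field_simp
    have : 0 ≤ 2 * c ^ 2 * (E * b ^ 2) := by positivity
    rw [mul_add w, e]; nlinarith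
  have q0 : 0 ≤ 162 * (E * a ^ 2 / w) + 2 * c ^ 2 * (E * b ^ 2) := by positivity
  have s4 : E * η ^ 2 * w ≤ 2 * EL * (η * (w - 1)) := by
    have t1 : η ^ 2 ≤ η := by nlinarith
    calc E * η ^ 2 * w ≤ EL * η * (2 * (w - 1)) :=
          mul_le_mul (mul_le_mul hEL t1 (sq_nonneg _) (hE.trans hEL)) (by linarith) hw0.le
            (mul_nonneg (hE.trans hEL) h0)
      _ = _ := by ring
  calc r ^ 2 ≤ E * η ^ 2 * (E * (9 * |a| + c * |b|) ^ 2) := s1.trans (le_of_eq (by ring))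
    _ ≤ E * η ^ 2 * (w * (162 * (E * a ^ 2 / w) + 2 * c ^ 2 * (E * b ^ 2))) :=
        mul_le_mul_of_nonneg_left ((mul_le_mul_of_nonneg_left s2 hE).trans s3) (by positivity)
    _ = E * η ^ 2 * w * (162 * (E * a ^ 2 / w) + 2 * c ^ 2 * (E * b ^ 2)) := by ring
    _ ≤ _ := mul_le_mul_of_nonneg_right s4 q0

end Hm

open Hm in
theorem hm (hH : HDStmt) (hT : THStmt) (hD : D0Stmt) : HMStmt := by
  intro D ξ ξ0 ξ1
  obtain ⟨K, K1, hK⟩ := hH D
  obtain ⟨CT, C1, hC⟩ := hT D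
  set M : ℝ := 2 * CT / ξ ^ (D + 1) * ((162 + 2 * (2 * D + 10) ^ 2) * K) with hM
  have M0 : 0 ≤ M := by positivity
  refine ⟨M + 1, by linarith, ?_⟩
  intro ω R m h δ rep w G l lam S f Q x L hf hs
  have l0 := S.lpos
  have lam0 := S.pos
  have lam4 := S.le_quarter
  have m16 := S.m16
  have l16 := S.l16
  have hm' := G.hm
  have h1' := G.h1
  have ml : (16 : ℝ) * m ≤ l := by exact_mod_cast m16
  have m0 : (0 : ℝ) ≤ m := Nat.cast_nonneg _
  set ζ : ℝ := ξ / l with hζ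
  have ζ0 : 0 < ζ := div_pos ξ0 l0
  have ζl : ζ ≤ lam := (div_le_div_of_nonneg_right ξ1 l0.le).trans S.lo
  have lm : lam * m ≤ 1 := by nlinarith [S.mul_le]
  obtain ⟨k1, k2, -⟩ := hK ω R m h δ rep w G lam f Q lam0 lm
    (fun y hy => by have := (hf y hy).2.1; omega) hs
  set T : Finset (V D) := Q.biUnion fun y => ball y (h + 1) with hTd
  have hT2 := (hC ζ x T ζ0 (by linarith)).2 m δ w (by omega) G.d0 (by nlinarith) G.w1 G.seg
  have hsing : nrm (Pi.single 0 1 : V D) = 1 := by simpa using nrm_single (D := D) 0 1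
  have hF : ∀ z, f (rep z) ≠ 0 → (z ∈ T ∧ z - Pi.single 0 1 ∈ T) ∧ nrm z + 1 ≤ R ∧ z 0 < L := by
    intro z hz
    have n1 : nrm (z - rep z) ≤ h := by rw [nrm_sub_comm]; exact G.near z
    have n2 : nrm (z - Pi.single 0 1 - rep z) ≤ h + 1 := by
      rw [sub_right_comm]; exact (nrm_sub_le _ _).trans (by omega)
    have n3 : nrm z ≤ nrm (z - rep z) + nrm (rep z) := by simpa using nrm_add_le (z - rep z) (rep z)
    have n4 := (hf _ hz).2.1
    refine ⟨⟨mem_biUnion.2 ⟨_, (hs _ hz).1, mem_ball.2 (by omega)⟩,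
      mem_biUnion.2 ⟨_, (hs _ hz).1, mem_ball.2 n2⟩⟩, by omega, ?_⟩
    rw [← G.lev z]; exact (hf _ hz).2.2
  set φ : V D → ℝ := fun y => et ζ x y * f y with hφ
  set ψ : V D → ℝ := fun y => et ζ x y * f (rep y) with hψ
  have p1 : ∀ z, Wide ω z h → φ z = ψ z := fun z hz => by simp only [hφ, hψ, G.fix z hz]
  have p2 : ∀ z, ¬ Wide ω z h → φ z = 0 := fun z hz => by
    have : f z = 0 := by_contra fun hn => hz (hf z hn).1
    simp only [hφ, this, mul_zero]
  have e1 : ∑ y ∈ Q, pim lam ω y * φ y * (dr lam ω y - d0 D lam) = ∑ z ∈ T, Rz lam ω φ ψ z := by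
    rw [← sum_Rz T φ ψ (fun z hz => ?_) fun z hz => (hF z (right_ne_zero_of_mul hz)).1]
    · refine sum_subset (fun y hy => mem_biUnion.2 ⟨y, hy, self_mem_ball _ _⟩) fun y _ hy => ?_
      have : f y = 0 := by_contra fun hn => hy (hs y hn).1
      simp only [hφ, this, mul_zero, zero_mul]
    · have hz' : f z ≠ 0 := right_ne_zero_of_mul hz
      exact (hF z (by rwa [G.fix z (hf z hz').1])).1
  obtain ⟨d1, d2⟩ := (hD D).2.1 lam lam0.le
  have Z1 : Zf D lam ≤ 2 * D + 4 := Zf_le lam0.le (by linarith)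
  have dZ : d0 D lam * Zf D lam ≤ lam * (2 * D + 4) := mul_le_mul d2 Z1 (Zf_pos D lam).le lam0.le
  have el : exp lam ≤ 3 := (exp_le_exp.2 (by linarith : lam ≤ 1)).trans
    (Real.exp_one_lt_d9.le.trans (by norm_num))
  set c : ℝ := (2 * D + 10) * lam with hc
  have key : ∀ z, Rz lam ω φ ψ z ^ 2 ≤ 2 * exp (2 * lam * L) * (et ζ x z * (w z - 1)) *
      (162 * (exp (2 * lam * (z 0 : ℝ)) * (f (rep (z + Pi.single 0 1)) - f (rep z)) ^ 2 / w z) +
        2 * c ^ 2 * (exp (2 * lam * (z 0 : ℝ)) * f (rep z) ^ 2)) := by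
    intro z
    have w1 := G.w1 z
    have η0 : 0 < et ζ x z := exp_pos _
    have triv : Rz lam ω φ ψ z = 0 → Rz lam ω φ ψ z ^ 2 ≤
        2 * exp (2 * lam * L) * (et ζ x z * (w z - 1)) *
        (162 * (exp (2 * lam * (z 0 : ℝ)) * (f (rep (z + Pi.single 0 1)) - f (rep z)) ^ 2 / w z) +
          2 * c ^ 2 * (exp (2 * lam * (z 0 : ℝ)) * f (rep z) ^ 2)) := fun h0 => by
      have : 0 ≤ w z - 1 := by linarith
      have : 0 < w z := by linarith
      rw [h0, zero_pow two_ne_zero]; positivity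
    have ab := abs_Rz (lam := lam) d1 p1 p2 z
    by_cases hz : nrm z ≤ R ∧ z 0 < L
    · by_cases hw : w z < 2
      · obtain ⟨g1, g2⟩ := G.nml z hz.1 hw
        refine triv (Rz_zero (p1 z g1) (p1 _ ?_) g2)
        simpa [vec_fwd] using wide_step g1 (g2 (fwd D))
      · obtain ⟨s1, s2⟩ := et_step ζ0.le (by linarith) x z
        have zL : (z 0 : ℝ) ≤ L := by exact_mod_cast hz.2.le
        refine sq_aux (exp_pos _).le (exp_le_exp.2 (by nlinarith)) η0.le
          (exp_le_one_iff.2 (neg_nonpos.2 (by positivity))) (not_lt.1 hw) (ab.trans ?_)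
        refine mul_le_mul_of_nonneg_left ?_ (exp_pos _).le
        have η1 : 0 < et ζ x (z + Pi.single 0 1) := exp_pos _
        have A0 := abs_nonneg (f (rep (z + Pi.single 0 1)) - f (rep z))
        have B0 := abs_nonneg (f (rep z))
        have g1 : |ψ z - ψ (z + Pi.single 0 1)| ≤ et ζ x z *
            (3 * |f (rep (z + Pi.single 0 1)) - f (rep z)| + 2 * lam * |f (rep z)|) := by
          have e : ψ z - ψ (z + Pi.single 0 1) =
              (et ζ x z - et ζ x (z + Pi.single 0 1)) * f (rep z) -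
                et ζ x (z + Pi.single 0 1) * (f (rep (z + Pi.single 0 1)) - f (rep z)) := by
            simp only [hψ]; ring
          rw [e]
          refine (abs_sub _ _).trans ?_
          rw [abs_mul, abs_mul, abs_of_pos η1]
          have t1 := mul_le_mul_of_nonneg_right s1 A0
          have t2 := mul_le_mul_of_nonneg_right
            (s2.trans (mul_le_mul_of_nonneg_right (by linarith : 2 * ζ ≤ 2 * lam) η0.le)) B0
          linarith
        have g2 : |ψ z| = et ζ x z * |f (rep z)| := by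
          simp only [hψ]; rw [abs_mul, abs_of_pos η0]
        have t3 := mul_le_mul el g1 (abs_nonneg _) (by norm_num)
        have t4 := mul_le_mul_of_nonneg_right dZ (abs_nonneg (ψ z))
        rw [g2] at t4 ⊢
        rw [hc]; linarith
    · have f1 : f (rep z) = 0 := by_contra fun hn => hz ⟨by have := (hF z hn).2.1; omega, (hF z hn).2.2⟩
      have f2 : f (rep (z + Pi.single 0 1)) = 0 := by_contra fun hn => hz <| by
        obtain ⟨-, u1, u2⟩ := hF _ hn
        have := nrm_sub_le (z + Pi.single 0 1) (Pi.single 0 1)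
        rw [add_sub_cancel_right] at this
        simp only [Pi.add_apply, Pi.single_eq_same] at u2
        exact ⟨by omega, by omega⟩
      refine triv (abs_nonpos_iff.1 (ab.trans (le_of_eq ?_)))
      simp only [hψ, f1, f2, mul_zero, sub_self, abs_zero, add_zero]
  have cs := sum_sq_le_sum_mul_sum_of_sq_le_mul T
    (fun z _ => by have := G.w1 z; have : 0 ≤ w z - 1 := by linarith
                   have : 0 < et ζ x z := exp_pos _
                   positivity)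
    (fun z _ => by have := G.w1 z; have : 0 < w z := by linarith
                   positivity) fun z _ => key z
  have En0 : 0 ≤ En lam ω Q f := by
    rw [En_eq]
    exact sum_nonneg fun y _ => sum_nonneg fun s _ => mul_nonneg (cnd_nonneg _ _) (sq_nonneg _)
  have b1 : ∑ z ∈ T, 2 * exp (2 * lam * L) * (et ζ x z * (w z - 1)) ≤
      2 * CT / ξ ^ (D + 1) * (δ * (l : ℝ) ^ (D + 1) * exp (2 * lam * L)) := by
    rw [← mul_sum]
    refine (mul_le_mul_of_nonneg_left hT2 (by positivity)).trans (le_of_eq ?_)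
    rw [hζ, div_pow]; field_simp
  have b2 : ∑ z ∈ T, (162 * (exp (2 * lam * (z 0 : ℝ)) *
        (f (rep (z + Pi.single 0 1)) - f (rep z)) ^ 2 / w z) +
        2 * c ^ 2 * (exp (2 * lam * (z 0 : ℝ)) * f (rep z) ^ 2)) ≤
      (162 + 2 * (2 * D + 10) ^ 2) * K * En lam ω Q f := by
    rw [sum_add_distrib, ← mul_sum, ← mul_sum]
    have u1 : ∑ z ∈ T, exp (2 * lam * (z 0 : ℝ)) *
        (f (rep (z + Pi.single 0 1)) - f (rep z)) ^ 2 / w z ≤ K * En lam ω Q f := by
      refine (sum_le_sum fun z _ => ?_).trans (k1 T)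
      refine single_le_sum (f := fun i => exp (2 * lam * (z 0 : ℝ)) *
        (f (rep (z + Pi.single i 1)) - f (rep z)) ^ 2 / w z) (fun i _ => ?_) (mem_univ 0)
      have := G.w1 z
      have : 0 < w z := by linarith
      positivity
    have u2 := mul_le_mul_of_nonneg_left (k2 T) (by positivity : 0 ≤ 2 * c ^ 2)
    have u3 : 2 * c ^ 2 * (K / lam ^ 2 * En lam ω Q f) =
        2 * (2 * D + 10) ^ 2 * K * En lam ω Q f := by rw [hc]; field_simp
    rw [u3] at u2
    linarith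
  have A0 : 0 ≤ δ * (l : ℝ) ^ (D + 1) * exp (2 * lam * L) := by have := G.d0; positivity
  have fin := cs.trans (mul_le_mul b1 b2
    (sum_nonneg fun z _ => by have := G.w1 z; have : 0 < w z := by linarith
                              positivity) (by positivity))
  rw [e1]
  refine abs_le_of_sq_le_sq' ?_ (by positivity) |> abs_le.2
  rw [mul_pow, mul_pow, sq_sqrt A0, sq_sqrt En0]
  refine fin.trans ?_
  have : M ≤ (M + 1) ^ 2 := by nlinarith
  calc _ = M * (δ * (l : ℝ) ^ (D + 1) * exp (2 * lam * L) * En lam ω Q f) := by rw [hM]; ring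
    _ ≤ (M + 1) ^ 2 * (δ * (l : ℝ) ^ (D + 1) * exp (2 * lam * L) * En lam ω Q f) :=
        mul_le_mul_of_nonneg_right this (mul_nonneg A0 En0)
    _ = _ := by ring

end Pool.Agent.MP_8c549f_pr.L2

end

end Part6
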