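import Pool.Agent.MP_8c549f_pr.L3.Spec

-- ======== part 0: Id
section Part0

/-! Row Id: summation by parts, self-adjointness, stability of the energy. -/

noncomputable section

namespace Pool.Agent.MP_8c549f_pr.L2

open MeasureTheory Finset Real Classical S3

namespace Id

variable {D : ℕ} {lam : ℝ} {ω : Cfg D}

theorem back (x : V D) (s : Step D) : x + vec s + vec (rev s) = x := by simp

theorem cnd_rev (x : V D) (s : Step D) : cnd lam ω (x + vec s) (rev s) = cnd lam ω x s := by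
  simp only [cnd, edge_rev, expo_rev]

theorem cut (Q : Finset (V D)) (G : V D → Step D → ℝ) (h : ∀ x s, G x s ≠ 0 → x + vec s ∈ Q) :
    ∑ x ∈ Q, ∑ s, G x s =
      ∑ p ∈ (Q ×ˢ (univ : Finset (Step D))).filter (fun p => p.1 + vec p.2 ∈ Q), G p.1 p.2 := by
  rw [sum_filter_of_ne (f := fun p : V D × Step D => G p.1 p.2) fun p _ hp => h _ _ hp, sum_product]

theorem flip (Q : Finset (V D)) (F : V D → V D → ℝ)
    (h : ∀ x s, F x (x + vec s) ≠ 0 → x ∈ Q ∧ x + vec s ∈ Q) :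
    ∑ x ∈ Q, ∑ s, cnd lam ω x s * F x (x + vec s) =
      ∑ x ∈ Q, ∑ s, cnd lam ω x s * F (x + vec s) x := by
  rw [cut Q _ fun x s hx => (h x s (right_ne_zero_of_mul hx)).2,
    cut Q _ fun x s hx => (h (x + vec s) (rev s) (by rw [back]; exact right_ne_zero_of_mul hx)).1]
  refine sum_nbij' (fun p => (p.1 + vec p.2, rev p.2)) (fun p => (p.1 + vec p.2, rev p.2))
    ?_ ?_ ?_ ?_ ?_
  · intro p hp
    simp only [mem_filter, mem_product, mem_univ, and_true, back] at hp ⊢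
    exact hp.symm
  · intro p hp
    simp only [mem_filter, mem_product, mem_univ, and_true, back] at hp ⊢
    exact hp.symm
  · intro p _
    simp only [back, rev_rev]
  · intro p _
    simp only [back, rev_rev]
  · intro p _
    simp only [back, cnd_rev]

end Id

theorem idS : IDStmt := by
  intro D lam ω Q
  refine ⟨fun φ u hφ => ?_, fun φ u hφ => ?_, fun g hg Q' => ?_, Id.flip Q⟩
  · have h := Id.flip (lam := lam) (ω := ω) Q (fun x y => φ x * (u x - u y)) fun x s hx =>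
      ⟨(hφ x (left_ne_zero_of_mul hx)).1, (hφ x (left_ne_zero_of_mul hx)).2 s⟩
    have e : ∑ x ∈ Q, pim lam ω x * φ x * (u x - Pf lam ω u x) =
        ∑ x ∈ Q, ∑ s, cnd lam ω x s * (φ x * (u x - u (x + vec s))) := by
      refine sum_congr rfl fun x _ => ?_
      have a : pim lam ω x * φ x * (u x - Pf lam ω u x) =
          pim lam ω x * (φ x * u x) - φ x * (pim lam ω x * Pf lam ω u x) := by ring
      rw [a, pim_Pf, ← sum_cnd, sum_mul, mul_sum, ← sum_sub_distrib]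
      exact sum_congr rfl fun s _ => by ring
    rw [e, two_mul]
    nth_rewrite 2 [h]
    rw [← sum_add_distrib]
    refine sum_congr rfl fun x _ => ?_
    rw [← sum_add_distrib]
    exact sum_congr rfl fun s _ => by ring
  · have h := Id.flip (lam := lam) (ω := ω) Q (fun x y => φ x * u y) fun x s hx =>
      ⟨(hφ x (left_ne_zero_of_mul hx)).1, (hφ x (left_ne_zero_of_mul hx)).2 s⟩
    have e : ∀ a b : V D → ℝ, ∑ x ∈ Q, pim lam ω x * a x * Pf lam ω b x =
        ∑ x ∈ Q, ∑ s, cnd lam ω x s * (a x * b (x + vec s)) := fun a b => by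
      refine sum_congr rfl fun x _ => ?_
      rw [mul_right_comm, pim_Pf, sum_mul]
      exact sum_congr rfl fun s _ => by ring
    rw [e, e, h]
    exact sum_congr rfl fun x _ => sum_congr rfl fun s _ => by ring
  · rw [En_eq, En_eq]
    refine (sum_le_sum_of_subset_of_nonneg (subset_union_left (s₂ := Q)) fun x _ _ =>
      sum_nonneg fun s _ => mul_nonneg (cnd_nonneg x s) (sq_nonneg _)).trans (le_of_eq ?_)
    refine (sum_subset subset_union_right fun x _ hx => sum_eq_zero fun s _ => ?_).symm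
    have a : g x = 0 := by
      by_contra c
      exact hx (hg x c).1
    have b : g (x + vec s) = 0 := by
      by_contra c
      exact hx (Id.back x s ▸ (hg _ c).2 (rev s))
    simp [a, b]

end Pool.Agent.MP_8c549f_pr.L2

end

end Part0

-- ======== part 1: En2
section Part1

/-! PROJECT L2: the energy of a function times the localising weight. -/

noncomputable section

namespace Pool.Agent.MP_8c549f_pr.L2

open MeasureTheory Finset Real Classical S3

namespace En2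

/-- two close exponentials -/
theorem exp_close {a b ξ : ℝ} (h1 : ξ ≤ 1) (h : |a - b| ≤ ξ) :
    (exp a - exp b) ^ 2 ≤ 4 * ξ ^ 2 * (exp a * exp b) := by
  have t1 : |a - b| ≤ 1 := h.trans h1
  have t2 : |b - a| ≤ 1 := by rwa [abs_sub_comm]
  have e1 := (abs_le.1 (Real.abs_exp_sub_one_sub_id_le t1)).2
  have e2 := (abs_le.1 (Real.abs_exp_sub_one_sub_id_le t2)).2
  have e3 : (a - b) ^ 2 ≤ ξ ^ 2 := by
    rw [← sq_abs]
    exact pow_le_pow_left₀ (abs_nonneg _) h 2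
  have e4 : (exp a - exp b) ^ 2 = (exp (a - b) + exp (b - a) - 2) * (exp a * exp b) := by
    rw [exp_sub, exp_sub]
    have := exp_ne_zero a
    have := exp_ne_zero b
    field_simp
    ring
  rw [e4]
  refine mul_le_mul_of_nonneg_right ?_ (mul_pos (exp_pos a) (exp_pos b)).le
  nlinarith [sq_nonneg ξ]

theorem et_close {D : ℕ} {ξ : ℝ} (h0 : 0 ≤ ξ) (h1 : ξ ≤ 1) (x y : V D) (s : Step D) :
    (et ξ x (y + vec s) - et ξ x y) ^ 2 ≤ 4 * ξ ^ 2 * (et ξ x (y + vec s) * et ξ x y) := by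
  refine exp_close h1 ?_
  have a1 : (nrm (y + vec s - x) : ℝ) ≤ nrm (y - x) + 1 := by exact_mod_cast nrm_step y x s
  have a2 : (nrm (y - x) : ℝ) ≤ nrm (y + vec s - x) + 1 := by
    have := nrm_step (y + vec s) x (rev s)
    rw [vec_rev, add_neg_cancel_right] at this
    exact_mod_cast this
  refine abs_le.2 ⟨?_, ?_⟩ <;> nlinarith

/-- the pointwise inequality -/
theorem point {a a' u u' k : ℝ} (hk : 0 ≤ k)
    (h : (a' - a) ^ 2 ≤ 4 * k * (a' * a)) :
    (a' * u' - a * u) ^ 2 ≤ (a' ^ 2 * u' - a ^ 2 * u) * (u' - u) +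
      (2 * k * (a * u) ^ 2 + 2 * k * (a' * u') ^ 2) := by
  have e : (a' * u' - a * u) ^ 2 = (a' ^ 2 * u' - a ^ 2 * u) * (u' - u) + u * u' * (a' - a) ^ 2 := by
    ring
  rw [e]
  refine add_le_add le_rfl ?_
  rcases le_total 0 (u * u') with c | c
  · refine (mul_le_mul_of_nonneg_left h c).trans ?_
    nlinarith [mul_nonneg hk (sq_nonneg (a * u - a' * u'))]
  · refine (mul_nonpos_of_nonpos_of_nonneg c (sq_nonneg _)).trans ?_
    positivity

end En2

open En2 in
theorem en2 (hI : IDStmt) : EN2Stmt := by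
  intro D lam ξ ω Q x u h0 h1 hS
  obtain ⟨i1, -, -, i4⟩ := hI D lam ω Q
  have s1 : Sup (fun y => et ξ x y ^ 2 * u y) Q := fun y hy => hS y (right_ne_zero_of_mul hy)
  have e1 := i1 _ u s1
  have e2 := i4 (fun y _ => (et ξ x y * u y) ^ 2) fun y s hy =>
    have := hS y (right_ne_zero_of_mul (pow_ne_zero_iff two_ne_zero |>.1 hy))
    ⟨this.1, this.2 s⟩
  have e3 : ∑ y ∈ Q, ∑ s, cnd lam ω y s * (et ξ x y * u y) ^ 2 =
      ∑ y ∈ Q, pim lam ω y * (et ξ x y * u y) ^ 2 :=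
    sum_congr rfl fun y _ => by rw [← sum_mul, sum_cnd]
  rw [En_eq, e1]
  calc _ ≤ ∑ y ∈ Q, ∑ s, (cnd lam ω y s * ((et ξ x (y + vec s) ^ 2 * u (y + vec s) -
          et ξ x y ^ 2 * u y) * (u (y + vec s) - u y)) +
        (2 * ξ ^ 2 * (cnd lam ω y s * (et ξ x y * u y) ^ 2) +
          2 * ξ ^ 2 * (cnd lam ω y s * (et ξ x (y + vec s) * u (y + vec s)) ^ 2))) := by
        refine sum_le_sum fun y _ => sum_le_sum fun s _ => ?_
        have := mul_le_mul_of_nonneg_left (point (u := u y) (u' := u (y + vec s))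
          (sq_nonneg ξ) (et_close h0 h1 x y s))
          (cnd_nonneg (lam := lam) (ω := ω) y s)
        refine this.trans (le_of_eq ?_)
        unfold et
        ring
    _ = _ := by
        simp only [sum_add_distrib, ← mul_sum]
        rw [← e2, e3]
        ring

end Pool.Agent.MP_8c549f_pr.L2

end

end Part1

-- ======== part 2: Ns
section Part2

/-! PROJECT L2: the local inequality of Nash. -/

noncomputable section

namespace Pool.Agent.MP_8c549f_pr.L2

open MeasureTheory Finset Real Classical S3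

namespace Ns

variable {D : ℕ} {x a z : V D} {r r₁ : ℕ}

theorem mem_box {ρ : Fin (D + 1) → ℕ} : z ∈ box a ρ ↔ ∀ j, a j ≤ z j ∧ z j < a j + ρ j := by
  simp [box, Fintype.mem_piFinset]

theorem card_box (a : V D) (r : ℕ) : (box a fun _ => r).card = r ^ (D + 1) := by
  simp [box]

/-- the corners of the cubes that meet the ball -/
def cor (x : V D) (r r₁ : ℕ) : Finset (V D) :=
  Fintype.piFinset fun j => Ioc (x j - r₁ - r) (x j + r₁)

/-- the corners of the cubes that contain `z` -/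
def cb (z : V D) (r : ℕ) : Finset (V D) := Fintype.piFinset fun j => Ioc (z j - r) (z j)

theorem mem_cor : a ∈ cor x r r₁ ↔ ∀ j, x j - r₁ - r < a j ∧ a j ≤ x j + r₁ := by
  simp only [cor, Fintype.mem_piFinset, mem_Ioc]

theorem mem_cb : a ∈ cb z r ↔ ∀ j, z j - r < a j ∧ a j ≤ z j := by
  simp only [cb, Fintype.mem_piFinset, mem_Ioc]

theorem card_cb (z : V D) (r : ℕ) : (cb z r).card = r ^ (D + 1) := by
  simp [cb]

theorem mem_ball' {R : ℕ} : z ∈ ball x R ↔ ∀ j, x j - R ≤ z j ∧ z j ≤ x j + R := by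
  simp only [ball, Fintype.mem_piFinset, mem_Icc]

theorem box_sub (hr : r ≤ r₁) (ha : a ∈ cor x r r₁) : (box a fun _ => r) ⊆ ball x (2 * r₁) :=
  fun z hz => mem_ball'.2 fun j => by
    have h1 := mem_cor.1 ha j
    have h2 := mem_box.1 hz j
    push_cast
    omega

theorem swap (hr : r ≤ r₁) (F : V D → ℝ) : ∑ a ∈ cor x r r₁, ∑ z ∈ box a fun _ => r, F z =
    ∑ z ∈ ball x (2 * r₁), ((cor x r r₁ ∩ cb z r).card : ℝ) * F z := by
  rw [sum_comm' (t' := ball x (2 * r₁)) (s' := fun z => cor x r r₁ ∩ cb z r)]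
  · simp only [sum_const, nsmul_eq_mul]
  · intro a z
    rw [mem_inter, mem_cb, mem_box]
    constructor
    · rintro ⟨h1, h2⟩
      exact ⟨⟨h1, fun j => by have := h2 j; omega⟩, box_sub hr h1 (mem_box.2 h2)⟩
    · rintro ⟨⟨h1, h2⟩, -⟩
      exact ⟨h1, fun j => by have := h2 j; omega⟩

theorem upp (hr : r ≤ r₁) {F : V D → ℝ} (hF : ∀ z, 0 ≤ F z) :
    ∑ a ∈ cor x r r₁, ∑ z ∈ box a fun _ => r, F z ≤
      (r : ℝ) ^ (D + 1) * ∑ z ∈ ball x (2 * r₁), F z := by
  rw [swap hr, mul_sum]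
  refine sum_le_sum fun z _ => mul_le_mul_of_nonneg_right ?_ (hF z)
  exact_mod_cast (card_le_card inter_subset_right).trans_eq (card_cb z r)

theorem low (hr : r ≤ r₁) {F : V D → ℝ} (hF : ∀ z, 0 ≤ F z) :
    (r : ℝ) ^ (D + 1) * ∑ z ∈ ball x r₁, F z ≤
      ∑ a ∈ cor x r r₁, ∑ z ∈ box a fun _ => r, F z := by
  rw [swap hr, mul_sum]
  refine le_trans (sum_le_sum fun z hz => le_of_eq ?_) (sum_le_sum_of_subset_of_nonneg
    (ball_mono x (show r₁ ≤ 2 * r₁ by omega)) fun z _ _ => mul_nonneg (Nat.cast_nonneg _) (hF z))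
  have : cb z r ⊆ cor x r r₁ := fun a ha => mem_cor.2 fun j => by
    have h1 := mem_cb.1 ha j
    have h2 := mem_ball'.1 hz j
    omega
  rw [inter_eq_right.2 this, card_cb]
  push_cast
  rfl

/-- the variance on a large subset -/
theorem cube {α : Type} {B X : Finset α} (hB : B ⊆ X) {g G : α → ℝ} (h1 : ∀ z ∈ B, G z = g z)
    (h0 : ∀ z ∈ X, z ∉ B → g z = 0) (hc : (X.card : ℝ) ≤ 2 * B.card) :
    X.card * ∑ z ∈ X, g z ^ 2 ≤ ∑ z ∈ X, ∑ y ∈ X, (G z - G y) ^ 2 + 2 * (∑ z ∈ X, |g z|) ^ 2 := by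
  have e1 : ∑ z ∈ X, g z ^ 2 = ∑ z ∈ B, g z ^ 2 :=
    (sum_subset hB fun z a b => by rw [h0 z a b]; ring).symm
  have e2 : ∑ z ∈ B, ∑ y ∈ B, (g z - g y) ^ 2 =
      2 * B.card * ∑ z ∈ B, g z ^ 2 - 2 * (∑ z ∈ B, g z) ^ 2 := by
    have : ∀ z, ∑ y ∈ B, (g z - g y) ^ 2 =
        B.card * g z ^ 2 - 2 * (∑ y ∈ B, g y) * g z + ∑ y ∈ B, g y ^ 2 := fun z => by
      rw [sum_congr rfl fun y _ => show (g z - g y) ^ 2 = g z ^ 2 - 2 * g z * g y + g y ^ 2 by ring,
        sum_add_distrib, sum_sub_distrib, sum_const, nsmul_eq_mul, ← mul_sum]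
      ring
    rw [sum_congr rfl fun z _ => this z, sum_add_distrib, sum_sub_distrib, sum_const, nsmul_eq_mul,
      ← mul_sum, ← mul_sum]
    ring
  have e3 : ∑ z ∈ B, ∑ y ∈ B, (g z - g y) ^ 2 ≤ ∑ z ∈ X, ∑ y ∈ X, (G z - G y) ^ 2 := by
    refine le_trans (sum_le_sum fun z hz => ?_) (sum_le_sum_of_subset_of_nonneg hB
      fun z _ _ => sum_nonneg fun y _ => sq_nonneg _)
    refine le_trans (sum_le_sum fun y hy => le_of_eq ?_) (sum_le_sum_of_subset_of_nonneg hB
      fun y _ _ => sq_nonneg _)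
    rw [h1 z hz, h1 y hy]
  have e4 : (∑ z ∈ B, g z) ^ 2 ≤ (∑ z ∈ X, |g z|) ^ 2 := by
    rw [← sq_abs]
    exact pow_le_pow_left₀ (abs_nonneg _) ((abs_sum_le_sum_abs _ _).trans
      (sum_le_sum_of_subset_of_nonneg hB fun z _ _ => abs_nonneg _)) 2
  have e5 : 0 ≤ ∑ z ∈ B, g z ^ 2 := sum_nonneg fun z _ => sq_nonneg _
  rw [e1]
  nlinarith [mul_le_mul_of_nonneg_right hc e5]

variable {ω : Cfg D} {R m h : ℕ} {δ : ℝ} {rep : V D → V D} {w : V D → ℝ}

/-- the weighted squared gradient of the extension -/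
def gm (rep : V D → V D) (w g : V D → ℝ) (z : V D) : ℝ :=
  ∑ i, (g (rep (z + Pi.single i 1)) - g (rep z)) ^ 2 / w z

theorem gm_nonneg (G : Geo ω R m h δ rep w) (g : V D → ℝ) (z : V D) : 0 ≤ gm rep w g z :=
  sum_nonneg fun _ _ => div_nonneg (sq_nonneg _) (zero_le_one.trans (G.w1 z))

/-- one cube -/
theorem one (hC : CNTStmt) (hP : PLStmt) (G : Geo ω R m h δ rep w) {g : V D → ℝ} (hm : m ≤ r)
    (hR : ∀ z ∈ box a fun _ => r, nrm z ≤ R) (hg : ∀ y, g y ≠ 0 → Wide ω y h) :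
    (r : ℝ) ^ (D + 1) * ∑ z ∈ box a fun _ => r, g z ^ 2 ≤
      4 * (D + 1) * (r : ℝ) ^ 2 * (r : ℝ) ^ (D + 1) * ∑ z ∈ box a fun _ => r, gm rep w g z +
        2 * (∑ z ∈ box a fun _ => r, |g z|) ^ 2 := by
  have m1 : 1 ≤ m := G.h1.trans G.hm
  have c1 := (hC D m δ w m1 G.d0 G.w1 G.seg).2 a (fun _ => r) hm
  have c2 := hP D m r δ w (fun z => g (rep z)) a (fun _ => r) m1 G.d0 (by linarith [G.d1]) G.w1 G.seg
    fun _ => ⟨hm, le_rfl⟩
  have c3 : (((box a fun _ => r).filter fun z => ¬ Wide ω z h).card : ℝ) ≤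
      ∑ z ∈ box a fun _ => r, (w z - 1) := by
    rw [card_eq_sum_ones, Nat.cast_sum]
    refine le_trans (sum_le_sum fun z hz => ?_) (sum_le_sum_of_subset_of_nonneg (filter_subset _ _)
      fun z _ _ => sub_nonneg.2 (G.w1 z))
    obtain ⟨z1, z2⟩ := mem_filter.1 hz
    have := not_lt.1 fun u => z2 (G.nml z (hR z z1) u).1
    push_cast
    linarith
  have c4 : (((box a fun _ => r).filter fun z => Wide ω z h).card : ℝ) +
      ((box a fun _ => r).filter fun z => ¬ Wide ω z h).card = (box a fun _ => r).card := by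
    exact_mod_cast card_filter_add_card_filter_not _
  have c5 := cube (filter_subset (fun z => Wide ω z h) (box a fun _ => r)) (g := g)
    (G := fun z => g (rep z)) (fun z hz => by rw [G.fix z (mem_filter.1 hz).2])
    (fun z z1 z2 => by_contra fun u => z2 (mem_filter.2 ⟨z1, hg z u⟩)) (by
      have := mul_le_mul_of_nonneg_right G.d1 (Nat.cast_nonneg (α := ℝ) (box a fun _ => r).card)
      linarith)
  rw [card_box] at c2 c5
  push_cast at c2 c5
  exact c5.trans (add_le_add c2 le_rfl)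

/-- all cubes -/
theorem all (hC : CNTStmt) (hP : PLStmt) (G : Geo ω R m h δ rep w) {g : V D → ℝ} (hm : m ≤ r)
    (hr : r ≤ r₁) (hR : nrm x + 2 * r₁ ≤ R) (hg : ∀ y, g y ≠ 0 → Wide ω y h) :
    ∑ z ∈ ball x r₁, g z ^ 2 ≤ 4 * (D + 1) * (r : ℝ) ^ 2 * ∑ z ∈ ball x (2 * r₁), gm rep w g z +
      2 * (∑ z ∈ ball x (2 * r₁), |g z|) ^ 2 / (r : ℝ) ^ (D + 1) := by
  have r1 : (0 : ℝ) < r := by exact_mod_cast G.h1.trans (G.hm.trans hm)
  have n0 : (0 : ℝ) < (r : ℝ) ^ (D + 1) := by positivity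
  have s0 : 0 ≤ ∑ z ∈ ball x (2 * r₁), |g z| := sum_nonneg fun _ _ => abs_nonneg _
  have a1 := low (x := x) hr (F := fun z => g z ^ 2) fun _ => sq_nonneg _
  have a2 := upp (x := x) hr (gm_nonneg G g)
  have a3 := upp (x := x) hr (F := fun z => |g z|) fun _ => abs_nonneg _
  have a4 : ∑ a ∈ cor x r r₁, (r : ℝ) ^ (D + 1) * ∑ z ∈ box a fun _ => r, g z ^ 2 ≤
      ∑ a ∈ cor x r r₁, (4 * (D + 1) * (r : ℝ) ^ 2 * (r : ℝ) ^ (D + 1) *
        ∑ z ∈ box a fun _ => r, gm rep w g z +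
          2 * (∑ z ∈ ball x (2 * r₁), |g z|) * ∑ z ∈ box a fun _ => r, |g z|) := by
    refine sum_le_sum fun a ha => (one hC hP G hm (fun z hz => ?_) hg).trans (add_le_add le_rfl ?_)
    · have h1 := mem_ball.1 (box_sub hr ha hz)
      have h2 := nrm_add_le (z - x) x
      rw [sub_add_cancel] at h2
      omega
    · rw [sq, mul_assoc]
      exact mul_le_mul_of_nonneg_left (mul_le_mul_of_nonneg_right (sum_le_sum_of_subset_of_nonneg
        (box_sub hr ha) fun _ _ _ => abs_nonneg _) (sum_nonneg fun _ _ => abs_nonneg _)) zero_le_two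
  rw [sum_add_distrib, ← mul_sum, ← mul_sum, ← mul_sum] at a4
  have b1 := mul_le_mul_of_nonneg_left a1 n0.le
  have b2 := mul_le_mul_of_nonneg_left a2
    (show 0 ≤ 4 * (D + 1) * (r : ℝ) ^ 2 * (r : ℝ) ^ (D + 1) by positivity)
  have b3 := mul_le_mul_of_nonneg_left a3 (mul_nonneg zero_le_two s0)
  generalize (r : ℝ) ^ (D + 1) = n at *
  refine le_of_mul_le_mul_left (le_of_mul_le_mul_left ?_ n0) n0
  refine ((b1.trans a4).trans (add_le_add b2 b3)).trans_eq ?_
  field_simp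

/-- comparison of the weights -/
theorem wt_le {lam : ℝ} (h0 : 0 ≤ lam) (h4 : lam * r₁ ≤ 4) {y : V D} (k : ℕ)
    (hy : nrm (y - z) ≤ k * r₁) : exp (2 * lam * (y 0 : ℝ)) ≤ exp 8 ^ k * exp (2 * lam * (z 0 : ℝ)) := by
  have a : ((y 0 : ℝ) - z 0) ≤ k * r₁ := by
    have := (le_abs_self _).trans (nrm_le_iff.1 hy 0)
    rw [Pi.sub_apply] at this
    exact_mod_cast this
  rw [← exp_nat_mul, ← exp_add, exp_le_exp]
  nlinarith [mul_le_mul_of_nonneg_left a h0, mul_le_mul_of_nonneg_left h4 (Nat.cast_nonneg (α := ℝ) k)]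

end Ns

open Ns in
theorem ns (hI : IDStmt) (hC : CNTStmt) (hP : PLStmt) : NSStmt := by
  intro D
  have c1 : (1 : ℝ) ≤ exp 8 := one_le_exp (by norm_num)
  have D0 : (0 : ℝ) ≤ D := Nat.cast_nonneg D
  refine ⟨(2 * D + 4) * exp 8 ^ 3 * (4 * (D + 1) * (D + 2) + 18), ?_, ?_⟩
  · exact one_le_mul_of_one_le_of_one_le
      (one_le_mul_of_one_le_of_one_le (by linarith) (one_le_pow₀ c1)) (by nlinarith)
  intro ω R m h δ rep w G lam x r r₁ g Q l0 l1 l4 hm hr hR hg hQ
  have r1 : (0 : ℝ) < r := by exact_mod_cast G.h1.trans (G.hm.trans hm)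
  have n0 : (0 : ℝ) < (r : ℝ) ^ (D + 1) := by positivity
  have E0 := exp_pos (2 * lam * (x 0 : ℝ))
  have hg' := fun y u => mem_wb'.1 (hg y u)
  have A := all (x := x) hC hP G hm hr hR fun y u => (hg' y u).2
  have tr : ∀ (F : V D → ℝ) (k : ℕ), (∀ y, g y = 0 → F y = 0) → r₁ ≤ k →
      ∑ y ∈ ball x k, F y = ∑ y ∈ Q, F y := fun F k hF hk =>
    (sum_subset (inter_subset_left (s₂ := Q)) fun y a b => hF y (by_contra fun u =>
        b (mem_inter.2 ⟨a, (hQ y u).1⟩))).symm.trans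
      (sum_subset (inter_subset_right (s₁ := ball x k)) fun y a b => hF y (by_contra fun u =>
        b (mem_inter.2 ⟨mem_ball.2 ((hg' y u).1.trans hk), a⟩)))
  rw [tr (fun y => g y ^ 2) r₁ (fun y u => by simp [u]) le_rfl,
    tr (fun y => |g y|) (2 * r₁) (fun y u => by simp [u]) (by omega)] at A
  have p1 : ∑ y ∈ Q, pim lam ω y * g y ^ 2 ≤
      (2 * D + 4) * exp 8 * exp (2 * lam * (x 0 : ℝ)) * ∑ y ∈ Q, g y ^ 2 := by
    rw [mul_sum]
    refine sum_le_sum fun y _ => ?_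
    by_cases u : g y = 0
    · simp [u]
    refine mul_le_mul_of_nonneg_right ((pim_le l0 l1 y).trans ?_) (sq_nonneg _)
    have := wt_le (y := y) (z := x) l0 l4 1 (by simpa using (hg' y u).1)
    rw [pow_one] at this
    rw [mul_assoc (2 * (D : ℝ) + 4)]
    exact mul_le_mul_of_nonneg_left this (by positivity)
  have p2 : exp (2 * lam * (x 0 : ℝ)) * ∑ y ∈ Q, |g y| ≤
      3 * exp 8 * ∑ y ∈ Q, pim lam ω y * |g y| := by
    rw [mul_sum, mul_sum]
    refine sum_le_sum fun y _ => ?_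
    by_cases u : g y = 0
    · simp [u]
    rw [← mul_assoc]
    refine mul_le_mul_of_nonneg_right ?_ (abs_nonneg _)
    have a := wt_le (y := x) (z := y) l0 l4 1 (by rw [nrm_sub_comm]; simpa using (hg' y u).1)
    have b := le_pim l0 l1 (wide_Zq G.h1 (hg' y u).2 lam)
    rw [pow_one] at a
    nlinarith [mul_le_mul_of_nonneg_left b (exp_pos 8).le]
  have p3 : exp (2 * lam * (x 0 : ℝ)) * ∑ z ∈ ball x (2 * r₁), gm rep w g z ≤
      exp 8 ^ 2 * ((D + 2) * En lam ω Q g) := by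
    have a := G.cmp lam l0 l1 (ball x (2 * r₁)) (ball x (2 * r₁ + 5 * h)) g fun z hz => by
      have h1 := mem_ball.1 hz
      have h2 := nrm_add_le (z - x) x
      rw [sub_add_cancel] at h2
      refine ⟨by omega, fun y hy => mem_ball.2 ?_⟩
      have h3 := mem_ball.1 hy
      have h4 := nrm_tri y z x
      omega
    have b := (hI D lam ω Q).2.2.1 g hQ (ball x (2 * r₁ + 5 * h))
    refine le_trans ?_ (mul_le_mul_of_nonneg_left (a.trans
      (mul_le_mul_of_nonneg_left b (by positivity))) (by positivity))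
    rw [mul_sum, mul_sum]
    refine sum_le_sum fun z hz => ?_
    have c := wt_le (y := x) (z := z) l0 l4 2 (by rw [nrm_sub_comm]; exact mem_ball.1 hz)
    refine (mul_le_mul_of_nonneg_right c (gm_nonneg G g z)).trans_eq ?_
    rw [mul_assoc, gm, mul_sum]
    simp only [mul_div_assoc]
  have e0 : 0 ≤ En lam ω Q g := by
    rw [En_eq]
    exact sum_nonneg fun _ _ => sum_nonneg fun _ _ => mul_nonneg (cnd_nonneg _ _) (sq_nonneg _)
  have s0 : 0 ≤ ∑ y ∈ Q, |g y| := sum_nonneg fun _ _ => abs_nonneg _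
  have p4 := pow_le_pow_left₀ (mul_nonneg E0.le s0) p2 2
  generalize exp (2 * lam * (x 0 : ℝ)) = E at *
  generalize (r : ℝ) ^ (D + 1) = n at *
  generalize ∑ y ∈ Q, |g y| = S at *
  generalize ∑ y ∈ Q, pim lam ω y * |g y| = P at *
  generalize ∑ z ∈ ball x (2 * r₁), gm rep w g z = Γ at *
  generalize En lam ω Q g = X at *
  generalize exp 8 = c at *
  have q1 : E * (2 * S ^ 2 / n) ≤ 18 * c ^ 2 * (P ^ 2 / (n * E)) := by
    rw [show E * (2 * S ^ 2 / n) = 2 * (E * S) ^ 2 / (n * E) by field_simp, ← mul_div_assoc]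
    exact div_le_div_of_nonneg_right (by nlinarith) (by positivity)
  have q2 : E * (4 * (D + 1) * (r : ℝ) ^ 2 * Γ) ≤ 4 * (D + 1) * (r : ℝ) ^ 2 * (c ^ 2 * ((D + 2) * X)) := by
    rw [mul_left_comm]
    exact mul_le_mul_of_nonneg_left p3 (by positivity)
  have q3 := (mul_le_mul_of_nonneg_left A E0.le).trans ((mul_add _ _ _).trans_le (add_le_add q2 q1))
  have q4 := mul_le_mul_of_nonneg_left q3 (show 0 ≤ (2 * (D : ℝ) + 4) * c by positivity)
  rw [← mul_assoc] at q4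
  refine (p1.trans q4).trans ?_
  rw [mul_div_assoc]
  have t1 : 0 ≤ (2 * (D : ℝ) + 4) * c ^ 3 * 18 * (r : ℝ) ^ 2 * X := by positivity
  have t2 : 0 ≤ (2 * (D : ℝ) + 4) * c ^ 3 * (4 * (D + 1) * (D + 2)) * (P ^ 2 / (n * E)) := by positivity
  generalize P ^ 2 / (n * E) = Y at *
  linarith

end Pool.Agent.MP_8c549f_pr.L2

end

end Part2

-- ======== part 3: Hd
section Part3

/-! PROJECT L2, row Hd: the weighted Hardy inequality. -/

noncomputable section

namespace Pool.Agent.MP_8c549f_pr.L2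

open MeasureTheory Finset Real Classical S3

namespace Hd

theorem exp_le {u : ℝ} (h0 : 0 ≤ u) (h1 : u ≤ 1) : exp (-u) ≤ 1 - u / 2 := by
  have q0 : 0 < exp (-u) := exp_pos _
  have h2 : exp (-u) * exp u = 1 := by rw [← exp_add]; simp
  have h3 := add_one_le_exp u
  by_contra hn
  push Not at hn
  nlinarith [mul_le_mul_of_nonneg_left h3 q0.le]

/-- sums with a geometric weight, by blocks of length `m` -/
theorem blk {lam c : ℝ} {m : ℕ} {w : ℕ → ℝ} (hl : 0 < lam) (hm : lam * m ≤ 1) (hc : 0 ≤ c)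
    (h0 : ∀ k, 0 ≤ w k) (hw : ∀ j, ∑ k ∈ range m, w (j + k) ≤ c * m) (b : ℕ) :
    ∀ j, ∑ k ∈ range (m * b), w (j + k) * exp (-(lam * k)) ≤ 2 * c / lam := by
  induction b with
  | zero => intro j; simp only [mul_zero, range_zero, sum_empty]; positivity
  | succ b ih =>
    intro j
    rw [show m * (b + 1) = m + m * b by ring, sum_range_add]
    have a1 : ∑ k ∈ range m, w (j + k) * exp (-(lam * k)) ≤ c * m := by
      refine le_trans (sum_le_sum fun k _ => ?_) (hw j)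
      refine mul_le_of_le_one_right (h0 _) (exp_le_one_iff.2 ?_)
      have : 0 ≤ lam * k := by positivity
      linarith
    have a2 : ∑ k ∈ range (m * b), w (j + (m + k)) * exp (-(lam * ((m + k : ℕ) : ℝ))) =
        exp (-(lam * m)) * ∑ k ∈ range (m * b), w (j + m + k) * exp (-(lam * k)) := by
      rw [mul_sum]
      refine sum_congr rfl fun k _ => ?_
      rw [← add_assoc, mul_left_comm, ← exp_add]
      congr 2
      push_cast
      ring
    rw [a2]
    have a3 := mul_le_mul_of_nonneg_left (ih (j + m)) (exp_pos (-(lam * m))).le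
    have a4 := exp_le (u := lam * m) (by positivity) hm
    have a5 := mul_le_mul_of_nonneg_right a4 (show 0 ≤ 2 * c / lam by positivity)
    have a6 : (1 - lam * m / 2) * (2 * c / lam) = 2 * c / lam - c * m := by field_simp
    linarith

/-- the inequality on one line -/
theorem line {lam A : ℝ} {n : ℕ} {G w : ℕ → ℝ} (hw : ∀ k, 0 < w k) (hn : G n = 0)
    (hA : ∑ k ∈ range n, w k * exp (-(lam * k)) ≤ A) :
    G 0 ^ 2 ≤ A * ∑ k ∈ range n, exp (lam * k) * ((G (k + 1) - G k) ^ 2 / w k) := by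
  have e : G 0 ^ 2 = (∑ k ∈ range n, (G (k + 1) - G k)) ^ 2 := by
    rw [sum_range_sub, hn]; simp
  have cs := sum_mul_sq_le_sq_mul_sq (range n) (fun k => √(w k * exp (-(lam * k))))
    (fun k => (G (k + 1) - G k) / √(w k * exp (-(lam * k))))
  have p : ∀ k : ℕ, 0 < w k * exp (-(lam * k)) := fun k => mul_pos (hw k) (exp_pos _)
  have e1 : ∀ k ∈ range n, √(w k * exp (-(lam * k))) *
      ((G (k + 1) - G k) / √(w k * exp (-(lam * k)))) = G (k + 1) - G k := fun k _ =>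
    mul_div_cancel₀ _ (sqrt_pos.2 (p k)).ne'
  have e2 : ∀ k ∈ range n, √(w k * exp (-(lam * k))) ^ 2 = w k * exp (-(lam * k)) := fun k _ =>
    sq_sqrt (p k).le
  have e3 : ∀ k ∈ range n, ((G (k + 1) - G k) / √(w k * exp (-(lam * k)))) ^ 2 =
      exp (lam * k) * ((G (k + 1) - G k) ^ 2 / w k) := fun k _ => by
    rw [div_pow, sq_sqrt (p k).le, exp_neg]
    have := (hw k).ne'
    have := (exp_pos (lam * k)).ne'
    field_simp
  rw [sum_congr rfl e1, sum_congr rfl e2, sum_congr rfl e3] at cs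
  rw [e]
  refine cs.trans (mul_le_mul_of_nonneg_right hA (sum_nonneg fun k _ => ?_))
  have := hw k
  positivity

variable {D : ℕ}

theorem sing (z : V D) (j k : ℕ) :
    z + Pi.single (0 : Fin (D + 1)) ((j + k : ℕ) : ℤ) =
      z + Pi.single (0 : Fin (D + 1)) (j : ℤ) + Pi.single (0 : Fin (D + 1)) (k : ℤ) := by
  rw [add_assoc, ← Pi.single_add]; push_cast; rfl

/-- the inequality of Hardy for a function that vanishes outside a ball -/
theorem hardy {lam δ E : ℝ} {m R : ℕ} {w G : V D → ℝ} (hl : 0 < lam) (hm : lam * m ≤ 1)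
    (m1 : 1 ≤ m) (d1 : δ ≤ 1 / 4) (w1 : ∀ z, 1 ≤ w z) (hs : Seg w m δ)
    (hG : ∀ z, G z ≠ 0 → nrm z + 1 ≤ R)
    (hE : ∀ T : Finset (V D), ∑ z ∈ T, exp (2 * lam * (z 0 : ℝ)) *
      (G (z + Pi.single 0 1) - G z) ^ 2 / w z ≤ E) (T : Finset (V D)) :
    ∑ z ∈ T, exp (2 * lam * (z 0 : ℝ)) * G z ^ 2 ≤ 5 / lam ^ 2 * E := by
  set a : V D → ℝ := fun z => exp (2 * lam * (z 0 : ℝ)) *
      (G (z + Pi.single 0 1) - G z) ^ 2 / w z with ha
  have w0 : ∀ z, 0 < w z := fun z => lt_of_lt_of_le one_pos (w1 z)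
  have a0 : ∀ z, 0 ≤ a z := fun z => by have := w0 z; positivity
  have E0 : 0 ≤ E := by simpa using hE ∅
  have l1 : lam * (1 : ℕ) ≤ 1 := by
    have : (1 : ℝ) ≤ m := by exact_mod_cast m1
    push_cast
    nlinarith
  have key : ∀ z ∈ T, exp (2 * lam * (z 0 : ℝ)) * G z ^ 2 ≤ 5 / (2 * lam) *
      ∑ k ∈ range (m * (2 * R)), exp (-(lam * k)) * a (z + Pi.single 0 (k : ℤ)) := by
    intro z _
    by_cases hz : G z = 0
    · rw [hz]
      have : 0 ≤ ∑ k ∈ range (m * (2 * R)), exp (-(lam * k)) * a (z + Pi.single 0 (k : ℤ)) :=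
        sum_nonneg fun k _ => mul_nonneg (exp_pos _).le (a0 _)
      have : 0 ≤ 5 / (2 * lam) := by positivity
      simp only [ne_eq, OfNat.ofNat_ne_zero, not_false_eq_true, zero_pow, mul_zero]
      positivity
    have hn : G (z + Pi.single 0 ((m * (2 * R) : ℕ) : ℤ)) = 0 := by
      by_contra hn
      have h1 := hG _ hn
      have h2 := hG _ hz
      have h3 := abs_le_nrm (z + Pi.single 0 ((m * (2 * R) : ℕ) : ℤ)) 0
      have h4 := abs_le_nrm z 0
      have h5 : 2 * R ≤ m * (2 * R) := Nat.le_mul_of_pos_left _ m1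
      rw [Pi.add_apply, Pi.single_eq_same] at h3
      generalize m * (2 * R) = n at h1 h3 h5
      have := (abs_le.1 h3).2
      have := (abs_le.1 h4).1
      omega
    have hb := blk (c := 5 / 4) (w := fun k => w (z + Pi.single 0 (k : ℤ))) hl hm (by norm_num)
      (fun k => (w0 _).le) (fun j => by
        have h := hs (z + Pi.single 0 (j : ℤ)) 0
        simp only [sum_sub_distrib, sum_const, card_range, nsmul_eq_mul, mul_one] at h
        simp only [sing]
        have : (0 : ℝ) ≤ m := by positivity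
        nlinarith) (2 * R) 0
    simp only [zero_add] at hb
    have hL := line (G := fun k => G (z + Pi.single 0 (k : ℤ)))
      (w := fun k => w (z + Pi.single 0 (k : ℤ))) (fun k => w0 _) hn hb
    simp only [Nat.cast_zero, Pi.single_zero, add_zero] at hL
    refine (mul_le_mul_of_nonneg_left hL (exp_pos _).le).trans (le_of_eq ?_)
    rw [mul_left_comm, mul_sum]
    congr 1
    · field_simp; norm_num
    refine sum_congr rfl fun k _ => ?_
    simp only [ha, sing, Nat.cast_one, Pi.add_apply, Pi.single_eq_same]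
    rw [← mul_assoc, ← exp_add, mul_div_assoc, ← mul_assoc, ← exp_add]
    congr 2
    push_cast
    ring
  refine (sum_le_sum key).trans ?_
  rw [← mul_sum, sum_comm]
  have b1 : ∀ k ∈ range (m * (2 * R)), ∑ z ∈ T, exp (-(lam * k)) * a (z + Pi.single 0 (k : ℤ)) ≤
      exp (-(lam * k)) * E := fun k _ => by
    rw [← mul_sum]
    refine mul_le_mul_of_nonneg_left ?_ (exp_pos _).le
    have h := hE (T.map (addRightEmbedding (Pi.single 0 (k : ℤ))))
    rwa [sum_map] at h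
  have b2 := blk (c := 1) (m := 1) (w := fun _ => 1) hl l1 zero_le_one (fun _ => zero_le_one)
    (fun j => by simp) (m * (2 * R)) 0
  simp only [one_mul, mul_one] at b2
  have b3 : ∑ k ∈ range (m * (2 * R)), exp (-(lam * k)) * E ≤ 2 / lam * E := by
    rw [← sum_mul]; exact mul_le_mul_of_nonneg_right b2 E0
  refine (mul_le_mul_of_nonneg_left ((sum_le_sum b1).trans b3) (by positivity)).trans (le_of_eq ?_)
  field_simp

end Hd

theorem hd (hI : IDStmt) : HDStmt := by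
  intro D
  have D0 : (0 : ℝ) ≤ D := by positivity
  refine ⟨(2 * D + 4) * (5 * (D + 2)), by nlinarith, ?_⟩
  intro ω R m h δ rep w hG lam g Q hl hm hg hQ
  have m1 : 1 ≤ m := hG.h1.trans hG.hm
  have l1 : lam ≤ 1 := by
    have : (1 : ℝ) ≤ m := by exact_mod_cast m1
    nlinarith
  have E0 : 0 ≤ En lam ω Q g := En_nonneg _ _
  have w0 : ∀ z, 0 < w z := fun z => lt_of_lt_of_le one_pos (hG.w1 z)
  have sp : ∀ z, g (rep z) ≠ 0 → nrm z + 1 ≤ R := fun z hz => by
    have h1 := hg _ hz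
    have h2 := hG.near z
    have h3 := nrm_sub_le (rep z) (rep z - z)
    rw [sub_sub_cancel] at h3
    omega
  have p1 : ∀ T : Finset (V D), ∑ z ∈ T, ∑ i, exp (2 * lam * (z 0 : ℝ)) *
      (g (rep (z + Pi.single i 1)) - g (rep z)) ^ 2 / w z ≤ (D + 2) * En lam ω Q g := by
    intro T
    rw [← sum_filter_of_ne (p := fun z => nrm z ≤ R)]
    · refine (hG.cmp lam hl.le l1 _ (ball 0 (R + 5 * h)) g fun z hz => ?_).trans
        (mul_le_mul_of_nonneg_left ((hI D lam ω Q).2.2.1 g hQ _) (by positivity))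
      refine ⟨(mem_filter.1 hz).2, fun y hy => mem_ball.2 ?_⟩
      have h1 := mem_ball.1 hy
      have h2 := (mem_filter.1 hz).2
      have h3 := nrm_add_le (y - z) z
      rw [sub_add_cancel] at h3
      rw [sub_zero]
      omega
    · intro z _ hz
      by_contra hn
      refine hz (sum_eq_zero fun i _ => ?_)
      have h1 : g (rep z) = 0 := by
        by_contra h1
        have := sp _ h1
        omega
      have h2 : g (rep (z + Pi.single i 1)) = 0 := by
        by_contra h2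
        have h3 := sp _ h2
        have h4 := nrm_sub_le (z + Pi.single i 1) (Pi.single i 1)
        rw [add_sub_cancel_right, nrm_single] at h4
        simp only [Int.natAbs_one] at h4
        omega
      rw [h1, h2]; simp
  have p2 : ∀ T : Finset (V D), ∑ z ∈ T, exp (2 * lam * (z 0 : ℝ)) * g (rep z) ^ 2 ≤
      5 / lam ^ 2 * ((D + 2) * En lam ω Q g) :=
    Hd.hardy (G := fun z => g (rep z)) hl hm m1 hG.d1 hG.w1 hG.seg sp fun T =>
      le_trans (sum_le_sum fun z _ => single_le_sum (f := fun i => exp (2 * lam * (z 0 : ℝ)) *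
        (g (rep (z + Pi.single i 1)) - g (rep z)) ^ 2 / w z)
        (fun i _ => by have := w0 z; positivity) (mem_univ 0)) (p1 T)
  have X0 : 0 ≤ 5 / lam ^ 2 * ((D + 2) * En lam ω Q g) := by positivity
  have e : (2 * D + 4) * (5 * (D + 2)) / lam ^ 2 * En lam ω Q g =
      (2 * D + 4) * (5 / lam ^ 2 * ((D + 2) * En lam ω Q g)) := by ring
  refine ⟨fun T => (p1 T).trans (mul_le_mul_of_nonneg_right (by nlinarith) E0),
    fun T => (p2 T).trans ?_, fun hw => ?_⟩
  · rw [e]; nlinarith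
  · rw [e]
    refine le_trans ?_ (mul_le_mul_of_nonneg_left (p2 Q) (by positivity))
    rw [mul_sum]
    refine sum_le_sum fun y _ => ?_
    by_cases hy : g y = 0
    · rw [hy]
      simp only [ne_eq, OfNat.ofNat_ne_zero, not_false_eq_true, zero_pow, mul_zero]
      positivity
    · rw [hG.fix y (hw y hy), ← mul_assoc]
      exact mul_le_mul_of_nonneg_right (pim_le hl.le l1 y) (sq_nonneg _)

end Pool.Agent.MP_8c549f_pr.L2

end

end Part3

-- ======== part 4: Spg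
section Part4

/-! PROJECT L2, row Spg: decay of the square norm from a Nash type inequality. -/

noncomputable section

namespace Pool.Agent.MP_8c549f_pr.L2

open MeasureTheory Finset Real Classical S3

namespace Spg

variable {D : ℕ} {lam : ℝ} {ω : Cfg D} {A Q : Finset (V D)}

theorem pim0 (x : V D) : 0 ≤ pim lam ω x := by
  rw [← sum_cnd]; exact sum_nonneg fun s _ => cnd_nonneg x s

/-- the scalar product -/
def ip (lam : ℝ) (ω : Cfg D) (Q : Finset (V D)) (a b : V D → ℝ) : ℝ :=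
  ∑ x ∈ Q, pim lam ω x * a x * b x

theorem mass (hI : IDStmt) {a : V D → ℝ} (h0 : ∀ x, 0 ≤ a x) (hS : Sup a Q) :
    ∑ x ∈ Q, pim lam ω x * Pf lam ω a x ≤ ∑ x ∈ Q, pim lam ω x * a x := by
  have h := (hI D lam ω Q).2.1 a (fun _ => 1) hS
  simp only [mul_one] at h
  rw [← h]
  exact sum_le_sum fun x _ =>
    mul_le_of_le_one_right (mul_nonneg (pim0 x) (h0 x)) (Pf_const_le zero_le_one x)

theorem supT (a : V D → ℝ) (x : V D) (h : Pu lam ω (A : Set (V D)) a x ≠ 0) : x ∈ A := by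
  by_contra hx
  exact h (Pu_of_not (by simpa using hx) a)

theorem ip_T {a : V D → ℝ} (ha : ∀ x, a x ≠ 0 → x ∈ A) (b : V D → ℝ) :
    ip lam ω Q a (Pu lam ω (A : Set (V D)) b) = ip lam ω Q a (Pf lam ω b) := by
  refine sum_congr rfl fun x _ => ?_
  by_cases h : a x = 0
  · simp [h]
  · rw [Pu_of_mem (by simpa using ha x h)]

theorem lower (hI : IDStmt) {k : V D → ℝ} (hS : Sup k Q) :
    0 ≤ ip lam ω Q k k + ip lam ω Q k (Pf lam ω k) := by
  have h1 := mass (lam := lam) (ω := ω) hI (a := fun x => k x ^ 2) (fun x => sq_nonneg _)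
    (fun x hx => hS x fun h => hx (by simp [h]))
  have h2 : 0 ≤ ∑ x ∈ Q, (pim lam ω x * k x ^ 2 + 2 * (pim lam ω x * k x * Pf lam ω k x) +
      pim lam ω x * Pf lam ω (fun x => k x ^ 2) x) := by
    refine sum_nonneg fun x _ => ?_
    rw [mul_right_comm, pim_Pf, pim_Pf, ← sum_cnd, sum_mul, sum_mul, mul_sum, ← sum_add_distrib,
      ← sum_add_distrib]
    refine sum_nonneg fun s _ => ?_
    have := mul_nonneg (cnd_nonneg (lam := lam) (ω := ω) x s) (sq_nonneg (k x + k (x + vec s)))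
    linarith
  rw [sum_add_distrib, sum_add_distrib, ← mul_sum] at h2
  have h3 : ip lam ω Q k k = ∑ x ∈ Q, pim lam ω x * k x ^ 2 :=
    sum_congr rfl fun x _ => by ring
  unfold ip at h3 ⊢
  linarith

theorem energy (hI : IDStmt) {g : V D → ℝ} (hS : Sup g Q) :
    En lam ω Q g = 2 * (ip lam ω Q g g - ip lam ω Q g (Pf lam ω g)) := by
  have h := (hI D lam ω Q).1 g g hS
  rw [En_eq]
  simp only [sq]
  rw [← h]
  simp only [ip, ← sum_sub_distrib, mul_sub]

/-- one step -/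
theorem step (hI : IDStmt) (hA : ∀ x ∈ A, x ∈ Q ∧ ∀ s, x + vec s ∈ Q) {a : V D → ℝ}
    (ha : ∀ x, a x ≠ 0 → x ∈ A) :
    En lam ω Q (fun x => a x + Pu lam ω (A : Set (V D)) a x) ≤
      4 * (ip lam ω Q a a -
        ip lam ω Q (Pu lam ω (A : Set (V D)) a) (Pu lam ω (A : Set (V D)) a)) := by
  set b := Pu lam ω (A : Set (V D)) a with hb
  have hb' : ∀ x, b x ≠ 0 → x ∈ A := supT a
  have hg : ∀ x, a x + b x ≠ 0 → x ∈ A := fun x hx => by
    by_cases h : a x = 0
    · exact hb' x (by simpa [h] using hx)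
    · exact ha x h
  have hk : ∀ x, a x - b x ≠ 0 → x ∈ A := fun x hx => by
    by_cases h : a x = 0
    · exact hb' x (by simpa [h] using hx)
    · exact ha x h
  have e1 := energy (lam := lam) (ω := ω) hI (g := fun x => a x + b x) fun x hx => hA x (hg x hx)
  have e2 := lower (lam := lam) (ω := ω) hI (k := fun x => a x - b x) fun x hx => hA x (hk x hx)
  have e3 : ip lam ω Q a (Pf lam ω b) = ip lam ω Q b (Pf lam ω a) :=
    (hI D lam ω Q).2.1 a b fun x hx => hA x (ha x hx)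
  have e4 : ip lam ω Q a b = ip lam ω Q a (Pf lam ω a) := ip_T ha a
  have e5 : ip lam ω Q b b = ip lam ω Q b (Pf lam ω a) := ip_T hb' a
  have f1 : ip lam ω Q (fun x => a x + b x) (fun x => a x + b x) =
      ip lam ω Q a a + 2 * ip lam ω Q a b + ip lam ω Q b b := by
    simp only [ip, mul_sum, ← sum_add_distrib]
    exact sum_congr rfl fun x _ => by ring
  have f2 : ip lam ω Q (fun x => a x - b x) (fun x => a x - b x) =
      ip lam ω Q a a - 2 * ip lam ω Q a b + ip lam ω Q b b := by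
    simp only [ip, mul_sum, ← sum_add_distrib, ← sum_sub_distrib]
    exact sum_congr rfl fun x _ => by ring
  have f3 : ip lam ω Q (fun x => a x + b x) (Pf lam ω fun x => a x + b x) =
      ip lam ω Q a (Pf lam ω a) + ip lam ω Q a (Pf lam ω b) + ip lam ω Q b (Pf lam ω a) +
        ip lam ω Q b (Pf lam ω b) := by
    simp only [ip, Pf_add, ← sum_add_distrib]
    exact sum_congr rfl fun x _ => by ring
  have f4 : ip lam ω Q (fun x => a x - b x) (Pf lam ω fun x => a x - b x) =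
      ip lam ω Q a (Pf lam ω a) - ip lam ω Q a (Pf lam ω b) - ip lam ω Q b (Pf lam ω a) +
        ip lam ω Q b (Pf lam ω b) := by
    simp only [ip, Pf_sub, ← sum_add_distrib, ← sum_sub_distrib]
    exact sum_congr rfl fun x _ => by ring
  linarith

end Spg

open Spg in
theorem spg (hI : IDStmt) : SPGStmt := by
  intro D lam ω A Q α κ hα hκ hA hN f f0 fA f1
  have p0 : ∀ n x, 0 ≤ Pk lam ω (A : Set (V D)) n f x := fun n => Pk_nonneg f0 n
  have pA : ∀ n x, Pk lam ω (A : Set (V D)) n f x ≠ 0 → x ∈ A := by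
    intro n
    cases n with
    | zero => exact fA
    | succ n => rw [Pk_succ]; exact supT _
  have p1 : ∀ n, ∑ x ∈ Q, pim lam ω x * Pk lam ω (A : Set (V D)) n f x ≤ 1 := by
    intro n
    induction n with
    | zero => exact f1
    | succ n ih =>
      refine le_trans (sum_le_sum fun x _ => ?_)
        ((mass hI (p0 n) fun x hx => hA x (pA n x hx)).trans ih)
      refine mul_le_mul_of_nonneg_left ?_ (pim0 x)
      by_cases hx : x ∈ (A : Set (V D))
      · rw [Pk_succ_mem hx]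
      · rw [Pk_succ_not hx]; exact Pf_nonneg (p0 n) x
  have u0 : 0 ≤ ∑ x ∈ Q, pim lam ω x * f x ^ 2 :=
    sum_nonneg fun x _ => mul_nonneg (pim0 x) (sq_nonneg _)
  intro n
  refine ⟨p1 n, ?_⟩
  induction n with
  | zero => simpa using hκ
  | succ n ih =>
    have s1 := step (lam := lam) (ω := ω) hI hA (pA n)
    rw [← Pk_succ] at s1
    have s2 := hN (fun x => Pk lam ω (A : Set (V D)) n f x + Pk lam ω (A : Set (V D)) (n + 1) f x)
      (fun x => add_nonneg (p0 n x) (p0 (n + 1) x))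
      (fun x hx => by
        by_cases h : Pk lam ω (A : Set (V D)) n f x = 0
        · exact pA (n + 1) x (by simpa [h] using hx)
        · exact pA n x h)
      (by
        simp only [mul_add, sum_add_distrib]
        linarith [p1 n, p1 (n + 1)])
    have s3 : ∑ x ∈ Q, pim lam ω x * Pk lam ω (A : Set (V D)) n f x ^ 2 ≤ ∑ x ∈ Q, pim lam ω x *
        (Pk lam ω (A : Set (V D)) n f x + Pk lam ω (A : Set (V D)) (n + 1) f x) ^ 2 :=
      sum_le_sum fun x _ => mul_le_mul_of_nonneg_left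
        (pow_le_pow_left₀ (p0 n x) (le_add_of_nonneg_right (p0 (n + 1) x)) 2) (pim0 x)
    have e : ∀ k, ip lam ω Q (Pk lam ω (A : Set (V D)) k f) (Pk lam ω (A : Set (V D)) k f) =
        ∑ x ∈ Q, pim lam ω x * Pk lam ω (A : Set (V D)) k f x ^ 2 :=
      fun k => sum_congr rfl fun x _ => by ring
    rw [e, e] at s1
    set u := ∑ x ∈ Q, pim lam ω x * Pk lam ω (A : Set (V D)) n f x ^ 2
    set v := ∑ x ∈ Q, pim lam ω x * Pk lam ω (A : Set (V D)) (n + 1) f x ^ 2
    set w := ∑ x ∈ Q, pim lam ω x * f x ^ 2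
    have a0 : 0 < 4 * α := by linarith
    have s4 : u ≤ α * (4 * (u - v)) + κ :=
      s3.trans (s2.trans (add_le_add (mul_le_mul_of_nonneg_left s1 (by linarith)) le_rfl))
    have s5 : v - κ ≤ (1 - 1 / (4 * α)) * (u - κ) := by
      have : (u - κ) / (4 * α) ≤ u - v := by rw [div_le_iff₀ a0]; linarith
      have e2 : (1 - 1 / (4 * α)) * (u - κ) = (u - κ) - (u - κ) / (4 * α) := by ring
      linarith
    have q0 : 0 ≤ 1 - 1 / (4 * α) := by
      have : 1 / (4 * α) ≤ 1 := by rw [div_le_one a0]; linarith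
      linarith
    have q1 : 1 - 1 / (4 * α) ≤ exp (-(1 / (4 * α))) := by
      linarith [add_one_le_exp (-(1 / (4 * α)))]
    have e3 : exp (-(((n + 1 : ℕ) : ℝ) / (4 * α))) =
        exp (-(1 / (4 * α))) * exp (-((n : ℝ) / (4 * α))) := by
      rw [← exp_add]; congr 1; push_cast; ring
    have s6 : (1 - 1 / (4 * α)) * (u - κ) ≤
        exp (-(1 / (4 * α))) * (exp (-((n : ℝ) / (4 * α))) * w) :=
      (mul_le_mul_of_nonneg_left (by linarith) q0).trans
        (mul_le_mul_of_nonneg_right q1 (mul_nonneg (exp_pos _).le u0))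
    rw [e3, mul_assoc]
    linarith

end Pool.Agent.MP_8c549f_pr.L2

end

end Part4

-- ======== part 5: Hk0
section Part5

/-! PROJECT L2: the diagonal heat kernel bound. -/

noncomputable section

namespace Pool.Agent.MP_8c549f_pr.L2

open MeasureTheory Finset Real Classical S3

namespace Hk0

theorem exp_le_inv {d : ℕ} {a b t : ℝ} (hb : 0 < b) (hab : b ≤ exp a) (ht : d * a ≤ t) :
    exp (-t) ≤ 1 / b ^ d := by
  rw [exp_neg, one_div]
  refine inv_anti₀ (pow_pos hb d) ?_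
  calc b ^ d ≤ exp a ^ d := pow_le_pow_left₀ hb.le hab d
    _ = exp (d * a) := (exp_nat_mul a d).symm
    _ ≤ exp t := exp_le_exp.2 ht

/-- the iteration over the scales -/
theorem iter (d J m r₁ : ℕ) (C : ℝ) (v : ℕ → ℝ) (hd : 1 ≤ d) (hC : 1 ≤ C) (hm : 1 ≤ m)
    (hJ : 16 * C * d ≤ J) (hv : ∀ n, 0 ≤ v n) (h0 : v 0 ≤ 3)
    (hS : ∀ r, m ≤ r → r ≤ r₁ → ∀ n₂ n₁ : ℕ,
      v (n₂ + n₁) ≤ 4 * C / (r : ℝ) ^ d + exp (-(n₂ / (4 * (C * (r : ℝ) ^ 2)))) * v n₁) :
    ∀ r, m ≤ r → r ≤ r₁ → ∀ n, J * (m ^ 3 + 2 * r ^ 2) ≤ n → v n ≤ (8 * C + 3) / (r : ℝ) ^ d := by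
  intro r
  induction r using Nat.strong_induction_on with
  | _ r ih =>
  intro h1 h2 n hn
  have hm' : (1 : ℝ) ≤ m := by exact_mod_cast hm
  have hr : (0 : ℝ) < r := by
    have : 0 < r := by omega
    exact_mod_cast this
  have hrd : (0 : ℝ) < (r : ℝ) ^ d := pow_pos hr d
  have hd' : (1 : ℝ) ≤ d := by exact_mod_cast hd
  have hden : 0 < 4 * (C * (r : ℝ) ^ 2) := by positivity
  by_cases hc : r < 2 * m
  · have h3 := hS r h1 h2 n 0
    rw [add_zero] at h3
    have hr2 : (r : ℝ) ≤ 2 * m := by exact_mod_cast hc.le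
    have hn' : (J : ℝ) * (m : ℝ) ^ 3 ≤ n := by
      have : J * m ^ 3 ≤ n := (Nat.mul_le_mul_left J (Nat.le_add_right _ _)).trans hn
      exact_mod_cast this
    have he : exp (-(n / (4 * (C * (r : ℝ) ^ 2)))) ≤ 1 / (r : ℝ) ^ d := by
      refine exp_le_inv (a := m) hr ?_ ?_
      · have := quadratic_le_exp_of_nonneg (x := (m : ℝ)) (by linarith)
        nlinarith [sq_nonneg ((m : ℝ) - 1)]
      · rw [le_div_iff₀ hden]
        have e1 : (r : ℝ) ^ 2 ≤ 4 * (m : ℝ) ^ 2 := by nlinarith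
        calc (d : ℝ) * m * (4 * (C * (r : ℝ) ^ 2)) ≤ d * m * (4 * (C * (4 * (m : ℝ) ^ 2))) := by
              gcongr
          _ = 16 * C * d * (m : ℝ) ^ 3 := by ring
          _ ≤ J * (m : ℝ) ^ 3 := by gcongr
          _ ≤ n := hn'
    calc v n ≤ 4 * C / (r : ℝ) ^ d + 1 / (r : ℝ) ^ d * 3 :=
          h3.trans (add_le_add le_rfl (mul_le_mul he h0 (hv 0) (by positivity)))
      _ = (4 * C + 3) / (r : ℝ) ^ d := by ring
      _ ≤ (8 * C + 3) / (r : ℝ) ^ d := by gcongr; linarith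
  · obtain ⟨r', hr'⟩ : ∃ r', r' = r / 2 := ⟨_, rfl⟩
    have a1 : m ≤ r' := by omega
    have a2 : r' < r := by omega
    have a3 : r ≤ 3 * r' := by omega
    have a4 : 2 * r' ^ 2 ≤ r ^ 2 := by
      have : 2 * r' ≤ r := by omega
      nlinarith
    have a5 : J * (m ^ 3 + 2 * r' ^ 2) + J * r ^ 2 ≤ n := by
      refine le_trans ?_ hn
      rw [← mul_add]
      exact Nat.mul_le_mul_left J (by omega)
    obtain ⟨n₂, hn₂⟩ : ∃ n₂, n = n₂ + J * (m ^ 3 + 2 * r' ^ 2) :=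
      ⟨n - J * (m ^ 3 + 2 * r' ^ 2), by omega⟩
    have a6 : (J : ℝ) * (r : ℝ) ^ 2 ≤ n₂ := by
      have : J * r ^ 2 ≤ n₂ := by omega
      exact_mod_cast this
    have h3 := hS r h1 h2 n₂ (J * (m ^ 3 + 2 * r' ^ 2))
    rw [← hn₂] at h3
    have h4 := ih r' a2 a1 (by omega) _ le_rfl
    have hr'0 : (0 : ℝ) < r' := by
      have : 0 < r' := by omega
      exact_mod_cast this
    have he : exp (-(n₂ / (4 * (C * (r : ℝ) ^ 2)))) ≤ 1 / (6 : ℝ) ^ d := by
      refine exp_le_inv (a := 4) (by norm_num) ?_ ?_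
      · have := quadratic_le_exp_of_nonneg (x := (4 : ℝ)) (by norm_num)
        linarith
      · rw [le_div_iff₀ hden]
        calc (d : ℝ) * 4 * (4 * (C * (r : ℝ) ^ 2)) = 16 * C * d * (r : ℝ) ^ 2 := by ring
          _ ≤ J * (r : ℝ) ^ 2 := by gcongr
          _ ≤ n₂ := a6
    have h5 : (8 * C + 3) / (r' : ℝ) ^ d ≤ 3 ^ d * ((8 * C + 3) / (r : ℝ) ^ d) := by
      have e1 : (r : ℝ) ^ d ≤ 3 ^ d * (r' : ℝ) ^ d := by
        rw [← mul_pow]
        exact pow_le_pow_left₀ hr.le (by exact_mod_cast a3) d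
      rw [← mul_div_assoc, div_le_div_iff₀ (pow_pos hr'0 d) hrd]
      calc (8 * C + 3) * (r : ℝ) ^ d ≤ (8 * C + 3) * (3 ^ d * (r' : ℝ) ^ d) := by gcongr
        _ = _ := by ring
    have h6 : 1 / (6 : ℝ) ^ d * 3 ^ d ≤ 1 / 2 := by
      have e1 : 1 / (6 : ℝ) ^ d * 3 ^ d = (1 / 2) ^ d := by
        rw [one_div, ← inv_pow, ← mul_pow]; norm_num
      rw [e1]
      exact pow_le_of_le_one (by norm_num) (by norm_num) (by omega)
    have h7 : 0 ≤ (8 * C + 3) / (r : ℝ) ^ d := by positivity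
    calc v n ≤ 4 * C / (r : ℝ) ^ d + 1 / (6 : ℝ) ^ d * (3 ^ d * ((8 * C + 3) / (r : ℝ) ^ d)) :=
          h3.trans (add_le_add le_rfl (mul_le_mul he (h4.trans h5) (hv _) (by positivity)))
      _ ≤ 4 * C / (r : ℝ) ^ d + 1 / 2 * ((8 * C + 3) / (r : ℝ) ^ d) := by
          rw [← mul_assoc]
          exact add_le_add le_rfl (mul_le_mul_of_nonneg_right h6 h7)
      _ = (8 * C + 3 / 2) / (r : ℝ) ^ d := by ring
      _ ≤ (8 * C + 3) / (r : ℝ) ^ d := by gcongr; norm_num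

end Hk0

theorem hk0 (hN : NSStmt) (hS : SPGStmt) : HK0Stmt := by
  intro D
  obtain ⟨C, hC, hN⟩ := hN D
  refine ⟨8 * C + 3, ⌈16 * C * ((D + 1 : ℕ) : ℝ)⌉₊, by linarith, ?_, ?_⟩
  · refine Nat.one_le_iff_ne_zero.2 (Nat.ceil_pos.2 ?_).ne'
    positivity
  intro ω R m h δ rep w hG lam x r r₁ n l0 l1 l4 h1 h2 hR hx hn
  have hm : 1 ≤ m := hG.h1.trans hG.hm
  set A := wb' ω h x r₁ with hA
  set Q := ball x (r₁ + 1) with hQ
  set E := exp (2 * lam * (x 0 : ℝ)) with hE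
  have hE0 : 0 < E := exp_pos _
  have hπ : E / 3 ≤ pim lam ω x := le_pim l0 l1 (wide_Zq hG.h1 hx lam)
  have hπ0 : 0 < pim lam ω x := lt_of_lt_of_le (by positivity) hπ
  set f : V D → ℝ := Pi.single x (pim lam ω x)⁻¹ with hf
  have hxA : x ∈ A := mem_wb'.2 ⟨by simp, hx⟩
  have hAQ : ∀ y ∈ A, y ∈ Q ∧ ∀ s, y + vec s ∈ Q := fun y hy =>
    ⟨mem_ball.2 ((mem_wb'.1 hy).1.trans (Nat.le_succ _)), fun s =>
      mem_ball.2 ((nrm_step y x s).trans (Nat.succ_le_succ (mem_wb'.1 hy).1))⟩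
  have hxQ : x ∈ Q := (hAQ x hxA).1
  have f0 : ∀ y, 0 ≤ f y := fun y => by
    by_cases e : y = x
    · subst e; simpa [hf] using hπ0.le
    · simp [hf, e]
  have fA : ∀ y, f y ≠ 0 → y ∈ A := fun y hy => by
    by_cases e : y = x
    · rwa [e]
    · simp [hf, e] at hy
  have f1 : ∑ y ∈ Q, pim lam ω y * f y ≤ 1 := by
    rw [sum_eq_single x (fun y _ e => by simp [hf, e]) fun e => absurd hxQ e]
    simp [hf, mul_inv_cancel₀ hπ0.ne']
  have f2 : ∑ y ∈ Q, pim lam ω y * f y ^ 2 = (pim lam ω x)⁻¹ := by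
    rw [sum_eq_single x (fun y _ e => by simp [hf, e]) fun e => absurd hxQ e]
    simp only [hf, Pi.single_eq_same]
    field_simp
  have fk : ∀ k y, Pk lam ω A k f y ≠ 0 → y ∈ A := fun k y hy => by
    cases k with
    | zero => exact fA y hy
    | succ k => by_contra e; exact hy (Pk_succ_not (by simpa using e) k f)
  have sp : ∀ ρ : ℕ, m ≤ ρ → ρ ≤ r₁ → ∀ g : V D → ℝ, (∀ y, 0 ≤ g y) → (∀ y, g y ≠ 0 → y ∈ A) →
      ∑ y ∈ Q, pim lam ω y * g y ≤ 1 → ∀ k : ℕ, ∑ y ∈ Q, pim lam ω y * Pk lam ω A k g y ≤ 1 ∧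
      ∑ y ∈ Q, pim lam ω y * Pk lam ω A k g y ^ 2 ≤ 4 * C / ((ρ : ℝ) ^ (D + 1) * E) +
        exp (-(k / (4 * (C * (ρ : ℝ) ^ 2)))) * ∑ y ∈ Q, pim lam ω y * g y ^ 2 := by
    intro ρ a1 a2
    have hρ : (1 : ℝ) ≤ ρ := by exact_mod_cast hm.trans a1
    refine hS D lam ω A Q (C * (ρ : ℝ) ^ 2) _ (by nlinarith) (by positivity) hAQ ?_
    intro g g0 gA g2
    refine (hN ω R m h δ rep w hG lam x ρ r₁ g Q l0 l1 l4 a1 a2 hR gA
      fun y hy => hAQ y (gA y hy)).trans (add_le_add le_rfl ?_)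
    simp only [abs_of_nonneg (g0 _)]
    have g3 : 0 ≤ ∑ y ∈ Q, pim lam ω y * g y :=
      sum_nonneg fun y _ => mul_nonneg (pim_nonneg _ _ _) (g0 y)
    refine div_le_div_of_nonneg_right ?_ (by positivity)
    have g4 : (∑ y ∈ Q, pim lam ω y * g y) ^ 2 ≤ 4 := by nlinarith
    nlinarith
  have key := Hk0.iter (D + 1) ⌈16 * C * ((D + 1 : ℕ) : ℝ)⌉₊ m r₁ C
    (fun k => E * ∑ y ∈ Q, pim lam ω y * Pk lam ω A k f y ^ 2) (by omega) hC hm (Nat.le_ceil _)
    (fun k => mul_nonneg hE0.le (sum_nonneg fun y _ => mul_nonneg (pim_nonneg _ _ _) (sq_nonneg _)))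
    (by
      simp only [Pk_zero]
      rw [f2, ← div_eq_mul_inv, div_le_iff₀ hπ0]
      linarith)
    (by
      intro ρ a1 a2 n₂ n₁
      have hρ : (0 : ℝ) < ρ := by
        have : 0 < ρ := by omega
        exact_mod_cast this
      have b := (sp ρ a1 a2 _ (Pk_nonneg f0 n₁) (fk n₁) (sp ρ a1 a2 f f0 fA f1 n₁).1 n₂).2
      rw [← Pk_add_apply] at b
      refine (mul_le_mul_of_nonneg_left b hE0.le).trans (le_of_eq ?_)
      field_simp) r h1 h2 n hn
  rw [← div_div, le_div_iff₀ hE0, mul_comm]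
  exact key

end Pool.Agent.MP_8c549f_pr.L2

end

end Part5

-- ======== part 6: Hk1
section Part6

/-! PROJECT L2: the pointwise heat kernel bound, by duality. -/

noncomputable section

namespace Pool.Agent.MP_8c549f_pr.L2

open MeasureTheory Finset Real Classical S3

namespace Hk1

variable {D : ℕ} {lam : ℝ} {ω : Cfg D}

theorem supp_Pk {A : Set (V D)} {a : V D → ℝ} (ha : ∀ y, a y ≠ 0 → y ∈ A) (n : ℕ) :
    ∀ y, Pk lam ω A n a y ≠ 0 → y ∈ A := by
  cases n with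
  | zero => exact ha
  | succ n =>
    intro y hy
    by_contra h
    exact hy (Pk_succ_not h n a)

theorem mul_Pu {A : Set (V D)} {a : V D → ℝ} (ha : ∀ y, a y ≠ 0 → y ∈ A) (b : V D → ℝ)
    (y : V D) : a y * Pu lam ω A b y = a y * Pf lam ω b y := by
  by_cases h : a y = 0
  · simp [h]
  · rw [Pu_of_mem (ha y h)]

theorem dual (hI : IDStmt) {A : Set (V D)} {Q : Finset (V D)}
    (hQ : ∀ y ∈ A, y ∈ Q ∧ ∀ s, y + vec s ∈ Q) {a : V D → ℝ} (ha : ∀ y, a y ≠ 0 → y ∈ A)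
    (n : ℕ) : ∀ b : V D → ℝ, (∀ y, b y ≠ 0 → y ∈ A) →
    ∑ y ∈ Q, pim lam ω y * a y * Pk lam ω A n b y =
      ∑ y ∈ Q, pim lam ω y * b y * Pk lam ω A n a y := by
  induction n with
  | zero =>
    intro b _
    exact sum_congr rfl fun y _ => by simp only [Pk_zero]; ring
  | succ n ih =>
    intro b hb
    have hc := supp_Pk (lam := lam) (ω := ω) ha n
    have hP : ∀ y, Pu lam ω A b y ≠ 0 → y ∈ A := fun y hy => by
      by_contra h
      exact hy (Pu_of_not h b)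
    have h2 := (hI D lam ω Q).2.1 (Pk lam ω A n a) b fun y hy => hQ y (hc y hy)
    rw [Pk_succ', ih _ hP, Pk_succ]
    calc ∑ y ∈ Q, pim lam ω y * Pu lam ω A b y * Pk lam ω A n a y
        = ∑ y ∈ Q, pim lam ω y * Pk lam ω A n a y * Pf lam ω b y := by
          refine sum_congr rfl fun y _ => ?_
          rw [mul_assoc, mul_comm (Pu lam ω A b y), mul_Pu hc, mul_assoc]
      _ = _ := by
          rw [h2]
          refine sum_congr rfl fun y _ => ?_
          rw [mul_assoc, mul_assoc, mul_Pu hb]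

theorem cs (Q : Finset (V D)) (p b c : V D → ℝ) (hp : ∀ y, 0 ≤ p y) :
    (∑ y ∈ Q, p y * b y * c y) ^ 2 ≤ (∑ y ∈ Q, p y * b y ^ 2) * ∑ y ∈ Q, p y * c y ^ 2 :=
  sum_sq_le_sum_mul_sum_of_sq_le_mul Q (fun y _ => mul_nonneg (hp y) (sq_nonneg _))
    (fun y _ => mul_nonneg (hp y) (sq_nonneg _)) fun y _ => le_of_eq (by ring)

end Hk1

open Hk1 in
theorem hk1 (hI : IDStmt) (h0 : HK0Stmt) : HKStmt := by
  intro D
  obtain ⟨C, J, hC, hJ, H⟩ := h0 D
  have hK : (1 : ℝ) ≤ (2 * D + 4) * exp 8 * C := by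
    have h1 : (1 : ℝ) ≤ 2 * D + 4 := by have : (0 : ℝ) ≤ D := Nat.cast_nonneg D; linarith
    have h2 : (1 : ℝ) ≤ exp 8 := one_le_exp (by norm_num)
    exact one_le_mul_of_one_le_of_one_le (one_le_mul_of_one_le_of_one_le h1 h2) hC
  refine ⟨(2 * D + 4) * exp 8 * C, J, hK, hJ, ?_⟩
  intro ω R m h δ rep w G lam x r r₁ n u l0 l1 lr hm hr hR hx hn
  have HH := H ω R m h δ rep w G lam x r r₁ n l0 l1 lr hm hr hR hx hn
  set A : Finset (V D) := wb' ω h x r₁ with hA
  set Q : Finset (V D) := ball x (r₁ + 1) with hQ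
  set a : V D → ℝ := Pi.single x (pim lam ω x)⁻¹ with ha
  set b : V D → ℝ := (A : Set (V D)).indicator fun y => max (u y) 0 with hb
  have hp : ∀ y, 0 ≤ pim lam ω y := fun y => by
    rw [← sum_cnd]; exact sum_nonneg fun s _ => cnd_nonneg y s
  have hpx : 0 < pim lam ω x :=
    lt_of_lt_of_le (by positivity) (le_pim l0 l1 (wide_Zq G.h1 hx lam))
  have hxA : x ∈ A := mem_wb'.2 ⟨by simp, hx⟩
  have hAQ : ∀ y ∈ (A : Set (V D)), y ∈ Q ∧ ∀ s, y + vec s ∈ Q := fun y hy => by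
    have := (mem_wb'.1 (mem_coe.1 hy)).1
    exact ⟨mem_ball.2 (by omega), fun s => mem_ball.2 ((nrm_step y x s).trans (by omega))⟩
  have sa : ∀ y, a y ≠ 0 → y ∈ (A : Set (V D)) := fun y hy => by
    by_cases e : y = x
    · rw [e]; exact hxA
    · exact absurd (Pi.single_eq_of_ne e _) hy
  have sb : ∀ y, b y ≠ 0 → y ∈ (A : Set (V D)) := fun y hy => by
    by_contra c
    exact hy (Set.indicator_of_notMem c _)
  have e1 : Pk lam ω (ball x r₁) n ((ball x r₁ : Set (V D)).indicator u) x =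
      Pk lam ω A n ((A : Set (V D)).indicator u) x := by
    have hm' : ∀ y, Wide ω y h → (y ∈ (ball x r₁ : Set (V D)) ↔ y ∈ (A : Set (V D))) :=
      fun y hy => by simp only [mem_coe, hA, mem_wb', mem_ball, hy, and_true]
    refine Pk_wide hx n (fun y hy _ => hm' y hy) fun y hy _ => ?_
    by_cases c : y ∈ (A : Set (V D))
    · rw [Set.indicator_of_mem c, Set.indicator_of_mem ((hm' y hy).2 c)]
    · rw [Set.indicator_of_notMem c, Set.indicator_of_notMem fun d => c ((hm' y hy).1 d)]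
  have e2 : Pk lam ω A n ((A : Set (V D)).indicator u) x ≤ Pk lam ω A n b x :=
    Pk_mono (fun y => Set.indicator_le_indicator (le_max_left (u y) 0)) n x
  have e3 : Pk lam ω A n b x = ∑ y ∈ Q, pim lam ω y * b y * Pk lam ω A n a y := by
    rw [← dual hI hAQ sa n b sb, sum_eq_single x]
    · rw [ha, Pi.single_eq_same, mul_inv_cancel₀ hpx.ne', one_mul]
    · intro y _ e
      rw [ha, Pi.single_eq_of_ne e]; simp
    · intro c
      exact absurd (hAQ x hxA).1 c
  set S : ℝ := ∑ y ∈ A, max (u y) 0 ^ 2 with hS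
  have hS0 : 0 ≤ S := sum_nonneg fun y _ => sq_nonneg _
  have e4 : ∑ y ∈ Q, pim lam ω y * b y ^ 2 ≤
      (2 * D + 4) * exp 8 * exp (2 * lam * (x 0 : ℝ)) * S := by
    rw [← sum_subset (s₁ := A) (fun y hy => (hAQ y hy).1) fun y _ hy => by
      rw [hb, Set.indicator_of_notMem (by simpa using hy)]; simp, hS, mul_sum]
    refine sum_le_sum fun y hy => ?_
    rw [hb, Set.indicator_of_mem (by simpa using hy)]
    refine mul_le_mul_of_nonneg_right ((pim_le l0 l1 y).trans ?_) (sq_nonneg _)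
    rw [mul_assoc (2 * (D : ℝ) + 4) (exp 8), ← exp_add]
    refine mul_le_mul_of_nonneg_left (exp_le_exp.2 ?_) (by positivity)
    have h1 := (abs_le.1 (nrm_le_iff.1 (mem_wb'.1 hy).1 0)).2
    have h2 : (y 0 : ℝ) - x 0 ≤ r₁ := by exact_mod_cast h1
    nlinarith [mul_le_mul_of_nonneg_left h2 l0]
  have hr1 : (0 : ℝ) < (r : ℝ) ^ (D + 1) := by
    have := G.h1
    have := G.hm
    have : 0 < r := by omega
    positivity
  have e5 : (∑ y ∈ Q, pim lam ω y * b y * Pk lam ω A n a y) ^ 2 ≤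
      ((2 * D + 4) * exp 8 * C) ^ 2 * (S / (r : ℝ) ^ (D + 1)) := by
    refine (cs Q _ _ _ hp).trans ((mul_le_mul e4 HH
      (sum_nonneg fun y _ => mul_nonneg (hp y) (sq_nonneg _)) (by positivity)).trans ?_)
    have : (2 * D + 4) * exp 8 * exp (2 * lam * (x 0 : ℝ)) * S *
        (C / ((r : ℝ) ^ (D + 1) * exp (2 * lam * (x 0 : ℝ)))) =
        ((2 * D + 4) * exp 8 * C) * (S / (r : ℝ) ^ (D + 1)) := by
      field_simp
    rw [this]
    exact mul_le_mul_of_nonneg_right (by nlinarith) (by positivity)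
  rw [e1]
  refine e2.trans (e3.trans_le ((le_abs_self _).trans ?_))
  refine (abs_le_sqrt e5).trans_eq ?_
  rw [sqrt_mul (sq_nonneg _), sqrt_sq (by linarith)]

end Pool.Agent.MP_8c549f_pr.L2

end

end Part6

-- ======== part 7: Agm
section Part7

/-! PROJECT L2: exponential decay of the exit probability in the mean (Agmon estimate). -/

noncomputable section

namespace Pool.Agent.MP_8c549f_pr.L2

open MeasureTheory Finset Real Classical S3

namespace Agm

variable {D : ℕ}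

theorem quarter_le {n : ℕ} (hn : 2 ≤ n) : (1 : ℝ) / 4 ≤ (1 - 1 / (n : ℝ)) ^ n := by
  have h2 : (2 : ℝ) ≤ n := by exact_mod_cast hn
  have hpos : (0 : ℝ) < n := by linarith
  -- two halves, Bernoulli on the square root
  have hq : (0 : ℝ) ≤ 1 - 1 / (n : ℝ) := by
    rw [sub_nonneg, div_le_one hpos]; linarith
  have hb : ∀ j : ℕ, 1 - (j : ℝ) / n ≤ (1 - 1 / (n : ℝ)) ^ j := fun j => by
    have := one_add_mul_le_pow (a := -(1 / (n : ℝ))) (by linarith) j
    calc 1 - (j : ℝ) / n = 1 + (j : ℝ) * -(1 / (n : ℝ)) := by ring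
      _ ≤ (1 + -(1 / (n : ℝ))) ^ j := this
      _ = _ := by ring
  rcases Nat.even_or_odd' n with ⟨j, hj | hj⟩
  · have e : (j : ℝ) / n = 1 / 2 := by
      have : (n : ℝ) = 2 * j := by exact_mod_cast hj
      rw [div_eq_iff hpos.ne', this]; ring
    have h1 := hb j
    rw [e] at h1
    have e2 : (1 - 1 / (n : ℝ)) ^ n = (1 - 1 / (n : ℝ)) ^ j * (1 - 1 / (n : ℝ)) ^ j := by
      rw [← pow_add]; congr 1; omega
    rw [e2]; nlinarith
  · have hn' : (n : ℝ) = 2 * j + 1 := by exact_mod_cast hj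
    have hj1 : (1 : ℝ) ≤ j := by
      have : 1 ≤ j := by omega
      exact_mod_cast this
    have h1 := hb j
    have e2 : (1 - 1 / (n : ℝ)) ^ n =
        (1 - 1 / (n : ℝ)) ^ j * (1 - 1 / (n : ℝ)) ^ j * (1 - 1 / (n : ℝ)) := by
      rw [← pow_add, ← pow_succ]; congr 1; omega
    have h3 : 0 ≤ 1 - (j : ℝ) / n := by
      rw [sub_nonneg, div_le_one hpos]; linarith
    have h4 : (1 - (j : ℝ) / n) * (1 - (j : ℝ) / n) ≤
        (1 - 1 / (n : ℝ)) ^ j * (1 - 1 / (n : ℝ)) ^ j := mul_self_le_mul_self h3 h1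
    have h5 : (1 : ℝ) / 4 ≤ (1 - (j : ℝ) / n) * (1 - (j : ℝ) / n) * (1 - 1 / (n : ℝ)) := by
      have e : (1 - (j : ℝ) / n) * (1 - (j : ℝ) / n) * (1 - 1 / (n : ℝ)) =
          ((j : ℝ) + 1) * ((j : ℝ) + 1) * (2 * j) / (n : ℝ) ^ 3 := by
        field_simp
        rw [hn']; ring
      rw [e, div_le_div_iff₀ (by norm_num) (by positivity), hn']
      nlinarith [mul_nonneg (sub_nonneg.2 hj1) (sub_nonneg.2 hj1)]
    rw [e2]
    exact h5.trans (mul_le_mul_of_nonneg_right h4 hq)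

/-- the discounted exit probability -/
def ph (lam : ℝ) (ω : Cfg D) (U : Set (V D)) (θ : ℝ) (n : ℕ) (y : V D) : ℝ :=
  ∑ j ∈ range n, θ ^ j * Pk lam ω U j (chi Uᶜ) y

variable {lam : ℝ} {ω : Cfg D} {U : Set (V D)} {θ : ℝ}

theorem ph_nonneg (h0 : 0 ≤ θ) (n : ℕ) (y : V D) : 0 ≤ ph lam ω U θ n y :=
  sum_nonneg fun j _ => mul_nonneg (pow_nonneg h0 j) (Pk_nonneg (chi_nonneg _) j y)

theorem ph_le_one (h0 : 0 ≤ θ) (h1 : θ ≤ 1) (n : ℕ) (y : V D) : ph lam ω U θ n y ≤ 1 := by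
  refine le_trans ?_ (Gs_chi_le_one (lam := lam) (ω := ω) (U := U) disjoint_compl_right n y)
  exact sum_le_sum fun j _ =>
    mul_le_of_le_one_left (Pk_nonneg (chi_nonneg _) j y) (pow_le_one₀ h0 h1)

theorem Gs_le_ph (h0 : 0 ≤ θ) (h1 : θ ≤ 1) {n : ℕ} (hq : (1 : ℝ) / 4 ≤ θ ^ n) (y : V D) :
    Gs lam ω U (n + 1) (chi Uᶜ) y ≤ 4 * ph lam ω U θ (n + 1) y := by
  rw [Gs, ph, mul_sum]
  refine sum_le_sum fun j hj => ?_
  have h2 : θ ^ n ≤ θ ^ j := pow_le_pow_of_le_one h0 h1 (by have := mem_range.1 hj; omega)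
  have h3 := Pk_nonneg (lam := lam) (ω := ω) (U := U) (chi_nonneg Uᶜ) j y
  nlinarith

theorem ph_sub (h0 : 0 ≤ θ) (n : ℕ) {y : V D} (hy : y ∈ U) :
    ph lam ω U θ (n + 1) y ≤ θ * Pf lam ω (ph lam ω U θ (n + 1)) y := by
  have e1 : ph lam ω U θ (n + 1) y = θ * Pf lam ω (ph lam ω U θ n) y := by
    have := Pf_sum (lam := lam) (ω := ω) (range n)
      (fun j z => θ ^ j * Pk lam ω U j (chi Uᶜ) z) y
    rw [ph, sum_range_succ', Pk_zero, chi_of_not (by simpa using hy), mul_zero, add_zero]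
    rw [show ph lam ω U θ n = fun z => ∑ j ∈ range n, θ ^ j * Pk lam ω U j (chi Uᶜ) z from rfl,
      this, mul_sum]
    refine sum_congr rfl fun j _ => ?_
    rw [Pf_mul, Pk_succ_mem hy]; ring
  rw [e1]
  refine mul_le_mul_of_nonneg_left (Pf_mono (fun z => ?_) y) h0
  rw [ph, ph, sum_range_succ]
  exact le_add_of_nonneg_right (mul_nonneg (pow_nonneg h0 n) (Pk_nonneg (chi_nonneg _) n z))

/-- the weight -/
def eta (ξ : ℝ) (x : V D) (r : ℕ) (y : V D) : ℝ := exp (ξ * ((r + 1 - nrm (y - x) : ℕ) : ℝ)) - 1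

theorem eta_mem {ξ : ℝ} {x : V D} {r : ℕ} {y : V D} (h : eta ξ x r y ≠ 0) : y ∈ ball x r := by
  rw [mem_ball]
  by_contra c
  apply h
  rw [eta, show r + 1 - nrm (y - x) = 0 by omega]
  simp

theorem nrm_step' (y x : V D) (s : Step D) : nrm (y - x) ≤ nrm (y + vec s - x) + 1 := by
  have := nrm_step (y + vec s) x (rev s)
  rwa [vec_rev, add_neg_cancel_right] at this

theorem eta_close {ξ : ℝ} (h0 : 0 ≤ ξ) (h1 : ξ ≤ 1) (x : V D) (r : ℕ) (y : V D) (s : Step D) :
    (eta ξ x r (y + vec s) - eta ξ x r y) ^ 2 ≤ 8 * ξ ^ 2 * (eta ξ x r y ^ 2 + 1) := by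
  set a : ℕ := r + 1 - nrm (y - x) with ha
  set b : ℕ := r + 1 - nrm (y + vec s - x) with hb
  have a1 : (b : ℝ) ≤ a + 1 := by
    have := nrm_step' y x s
    exact_mod_cast (show b ≤ a + 1 by omega)
  have a2 : (a : ℝ) ≤ b + 1 := by
    have := nrm_step y x s
    exact_mod_cast (show a ≤ b + 1 by omega)
  have t0 : |ξ * b - ξ * a| ≤ ξ := abs_le.2 ⟨by nlinarith, by nlinarith⟩
  have t1 := Real.abs_exp_sub_one_le (t0.trans h1)
  have e : eta ξ x r (y + vec s) - eta ξ x r y =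
      (eta ξ x r y + 1) * (exp (ξ * b - ξ * a) - 1) := by
    rw [eta, eta, ← ha, ← hb, exp_sub]
    have := exp_ne_zero (ξ * a)
    field_simp
    ring
  have t2 : (exp (ξ * b - ξ * a) - 1) ^ 2 ≤ (2 * ξ) ^ 2 := by
    rw [← sq_abs]
    exact pow_le_pow_left₀ (abs_nonneg _) (by linarith) 2
  rw [e, mul_pow]
  have t3 : (eta ξ x r y + 1) ^ 2 ≤ 2 * (eta ξ x r y ^ 2 + 1) := by
    nlinarith [sq_nonneg (eta ξ x r y - 1)]
  calc _ ≤ 2 * (eta ξ x r y ^ 2 + 1) * (2 * ξ) ^ 2 :=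
        mul_le_mul t3 t2 (sq_nonneg _) (by positivity)
    _ = _ := by ring

theorem eta_low {ξ : ℝ} (h0 : 0 ≤ ξ) {x : V D} {r k : ℕ} (hk : 1 ≤ k) {y : V D}
    (hy : y ∈ ball x ((r + 1) / 2)) : (ξ * r / 2) ^ k / k.factorial ≤ eta ξ x r y := by
  have h1 := mem_ball.1 hy
  have h2 : (r : ℝ) ≤ 2 * ((r + 1 - nrm (y - x) : ℕ) : ℝ) := by
    exact_mod_cast (show r ≤ 2 * (r + 1 - nrm (y - x)) by omega)
  have h3 : ξ * r / 2 ≤ ξ * ((r + 1 - nrm (y - x) : ℕ) : ℝ) := by nlinarith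
  have h4 : 0 ≤ ξ * r / 2 := by positivity
  have h5 := Real.sum_le_exp_of_nonneg h4 (k + 1)
  have h6 : ∑ i ∈ ({0, k} : Finset ℕ), (ξ * r / 2) ^ i / i.factorial ≤
      ∑ i ∈ range (k + 1), (ξ * r / 2) ^ i / i.factorial := by
    refine sum_le_sum_of_subset_of_nonneg (fun i hi => ?_) fun i _ _ => by positivity
    simp only [mem_insert, mem_singleton] at hi
    rcases hi with rfl | rfl <;> simp
  rw [sum_pair (by omega)] at h6
  simp only [pow_zero, Nat.factorial_zero, Nat.cast_one, div_one] at h6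
  have h7 := exp_le_exp.2 h3
  rw [eta]; linarith

/-- the weighted energy estimate -/
theorem weighted (hI : IDStmt) (lam : ℝ) (ω : Cfg D) (x : V D) (r : ℕ) {ξ μ : ℝ} (h0 : 0 ≤ ξ)
    (h1 : ξ ≤ 1) (hμ : 0 < μ) (hμ1 : μ ≤ 1) (he : 8 * ξ ^ 2 = μ) (φ : V D → ℝ) (p0 : ∀ y, 0 ≤ φ y)
    (p1 : ∀ y, φ y ≤ 1) (ps : ∀ y ∈ ball x r, φ y ≤ (1 - μ) * Pf lam ω φ y) :
    ∑ y ∈ ball x (r + 1), pim lam ω y * (eta ξ x r y * φ y) ^ 2 ≤
      ∑ y ∈ ball x (r + 1), pim lam ω y := by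
  obtain ⟨i1, -, -, i4⟩ := hI D lam ω (ball x (r + 1))
  set Q := ball x (r + 1) with hQ
  set η := eta ξ x r with hη
  have m1 : ∀ y, η y ≠ 0 → y ∈ Q ∧ ∀ s, y + vec s ∈ Q := fun y hy => by
    have := mem_ball.1 (eta_mem hy)
    exact ⟨mem_ball.2 (by omega), fun s => mem_ball.2 ((nrm_step y x s).trans (by omega))⟩
  have s1 : Sup (fun y => η y ^ 2 * φ y) Q := fun y hy =>
    m1 y (pow_ne_zero_iff two_ne_zero |>.1 (left_ne_zero_of_mul hy))
  have e1 := i1 _ φ s1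
  have e2 := i4 (fun a b => φ a ^ 2 * (η b - η a) ^ 2) fun y s hy => by
    have h2 : η (y + vec s) - η y ≠ 0 := pow_ne_zero_iff two_ne_zero |>.1 (right_ne_zero_of_mul hy)
    by_cases c : η y = 0
    · have c' : η (y + vec s) ≠ 0 := fun h => h2 (by rw [h, c, sub_zero])
      have := (m1 _ c').2 (rev s)
      rw [vec_rev, add_neg_cancel_right] at this
      exact ⟨this, (m1 _ c').1⟩
    · exact ⟨(m1 _ c).1, (m1 _ c).2 s⟩
  set X := ∑ y ∈ Q, pim lam ω y * (η y * φ y) ^ 2 with hX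
  set T := ∑ y ∈ Q, ∑ s, cnd lam ω y s * (φ y ^ 2 * (η (y + vec s) - η y) ^ 2) with hT
  have T0 : 0 ≤ T := sum_nonneg fun y _ => sum_nonneg fun s _ =>
    mul_nonneg (cnd_nonneg y s) (by positivity)
  -- the left side
  have b1 : (1 - μ) * ∑ y ∈ Q, pim lam ω y * (η y ^ 2 * φ y) * (φ y - Pf lam ω φ y) ≤ -(μ * X) := by
    rw [hX, mul_sum, mul_sum, ← sum_neg_distrib]
    refine sum_le_sum fun y _ => ?_
    by_cases c : η y = 0
    · simp [c]
    · have h2 := ps y (eta_mem c)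
      have h3 : 0 ≤ pim lam ω y * (η y ^ 2 * φ y) :=
        mul_nonneg (pim_nonneg lam ω y) (mul_nonneg (sq_nonneg _) (p0 y))
      have h4 := mul_le_mul_of_nonneg_left h2 h3
      nlinarith
  -- the right side
  have b2 : -T ≤ ∑ y ∈ Q, ∑ s, cnd lam ω y s * ((η (y + vec s) ^ 2 * φ (y + vec s) -
      η y ^ 2 * φ y) * (φ (y + vec s) - φ y)) := by
    have e3 : -T = ∑ y ∈ Q, ∑ s, (-(1 / 2) * (cnd lam ω y s * (φ y ^ 2 * (η (y + vec s) - η y) ^ 2)) +
        -(1 / 2) * (cnd lam ω y s * (φ (y + vec s) ^ 2 * (η y - η (y + vec s)) ^ 2))) := by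
      simp only [sum_add_distrib, ← mul_sum]
      rw [← e2]; ring
    rw [e3]
    refine sum_le_sum fun y _ => sum_le_sum fun s _ => ?_
    have h2 := cnd_nonneg (lam := lam) (ω := ω) y s
    have h3 := mul_nonneg h2 (sq_nonneg (η (y + vec s) * φ (y + vec s) - η y * φ y))
    have h4 := mul_nonneg h2 (sq_nonneg ((φ (y + vec s) - φ y) * (η (y + vec s) - η y)))
    nlinarith
  have b3 : T ≤ μ * X + μ * ∑ y ∈ Q, pim lam ω y := by
    rw [hT, hX, ← mul_add, ← sum_add_distrib, mul_sum]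
    refine sum_le_sum fun y _ => ?_
    have h2 : ∑ s, cnd lam ω y s * (φ y ^ 2 * (η (y + vec s) - η y) ^ 2) ≤
        ∑ s, cnd lam ω y s * (μ * ((η y * φ y) ^ 2 + 1)) := by
      refine sum_le_sum fun s _ => mul_le_mul_of_nonneg_left ?_ (cnd_nonneg y s)
      have h3 := eta_close h0 h1 x r y s
      rw [he] at h3
      have h4 := mul_le_mul_of_nonneg_left h3 (sq_nonneg (φ y))
      have h5 : φ y ^ 2 ≤ 1 := pow_le_one₀ (p0 y) (p1 y)
      have h6 := mul_le_mul_of_nonneg_left h5 hμ.le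
      nlinarith
    rw [← sum_mul, sum_cnd] at h2
    linarith
  have b4 : -T ≤ 2 * ∑ y ∈ Q, pim lam ω y * (η y ^ 2 * φ y) * (φ y - Pf lam ω φ y) := by
    rw [e1]; exact b2
  have b5 := mul_le_mul_of_nonneg_left b4 (sub_nonneg.2 hμ1)
  have b6 : μ * X ≤ μ * ∑ y ∈ Q, pim lam ω y := by nlinarith [mul_nonneg hμ.le T0]
  exact le_of_mul_le_mul_left b6 hμ

end Agm

open Agm in
theorem agm (hI : IDStmt) : AGMStmt := by
  intro D lam ω x r n k hn hr hk
  have h2 : (2 : ℝ) ≤ n := by exact_mod_cast hn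
  have hr' : (1 : ℝ) ≤ r := by exact_mod_cast hr
  have hpos : (0 : ℝ) < n := by linarith
  have hμ : (0 : ℝ) < 1 / n := by positivity
  have hμ1 : (1 : ℝ) / n ≤ 1 := by rw [div_le_one hpos]; linarith
  have t0 : (0 : ℝ) ≤ 1 - 1 / n := by linarith
  have t1 : (1 : ℝ) - 1 / n ≤ 1 := by linarith
  set ξ : ℝ := √(1 / (8 * n)) with hξ
  have x0 : 0 ≤ ξ := sqrt_nonneg _
  have x2 : ξ ^ 2 = 1 / (8 * n) := sq_sqrt (by positivity)
  have he : 8 * ξ ^ 2 = 1 / (n : ℝ) := by rw [x2]; field_simp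
  have x1 : ξ ≤ 1 := by nlinarith
  set φ := ph lam ω (ball x r : Set (V D)) (1 - 1 / (n : ℝ)) (n + 1) with hφ
  have hW := weighted hI lam ω x r x0 x1 hμ hμ1 he φ (ph_nonneg t0 _) (ph_le_one t0 t1 _)
    fun y hy => ph_sub t0 n (mem_coe.2 hy)
  set K : ℝ := (k.factorial : ℝ) ^ 2 * (32 * n / (r : ℝ) ^ 2) ^ k with hK
  have K0 : 0 ≤ K := by positivity
  have hf : (0 : ℝ) < k.factorial := by exact_mod_cast k.factorial_pos
  have hK1 : K * ((ξ * r / 2) ^ k / k.factorial) ^ 2 = 1 := by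
    have e : (32 * n / (r : ℝ) ^ 2) * (ξ * r / 2) ^ 2 = 1 := by
      rw [div_pow, mul_pow, x2]; field_simp; norm_num
    calc K * ((ξ * r / 2) ^ k / k.factorial) ^ 2
        = ((32 * n / (r : ℝ) ^ 2) * (ξ * r / 2) ^ 2) ^ k := by
          rw [hK, mul_pow, div_pow ((ξ * r / 2) ^ k), ← pow_mul, ← pow_mul, mul_comm k 2]
          field_simp
      _ = 1 := by rw [e, one_pow]
  calc ∑ y ∈ ball x ((r + 1) / 2), pim lam ω y * exq lam ω x r n y ^ 2
      ≤ ∑ y ∈ ball x ((r + 1) / 2), 16 * K * (pim lam ω y * (eta ξ x r y * φ y) ^ 2) := by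
        refine sum_le_sum fun y hy => ?_
        have a1 : exq lam ω x r n y ≤ 4 * φ y := Gs_le_ph t0 t1 (quarter_le hn) y
        have a0 : 0 ≤ exq lam ω x r n y := Gs_nonneg (chi_nonneg _) _ y
        have a2 : exq lam ω x r n y ^ 2 ≤ (4 * φ y) ^ 2 := pow_le_pow_left₀ a0 a1 2
        have a3 : ((ξ * r / 2) ^ k / k.factorial) ^ 2 ≤ eta ξ x r y ^ 2 :=
          pow_le_pow_left₀ (by positivity) (eta_low x0 hk hy) 2
        have a4 : 1 ≤ K * eta ξ x r y ^ 2 := hK1 ▸ mul_le_mul_of_nonneg_left a3 K0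
        have a5 := mul_le_mul_of_nonneg_left a4 (sq_nonneg (4 * φ y))
        have a6 := mul_le_mul_of_nonneg_left (a2.trans ((mul_one _).symm.le.trans a5))
          (pim_nonneg lam ω y)
        refine a6.trans (le_of_eq ?_)
        ring
    _ ≤ ∑ y ∈ ball x (r + 1), 16 * K * (pim lam ω y * (eta ξ x r y * φ y) ^ 2) :=
        sum_le_sum_of_subset_of_nonneg (ball_mono x (by omega)) fun y _ _ =>
          mul_nonneg (by positivity) (mul_nonneg (pim_nonneg lam ω y) (sq_nonneg _))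
    _ ≤ 16 * K * ∑ y ∈ ball x (r + 1), pim lam ω y := by
        rw [← mul_sum]; exact mul_le_mul_of_nonneg_left hW (by positivity)
    _ = _ := by rw [hK]; ring

end Pool.Agent.MP_8c549f_pr.L2

end

end Part7
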