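import Mathlib.Analysis.SpecialFunctions.Exp
import Mathlib.Analysis.SpecialFunctions.Trigonometric.DerivHyp
import Pool.Agent.MP_8c549f_pr.L3.Spec

-- ======== part 0: Chi
section Part0

/-! PROJECT L2, row Chi: the corrector is small compared with the scale. -/

noncomputable section

namespace Pool.Agent.MP_8c549f_pr.L2

open MeasureTheory Finset Real Classical S3

namespace Chi

variable {D : ℕ} {lam : ℝ} {ω : Cfg D}

lemma sq_le_of {E a : ℝ} (hE : 0 ≤ E) (h : E ≤ 2 * (a * √E) + E / 2) : E ≤ 16 * a ^ 2 := by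
  have h1 := Real.sq_sqrt hE
  nlinarith [sq_nonneg (√E - 4 * a)]

lemma energy (hE : EN2Stmt) {K C T : ℝ} (hK : 1 ≤ K) {l m : ℕ} (hs : Sc l m lam)
    {χ : V D → ℝ} {Q : Finset (V D)} (x : V D) (hT : 0 ≤ T) (hQ : Sup χ Q)
    (h3 : ∑ y ∈ Q, pim lam ω y * (et (1 / (4 * K) / l) x y * χ y) ^ 2 ≤
      K / lam ^ 2 * En lam ω Q fun y => et (1 / (4 * K) / l) x y * χ y)
    (hM : |∑ y ∈ Q, pim lam ω y * (et (1 / (4 * K) / l) x y * (et (1 / (4 * K) / l) x y * χ y)) *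
      (dr lam ω y - d0 D lam)| ≤
      C * √T * √(En lam ω Q fun y => et (1 / (4 * K) / l) x y * χ y))
    (heq : ∀ y, χ y ≠ 0 → χ y = dr lam ω y - d0 D lam + Pf lam ω χ y) :
    ∑ y ∈ Q, pim lam ω y * (et (1 / (4 * K) / l) x y * χ y) ^ 2 ≤
      16 * K * C ^ 2 * (l : ℝ) ^ 2 * T := by
  have hl := hs.lpos
  have hl1 : (16 : ℝ) ≤ l := by exact_mod_cast hs.l16
  have hlam := hs.pos
  have x1 : 1 / (4 * K) / (l : ℝ) ≤ 1 := by
    rw [div_div, div_le_one (by positivity)]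
    nlinarith
  have h1 := hE D lam (1 / (4 * K) / l) ω Q x χ (by positivity) x1 hQ
  have h2 : ∑ y ∈ Q, pim lam ω y * (et (1 / (4 * K) / l) x y ^ 2 * χ y) *
      (χ y - Pf lam ω χ y) =
      ∑ y ∈ Q, pim lam ω y * (et (1 / (4 * K) / l) x y * (et (1 / (4 * K) / l) x y * χ y)) *
        (dr lam ω y - d0 D lam) := by
    refine sum_congr rfl fun y _ => ?_
    by_cases hy : χ y = 0
    · rw [hy]; ring
    · have := heq y hy
      rw [show χ y - Pf lam ω χ y = dr lam ω y - d0 D lam by linarith]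
      ring
  rw [h2] at h1
  set E := En lam ω Q fun y => et (1 / (4 * K) / l) x y * χ y with hEd
  set X := ∑ y ∈ Q, pim lam ω y * (et (1 / (4 * K) / l) x y * χ y) ^ 2 with hXd
  have hE0 : 0 ≤ E := En_nonneg _ _
  have h4 : K / lam ^ 2 ≤ K * (l : ℝ) ^ 2 := by
    rw [div_le_iff₀ (by positivity)]
    have := hs.le_mul
    have h5 : 1 ≤ (lam * l) ^ 2 := one_le_pow₀ this
    nlinarith
  have h5 : X ≤ K * (l : ℝ) ^ 2 * E := h3.trans (mul_le_mul_of_nonneg_right h4 hE0)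
  have h6 : 4 * (1 / (4 * K) / (l : ℝ)) ^ 2 * X ≤ E / 2 := by
    refine (mul_le_mul_of_nonneg_left h5 (by positivity)).trans ?_
    have : 4 * (1 / (4 * K) / (l : ℝ)) ^ 2 * (K * (l : ℝ) ^ 2 * E) = E / (4 * K) := by
      field_simp
    rw [this]
    exact div_le_div_of_nonneg_left hE0 (by norm_num) (by linarith)
  have h7 : E ≤ 16 * (C * √T) ^ 2 := sq_le_of hE0 (by linarith [le_abs_self (∑ y ∈ Q,
    pim lam ω y * (et (1 / (4 * K) / l) x y * (et (1 / (4 * K) / l) x y * χ y)) *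
      (dr lam ω y - d0 D lam))])
  rw [mul_pow, Real.sq_sqrt hT] at h7
  calc X ≤ K * (l : ℝ) ^ 2 * E := h5
    _ ≤ K * (l : ℝ) ^ 2 * (16 * (C ^ 2 * T)) := mul_le_mul_of_nonneg_left h7 (by positivity)
    _ = _ := by ring

lemma lev_le {x y : V D} {r : ℕ} (h : nrm (y - x) ≤ r) : |(y 0 : ℝ) - x 0| ≤ r := by
  have := nrm_le_iff.1 h 0
  rw [Pi.sub_apply] at this
  exact_mod_cast this

lemma lam_r {l m r : ℕ} (hs : Sc l m lam) (hr : 16 * r ≤ l) : lam * r ≤ 1 / 4 := by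
  have h1 : 16 * (r : ℝ) ≤ l := by exact_mod_cast hr
  nlinarith [hs.mul_le, hs.pos]

lemma low {l m h r : ℕ} (hs : Sc l m lam) (h1 : 1 ≤ h) (hr : 16 * r ≤ l) {ξ : ℝ}
    (x1 : ξ ≤ 1) {x y : V D} (hy : y ∈ wb' ω h x r) :
    exp (2 * lam * (x 0 : ℝ)) / 9 ≤ pim lam ω y * et (ξ / l) x y ^ 2 := by
  obtain ⟨a, b⟩ := mem_wb'.1 hy
  have hl := hs.lpos
  have k1 := le_pim hs.pos.le (hs.le_quarter.trans (by norm_num)) (wide_Zq h1 b lam)
  have k2 := abs_le.1 (lev_le a)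
  have k3 := lam_r hs hr
  have k4 : (nrm (y - x) : ℝ) ≤ r := by exact_mod_cast a
  have k5 : 16 * (r : ℝ) ≤ l := by exact_mod_cast hr
  have k6 : ξ / l * (nrm (y - x) : ℝ) ≤ 1 / 16 := by
    rw [div_mul_eq_mul_div, div_le_iff₀ hl]
    nlinarith [(Nat.cast_nonneg (nrm (y - x)) : (0 : ℝ) ≤ _)]
  have k7 : exp (2 * lam * (x 0 : ℝ)) ≤
      exp 1 * (exp (2 * lam * (y 0 : ℝ)) * et (ξ / l) x y ^ 2) := by
    rw [et, ← Real.exp_nat_mul, ← exp_add, ← exp_add, exp_le_exp]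
    push_cast
    nlinarith [hs.pos]
  have k8 : exp 1 ≤ 3 := Real.exp_one_lt_three.le
  have k9 : 0 ≤ exp (2 * lam * (y 0 : ℝ)) * et (ξ / l) x y ^ 2 := by positivity
  have k10 := mul_le_mul_of_nonneg_right k1 (sq_nonneg (et (ξ / l) x y))
  nlinarith

lemma loc_sum {l m h r : ℕ} (hs : Sc l m lam) (h1 : 1 ≤ h) (hr : 16 * r ≤ l) {ξ : ℝ}
    (x1 : ξ ≤ 1) (x : V D) {χ : V D → ℝ} {Q : Finset (V D)} (hQ : Sup χ Q) :
    exp (2 * lam * (x 0 : ℝ)) / 9 * ∑ y ∈ wb' ω h x r, χ y ^ 2 ≤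
      ∑ y ∈ Q, pim lam ω y * (et (ξ / l) x y * χ y) ^ 2 := by
  rw [mul_sum]
  calc _ ≤ ∑ y ∈ wb' ω h x r, pim lam ω y * (et (ξ / l) x y * χ y) ^ 2 :=
        sum_le_sum fun y hy => by
          rw [mul_pow, ← mul_assoc]
          exact mul_le_mul_of_nonneg_right (low hs h1 hr x1 hy) (sq_nonneg _)
    _ ≤ _ := by
        rw [← sum_filter_of_ne (p := fun y => χ y ≠ 0) fun y _ hy h0 => hy (by rw [h0]; ring)]
        exact sum_le_sum_of_subset_of_nonneg (fun y hy => (hQ y (mem_filter.1 hy).2).1)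
          fun y _ _ => mul_nonneg (pim_nonneg _ _ _) (sq_nonneg _)

/-- the mean value inequality for the two signs -/
lemma mvs {h r : ℕ} (h1 : 1 ≤ h) {C S d : ℝ} (hC : 0 ≤ C) (hS : 0 ≤ S) (h0 : 0 ≤ lam)
    (hd : |d| ≤ lam) {x : V D} {U : Finset (V D)} {χ : V D → ℝ}
    (hV : ∀ u : V D → ℝ, (∀ y ∈ wb' ω h x r, u y - Pf lam ω u y ≤ lam) →
      (∀ y ∈ wb' ω h x (r + 1), u y ≤ S) → u x ≤ (r : ℝ) ^ 2 * lam + S / 8 +
        C * √((∑ y ∈ wb' ω h x r, max (u y) 0 ^ 2) / (r : ℝ) ^ (D + 1)))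
    (e1 : ∀ y ∈ U, χ y = dr lam ω y - d + Pf lam ω χ y) (e2 : ∀ y ∉ U, χ y = 0)
    (hb : ∀ y ∈ wb' ω h x (r + 1), |χ y| ≤ S) {σ : ℝ} (hσ : |σ| = 1) :
    σ * χ x ≤ (r + 1) + (r : ℝ) ^ 2 * lam + S / 8 +
      C * √((∑ y ∈ wb' ω h x r, χ y ^ 2) / (r : ℝ) ^ (D + 1)) := by
  set g : V D → ℝ := fun y => σ * (χ y + (y 0 : ℝ)) - (σ * (x 0 : ℝ) + (r + 1)) with hg
  have k1 : ∀ y, nrm (y - x) ≤ r + 1 → g y ≤ σ * χ y := fun y hy => by
    have a := lev_le hy
    have b : σ * ((y 0 : ℝ) - x 0) ≤ |σ * ((y 0 : ℝ) - x 0)| := le_abs_self _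
    rw [abs_mul, hσ, one_mul] at b
    push_cast at a
    simp only [hg]
    linarith
  have k2 : ∀ y, σ * χ y ≤ |χ y| := fun y => by
    have b := le_abs_self (σ * χ y)
    rwa [abs_mul, hσ, one_mul] at b
  have k3 := hV (fun y => max (g y) 0) (fun y hy => by
    obtain ⟨a, b⟩ := mem_wb'.1 hy
    have p0 : 0 ≤ Pf lam ω (fun y => max (g y) 0) y := Pf_nonneg (fun _ => le_max_right _ _) y
    have p1 : g y ≤ Pf lam ω (fun y => max (g y) 0) y + lam := by
      by_cases hU : y ∈ U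
      · have z := wide_Zq h1 b lam
        have q1 : Pf lam ω g y ≤ Pf lam ω (fun y => max (g y) 0) y :=
          Pf_mono (fun _ => le_max_left _ _) y
        have q2 : Pf lam ω g y = σ * (Pf lam ω χ y + ((y 0 : ℝ) + dr lam ω y)) -
            (σ * (x 0 : ℝ) + (r + 1)) := by
          rw [hg, Pf_sub, Pf_mul, Pf_add, Pf_lev z, Pf_const z]
        have q3 : -(σ * d) ≤ lam := by
          have := neg_abs_le (σ * d)
          rw [abs_mul, hσ, one_mul] at this
          linarith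
        have q4 : g y = Pf lam ω g y - σ * d := by
          rw [q2]
          simp only [hg]
          rw [e1 y hU]
          ring
        linarith
      · have := k1 y (by omega)
        rw [e2 y hU, mul_zero] at this
        linarith
    have p2 : max (g y) 0 ≤ Pf lam ω (fun y => max (g y) 0) y + lam := max_le p1 (by linarith)
    linarith) (fun y hy =>
      max_le ((k1 y (mem_wb'.1 hy).1).trans ((k2 y).trans (hb y hy))) hS)
  have k4 : ∑ y ∈ wb' ω h x r, max (max (g y) 0) 0 ^ 2 ≤ ∑ y ∈ wb' ω h x r, χ y ^ 2 :=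
    sum_le_sum fun y hy => by
      rw [← sq_abs (χ y)]
      refine pow_le_pow_left₀ (le_max_right _ _) (max_le (max_le ?_ (abs_nonneg _)) (abs_nonneg _)) 2
      exact (k1 y ((mem_wb'.1 hy).1.trans (Nat.le_succ r))).trans (k2 y)
  have k5 := mul_le_mul_of_nonneg_left (Real.sqrt_le_sqrt
    (div_le_div_of_nonneg_right k4 (by positivity : (0 : ℝ) ≤ (r : ℝ) ^ (D + 1)))) hC
  have k6 : g x ≤ max (g x) 0 := le_max_left _ _
  have k7 : g x = σ * χ x - (r + 1) := by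
    simp only [hg]
    ring
  linarith

lemma root {a b δ v X : ℝ} {l r E n : ℕ} (ha : 0 < a) (hb : 0 < b) (hv : 0 ≤ v) (hδ : 0 ≤ δ)
    (hr : 1 ≤ r) (hE : 1 ≤ E) (hl : l ≤ 2 * E * r) (hd : δ ≤ b ^ 2 / (a * (2 * E) ^ n))
    (hX : X ≤ a * δ * (l : ℝ) ^ (n + 2) * v ^ 2) : √(X / (r : ℝ) ^ n) ≤ b * l * v := by
  have r0 : (0 : ℝ) < r := by exact_mod_cast hr
  have E0 : (0 : ℝ) < E := by exact_mod_cast hE
  refine Real.sqrt_le_iff.2 ⟨by positivity, ?_⟩
  rw [div_le_iff₀ (by positivity)]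
  have h1 : (l : ℝ) ^ n ≤ (2 * E) ^ n * (r : ℝ) ^ n := by
    rw [← mul_pow]
    exact pow_le_pow_left₀ (by positivity) (by exact_mod_cast hl) n
  have h2 : a * δ * (2 * E) ^ n ≤ b ^ 2 := by
    rw [le_div_iff₀ (by positivity)] at hd
    linarith
  calc X ≤ a * δ * (l : ℝ) ^ n * ((l : ℝ) * v) ^ 2 := by rw [pow_add] at hX; linarith
    _ ≤ a * δ * ((2 * E) ^ n * (r : ℝ) ^ n) * ((l : ℝ) * v) ^ 2 := by gcongr
    _ = a * δ * (2 * E) ^ n * ((r : ℝ) ^ n * ((l : ℝ) * v) ^ 2) := by ring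
    _ ≤ b ^ 2 * ((r : ℝ) ^ n * ((l : ℝ) * v) ^ 2) := by gcongr
    _ = _ := by ring

end Chi

open Chi in
theorem chiS (hE : EN2Stmt) (hH : HDStmt) (hM : HMStmt) (hV : MVStmt) (hD : D0Stmt) :
    CHIStmt := by
  intro D ε hε
  obtain ⟨K, hK, hH⟩ := hH D
  have x1 : 1 / (4 * K) ≤ 1 := by
    rw [div_le_one (by positivity)]
    linarith
  obtain ⟨C, hC, hM⟩ := hM D (1 / (4 * K)) (by positivity) x1
  obtain ⟨C', M, hC', hM1, hV⟩ := hV D
  obtain ⟨E, hE1⟩ := exists_nat_ge (max 16 (12 / ε))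
  have E16 : (16 : ℝ) ≤ E := (le_max_left _ _).trans hE1
  have E16' : 16 ≤ E := by exact_mod_cast E16
  have E12 : 12 ≤ ε * E := by
    have := (le_max_right _ _).trans hE1
    rw [div_le_iff₀ hε] at this
    linarith
  refine ⟨(ε / (4 * C')) ^ 2 / (144 * K * C ^ 2 * (2 * E) ^ (D + 1)), (M * E) ^ 6 + E,
    by positivity, ?_⟩
  intro ω R m h δ rep w G hδ l lam hl hs U L χ hU e1 e2
  have l0 := hs.lpos
  have lam0 := hs.pos
  have lam1 : lam ≤ 1 := hs.le_quarter.trans (by norm_num)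
  have hχ : ∀ y, χ y ≠ 0 → y ∈ U := fun y hy => by_contra fun c => hy (e2 y c)
  rcases U.eq_empty_or_nonempty with rfl | hne
  · intro y
    rw [e2 y (by simp), abs_zero]
    positivity
  obtain ⟨x, hx, hmax⟩ := exists_max_image U
    (fun y => |χ y| / exp (lam * (L - y 0 : ℤ))) hne
  obtain ⟨xw, xR, xL⟩ := hU x hx
  set v := exp (lam * (L - x 0 : ℤ)) with hv
  have v0 : 0 < v := exp_pos _
  have v1 : 1 ≤ v := one_le_exp (mul_nonneg lam0.le (by exact_mod_cast (by omega)))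
  have hS : ∀ y, |χ y| ≤ |χ x| / v * exp (lam * (L - y 0 : ℤ)) := fun y => by
    by_cases c : y ∈ U
    · exact (div_le_iff₀ (exp_pos _)).1 (hmax y c)
    · rw [e2 y c, abs_zero]
      positivity
  suffices hfin : |χ x| ≤ ε * l * v by
    intro y
    exact (hS y).trans (mul_le_mul_of_nonneg_right ((div_le_iff₀ v0).2 hfin) (exp_pos _).le)
  set r := l / E with hr
  have rE : r * E ≤ l := Nat.div_mul_le_self l E
  have r1 : 1 ≤ r := (Nat.le_div_iff_mul_le (by omega)).2 (by omega)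
  have r16 : 16 * r ≤ l := by nlinarith
  have rl : l ≤ 2 * E * r := by
    have := Nat.lt_mul_div_succ l (show 0 < E by omega)
    nlinarith
  have rM : M * m ^ 5 ≤ r := (Nat.le_div_iff_mul_le (by omega)).2 (by
    have := hs.big (M := M * E) (by omega)
    nlinarith)
  have lr := lam_r hs r16
  -- energy
  have hQ : Sup χ (U.biUnion fun y => ball y 1) := fun y hy =>
    ⟨mem_biUnion.2 ⟨y, hχ y hy, self_mem_ball _ _⟩,
      fun s => mem_biUnion.2 ⟨y, hχ y hy, mem_ball.2 (by simp)⟩⟩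
  have hf : ∀ y, et (1 / (4 * K) / l) x y * χ y ≠ 0 → y ∈ U := fun y hy =>
    hχ y (right_ne_zero_of_mul hy)
  have hQ' : Sup (fun y => et (1 / (4 * K) / l) x y * χ y) (U.biUnion fun y => ball y 1) :=
    fun y hy => hQ y (right_ne_zero_of_mul hy)
  have m16 := hs.m16
  have lm : lam * m ≤ 1 := (lam_r hs m16).trans (by norm_num)
  have en := energy hE hK hs x
    (T := δ * (l : ℝ) ^ (D + 1) * exp (2 * lam * L)) (by have := G.d0; positivity) hQ
    ((hH ω R m h δ rep w G lam _ _ lam0 lm (fun y hy => by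
      have := (hU y (hf y hy)).2.1
      have := G.hm
      have := hs.l16
      omega) hQ').2.2 fun y hy => (hU y (hf y hy)).1)
    (hM ω R m h δ rep w G l lam hs _ _ x L (fun y hy => hU y (hf y hy)) hQ')
    fun y hy => e1 y (hχ y hy)
  have ls := (loc_sum (ω := ω) hs G.h1 r16 x1 x hQ).trans en
  have hX : ∑ y ∈ wb' ω h x r, χ y ^ 2 ≤ 144 * K * C ^ 2 * δ * (l : ℝ) ^ (D + 1 + 2) * v ^ 2 := by
    have a : exp (2 * lam * L) = exp (2 * lam * (x 0 : ℝ)) * v ^ 2 := by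
      rw [hv, ← Real.exp_nat_mul, ← exp_add]
      congr 1
      push_cast
      ring
    rw [a] at ls
    refine le_of_mul_le_mul_left (ls.trans_eq ?_)
      (by positivity : 0 < exp (2 * lam * (x 0 : ℝ)) / 9)
    ring
  have rt := root (by positivity) (by positivity : 0 < ε / (4 * C')) v0.le G.d0 r1 (by omega) rl
    hδ hX
  have hb : ∀ y ∈ wb' ω h x (r + 1), |χ y| ≤ 2 * |χ x| := fun y hy => by
    refine (hS y).trans ?_
    have a := abs_le.1 (lev_le (mem_wb'.1 hy).1)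
    have b : exp (lam * (L - y 0 : ℤ)) ≤ exp (1 / 2) * v := by
      rw [hv, ← exp_add, exp_le_exp]
      push_cast at a ⊢
      nlinarith [hs.le_quarter]
    have c : exp (1 / 2) ≤ 2 := by
      have c1 : exp (1 / 2) ^ 2 = exp 1 := by
        rw [← Real.exp_nat_mul]
        norm_num
      nlinarith [Real.exp_one_lt_three, exp_pos (1 / 2)]
    calc _ ≤ |χ x| / v * (2 * v) := by
          refine mul_le_mul_of_nonneg_left (b.trans ?_) (by positivity)
          exact mul_le_mul_of_nonneg_right c v0.le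
      _ = _ := by field_simp
  have hd : |d0 D lam| ≤ lam := by
    obtain ⟨a, b⟩ := (hD D).2.1 lam lam0.le
    rwa [abs_of_nonneg a]
  have key : ∀ σ : ℝ, |σ| = 1 → σ * χ x ≤ (r + 1) + (r : ℝ) ^ 2 * lam + 2 * |χ x| / 8 +
      C' * √((∑ y ∈ wb' ω h x r, χ y ^ 2) / (r : ℝ) ^ (D + 1)) := fun σ hσ =>
    mvs G.h1 (by linarith) (by positivity) lam0.le hd
      (fun u a b => hV ω R m h δ rep w G lam x r u lam _ lam0.le lam1 (by linarith) (by omega) xw
        rM lam0.le (by positivity) a b) e1 e2 hb hσ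
  have k1 : |χ x| ≤ (r + 1) + (r : ℝ) ^ 2 * lam + 2 * |χ x| / 8 +
      C' * √((∑ y ∈ wb' ω h x r, χ y ^ 2) / (r : ℝ) ^ (D + 1)) := by
    refine abs_le.2 ⟨?_, ?_⟩
    · have := key (-1) (by simp)
      linarith
    · have := key 1 (by simp)
      linarith
  have k2 : C' * √((∑ y ∈ wb' ω h x r, χ y ^ 2) / (r : ℝ) ^ (D + 1)) ≤ ε / 4 * l * v := by
    refine (mul_le_mul_of_nonneg_left rt (by linarith)).trans_eq ?_
    field_simp
  have r1' : (1 : ℝ) ≤ r := by exact_mod_cast r1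
  have rE' : (r : ℝ) * E ≤ l := by exact_mod_cast rE
  have k3 : (r : ℝ) ^ 2 * lam ≤ r := by nlinarith
  have k4 : 12 * (r : ℝ) ≤ ε * l := by nlinarith
  have k5 : ε * l ≤ ε * l * v := le_mul_of_one_le_right (by positivity) v1
  nlinarith [abs_nonneg (χ x)]

end Pool.Agent.MP_8c549f_pr.L2

end

end Part0

-- ======== part 1: Lc
section Part1

/-! PROJECT L2, row Lc: logarithmic Caccioppoli inequality for positive supersolutions. -/

noncomputable section

namespace Pool.Agent.MP_8c549f_pr.L2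

open MeasureTheory Finset Real Classical S3

namespace Lc

theorem sq_le_sinh (u : ℝ) : u ^ 2 ≤ sinh u ^ 2 := by
  rcases le_total 0 u with h | h
  · exact pow_le_pow_left₀ h (Real.self_le_sinh_iff.2 h) 2
  · have h1 : sinh u ≤ u := Real.sinh_le_self_iff.2 h
    nlinarith

theorem log_sq_le {a b : ℝ} (ha : 0 < a) (hb : 0 < b) :
    (log b - log a) ^ 2 ≤ (a - b) ^ 2 / (a * b) := by
  set u := (log b - log a) / 2 with hu
  have h1 := sq_le_sinh u
  have h2 : exp u * exp u = b / a := by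
    rw [← exp_add, show u + u = log b - log a by rw [hu]; ring, exp_sub, exp_log hb, exp_log ha]
  have h3 : exp (-u) * exp (-u) = a / b := by
    rw [← exp_add, show -u + -u = log a - log b by rw [hu]; ring, exp_sub, exp_log hb, exp_log ha]
  have h4 : exp u * exp (-u) = 1 := by rw [← exp_add]; simp
  have h5 : 4 * sinh u ^ 2 = b / a + a / b - 2 := by
    rw [sinh_eq, ← h2, ← h3]; nlinarith
  have h6 : (a - b) ^ 2 / (a * b) = b / a + a / b - 2 := by
    field_simp; ring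
  have h7 : (log b - log a) ^ 2 = 4 * u ^ 2 := by rw [hu]; ring
  rw [h6, h7, ← h5]; linarith

theorem split {a b e e' : ℝ} (ha : 0 < a) (hb : 0 < b) :
    (e' ^ 2 / b - e ^ 2 / a) * (b - a) = (e' - e) ^ 2 - (e' * a - e * b) ^ 2 / (a * b) := by
  field_simp; ring

end Lc

theorem lc (hI : IDStmt) : LCStmt := by
  intro D lam ω g η Q Q' hg hS hsup hQ h1
  have hφ : Sup (fun y => η y ^ 2 / g y) Q := by
    intro x hx
    refine hS x fun h0 => hx ?_
    simp [h0]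
  have hid := (hI D lam ω Q).1 (fun y => η y ^ 2 / g y) g hφ
  have hpos : 0 ≤ ∑ x ∈ Q, pim lam ω x * (η x ^ 2 / g x) * (g x - Pf lam ω g x) := by
    refine sum_nonneg fun x _ => ?_
    by_cases h0 : η x = 0
    · simp [h0]
    · have hp : 0 ≤ pim lam ω x := by
        rw [← sum_cnd]; exact sum_nonneg fun s _ => cnd_nonneg _ _
      exact mul_nonneg (mul_nonneg hp (div_nonneg (sq_nonneg _) (hg x).le))
        (sub_nonneg.2 (hsup x h0))
  have hB : ∑ x ∈ Q, ∑ s, cnd lam ω x s *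
      ((η (x + vec s) * g x - η x * g (x + vec s)) ^ 2 / (g x * g (x + vec s))) ≤
      En lam ω Q η := by
    have e : ∑ x ∈ Q, ∑ s, cnd lam ω x s *
        ((η (x + vec s) ^ 2 / g (x + vec s) - η x ^ 2 / g x) * (g (x + vec s) - g x)) =
        En lam ω Q η - ∑ x ∈ Q, ∑ s, cnd lam ω x s *
          ((η (x + vec s) * g x - η x * g (x + vec s)) ^ 2 / (g x * g (x + vec s))) := by
      rw [En_eq, ← sum_sub_distrib]
      refine sum_congr rfl fun x _ => ?_
      rw [← sum_sub_distrib]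
      refine sum_congr rfl fun s _ => ?_
      rw [Lc.split (hg x) (hg _), mul_sub]
    rw [e] at hid
    linarith
  refine le_trans ?_ hB
  rw [En_eq]
  refine le_trans (sum_le_sum fun x hx => ?_) (sum_le_sum_of_subset_of_nonneg hQ fun x _ _ =>
    sum_nonneg fun s _ => mul_nonneg (cnd_nonneg _ _)
      (div_nonneg (sq_nonneg _) (mul_pos (hg _) (hg _)).le))
  refine sum_le_sum fun s _ => mul_le_mul_of_nonneg_left ?_ (cnd_nonneg _ _)
  rw [(h1 x hx).1, (h1 x hx).2 s, one_mul, one_mul]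
  exact Lc.log_sq_le (hg _) (hg _)

end Pool.Agent.MP_8c549f_pr.L2

end

end Part1

-- ======== part 2: Wh
section Part2

/-! PROJECT L2: the weak Harnack inequality. -/

set_option linter.unusedVariables false

noncomputable section

namespace Pool.Agent.MP_8c549f_pr.L2

open MeasureTheory Finset Real Classical S3

namespace Wh

variable {D : ℕ}

/-- distance to the flat box -/
def ds (x : V D) (K : ℕ) (y : V D) : ℕ := max (y 0 - x 0).natAbs (nrm (y - x) - K)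

def rad (D k K : ℕ) (j : Fin (D + 1)) : ℕ := if j = 0 then k else K + k

theorem bx_eq (x : V D) (k K : ℕ) :
    bx x k K = box (fun j => x j - rad D k K j) fun j => 2 * rad D k K j + 1 := by
  unfold bx box rad
  congr 1
  funext j
  ext t
  by_cases e : j = 0 <;> simp only [e, if_true, if_false, mem_Icc, mem_Ico] <;> omega

theorem card_bx (x : V D) (k K : ℕ) : (bx x k K).card = ∏ j, (2 * rad D k K j + 1) := by
  rw [bx_eq, box, Fintype.card_piFinset]
  refine prod_congr rfl fun j _ => ?_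
  rw [Int.card_Ico]
  omega

theorem mem_bx {x y : V D} {k K : ℕ} : y ∈ bx x k K ↔ ds x K y ≤ k := by
  rw [ds, max_le_iff, tsub_le_iff_left, nrm_le_iff, bx, Fintype.mem_piFinset]
  constructor
  · intro h
    have h0 := h 0
    rw [if_pos rfl, mem_Icc] at h0
    refine ⟨by omega, fun j => ?_⟩
    have hj := h j
    rw [Pi.sub_apply, abs_le]
    split_ifs at hj <;> rw [mem_Icc] at hj <;> omega
  · rintro ⟨h0, h⟩ j
    have hj := h j
    rw [Pi.sub_apply, abs_le] at hj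
    split_ifs with e
    · subst e
      rw [mem_Icc]
      omega
    · rw [mem_Icc]
      omega

theorem ds_lip (x : V D) (K : ℕ) (y y' : V D) : ds x K y' ≤ ds x K y + nrm (y' - y) := by
  have h1 := nrm_tri y' y x
  have h2 := abs_le.1 (abs_le_nrm (y' - y) 0)
  rw [Pi.sub_apply] at h2
  unfold ds
  omega

theorem ds_step (x : V D) (K : ℕ) (y : V D) (s : Step D) :
    ds x K (y + vec s) ≤ ds x K y + 1 ∧ ds x K y ≤ ds x K (y + vec s) + 1 := by
  have h1 := ds_lip x K y (y + vec s)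
  have h2 := ds_lip x K (y + vec s) y
  rw [nrm_sub_comm] at h2
  rw [add_sub_cancel_left, nrm_vec] at h1 h2
  exact ⟨h1, h2⟩

theorem nrm_le_ds (x : V D) (K : ℕ) (y : V D) : nrm y ≤ nrm x + K + ds x K y := by
  have h1 := nrm_add_le (y - x) x
  rw [sub_add_cancel] at h1
  unfold ds
  omega

theorem lev_le {x y : V D} {k K : ℕ} (h : ds x K y ≤ k) :
    (y 0 : ℝ) ≤ x 0 + k ∧ (x 0 : ℝ) ≤ y 0 + k := by
  have h1 : y 0 ≤ x 0 + k ∧ x 0 ≤ y 0 + k := by
    unfold ds at h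
    omega
  exact ⟨by exact_mod_cast h1.1, by exact_mod_cast h1.2⟩

theorem card3 (x : V D) (l K : ℕ) :
    ((bx x (3 * l) K).card : ℝ) ≤ 3 ^ (D + 1) * (bx x l K).card := by
  have h : (bx x (3 * l) K).card ≤ 3 ^ (D + 1) * (bx x l K).card := by
    rw [card_bx, card_bx, show 3 ^ (D + 1) = ∏ _j : Fin (D + 1), 3 by simp, ← prod_mul_distrib]
    refine prod_le_prod' fun j _ => ?_
    unfold rad
    split_ifs <;> omega
  exact_mod_cast h

theorem rad_le (κ : ℕ) {l : ℕ} (hl : 1 ≤ l) (j : Fin (D + 1)) :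
    l ≤ 2 * rad D l (κ * l) j + 1 ∧ 2 * rad D l (κ * l) j + 1 ≤ (2 * κ + 3) * l := by
  rw [show (2 * κ + 3) * l = 2 * (κ * l) + 3 * l by ring]
  unfold rad
  split_ifs <;> omega

theorem card1 (x : V D) (κ : ℕ) {l : ℕ} (hl : 1 ≤ l) :
    ((bx x l (κ * l)).card : ℝ) ≤ (2 * κ + 3) ^ (D + 1) * (l : ℝ) ^ (D + 1) := by
  have h : (bx x l (κ * l)).card ≤ ((2 * κ + 3) * l) ^ (D + 1) := by
    rw [card_bx]
    simpa using prod_le_pow_card univ _ _ fun j _ => (rad_le (D := D) κ hl j).2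
  rw [← mul_pow]
  exact_mod_cast h

/-- the cut-off function -/
def cut (x : V D) (K l : ℕ) (y : V D) : ℝ := min 1 (((3 * l - ds x K y : ℕ) : ℝ) / l)

theorem cut_step (x : V D) (K : ℕ) {l : ℕ} (hl : (0 : ℝ) < l) (y : V D) (s : Step D) :
    (cut x K l (y + vec s) - cut x K l y) ^ 2 ≤ 1 / (l : ℝ) ^ 2 := by
  obtain ⟨h1, h2⟩ := ds_step x K y s
  have a1 : ((3 * l - ds x K (y + vec s) : ℕ) : ℝ) ≤ (3 * l - ds x K y : ℕ) + 1 := by
    exact_mod_cast (by omega : 3 * l - ds x K (y + vec s) ≤ 3 * l - ds x K y + 1)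
  have a2 : ((3 * l - ds x K y : ℕ) : ℝ) ≤ (3 * l - ds x K (y + vec s) : ℕ) + 1 := by
    exact_mod_cast (by omega : 3 * l - ds x K y ≤ 3 * l - ds x K (y + vec s) + 1)
  rw [← one_div_pow, ← sq_abs]
  refine pow_le_pow_left₀ (abs_nonneg _) ((abs_min_sub_min_le_max _ _ _ _).trans ?_) 2
  rw [sub_self, abs_zero, ← sub_div, abs_div, abs_of_pos hl]
  refine max_le (by positivity) (div_le_div_of_nonneg_right (abs_le.2 ⟨?_, ?_⟩) hl.le) <;> linarith

theorem cut_ne {x : V D} {K l : ℕ} {y : V D} (h : cut x K l y ≠ 0) : ds x K y + 1 ≤ 3 * l := by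
  by_contra c
  exact h (by rw [cut, show 3 * l - ds x K y = 0 by omega]; simp)

theorem cut_one {x : V D} {K l : ℕ} (hl : (0 : ℝ) < l) {y : V D} (h : ds x K y ≤ 2 * l) :
    cut x K l y = 1 := by
  refine min_eq_left ((one_le_div hl).2 ?_)
  exact_mod_cast (by omega : l ≤ 3 * l - ds x K y)

variable {ω : Cfg D} {R m h l : ℕ} {δ lam : ℝ} {rep : V D → V D} {w : V D → ℝ}

theorem en_cut (hs : Sc l m lam) (x : V D) (K : ℕ) : En lam ω (bx x (3 * l) K) (cut x K l) ≤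
    (2 * D + 4) * exp 24 * 3 ^ (D + 1) * exp (2 * lam * (x 0 : ℝ)) * (bx x l K).card /
      (l : ℝ) ^ 2 := by
  have hl := hs.lpos
  have h0 := hs.pos
  have h1 : ∀ y ∈ bx x (3 * l) K, ∑ s, cnd lam ω y s * (cut x K l (y + vec s) - cut x K l y) ^ 2 ≤
      (2 * D + 4) * (exp 24 * exp (2 * lam * (x 0 : ℝ))) * (1 / (l : ℝ) ^ 2) := fun y hy => by
    refine (sum_le_sum fun s _ => mul_le_mul_of_nonneg_left (cut_step x K hl y s)
      (cnd_nonneg y s)).trans ?_
    rw [← sum_mul, sum_cnd]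
    refine mul_le_mul_of_nonneg_right ((pim_le h0.le (by linarith [hs.le_quarter]) y).trans
      (mul_le_mul_of_nonneg_left ?_ (by positivity))) (by positivity)
    rw [← exp_add, exp_le_exp]
    have := (lev_le (mem_bx.1 hy)).1
    push_cast at this
    nlinarith [hs.mul_le]
  rw [En_eq]
  refine (sum_le_card_nsmul _ _ _ h1).trans ?_
  rw [nsmul_eq_mul]
  refine (mul_le_mul_of_nonneg_right (card3 x l K) (by positivity)).trans_eq ?_
  ring

/-- the oscillation of the logarithm of a positive supersolution -/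
theorem osc (hL : LCStmt) (hP : PLStmt) (hG : Geo ω R m h δ rep w) (hs : Sc l m lam) (κ : ℕ)
    (x : V D) (hx : nrm x + (κ + 4) * l ≤ R) (G : V D → ℝ) (h0 : ∀ y, 0 < G y)
    (h1 : ∀ y ∈ bx x (3 * l) (κ * l), Pf lam ω G y ≤ G y) :
    ∑ z ∈ bx x l (κ * l), ∑ y ∈ bx x l (κ * l), (log (G (rep z)) - log (G (rep y))) ^ 2 ≤
      4 * (D + 1) * (2 * κ + 3) ^ 2 * ((D + 2) * ((2 * D + 4) * exp 24 * 3 ^ (D + 1)) * exp 8) *
        ((bx x l (κ * l)).card : ℝ) ^ 2 := by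
  have hl := hs.lpos
  have hl' := hs.l16
  have hm := hs.m16
  have hh := hG.hm
  have hp := hs.pos
  rw [add_mul] at hx
  have a1 := (hL D lam ω G (cut x (κ * l) l) (bx x (3 * l) (κ * l)) (bx x (2 * l - 1) (κ * l)) h0
    (fun y hy => ⟨mem_bx.2 (by have := cut_ne hy; omega), fun s => mem_bx.2 (by
      have := cut_ne hy; have := (ds_step x (κ * l) y s).1; omega)⟩)
    (fun y hy => h1 y (mem_bx.2 (by have := cut_ne hy; omega)))
    (fun y hy => mem_bx.2 (by have := mem_bx.1 hy; omega))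
    (fun y hy => ⟨cut_one hl (by have := mem_bx.1 hy; omega), fun s => cut_one hl (by
      have := mem_bx.1 hy; have := (ds_step x (κ * l) y s).1; omega)⟩)).trans
    (en_cut hs x (κ * l))
  have a2 := (hG.cmp lam hp.le (by linarith [hs.le_quarter]) (bx x l (κ * l))
    (bx x (2 * l - 1) (κ * l)) (fun y => log (G y)) fun z hz => ⟨by
      have := mem_bx.1 hz; have := nrm_le_ds x (κ * l) z; omega, fun y hy => mem_bx.2 (by
      have := mem_bx.1 hz; have := mem_ball.1 hy; have := ds_lip x (κ * l) z y; omega)⟩).trans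
    (mul_le_mul_of_nonneg_left a1 (by positivity))
  have a3 := hP D m ((2 * κ + 3) * l) δ w (fun y => log (G (rep y)))
    (fun j => x j - rad D l (κ * l) j) _ (hG.h1.trans hh) hG.d0
    (by linarith [hG.d1]) hG.w1 hG.seg fun j =>
      ⟨le_trans (by omega) (rad_le (D := D) κ (by omega : 1 ≤ l) j).1,
        (rad_le (D := D) κ (by omega : 1 ≤ l) j).2⟩
  rw [← bx_eq x] at a3
  have a4 : exp (2 * lam * (x 0 : ℝ)) * ∑ z ∈ bx x l (κ * l), ∑ i,
      (log (G (rep (z + Pi.single i 1))) - log (G (rep z))) ^ 2 / w z ≤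
      exp 8 * ∑ z ∈ bx x l (κ * l), ∑ i, exp (2 * lam * (z 0 : ℝ)) *
        (log (G (rep (z + Pi.single i 1))) - log (G (rep z))) ^ 2 / w z := by
    simp only [mul_sum]
    refine sum_le_sum fun z hz => sum_le_sum fun i _ => ?_
    have hw := hG.w1 z
    rw [mul_div_assoc, ← mul_assoc, ← exp_add]
    refine mul_le_mul_of_nonneg_right (exp_le_exp.2 ?_) (by positivity)
    nlinarith [hs.mul_le, (lev_le (mem_bx.1 hz)).2]
  have a5 : ∑ z ∈ bx x l (κ * l), ∑ i,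
      (log (G (rep (z + Pi.single i 1))) - log (G (rep z))) ^ 2 / w z ≤
      (D + 2) * ((2 * D + 4) * exp 24 * 3 ^ (D + 1)) * exp 8 * (bx x l (κ * l)).card /
        (l : ℝ) ^ 2 := by
    refine le_of_mul_le_mul_left (a4.trans ((mul_le_mul_of_nonneg_left a2 (exp_pos _).le).trans_eq
      ?_)) (exp_pos _)
    ring
  refine a3.trans ((mul_le_mul_of_nonneg_left a5 (by positivity)).trans_eq ?_)
  push_cast
  field_simp

/-- few wide sites have a small value -/
theorem few (hL : LCStmt) (hP : PLStmt) (hG : Geo ω R m h δ rep w) (hs : Sc l m lam) (κ : ℕ)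
    (x : V D) (hx : nrm x + (κ + 4) * l ≤ R) (g : V D → ℝ) (h0 : ∀ y, 0 ≤ g y)
    (h1 : ∀ y ∈ bx x (3 * l) (κ * l), Wide ω y h → Pf lam ω g y ≤ g y)
    (h2 : (bx x l (κ * l)).card ≤
      4 * ((bx x l (κ * l)).filter fun y => Wide ω y h ∧ 1 / 4 ≤ g y).card) {T : ℝ} (hT : 0 ≤ T) :
    (((bx x l (κ * l)).filter fun y => Wide ω y h ∧ g y < exp (-T) / 8).card : ℝ) * T ^ 2 ≤
      4 * (4 * (D + 1) * (2 * κ + 3) ^ 2 *
        ((D + 2) * ((2 * D + 4) * exp 24 * 3 ^ (D + 1)) * exp 8)) * (bx x l (κ * l)).card := by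
  have ha : 0 < exp (-T) / 8 := by positivity
  have a1 := osc hL hP hG hs κ x hx (fun y => if Wide ω y h then g y + exp (-T) / 8 else 1)
    (fun y => by split_ifs <;> linarith [h0 y]) fun y hy => by
      by_cases c : Wide ω y h
      · rw [if_pos c, Pf_congr' (g := fun z => g z + exp (-T) / 8) fun s e =>
          if_pos (wide_step c e), Pf_add]
        exact add_le_add (h1 y hy c) (Pf_const_le ha.le y)
      · rw [if_neg c]
        exact Pf_le zero_le_one fun s e => (if_neg fun c' => c (c'.of_conn (Conn.step e).symm)).le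
  set B := bx x l (κ * l)
  set C : ℝ := 4 * (D + 1) * (2 * κ + 3) ^ 2 *
    ((D + 2) * ((2 * D + 4) * exp 24 * 3 ^ (D + 1)) * exp 8)
  set Lo := B.filter fun y => Wide ω y h ∧ g y < exp (-T) / 8
  set Hi := B.filter fun y => Wide ω y h ∧ 1 / 4 ≤ g y
  have a2 : (Lo.card : ℝ) * (Hi.card * T ^ 2) ≤ C * (B.card : ℝ) ^ 2 := by
    refine le_trans ?_ ((sum_le_sum_of_subset_of_nonneg (filter_subset
      (fun y => Wide ω y h ∧ g y < exp (-T) / 8) B) fun z _ _ =>
        sum_nonneg fun y _ => sq_nonneg _).trans a1)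
    rw [← nsmul_eq_mul]
    refine card_nsmul_le_sum _ _ _ fun z hz => le_trans ?_ (sum_le_sum_of_subset_of_nonneg
      (filter_subset (fun y => Wide ω y h ∧ 1 / 4 ≤ g y) B) fun y _ _ => sq_nonneg _)
    rw [← nsmul_eq_mul]
    refine card_nsmul_le_sum _ _ _ fun y hy => ?_
    obtain ⟨-, z1, z2⟩ := mem_filter.1 hz
    obtain ⟨-, y1, y2⟩ := mem_filter.1 hy
    rw [hG.fix z z1, hG.fix y y1, if_pos z1, if_pos y1]
    have b1 : log (g z + exp (-T) / 8) ≤ log (exp (-T) * (1 / 4)) :=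
      log_le_log (by linarith [h0 z]) (by linarith)
    have b2 : log (1 / 4) ≤ log (g y + exp (-T) / 8) := log_le_log (by norm_num) (by linarith)
    rw [log_mul (exp_pos _).ne' (by norm_num), log_exp] at b1
    rw [← neg_sq (log _ - log _)]
    exact pow_le_pow_left₀ hT (by linarith) 2
  have a3 : (B.card : ℝ) ≤ 4 * Hi.card := by exact_mod_cast h2
  have a4 : (0 : ℝ) < B.card := by
    exact_mod_cast card_pos.2 ⟨x, mem_bx.2 (by simp [ds])⟩
  refine le_of_mul_le_mul_right ?_ a4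
  nlinarith [mul_le_mul_of_nonneg_left a3 (by positivity : (0 : ℝ) ≤ Lo.card * T ^ 2)]

end Wh

open Wh in
theorem wh (hI : IDStmt) (hL : LCStmt) (hP : PLStmt) (hM : MVStmt) : WHStmt := by
  intro D κ
  obtain ⟨C, M, hC, -, hV⟩ := hM D
  obtain ⟨C1, hC1, hF⟩ : ∃ C1 : ℝ, 0 ≤ C1 ∧ C1 = 4 * (4 * (D + 1) * (2 * κ + 3) ^ 2 *
    ((D + 2) * ((2 * D + 4) * exp 24 * 3 ^ (D + 1)) * exp 8)) := ⟨_, by positivity, rfl⟩
  obtain ⟨T, hT, hT'⟩ : ∃ T : ℝ, 1 ≤ T ∧ 64 * C ^ 2 * (C1 * (2 * κ + 3) ^ (D + 1)) ≤ T :=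
    ⟨_, le_max_left _ _, le_max_right _ _⟩
  have ha : 0 < exp (-T) / 8 := by positivity
  refine ⟨3 / 4 * (exp (-T) / 8), M ^ 6, by positivity, ?_⟩
  intro ω R m h δ rep w hG l lam hl hs x g hx h0 h1 h2 y hy hw
  have a1 := few hL hP hG hs κ x hx g h0 h1 h2 (zero_le_one.trans hT)
  rw [← hF] at a1
  generalize exp (-T) / 8 = a at ha a1 ⊢
  have hl' := hs.l16
  have hp := hs.lpos
  have hy' := mem_bx.1 hy
  have hb : ∀ z ∈ wb' ω h y l, ds x (κ * l) z ≤ l := fun z hz => by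
    have := (mem_wb'.1 hz).1
    have := ds_lip x (κ * l) y z
    omega
  have a2 := hV ω R m h δ rep w hG lam y l (fun z => a - g z) 0 a hs.pos.le
    (by linarith [hs.le_quarter]) hs.mul_le (by
      have := nrm_le_ds x (κ * l) y
      rw [add_mul] at hx
      omega) hw (hs.big hl) le_rfl ha.le (fun z hz => by
      have := h1 z (mem_bx.2 ((hb z hz).trans (by omega))) (mem_wb'.1 hz).2
      rw [Pf_sub, Pf_const (wide_Zq hG.h1 (mem_wb'.1 hz).2 lam)]
      linarith) fun z _ => by linarith [h0 z]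
  set N : ℝ := (((bx x l (κ * l)).filter fun y => Wide ω y h ∧ g y < a).card : ℝ) with hN
  have a3 : ∑ z ∈ wb' ω h y l, max (a - g z) 0 ^ 2 ≤ N * a ^ 2 := by
    rw [← sum_filter_of_ne (p := fun z => g z < a) fun z _ hz => by
      by_contra c
      exact hz (by rw [max_eq_right (by linarith)]; simp)]
    refine (sum_le_card_nsmul _ _ (a ^ 2) fun z _ => pow_le_pow_left₀ (le_max_right _ _)
      (max_le (by linarith [h0 z]) ha.le) 2).trans ?_
    rw [nsmul_eq_mul, hN]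
    refine mul_le_mul_of_nonneg_right (Nat.cast_le.2 (card_le_card fun z hz => ?_)) (sq_nonneg _)
    obtain ⟨z1, z2⟩ := mem_filter.1 hz
    exact mem_filter.2 ⟨mem_bx.2 (hb z z1), (mem_wb'.1 z1).2, z2⟩
  have a4 : 64 * C ^ 2 * N ≤ (l : ℝ) ^ (D + 1) := by
    have b1 := a1.trans (mul_le_mul_of_nonneg_left (card1 x κ (by omega : 1 ≤ l)) hC1)
    have b2 := mul_le_mul_of_nonneg_right (hT'.trans (by nlinarith : T ≤ T ^ 2))
      (by positivity : (0 : ℝ) ≤ (l : ℝ) ^ (D + 1))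
    have b3 := mul_le_mul_of_nonneg_left b1 (by positivity : (0 : ℝ) ≤ 64 * C ^ 2)
    refine le_of_mul_le_mul_right ?_ (by positivity : (0 : ℝ) < T ^ 2)
    linarith
  have a5 : √((∑ z ∈ wb' ω h y l, max (a - g z) 0 ^ 2) / (l : ℝ) ^ (D + 1)) ≤ a / (8 * C) := by
    refine sqrt_le_iff.2 ⟨by positivity, (div_le_iff₀ (by positivity)).2 (a3.trans ?_)⟩
    refine le_trans (le_of_eq ?_) (mul_le_mul_of_nonneg_left a4 (sq_nonneg _))
    field_simp
    norm_num
  have a6 : C * (a / (8 * C)) = a / 8 := by field_simp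
  linarith [mul_le_mul_of_nonneg_left a5 (zero_le_one.trans hC)]

end Pool.Agent.MP_8c549f_pr.L2

end

end Part2

-- ======== part 3: D0
section Part3

/-! PROJECT L2: the drift of the full lattice. -/

noncomputable section

namespace Pool.Agent.MP_8c549f_pr.L2

open MeasureTheory Finset Real Classical S3

namespace D0

theorem sinh_le {x : ℝ} (hx : 0 ≤ x) : sinh x ≤ x * cosh x := by
  have hd : ∀ t : ℝ, HasDerivAt (fun t => t * cosh t - sinh t) (t * sinh t) t := fun t => by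
    have := ((hasDerivAt_id' t).fun_mul (hasDerivAt_cosh t)).fun_sub (hasDerivAt_sinh t)
    exact this.congr_deriv (by ring)
  have hm : MonotoneOn (fun t => t * cosh t - sinh t) (Set.Ici 0) :=
    monotoneOn_of_deriv_nonneg (convex_Ici 0)
      (fun t _ => (hd t).continuousAt.continuousWithinAt)
      (fun t _ => (hd t).differentiableAt.differentiableWithinAt) fun t ht => by
        rw [(hd t).deriv]
        have h0 : 0 ≤ t := interior_subset ht
        exact mul_nonneg h0 (sinh_nonneg_iff.2 h0)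
  have := hm (Set.mem_Ici.2 le_rfl) (Set.mem_Ici.2 hx) hx
  simp only [zero_mul, sinh_zero, sub_zero] at this
  linarith

theorem drift {D : ℕ} {x y : ℝ} (hx : 0 ≤ x) (hxy : x ≤ y) (hy : y ≤ 1) :
    (y - x) / (8 * (D + 1)) ≤
    (exp y - exp (-y)) / Zf D y - (exp x - exp (-x)) / Zf D x := by
  have zx := Zf_pos D x
  have zy := Zf_pos D y
  have bx : Zf D x ≤ 2 * D + 4 := Zf_le hx (hxy.trans hy)
  have by' : Zf D y ≤ 2 * D + 4 := Zf_le (hx.trans hxy) hy
  have hD : (0 : ℝ) ≤ D := Nat.cast_nonneg D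
  have h1 : sinh x - x ≤ sinh y - y := sinh_sub_id_strictMono.monotone hxy
  have h2 : y - x ≤ sinh (y - x) := self_le_sinh_iff.2 (sub_nonneg.2 hxy)
  rw [sinh_eq, sinh_eq] at h1
  rw [sinh_eq, neg_sub, sub_eq_add_neg y, sub_eq_add_neg x, exp_add, exp_add] at h2
  have h3 : (4 + 4 * D) * (y - x) ≤
      (exp y - exp (-y)) * Zf D x - Zf D y * (exp x - exp (-x)) := by
    unfold Zf
    nlinarith [mul_le_mul_of_nonneg_left h1 hD]
  rw [div_sub_div _ _ zy.ne' zx.ne', div_le_div_iff₀ (by positivity) (mul_pos zy zx)]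
  have h4 : Zf D y * Zf D x ≤ (4 + 4 * D) * (8 * (D + 1)) :=
    (mul_le_mul by' bx zx.le (by positivity)).trans (by nlinarith)
  calc (y - x) * (Zf D y * Zf D x) ≤ (y - x) * ((4 + 4 * D) * (8 * (D + 1))) :=
        mul_le_mul_of_nonneg_left h4 (sub_nonneg.2 hxy)
    _ = (4 + 4 * D) * (y - x) * (8 * (D + 1)) := by ring
    _ ≤ _ := mul_le_mul_of_nonneg_right h3 (by positivity)

end D0

theorem d0S : D0Stmt := by
  intro D
  refine ⟨by simp [d0], fun x hx => ⟨?_, ?_⟩, fun x y hx hxy hy => D0.drift hx hxy hy⟩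
  · exact div_nonneg (sub_nonneg.2 (exp_le_exp.2 (by linarith))) (Zf_pos D x).le
  · have h := D0.sinh_le hx
    have hD : (0 : ℝ) ≤ D := Nat.cast_nonneg D
    rw [sinh_eq, cosh_eq] at h
    rw [d0, div_le_iff₀ (Zf_pos D x), Zf]
    nlinarith [mul_nonneg hx hD]

end Pool.Agent.MP_8c549f_pr.L2

end

end Part3

-- ======== part 4: Dict
section Part4

/-! PROJECT L2: sums over legs are Green sums. -/

noncomputable section

namespace Pool.Agent.MP_8c549f_pr.L2

open MeasureTheory Finset Real Classical S3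

namespace Dict

variable {D : ℕ}

/-- lists of length `k` -/
def Lk (D k : ℕ) : Finset (List (Step D)) := (List.finite_length_eq (Step D) k).toFinset

theorem mem_Lk {k : ℕ} {l : List (Step D)} : l ∈ Lk D k ↔ l.length = k := by simp [Lk]

theorem sum_Lk_zero (Φ : List (Step D) → ℝ) : ∑ l ∈ Lk D 0, Φ l = Φ [] := by
  have h : Lk D 0 = {[]} := by
    ext l; rw [mem_Lk, mem_singleton, List.length_eq_zero_iff]
  rw [h, sum_singleton]

theorem sum_Lk_succ (k : ℕ) (Φ : List (Step D) → ℝ) :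
    ∑ l ∈ Lk D (k + 1), Φ l = ∑ s : Step D, ∑ l ∈ Lk D k, Φ (s :: l) := by
  have h : Lk D (k + 1) = (univ ×ˢ Lk D k).image fun q : Step D × List (Step D) => q.1 :: q.2 := by
    ext l
    rw [mem_Lk, mem_image]
    constructor
    · intro hl
      cases l with
      | nil => simp at hl
      | cons s u =>
        exact ⟨(s, u), mem_product.2 ⟨mem_univ _, mem_Lk.2 (by simpa using hl)⟩, rfl⟩
    · rintro ⟨q, hq, rfl⟩
      rw [List.length_cons, mem_Lk.1 (mem_product.1 hq).2]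
  rw [h, sum_image, sum_product]
  intro a _ b _ hab
  obtain ⟨h1, h2⟩ := List.cons.inj hab
  exact Prod.ext h1 h2

theorem all_cons (U : Set (V D)) (x : V D) (s : Step D) (l : List (Step D)) (k : ℕ) :
    (∀ i < k + 1, x + loc (s :: l) i ∈ U) ↔ x ∈ U ∧ ∀ i < k, x + vec s + loc l i ∈ U := by
  constructor
  · intro h
    refine ⟨by simpa using h 0 (Nat.succ_pos k), fun i hi => ?_⟩
    have := h (i + 1) (by omega)
    rwa [loc_cons_succ, ← add_assoc] at this
  · rintro ⟨h0, h1⟩ i hi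
    cases i with
    | zero => simpa using h0
    | succ i => rw [loc_cons_succ, ← add_assoc]; exact h1 i (by omega)

theorem Pk_eq (lam : ℝ) (ω : Cfg D) (U : Set (V D)) (g : V D → ℝ) (k : ℕ) : ∀ x : V D,
    Pk lam ω U k g x =
      ∑ l ∈ Lk D k, wr lam ω x l * (S3.ind (∀ i < k, x + loc l i ∈ U) * g (x + pos l)) := by
  induction k with
  | zero =>
    intro x
    rw [sum_Lk_zero, S3.ind_pos (fun i hi => absurd hi (Nat.not_lt_zero i))]
    simp [Pk]
  | succ k ih =>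
    intro x
    rw [sum_Lk_succ]
    by_cases hx : x ∈ U
    · rw [Pk_succ_mem hx, Pf]
      refine sum_congr rfl fun s _ => ?_
      rw [ih, mul_sum]
      refine sum_congr rfl fun l _ => ?_
      rw [wr_cons, pos_cons, ← add_assoc, mul_assoc,
        S3.ind_congr ((all_cons U x s l k).trans (and_iff_right hx))]
    · rw [Pk_succ_not hx]
      refine (sum_eq_zero fun s _ => sum_eq_zero fun l _ => ?_).symm
      rw [S3.ind_neg fun h => hx ((all_cons U x s l k).1 h).1, zero_mul, mul_zero]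

end Dict

theorem dict : DICTStmt := by
  intro D lam ω L N U F f hU
  have hmaps : ∀ l ∈ (Lg D L N).filter (fun l => ∀ i < l.length, loc l i ∈ U),
      l.length ∈ range (N + 1) := fun l hl =>
    mem_range.2 (Nat.lt_succ_of_le (mem_Lg.1 (mem_filter.1 hl).1).1)
  rw [← sum_fiberwise_of_maps_to hmaps]
  refine sum_congr rfl fun k hk => ?_
  have hkN : k ≤ N := Nat.le_of_lt_succ (mem_range.1 hk)
  have hset : ((Lg D L N).filter (fun l => ∀ i < l.length, loc l i ∈ U)).filter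
      (fun l => l.length = k) =
      (Dict.Lk D k).filter fun l => (∀ i < k, loc l i ∈ U) ∧ lev l = L := by
    ext l
    simp only [mem_filter, mem_Lg, Dict.mem_Lk]
    constructor
    · rintro ⟨⟨⟨_, _, h3⟩, h4⟩, rfl⟩
      exact ⟨rfl, h4, h3⟩
    · rintro ⟨rfl, h4, h3⟩
      refine ⟨⟨⟨hkN, fun i hi => ?_, h3⟩, h4⟩, rfl⟩
      rw [h3]
      exact hU _ (h4 i hi)
  rw [hset, Dict.Pk_eq, mul_sum, sum_filter]
  refine sum_congr rfl fun l hl => ?_
  rw [Dict.mem_Lk.1 hl]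
  simp only [zero_add]
  by_cases h1 : ∀ i < k, loc l i ∈ U
  · by_cases h2 : lev l = L
    · rw [if_pos ⟨h1, h2⟩, S3.ind_pos h1,
        Set.indicator_of_mem (show pos l ∈ {y : V D | y 0 = (L : ℤ)} from h2)]
      ring
    · rw [if_neg fun h => h2 h.2,
        Set.indicator_of_notMem (show pos l ∉ {y : V D | y 0 = (L : ℤ)} from h2)]
      ring
  · rw [if_neg fun h => h1 h.1, S3.ind_neg h1]
    ring

end Pool.Agent.MP_8c549f_pr.L2

end

end Part4

-- ======== part 5: Leg1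
section Part5

/-! PROJECT L2: mass, second moment and backtracking of a leg. -/

noncomputable section

namespace Pool.Agent.MP_8c549f_pr.L2

open MeasureTheory Finset Real Classical S3

namespace Leg1

variable {D : ℕ} {lam : ℝ} {ω : Cfg D}

/-- the sites below the level `L` -/
def Ub (D L : ℕ) : Set (V D) := {y | y 0 < (L : ℤ)}

/-- the sites of level `L` -/
def Tp (D L : ℕ) : Set (V D) := {y | y 0 = (L : ℤ)}

/-- the sites between the levels `- k` and `L` -/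
def Uk (D L k : ℕ) : Set (V D) := {y | -(k : ℤ) < y 0 ∧ y 0 < (L : ℤ)}

lemma below {L N : ℕ} {l : List (Step D)} (hl : l ∈ Lg D L N) {i : ℕ} (hi : i < l.length) :
    loc l i 0 < (L : ℤ) := by
  obtain ⟨-, h1, h2⟩ := mem_Lg.1 hl
  exact h2 ▸ h1 i hi

lemma dict (hD : DICTStmt) (L N : ℕ) (F : ℕ → ℝ) :
    ∑ l ∈ Lg D L N, wr lam ω 0 l * F l.length =
      ∑ k ∈ range (N + 1), F k * Pk lam ω (Ub D L) k (chi (Tp D L)) 0 := by
  have h := hD D lam ω L N (Ub D L) F (fun _ => 1) fun _ hy => hy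
  rw [filter_true_of_mem fun l hl i hi => below hl hi] at h
  simp only [mul_one] at h
  exact h

lemma ms_eq (hD : DICTStmt) (L N : ℕ) :
    ms lam L N ω = Gs lam ω (Ub D L) (N + 1) (chi (Tp D L)) 0 := by
  have h := dict (lam := lam) (ω := ω) hD L N fun _ => 1
  simp only [mul_one, one_mul] at h
  exact h

lemma top_eq (L k : ℕ) : Pk lam ω (Ub D L) k (chi (Tp D L)) 0 =
    Pk lam ω (Ub D L) k (chi (Ub D L)ᶜ) 0 := by
  refine Pk_loc k (fun _ y => y 0 ≤ (L : ℤ)) 0 (by simp) (fun _ _ y s _ hy _ => ?_)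
    (fun _ _ _ _ => ⟨Iff.rfl, fun _ _ => rfl⟩) fun y hy => ?_
  · have h1 : y 0 < (L : ℤ) := hy
    have h2 := (vec_bounds s 0).2
    show y 0 + vec s 0 ≤ (L : ℤ)
    omega
  · have h1 : y 0 ≤ (L : ℤ) := hy
    by_cases e : y 0 = (L : ℤ)
    · rw [chi_of_mem (show y ∈ Tp D L from e),
        chi_of_mem (show y ∈ (Ub D L)ᶜ from fun h => absurd e (ne_of_lt h))]
    · rw [chi_of_not (show y ∉ Tp D L from e),
        chi_of_not (show y ∉ (Ub D L)ᶜ from fun h => h (lt_of_le_of_ne h1 e))]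

lemma ms_add (hD : DICTStmt) (L N : ℕ) (h0 : 0 < Zq lam ω 0) :
    ms lam L N ω + Pk lam ω (Ub D L) N (chi (Ub D L)) 0 = 1 := by
  rw [ms_eq hD, ← exit_add_eq (Ub D L) N 0 h0]
  simp only [Gs, top_eq]

lemma drop (L k : ℕ) (x : V D) : Pk lam ω (Ub D L) (k + 1) (chi (Tp D L)) x +
    Pk lam ω (Ub D L) (k + 1) (chi (Ub D L)) x ≤ Pk lam ω (Ub D L) k (chi (Ub D L)) x := by
  rw [← Pk_add, Pk_succ']
  refine Pk_mono (fun y => ?_) k x
  by_cases hy : y ∈ Ub D L
  · rw [Pu_of_mem hy, chi_of_mem hy]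
    refine Pf_le zero_le_one fun s _ => ?_
    by_cases e : y + vec s ∈ Ub D L
    · rw [chi_of_not (show y + vec s ∉ Tp D L from ne_of_lt e), zero_add]
      exact chi_le_one _ _
    · rw [chi_of_not e, add_zero]
      exact chi_le_one _ _
  · rw [Pu_of_not hy, chi_of_not hy]

lemma abel' (a b : ℕ → ℝ) (ha : ∀ k, 0 ≤ a k) (h : ∀ k, b (k + 1) + a (k + 1) ≤ a k) (n : ℕ) :
    ∑ k ∈ range (n + 1), (k : ℝ) ^ 2 * b k + (n : ℝ) ^ 2 * a n ≤
      2 * ∑ k ∈ range n, ((k : ℝ) + 1) * a k := by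
  induction n with
  | zero => simp
  | succ n ih =>
    rw [sum_range_succ _ (n + 1), sum_range_succ (fun k : ℕ => ((k : ℝ) + 1) * a k) n]
    have h1 := mul_le_mul_of_nonneg_left (h n) (sq_nonneg ((n : ℝ) + 1))
    have h2 := ha n
    push_cast
    nlinarith

lemma t2_le (hD : DICTStmt) (L N : ℕ) : t2 lam L N ω ≤
    2 * ∑ k ∈ range (N + 1), ((k : ℝ) + 1) * Pk lam ω (Ub D L) k (chi (Ub D L)) 0 := by
  have ha : ∀ k, 0 ≤ Pk lam ω (Ub D L) k (chi (Ub D L)) 0 := fun k =>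
    Pk_nonneg (chi_nonneg _) k 0
  have h1 := abel' _ (fun k => Pk lam ω (Ub D L) k (chi (Tp D L)) 0) ha (fun k => drop L k 0) N
  have h2 := dict (lam := lam) (ω := ω) hD L N fun k => (k : ℝ) ^ 2
  have h3 := mul_nonneg (sq_nonneg (N : ℝ)) (ha N)
  have h4 : 0 ≤ ((N : ℝ) + 1) * Pk lam ω (Ub D L) N (chi (Ub D L)) 0 :=
    mul_nonneg (by positivity) (ha N)
  rw [t2, h2, sum_range_succ (fun k : ℕ => ((k : ℝ) + 1) *
    Pk lam ω (Ub D L) k (chi (Ub D L)) 0) N]
  linarith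

lemma bt_le (hD : DICTStmt) (L N k : ℕ) : bt lam L N k ω ≤
    Gs lam ω (Uk D L k) (N + 1) (chi (Ub D L \ Uk D L k)) 0 := by
  have h1 := hD D lam ω L N (Uk D L k) (fun _ => 1) (fun _ => 1) fun _ hy => hy.2
  simp only [mul_one, one_mul] at h1
  have h2 := sum_filter_add_sum_filter_not (Lg D L N)
    (fun l => ∃ i < l.length, H l i ≤ -(k : ℤ)) (wr lam ω 0)
  have h3 : (Lg D L N).filter (fun l => ¬ ∃ i < l.length, H l i ≤ -(k : ℤ)) =
      (Lg D L N).filter fun l => ∀ i < l.length, loc l i ∈ Uk D L k :=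
    filter_congr fun l hl => ⟨fun h i hi => ⟨not_le.1 fun q => h ⟨i, hi, q⟩, below hl hi⟩,
      fun h ⟨i, hi, q⟩ => not_le.2 (h i hi).1 q⟩
  have h4 := Gs_split (lam := lam) (ω := ω) (U := Ub D L) (A := Uk D L k) (Z := Tp D L)
    (fun _ hy => hy.2) (Set.disjoint_left.2 fun y hy => ne_of_lt hy) (N + 1) 0
  have h5 := ms_eq (lam := lam) (ω := ω) hD L N
  rw [h3, h1] at h2
  have h6 : bt lam L N k ω + Gs lam ω (Uk D L k) (N + 1) (chi (Tp D L)) 0 = ms lam L N ω := h2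
  linarith

lemma small {C E l : ℝ} (K : ℕ) (hC : 1 ≤ C) (hE : 0 ≤ E) (h1 : 1 ≤ l)
    (hl : C ^ (K + 3) * E * (K + 2).factorial ≤ l) :
    C * l ^ 2 * exp (-(l ^ 4 / (C * l ^ 2))) * E ≤ 1 / l ^ K := by
  have c0 : 0 < C := by linarith
  have l0 : 0 < l := by linarith
  have e1 : l ^ 4 / (C * l ^ 2) = l ^ 2 / C := by field_simp
  have e2 := Real.pow_div_factorial_le_exp (l ^ 2 / C) (by positivity) (K + 2)
  have f0 : (0 : ℝ) < (K + 2).factorial := by positivity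
  rw [e1, exp_neg, le_div_iff₀ (by positivity)]
  have e3 : C * l ^ 2 * (exp (l ^ 2 / C))⁻¹ * E * l ^ K =
      C * l ^ (K + 2) * E / exp (l ^ 2 / C) := by ring
  rw [e3, div_le_one (exp_pos _)]
  refine le_trans ?_ e2
  rw [le_div_iff₀ f0, div_pow, le_div_iff₀ (by positivity)]
  have e4 : l ≤ l ^ (K + 2) := le_self_pow₀ h1 (by omega)
  calc C * l ^ (K + 2) * E * (K + 2).factorial * C ^ (K + 2)
      = l ^ (K + 2) * (C ^ (K + 3) * E * (K + 2).factorial) := by ring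
    _ ≤ l ^ (K + 2) * l ^ (K + 2) := mul_le_mul_of_nonneg_left (hl.trans e4) (by positivity)
    _ = (l ^ 2) ^ (K + 2) := by ring

end Leg1

open Leg1 in
theorem leg1 (hD : DICTStmt) (hS : SURStmt) (hH : HITStmt) : LEG1Stmt := by
  intro D
  obtain ⟨C, l₁, hC, hS⟩ := hS D
  obtain ⟨ξ, C', l₂, hξ, -, hC', hH⟩ := hH D
  refine ⟨⌈16 * C'⌉₊, fun Λ hΛ => ⟨2 * C * exp (4 * Λ), ?_, fun K =>
    ⟨max (max l₁ l₂) ⌈C ^ (K + 3) * exp (4 * Λ) * (K + 2).factorial⌉₊, ?_⟩⟩⟩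
  · have := one_le_exp (show (0 : ℝ) ≤ 4 * Λ by positivity)
    nlinarith
  intro ω R m h δ rep w hG l lam hl hs h0 hR
  have l16 := hs.l16
  have lp := hs.lpos
  have l4 : 2 * l ≤ l ^ 4 := by
    calc 2 * l ≤ l ^ 3 * l := Nat.mul_le_mul_right _
          ((show 2 ≤ 16 ^ 3 by norm_num).trans (Nat.pow_le_pow_left l16 3))
      _ = l ^ 4 := by ring
  obtain ⟨s1, s2⟩ := hS ω R m h δ rep w hG l lam (by omega) hs 0 (Ub D (Λ * l)) (Λ * l : ℕ)
    (l ^ 4) h0 (by rw [nrm_zero]; omega) fun _ hy => hy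
  have eL : exp (lam * (((Λ * l : ℕ) : ℤ) - (0 : V D) 0 : ℤ)) ≤ exp (4 * Λ) := by
    refine exp_le_exp.2 ?_
    have := mul_le_mul_of_nonneg_left hs.mul_le (Nat.cast_nonneg (α := ℝ) Λ)
    simp only [Pi.zero_apply, sub_zero]
    push_cast
    linarith
  refine ⟨?_, ?_, fun j hj => ?_⟩
  · have a1 := ms_add (lam := lam) hD (Λ * l) (l ^ 4) (wide_Zq hG.h1 h0 lam)
    have a2 : Pk lam ω (Ub D (Λ * l)) (l ^ 4) (chi (Ub D (Λ * l))) 0 ≤ _ :=
      (Pk_mono (fun y => ?_) _ 0).trans s1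
    · have a3 := small (l := l) K hC (exp_pos (4 * Λ)).le (by exact_mod_cast (by omega : 1 ≤ l))
        (Nat.ceil_le.1 (by omega))
      have a4 := mul_le_mul_of_nonneg_left eL (show 0 ≤ C * (l : ℝ) ^ 2 *
        exp (-((l : ℝ) ^ 4 / (C * (l : ℝ) ^ 2))) by positivity)
      simp only [Nat.cast_pow] at a2
      linarith
    · by_cases hy : y ∈ Ub D (Λ * l)
      · rw [chi_of_mem hy, Set.indicator_of_mem hy]
        have h1 : y 0 < ((Λ * l : ℕ) : ℤ) := hy
        exact one_le_exp (mul_nonneg hs.pos.le (by exact_mod_cast (by omega)))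
      · rw [chi_of_not hy, Set.indicator_of_notMem hy]
  · have a1 := t2_le (lam := lam) (ω := ω) hD (Λ * l) (l ^ 4)
    have a2 := mul_le_mul_of_nonneg_left eL (show 0 ≤ C * (l : ℝ) ^ 4 by positivity)
    linarith
  · have b0 := exp_pos (lam * (j * (Λ * l) : ℕ))
    have a1 := hH ω R m h δ rep w hG l lam (by omega) hs 0 (Uk D (Λ * l) (j * (Λ * l)))
      (Ub D (Λ * l) \ Uk D (Λ * l) (j * (Λ * l))) (fun _ => 0) (l ^ 4) _ h0
      (by rw [nrm_zero]; omega) Set.disjoint_sdiff_right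
      (fun y z => by simp only [sub_self, abs_zero]; positivity) b0 fun z hz => by
        have h1 : z 0 ≤ -((j * (Λ * l) : ℕ) : ℤ) := not_lt.1 fun q => hz.2 ⟨q, hz.1⟩
        have h2 : ((z 0 : ℤ) : ℝ) ≤ -((j * (Λ * l) : ℕ) : ℝ) := by exact_mod_cast h1
        refine exp_le_exp.2 ?_
        nlinarith [hs.pos]
    refine (bt_le hD _ _ _).trans (a1.trans ?_)
    have a2 : wf lam (fun _ => 0) (0 : V D) = 1 := by simp [wf]
    have a3 : 16 * C' ≤ exp Λ := by linarith [Nat.ceil_le.1 hΛ, add_one_le_exp (Λ : ℝ)]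
    have a4 : exp Λ ^ j ≤ exp (lam * (j * (Λ * l) : ℕ)) := by
      rw [← exp_nat_mul]
      refine exp_le_exp.2 ?_
      have := mul_le_mul_of_nonneg_left hs.le_mul (show (0 : ℝ) ≤ j * Λ by positivity)
      push_cast
      linarith
    have a5 : (16 * C') ^ j ≤ exp Λ ^ j := pow_le_pow_left₀ (by positivity) a3 j
    have a6 : C' ≤ C' ^ j := le_self_pow₀ hC' (by omega)
    rw [a2, mul_one, div_le_div_iff₀ b0 (by positivity), one_mul]
    rw [mul_pow] at a5
    have a7 := mul_le_mul_of_nonneg_left a6 (show (0 : ℝ) ≤ 16 ^ j by positivity)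
    linarith

end Pool.Agent.MP_8c549f_pr.L2

end

end Part5

-- ======== part 6: Q1
section Part6

/-! PROJECT L2, row Q1: the quenched mean duration of a leg. -/

noncomputable section

namespace Pool.Agent.MP_8c549f_pr.L2

open MeasureTheory Finset Real Classical S3

namespace Q1

variable {D : ℕ} {lam : ℝ} {ω : Cfg D}

/-- the sites below the level `L` -/
def Ub (D L : ℕ) : Set (V D) := {y | y 0 < (L : ℤ)}

def Tp (D L : ℕ) : Set (V D) := {y | y 0 = (L : ℤ)}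

def sv (lam : ℝ) (ω : Cfg D) (L k : ℕ) : ℝ := Pk lam ω (Ub D L) k (chi (Ub D L)) 0

theorem reach {h L : ℕ} (h0 : Wide ω 0 h) {U' : Set (V D)} {f f' : V D → ℝ} (n : ℕ)
    (hU : ∀ y, Wide ω y h → nrm y ≤ n → (y ∈ Ub D L ↔ y ∈ U'))
    (hf : ∀ y, Wide ω y h → nrm y ≤ n → y 0 ≤ (L : ℤ) → f y = f' y) :
    Pk lam ω (Ub D L) n f 0 = Pk lam ω U' n f' 0 :=
  Pk_loc n (fun i y => Wide ω y h ∧ nrm y ≤ i ∧ y 0 ≤ (L : ℤ)) 0 ⟨h0, by simp, by simp⟩
    (fun i _ y s hy hy' hs => ⟨wide_step hy.1 hs, by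
      have := nrm_add_le y (vec s)
      rw [nrm_vec] at this
      omega, by
      have := (vec_bounds s 0).2
      have e : y 0 < (L : ℤ) := hy'
      rw [Pi.add_apply]
      omega⟩)
    (fun i hi y hy => ⟨hU y hy.1 (by omega), fun _ _ => rfl⟩) fun y hy => hf y hy.1 hy.2.1 hy.2.2

theorem mass {h : ℕ} (h1 : 1 ≤ h) (h0 : Wide ω 0 h) (L n : ℕ) :
    ∑ k ∈ range (n + 1), Pk lam ω (Ub D L) k (chi (Tp D L)) 0 = 1 - sv lam ω L n := by
  rw [eq_sub_iff_add_eq, ← exit_add_eq (Ub D L) n 0 (wide_Zq h1 h0 lam), Gs]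
  congr 1
  refine sum_congr rfl fun k _ => reach h0 k (fun _ _ _ => Iff.rfl) fun y _ _ hy => ?_
  by_cases e : y 0 = (L : ℤ)
  · rw [chi_of_mem (show y ∈ Tp D L from e), chi_of_mem (show y ∈ (Ub D L)ᶜ from fun c => c.ne e)]
  · rw [chi_of_not (show y ∉ Tp D L from e),
      chi_of_not (show y ∉ (Ub D L)ᶜ from fun c => c (lt_of_le_of_ne hy e))]

theorem time (hD : DICTStmt) {h : ℕ} (h1 : 1 ≤ h) (h0 : Wide ω 0 h) (L N : ℕ) :
    tt lam L N ω = ∑ k ∈ range N, sv lam ω L k - N * sv lam ω L N := by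
  have e := hD D lam ω L N (Ub D L) (fun k => (k : ℝ)) (fun _ => 1) fun _ hy => hy
  rw [filter_true_of_mem fun l hl i hi => by
    obtain ⟨-, a, b⟩ := mem_Lg.1 hl
    exact (a i hi).trans_eq b] at e
  simp only [mul_one] at e
  rw [tt, e]
  show ∑ k ∈ range (N + 1), (k : ℝ) * Pk lam ω (Ub D L) k (chi (Tp D L)) 0 = _
  clear e
  induction N with
  | zero => simp
  | succ n ih =>
    have a := mass (lam := lam) h1 h0 L (n + 1)
    rw [sum_range_succ, mass h1 h0] at a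
    rw [sum_range_succ, ih, sum_range_succ, show Pk lam ω (Ub D L) (n + 1) (chi (Tp D L)) 0 =
      sv lam ω L n - sv lam ω L (n + 1) by linarith]
    push_cast
    ring

/-- the identity of Dynkin for the level plus the corrector -/
theorem key (hD : DICTStmt) {h L N : ℕ} (h1 : 1 ≤ h) (h0 : Wide ω 0 h) (hl : 0 ≤ lam) {d b σ : ℝ}
    (d0' : 0 ≤ d) (d1 : d ≤ 1) (b0 : 0 ≤ b) {F : Set (V D)}
    (hF : ∀ y, y ∈ F ↔ (nrm y ≤ N ∧ Wide ω y h) ∧ y 0 < (L : ℤ)) {χ : V D → ℝ}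
    (c1 : ∀ y ∈ F, χ y = dr lam ω y - d + Pf lam ω χ y) (c0 : ∀ y ∉ F, χ y = 0)
    (cb : ∀ y, |χ y| ≤ b * exp (lam * ((L : ℤ) - y 0 : ℤ)))
    (hσ : Pk lam ω (Ub D L) N ((Ub D L).indicator fun y => exp (lam * ((L : ℤ) - y 0 : ℤ))) 0 ≤ σ) :
    |d * tt lam L N ω - L| ≤ b * exp (lam * L) + (L + 2 * N + b) * σ := by
  have hU : ∀ k ≤ N, ∀ y, Wide ω y h → nrm y ≤ k → (y ∈ Ub D L ↔ y ∈ F) := fun k hk y a c =>
    ⟨fun e => (hF y).2 ⟨⟨c.trans hk, a⟩, e⟩, fun e => ((hF y).1 e).2⟩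
  have one : ∀ y ∈ Ub D L, 1 ≤ exp (lam * ((L : ℤ) - y 0 : ℤ)) := fun y hy => by
    have e : y 0 < (L : ℤ) := hy
    exact one_le_exp (mul_nonneg hl (Int.cast_nonneg (by omega)))
  have e := dyn (lam := lam) (ω := ω) F (fun y => (y 0 : ℝ) + χ y) N 0
  have e1 : Gs lam ω F N (F.indicator fun y => (y 0 : ℝ) + χ y -
      Pf lam ω (fun y => (y 0 : ℝ) + χ y) y) 0 = -d * ∑ k ∈ range N, sv lam ω L k := by
    rw [Gs, mul_sum]
    refine sum_congr rfl fun k hk => ?_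
    have hk' := (mem_range.1 hk).le
    rw [sv, ← Pk_mul]
    refine (reach h0 k (hU k hk') fun y a c _ => ?_).symm
    by_cases hy : y ∈ F
    · rw [chi_of_mem ((hU k hk' y a c).2 hy), Set.indicator_of_mem hy, Pf_add,
        Pf_lev (wide_Zq h1 a lam)]
      linarith [c1 y hy]
    · rw [chi_of_not fun u => hy ((hU k hk' y a c).1 u), Set.indicator_of_notMem hy, mul_zero]
  have e2 : Gs lam ω F (N + 1) (Fᶜ.indicator fun y => (y 0 : ℝ) + χ y) 0 =
      L * (1 - sv lam ω L N) := by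
    rw [← mass h1 h0, Gs, mul_sum]
    refine sum_congr rfl fun k hk => ?_
    have hk' := Nat.lt_succ_iff.1 (mem_range.1 hk)
    rw [← Pk_mul]
    refine (reach h0 k (hU k hk') fun y a c u => ?_).symm
    by_cases hy : y ∈ F
    · rw [chi_of_not (show y ∉ Tp D L from ((hF y).1 hy).2.ne),
        Set.indicator_of_notMem (show y ∉ Fᶜ from fun v => v hy), mul_zero]
    · have v : y 0 = (L : ℤ) := le_antisymm u (not_lt.1 fun v => hy ((hU k hk' y a c).1 v))
      rw [chi_of_mem (show y ∈ Tp D L from v), Set.indicator_of_mem (show y ∈ Fᶜ from hy), c0 y hy, v]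
      simp
  have nn : ∀ y, 0 ≤ (Ub D L).indicator (fun y => exp (lam * ((L : ℤ) - y 0 : ℤ))) y := fun y =>
    Set.indicator_nonneg (fun _ _ => (exp_pos _).le) y
  have hN : (0 : ℝ) ≤ N := Nat.cast_nonneg N
  have hL : (0 : ℝ) ≤ L := Nat.cast_nonneg L
  have e3 : |Pk lam ω F N (F.indicator fun y => (y 0 : ℝ) + χ y) 0| ≤ (N + b) * σ := by
    refine (abs_Pk_le (g := fun y => (N + b) * (Ub D L).indicator
      (fun y => exp (lam * ((L : ℤ) - y 0 : ℤ))) y) (fun y => ?_) N 0).trans ?_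
    · by_cases hy : y ∈ F
      · obtain ⟨⟨a, -⟩, c⟩ := (hF y).1 hy
        have u : |(y 0 : ℝ)| ≤ N := by
          have := (abs_le_nrm y 0).trans (Int.ofNat_le.2 a)
          exact_mod_cast this
        rw [Set.indicator_of_mem hy, Set.indicator_of_mem (show y ∈ Ub D L from c)]
        have := mul_le_mul_of_nonneg_left (one y c) hN
        linarith [abs_add_le (y 0 : ℝ) (χ y), cb y]
      · rw [Set.indicator_of_notMem hy, abs_zero]
        exact mul_nonneg (add_nonneg hN b0) (nn y)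
    · rw [Pk_mul]
      exact mul_le_mul_of_nonneg_left ((Pk_dom (fun y hy => ((hF y).1 hy).2) nn N 0).trans hσ)
        (add_nonneg hN b0)
  have s0 : 0 ≤ sv lam ω L N := Pk_nonneg (chi_nonneg _) N 0
  have s1 : sv lam ω L N ≤ σ := by
    refine (Pk_mono (fun y => ?_) N 0).trans hσ
    by_cases hy : y ∈ Ub D L
    · rw [chi_of_mem hy, Set.indicator_of_mem hy]
      exact one y hy
    · rw [chi_of_not hy, Set.indicator_of_notMem hy]
  have c := cb 0
  simp only [Pi.zero_apply, Int.cast_zero, zero_add, sub_zero, Int.cast_natCast] at e c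
  rw [e1, e2] at e
  rw [time hD h1 h0]
  have t1 := mul_le_mul_of_nonneg_left s1 hL
  have t2 := mul_le_mul_of_nonneg_left s1 hN
  have t3 := mul_nonneg hL s0
  have t4 := mul_nonneg d0' (mul_nonneg hN s0)
  have t5 := mul_le_mul_of_nonneg_right d1 (mul_nonneg hN s0)
  rw [abs_le] at e3 c ⊢
  constructor <;> linarith [e3.1, e3.2, c.1, c.2]

theorem small (K C ε : ℝ) (hC : 1 ≤ C) (hε : 0 < ε) (hK : 0 ≤ K) :
    ∃ l₁ : ℕ, ∀ l : ℕ, l₁ ≤ l → K * (l : ℝ) ^ 5 * exp (-((l : ℝ) ^ 2 / C)) ≤ ε := by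
  have C0 : 0 < C := by linarith
  have t := (((tendsto_pow_mul_exp_neg_atTop_nhds_zero 5).comp
    (tendsto_natCast_atTop_atTop.atTop_div_const C0)).const_mul (K * C ^ 5)).eventually_le_const
    (u := ε) (by simpa using hε)
  obtain ⟨l₁, h⟩ := Filter.eventually_atTop.1 t
  refine ⟨l₁ + 1, fun l hl => le_trans ?_ (h l (by omega))⟩
  have l1 : (1 : ℝ) ≤ l := by exact_mod_cast (show 1 ≤ l by omega)
  have e : exp (-((l : ℝ) ^ 2 / C)) ≤ exp (-((l : ℝ) / C)) :=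
    exp_le_exp.2 (neg_le_neg (div_le_div_of_nonneg_right (by nlinarith) C0.le))
  calc _ ≤ K * (l : ℝ) ^ 5 * exp (-((l : ℝ) / C)) := mul_le_mul_of_nonneg_left e (by positivity)
    _ = _ := by simp only [Function.comp]; field_simp

end Q1

open Q1 in
theorem q1S (hD : DICTStmt) (hS : SURStmt) (hG : GBStmt) (hC : GCStmt) (hX : CHIStmt)
    (h0 : D0Stmt) : Q1Stmt := by
  intro D Λ ε hΛ hε
  obtain ⟨C, l₁, C1, hS⟩ := hS D
  obtain ⟨ξ, C', l₂, x0, -, C'1, hG⟩ := hG D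
  obtain ⟨E, hE⟩ : ∃ E : ℝ, E = exp (4 * Λ) := ⟨_, rfl⟩
  have E0 : 0 < E := hE ▸ exp_pos _
  obtain ⟨ε', hε'⟩ : ∃ ε' : ℝ, ε' = ε / (16 * (D + 1) * E) := ⟨_, rfl⟩
  have e0 : 0 < ε' := hε' ▸ by positivity
  obtain ⟨δ₀, l₃, δ0, hX⟩ := hX D ε' e0
  obtain ⟨l₄, sm⟩ := small (8 * (D + 1) * (Λ + 2 + ε') * C * E) C (ε / 2) C1 (by positivity)
    (by positivity)
  refine ⟨δ₀, l₁ + l₂ + l₃ + l₄, δ0, fun ω R m h δ rep w G hδ l lam hl sc w0 hR => ?_⟩
  have l0 := sc.lpos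
  have l1 : (1 : ℝ) ≤ l := by exact_mod_cast (show 1 ≤ l by have := sc.l16; omega)
  have l4 : l ≤ l ^ 4 := Nat.le_self_pow (by norm_num) l
  have lp := sc.pos
  have lq := sc.le_quarter
  obtain ⟨F, hF⟩ : ∃ F : Finset (V D), ∀ y, y ∈ F ↔
      (nrm y ≤ l ^ 4 ∧ Wide ω y h) ∧ y 0 < ((Λ * l : ℕ) : ℤ) :=
    ⟨(wb' ω h 0 (l ^ 4)).filter fun y => y 0 < ((Λ * l : ℕ) : ℤ), fun y => by
      rw [mem_filter, mem_wb', sub_zero]⟩
  have g := hG ω R m h δ rep w G l lam (by omega) sc F (fun _ => 0)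
    (fun y hy => ⟨((hF y).1 hy).1.2, by have := ((hF y).1 hy).1.1; omega⟩)
    fun y z => by rw [sub_self, abs_zero]; positivity
  obtain ⟨χ, c1, c0⟩ := (hC D lam ω F (wf lam fun _ => 0) (C' * (l : ℝ) ^ 2) (by nlinarith)
    (fun _ => exp_pos _) g).2.2.1 ((F : Set (V D)).indicator fun y => dr lam ω y - d0 D lam)
  have c1' : ∀ y ∈ F, χ y = dr lam ω y - d0 D lam + Pf lam ω χ y := fun y hy => by
    rw [c1 y hy, Set.indicator_of_mem (mem_coe.2 hy)]
  have c0' : ∀ y ∉ F, χ y = 0 := fun y hy => by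
    rw [c0 y hy, Set.indicator_of_notMem (mt mem_coe.1 hy)]
  have cb := hX ω R m h δ rep w G hδ l lam (by omega) sc F ((Λ * l : ℕ) : ℤ) χ
    (fun y hy => ⟨((hF y).1 hy).1.2, by have := ((hF y).1 hy).1.1; omega, ((hF y).1 hy).2⟩) c1' c0'
  have hσ := (hS ω R m h δ rep w G l lam (by omega) sc 0 (Ub D (Λ * l)) ((Λ * l : ℕ) : ℤ) (l ^ 4) w0
    (by rw [nrm_zero]; omega) fun _ hy => hy).1
  obtain ⟨z0, z1, z2⟩ := h0 D
  have dl : 1 / (l : ℝ) / (8 * (D + 1)) ≤ d0 D lam := by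
    have := z2 0 lam le_rfl lp.le (by linarith)
    rw [z0, sub_zero, sub_zero] at this
    exact (div_le_div_of_nonneg_right sc.lo (by positivity)).trans this
  have dp : 0 < d0 D lam := lt_of_lt_of_le (by positivity) dl
  have k := key hD G.h1 w0 lp.le dp.le ((z1 lam lp.le).2.trans (by linarith))
    (mul_nonneg e0.le l0.le) (F := (F : Set (V D))) hF c1' c0' cb hσ
  have eE : exp (lam * (Λ * l)) ≤ E := by
    rw [hE]
    refine exp_le_exp.2 ?_
    have := mul_le_mul_of_nonneg_left sc.mul_le (Nat.cast_nonneg (α := ℝ) Λ)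
    linarith
  have ex : (l : ℝ) ^ 4 / (C * (l : ℝ) ^ 2) = (l : ℝ) ^ 2 / C := by field_simp
  simp only [Pi.zero_apply, sub_zero, Int.cast_natCast] at k
  push_cast at k
  rw [ex] at k
  have s := sm l (by omega)
  obtain ⟨X, hX'⟩ : ∃ X, X = exp (-((l : ℝ) ^ 2 / C)) := ⟨_, rfl⟩
  have X0 : 0 < X := hX' ▸ exp_pos _
  rw [← hX'] at k s
  have l4' : (l : ℝ) ≤ (l : ℝ) ^ 4 := by exact_mod_cast l4
  have a1 : ε' * l * exp (lam * (Λ * l)) ≤ ε' * l * E := mul_le_mul_of_nonneg_left eE (by positivity)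
  have a2 : (Λ * l + 2 * (l : ℝ) ^ 4 + ε' * l) * (C * (l : ℝ) ^ 2 * X * exp (lam * (Λ * l))) ≤
      ((Λ + 2 + ε') * (l : ℝ) ^ 4) * (C * (l : ℝ) ^ 2 * X * E) := by
    refine mul_le_mul ?_ (mul_le_mul_of_nonneg_left eE (by positivity)) (by positivity)
      (by positivity)
    have := mul_le_mul_of_nonneg_left l4' (Nat.cast_nonneg (α := ℝ) Λ)
    have := mul_le_mul_of_nonneg_left l4' e0.le
    linarith
  have a3 : 1 ≤ d0 D lam * (8 * (D + 1) * l) := by
    rw [div_div, div_le_iff₀ (by positivity)] at dl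
    linarith
  have a4 : 8 * (D + 1) * l * (ε' * l * E) = ε / 2 * (l : ℝ) ^ 2 := by
    rw [hε']
    field_simp
    ring
  have a5 := mul_le_mul_of_nonneg_right s (sq_nonneg (l : ℝ))
  have a6 : tt lam (Λ * l) (l ^ 4) ω - Λ * l / d0 D lam =
      (d0 D lam * tt lam (Λ * l) (l ^ 4) ω - Λ * l) / d0 D lam := by field_simp
  rw [a6, abs_div, abs_of_pos dp, div_le_iff₀ dp]
  have a7 := mul_le_mul_of_nonneg_left (k.trans (add_le_add a1 a2))
    (show (0 : ℝ) ≤ 8 * (D + 1) * l by positivity)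
  have a8 : 8 * (D + 1) * l * |d0 D lam * tt lam (Λ * l) (l ^ 4) ω - Λ * l| ≤ ε * (l : ℝ) ^ 2 := by
    linarith
  have a9 := mul_le_mul_of_nonneg_left a8 dp.le
  have a10 := mul_le_mul_of_nonneg_right a3
    (abs_nonneg (d0 D lam * tt lam (Λ * l) (l ^ 4) ω - Λ * l))
  linarith

end Pool.Agent.MP_8c549f_pr.L2

end

end Part6
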