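import Pool.Agent.MP_8c549f_pr.L3.Spec

-- ======== part 0: Ov1
section Part0

/-! PROJECT L2: from the middle of a strip one of two parts of the top is reached from all sites. -/

noncomputable section

namespace Pool.Agent.MP_8c549f_pr.L2

open MeasureTheory Finset Real Classical S3

namespace Ov1

variable {D : ℕ} {lam : ℝ} {ω : Cfg D}

/-- exit through `A` within `n` steps, or survival -/
def gg (lam : ℝ) (ω : Cfg D) (S A : Set (V D)) (n : ℕ) (y : V D) : ℝ :=
  Gs lam ω S (n + 1) (chi A) y + Pk lam ω S n (chi S) y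

theorem gg_nonneg (S A : Set (V D)) (n : ℕ) (y : V D) : 0 ≤ gg lam ω S A n y :=
  add_nonneg (Gs_nonneg (chi_nonneg A) _ y) (Pk_nonneg (chi_nonneg S) _ y)

theorem gg_super {S A : Set (V D)} (h : Disjoint S A) (n : ℕ) {y : V D} (hy : y ∈ S) :
    Pf lam ω (gg lam ω S A n) y ≤ gg lam ω S A n y := by
  have hA : y ∉ A := Set.disjoint_left.1 h hy
  have h1 : Pf lam ω (gg lam ω S A n) y =
      Gs lam ω S (n + 1 + 1) (chi A) y + Pk lam ω S (n + 1) (chi S) y := by
    rw [Gs_succ_mem hy, Pk_succ_mem hy, chi_of_not hA, zero_add, ← Pf_add]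
    rfl
  have h2 : Pk lam ω S (n + 1) (chi A) y + Pk lam ω S (n + 1) (chi S) y ≤
      Pk lam ω S n (chi S) y := by
    rw [← Pk_add, Pk_succ']
    refine Pk_mono (fun z => ?_) n y
    by_cases hz : z ∈ S
    · rw [Pu_of_mem hz, chi_of_mem hz]
      refine Pf_le zero_le_one fun s _ => ?_
      by_cases h3 : z + vec s ∈ S
      · rw [chi_of_not (Set.disjoint_left.1 h h3), chi_of_mem h3, zero_add]
      · rw [chi_of_not h3, add_zero]
        exact chi_le_one _ _
    · rw [Pu_of_not hz, chi_of_not hz]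
  rw [h1, Gs_succ' (n + 1), gg]
  linarith

theorem gg_add {L : ℤ} {A B : Set (V D)} (hAB : A ∪ B = {y : V D | y 0 = L}) (n : ℕ) {y : V D}
    (hy : 0 < Zq lam ω y) (hL : y 0 ≤ L) :
    1 - Gs lam ω {y : V D | 0 < y 0 ∧ y 0 < L} (n + 1) (chi {z : V D | z 0 ≤ 0}) y ≤
      gg lam ω {y : V D | 0 < y 0 ∧ y 0 < L} A n y +
        gg lam ω {y : V D | 0 < y 0 ∧ y 0 < L} B n y := by
  set S : Set (V D) := {y : V D | 0 < y 0 ∧ y 0 < L} with hS
  have h1 := exit_add_eq (lam := lam) (ω := ω) S n y hy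
  have h2 : Gs lam ω S (n + 1) (chi Sᶜ) y ≤
      Gs lam ω S (n + 1) (fun z => (chi A z + chi B z) + chi {z : V D | z 0 ≤ 0} z) y := by
    refine sum_le_sum fun k _ => Pk_mono_loc k (fun _ z => z 0 ≤ L) y hL ?_ ?_
    · intro i _ z s _ hz _
      have h3 := (vec_bounds s 0).2
      have h4 : z 0 < L := hz.2
      show z 0 + vec s 0 ≤ L
      omega
    · intro z hz
      have a1 := chi_nonneg A z
      have a2 := chi_nonneg B z
      have a3 := chi_nonneg {z : V D | z 0 ≤ 0} z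
      by_cases h3 : z ∈ S
      · rw [chi_of_not (show z ∉ Sᶜ from fun h => h h3)]
        linarith
      · have a4 := chi_le_one Sᶜ z
        by_cases h4 : z 0 ≤ 0
        · rw [chi_of_mem (show z ∈ {z : V D | z 0 ≤ 0} from h4)]
          linarith
        · have h5 : z ∈ A ∪ B := by
            rw [hAB]
            have h6 : ¬ (0 < z 0 ∧ z 0 < L) := h3
            show z 0 = L
            omega
          rcases h5 with h5 | h5
          · rw [chi_of_mem h5]
            linarith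
          · rw [chi_of_mem h5]
            linarith
  rw [Gs_add, Gs_add] at h2
  have h3 := Pk_nonneg (lam := lam) (ω := ω) (U := S) (chi_nonneg S) n y
  unfold gg
  linarith

theorem bx_eq (x : V D) (k K : ℕ) : bx x k K =
    box (fun j => x j - ((if j = 0 then k else K + k : ℕ) : ℤ))
      fun j => 2 * (if j = 0 then k else K + k) + 1 := by
  unfold bx box
  congr 1
  funext j
  ext t
  by_cases hj : j = 0
  · simp only [hj, if_true, mem_Icc, mem_Ico]
    push_cast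
    omega
  · simp only [hj, if_false, mem_Icc, mem_Ico]
    push_cast
    omega

theorem mem_bx_up {H k K : ℕ} {y : V D} (hy : y ∈ bx (up D H) k K) :
    (H : ℤ) - k ≤ y 0 ∧ y 0 ≤ H + k ∧ nrm y ≤ H + K + k := by
  have h := Fintype.mem_piFinset.1 hy
  have h0 := h 0
  simp only [if_true, mem_Icc, up, Pi.single_eq_same] at h0
  refine ⟨h0.1, h0.2, nrm_le_iff.2 fun j => ?_⟩
  by_cases hj : j = 0
  · subst hj
    rw [abs_le]
    push_cast
    omega
  · have h1 := h j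
    simp only [hj, if_false, mem_Icc, up, Pi.single_eq_of_ne hj] at h1
    rw [abs_le]
    push_cast at h1 ⊢
    omega

theorem half_wide (hN : CNTStmt) {R m h : ℕ} {δ : ℝ} {rep : V D → V D} {w : V D → ℝ}
    (hg : Geo ω R m h δ rep w) (x : V D) (k K : ℕ) (hk : m ≤ 2 * k + 1)
    (hR : ∀ z ∈ bx x k K, nrm z ≤ R) :
    (bx x k K).card ≤ 2 * ((bx x k K).filter fun y => Wide ω y h).card := by
  have h1 := (hN D m δ w (hg.h1.trans hg.hm) hg.d0 hg.w1 hg.seg).2
    (fun j => x j - ((if j = 0 then k else K + k : ℕ) : ℤ))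
    (fun j => 2 * (if j = 0 then k else K + k) + 1) (by simpa using hk)
  rw [← bx_eq] at h1
  have h2 : ((((bx x k K).filter fun y => ¬ Wide ω y h).card : ℕ) : ℝ) ≤
      ∑ z ∈ bx x k K, (w z - 1) := by
    rw [card_eq_sum_ones, Nat.cast_sum]
    refine le_trans (sum_le_sum fun z hz => ?_) (sum_le_sum_of_subset_of_nonneg (filter_subset _ _)
      fun z _ _ => sub_nonneg.2 (hg.w1 z))
    have h3 := mem_filter.1 hz
    have h4 : ¬ w z < 2 := fun h5 => h3.2 (hg.nml z (hR z h3.1) h5).1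
    push_cast
    linarith
  have h3 := card_filter_add_card_filter_not (s := bx x k K) fun y => Wide ω y h
  have h4 : (((bx x k K).filter fun y => Wide ω y h).card : ℝ) +
      (((bx x k K).filter fun y => ¬ Wide ω y h).card : ℝ) = (bx x k K).card := by
    exact_mod_cast h3
  have h5 : (0 : ℝ) ≤ (bx x k K).card := Nat.cast_nonneg _
  have h6 : 2 * δ * (bx x k K).card ≤ 1 / 2 * (bx x k K).card :=
    mul_le_mul_of_nonneg_right (by linarith [hg.d1]) h5
  have h7 : ((bx x k K).card : ℝ) ≤ 2 * (((bx x k K).filter fun y => Wide ω y h).card : ℝ) := by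
    linarith
  exact_mod_cast h7

theorem tiny {C c E : ℝ} {l : ℕ} (hC : 1 ≤ C) (hc : 0 < c) (hE : 0 ≤ E) (h16 : 16 ≤ l)
    (hl : 64 * C ^ 3 * E / c ≤ l) :
    C * (l : ℝ) ^ 2 * exp (-(((l ^ 4 / 2 : ℕ) : ℝ) / (C * (l : ℝ) ^ 2))) * E ≤ c / 2 := by
  have l1 : (16 : ℝ) ≤ l := by exact_mod_cast h16
  have l0 : (0 : ℝ) < l := by linarith
  have hn : (l : ℝ) ^ 4 ≤ 4 * ((l ^ 4 / 2 : ℕ) : ℝ) := by
    have h1 : 2 ≤ l ^ 4 := le_trans (by omega) (Nat.le_self_pow (by norm_num) l)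
    have h2 : l ^ 4 ≤ 4 * (l ^ 4 / 2) := by omega
    exact_mod_cast h2
  set u : ℝ := ((l ^ 4 / 2 : ℕ) : ℝ) / (C * (l : ℝ) ^ 2) with hu
  have u1 : (l : ℝ) ^ 2 / (4 * C) ≤ u := by
    rw [hu, div_le_div_iff₀ (by positivity) (by positivity)]
    nlinarith
  have u0 : 0 < (l : ℝ) ^ 2 / (4 * C) := by positivity
  have e1 : ((l : ℝ) ^ 2 / (4 * C)) ^ 2 / 2 ≤ exp u := by
    have h1 := Real.quadratic_le_exp_of_nonneg (u0.le.trans u1)
    have h2 : ((l : ℝ) ^ 2 / (4 * C)) ^ 2 ≤ u ^ 2 := pow_le_pow_left₀ u0.le u1 2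
    linarith
  have e2 : exp (-u) ≤ 32 * C ^ 2 / (l : ℝ) ^ 4 := by
    rw [exp_neg]
    refine (inv_anti₀ (by positivity) e1).trans (le_of_eq ?_)
    field_simp
    norm_num
  have e3 : C * (l : ℝ) ^ 2 * exp (-u) * E ≤ C * (l : ℝ) ^ 2 * (32 * C ^ 2 / (l : ℝ) ^ 4) * E := by
    gcongr
  refine e3.trans ?_
  have e4 : C * (l : ℝ) ^ 2 * (32 * C ^ 2 / (l : ℝ) ^ 4) * E = 32 * C ^ 3 * E / (l : ℝ) ^ 2 := by
    field_simp
  rw [e4, div_le_iff₀ (by positivity)]
  rw [div_le_iff₀ hc] at hl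
  nlinarith [mul_pos l0 hc]

end Ov1

set_option linter.unusedVariables false in
open Ov1 in
theorem ov1 (hG : GBStmt) (hC : GCStmt) (hS : SURStmt) (hH : HITStmt) (hW : WHStmt)
    (hN : CNTStmt) : OV1Stmt := by
  intro D
  obtain ⟨ξ, CH, lH, hξ, _, hCH, hH⟩ := hH D
  obtain ⟨CS, lS, hCS, hS⟩ := hS D
  refine ⟨⌈4 * CH⌉₊ + 8, fun Λ κ hΛ => ?_⟩
  obtain ⟨c, lW, hc, hW⟩ := hW D κ
  refine ⟨c / 2, lH + lS + lW + (Λ + κ + 4) + ⌈64 * CS ^ 3 * exp (4 * Λ) / c⌉₊, half_pos hc, ?_⟩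
  intro ω R m h δ rep w hg l lam hl hs hR A B hAB
  have l16 := hs.l16
  have hm := hs.m16
  have hΛ8 : 8 ≤ Λ := by omega
  have h8 : 8 * l ≤ Λ * l := Nat.mul_le_mul_right l hΛ8
  have hq : Λ * l + κ * l + 4 * l ≤ l ^ 4 := by
    calc Λ * l + κ * l + 4 * l = (Λ + κ + 4) * l := by ring
      _ ≤ l * l := Nat.mul_le_mul_right l (by omega)
      _ = l ^ 2 := by ring
      _ ≤ l ^ 4 := Nat.pow_le_pow_right (by omega) (by norm_num)
  set L : ℕ := Λ * l with hL
  set S : Set (V D) := {y : V D | 0 < y 0 ∧ y 0 < (L : ℤ)} with hSd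
  set n : ℕ := l ^ 4 / 2 with hn
  have lp := hs.lpos
  have lam0 := hs.pos
  have key : ∀ E : Set (V D), E ⊆ {y : V D | y 0 = (L : ℤ)} →
      (bx (up D (L / 2)) l (κ * l)).card ≤ 4 * ((bx (up D (L / 2)) l (κ * l)).filter fun y =>
        Wide ω y h ∧ 1 / 4 ≤ gg lam ω S E n y).card →
      ∀ y ∈ bx (up D (L / 2)) 0 (κ * l), Wide ω y h → c / 2 ≤ Gs lam ω S (n + 1) (chi E) y := by
    intro E hE hcard y hy hw
    have hd : Disjoint S E := Set.disjoint_left.2 fun z h1 h2 => by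
      have h3 : z 0 = (L : ℤ) := hE h2
      have h4 : z 0 < (L : ℤ) := h1.2
      omega
    have h1 := hW ω R m h δ rep w hg l lam (by omega) hs (up D (L / 2)) (gg lam ω S E n) ?_
      (gg_nonneg S E n) ?_ hcard y hy hw
    · obtain ⟨b1, b2, b3⟩ := mem_bx_up hy
      have h2 := (hS ω R m h δ rep w hg l lam (by omega) hs y S L n hw (by omega)
        fun z hz => hz.2).1
      have h3 : Pk lam ω S n (chi S) y ≤
          Pk lam ω S n (S.indicator fun y => exp (lam * ((L : ℤ) - y 0 : ℤ))) y := by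
        refine Pk_mono (fun z => ?_) n y
        by_cases hz : z ∈ S
        · rw [chi_of_mem hz, Set.indicator_of_mem hz]
          refine one_le_exp (mul_nonneg lam0.le ?_)
          have h4 : z 0 < (L : ℤ) := hz.2
          exact_mod_cast (by omega : (0 : ℤ) ≤ (L : ℤ) - z 0)
        · rw [chi_of_not hz, Set.indicator_of_notMem hz]
      have h4 : exp (lam * ((L : ℤ) - y 0 : ℤ)) ≤ exp (4 * Λ) := by
        refine exp_le_exp.2 ?_
        have h5 : (((L : ℤ) - y 0 : ℤ) : ℝ) ≤ (Λ : ℝ) * l := by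
          have h6 : (L : ℤ) - y 0 ≤ ((Λ * l : ℕ) : ℤ) := by omega
          exact_mod_cast h6
        calc lam * ((L : ℤ) - y 0 : ℤ) ≤ lam * ((Λ : ℝ) * l) := mul_le_mul_of_nonneg_left h5 lam0.le
          _ = (lam * l) * Λ := by ring
          _ ≤ 4 * Λ := mul_le_mul_of_nonneg_right hs.mul_le (Nat.cast_nonneg _)
      have h5 := tiny (l := l) hCS hc (exp_pos (4 * Λ)).le l16
        ((Nat.le_ceil _).trans (Nat.cast_le.2 (by omega)))
      have h6 : CS * (l : ℝ) ^ 2 * exp (-(n / (CS * (l : ℝ) ^ 2))) *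
          exp (lam * ((L : ℤ) - y 0 : ℤ)) ≤
          CS * (l : ℝ) ^ 2 * exp (-(n / (CS * (l : ℝ) ^ 2))) * exp (4 * Λ) :=
        mul_le_mul_of_nonneg_left h4 (by positivity)
      unfold gg at h1
      linarith
    · have h2 : nrm (up D (L / 2)) = L / 2 := by rw [up, nrm_single, Int.natAbs_natCast]
      have h3 : (κ + 4) * l = κ * l + 4 * l := by ring
      omega
    · intro z hz _
      obtain ⟨b1, b2, _⟩ := mem_bx_up hz
      refine gg_super hd n ⟨?_, ?_⟩ <;> omega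
  have hsum : ∀ y ∈ bx (up D (L / 2)) l (κ * l), Wide ω y h →
      1 / 2 ≤ gg lam ω S A n y + gg lam ω S B n y := by
    intro y hy hw
    obtain ⟨b1, b2, b3⟩ := mem_bx_up hy
    have h1 := gg_add (lam := lam) (ω := ω) hAB n (wide_Zq hg.h1 hw lam) (by omega)
    have h2 := hH ω R m h δ rep w hg l lam (by omega) hs y S {z : V D | z 0 ≤ 0} (fun _ => 0) n 1 hw
      (by omega) (Set.disjoint_left.2 fun z h3 h4 => by
        have h5 : 0 < z 0 := h3.1
        have h6 : z 0 ≤ 0 := h4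
        omega)
      (fun a b => by
        rw [sub_self, abs_zero]
        positivity) one_pos
      (fun z hz => by
        have h3 : ((z 0 : ℤ) : ℝ) ≤ 0 := by exact_mod_cast (hz : z 0 ≤ 0)
        refine one_le_exp ?_
        nlinarith)
    have h3 : 2 * CH * l ≤ ((y 0 : ℤ) : ℝ) := by
      have h4 : (4 * CH : ℝ) + 8 ≤ Λ := by
        have h5 : ((⌈4 * CH⌉₊ + 8 : ℕ) : ℝ) ≤ Λ := by exact_mod_cast hΛ
        push_cast at h5
        linarith [Nat.le_ceil (4 * CH)]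
      have h5 : ((Λ * l : ℕ) : ℤ) ≤ 2 * y 0 + 3 * l := by omega
      have h6 : (Λ : ℝ) * l ≤ 2 * ((y 0 : ℤ) : ℝ) + 3 * l := by exact_mod_cast h5
      nlinarith
    have h4 : 2 * CH ≤ lam * ((y 0 : ℤ) : ℝ) := by
      have h5 := hs.le_mul
      have h6 : lam * (2 * CH * l) ≤ lam * ((y 0 : ℤ) : ℝ) := mul_le_mul_of_nonneg_left h3 lam0.le
      nlinarith
    have h5 : CH * wf lam (fun _ => 0) y / 1 ≤ 1 / 2 := by
      rw [div_one, wf, add_zero, exp_neg, ← div_eq_mul_inv, div_le_iff₀ (exp_pos _)]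
      linarith [add_one_le_exp (lam * ((y 0 : ℤ) : ℝ))]
    linarith
  have hw := half_wide hN hg (up D (L / 2)) l (κ * l) (by omega) fun z hz => by
    have := (mem_bx_up hz).2.2
    omega
  have hsub : ((bx (up D (L / 2)) l (κ * l)).filter fun y => Wide ω y h) ⊆
      ((bx (up D (L / 2)) l (κ * l)).filter fun y => Wide ω y h ∧ 1 / 4 ≤ gg lam ω S A n y) ∪
      ((bx (up D (L / 2)) l (κ * l)).filter fun y => Wide ω y h ∧ 1 / 4 ≤ gg lam ω S B n y) := by
    intro y hy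
    obtain ⟨h1, h2⟩ := mem_filter.1 hy
    have h3 := hsum y h1 h2
    by_cases h4 : 1 / 4 ≤ gg lam ω S A n y
    · exact mem_union_left _ (mem_filter.2 ⟨h1, h2, h4⟩)
    · exact mem_union_right _ (mem_filter.2 ⟨h1, h2, by linarith⟩)
  have hcard := (card_le_card hsub).trans (card_union_le _ _)
  by_cases hA : (bx (up D (L / 2)) l (κ * l)).card ≤ 4 * ((bx (up D (L / 2)) l (κ * l)).filter
      fun y => Wide ω y h ∧ 1 / 4 ≤ gg lam ω S A n y).card
  · exact Or.inl (key A (hAB ▸ Set.subset_union_left) hA)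
  · exact Or.inr (key B (hAB ▸ Set.subset_union_right) (by omega))

end Pool.Agent.MP_8c549f_pr.L2

end

end Part0

-- ======== part 1: Ov2
section Part1

/-! PROJECT L2: the walk reaches the middle level inside a box of side proportional to `l`. -/

noncomputable section

namespace Pool.Agent.MP_8c549f_pr.L2

open MeasureTheory Finset Real Classical S3

namespace Ov2

variable {D : ℕ}

theorem lip_nrm {c : ℝ} (hc : 0 ≤ c) : Lip (fun y : V D => c * (nrm y : ℝ)) c := by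
  intro y z
  rw [← mul_sub, abs_mul, abs_of_nonneg hc]
  refine mul_le_mul_of_nonneg_left ?_ hc
  have h1 : nrm y ≤ nrm (y - z) + nrm z := by simpa using nrm_tri y z 0
  have h2 : nrm z ≤ nrm (y - z) + nrm y := by
    rw [nrm_sub_comm]; simpa using nrm_tri z y 0
  have h1' : (nrm y : ℝ) ≤ nrm (y - z) + nrm z := by exact_mod_cast h1
  have h2' : (nrm z : ℝ) ≤ nrm (y - z) + nrm y := by exact_mod_cast h2
  exact abs_le.2 ⟨by linarith, by linarith⟩

theorem mem_bx {H K : ℕ} {y : V D} (h0 : y 0 = (H : ℤ)) (h1 : nrm y ≤ K) :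
    y ∈ bx (up D H) 0 K := by
  rw [bx, Fintype.mem_piFinset]
  intro j
  by_cases hj : j = 0
  · subst hj; simp [up, h0]
  · have := abs_le.1 (nrm_le_iff.1 h1 j)
    simp only [hj, if_false, up, Pi.single_eq_of_ne hj, mem_Icc, add_zero, zero_sub, zero_add]
    exact this

/-- the tail of the survival estimate -/
theorem tail {C E l n : ℝ} (hC : 1 ≤ C) (hl : 1 ≤ l) (hl2 : 128 * C ^ 3 * E ≤ l)
    (hn : l ^ 4 / 4 ≤ n) : C * l ^ 2 * exp (-(n / (C * l ^ 2))) * E ≤ 1 / 4 := by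
  have hl0 : 0 < l := by linarith
  have hC0 : 0 < C := by linarith
  set u := n / (C * l ^ 2) with hu
  have h1 : l ^ 2 / (4 * C) ≤ u := by
    rw [hu, div_le_div_iff₀ (by positivity) (by positivity)]
    nlinarith [mul_le_mul_of_nonneg_left hn (show 0 ≤ 4 * C by positivity)]
  have h2 : 0 < l ^ 2 / (4 * C) := by positivity
  have h3 : u ^ 2 / 2 ≤ exp u := by
    have := Real.pow_div_factorial_le_exp u (by linarith) 2
    simpa using this
  have h4 : (l ^ 2 / (4 * C)) ^ 2 ≤ u ^ 2 := pow_le_pow_left₀ h2.le h1 2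
  have h5 : l ^ 4 / (32 * C ^ 2) ≤ exp u := by
    have : l ^ 4 / (32 * C ^ 2) = (l ^ 2 / (4 * C)) ^ 2 / 2 := by field_simp; ring
    linarith
  rw [exp_neg, mul_assoc, mul_comm (exp u)⁻¹, ← mul_assoc, ← div_eq_mul_inv,
    div_le_iff₀ (exp_pos _)]
  refine le_trans ?_ (mul_le_mul_of_nonneg_left h5 (by norm_num))
  rw [← mul_div_assoc, le_div_iff₀ (by positivity)]
  have h6 : 128 * C ^ 3 * E ≤ l ^ 2 := hl2.trans (by nlinarith)
  nlinarith [mul_le_mul_of_nonneg_left h6 (show 0 ≤ l ^ 2 by positivity)]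

end Ov2

open Ov2 in
theorem ov2 (hS : SURStmt) (hH : HITStmt) : OV2Stmt := by
  intro D Λ _
  obtain ⟨C₁, l₁, hC₁, hS⟩ := hS D
  obtain ⟨ξ, C₂, l₂, hξ, -, hC₂, hH⟩ := hH D
  set E : ℝ := exp (2 * Λ) with hE
  have hE0 : 0 < E := exp_pos _
  refine ⟨⌈4 * C₂ * E / ξ⌉₊, max (max l₁ l₂) ⌈128 * C₁ ^ 3 * E⌉₊, ?_⟩
  intro ω R m h δ rep w hG l lam hl hs hw hR
  set κ : ℕ := ⌈4 * C₂ * E / ξ⌉₊ with hκ
  set H : ℕ := Λ * l / 2 with hHd
  set n : ℕ := l ^ 4 / 2 with hn
  have hl16 := hs.l16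
  have hl0 := hs.lpos
  have hlam := hs.pos
  have hl4 : 16 * l ≤ l ^ 4 := by
    calc 16 * l ≤ l ^ 3 * l := Nat.mul_le_mul_right _
          (hl16.trans (Nat.le_self_pow (by norm_num) l))
      _ = l ^ 4 := by ring
  have hHl : lam * (H : ℝ) ≤ 2 * Λ := by
    have h1 : 2 * H ≤ Λ * l := by omega
    have h2 : 2 * (H : ℝ) ≤ Λ * l := by exact_mod_cast h1
    have h3 : (0 : ℝ) ≤ Λ := Nat.cast_nonneg _
    nlinarith [mul_le_mul_of_nonneg_left h2 hlam.le, mul_le_mul_of_nonneg_left hs.mul_le h3]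
  set A : Set (V D) := {y | y 0 < (H : ℤ) ∧ nrm y < κ * l} with hA
  set Z : Set (V D) := {y | κ * l ≤ nrm y ∧ y 0 ≤ (H : ℤ)} with hZ
  -- the walk does not go far sideways
  have hit : Gs lam ω A (n + 1) (chi Z) 0 ≤ 1 / 4 := by
    have h1 := hH ω R m h δ rep w hG l lam (by omega) hs 0 A Z (fun y => ξ / l * (nrm y : ℝ)) n
      (exp (-(2 * Λ) + ξ * κ)) hw (by simp only [nrm_zero]; omega)
      (Set.disjoint_left.2 fun y hy hy' => absurd hy.2 (not_lt.2 hy'.1))
      (lip_nrm (by positivity)) (exp_pos _) fun z hz => by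
        rw [wf]
        refine exp_le_exp.2 (add_le_add (neg_le_neg ?_) ?_)
        · have : (z 0 : ℝ) ≤ H := by exact_mod_cast hz.2
          exact (mul_le_mul_of_nonneg_left this hlam.le).trans hHl
        · have : (κ : ℝ) * l ≤ nrm z := by exact_mod_cast hz.1
          rw [div_mul_eq_mul_div, le_div_iff₀ hl0, mul_assoc]
          exact mul_le_mul_of_nonneg_left this hξ.le
    refine h1.trans ?_
    have h2 : wf lam (fun y : V D => ξ / l * (nrm y : ℝ)) 0 = 1 := by simp [wf]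
    rw [h2, mul_one, div_le_iff₀ (exp_pos _), exp_add, exp_neg, ← hE]
    have h3 : 4 * C₂ * E / ξ ≤ κ := Nat.le_ceil _
    have h4 : 4 * C₂ * E ≤ ξ * κ := by rw [div_le_iff₀ hξ] at h3; linarith
    have h5 : ξ * κ ≤ exp (ξ * κ) := by linarith [add_one_le_exp (ξ * κ)]
    rw [inv_mul_eq_div, ← mul_div_assoc, le_div_iff₀ hE0]
    linarith
  -- the walk does not stay
  have sur : Pk lam ω A n (chi A) 0 ≤ 1 / 4 := by
    have h1 := (hS ω R m h δ rep w hG l lam (by omega) hs 0 A H n hw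
      (by simp only [nrm_zero]; omega) fun y hy => hy.1).1
    refine (Pk_mono (fun y => ?_) n 0).trans (h1.trans ?_)
    · by_cases hy : y ∈ A
      · rw [chi_of_mem hy, Set.indicator_of_mem hy]
        refine one_le_exp (mul_nonneg hlam.le ?_)
        have : (0 : ℤ) ≤ H - y 0 := by have := hy.1; omega
        exact_mod_cast this
      · rw [chi_of_not hy, Set.indicator_of_notMem hy]
    · have h2 : exp (lam * (((H : ℤ) - (0 : V D) 0 : ℤ) : ℝ)) ≤ E := by
        refine exp_le_exp.2 ?_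
        simpa using hHl
      refine (mul_le_mul_of_nonneg_left h2 (by positivity)).trans ?_
      refine tail hC₁ (by exact_mod_cast (show 1 ≤ l by omega)) ?_ ?_
      · exact (Nat.le_ceil _).trans (by exact_mod_cast (show ⌈128 * C₁ ^ 3 * E⌉₊ ≤ l by omega))
      · have h3 : l ^ 4 ≤ 4 * n := by omega
        have h4 : (l : ℝ) ^ 4 ≤ 4 * n := by exact_mod_cast h3
        linarith
  have ex := exit_add_eq (lam := lam) (ω := ω) A n 0 (wide_Zq hG.h1 hw lam)
  have spl : Gs lam ω A (n + 1) (chi Aᶜ) 0 ≤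
      Gs lam ω A (n + 1) (chi (bx (up D H) 0 (κ * l) : Set (V D))) 0 +
        Gs lam ω A (n + 1) (chi Z) 0 := by
    rw [← Gs_add]
    refine sum_le_sum fun k _ => Pk_mono_loc k (fun _ y => y 0 ≤ (H : ℤ) ∧ nrm y ≤ κ * l) 0
      ⟨by simp, by simp⟩ (fun _ _ y s _ hy _ => ⟨?_, ?_⟩) fun y hy => ?_
    · have := (vec_bounds s 0).2
      have := hy.1
      simp only [Pi.add_apply]; omega
    · have := nrm_add_le y (vec s)
      have := hy.2
      rw [nrm_vec] at *; omega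
    · by_cases hy' : y ∈ A
      · rw [chi_of_not (by simpa using hy')]
        exact add_nonneg (chi_nonneg _ _) (chi_nonneg _ _)
      · rw [chi_of_mem (show y ∈ Aᶜ from hy')]
        by_cases h0 : y 0 = (H : ℤ)
        · rw [chi_of_mem (show y ∈ (bx (up D H) 0 (κ * l) : Set (V D)) from mem_bx h0 hy.2)]
          linarith [chi_nonneg Z y]
        · have h1 : y ∈ Z := ⟨not_lt.1 fun c => hy' ⟨lt_of_le_of_ne hy.1 h0, c⟩, hy.1⟩
          rw [chi_of_mem h1]
          linarith [chi_nonneg (bx (up D H) 0 (κ * l) : Set (V D)) y]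
  have dom := Gs_dom (lam := lam) (ω := ω) (U := A) (U' := {y : V D | y 0 < (H : ℤ)})
    (fun y hy => hy.1) (chi_nonneg (bx (up D H) 0 (κ * l) : Set (V D))) (n + 1) 0
  linarith

end Pool.Agent.MP_8c549f_pr.L2

end

end Part1

-- ======== part 2: Ov
section Part2

/-! PROJECT L2: overlap of the end points of two legs. -/

noncomputable section

namespace Pool.Agent.MP_8c549f_pr.L2

open MeasureTheory Finset Real Classical S3

namespace Ov

variable {D : ℕ} {lam : ℝ} {ω ω' : Cfg D}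

theorem hl_nonneg (L N : ℕ) (y : V D) : 0 ≤ hl lam L N ω y :=
  sum_nonneg fun l _ => wr_nonneg l 0

/-- hitting a part of the top level, as a sum over end points -/
theorem gs_le (hD : DICTStmt) (L N : ℕ) {A : Set (V D)} (hA : ∀ y ∈ A, y 0 = (L : ℤ)) :
    Gs lam ω {y : V D | y 0 < (L : ℤ)} (N + 1) (chi A) 0 ≤
      ∑ y ∈ ball 0 N, hl lam L N ω y * chi A y := by
  have h1 := hD D lam ω L N {y : V D | y 0 < (L : ℤ)} (fun _ => 1) (chi A) fun y hy => hy
  have h2 : Set.indicator {y : V D | y 0 = (L : ℤ)} (chi A) = chi A := by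
    funext y
    by_cases hy : y ∈ A
    · exact Set.indicator_of_mem (show y ∈ {y : V D | y 0 = (L : ℤ)} from hA y hy) _
    · rw [chi_of_not hy]
      by_cases hz : y ∈ {y : V D | y 0 = (L : ℤ)}
      · rw [Set.indicator_of_mem hz, chi_of_not hy]
      · rw [Set.indicator_of_notMem hz]
  rw [h2] at h1
  simp only [one_mul] at h1
  rw [Gs, ← h1]
  refine (sum_le_sum_of_subset_of_nonneg (t := Lg D L N) (@filter_subset _ _ (_) _) fun l _ _ =>
    mul_nonneg (wr_nonneg l 0) (chi_nonneg _ _)).trans (le_of_eq ?_)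
  rw [← sum_fiberwise_of_maps_to (s := Lg D L N) (t := ball 0 N) (g := fun l => pos l)]
  · refine sum_congr rfl fun y _ => ?_
    rw [hl, sum_mul]
    refine sum_congr (by congr) fun l hl => ?_
    rw [(mem_filter.1 hl).2]
  · intro l hl
    rw [mem_ball, sub_zero]
    exact (nrm_pos_le l).trans (mem_Lg.1 hl).1

theorem ovl_ge (hD : DICTStmt) (L N : ℕ) :
    Gs lam ω {y : V D | y 0 < (L : ℤ)} (N + 1)
        (chi {y | y 0 = (L : ℤ) ∧ hl lam L N ω y ≤ hl lam L N ω' y}) 0 +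
      Gs lam ω' {y : V D | y 0 < (L : ℤ)} (N + 1)
        (chi {y | y 0 = (L : ℤ) ∧ ¬ hl lam L N ω y ≤ hl lam L N ω' y}) 0 ≤ ovl lam L N ω ω' := by
  refine (add_le_add (gs_le hD L N fun y hy => hy.1) (gs_le hD L N fun y hy => hy.1)).trans ?_
  rw [← sum_add_distrib, ovl]
  refine sum_le_sum fun y _ => ?_
  have h1 := hl_nonneg (lam := lam) (ω := ω) L N y
  have h2 := hl_nonneg (lam := lam) (ω := ω') L N y
  have h3 := chi_le_one {y | y 0 = (L : ℤ) ∧ hl lam L N ω y ≤ hl lam L N ω' y} y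
  have h4 := chi_le_one {y | y 0 = (L : ℤ) ∧ ¬ hl lam L N ω y ≤ hl lam L N ω' y} y
  by_cases c : hl lam L N ω y ≤ hl lam L N ω' y
  · rw [min_eq_left c, chi_of_not (U := {y | y 0 = (L : ℤ) ∧ ¬ hl lam L N ω y ≤ hl lam L N ω' y})
      fun h => h.2 c, mul_zero, add_zero]
    exact mul_le_of_le_one_right h1 h3
  · rw [min_eq_right (not_le.1 c).le, chi_of_not
      (U := {y | y 0 = (L : ℤ) ∧ hl lam L N ω y ≤ hl lam L N ω' y}) fun h => c h.2, mul_zero,
      zero_add]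
    exact mul_le_of_le_one_right h2 h4

/-- two stages: reach `Z`, then the target -/
theorem two {T S U Z : Set (V D)} {f : V D → ℝ} (hf : ∀ y, 0 ≤ f y) (hT : T ⊆ U) (hS : S ⊆ U)
    (hZ : Disjoint T Z) {n N : ℕ} (hn : n + n ≤ N) {c : ℝ} (hc : 0 ≤ c) (Rr : V D → Prop)
    (h0 : Rr 0) (hs : ∀ y s, Rr y → ω (edge y s) = true → Rr (y + vec s))
    (h1 : 1 / 2 ≤ Gs lam ω T (n + 1) (chi Z) 0)
    (h2 : ∀ y ∈ Z, Rr y → c ≤ Gs lam ω S (n + 1) f y) : c / 2 ≤ Gs lam ω U (N + 1) f 0 := by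
  have a1 := Gs_markov (lam := lam) (ω := ω) hT hZ hf (n + 1) n 0
  have a2 := Gs_time (lam := lam) (ω := ω) (U := U) hf (show n + (n + 1) ≤ N + 1 by omega) 0
  have a3 : Gs lam ω T (n + 1) (fun y => c * chi Z y) 0 ≤
      Gs lam ω T (n + 1) (Z.indicator (Gs lam ω U (n + 1) f)) 0 := by
    refine sum_le_sum fun k _ => Pk_mono_loc k (fun _ y => Rr y) 0 h0
      (fun _ _ y s hy _ he => hs y s hy he) fun y hy => ?_
    by_cases hz : y ∈ Z
    · rw [chi_of_mem hz, mul_one, Set.indicator_of_mem hz]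
      exact (h2 y hz hy).trans (Gs_dom hS hf _ y)
    · rw [chi_of_not hz, mul_zero, Set.indicator_of_notMem hz]
  rw [Gs_mul] at a3
  nlinarith

theorem edge_lev (y : V D) (s : Step D) :
    y 0 - 1 ≤ (edge y s).1 0 ∧ (y + vec s) 0 - 1 ≤ (edge y s).1 0 ∧ (y + vec s) 0 ≤ y 0 + 1 := by
  obtain ⟨i, b⟩ := s
  cases b <;> by_cases hi : i = 0 <;> simp [edge, vec, hi]

theorem bx_lev {k K : ℕ} {y : V D} (hy : y ∈ bx (up D k) 0 K) : y 0 = (k : ℤ) := by
  have := Fintype.mem_piFinset.1 hy 0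
  simpa [up] using this

end Ov

theorem ovS (hD : DICTStmt) (h1 : OV1Stmt) (h2 : OV2Stmt) : OVStmt := by
  intro D
  obtain ⟨Λ₁, h1⟩ := h1 D
  refine ⟨max Λ₁ 2, fun Λ hΛ => ?_⟩
  have hΛ2 : 2 ≤ Λ := (le_max_right _ _).trans hΛ
  obtain ⟨κ, l₂, h2⟩ := h2 D Λ hΛ2
  obtain ⟨c, l₁, hc, h1⟩ := h1 Λ κ ((le_max_left _ _).trans hΛ)
  refine ⟨min 1 (c / 2), max l₁ l₂, lt_min one_pos (half_pos hc), min_le_left _ _, ?_⟩
  intro ω ω' R m h δ rep w rep' w' hG hG' l lam hl0 hS hW hW' hR hA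
  have hl1 : l₁ ≤ l := (le_max_left _ _).trans hl0
  have hl2 : l₂ ≤ l := (le_max_right _ _).trans hl0
  have hm := hS.m16
  have hh := hG.hm
  have hl16 := hS.l16
  have hH : l ≤ Λ * l / 2 := by
    rw [Nat.le_div_iff_mul_le two_pos, mul_comm]; exact Nat.mul_le_mul_right l hΛ2
  have hHL : Λ * l / 2 ≤ Λ * l := Nat.div_le_self _ _
  have hT : {y : V D | y 0 < ((Λ * l / 2 : ℕ) : ℤ)} ⊆ {y : V D | y 0 < ((Λ * l : ℕ) : ℤ)} :=
    fun y hy => lt_of_lt_of_le (show y 0 < ((Λ * l / 2 : ℕ) : ℤ) from hy) (Int.ofNat_le.2 hHL)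
  have hSU : {y : V D | 0 < y 0 ∧ y 0 < ((Λ * l : ℕ) : ℤ)} ⊆ {y : V D | y 0 < ((Λ * l : ℕ) : ℤ)} :=
    fun y hy => hy.2
  have hZ : Disjoint {y : V D | y 0 < ((Λ * l / 2 : ℕ) : ℤ)}
      (bx (up D (Λ * l / 2)) 0 (κ * l) : Set (V D)) :=
    Set.disjoint_left.2 fun y hy hz => (ne_of_lt hy) (Ov.bx_lev hz)
  have hn : l ^ 4 / 2 + l ^ 4 / 2 ≤ l ^ 4 := by omega
  have hov := Ov.ovl_ge (lam := lam) (ω := ω) (ω' := ω') hD (Λ * l) (l ^ 4)
  refine (min_le_right _ _).trans ?_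
  have hE : ∀ e : Edge D, 0 ≤ e.1 0 → ω e = ω' e := fun e he => hA e (by simpa using he)
  rcases h1 ω R m h δ rep w hG l lam hl1 hS hR
    {y | y 0 = ((Λ * l : ℕ) : ℤ) ∧ hl lam (Λ * l) (l ^ 4) ω y ≤ hl lam (Λ * l) (l ^ 4) ω' y}
    {y | y 0 = ((Λ * l : ℕ) : ℤ) ∧ ¬ hl lam (Λ * l) (l ^ 4) ω y ≤ hl lam (Λ * l) (l ^ 4) ω' y}
    (by ext y; simp only [Set.mem_union, Set.mem_ofPred_eq]; tauto) with h1 | h1
  · have a := Ov.two (chi_nonneg _) hT hSU hZ hn hc.le (fun y => Wide ω y h) hW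
      (fun y s hy he => wide_step hy he) (h2 ω R m h δ rep w hG l lam hl2 hS hW hR) h1
    exact a.trans (le_trans (le_add_of_nonneg_right (Gs_nonneg (chi_nonneg _) _ _)) hov)
  · refine le_trans ?_ (le_trans (le_add_of_nonneg_left (Gs_nonneg (chi_nonneg _) _ _)) hov)
    refine Ov.two (chi_nonneg _) hT hSU hZ hn hc.le
      (fun y => y 0 ≤ 0 ∨ ∃ a : V D, a 0 = 0 ∧ Conn ω a y) (Or.inl le_rfl) ?_
      (h2 ω' R m h δ rep' w' hG' l lam hl2 hS hW' hR) ?_
    · intro y s hy he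
      obtain ⟨e1, e2, e3⟩ := Ov.edge_lev y s
      by_cases c0 : (y + vec s) 0 ≤ 0
      · exact Or.inl c0
      · have hs : ω (edge y s) = true := by rw [hE _ (by omega)]; exact he
        rcases hy with hy | ⟨a, ha, hy⟩
        · exact Or.inr ⟨y, by omega, Conn.step hs⟩
        · exact Or.inr ⟨a, ha, hy.trans (Conn.step hs)⟩
    · intro y hz hy
      have hy0 := Ov.bx_lev hz
      have hw : Wide ω y h := by
        rcases hy with hy | ⟨a, ha, hy⟩
        · omega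
        · refine ⟨y, a, Conn.refl _ _, hy.symm, ?_⟩
          have := abs_le_nrm (y - a) 0
          rw [Pi.sub_apply, ha, hy0, sub_zero, abs_of_nonneg (by positivity)] at this
          omega
      refine (h1 y hz hw).trans (le_of_eq (sum_congr rfl fun k _ => ?_))
      exact Pk_loc k (fun _ _ => True) y trivial (fun _ _ _ _ _ _ _ => trivial)
        (fun _ _ z _ => ⟨Iff.rfl, fun hz s => hE _ (by
          have := (Ov.edge_lev z s).1
          have := hz.1
          omega)⟩) fun _ _ => rfl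

end Pool.Agent.MP_8c549f_pr.L2

end

end Part2

-- ======== part 3: Step
section Part3

/-! PROJECT L2, row Step: change of the bias along a list of steps. -/

noncomputable section

namespace Pool.Agent.MP_8c549f_pr.L2

open MeasureTheory Finset Real Classical S3

namespace Stp

variable {D : ℕ} {lam a : ℝ} {ω : Cfg D} {x : V D}

theorem vec_abs (s : Step D) : |(vec s 0 : ℝ)| ≤ 1 := by
  have := vec_bounds s 0
  exact abs_le.2 ⟨by exact_mod_cast this.1, by exact_mod_cast this.2⟩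

theorem dr_abs : |dr lam ω x| ≤ 1 := by
  refine (abs_sum_le_sum_abs _ _).trans (le_trans (sum_le_sum fun s _ => ?_) (sum_pr_le_one lam ω x))
  rw [abs_mul, abs_of_nonneg (pr_nonneg _ _ _ _)]
  exact mul_le_of_le_one_right (pr_nonneg _ _ _ _) (vec_abs s)

theorem wt_add (s : Step D) : wt (lam + a) s = wt lam s * exp (a * (vec s 0 : ℝ)) := by
  rw [wt, wt, ← exp_add, add_mul]

theorem Zq_add (h : 0 < Zq lam ω x) :
    Zq (lam + a) ω x = Zq lam ω x * ∑ s, pr lam ω x s * exp (a * (vec s 0 : ℝ)) := by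
  rw [mul_sum]
  conv_lhs => rw [Zq]
  refine sum_congr rfl fun s _ => ?_
  unfold pr
  split_ifs
  · rw [wt_add, ← mul_assoc, mul_div_cancel₀ _ h.ne']
  · simp

theorem up (ha : |a| ≤ 1) (h : ∑ s, pr lam ω x s = 1) :
    ∑ s, pr lam ω x s * exp (a * (vec s 0 : ℝ)) ≤ exp (a * dr lam ω x + a ^ 2) := by
  have e : ∑ s, pr lam ω x s * (1 + a * (vec s 0 : ℝ) + a ^ 2) = a * dr lam ω x + a ^ 2 + 1 := by
    have : ∀ s ∈ (univ : Finset (Step D)), pr lam ω x s * (1 + a * (vec s 0 : ℝ) + a ^ 2) =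
        a * (pr lam ω x s * (vec s 0 : ℝ)) + (a ^ 2 + 1) * pr lam ω x s := fun s _ => by ring
    rw [sum_congr rfl this, sum_add_distrib, ← mul_sum, ← mul_sum, h, dr]; ring
  refine le_trans ?_ (add_one_le_exp _)
  rw [← e]
  refine sum_le_sum fun s _ => mul_le_mul_of_nonneg_left ?_ (pr_nonneg _ _ _ _)
  have h1 := vec_abs s
  have h2 : |a * (vec s 0 : ℝ)| ≤ 1 := by
    rw [abs_mul]; exact mul_le_one₀ ha (abs_nonneg _) h1
  have h3 := (abs_le.1 (abs_exp_sub_one_sub_id_le h2)).2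
  have h4 : (vec s 0 : ℝ) ^ 2 ≤ 1 := (sq_le_one_iff_abs_le_one _).2 h1
  nlinarith [mul_le_mul_of_nonneg_left h4 (sq_nonneg a)]

theorem lo (h : ∑ s, pr lam ω x s = 1) :
    exp (a * dr lam ω x) ≤ ∑ s, pr lam ω x s * exp (a * (vec s 0 : ℝ)) := by
  have e : ∑ s, pr lam ω x s * (exp (a * dr lam ω x) *
      (a * (vec s 0 : ℝ) - a * dr lam ω x + 1)) = exp (a * dr lam ω x) := by
    have : ∀ s ∈ (univ : Finset (Step D)), pr lam ω x s * (exp (a * dr lam ω x) *
        (a * (vec s 0 : ℝ) - a * dr lam ω x + 1)) =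
        exp (a * dr lam ω x) * a * (pr lam ω x s * (vec s 0 : ℝ)) +
          exp (a * dr lam ω x) * (1 - a * dr lam ω x) * pr lam ω x s := fun s _ => by ring
    rw [sum_congr rfl this, sum_add_distrib, ← mul_sum, ← mul_sum, h, ← dr]; ring
  rw [← e]
  refine sum_le_sum fun s _ => mul_le_mul_of_nonneg_left ?_ (pr_nonneg _ _ _ _)
  refine (mul_le_mul_of_nonneg_left (add_one_le_exp _) (exp_pos _).le).trans (le_of_eq ?_)
  rw [← exp_add]; congr 1; ring

/-- one step -/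
theorem one (ha : |a| ≤ 1) (s : Step D) :
    pr lam ω x s * exp (a * ((vec s 0 : ℝ) - dr lam ω x) - a ^ 2) ≤ pr (lam + a) ω x s ∧
    pr (lam + a) ω x s ≤ pr lam ω x s * exp (a * ((vec s 0 : ℝ) - dr lam ω x)) := by
  by_cases hs : ω (edge x s) = true
  · have hZ := Zq_pos lam hs
    have h1 := sum_pr_eq_one lam hs
    have hu := up ha h1
    have hl := lo (a := a) h1
    have S0 := (exp_pos _).trans_le hl
    have p0 := pr_nonneg lam ω x s
    have e : pr (lam + a) ω x s = pr lam ω x s * (exp (a * (vec s 0 : ℝ)) /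
        ∑ s, pr lam ω x s * exp (a * (vec s 0 : ℝ))) := by
      rw [pr_of_open _ hs, Zq_add hZ, wt_add, mul_div_mul_comm, ← pr_of_open lam hs]
    rw [e]
    refine ⟨mul_le_mul_of_nonneg_left ?_ p0, mul_le_mul_of_nonneg_left ?_ p0⟩
    · refine le_trans (le_of_eq ?_) (div_le_div_of_nonneg_left (exp_pos _).le S0 hu)
      rw [← exp_sub]; congr 1; ring
    · refine (div_le_div_of_nonneg_left (exp_pos _).le (exp_pos _) hl).trans (le_of_eq ?_)
      rw [← exp_sub]; congr 1; ring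
  · simp [pr, hs]

end Stp

theorem step : STEPStmt := by
  intro D lam a ω l x ha
  induction l generalizing x with
  | nil => simp [Mg]
  | cons s l ih =>
    obtain ⟨i1, i2, i3⟩ := ih (x + vec s)
    obtain ⟨o1, o2⟩ := Stp.one (lam := lam) (ω := ω) (x := x) ha s
    have eM : Mg lam ω x (s :: l) = ((vec s 0 : ℝ) - dr lam ω x) + Mg lam ω (x + vec s) l := rfl
    rw [wr_cons, wr_cons, eM, List.length_cons]
    refine ⟨le_trans (le_of_eq ?_) (mul_le_mul o1 i1
      (mul_nonneg (wr_nonneg _ _) (exp_pos _).le) (pr_nonneg _ _ _ _)),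
      (mul_le_mul o2 i2 (wr_nonneg _ _)
        (mul_nonneg (pr_nonneg _ _ _ _) (exp_pos _).le)).trans (le_of_eq ?_), ?_⟩
    · rw [mul_mul_mul_comm, ← exp_add]; congr 2; push_cast; ring
    · rw [mul_mul_mul_comm, ← exp_add]; congr 2; ring
    · have h1 := abs_le.1 (Stp.vec_abs s)
      have h2 := abs_le.1 (Stp.dr_abs (lam := lam) (ω := ω) (x := x))
      have h3 := abs_le.1 i3
      push_cast
      exact abs_le.2 ⟨by linarith [h1.1, h2.2, h3.1], by linarith [h1.2, h2.1, h3.2]⟩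

end Pool.Agent.MP_8c549f_pr.L2

end

end Part3

-- ======== part 4: Cal
section Part4

/-! PROJECT L2: one sided convexity of the duration of a leg and total variation in the bias. -/

noncomputable section

namespace Pool.Agent.MP_8c549f_pr.L2

open MeasureTheory Finset Real Classical S3
open scoped ENNReal

namespace Cal

theorem low (hS : STEPStmt) {D : ℕ} (z a : ℝ) (ω : Cfg D) (l : List (Step D)) (ha : |a| ≤ 1) :
    wr z ω 0 l * (1 + (a * Mg z ω 0 l - a ^ 2 * l.length)) ≤ wr (z + a) ω 0 l :=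
  (mul_le_mul_of_nonneg_left (by rw [add_comm]; exact add_one_le_exp _) (wr_nonneg _ _)).trans
    (hS D z a ω l 0 ha).1

theorem one {w wx w' M n s s' : ℝ} (hs : 0 ≤ s) (hs' : 0 < s') (hn : 0 ≤ n)
    (h1 : w * (1 + (s' * M - s' ^ 2 * n)) ≤ w') (h2 : w * (1 + (-s * M - (-s) ^ 2 * n)) ≤ wx) :
    w * n - wx * n ≤ s * ((w' * n - w * n) / s' + (s + s') * (w * n ^ 2)) := by
  have a : w * M - s' * (w * n) ≤ (w' - w) / s' := by
    rw [le_div_iff₀ hs']; nlinarith
  have b : w - wx ≤ s * ((w' - w) / s' + (s + s') * (w * n)) := by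
    nlinarith [mul_le_mul_of_nonneg_left a hs]
  calc w * n - wx * n = (w - wx) * n := by ring
    _ ≤ s * ((w' - w) / s' + (s + s') * (w * n)) * n := mul_le_mul_of_nonneg_right b hn
    _ = _ := by ring

theorem two {w wx wp wm M n s a : ℝ} (hs : 0 ≤ s) (ha : 0 < a) (hn : 0 ≤ n) (hw : 0 ≤ w)
    (p0 : 0 ≤ wp) (m0 : 0 ≤ wm) (h2 : w * (1 + (-s * M - (-s) ^ 2 * n)) ≤ wx)
    (hp : w * (1 + (a * M - a ^ 2 * n)) ≤ wp) :
    |w - wx| ≤ 2 * s * (a * (w * n) + (wp + wm) / a) + 2 * s ^ 2 * (w * n) + (wx - w) := by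
  have q : w * M ≤ a * (w * n) + (wp + wm) / a := by
    rw [← sub_le_iff_le_add', le_div_iff₀ ha]; nlinarith
  have q0 : 0 ≤ a * (w * n) + (wp + wm) / a := by positivity
  have q1 : 0 ≤ s ^ 2 * (w * n) := by positivity
  have q2 := mul_le_mul_of_nonneg_left q hs
  have q3 := mul_nonneg hs q0
  rw [abs_le]
  constructor <;> nlinarith

end Cal

open Cal in
theorem cal (hS : STEPStmt) : CALStmt := by
  intro D L N ω x z z' a xz zz h1 h2 a0 a1
  have s0 : 0 ≤ z - x := by linarith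
  have lx : ∀ l : List (Step D),
      wr z ω 0 l * (1 + (-(z - x) * Mg z ω 0 l - (-(z - x)) ^ 2 * l.length)) ≤ wr x ω 0 l := fun l => by
    have := low hS z (-(z - x)) ω l (by rw [abs_neg, abs_of_nonneg s0]; exact h1)
    rwa [show z + -(z - x) = x by ring] at this
  constructor
  · have lz : ∀ l : List (Step D),
        wr z ω 0 l * (1 + ((z' - z) * Mg z ω 0 l - (z' - z) ^ 2 * l.length)) ≤ wr z' ω 0 l := fun l => by
      have := low hS z (z' - z) ω l (by rw [abs_of_nonneg (by linarith)]; exact h2)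
      rwa [show z + (z' - z) = z' by ring] at this
    simp only [tt, t2, ← sum_sub_distrib, sum_div, mul_sum, ← sum_add_distrib]
    exact sum_le_sum fun l _ => one s0 (by linarith) (Nat.cast_nonneg _) (lz l) (lx l)
  · have key := sum_le_sum (s := Lg D L N) fun l _ => two (wm := wr (z + a) ω 0 l) s0 a0
      (Nat.cast_nonneg l.length) (wr_nonneg l 0) (wr_nonneg _ _) (wr_nonneg _ _) (lx l)
      (low hS z a ω l (by rwa [abs_of_pos a0]))
    refine key.trans ?_
    simp only [sum_add_distrib, sum_sub_distrib, ← mul_sum, ← sum_div]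
    have b1 := ms_le_one (lam := z + a) (ω := ω) L N
    have b2 := ms_le_one (lam := x) (ω := ω) L N
    have b3 : (ms (z + a) L N ω + ms (z + a) L N ω) / a ≤ 2 / a :=
      div_le_div_of_nonneg_right (by linarith) a0.le
    have b4 := mul_le_mul_of_nonneg_left b3 s0
    simp only [ms, tt] at *
    linarith

end Pool.Agent.MP_8c549f_pr.L2

end

end Part4

-- ======== part 5: Three
section Part5

/-! PROJECT L2: the three point inequality for the weight of one list. -/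

noncomputable section

namespace Pool.Agent.MP_8c549f_pr.L2

open MeasureTheory Finset Real Classical S3

namespace Three

theorem exp_le {u : ℝ} (hu : |u| ≤ 2) : exp u ≤ 1 + u + 2 * u ^ 2 := by
  have h1 : |u / 2| ≤ 1 := by rw [abs_div, abs_two]; linarith
  have h2 := (abs_le.1 (Real.abs_exp_sub_one_sub_id_le h1)).2
  have h3 : exp u = exp (u / 2) * exp (u / 2) := by rw [← exp_add]; ring_nf
  have h4 : exp (u / 2) ≤ 1 + u / 2 + (u / 2) ^ 2 := by linarith
  have h5 := exp_pos (u / 2)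
  have h6 : exp u ≤ (1 + u / 2 + (u / 2) ^ 2) * (1 + u / 2 + (u / 2) ^ 2) := by
    rw [h3]; exact mul_le_mul h4 h4 h5.le (h5.le.trans h4)
  obtain ⟨h7, h8⟩ := abs_le.1 hu
  have h9 : u ^ 2 ≤ 4 := by nlinarith
  have h10 : u ^ 2 * u ≤ u ^ 2 * 2 := mul_le_mul_of_nonneg_left h8 (sq_nonneg u)
  have h11 : u ^ 2 * u ^ 2 ≤ u ^ 2 * 4 := mul_le_mul_of_nonneg_left h9 (sq_nonneg u)
  linarith [sq_nonneg u]

theorem lin {w₀ w a M n : ℝ} (h0 : 0 ≤ w₀) (ha : 0 < a) (han : a * n ≤ 1) (hn : n ≤ n ^ 2)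
    (hM : |M| ≤ 2 * n) (hl : w₀ * exp (a * M - a ^ 2 * n) ≤ w) (hu : w ≤ w₀ * exp (a * M)) :
    |w - w₀ * (1 + a * M)| ≤ 8 * a ^ 2 * n ^ 2 * w₀ := by
  have h1 : |a * M| ≤ 2 * (a * n) := by
    rw [abs_mul, abs_of_pos ha]; nlinarith
  have h2 := exp_le (u := a * M) (by linarith)
  have h3 : (a * M) ^ 2 ≤ (2 * (a * n)) ^ 2 := by
    rw [← sq_abs (a * M)]; exact pow_le_pow_left₀ (abs_nonneg _) h1 2
  have h4 := add_one_le_exp (a * M - a ^ 2 * n)
  have h5 : w₀ * exp (a * M) ≤ w₀ * (1 + a * M + 8 * a ^ 2 * n ^ 2) :=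
    mul_le_mul_of_nonneg_left (by linarith) h0
  have h6 : a ^ 2 * n ≤ a ^ 2 * n ^ 2 := mul_le_mul_of_nonneg_left hn (sq_nonneg a)
  have h7 : 0 ≤ a ^ 2 * n ^ 2 := by positivity
  have h8 : w₀ * (1 + a * M - 8 * a ^ 2 * n ^ 2) ≤ w₀ * exp (a * M - a ^ 2 * n) :=
    mul_le_mul_of_nonneg_left (by linarith) h0
  rw [abs_le]
  constructor <;> linarith

theorem one {w w' u b : ℝ} (h0 : 0 ≤ w') (hu : u ≤ b) (h : w' ≤ w * exp u) (hw : 0 ≤ w) :
    w' - w ≤ b * w' := by
  have h1 : w' * exp (-b) ≤ w := by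
    have h2 : w' ≤ w * exp b := h.trans (mul_le_mul_of_nonneg_left (exp_le_exp.2 hu) hw)
    have h3 := mul_le_mul_of_nonneg_right h2 (exp_pos (-b)).le
    rwa [mul_assoc, ← exp_add, add_neg_cancel, exp_zero, mul_one] at h3
  have h4 : w' * (-b + 1) ≤ w' * exp (-b) := mul_le_mul_of_nonneg_left (add_one_le_exp _) h0
  linarith

end Three

theorem three (hS : STEPStmt) : THREEStmt := by
  intro D x s ζ ω l y hs hsz hz
  have hζ : 0 < ζ := hs.trans_le hsz
  have as : |s| ≤ 1 := by rw [abs_of_pos hs]; linarith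
  have az : |ζ| ≤ 1 := by rw [abs_of_pos hζ]; exact hz
  obtain ⟨l1, u1, hM⟩ := hS D x s ω l y as
  obtain ⟨l2, u2, -⟩ := hS D x ζ ω l y az
  obtain ⟨-, u3, hM'⟩ := hS D (x + s) (-s) ω l y (by rwa [abs_neg])
  rw [add_neg_cancel_right] at u3
  have p0 : 0 ≤ wr x ω y l := wr_nonneg _ _
  have p1 : 0 ≤ wr (x + s) ω y l := wr_nonneg _ _
  have p2 : 0 ≤ wr (x + ζ) ω y l := wr_nonneg _ _
  have hn : (l.length : ℝ) ≤ (l.length : ℝ) ^ 2 := by exact_mod_cast Nat.le_self_pow two_ne_zero _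
  have hn0 : (0 : ℝ) ≤ l.length := Nat.cast_nonneg _
  generalize wr x ω y l = w₀ at *
  generalize wr (x + s) ω y l = w₁ at *
  generalize wr (x + ζ) ω y l = w₂ at *
  generalize Mg x ω y l = M at *
  generalize Mg (x + s) ω y l = M' at *
  generalize (l.length : ℝ) = n at *
  have hq : 0 < s / ζ := div_pos hs hζ
  have hqz : s / ζ * ζ = s := div_mul_cancel₀ _ hζ.ne'
  have hK : 0 ≤ s * ζ * n ^ 2 := by positivity
  rcases le_or_gt (ζ * n) 1 with h | h
  · have a1 := Three.lin p0 hs ((mul_le_mul_of_nonneg_right hsz hn0).trans h) hn hM l1 u1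
    have a2 := Three.lin p0 hζ h hn hM l2 u2
    have e : w₁ - ((1 - s / ζ) * w₀ + s / ζ * w₂) =
        (w₁ - w₀ * (1 + s * M)) - s / ζ * (w₂ - w₀ * (1 + ζ * M)) := by
      field_simp; ring
    have a3 : |s / ζ * (w₂ - w₀ * (1 + ζ * M))| ≤ 8 * (s * ζ * n ^ 2) * w₀ := by
      rw [abs_mul, abs_of_pos hq]
      refine (mul_le_mul_of_nonneg_left a2 hq.le).trans (le_of_eq ?_)
      field_simp
    have a4 : 8 * s ^ 2 * n ^ 2 * w₀ ≤ 8 * (s * ζ * n ^ 2) * w₀ := by
      have : s ^ 2 * n ^ 2 ≤ s * ζ * n ^ 2 :=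
        mul_le_mul_of_nonneg_right
          (by have := mul_le_mul_of_nonneg_left hsz hs.le; linarith) (sq_nonneg n)
      have := mul_le_mul_of_nonneg_right this p0
      linarith
    rw [e]
    refine (abs_sub _ _).trans ?_
    have := mul_nonneg hK p1
    have := mul_nonneg hK p2
    linarith
  · obtain ⟨m1, m2⟩ := abs_le.1 hM
    obtain ⟨m3, m4⟩ := abs_le.1 hM'
    have b1 := Three.one (b := 2 * s * n) p1
      (by have := mul_le_mul_of_nonneg_left m2 hs.le; linarith) u1 p0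
    have b2 := Three.one (b := 2 * s * n) p0
      (by have := mul_le_mul_of_nonneg_left m3 hs.le; linarith) u3 p1
    have c1 : s * n ≤ s * ζ * n ^ 2 := by
      have := mul_le_mul_of_nonneg_left h.le (mul_nonneg hs.le hn0)
      linarith
    have c2 : s / ζ ≤ s * ζ * n ^ 2 := by
      rw [div_le_iff₀ hζ]
      have : 1 ≤ (ζ * n) ^ 2 := one_le_pow₀ h.le
      have := mul_le_mul_of_nonneg_left this hs.le
      linarith
    have d0 := mul_le_mul_of_nonneg_right c1 p0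
    have d1 := mul_le_mul_of_nonneg_right c1 p1
    have e0 := mul_le_mul_of_nonneg_right c2 p0
    have e2 := mul_le_mul_of_nonneg_right c2 p2
    have f0 := mul_nonneg hK p0
    have f1 := mul_nonneg hK p1
    have f2 := mul_nonneg hK p2
    have g0 := mul_nonneg hq.le p0
    have g2 := mul_nonneg hq.le p2
    rw [abs_le]
    constructor <;> linarith

end Pool.Agent.MP_8c549f_pr.L2

end

end Part5

-- ======== part 6: RegS
section Part6

/-! PROJECT L2: from one increment of the bias to all the smaller ones. -/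

noncomputable section

namespace Pool.Agent.MP_8c549f_pr.L2

open MeasureTheory Finset Real Classical S3
open scoped ENNReal

namespace RegS

variable {D : ℕ} {p : ℝ}

theorem toReal_wb (lam : ℝ) (l : List (Step D)) :
    (wb true p lam l).toReal = ∫ ω, wr lam (cfg true ω) 0 l ∂perc D p := by
  simp only [wr_eq_W]
  rw [integral_toReal (measurable_W_cfg true lam l).aemeasurable
    (Filter.Eventually.of_forall fun ω => (W_le_one lam _ l 0).trans_lt ENNReal.one_lt_top)]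
  rfl

theorem integ (h0 : 0 ≤ p) (h1 : p ≤ 1) (lam : ℝ) (l : List (Step D)) :
    Integrable (fun ω => wr lam (cfg true ω) 0 l) (perc D p) := by
  have := perc_prob D h0 h1
  refine Integrable.of_bound ((measurable_wr lam 0 l).comp (measurable_cfg true)).aestronglyMeasurable
    1 (Filter.Eventually.of_forall fun ω => ?_)
  rw [Real.norm_of_nonneg (wr_nonneg l 0), wr_eq_W]
  exact ENNReal.toReal_le_of_le_ofReal zero_le_one (by simpa using W_le_one lam _ l 0)

theorem three (hT : THREEStmt) (h0 : 0 ≤ p) (h1 : p ≤ 1) {x s ζ : ℝ} (hs : 0 < s) (hz : s ≤ ζ)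
    (hz1 : ζ ≤ 1) (l : List (Step D)) :
    |(wb true p (x + s) l).toReal - ((1 - s / ζ) * (wb true p x l).toReal +
      s / ζ * (wb true p (x + ζ) l).toReal)| ≤ 16 * s * ζ * (l.length : ℝ) ^ 2 *
      ((wb true p x l).toReal + (wb true p (x + s) l).toReal + (wb true p (x + ζ) l).toReal) := by
  have i0 := integ h0 h1 x l
  have i1 := integ h0 h1 (x + s) l
  have i2 := integ h0 h1 (x + ζ) l
  have j : Integrable (fun ω => (1 - s / ζ) * wr x (cfg true ω) 0 l +
      s / ζ * wr (x + ζ) (cfg true ω) 0 l) (perc D p) := (i0.const_mul _).add (i2.const_mul _)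
  have j' : Integrable (fun ω => wr x (cfg true ω) 0 l + wr (x + s) (cfg true ω) 0 l) (perc D p) :=
    i0.add i1
  simp only [toReal_wb]
  rw [← integral_const_mul, ← integral_const_mul, ← integral_add (i0.const_mul _) (i2.const_mul _),
    ← integral_sub i1 j, ← integral_add i0 i1, ← integral_add j' i2, ← integral_const_mul]
  refine abs_integral_le_integral_abs.trans (integral_mono (i1.sub j).abs
    ((j'.add i2).const_mul _) fun ω => ?_)
  exact hT D x s ζ _ l 0 hs hz hz1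

theorem real {ι : Type} {k n f0 f1 f2 : ι → ℝ} {θ e a0 a1 a2 u0 u1 u2 : ℝ}
    (h0 : HasSum (fun i => k i * f0 i) a0) (h1 : HasSum (fun i => k i * f1 i) a1)
    (h2 : HasSum (fun i => k i * f2 i) a2) (g0 : HasSum (fun i => n i ^ 3 * f0 i) u0)
    (g1 : HasSum (fun i => n i ^ 3 * f1 i) u1) (g2 : HasSum (fun i => n i ^ 3 * f2 i) u2)
    (hk : ∀ i, 0 ≤ k i ∧ k i ≤ n i)
    (h : ∀ i, |f1 i - ((1 - θ) * f0 i + θ * f2 i)| ≤ e * n i ^ 2 * (f0 i + f1 i + f2 i)) :
    |a1 - ((1 - θ) * a0 + θ * a2)| ≤ e * (u0 + u1 + u2) := by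
  have hL := h1.sub ((h0.mul_left (1 - θ)).add (h2.mul_left θ))
  have hR := ((g0.add g1).add g2).mul_left e
  have key : ∀ i, |k i * f1 i - ((1 - θ) * (k i * f0 i) + θ * (k i * f2 i))| ≤
      e * (n i ^ 3 * f0 i + n i ^ 3 * f1 i + n i ^ 3 * f2 i) := fun i => by
    have := mul_le_mul (hk i).2 (h i) (abs_nonneg _) ((hk i).1.trans (hk i).2)
    rw [show k i * f1 i - ((1 - θ) * (k i * f0 i) + θ * (k i * f2 i)) =
      k i * (f1 i - ((1 - θ) * f0 i + θ * f2 i)) by ring, abs_mul, abs_of_nonneg (hk i).1]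
    exact this.trans_eq (by ring)
  exact abs_le.2 ⟨hasSum_le (fun i => (abs_le.1 (key i)).1) hR.neg hL,
    hasSum_le (fun i => (abs_le.1 (key i)).2) hL hR⟩

theorem hasSum_SS (A : Set (List (Step D))) (k : List (Step D) → ℕ) (f : List (Step D) → ℝ≥0∞)
    (hf : ∀ l, f l ≠ ∞) (h : (SS A fun l => k l * f l) ≠ ∞) :
    HasSum (fun l : A => (k l : ℝ) * (f l).toReal) (SS A fun l => k l * f l).toReal := by
  rw [SS_eq_tsum_subtype] at h ⊢
  rw [ENNReal.tsum_toReal_eq fun l : A => ENNReal.mul_ne_top (ENNReal.natCast_ne_top _) (hf l)]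
  simpa using ENNReal.hasSum_toReal h

theorem le_M3 (lam : ℝ) (k : List (Step D) → ℕ) (hk : ∀ l, k l ≤ l.length) :
    (SS {l : List (Step D) | Block l} fun l => k l * wb true p lam l) ≤ M3 D p lam := by
  refine SS_mono subset_rfl fun l _ => mul_le_mul_left ?_ _
  exact_mod_cast (hk l).trans (Nat.le_self_pow (by norm_num) _)

theorem hs1 (h0 : 0 ≤ p) (h1 : p ≤ 1) {lam M : ℝ} (h : M3 D p lam ≤ ENNReal.ofReal M)
    (k : List (Step D) → ℕ) (hk : ∀ l, k l ≤ l.length) :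
    HasSum (fun l : {l : List (Step D) | Block l} => (k l.1 : ℝ) * (wb true p lam l.1).toReal)
      (SS {l : List (Step D) | Block l} fun l => k l * wb true p lam l).toReal :=
  hasSum_SS {l : List (Step D) | Block l} k (wb true p lam)
    (fun l => ((wb_le_one true h0 h1 lam l).trans_lt ENNReal.one_lt_top).ne)
    (((le_M3 lam k hk).trans h).trans_lt ENNReal.ofReal_lt_top).ne

theorem hs3 (h0 : 0 ≤ p) (h1 : p ≤ 1) {lam M : ℝ} (h : M3 D p lam ≤ ENNReal.ofReal M) :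
    HasSum (fun l : {l : List (Step D) | Block l} =>
      (l.1.length : ℝ) ^ 3 * (wb true p lam l.1).toReal) (M3 D p lam).toReal := by
  have e : (SS {l : List (Step D) | Block l} fun l => (l.length ^ 3 : ℕ) * wb true p lam l) =
      M3 D p lam := by simp only [M3, Nat.cast_pow]
  have := hasSum_SS {l : List (Step D) | Block l} (fun l => l.length ^ 3) (wb true p lam)
    (fun l => ((wb_le_one true h0 h1 lam l).trans_lt ENNReal.one_lt_top).ne)
    (by rw [e]; exact (h.trans_lt ENNReal.ofReal_lt_top).ne)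
  rw [e] at this
  simpa only [Nat.cast_pow] using this

theorem sums (hT : THREEStmt) (h0 : 0 ≤ p) (h1 : p ≤ 1) {x s ζ M : ℝ} (hs : 0 < s) (hz : s ≤ ζ)
    (hz1 : ζ ≤ 1) (hM : 0 ≤ M) (m0 : M3 D p x ≤ ENNReal.ofReal M)
    (m1 : M3 D p (x + s) ≤ ENNReal.ofReal M) (m2 : M3 D p (x + ζ) ≤ ENNReal.ofReal M)
    (k : List (Step D) → ℕ) (hk : ∀ l, k l ≤ l.length) :
    |(SS {l : List (Step D) | Block l} fun l => k l * wb true p (x + s) l).toReal -
      ((1 - s / ζ) * (SS {l : List (Step D) | Block l} fun l => k l * wb true p x l).toReal +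
        s / ζ * (SS {l : List (Step D) | Block l} fun l => k l * wb true p (x + ζ) l).toReal)| ≤
      48 * s * ζ * M := by
  have hsz : 0 ≤ 16 * s * ζ := by have := hs.trans_le hz; positivity
  have v0 := ENNReal.toReal_le_of_le_ofReal hM m0
  have v1 := ENNReal.toReal_le_of_le_ofReal hM m1
  have v2 := ENNReal.toReal_le_of_le_ofReal hM m2
  have t := real (θ := s / ζ) (e := 16 * s * ζ) (hs1 h0 h1 m0 k hk) (hs1 h0 h1 m1 k hk)
    (hs1 h0 h1 m2 k hk) (hs3 h0 h1 m0) (hs3 h0 h1 m1) (hs3 h0 h1 m2)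
    (fun l => ⟨Nat.cast_nonneg _, Nat.cast_le.2 (hk l.1)⟩) fun l => three hT h0 h1 hs hz hz1 l.1
  refine t.trans ((mul_le_mul_of_nonneg_left (add_le_add (add_le_add v0 v1) v2) hsz).trans_eq ?_)
  ring

theorem toNat_le (l : List (Step D)) : (lev l).toNat ≤ l.length := by
  have := lev_le_length l; omega

theorem bounds {lam M : ℝ} (hM : 0 ≤ M)
    (h : SS {l : List (Step D) | Block l} (wb true p lam) = 1) (m : M3 D p lam ≤ ENNReal.ofReal M) :
    1 ≤ BR D p lam ∧ 0 ≤ AR D p lam ∧ AR D p lam ≤ M := by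
  refine ⟨?_, ENNReal.toReal_nonneg,
    ENNReal.toReal_le_of_le_ofReal hM ((le_M3 lam _ fun _ => le_rfl).trans m)⟩
  have f : BB D p lam ≠ ∞ :=
    (((le_M3 lam _ toNat_le).trans m).trans_lt ENNReal.ofReal_lt_top).ne
  have : (1 : ℝ≥0∞) ≤ BB D p lam := by
    rw [← h]
    refine SS_mono subset_rfl fun l hl => le_mul_of_one_le_left zero_le ?_
    have := Block.lev_pos hl
    exact_mod_cast (by omega : 1 ≤ (lev l).toNat)
  exact ENNReal.toReal_mono f this

end RegS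

theorem regS (hT : THREEStmt) : REGStmt := by
  intro D p x s ζ M c h0 h1 hs hz hz1 hM h hk hc
  obtain ⟨e0, m0⟩ := h x (Or.inl rfl)
  obtain ⟨e1, m1⟩ := h (x + s) (Or.inr (Or.inl rfl))
  obtain ⟨e2, m2⟩ := h (x + ζ) (Or.inr (Or.inr rfl))
  have hA : |AR D p (x + s) - ((1 - s / ζ) * AR D p x + s / ζ * AR D p (x + ζ))| ≤
      48 * s * ζ * M := RegS.sums hT h0 h1 hs hz hz1 hM m0 m1 m2 _ fun _ => le_rfl
  have hB : |BR D p (x + s) - ((1 - s / ζ) * BR D p x + s / ζ * BR D p (x + ζ))| ≤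
      48 * s * ζ * M := RegS.sums hT h0 h1 hs hz hz1 hM m0 m1 m2 _ RegS.toNat_le
  obtain ⟨b0, a0, c0⟩ := RegS.bounds hM e0 m0
  obtain ⟨b1, -, -⟩ := RegS.bounds hM e1 m1
  obtain ⟨b2, -, -⟩ := RegS.bounds hM e2 m2
  have hζ : 0 < ζ := hs.trans_le hz
  have k0 : 0 ≤ kap D p x := div_nonneg a0 (by linarith)
  have k1 : kap D p x ≤ M := (div_le_self a0 b0).trans c0
  have q0 : AR D p x = kap D p x * BR D p x := by
    rw [kap, div_mul_cancel₀ _ (by linarith)]
  have q2 : AR D p (x + ζ) = kap D p (x + ζ) * BR D p (x + ζ) := by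
    rw [kap, div_mul_cancel₀ _ (by linarith)]
  have hc0 : 0 < c := lt_of_le_of_lt (by positivity) hc
  have hcz : 0 < c * ζ := mul_pos hc0 hζ
  have p2 : AR D p (x + ζ) - kap D p x * BR D p (x + ζ) ≤ -(c * ζ) := by
    rw [q2]; nlinarith
  have hθ : 0 < s / ζ := div_pos hs hζ
  have p3 : s / ζ * (AR D p (x + ζ) - kap D p x * BR D p (x + ζ)) ≤ -(c * s) := by
    have := mul_le_mul_of_nonneg_left p2 hθ.le
    rwa [show s / ζ * -(c * ζ) = -(c * s) by field_simp] at this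
  have p4 := mul_le_mul_of_nonneg_left (abs_le.1 hB).1 k0
  have p5 := (abs_le.1 hA).2
  have p6 : 0 ≤ 48 * s * ζ * M := by positivity
  have p7 := mul_le_mul_of_nonneg_right k1 p6
  have p8 := mul_lt_mul_of_pos_left hc hs
  rw [kap, div_lt_iff₀ (by linarith)]
  rw [q0] at p5
  nlinarith

end Pool.Agent.MP_8c549f_pr.L2

end

end Part6

-- ======== part 7: BtS
section Part7

/-! PROJECT L2, row Bt: legs that do not backtrack. -/

noncomputable section

namespace Pool.Agent.MP_8c549f_pr.L2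

open MeasureTheory Finset Real Classical S3

namespace BtS

variable {D : ℕ}

theorem cs (lam : ℝ) (ω : Cfg D) (T : Finset (List (Step D))) :
    (∑ l ∈ T, wr lam ω 0 l * l.length) ^ 2 ≤
      (∑ l ∈ T, wr lam ω 0 l * (l.length : ℝ) ^ 2) * ∑ l ∈ T, wr lam ω 0 l :=
  sum_sq_le_sum_mul_sum_of_sq_le_mul T
    (fun l _ => mul_nonneg (wr_nonneg l 0) (sq_nonneg _)) (fun l _ => wr_nonneg l 0)
    fun l _ => le_of_eq (by ring)

theorem same (lam : ℝ) {k : ℕ} {ω ω' : Cfg D} (h : Agr k ω ω') {l : List (Step D)}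
    (hl : ¬ ∃ i < l.length, H l i ≤ -(k : ℤ)) : wr lam ω 0 l = wr lam ω' 0 l := by
  rw [wr_eq_W, wr_eq_W, W_congr lam l 0 fun i hi s => h _ ?_]
  have h1 : -(k : ℤ) < loc l i 0 := not_le.1 fun c => hl ⟨i, hi, c⟩
  rw [edge, zero_add]
  split_ifs
  · exact h1.le
  · simp only [Pi.sub_apply, Pi.single_apply]
    split_ifs <;> omega

end BtS

open BtS in
theorem btS : BTStmt := by
  intro D lam L N k ω ω' h
  have ht : 0 ≤ t2 lam L N ω := sum_nonneg fun l _ => mul_nonneg (wr_nonneg l 0) (sq_nonneg _)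
  refine ⟨?_, ?_, (cs lam ω _).trans (mul_le_of_le_one_right ht (ms_le_one L N))⟩
  · rw [ms, bt, ← sum_filter_add_sum_filter_not (Lg D L N)
      (fun l => ∃ i < l.length, H l i ≤ -(k : ℤ)), add_sub_cancel_left, ovl,
      ← sum_fiberwise_of_maps_to (g := pos) (t := ball 0 N) fun l hl => mem_ball.2 (by
        rw [sub_zero]
        exact (nrm_pos_le l).trans (mem_Lg.1 (mem_filter.1 hl).1).1)]
    refine sum_le_sum fun y _ => le_min ?_ ?_
    · exact sum_le_sum_of_subset_of_nonneg (filter_subset_filter _ (filter_subset _ _))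
        fun l _ _ => wr_nonneg l 0
    · rw [sum_congr rfl fun l hl => same lam h (mem_filter.1 (mem_filter.1 hl).1).2]
      exact sum_le_sum_of_subset_of_nonneg (filter_subset_filter _ (filter_subset _ _))
        fun l _ _ => wr_nonneg l 0
  · have h1 : ∑ l ∈ (Lg D L N).filter fun l => ¬ ∃ i < l.length, H l i ≤ -(k : ℤ),
        wr lam ω 0 l * l.length ≤ tt lam L N ω' := by
      rw [sum_congr rfl fun l hl => by rw [same lam h (mem_filter.1 hl).2]]
      exact sum_le_sum_of_subset_of_nonneg (filter_subset _ _)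
        fun l _ _ => mul_nonneg (wr_nonneg l 0) (Nat.cast_nonneg _)
    have h2 := sum_filter_add_sum_filter_not (Lg D L N)
      (fun l => ∃ i < l.length, H l i ≤ -(k : ℤ)) fun l => wr lam ω 0 l * l.length
    refine le_trans ?_ (le_sqrt_of_sq_le ((cs lam ω _).trans (mul_le_mul_of_nonneg_right
      (sum_le_sum_of_subset_of_nonneg (filter_subset _ _)
        fun l _ _ => mul_nonneg (wr_nonneg l 0) (sq_nonneg _))
      (sum_nonneg fun l _ => wr_nonneg l 0))))
    rw [tt, ← h2]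
    linarith

end Pool.Agent.MP_8c549f_pr.L2

end

end Part7

-- ======== part 8: GoodS
section Part8

/-! PROJECT L2, row Good: the good events are measurable, inherited along legs and likely. -/

noncomputable section

namespace Pool.Agent.MP_8c549f_pr.L2

open MeasureTheory Finset Real Classical S3

namespace GoodS

variable {D : ℕ} {lam : ℝ} {ω : Cfg D}

theorem openP (l : List (Step D)) : ∀ x : V D, wr lam ω x l ≠ 0 → OpenP ω x l := by
  induction l with
  | nil => intro x _; trivial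
  | cons s l ih =>
    intro x h
    rw [wr_cons] at h
    refine ⟨?_, ih _ (right_ne_zero_of_mul h)⟩
    by_contra hs
    exact left_ne_zero_of_mul h (by simp [pr, hs])

theorem conn {l : List (Step D)} (h : wr lam ω 0 l ≠ 0) : Conn ω (pos l) 0 := by
  have := (openP l 0 h).conn_pos
  rw [zero_add] at this
  exact this.symm

end GoodS

theorem goodS (hN : NICEFStmt) : GOODStmt := by
  intro D A m h N δ
  obtain ⟨h1, h2, h3, h4, h5, h6⟩ := hN D A m h δ
  refine ⟨fun n => (h1 _).inter h2, ?_, ?_, ?_⟩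
  · rintro lam L n ω ⟨hn, a, b, ha, hb, hab⟩ l hl hw
    have hc := GoodS.conn hw
    refine ⟨h3 _ _ _ _ ?_ hn, h5 _ _ ⟨a, b, hc.trans ha, hc.trans hb, hab⟩⟩
    have := (nrm_pos_le l).trans (mem_Lg.1 hl).1
    have e : (n + 1 + 2) * N = (n + 2) * N + N := by ring
    omega
  · intro p n R hp0 hp1 hR
    have := perc_prob D hp0 hp1
    have hm : MeasurableSet {ω : Cfg D | ¬ Nice A m h δ R ω} := (h1 R).compl
    rw [← integral_indicator_one hm]
    refine integral_mono_of_nonneg (ae_of_all _ fun ω => S3.ind_nonneg _)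
      ((integrable_const (1 : ℝ)).indicator hm) (ae_of_all _ fun ω => ?_)
    by_cases hω : Nice A m h δ R ω
    · have g : Gn A m h δ N n (ovw (Past D) (allOpen D) ω) := by
        refine ⟨?_, (h6 ω).1⟩
        have k := h3 R ((n + 2) * N) 0 _ (by simpa using hR)
          (h4 R ω (ovw (Past D) (allOpen D) ω) (fun e he => by
            unfold ovw allOpen; split_ifs; exacts [rfl, he]) hω)
        rwa [shift_zero] at k
      show S3.ind _ ≤ _
      rw [S3.ind_neg (not_not.2 g)]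
      exact Set.indicator_nonneg (fun _ _ => zero_le_one) _
    · show S3.ind _ ≤ _
      rw [Set.indicator_of_mem (show ω ∈ {ω : Cfg D | ¬ Nice A m h δ R ω} from hω)]
      exact S3.ind_le_one _
  · intro lam n R h₀ N₁ ω hR hh hω l hl hw
    obtain ⟨l1, -, l3⟩ := mem_Lg.1 hl
    have hc := GoodS.conn hw
    have hl' := (nrm_pos_le l).trans l1
    refine ⟨h3 R _ _ _ (by omega) (h4 R ω _ (fun e he => plus_of_open he) hω),
      h5 _ _ ⟨pos l, 0, Conn.refl _ _, hc, ?_⟩⟩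
    have k := (le_abs_self _).trans (abs_le_nrm (pos l) 0)
    have e : pos l 0 = (h₀ : ℤ) := l3
    rw [sub_zero]
    omega

end Pool.Agent.MP_8c549f_pr.L2

end

end Part8

-- ======== part 9: QuS
section Part9

/-! PROJECT L2, row Qu: the quenched estimates collected at one scale. -/

noncomputable section

namespace Pool.Agent.MP_8c549f_pr.L2

open MeasureTheory Finset Real Classical S3
open scoped ENNReal

theorem quS (hG : GEOStmt) (hL : LEG1Stmt) (hQ : Q1Stmt) (hO : OVStmt) : QUStmt := by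
  intro D hD
  obtain ⟨A, hA2, hgeo⟩ := hG D hD
  obtain ⟨Λ₁, hL1⟩ := hL D
  obtain ⟨Λ₂, hO1⟩ := hO D
  have hΛ1 : Λ₁ ≤ Λ₁ + Λ₂ + 1 := by omega
  have hΛ2 : Λ₂ ≤ Λ₁ + Λ₂ + 1 := by omega
  have hΛ3 : 1 ≤ Λ₁ + Λ₂ + 1 := by omega
  obtain ⟨C, hC, hL2⟩ := hL1 _ hΛ1
  obtain ⟨c, l₂, hc0, hc1, hO2⟩ := hO1 _ hΛ2
  refine ⟨A, Λ₁ + Λ₂ + 1, C, c, hA2, hΛ3, hC, hc0, hc1, ?_⟩
  intro ε hε
  obtain ⟨δ₀, l₃, hδ₀, hQ1⟩ := hQ D _ ε hΛ3 hε
  have hδ : 0 < min δ₀ (1 / 4) := lt_min hδ₀ (by norm_num)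
  refine ⟨min δ₀ (1 / 4), hδ, ?_⟩
  intro K
  obtain ⟨l₁, hL3⟩ := hL2 K
  refine ⟨l₁ + l₂ + l₃ + 16, ?_⟩
  intro l hl hh2 hhm hm8
  have hR : ∀ n : ℕ, 2 * l ^ 4 ≤ (n + 2) * l ^ 4 := fun n =>
    Nat.mul_le_mul_right _ (by omega)
  have hsc : ∀ lam : ℝ, 1 / (l : ℝ) ≤ lam → lam ≤ 4 / (l : ℝ) → Sc l (mm l) lam :=
    fun lam h1 h2 => ⟨by omega, hm8, h1, h2⟩
  have hg : ∀ (n : ℕ) (ω : Cfg D), Gn A (mm l) (hA A l) (min δ₀ (1 / 4)) (l ^ 4) n ω →
      ∃ rep w, Geo ω ((n + 2) * l ^ 4) (mm l) (hA A l) (min δ₀ (1 / 4)) rep w :=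
    fun n ω h => hgeo ω _ _ _ _ hh2 hhm hδ.le (min_le_right _ _) h.1
  constructor
  · intro lam n ω h1 h2 hn
    obtain ⟨rep, w, hw⟩ := hg n ω hn
    obtain ⟨a1, a2, a3⟩ := hL3 ω _ _ _ _ rep w hw l lam (by omega) (hsc lam h1 h2) hn.2 (hR n)
    exact ⟨a1, a2, a3, hQ1 ω _ _ _ _ rep w hw (min_le_left _ _) l lam (by omega)
      (hsc lam h1 h2) hn.2 (hR n)⟩
  · intro lam n ω ω' h1 h2 hn hn' ha
    obtain ⟨rep, w, hw⟩ := hg n ω hn
    obtain ⟨rep', w', hw'⟩ := hg n ω' hn'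
    exact hO2 ω ω' _ _ _ _ rep w rep' w' hw hw' l lam (by omega) (hsc lam h1 h2) hn.2 hn'.2
      (hR n) ha

end Pool.Agent.MP_8c549f_pr.L2

end

end Part9

-- ======== part 10: Hyp1
section Part10

/-! PROJECT L2, row Hyp1: the quenched estimates give the hypotheses of the mixing lemma. -/

noncomputable section

namespace Pool.Agent.MP_8c549f_pr.L2

open MeasureTheory Finset Real Classical S3

namespace Hyp1

theorem agr_symm {D k : ℕ} {ω ω' : Cfg D} (h : Agr k ω ω') : Agr k ω' ω :=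
  fun e he => (h e he).symm

theorem bt_nonneg {D : ℕ} (lam : ℝ) (L N k : ℕ) (ω : Cfg D) : 0 ≤ bt lam L N k ω :=
  sum_nonneg fun l _ => wr_nonneg l _

/-- the square root of the product of the second moment and the backtracking weight -/
theorem sq_le {t b C x : ℝ} {j : ℕ} (hC : 1 ≤ C) (hb0 : 0 ≤ b) (ht : t ≤ C * x ^ 4)
    (hb : b ≤ 1 / 16 ^ j) : √(t * b) ≤ C * x ^ 2 / 4 ^ j := by
  have h0 : 0 ≤ C * x ^ 4 := by positivity
  have h4 : (0 : ℝ) < 4 ^ j := by positivity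
  refine sqrt_le_iff.2 ⟨by positivity, (mul_le_mul ht hb hb0 h0).trans ?_⟩
  have e : (16 : ℝ) ^ j = (4 ^ j) ^ 2 := by
    rw [← pow_mul, mul_comm, pow_mul]; norm_num
  rw [e, div_pow, mul_one_div]
  refine div_le_div_of_nonneg_right ?_ (by positivity)
  have : 0 ≤ x ^ 4 := by positivity
  nlinarith [mul_nonneg (mul_nonneg (by linarith : 0 ≤ C) (by linarith : 0 ≤ C - 1)) this]

/-- geometric mean of two bounds -/
theorem mean {d ε C x : ℝ} {j : ℕ} (hε : 0 ≤ ε) (hC : 0 ≤ C) (h1 : |d| ≤ 2 * ε * x ^ 2)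
    (h2 : |d| ≤ C * x ^ 2 / 4 ^ j) : |d| ≤ √(2 * ε * C) * x ^ 2 / 2 ^ j := by
  have h0 : 0 ≤ 2 * ε * C := by positivity
  refine abs_le_of_sq_le_sq' ?_ (by positivity) |>.2
  have e : (4 : ℝ) ^ j = (2 ^ j) ^ 2 := by
    rw [← pow_mul, mul_comm, pow_mul]; norm_num
  have h3 : |d| * |d| ≤ 2 * ε * x ^ 2 * (C * x ^ 2 / 4 ^ j) :=
    mul_le_mul h1 h2 (abs_nonneg _) (by positivity)
  rw [div_pow, mul_pow, sq_sqrt h0, ← e, sq]
  refine h3.trans (le_of_eq ?_)
  ring

theorem pow16 {j : ℕ} (hj : 1 ≤ j) : (1 : ℝ) / 16 ^ j ≤ 1 / (8 * 2 ^ j) := by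
  refine one_div_le_one_div_of_le (by positivity) ?_
  have e : (16 : ℝ) ^ j = 8 ^ j * 2 ^ j := by rw [← mul_pow]; norm_num
  rw [e]
  exact mul_le_mul_of_nonneg_right (le_self_pow₀ (by norm_num) (by omega)) (by positivity)

end Hyp1

open Hyp1 in
theorem hyp1 (hB : BTStmt) (hG : GOODStmt) : HYP1Stmt := by
  intro D A Λ K l δ C c ε lam hC hc0 hc1 hε hε1 Q h1 h2
  obtain ⟨g1, g2, -, -⟩ := hG D A (mm l) (hA A l) (l ^ 4) δ
  refine ⟨⟨g1, fun n ω => g2 lam (Λ * l) n ω, fun n ω hω => (Q.leg lam (n + 1) ω h1 h2 hω).1,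
    by positivity⟩, hc0, hc1, by positivity, ?_,
    fun n ω ω' hω hω' ha => Q.ovl lam (n + 1) ω ω' h1 h2 hω hω' ha, ?_⟩
  · intro n j ω ω' hω hω' ha
    obtain ⟨-, a2, a3, a4⟩ := Q.leg lam (n + 1) ω h1 h2 hω
    obtain ⟨-, b2, b3, b4⟩ := Q.leg lam (n + 1) ω' h1 h2 hω'
    have hx : (0 : ℝ) ≤ (l : ℝ) ^ 2 := by positivity
    have d1 : |tt lam (Λ * l) (l ^ 4) ω - tt lam (Λ * l) (l ^ 4) ω'| ≤ 2 * ε * (l : ℝ) ^ 2 := by
      rw [abs_le] at a4 b4 ⊢
      constructor <;> linarith [a4.1, a4.2, b4.1, b4.2]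
    refine mean hε.le (by linarith) d1 ?_
    rcases Nat.eq_zero_or_pos j with rfl | hj
    · refine d1.trans ?_
      rw [pow_zero, div_one]
      exact mul_le_mul_of_nonneg_right (by linarith) hx
    · have u1 := ((hB D lam (Λ * l) (l ^ 4) (j * (Λ * l)) ω ω' ha).2.1).trans
        (sq_le hC (bt_nonneg _ _ _ _ _) a2 (a3 j hj))
      have u2 := ((hB D lam (Λ * l) (l ^ 4) (j * (Λ * l)) ω' ω (agr_symm ha)).2.1).trans
        (sq_le hC (bt_nonneg _ _ _ _ _) b2 (b3 j hj))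
      rw [abs_le]
      constructor <;> linarith
  · intro n j ω ω' hj hω _ ha
    obtain ⟨a1, -, a3, -⟩ := Q.leg lam (n + 1) ω h1 h2 hω
    have u := (hB D lam (Λ * l) (l ^ 4) (j * (Λ * l)) ω ω' ha).1
    linarith [a3 j hj, pow16 hj]

end Pool.Agent.MP_8c549f_pr.L2

end

end Part10

-- ======== part 11: Hyp2
section Part11

/-! PROJECT L2, row Hyp2: the duration of a leg decreases with the bias. -/

noncomputable section

namespace Pool.Agent.MP_8c549f_pr.L2

open MeasureTheory Finset Real Classical S3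

namespace Hyp2

theorem inv_gap {d d' l g : ℝ} (hl : 0 < l) (hd : 0 < d) (hg : 0 ≤ g) (h1 : g ≤ d' - d)
    (h2 : d ≤ 4 / l) (h3 : d' ≤ 4 / l) : 1 / d' - 1 / d ≤ -(g * l ^ 2 / 16) := by
  have hd' : 0 < d' := by linarith
  have e1 : d * l ≤ 4 := (le_div_iff₀ hl).1 h2
  have e2 : d' * l ≤ 4 := (le_div_iff₀ hl).1 h3
  have e3 : (d * l) * (d' * l) ≤ 4 * 4 :=
    mul_le_mul e1 e2 (by positivity) (by norm_num)
  have e4 : 1 / d' - 1 / d = -((d' - d) / (d * d')) := by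
    field_simp
    ring
  rw [e4, neg_le_neg_iff, le_div_iff₀ (by positivity)]
  have e5 : g * l ^ 2 / 16 * (d * d') = g * ((d * l) * (d' * l)) / 16 := by ring
  rw [e5]
  have e6 := mul_le_mul_of_nonneg_left e3 hg
  linarith

end Hyp2

theorem hyp2 (hC : CALStmt) (hB : BTStmt) (h0 : D0Stmt) : HYP2Stmt := by
  intro D A Λ K l δ C c ε κ x z hΛ hC1 hl hκ hκ1 hκC hε hQ hx hxz hz hzx n ω hG
  have hl4 : (4 : ℝ) ≤ l := by exact_mod_cast hl
  have hl0 : (0 : ℝ) < l := by linarith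
  obtain ⟨cg, hcg⟩ : ∃ cg : ℝ, cg = Λ / (512 * (D + 1)) := ⟨_, rfl⟩
  rw [← hcg] at hκC hε ⊢
  have hD : (0 : ℝ) < D + 1 := by positivity
  have hi0 : 0 < 1 / (l : ℝ) := by positivity
  have hi1 : 4 / (l : ℝ) ≤ 1 := (div_le_one hl0).2 hl4
  have h43 : 4 / (l : ℝ) = 3 / l + 1 / l := by ring
  have h41 : 4 / (l : ℝ) = 4 * (1 / l) := by ring
  have hs0 : 0 < κ / l := by positivity
  have hs1 : κ / l ≤ 1 / l := div_le_div_of_nonneg_right hκ1 hl0.le
  have hz0 : 0 < z := by linarith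
  have hz4 : z ≤ 4 / l := by linarith
  have hz' : z + κ / l ≤ 4 / l := by linarith
  obtain ⟨m1, t1, -, q1⟩ := hQ.leg z n ω (by linarith) hz4 hG
  obtain ⟨-, -, -, q2⟩ := hQ.leg (z + κ / l) n ω (by linarith) hz' hG
  obtain ⟨c1, c2⟩ := hC D (Λ * l) (l ^ 4) ω x z (z + κ / l) (1 / l) hxz (by linarith)
    (by linarith) (by linarith) hi0 (by linarith)
  obtain ⟨d1, d2, d3⟩ := h0 D
  have hs : 0 ≤ z - x := by linarith
  have hdz : 0 < d0 D z := by
    have h := d3 0 z le_rfl hz0.le (by linarith)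
    rw [d1] at h
    have : 0 < (z - 0) / (8 * ((D : ℝ) + 1)) := div_pos (by linarith) (by positivity)
    linarith
  have hgap := Hyp2.inv_gap (g := κ / l / (8 * (D + 1))) hl0 hdz (by positivity)
    (by have := d3 z (z + κ / l) hz0.le (by linarith) (by linarith)
        rwa [add_sub_cancel_left] at this)
    ((d2 z hz0.le).2.trans hz4) ((d2 (z + κ / l) (by linarith)).2.trans hz')
  have htt : tt z (Λ * l) (l ^ 4) ω ≤ C * (l : ℝ) ^ 2 := by
    have h := (hB D z (Λ * l) (l ^ 4) 0 ω ω fun _ _ => rfl).2.2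
    refine abs_le_of_sq_le_sq' ?_ (by positivity) |>.2
    have h4 : (0 : ℝ) ≤ (l : ℝ) ^ 4 := by positivity
    have h5 : C * (l : ℝ) ^ 4 ≤ C * C * (l : ℝ) ^ 4 :=
      mul_le_mul_of_nonneg_right (le_mul_of_one_le_left (by linarith) hC1) h4
    linarith
  constructor
  · rw [add_sub_cancel_left] at c1
    have a1 : (Λ : ℝ) * l / d0 D (z + κ / l) - Λ * l / d0 D z ≤ -(4 * cg * κ * (l : ℝ) ^ 2) := by
      have hΛ0 : (0 : ℝ) ≤ (Λ : ℝ) * l := by positivity
      have h := mul_le_mul_of_nonneg_left hgap hΛ0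
      have e1 : (Λ : ℝ) * l / d0 D (z + κ / l) - Λ * l / d0 D z =
          Λ * l * (1 / d0 D (z + κ / l) - 1 / d0 D z) := by ring
      have e2 : (Λ : ℝ) * l * -(κ / l / (8 * (D + 1)) * (l : ℝ) ^ 2 / 16) =
          -(4 * cg * κ * (l : ℝ) ^ 2) := by
        rw [hcg]
        field_simp
        ring
      rw [e1, ← e2]
      exact h
    have hl2 : (0 : ℝ) ≤ (l : ℝ) ^ 2 := by positivity
    have a2 : tt (z + κ / l) (Λ * l) (l ^ 4) ω - tt z (Λ * l) (l ^ 4) ω ≤
        -(3 * cg * (l : ℝ) ^ 3) * (κ / l) := by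
      have e1 : -(3 * cg * (l : ℝ) ^ 3) * (κ / l) = -(3 * cg * κ * (l : ℝ) ^ 2) := by
        field_simp
      have b1 := (abs_le.1 q1).1
      have b2 := (abs_le.1 q2).2
      have b3 := mul_le_mul_of_nonneg_right hε hl2
      rw [e1]
      linarith
    have a3 := (div_le_iff₀ hs0).2 a2
    have a4 : (z - x + κ / l) * t2 z (Λ * l) (l ^ 4) ω ≤ cg * (l : ℝ) ^ 3 := by
      have b1 : (z - x + κ / l) * t2 z (Λ * l) (l ^ 4) ω ≤ (z - x + κ / l) * (C * (l : ℝ) ^ 4) :=
        mul_le_mul_of_nonneg_left t1 (by linarith)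
      have b2 : (z - x + κ / l) * (C * (l : ℝ) ^ 4) ≤ (2 * (κ / l)) * (C * (l : ℝ) ^ 4) :=
        mul_le_mul_of_nonneg_right (by linarith) (by positivity)
      have b3 : (2 * (κ / l)) * (C * (l : ℝ) ^ 4) = 2 * κ * C * (l : ℝ) ^ 3 := by
        field_simp
      have b4 : 2 * κ * C * (l : ℝ) ^ 3 ≤ cg * (l : ℝ) ^ 3 :=
        mul_le_mul_of_nonneg_right hκC (by positivity)
      linarith
    have a5 := mul_le_mul_of_nonneg_left (add_le_add a3 a4) hs
    refine c1.trans (a5.trans (le_of_eq ?_))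
    ring
  · have a1 : 1 / (l : ℝ) * tt z (Λ * l) (l ^ 4) ω + 2 / (1 / (l : ℝ)) ≤ (C + 2) * l := by
      have b1 := mul_le_mul_of_nonneg_left htt hi0.le
      have b2 : 1 / (l : ℝ) * (C * (l : ℝ) ^ 2) = C * l := by field_simp
      have b3 : 2 / (1 / (l : ℝ)) = 2 * l := by field_simp
      rw [b3]
      linarith
    have a2 := mul_le_mul_of_nonneg_left a1 (by linarith : 0 ≤ 2 * (z - x))
    have a3 : 2 * (z - x) ^ 2 * tt z (Λ * l) (l ^ 4) ω ≤ 2 * (z - x) * (C * l) := by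
      have b1 : 2 * (z - x) ^ 2 * tt z (Λ * l) (l ^ 4) ω ≤
          2 * (z - x) ^ 2 * (C * (l : ℝ) ^ 2) :=
        mul_le_mul_of_nonneg_left htt (by positivity)
      have b2 : (z - x) * l ≤ 1 := (le_div_iff₀ hl0).1 (by linarith)
      have b3 : 0 ≤ 2 * (z - x) * (C * l) := by positivity
      have b4 := mul_le_mul_of_nonneg_left b2 b3
      linarith
    linarith

end Pool.Agent.MP_8c549f_pr.L2

end

end Part11
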