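import Mathlib.Analysis.Complex.ExponentialBounds
import Mathlib.Analysis.SpecialFunctions.Exp
import Pool.Agent.MP_8c549f_pr.A7
import Pool.Agent.MP_8c549f_pr.L3.Spec
import Pool.Agent.MP_8c549f_pr.S3.Speed

-- ======== part 0: Qf
section Part0

/-! PROJECT L2, row Qf: first passages, returns and slabs. -/

noncomputable section

namespace Pool.Agent.MP_8c549f_pr.L2

open MeasureTheory Finset Real Classical S3
open scoped ENNReal

namespace QfAux

variable {D : ℕ}

/-- return to level `-1` before level `k` is reached -/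
def RB (D k : ℕ) : Set (List (Step D)) :=
  {l | lev l = -1 ∧ ∀ j < l.length, 0 ≤ H l j ∧ H l j < k}

theorem RB_zero : RB D 0 = ∅ := by
  refine Set.eq_empty_of_forall_notMem fun l hl => ?_
  rcases Nat.eq_zero_or_pos l.length with h | h
  · have h1 := hl.1
    rw [List.length_eq_zero_iff.1 h, lev_nil] at h1
    omega
  · have h1 := hl.2 0 h
    omega

theorem RB_succ (k : ℕ) : RB D (k + 1) = RB D k ∪ RetSet D k := by
  ext l
  constructor
  · rintro ⟨h1, h2⟩
    by_cases h : ∃ j < l.length, H l j = k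
    · refine Or.inr ⟨h1, fun j hj => ?_, h⟩
      have := h2 j hj
      omega
    · refine Or.inl ⟨h1, fun j hj => ?_⟩
      have h3 := h2 j hj
      have h4 : H l j ≠ k := fun e => h ⟨j, hj, e⟩
      omega
  · rintro (⟨h1, h2⟩ | ⟨h1, h2, _⟩)
    · refine ⟨h1, fun j hj => ?_⟩
      have := h2 j hj
      omega
    · refine ⟨h1, fun j hj => ?_⟩
      have := h2 j hj
      omega

theorem RB_disj (k : ℕ) : Disjoint (RB D k) (RetSet D k) := by
  refine Set.disjoint_left.2 fun l h1 h2 => ?_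
  obtain ⟨j, hj, e⟩ := h2.2.2
  have := h1.2 j hj
  omega

theorem SS_RB (f : List (Step D) → ℝ≥0∞) (k : ℕ) :
    SS (RB D k) f = ∑ i ∈ range k, SS (RetSet D i) f := by
  induction k with
  | zero => rw [RB_zero, SS_empty, range_zero, sum_empty]
  | succ k ih => rw [RB_succ, SS_union (RB_disj k), ih, sum_range_succ]

theorem disj (k : ℕ) : Disjoint (FPS D k) (RB D k) := by
  refine Set.disjoint_left.2 fun l h1 h2 => ?_
  have h3 := h1.2.2
  have h4 := h2.1
  omega

theorem inner {k : ℕ} {l : List (Step D)} (hl : l ∈ FPS D k ∪ RB D k) :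
    (lev l = k ∨ lev l = -1) ∧ ∀ j < l.length, 0 ≤ H l j ∧ H l j < k := by
  rcases hl with ⟨h1, h2, h3⟩ | ⟨h1, h2⟩
  · exact ⟨Or.inl h3, fun j hj => ⟨h1 j hj.le, h3 ▸ h2 j hj⟩⟩
  · exact ⟨Or.inr h1, h2⟩

theorem antich_un (k : ℕ) : Antich (FPS D k ∪ RB D k) := by
  rintro u hu l hl ⟨t, rfl⟩
  by_contra hne
  have ht : t ≠ [] := fun h => hne (by simp [h])
  have h1 := (inner hl).2 u.length (by simpa using List.length_pos_iff.2 ht)
  rw [H_append_left t le_rfl, H_length] at h1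
  have h2 := (inner hu).1
  omega

theorem antich_FPS (k : ℕ) : Antich (FPS D k) := (antich_rec (k : ℤ)).mono fun _ hl => hl.2

theorem exit {k : ℕ} {l : List (Step D)} (h : ∃ j, j ≤ l.length ∧ ¬ (0 ≤ H l j ∧ H l j < k)) :
    ∃ u ∈ FPS D k ∪ RB D k, u <+: l := by
  obtain ⟨hj, hn⟩ := Nat.find_spec h
  have hm : ∀ i < Nat.find h, 0 ≤ H l i ∧ H l i < k := fun i hi => by
    have h1 := Nat.find_min h hi
    by_contra h2
    exact h1 ⟨hi.le.trans hj, h2⟩
  generalize Nat.find h = j at hj hn hm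
  have hlen : (l.take j).length = j := by rw [List.length_take, min_eq_left hj]
  have hc : H l j = k ∨ H l j = -1 := by
    rcases j with _ | j
    · rw [H_zero] at hn ⊢
      omega
    · have h1 := hm j (Nat.lt_succ_self j)
      have h2 := H_step l j
      omega
  refine ⟨l.take j, ?_, List.take_prefix _ _⟩
  rcases hc with hc | hc
  · refine Or.inl ⟨fun i hi => ?_, fun i hi => ?_, hc⟩
    · rw [hlen] at hi
      rw [H_take l hi]
      rcases hi.lt_or_eq with h1 | h1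
      · exact (hm i h1).1
      · rw [h1, hc]
        omega
    · rw [hlen] at hi
      rw [H_take l hi.le, lev_take, hc]
      exact (hm i hi).2
  · refine Or.inr ⟨hc, fun i hi => ?_⟩
    rw [hlen] at hi
    rw [H_take l hi.le]
    exact hm i hi

end QfAux

open QfAux in
theorem qf : QFStmt := by
  intro D p lam h0 h1 k
  have hU : SS (FPS D k ∪ RB D k) (wb true p lam) = QQ D p lam k + ∑ i ∈ range k, Ret D p lam i := by
    rw [SS_union (disj k), SS_RB]; rfl
  refine ⟨?_, fun n => ?_, fun k' hk => ?_, fun n => ?_⟩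
  · rw [← hU]
    exact kraft_wb true h0 h1 lam (antich_un k)
  · rw [← hU, ← SS_length_wb (D := D) h0 h1 lam n,
      SS_split _ {l : List (Step D) | ∀ j ≤ n, 0 ≤ H l j ∧ H l j ≤ k}, add_comm]
    refine add_le_add ?_ (le_of_eq rfl)
    refine cover_wb true p lam ((antich_length n).mono fun _ hl => hl.1) fun l hl => exit ?_
    by_contra hc
    refine hl.2 fun j hj => ?_
    have hlen : l.length = n := hl.1
    have h2 : 0 ≤ H l j ∧ H l j < k := by
      by_contra h3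
      exact hc ⟨j, hlen ▸ hj, h3⟩
    exact ⟨h2.1, h2.2.le⟩
  · refine cover_wb true p lam (antich_FPS k') fun l hl => ?_
    obtain ⟨t, ht, e, hlt⟩ := exists_first_hit (H l) (fun i => (H_step l i).2) (c := k)
      (n := l.length) (by simp) (by rw [H_length, hl.2.2]; exact_mod_cast hk)
    have hlen : (l.take t).length = t := by rw [List.length_take, min_eq_left ht]
    refine ⟨l.take t, ⟨fun i hi => ?_, fun i hi => ?_, e⟩, List.take_prefix _ _⟩
    · rw [hlen] at hi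
      rw [H_take l hi]
      exact hl.1 i (hi.trans ht)
    · rw [hlen] at hi
      rw [H_take l hi.le, lev_take, e]
      exact hlt i hi
  · refine cover_wb true p lam ((antich_FPS k).mono fun _ hl => hl.1) fun l hl => ?_
    have hlen : (l.take n).length = n := by rw [List.length_take, min_eq_left hl.2.le]
    refine ⟨l.take n, ⟨hlen, fun j hj => ?_⟩, List.take_prefix _ _⟩
    rw [H_take l hj]
    have h2 := hl.1.2.1 j (hj.trans_lt hl.2)
    rw [hl.1.2.2] at h2
    exact ⟨hl.1.1 j (hj.trans hl.2.le), h2.le⟩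

end Pool.Agent.MP_8c549f_pr.L2

end

end Part0

-- ======== part 1: Qs
section Part1

/-! PROJECT L2, row Qs: quenched survival below a level. -/

noncomputable section

namespace Pool.Agent.MP_8c549f_pr.L2

open MeasureTheory Finset Real Classical S3 Filter Topology
open scoped ENNReal

namespace Qs

variable {D : ℕ}

/-- the constant of the extension lemma -/
def Wc (D h : ℕ) : ℝ := (D + 1) * (10 * (h : ℝ) + 1) ^ (2 * (D + 1)) * exp (10 * h + 1)

theorem one_le_Wc (D h : ℕ) : 1 ≤ Wc D h := by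
  have h0 : (0 : ℝ) ≤ h := Nat.cast_nonneg h
  have h1 : (1 : ℝ) ≤ (10 * (h : ℝ) + 1) ^ (2 * (D + 1)) := one_le_pow₀ (by linarith)
  have h2 : (1 : ℝ) ≤ exp (10 * h + 1) := one_le_exp (by linarith)
  have h3 : (1 : ℝ) ≤ (D : ℝ) + 1 := by linarith [Nat.cast_nonneg (α := ℝ) D]
  exact one_le_mul_of_one_le_of_one_le (one_le_mul_of_one_le_of_one_le h3 h1) h2

/-- functional inequality -/
theorem funA (hH : HardyStmt) (hE : ExtStmt) (hD : 1 ≤ D) {lam : ℝ} (h0 : 0 < lam) (h1 : lam ≤ 1)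
    {ω : Cfg D} {u : V D} {m h : ℕ} (hh : 2 ≤ h) (hG : Gd ω u (m + 9 * h) h) (hw : Wide ω u h)
    {g : V D → ℝ} (hg : ∀ x, g x ≠ 0 → x ∈ ball u m ∧ Conn ω u x) :
    ∑ x ∈ ball u m, pim lam ω x * g x ^ 2 ≤
      (2 * D + 4) * (4 / lam ^ 2) * Wc D h * En lam ω (ball u (m + 7 * h)) g := by
  obtain ⟨g', a1, a2, -, a4⟩ := hE D hD lam ω u m h g h0.le hh hG
    fun x hx => ⟨(hg x hx).1, (hw.of_conn (hg x hx).2).big⟩
  have a5 : (D + 1) * (10 * (h : ℝ) + 1) ^ (2 * (D + 1)) * exp (lam * (10 * h + 1)) *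
      En lam ω (ball u (m + 7 * h)) g ≤ Wc D h * En lam ω (ball u (m + 7 * h)) g := by
    refine mul_le_mul_of_nonneg_right ?_ (En_nonneg _ _)
    unfold Wc
    have : lam * (10 * h + 1) ≤ 10 * (h : ℝ) + 1 := mul_le_of_le_one_left (by positivity) h1
    gcongr
  have b1 := hH D g' u (m + h) lam h0 h1 a1
  have b2 : ∑ x ∈ ball u m, exp (2 * lam * (x 0 : ℝ)) * g x ^ 2 ≤
      ∑ x ∈ ball u (m + h), exp (2 * lam * (x 0 : ℝ)) * g' x ^ 2 := by
    refine le_trans (sum_le_sum fun x _ => ?_) (sum_le_sum_of_subset_of_nonneg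
      (ball_mono u (Nat.le_add_right m h)) fun x _ _ => by positivity)
    by_cases hx : g x = 0
    · rw [hx]
      simpa using mul_nonneg (exp_pos (2 * lam * (x 0 : ℝ))).le (sq_nonneg (g' x))
    · rw [a2 x hx]
  have b3 : ∑ x ∈ ball u (m + h + 1), exp (2 * lam * (x 0 : ℝ)) *
      (g' (x + Pi.single 0 1) - g' x) ^ 2 ≤ ∑ x ∈ ball u (m + h + 1), ∑ i,
        exp (2 * lam * (x 0 : ℝ)) * (g' (x + Pi.single i 1) - g' x) ^ 2 :=
    sum_le_sum fun x _ => single_le_sum
      (f := fun i => exp (2 * lam * (x 0 : ℝ)) * (g' (x + Pi.single i 1) - g' x) ^ 2)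
      (fun i _ => by positivity) (mem_univ 0)
  have b4 : ∑ x ∈ ball u m, pim lam ω x * g x ^ 2 ≤
      (2 * D + 4) * ∑ x ∈ ball u m, exp (2 * lam * (x 0 : ℝ)) * g x ^ 2 := by
    rw [mul_sum]
    refine sum_le_sum fun x _ => ?_
    rw [← mul_assoc]
    exact mul_le_mul_of_nonneg_right (pim_le h0.le h1 x) (sq_nonneg _)
  refine b4.trans ?_
  rw [mul_assoc, mul_assoc]
  refine mul_le_mul_of_nonneg_left (b2.trans (b1.trans ?_)) (by positivity)
  exact mul_le_mul_of_nonneg_left (b3.trans (a4.trans a5)) (by positivity)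

theorem size (D : ℕ) {K : ℝ} (hK : 0 < K) : ∃ n₀ : ℕ, ∀ n, n₀ ≤ n → 2 ≤ hh n ∧ 200 * hh n ≤ n ∧
    (K * Wc D (hh n)) ^ 8 ≤ n := by
  have ht := tendsto_pow_const_div_const_pow_of_one_lt (4 * (D + 1)) (show (1 : ℝ) < 2 by norm_num)
  set C : ℝ := (K * (D + 1) * 4) ^ 2 * 11 ^ (4 * (D + 1)) with hC
  have hC0 : 0 < C := by positivity
  obtain ⟨h₀, hh₀⟩ := eventually_atTop.1 (ht.eventually (gt_mem_nhds (one_div_pos.2 hC0)))
  refine ⟨2 ^ (200 * (h₀ + 2)), fun l hl => ?_⟩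
  have hl0 : l ≠ 0 := by
    have := Nat.two_pow_pos (200 * (h₀ + 2))
    omega
  have e1 : 200 * (h₀ + 2) ≤ Nat.log 2 l := Nat.le_log_of_pow_le (by norm_num) hl
  have e2 : h₀ + 2 ≤ hh l := by unfold hh; omega
  have e3 : 200 * hh l ≤ Nat.log 2 l := by unfold hh; omega
  have e4 : 2 ^ (200 * hh l) ≤ l :=
    (Nat.pow_le_pow_right (by norm_num) e3).trans (Nat.pow_log_le_self 2 hl0)
  refine ⟨by omega, e3.trans (Nat.log_le_self 2 l), ?_⟩
  set h := hh l
  have e5 : ((2 : ℝ)) ^ (200 * h) ≤ l := by exact_mod_cast e4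
  have e6 := hh₀ h (by omega)
  rw [div_lt_div_iff₀ (by positivity) hC0, one_mul] at e6
  have h1 : (1 : ℝ) ≤ h := by exact_mod_cast (by omega : 1 ≤ h)
  have e7 : exp (10 * (h : ℝ) + 1) ≤ 4 * 2 ^ (20 * h) := by
    have c1 : exp 1 ≤ 4 := exp_one_lt_d9.le.trans (by norm_num)
    have c2 : exp (10 * (h : ℝ) + 1) = exp 1 ^ (10 * h) * exp 1 := by
      rw [← exp_nat_mul, ← exp_add]; push_cast; ring_nf
    have c3 : exp 1 ^ (10 * h) ≤ 4 ^ (10 * h) := pow_le_pow_left₀ (exp_pos 1).le c1 _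
    have c4 : (4 : ℝ) ^ (10 * h) = 2 ^ (20 * h) := by
      rw [show (4 : ℝ) = 2 ^ 2 by norm_num, ← pow_mul]; ring_nf
    rw [c2, ← c4, mul_comm]
    gcongr
  have e8 : (10 * (h : ℝ) + 1) ^ (2 * (D + 1)) ≤ (11 * (h : ℝ)) ^ (2 * (D + 1)) :=
    pow_le_pow_left₀ (by positivity) (by linarith) _
  have e9 : K * Wc D h ≤ K * ((D + 1) * (11 * (h : ℝ)) ^ (2 * (D + 1)) * (4 * 2 ^ (20 * h))) := by
    unfold Wc
    gcongr
  have e10 := pow_le_pow_left₀ (mul_nonneg hK.le (by linarith [one_le_Wc D h])) e9 2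
  have e11 : (K * Wc D h) ^ 2 ≤ 2 ^ (50 * h) := by
    refine e10.trans ?_
    calc _ = (h : ℝ) ^ (4 * (D + 1)) * C * 2 ^ (40 * h) := by rw [hC]; ring
      _ ≤ 2 ^ h * 2 ^ (40 * h) := by gcongr
      _ ≤ 2 ^ (50 * h) := by
        rw [← pow_add]
        exact pow_le_pow_right₀ (by norm_num) (by omega)
  calc (K * Wc D h) ^ 8 = ((K * Wc D h) ^ 2) ^ 4 := by ring
    _ ≤ (2 ^ (50 * h)) ^ 4 := pow_le_pow_left₀ (sq_nonneg _) e11 4
    _ = 2 ^ (200 * h) := by rw [← pow_mul]; ring_nf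
    _ ≤ l := e5

/-- the numerical inequality -/
theorem num (D : ℕ) {u : ℝ} (hu : 308 + 18 * (D : ℝ) ≤ u) :
    (2 * u ^ 8 + 1) ^ (D + 1) * ((2 * D + 4) * exp (2 * u ^ 4)) * (3 * exp (-u ^ 5)) ≤
      (1 / (u ^ 8) ^ 9) ^ 2 := by
  have hD : (0 : ℝ) ≤ D := Nat.cast_nonneg D
  have h1 : 1 ≤ u := by linarith
  have h0 : 0 < u := by linarith
  have a1 : u ≤ exp u := by linarith [add_one_le_exp u]
  have a2 : u ^ 8 ≤ exp u ^ 8 := pow_le_pow_left₀ h0.le a1 8
  have a3 : 2 * u ^ 8 + 1 ≤ exp u ^ 9 := by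
    have : 1 ≤ u ^ 8 := one_le_pow₀ h1
    calc 2 * u ^ 8 + 1 ≤ 3 * u ^ 8 := by linarith
      _ ≤ exp u * exp u ^ 8 := mul_le_mul (by linarith) a2 (by positivity) (exp_pos _).le
      _ = exp u ^ 9 := by ring
  have a4 : (2 * u ^ 8 + 1) ^ (D + 1) ≤ (exp u ^ 9) ^ (D + 1) :=
    pow_le_pow_left₀ (by positivity) a3 _
  have a5 : ((u ^ 8) ^ 9) ^ 2 ≤ ((exp u ^ 8) ^ 9) ^ 2 := by gcongr
  have a6 : 3 * (2 * (D : ℝ) + 4) ≤ exp u := by linarith
  have a7 : u ≤ u ^ 4 := le_self_pow₀ h1 (by norm_num)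
  have a8 : 9 * ((D : ℝ) + 1) * u + u + 144 * u + 2 * u ^ 4 + -u ^ 5 ≤ 0 := by
    have b1 : (154 + 9 * (D : ℝ)) * u ≤ u ^ 4 / 2 * u :=
      mul_le_mul_of_nonneg_right (by linarith) h0.le
    have b2 : 4 * u ^ 4 ≤ u * u ^ 4 := mul_le_mul_of_nonneg_right (by linarith) (by positivity)
    nlinarith
  rw [div_pow, one_pow, le_div_iff₀ (by positivity)]
  calc _ = (2 * u ^ 8 + 1) ^ (D + 1) * (3 * (2 * D + 4)) * ((u ^ 8) ^ 9) ^ 2 *
        (exp (2 * u ^ 4) * exp (-u ^ 5)) := by ring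
    _ ≤ (exp u ^ 9) ^ (D + 1) * exp u * ((exp u ^ 8) ^ 9) ^ 2 *
        (exp (2 * u ^ 4) * exp (-u ^ 5)) := by gcongr
    _ = exp (9 * ((D : ℝ) + 1) * u + u + 144 * u + 2 * u ^ 4 + -u ^ 5) := by
      simp only [← pow_mul, ← exp_nat_mul, ← exp_add]
      congr 1
      push_cast
      ring
    _ ≤ 1 := exp_le_one_iff.2 a8

end Qs

open Qs in
theorem qs (hP : PkStmt) (hS : SpecStmt) (hH : HardyStmt) (hE : ExtStmt) : QSStmt := by
  intro D hD
  have hD0 : (0 : ℝ) ≤ D := Nat.cast_nonneg D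
  obtain ⟨n₀, hn₀⟩ := size D (K := 16 * (2 * D + 4)) (by positivity)
  refine ⟨max n₀ (308 + 18 * D), fun l m n lam ω hl hlo h1 hln hmn hG hw => ?_⟩
  have hl1 : 308 + 18 * D ≤ l := (le_max_right _ _).trans hl
  have hl2 : l ≤ n := (Nat.le_self_pow (by norm_num) l).trans hln
  obtain ⟨s1, s2, s3⟩ := hn₀ n (((le_max_left _ _).trans hl).trans hl2)
  set h := hh n
  have hlr : 308 + 18 * (D : ℝ) ≤ l := by exact_mod_cast hl1
  have hl0 : (0 : ℝ) < l := by linarith
  have h0 : 0 < lam := lt_of_lt_of_le (by positivity) hlo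
  obtain ⟨u, hu0, hu⟩ : ∃ u : ℝ, 0 ≤ u ∧ u ^ 8 = n :=
    ⟨(n : ℝ) ^ ((8 : ℕ)⁻¹ : ℝ), by positivity,
      rpow_inv_natCast_pow (Nat.cast_nonneg n) (by norm_num)⟩
  have u1 : (l : ℝ) ≤ u := by
    refine le_of_pow_le_pow_left₀ (n := 8) (by norm_num) hu0 ?_
    rw [hu]; exact_mod_cast hln
  have u2 : 16 * (2 * D + 4) * Wc D h ≤ u :=
    le_of_pow_le_pow_left₀ (n := 8) (by norm_num) hu0 (by rw [hu]; exact s3)
  have u3 : (m : ℝ) ≤ u ^ 4 := by
    refine le_of_pow_le_pow_left₀ (n := 2) (by norm_num) (by positivity) ?_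
    rw [← pow_mul, hu]; exact_mod_cast hmn
  have hW := one_le_Wc D h
  have hZ : 0 < Zq lam ω 0 := wide_Zq (by omega) hw lam
  set A : Finset (V D) := (ball 0 n).filter fun y => y 0 ≤ m with hA
  set α : ℝ := (2 * D + 4) * (4 * (l : ℝ) ^ 2) * Wc D h with hα
  have hl1' : (1 : ℝ) ≤ l := by linarith
  have hα1 : 1 ≤ α := by
    have c1 : (1 : ℝ) ≤ (l : ℝ) ^ 2 := one_le_pow₀ hl1'
    exact one_le_mul_of_one_le_of_one_le
      (one_le_mul_of_one_le_of_one_le (by linarith) (by linarith)) hW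
  have a0 : 4 / lam ^ 2 ≤ 4 * (l : ℝ) ^ 2 := by
    rw [div_le_iff₀ (by positivity)]
    have c1 : 1 ≤ lam * l := (div_le_iff₀ hl0).1 hlo
    have c2 := pow_le_pow_left₀ zero_le_one c1 2
    nlinarith
  have key := hS D lam ω A (ball 0 (n + 7 * h)) 0 α 0 hZ hα1 le_rfl (fun g _ hg _ => by
    rw [add_zero]
    refine (sum_le_sum_of_subset_of_nonneg (filter_subset _ _) fun x _ _ =>
      mul_nonneg (pim_nonneg _ _ _) (sq_nonneg _)).trans ?_
    refine (funA hH hE hD h0 h1 s1 (hG.mono (by rw [sub_self, nrm_zero]; omega)) hw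
      fun x hx => ⟨filter_subset _ _ (hg x hx).1, (hg x hx).2⟩).trans ?_
    have := En_nonneg (lam := lam) (ω := ω) (ball 0 (n + 7 * h)) g
    rw [hα]
    gcongr) n
  rw [zero_add] at key
  have b1 : u ^ 5 ≤ n / (4 * α) := by
    rw [le_div_iff₀ (by positivity), ← hu, hα]
    calc _ = u ^ 5 * (l : ℝ) ^ 2 * (16 * (2 * D + 4) * Wc D h) := by ring
      _ ≤ u ^ 5 * u ^ 2 * u := by gcongr
      _ = u ^ 8 := by ring
  have b2 : exp (-(n / (4 * α))) / pim lam ω 0 ≤ 3 * exp (-u ^ 5) := by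
    have c1 := le_pim (ω := ω) h0.le h1 hZ
    simp only [Pi.zero_apply, Int.cast_zero, mul_zero, exp_zero] at c1
    rw [div_le_iff₀ (by linarith)]
    have c2 : exp (-(n / (4 * α))) ≤ exp (-u ^ 5) := exp_le_exp.2 (by linarith)
    nlinarith [exp_pos (-u ^ 5)]
  have b3 : ∑ z ∈ A, pim lam ω z ≤
      (2 * u ^ 8 + 1) ^ (D + 1) * ((2 * D + 4) * exp (2 * u ^ 4)) := by
    have c1 : ∀ z ∈ A, pim lam ω z ≤ (2 * D + 4) * exp (2 * u ^ 4) := fun z hz => by
      refine (pim_le h0.le h1 z).trans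
        (mul_le_mul_of_nonneg_left (exp_le_exp.2 ?_) (by positivity))
      have d1 : ((z 0 : ℤ) : ℝ) ≤ m := by exact_mod_cast (mem_filter.1 hz).2
      have d2 : (0 : ℝ) ≤ m := Nat.cast_nonneg m
      nlinarith
    refine (sum_le_card_nsmul _ _ _ c1).trans ?_
    rw [nsmul_eq_mul]
    refine mul_le_mul_of_nonneg_right ?_ (by positivity)
    have c2 := (card_filter_le (ball (0 : V D) n) fun y => y 0 ≤ m).trans_eq (card_ball 0 n)
    rw [hu]
    exact_mod_cast c2
  obtain ⟨-, -, p3, -, p5, -, -⟩ := hP D lam ω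
  have b4 : (∑ z ∈ A, pk lam ω A n 0 z) ^ 2 ≤
      (∑ z ∈ A, pim lam ω z) * ∑ z ∈ A, pk lam ω A n 0 z ^ 2 / pim lam ω z := by
    refine sum_sq_le_sum_mul_sum_of_sq_eq_mul A (fun z _ => pim_nonneg _ _ _)
      (fun z _ => div_nonneg (sq_nonneg _) (pim_nonneg _ _ _)) fun z _ => ?_
    by_cases hz : pk lam ω A n 0 z = 0
    · simp [hz]
    · have : 0 < pim lam ω z :=
        mul_pos (exp_pos _) (Zq_pos_of_conn (p5 _ _ _ _ hz).2.2.1 hZ)
      field_simp
  have b5 : ∑ z ∈ A, pk lam ω A n 0 z ≤ 1 / (n : ℝ) ^ 9 := by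
    refine le_of_pow_le_pow_left₀ (n := 2) (by norm_num) (by positivity) (b4.trans ?_)
    rw [← hu]
    refine le_trans ?_ (num D (hlr.trans u1))
    exact mul_le_mul b3 (key.trans b2)
      (sum_nonneg fun z _ => div_nonneg (sq_nonneg _) (pim_nonneg _ _ _)) (by positivity)
  set T := (Speed.lists D n).filter fun u => ∀ k ≤ n, H u k ≤ m with hT
  have e1 : {u : List (Step D) | u.length = n ∧ ∀ k ≤ n, H u k ≤ m} = (T : Set _) := by
    ext v; simp [hT, Speed.mem_lists]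
  rw [e1, SS_coe]
  simp only [W_eq_wr]
  rw [← ENNReal.ofReal_sum_of_nonneg fun v _ => wr_nonneg v 0]
  refine ENNReal.ofReal_le_ofReal (le_trans ?_ b5)
  rw [← p3, Speed.Qx_eq, hT, sum_filter]
  refine sum_le_sum fun v _ => ?_
  rw [← wr_eq_W]
  split_ifs with hv
  · rw [ind_pos, mul_one]
    intro i hi
    rw [zero_add, hA, mem_filter, mem_ball, sub_zero]
    exact ⟨(nrm_loc_le v i).trans hi, hv i hi⟩
  · exact mul_nonneg (wr_nonneg v 0) (ind_nonneg _)

end Pool.Agent.MP_8c549f_pr.L2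

end

end Part1

-- ======== part 2: SlabS
section Part2

/-! PROJECT L2, row Slab. -/

noncomputable section

namespace Pool.Agent.MP_8c549f_pr.L2

open MeasureTheory Finset Real Classical S3
open scoped ENNReal

namespace SlabS

variable {D : ℕ}

theorem op_closed {ω : Cfg D} {e : Edge D} (h : op ω e = false) : ω e = false := by
  unfold op at h
  split_ifs at h
  unfold plus at h
  by_cases c : e = edge 0 (bck D)
  · rw [c, Function.update_self] at h; cases h
  · rwa [Function.update_of_ne c] at h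

theorem gd_op {ω : Cfg D} {y : V D} {R h : ℕ} (hG : Gd ω y R h) : Gd (op ω) y R h := by
  have hb : ∀ v, badS (op ω) v → badS ω v := fun v ⟨s, hs⟩ => ⟨s, op_closed hs⟩
  rintro v hv ⟨h1, c, h2, h3⟩
  refine hG v hv ⟨hb v h1, c, h2, ?_⟩
  clear h2
  induction h3 with
  | refl => exact Relation.ReflTransGen.refl
  | tail _ hab ih => exact ih.tail ⟨hab.1, hb _ hab.2⟩

theorem op_edge (ω : Cfg D) {x : V D} (hx : 0 ≤ x 0) (s : Step D) :
    plus ω (edge x s) = op ω (edge x s) := by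
  unfold op
  rw [if_neg]
  unfold edge
  by_cases c : s.2 = true
  · rw [if_pos c]; simp only; omega
  · rw [if_neg c]
    by_cases c0 : s.1 = 0
    · simp only [c0, Pi.sub_apply, Pi.single_eq_same, ne_eq, not_true_eq_false, and_false, or_false]
      omega
    · have : (Pi.single s.1 1 : V D) 0 = 0 := Pi.single_eq_of_ne (fun e => c0 e.symm) _
      simp only [Pi.sub_apply, this]
      omega

theorem bad_le {p : ℝ} (h0 : 0 ≤ p) (h1 : p ≤ 1) {n : ℕ} (hn : 5 ≤ n)
    (hP : ∀ v : V D, (perc D p).real {ω | Ch ω v (hh n)} ≤ 1 / (n : ℝ) ^ (2 * (D + 1) + 9)) :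
    (perc D p).real {ω | ¬ Gd ω 0 (2 * n) (hh n)} ≤ 1 / (n : ℝ) ^ 9 := by
  have := perc_prob D h0 h1
  have hs : {ω : Cfg D | ¬ Gd ω 0 (2 * n) (hh n)} ⊆
      ⋃ v ∈ S3.ball (0 : V D) (2 * n), {ω | Ch ω v (hh n)} := by
    intro ω hω
    simp only [Gd, Set.mem_ofPred_eq, not_forall, not_not] at hω
    obtain ⟨v, hv, hc⟩ := hω
    exact Set.mem_biUnion (mem_coe.2 (S3.mem_ball.2 hv)) hc
  have hn' : (5 : ℝ) ≤ n := by exact_mod_cast hn
  have hc : ((S3.ball (0 : V D) (2 * n)).card : ℝ) ≤ (n : ℝ) ^ (2 * (D + 1)) := by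
    rw [S3.card_ball, pow_mul]
    push_cast
    exact pow_le_pow_left₀ (by positivity) (by nlinarith) _
  calc _ ≤ _ := measureReal_mono hs (measure_ne_top _ _)
    _ ≤ _ := measureReal_biUnion_finset_le _ _
    _ ≤ ∑ _v ∈ S3.ball (0 : V D) (2 * n), 1 / (n : ℝ) ^ (2 * (D + 1) + 9) :=
        sum_le_sum fun v _ => hP v
    _ = ((S3.ball (0 : V D) (2 * n)).card : ℝ) * (1 / (n : ℝ) ^ (2 * (D + 1) + 9)) := by
        rw [sum_const, nsmul_eq_mul]
    _ ≤ (n : ℝ) ^ (2 * (D + 1)) * (1 / (n : ℝ) ^ (2 * (D + 1) + 9)) :=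
        mul_le_mul_of_nonneg_right hc (by positivity)
    _ = 1 / (n : ℝ) ^ 9 := by rw [pow_add]; field_simp

end SlabS

open SlabS in
theorem slabS (hP : PeiLStmt) (hQ : QSStmt) (hN : NICEFStmt) : SLABStmt := by
  intro D hD
  obtain ⟨e₀, he, hP⟩ := hP D (2 * (D + 1) + 9)
  obtain ⟨l₀, hQ⟩ := hQ D hD
  refine ⟨e₀, max l₀ 2, he, fun p lam l m n hp h1 h0 hl hlo hhi hn hm => ?_⟩
  have l2 : 2 ≤ l := le_trans (le_max_right _ _) hl
  have n5 : 5 ≤ n := le_trans (le_trans (by norm_num) (Nat.pow_le_pow_left l2 8)) hn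
  have hb := bad_le h0 h1 n5 fun v => hP p hp h1 h0 v n (by omega)
  refine ⟨hb, ?_⟩
  have := perc_prob D h0 h1
  have n5' : (5 : ℝ) ≤ n := by exact_mod_cast n5
  set A : Set (List (Step D)) := {l | l.length = n ∧ ∀ k ≤ n, 0 ≤ H l k ∧ H l k ≤ m} with hA
  set S : Set (Cfg D) := {ω | ¬ Gd ω 0 (2 * n) (hh n)} with hS
  have hpt : ∀ ω, SS A (W lam (cfg true ω) 0) ≤
      ENNReal.ofReal (1 / (n : ℝ) ^ 9) + S.indicator 1 ω := by
    intro ω
    by_cases c : ω ∈ S
    · rw [Set.indicator_of_mem c]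
      refine le_trans (kraft lam _ (fun u hu v hv huv => ?_) 0) le_add_self
      exact huv.eq_of_length (hu.1.trans hv.1.symm)
    · have hG : Gd ω 0 (2 * n) (hh n) := not_not.1 c
      refine le_trans ?_ le_self_add
      refine le_trans ?_
        (hQ l m n lam (op ω) (le_trans (le_max_left _ _) hl) hlo hhi hn hm (gd_op hG)
          ((hN D 0 0 (hh n) 0).2.2.2.2.2 ω).2)
      refine SS_mono (fun u hu => ⟨hu.1, fun k hk => (hu.2 k hk).2⟩) fun u hu => ?_
      refine (W_congr lam u 0 fun i hi s => ?_).le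
      have h2 : 0 ≤ ((0 : V D) + loc u i) 0 := by
        rw [zero_add]; exact (hu.2 i (by have := hu.1; omega)).1
      exact op_edge ω h2 s
  have hμ : perc D p S ≤ ENNReal.ofReal (1 / (n : ℝ) ^ 9) := by
    rw [← ofReal_measureReal (measure_ne_top _ _)]
    exact ENNReal.ofReal_le_ofReal hb
  calc Sl D p lam m n = ∫⁻ ω, SS A (W lam (cfg true ω) 0) ∂perc D p := SS_wb _ _ _ _
    _ ≤ ∫⁻ ω, (ENNReal.ofReal (1 / (n : ℝ) ^ 9) + S.indicator 1 ω) ∂perc D p := lintegral_mono hpt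
    _ = ENNReal.ofReal (1 / (n : ℝ) ^ 9) + ∫⁻ ω, S.indicator 1 ω ∂perc D p := by
        rw [lintegral_add_left measurable_const, lintegral_const, measure_univ, mul_one]
    _ ≤ ENNReal.ofReal (1 / (n : ℝ) ^ 9) + ENNReal.ofReal (1 / (n : ℝ) ^ 9) :=
        add_le_add le_rfl ((lintegral_indicator_one_le S).trans hμ)
    _ = ENNReal.ofReal (1 / (n : ℝ) ^ 9 + 1 / (n : ℝ) ^ 9) :=
        (ENNReal.ofReal_add (by positivity) (by positivity)).symm
    _ ≤ _ := by
        refine ENNReal.ofReal_le_ofReal ?_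
        rw [← add_div, div_le_div_iff₀ (by positivity) (by positivity)]
        have h8 : (0 : ℝ) < (n : ℝ) ^ 8 := by positivity
        have h9 : (n : ℝ) ^ 9 = n * (n : ℝ) ^ 8 := by ring
        rw [h9]; nlinarith

end Pool.Agent.MP_8c549f_pr.L2

end

end Part2

-- ======== part 3: Ret0
section Part3

/-! PROJECT L2: returns below the start after reaching the level `i`. -/

noncomputable section

namespace Pool.Agent.MP_8c549f_pr.L2

open MeasureTheory Finset Real Classical S3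
open scoped ENNReal

namespace Ret0

variable {D : ℕ}

theorem antich (i : ℕ) : Antich (RetSet D i) := by
  rintro u hu l hl ⟨t, rfl⟩
  by_contra hne
  have ht : t ≠ [] := fun h => hne (by simp [h])
  have h1 := (hl.2.1 u.length (by simpa using List.length_pos_iff.2 ht)).1
  rw [H_append_left t le_rfl, H_of_le le_rfl, hu.1] at h1
  omega

theorem fibre (lam : ℝ) (ω : Cfg D) (y z : V D) (k : ℕ) (T : Finset (List (Step D)))
    (hT : ∀ t ∈ T, t.length = k ∧ y + pos t = z) :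
    ∑ t ∈ T, wr lam ω y t ≤ pf lam ω k y z := by
  rw [pf, Speed.Qx_eq]
  calc ∑ t ∈ T, wr lam ω y t
      = ∑ t ∈ T, (W lam ω y t).toReal * S3.ind (y + pos t = z) :=
        sum_congr rfl fun t ht => by rw [ind_pos (hT t ht).2, mul_one, wr_eq_W]
    _ ≤ _ := sum_le_sum_of_subset_of_nonneg (fun t ht => Speed.mem_lists.2 (hT t ht).1)
        fun t _ _ => mul_nonneg ENNReal.toReal_nonneg (by unfold S3.ind; split_ifs <;> norm_num)

theorem down (hP : PkStmt) {lam : ℝ} (h0 : 0 ≤ lam) (h1 : lam ≤ 1) (ω : Cfg D) (y : V D)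
    (i n : ℕ) : SS {t : List (Step D) | t.length ≤ n ∧ lev t = -(i + 1 : ℤ)} (W lam ω y) ≤
      ENNReal.ofReal (20 * (D + 1) * (n + 1) * (2 * n + 1) ^ (D + 1) * exp (-(2 * lam * i))) := by
  set T : Finset (List (Step D)) :=
    (List.finite_length_le (Step D) n).toFinset.filter fun t => lev t = -(i + 1 : ℤ) with hT
  have hm : ∀ t, t ∈ T ↔ t.length ≤ n ∧ lev t = -(i + 1 : ℤ) := fun t => by simp [hT]
  have e : {t : List (Step D) | t.length ≤ n ∧ lev t = -(i + 1 : ℤ)} = (T : Set (List (Step D))) :=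
    Set.ext fun t => (hm t).symm
  rw [e, SS_coe]
  simp only [W_eq_wr]
  rw [← ENNReal.ofReal_sum_of_nonneg fun l _ => wr_nonneg l y]
  refine ENNReal.ofReal_le_ofReal ?_
  have hmap : ∀ t ∈ T, (t.length, y + pos t) ∈ range (n + 1) ×ˢ ball y n := fun t ht => by
    have h := ((hm t).1 ht).1
    refine mem_product.2 ⟨mem_range.2 (Nat.lt_succ_of_le h), mem_ball.2 ?_⟩
    rw [add_sub_cancel_left]
    exact (nrm_pos_le t).trans h
  rw [← sum_fiberwise_of_maps_to hmap]
  have hc : (0 : ℝ) ≤ 20 * (D + 1) * exp (-(2 * lam * i)) := by positivity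
  refine (sum_le_card_nsmul _ _ (20 * (D + 1) * exp (-(2 * lam * i))) fun q _ => ?_).trans ?_
  · rcases (T.filter fun t => (t.length, y + pos t) = q).eq_empty_or_nonempty with h | ⟨t, ht⟩
    · rw [h, sum_empty]; exact hc
    · obtain ⟨ht1, ht2⟩ := mem_filter.1 ht
      refine (fibre lam ω y q.2 q.1 _ fun u hu => ?_).trans
        (((hP D lam ω).2.2.2.2.2.2 h0 h1 _ _ _).trans ?_)
      · have := (mem_filter.1 hu).2
        exact ⟨congrArg Prod.fst this, congrArg Prod.snd this⟩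
      · have e1 : q.2 0 = y 0 + -(i + 1 : ℤ) := by
          rw [← ht2, ← ((hm t).1 ht1).2]; rfl
        refine mul_le_mul_of_nonneg_left (exp_le_exp.2 ?_) (by positivity)
        rw [e1]
        push_cast
        nlinarith
  · rw [card_product, card_range, card_ball, nsmul_eq_mul]
    push_cast
    exact le_of_eq (by ring)

theorem short (hP : PkStmt) {lam : ℝ} (h0 : 0 ≤ lam) (h1 : lam ≤ 1) (ω : Cfg D) (i n : ℕ) :
    SS (RetSet D i \ {l | n < l.length}) (W lam ω 0) ≤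
      ENNReal.ofReal (20 * (D + 1) * (n + 1) * (2 * n + 1) ^ (D + 1) * exp (-(2 * lam * i))) := by
  refine (LatM.cover_fac (P := {l | Rec l ∧ lev l = (i : ℤ)}) _ (fun l hl => ?_) fun u hu => ?_).trans
    ((mul_le_mul_right (kraft lam ω (antich_rec i) 0) _).trans (mul_one _).le)
  · obtain ⟨k, hk, hki⟩ := hl.1.2.2
    obtain ⟨t, htk, ht, hlt⟩ := exists_first_hit (H l) (fun j => (H_step l j).2) (c := i)
      (by simp) (n := k) hki.ge
    have hlen : (l.take t).length = t := by rw [List.length_take]; omega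
    refine ⟨l.take t, ⟨fun j hj => ?_, by rw [lev_take, ht]⟩, ⟨l.drop t, List.take_append_drop t l⟩⟩
    rw [hlen] at hj
    rw [H_take l hj.le, lev_take, ht]
    exact hlt j hj
  · simp only [W_append]
    rw [SS_mul_left, mul_comm]
    refine mul_le_mul_left (le_trans (SS_mono (fun t ht => ?_) fun _ _ => le_rfl)
      (down hP h0 h1 ω (0 + pos u) i n)) _
    have a1 : (u ++ t).length ≤ n := not_lt.1 ht.2
    have a2 := ht.1.1
    rw [lev_append, hu.2] at a2
    rw [List.length_append] at a1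
    exact ⟨by omega, by omega⟩

end Ret0

theorem ret0 (hP : PkStmt) : RET0Stmt := by
  intro D p lam i n p0 p1 h0 h1
  have := perc_prob D p0 p1
  rw [Ret, SS_split _ {l | n < l.length}]
  refine add_le_add ?_ ?_
  · refine cover_wb true p lam ((Ret0.antich i).mono Set.inter_subset_left) fun l hl => ?_
    have hn : n < l.length := hl.2
    refine ⟨l.take n, ⟨by rw [List.length_take]; omega, fun k hk => ?_⟩,
      ⟨l.drop n, List.take_append_drop n l⟩⟩
    rw [H_take l hk]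
    exact hl.1.2.1 k (by omega)
  · rw [SS_wb]
    exact (lintegral_mono fun ω => Ret0.short hP h0 h1 _ i n).trans (by simp)

end Pool.Agent.MP_8c549f_pr.L2

end

end Part3

-- ======== part 4: Ret1
section Part4

/-! PROJECT L2: exponential bound on the returns below the starting level. -/

noncomputable section

namespace Pool.Agent.MP_8c549f_pr.L2

open MeasureTheory Finset Real Classical S3
open scoped ENNReal

namespace Ret1

theorem antich_ret (D i : ℕ) : Antich (RetSet D i) := by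
  rintro u ⟨hu, _⟩ l ⟨_, hl, _⟩ ⟨t, rfl⟩
  by_contra hne
  have ht : t ≠ [] := fun h => hne (by simp [h])
  have h1 := (hl u.length (by simpa using List.length_pos_iff.2 ht)).1
  rw [H_append_left t le_rfl, H_of_le le_rfl] at h1
  omega

theorem sq_le_exp {u c x : ℝ} (hu : 0 ≤ u) (hc : 0 ≤ c) (hx : 3 * c ≤ x) (h : x ^ 8 ≤ exp u) :
    (u * (c * x)) ^ 2 ≤ exp u := by
  have hx0 : 0 ≤ x := by linarith
  have e1 : exp u = exp (u / 2) ^ 2 := by
    rw [← Real.exp_nat_mul]; congr 1; push_cast; ring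
  have h1 : x ^ 4 ≤ exp (u / 2) := by
    refine (pow_le_pow_iff_left₀ (by positivity) (exp_pos _).le two_ne_zero).1 ?_
    rw [← e1, ← pow_mul]; exact h
  have h2 : (u / 2) ^ 2 / 2 ≤ exp (u / 2) := by
    have := Real.quadratic_le_exp_of_nonneg (x := u / 2) (by linarith)
    nlinarith
  have h3 : 8 * c ^ 2 ≤ x ^ 2 := by nlinarith
  have h4 : (u * (c * x)) ^ 2 ≤ x ^ 4 * ((u / 2) ^ 2 / 2) := by
    have : 0 ≤ u ^ 2 * x ^ 2 * (x ^ 2 - 8 * c ^ 2) := by
      apply mul_nonneg (by positivity); linarith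
    nlinarith
  calc (u * (c * x)) ^ 2 ≤ x ^ 4 * ((u / 2) ^ 2 / 2) := h4
    _ ≤ exp (u / 2) * exp (u / 2) := by
        apply mul_le_mul h1 h2 (by positivity) (exp_pos _).le
    _ = exp u := by rw [e1]; ring

theorem second {D : ℕ} {u n v : ℝ} (hu : 0 ≤ u) (hn0 : 0 ≤ n) (hn : n ≤ exp u + 1)
    (hv : 2 * (D + 2) * u ≤ v) :
    (n + 1) * (2 * n + 1) ^ (D + 1) * exp (-v) ≤ 5 ^ (D + 2) * exp (-u) := by
  have h1 : 1 ≤ exp u := Real.one_le_exp hu
  have a1 : n + 1 ≤ 5 * exp u := by linarith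
  have a2 : (2 * n + 1) ^ (D + 1) ≤ (5 * exp u) ^ (D + 1) :=
    pow_le_pow_left₀ (by linarith) (by linarith) _
  have a3 : (n + 1) * (2 * n + 1) ^ (D + 1) ≤ (5 * exp u) ^ (D + 2) := by
    rw [pow_succ' (5 * exp u) (D + 1)]
    exact mul_le_mul a1 a2 (by positivity) (by positivity)
  have a4 : exp u ^ (D + 2) * exp (-v) ≤ exp (-u) := by
    rw [← Real.exp_nat_mul, ← Real.exp_add]
    apply Real.exp_le_exp.2
    push_cast
    have : (0 : ℝ) ≤ D * u := mul_nonneg (Nat.cast_nonneg D) hu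
    nlinarith
  calc (n + 1) * (2 * n + 1) ^ (D + 1) * exp (-v) ≤ (5 * exp u) ^ (D + 2) * exp (-v) :=
        mul_le_mul_of_nonneg_right a3 (exp_pos _).le
    _ = 5 ^ (D + 2) * (exp u ^ (D + 2) * exp (-v)) := by rw [mul_pow]; ring
    _ ≤ 5 ^ (D + 2) * exp (-u) := mul_le_mul_of_nonneg_left a4 (by positivity)

end Ret1

theorem ret1 (hS : SLABStmt) (h0 : RET0Stmt) : RET1Stmt := by
  intro D hD
  obtain ⟨e₀, l₁, he, hS⟩ := hS D hD
  refine ⟨e₀, l₁ + 3 * (D + 2) + (1 + 20 * (D + 1) * 5 ^ (D + 2)), he, ?_⟩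
  intro p lam l i hp hp1 hp0 hl hlam hlam1
  have hl1 : l₁ ≤ l := by omega
  have hl2 : 3 * ((D : ℝ) + 2) ≤ l := by
    have : 3 * (D + 2) ≤ l := by omega
    exact_mod_cast this
  have hl3 : 1 + 20 * ((D : ℝ) + 1) * 5 ^ (D + 2) ≤ l := by
    have : 1 + 20 * (D + 1) * 5 ^ (D + 2) ≤ l := by omega
    exact_mod_cast this
  have hD0 : (0 : ℝ) ≤ D := Nat.cast_nonneg D
  have hl0 : (1 : ℝ) ≤ l := by linarith
  have hlam0 : 0 ≤ lam := le_trans (by positivity) hlam
  obtain ⟨u, hu⟩ : ∃ u : ℝ, u = i / ((D + 2) * (l : ℝ)) := ⟨_, rfl⟩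
  rw [← hu]
  have hu0 : 0 ≤ u := by rw [hu]; positivity
  have hi : (i : ℝ) = u * ((D + 2) * (l : ℝ)) := by
    rw [hu]; field_simp
  by_cases hc : exp u ≤ (l : ℝ) ^ 8
  · refine (kraft_wb true hp0 hp1 lam (Ret1.antich_ret D i)).trans ?_
    rw [ENNReal.one_le_ofReal, Real.exp_neg, ← div_eq_mul_inv, one_le_div (exp_pos u)]
    exact hc
  · have hc' : (l : ℝ) ^ 8 ≤ exp u := (not_le.1 hc).le
    obtain ⟨n, hn⟩ : ∃ n : ℕ, n = ⌈exp u⌉₊ := ⟨_, rfl⟩
    have hn1 : exp u ≤ n := by rw [hn]; exact Nat.le_ceil _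
    have hn2 : (n : ℝ) ≤ exp u + 1 := by rw [hn]; exact (Nat.ceil_lt_add_one (exp_pos u).le).le
    have h8 : l ^ 8 ≤ n := by
      have : (l : ℝ) ^ 8 ≤ n := hc'.trans hn1
      exact_mod_cast this
    have h2 : i ^ 2 ≤ n := by
      have : (i : ℝ) ^ 2 ≤ n := by
        rw [hi]
        exact (Ret1.sq_le_exp hu0 (by linarith) hl2 hc').trans hn1
      exact_mod_cast this
    have hA := (hS p lam l i n hp hp1 hp0 hl1 hlam hlam1 h8 h2).2
    have hB := h0 D p lam i n hp0 hp1 hlam0 hlam1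
    have e1 : 1 ≤ exp u := Real.one_le_exp hu0
    have hn0 : (1 : ℝ) ≤ n := e1.trans hn1
    have b1 : 1 / (n : ℝ) ^ 8 ≤ exp (-u) := by
      rw [Real.exp_neg, ← one_div]
      apply one_div_le_one_div_of_le (exp_pos u)
      exact hn1.trans (le_self_pow₀ hn0 (by norm_num))
    have hv : 2 * ((D : ℝ) + 2) * u ≤ 2 * lam * i := by
      have t1 : 1 ≤ lam * l := by
        rwa [div_le_iff₀ (by linarith)] at hlam
      have t2 : 0 ≤ 2 * ((D : ℝ) + 2) * u := by positivity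
      rw [hi]
      nlinarith
    have b2 := Ret1.second (D := D) hu0 (by linarith : (0 : ℝ) ≤ n) hn2 hv
    have b3 : 20 * ((D : ℝ) + 1) * (n + 1) * (2 * n + 1) ^ (D + 1) * exp (-(2 * lam * i)) ≤
        20 * (D + 1) * 5 ^ (D + 2) * exp (-u) := by
      have := mul_le_mul_of_nonneg_left b2 (by positivity : (0 : ℝ) ≤ 20 * ((D : ℝ) + 1))
      calc _ = 20 * ((D : ℝ) + 1) * ((n + 1) * (2 * n + 1) ^ (D + 1) * exp (-(2 * lam * i))) := by
            ring
        _ ≤ _ := this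
        _ = _ := by ring
    refine hB.trans ((add_le_add hA le_rfl).trans ?_)
    rw [← ENNReal.ofReal_add (by positivity) (by positivity)]
    apply ENNReal.ofReal_le_ofReal
    have b4 : (l : ℝ) ≤ (l : ℝ) ^ 8 := le_self_pow₀ hl0 (by norm_num)
    have b5 : (1 + 20 * ((D : ℝ) + 1) * 5 ^ (D + 2)) * exp (-u) ≤ (l : ℝ) ^ 8 * exp (-u) :=
      mul_le_mul_of_nonneg_right (hl3.trans b4) (exp_pos _).le
    linarith

end Pool.Agent.MP_8c549f_pr.L2

end

end Part4

-- ======== part 5: Last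
section Part5

/-! PROJECT L2: decomposition at the last entrance above the starting level. -/

noncomputable section

namespace Pool.Agent.MP_8c549f_pr.L2

open MeasureTheory Finset Real Classical S3
open scoped ENNReal

namespace Last

variable {D : ℕ}

/-- cut a record path at the last visit of the levels at most zero -/
theorem split {u : List (Step D)} {k : ℕ} (hr : Rec u) (hl : lev u = (k + 1 : ℕ)) :
    ∃ a t : List (Step D), u = a ++ fwd D :: t ∧ t ∈ FPS D k := by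
  set j := Nat.findGreatest (fun i => H u i ≤ 0) u.length with hj
  have h0 : H u j ≤ 0 :=
    Nat.findGreatest_spec (P := fun i => H u i ≤ 0) (Nat.zero_le u.length) (by simp)
  have hle : j ≤ u.length := Nat.findGreatest_le _
  have hgt : ∀ i, j < i → i ≤ u.length → 1 ≤ H u i := fun i h1 h2 => by
    have := Nat.findGreatest_is_greatest (P := fun i => H u i ≤ 0) h1 h2
    simp only [not_le] at this
    omega
  have hlt : j < u.length := by
    refine lt_of_le_of_ne hle fun h => ?_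
    rw [h, H_length, hl] at h0
    omega
  have h1 : 1 ≤ H u (j + 1) := hgt _ (Nat.lt_succ_self _) hlt
  have h2 := (H_step u j).2
  have h3 : H u (j + 1) = 1 := by omega
  have h4 : u[j] = fwd D := by
    rw [← vec_zero_eq_one]
    have := H_succ hlt
    omega
  have hH : ∀ i, H (u.drop (j + 1)) i = H u (j + 1 + i) - 1 := fun i => by
    rw [H_drop, h3]; ring
  have hlen : (u.drop (j + 1)).length = u.length - (j + 1) := List.length_drop
  have hlev : lev (u.drop (j + 1)) = k := by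
    rw [← H_length, hH, hlen, Nat.add_sub_cancel' hlt, H_length, hl]
    push_cast; ring
  refine ⟨u.take j, u.drop (j + 1), ?_, ?_, ?_, hlev⟩
  · rw [← h4, ← List.drop_eq_getElem_cons hlt, List.take_append_drop]
  · intro i hi
    have := hgt (j + 1 + i) (by omega) (by omega)
    rw [hH]; omega
  · intro i hi
    have := hr (j + 1 + i) (by omega)
    rw [hH, hlev]
    rw [hl] at this
    push_cast at this
    omega

/-- the weight of the continuations after a forward step -/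
theorem cont (lam : ℝ) (ω : Cfg D) (A : Set (List (Step D))) (a : List (Step D)) :
    SS A (fun t => W lam ω 0 (a ++ fwd D :: t)) ≤
      W lam ω 0 a * SS A (W lam (plus (shift (pos a + vec (fwd D)) ω)) 0) := by
  rw [← SS_mul_left]
  refine SS_mono subset_rfl fun t _ => ?_
  rw [W_append, W_cons, zero_add]
  refine mul_le_mul_right ?_ _
  by_cases ho : ω (edge (pos a) (fwd D)) = true
  · have hp : plus (shift (pos a + vec (fwd D)) ω) = shift (pos a + vec (fwd D)) ω := by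
      refine Function.update_eq_self_iff.2 ?_
      rw [shift_edge, zero_add]
      have := edge_rev (pos a) (fwd D)
      rw [show rev (fwd D) = bck D from rfl] at this
      rw [this, ho]
    rw [hp, W_shift, zero_add]
    exact mul_le_of_le_one_left' (ENNReal.ofReal_le_one.2 (pr_le_one _ _ _ _))
  · rw [pr_of_closed lam (by simpa using ho)]; simp

theorem short (lam : ℝ) (ω : Cfg D) (n : ℕ) :
    SS {a : List (Step D) | a.length < n} (W lam ω 0) ≤ n := by
  calc SS {a : List (Step D) | a.length < n} (W lam ω 0)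
      ≤ SS (⋃ j : Fin n, {a : List (Step D) | a.length = j}) (W lam ω 0) :=
        SS_mono (fun a ha => Set.mem_iUnion.2 ⟨⟨a.length, ha⟩, rfl⟩) fun _ _ => le_rfl
    _ ≤ ∑' j : Fin n, SS {a : List (Step D) | a.length = j} (W lam ω 0) := SS_iUnion_le _ _
    _ ≤ ∑' _j : Fin n, (1 : ℝ≥0∞) :=
        ENNReal.tsum_le_tsum fun j => kraft lam ω (antich_length j) 0
    _ = n := by simp

theorem quenched (lam : ℝ) (ω : Cfg D) (k n : ℕ) :
    SS {u : List (Step D) | u.length ≤ n ∧ Rec u ∧ lev u = (k + 1 : ℕ)} (W lam ω 0) ≤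
      n * ∑ y ∈ ball (0 : V D) n, SS (FPS D k) (W lam (plus (shift y ω)) 0) := by
  set G := ∑ y ∈ ball (0 : V D) n, SS (FPS D k) (W lam (plus (shift y ω)) 0) with hG
  set P : Set (List (Step D)) := {a | a.length < n} with hP
  calc SS {u : List (Step D) | u.length ≤ n ∧ Rec u ∧ lev u = (k + 1 : ℕ)} (W lam ω 0)
      ≤ SS (⋃ a : P, (fun t => a.1 ++ fwd D :: t) '' FPS D k) (W lam ω 0) := by
        refine SS_mono (fun u hu => ?_) fun _ _ => le_rfl
        obtain ⟨a, t, rfl, ht⟩ := split hu.2.1 hu.2.2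
        have hn := hu.1
        simp only [List.length_append, List.length_cons] at hn
        exact Set.mem_iUnion.2 ⟨⟨a, show a.length < n by omega⟩, t, ht, rfl⟩
    _ ≤ ∑' a : P, SS ((fun t => a.1 ++ fwd D :: t) '' FPS D k) (W lam ω 0) := SS_iUnion_le _ _
    _ ≤ ∑' a : P, G * W lam ω 0 a.1 := by
        refine ENNReal.tsum_le_tsum fun a => ?_
        rw [SS_image fun t t' h => by simpa using h, mul_comm]
        refine (cont lam ω _ a.1).trans (mul_le_mul_right ?_ _)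
        refine single_le_sum (f := fun y => SS (FPS D k) (W lam (plus (shift y ω)) 0))
          (fun _ _ => zero_le) (mem_ball.2 ?_)
        have h1 := nrm_pos_le (a.1 ++ [fwd D])
        have h2 : a.1.length < n := a.2
        simp only [pos_append, pos_cons, pos_nil, add_zero, List.length_append,
          List.length_cons, List.length_nil] at h1
        rw [sub_zero]; omega
    _ = G * SS P (W lam ω 0) := by rw [ENNReal.tsum_mul_left, SS_eq_tsum_subtype]
    _ ≤ n * G := by rw [mul_comm]; exact mul_le_mul_left (short lam ω n) _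

end Last

theorem last : LASTStmt := by
  intro D p lam k n h0 h1
  have hm : Measurable fun ω : Cfg D => SS (FPS D k) (W lam (plus ω) 0) :=
    measurable_SS fun l => measurable_W_cfg true lam l
  refine (lintegral_mono fun ω => Last.quenched lam ω k n).trans (le_of_eq ?_)
  rw [lintegral_const_mul' _ _ (ENNReal.natCast_ne_top n),
    lintegral_finsetSum (f := fun y ω => SS (FPS D k) (W lam (plus (shift y ω)) 0)) _
      fun y _ => hm.comp (measurable_shift y)]
  have h : ∀ y ∈ ball (0 : V D) n,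
      ∫⁻ ω, SS (FPS D k) (W lam (plus (shift y ω)) 0) ∂perc D p = QQ D p lam k := fun y _ => by
    rw [shft D p h0 h1 (fun ω => SS (FPS D k) (W lam (plus ω) 0)) y hm, QQ, SS_wb]
    rfl
  rw [sum_congr rfl h, sum_const, card_ball, nsmul_eq_mul, Nat.cast_mul, mul_assoc]

end Pool.Agent.MP_8c549f_pr.L2

end

end Part5

-- ======== part 6: Q0S
section Part6

/-! PROJECT L2, row Q0: the walk escapes with a probability that is polynomial in the scale. -/

noncomputable section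

namespace Pool.Agent.MP_8c549f_pr.L2

open MeasureTheory Finset Real Classical S3
open scoped ENNReal

namespace Q0S

variable {D : ℕ}

theorem open_of_inf {ω : Cfg D} (h : ω ∈ InfCl D) : ∃ s, ω (edge 0 s) = true := by
  obtain ⟨c, h1, h2⟩ := inf_iff.1 h 1
  rcases h1.cases_head with rfl | ⟨c', hc, -⟩
  · simp at h2
  · obtain ⟨s, -, hs⟩ := opn_iff.1 hc
    exact ⟨s, hs⟩

/-- a walk of length `n` stays below the level `k` or passes the level `k + 1` -/
theorem split (lam : ℝ) {ω : Cfg D} (h : ω ∈ InfCl D) (k n : ℕ) :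
    1 ≤ SS {u : List (Step D) | u.length = n ∧ ∀ j ≤ n, H u j ≤ k} (W lam ω 0) +
      SS {u : List (Step D) | u.length ≤ n ∧ Rec u ∧ lev u = (k + 1 : ℕ)} (W lam ω 0) := by
  obtain ⟨s, hs⟩ := open_of_inf h
  rw [← SS_length_eq_one lam ω n 0 s hs,
    SS_split {l : List (Step D) | l.length = n} {u | ∀ j ≤ n, H u j ≤ k}]
  refine add_le_add (SS_mono (fun l hl => hl) fun _ _ => le_rfl) ?_
  refine cover_q lam ω 0 ((antich_length n).mono Set.sdiff_subset) fun l hl _ => ?_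
  obtain ⟨h1, h2⟩ := hl
  simp only [Set.mem_ofPred_eq, not_forall, not_le] at h1 h2
  obtain ⟨j, hj, hk⟩ := h2
  obtain ⟨t, t1, t2, t3⟩ := exists_first_hit (H l) (fun i => (H_step l i).2)
    (c := ((k + 1 : ℕ) : ℤ)) (by rw [H_zero]; positivity) (n := j) (by push_cast; omega)
  refine ⟨l.take t, ⟨by simp; omega, fun i hi => ?_, by rw [lev_take, t2]⟩, l.drop t, List.take_append_drop t l⟩
  have hi' : i < t := by simp at hi; omega
  rw [lev_take, t2, H_take l hi'.le]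
  exact t3 i hi'

/-- the geometric tail -/
theorem tail {A u : ℝ} (hA : 0 ≤ A) (hu : 0 < u) (hu1 : u ≤ 1) (k : ℕ) :
    ∑' i : ℕ, ENNReal.ofReal (A * exp (-(((i + k : ℕ) : ℝ) * u))) ≤
      ENNReal.ofReal (A * exp (-(k * u)) * (2 / u)) := by
  have h0 : 0 ≤ exp (-u) := (exp_pos _).le
  have h1 : exp (-u) < 1 := by rw [exp_lt_one_iff]; linarith
  have e : ∀ i : ℕ, A * exp (-(((i + k : ℕ) : ℝ) * u)) = A * exp (-(k * u)) * exp (-u) ^ i := by
    intro i
    rw [← exp_nat_mul, mul_assoc, ← exp_add]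
    congr 2
    push_cast
    ring
  simp only [e]
  rw [← ENNReal.ofReal_tsum_of_nonneg (fun i => by positivity)
    ((summable_geometric_of_lt_one h0 h1).mul_left _), tsum_mul_left,
    tsum_geometric_of_lt_one h0 h1]
  refine ENNReal.ofReal_le_ofReal (mul_le_mul_of_nonneg_left ?_ (by positivity))
  have h2 : exp (-u) * (1 + u) ≤ 1 := by
    have := add_one_le_exp u
    calc exp (-u) * (1 + u) ≤ exp (-u) * exp u :=
          mul_le_mul_of_nonneg_left (by linarith) h0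
      _ = 1 := by rw [← exp_add]; simp
  rw [inv_eq_one_div, div_le_div_iff₀ (by linarith) hu]
  nlinarith

/-- the tail is small for large scales -/
theorem small (D K : ℕ) : ∃ l₀ : ℕ, ∀ l : ℕ, l₀ ≤ l →
    (l : ℝ) ^ K * (2 * (D + 2)) * exp (-(l / ((D : ℝ) + 2))) ≤ 1 := by
  have hd : (0 : ℝ) < (D : ℝ) + 2 := by positivity
  have h1 := (tendsto_pow_mul_exp_neg_atTop_nhds_zero K).comp
    (Filter.Tendsto.atTop_div_const hd tendsto_natCast_atTop_atTop)
  have h2 := h1.const_mul (((D : ℝ) + 2) ^ K * (2 * (D + 2)))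
  rw [mul_zero] at h2
  obtain ⟨l₀, h⟩ := Filter.eventually_atTop.1 (h2.eventually (gt_mem_nhds one_pos))
  refine ⟨l₀, fun l hl => le_of_eq_of_le ?_ (h l hl).le⟩
  simp only [Function.comp, div_pow]
  field_simp

end Q0S

theorem q0S (hF : FcpStmt) (hQ : QSStmt) (hS : SLABStmt) (hL : LASTStmt) (hR : RET1Stmt)
    (hU : QFStmt) : Q0Stmt := by
  intro D hD
  obtain ⟨e₁, he₁, hF⟩ := hF D hD 2
  obtain ⟨l₁, hQ⟩ := hQ D hD
  obtain ⟨e₂, l₂, he₂, hS⟩ := hS D hD
  obtain ⟨e₃, l₃, he₃, hR⟩ := hR D hD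
  obtain ⟨l₄, h4⟩ := Q0S.small D (9 * D + 19 + 9)
  refine ⟨min e₁ (min e₂ e₃), 9 * D + 19, max 3 (max l₁ (max l₂ (max l₃ l₄))),
    lt_min he₁ (lt_min he₂ he₃), fun p lam l hp hp1 hp0 hl hlam hlam1 => ?_⟩
  have := perc_prob D hp0 hp1
  simp only [max_le_iff] at hl
  obtain ⟨a3, a1, a2, a3', a4⟩ := hl
  have p1 : 1 - e₁ ≤ p := by linarith [min_le_left e₁ (min e₂ e₃)]
  have p2 : 1 - e₂ ≤ p := by linarith [min_le_right e₁ (min e₂ e₃), min_le_left e₂ e₃]
  have p3 : 1 - e₃ ≤ p := by linarith [min_le_right e₁ (min e₂ e₃), min_le_right e₂ e₃]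
  have hl3 : (3 : ℝ) ≤ l := by exact_mod_cast a3
  have hl0 : (0 : ℝ) < l := by linarith
  set K := 9 * D + 19 with hK
  set k := l ^ 2 with hk
  set n := l ^ 8 with hn
  have hkn : k ^ 2 ≤ n := by
    rw [hk, hn, ← pow_mul]; exact Nat.pow_le_pow_right (by omega) (by norm_num)
  have hn2 : (2 : ℝ) ≤ n := by
    have h1 : l ≤ l ^ 8 := Nat.le_self_pow (by norm_num) l
    have : 2 ≤ n := (show 2 ≤ l by omega).trans h1
    exact_mod_cast this
  have hn9 : 1 / (n : ℝ) ^ 9 ≤ 1 / 8 := by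
    refine one_div_le_one_div_of_le (by norm_num) ?_
    calc (8 : ℝ) ≤ 2 ^ 9 := by norm_num
      _ ≤ (n : ℝ) ^ 9 := pow_le_pow_left₀ (by norm_num) hn2 9
  -- the lower bound for the first passage
  let F : Cfg D → ℝ≥0∞ := fun ω =>
    SS {u : List (Step D) | u.length ≤ n ∧ Rec u ∧ lev u = (k + 1 : ℕ)} (W lam ω 0)
  have mF : Measurable F := measurable_SS fun u => measurable_W lam 0 u
  let B₁ : Set (Cfg D) := {ω | ¬ Gd ω 0 (2 * n) (hh n)}
  let B₂ : Set (Cfg D) := {ω | ω ∉ InfCl D ∧ ∃ c, Conn ω 0 c ∧ 2 * 0 ≤ nrm c}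
  have m1 : perc D p B₁ ≤ ENNReal.ofReal (1 / 8) := by
    rw [← ENNReal.ofReal_toReal (measure_ne_top (perc D p) B₁)]
    exact ENNReal.ofReal_le_ofReal
      ((hS p lam l k n p2 hp1 hp0 a2 hlam hlam1 le_rfl hkn).1.trans hn9)
  have m2 : perc D p B₂ ≤ ENNReal.ofReal (1 / 4) := by
    rw [← ENNReal.ofReal_toReal (measure_ne_top (perc D p) B₂)]
    refine ENNReal.ofReal_le_ofReal ((hF p p1 hp1 hp0 0).trans ?_)
    have e1 : (2 : ℝ) ≤ exp 1 := by linarith [add_one_le_exp (1 : ℝ)]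
    have e2 : exp (2 * (((0 : ℕ) : ℝ) + 1)) = exp 1 * exp 1 := by rw [← exp_add]; norm_num
    rw [exp_neg, e2, inv_eq_one_div]
    exact one_div_le_one_div_of_le (by norm_num) (by nlinarith)
  have pt : ∀ ω, (1 : ℝ≥0∞) ≤ (ENNReal.ofReal (1 / 8) + F ω) + (B₁ ∪ B₂).indicator 1 ω := by
    intro ω
    by_cases hω : ω ∈ B₁ ∪ B₂
    · rw [Set.indicator_of_mem hω]; exact le_add_self
    · rw [Set.mem_union, not_or] at hω
      have g1 : Gd ω 0 (2 * n) (hh n) := not_not.1 hω.1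
      have g2 : ω ∈ InfCl D := by
        by_contra c
        exact hω.2 ⟨c, 0, Conn.refl _ _, by simp⟩
      refine le_add_right ((Q0S.split lam g2 k n).trans (add_le_add ?_ le_rfl))
      exact (hQ l k n lam ω a1 hlam hlam1 le_rfl hkn g1
        (wide_of_inf g2 (Conn.refl _ _) _)).trans (ENNReal.ofReal_le_ofReal hn9)
  have int : (1 : ℝ≥0∞) ≤ ENNReal.ofReal (1 / 2) +
      (n * (2 * n + 1) ^ (D + 1) : ℕ) * QQ D p lam k := by
    calc (1 : ℝ≥0∞) = ∫⁻ _ω, 1 ∂perc D p := by simp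
      _ ≤ ∫⁻ ω, (ENNReal.ofReal (1 / 8) + F ω) + (B₁ ∪ B₂).indicator 1 ω ∂perc D p :=
          lintegral_mono pt
      _ = ENNReal.ofReal (1 / 8) + ∫⁻ ω, F ω ∂perc D p +
            ∫⁻ ω, (B₁ ∪ B₂).indicator 1 ω ∂perc D p := by
          rw [lintegral_add_left (f := fun ω => ENNReal.ofReal (1 / 8) + F ω) (measurable_const.add mF), lintegral_add_left measurable_const]
          simp
      _ ≤ ENNReal.ofReal (1 / 8) + (n * (2 * n + 1) ^ (D + 1) : ℕ) * QQ D p lam k +
            (ENNReal.ofReal (1 / 8) + ENNReal.ofReal (1 / 4)) :=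
          add_le_add (add_le_add le_rfl (hL D p lam k n hp0 hp1))
            ((lintegral_indicator_one_le _).trans
              ((measure_union_le _ _).trans (add_le_add m1 m2)))
      _ = _ := by
          rw [add_right_comm, ← ENNReal.ofReal_add (by norm_num) (by norm_num),
            ← ENNReal.ofReal_add (by norm_num) (by norm_num)]
          norm_num
  have q1 := (hU D p lam hp0 hp1 k).1
  have qt : QQ D p lam k ≠ ∞ := ne_top_of_le_ne_top ENNReal.one_ne_top (le_self_add.trans q1)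
  have cK : 4 * (n * (2 * n + 1) ^ (D + 1)) ≤ l ^ K := by
    have c1 : 2 * n + 1 ≤ l ^ 9 := by
      have : 1 ≤ n := Nat.one_le_pow _ _ (by omega)
      calc 2 * n + 1 ≤ 3 * n := by omega
        _ ≤ l * n := Nat.mul_le_mul_right _ a3
        _ = l ^ 9 := by rw [hn]; ring
    have c2 : 4 ≤ l ^ 2 := by nlinarith
    calc 4 * (n * (2 * n + 1) ^ (D + 1)) ≤ l ^ 2 * (n * (l ^ 9) ^ (D + 1)) :=
          Nat.mul_le_mul c2 (Nat.mul_le_mul_left _ (Nat.pow_le_pow_left c1 _))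
      _ = l ^ K := by rw [hn, hK]; ring
  have lK : (0 : ℝ) < (l : ℝ) ^ K := by positivity
  have lK2 : (2 : ℝ) ≤ (l : ℝ) ^ K := by
    calc (2 : ℝ) ≤ (l : ℝ) ^ 1 := by rw [pow_one]; linarith
      _ ≤ (l : ℝ) ^ K := pow_le_pow_right₀ (by linarith) (by omega)
  have low : ENNReal.ofReal (2 / (l : ℝ) ^ K) ≤ QQ D p lam k := by
    rw [← ENNReal.ofReal_toReal qt] at int ⊢
    have t0 : 0 ≤ (QQ D p lam k).toReal := ENNReal.toReal_nonneg
    rw [← ENNReal.ofReal_natCast, ← ENNReal.ofReal_mul (by positivity),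
      ← ENNReal.ofReal_add (by norm_num) (by positivity), ENNReal.one_le_ofReal] at int
    refine ENNReal.ofReal_le_ofReal ?_
    have c3 : (4 : ℝ) * ((n * (2 * n + 1) ^ (D + 1) : ℕ) : ℝ) ≤ (l : ℝ) ^ K := by exact_mod_cast cK
    rw [div_le_iff₀ lK]
    nlinarith [mul_le_mul_of_nonneg_left c3 t0]
  have head : ∑ i ∈ range k, Ret D p lam i ≤ ENNReal.ofReal (1 - 2 / (l : ℝ) ^ K) := by
    rw [ENNReal.ofReal_sub _ (by positivity), ENNReal.ofReal_one]
    exact ENNReal.le_sub_of_add_le_left ENNReal.ofReal_ne_top ((add_le_add low le_rfl).trans q1)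
  have tl : ∑' i, Ret D p lam (i + k) ≤ ENNReal.ofReal (1 / (l : ℝ) ^ K) := by
    have hd : (0 : ℝ) < (D : ℝ) + 2 := by positivity
    have hd2 : (2 : ℝ) ≤ (D : ℝ) + 2 := by linarith [Nat.cast_nonneg (α := ℝ) D]
    have u0 : 0 < 1 / (((D : ℝ) + 2) * l) := by positivity
    have u1 : 1 / (((D : ℝ) + 2) * l) ≤ 1 := by
      rw [div_le_one (by positivity)]; nlinarith
    refine le_trans (ENNReal.tsum_le_tsum fun i => ?_)
      ((Q0S.tail (A := (l : ℝ) ^ 8) (by positivity) u0 u1 k).trans (ENNReal.ofReal_le_ofReal ?_))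
    · rw [mul_one_div]
      exact hR p lam l (i + k) p3 hp1 hp0 a3' hlam hlam1
    · have e1 : ((k : ℕ) : ℝ) * (1 / (((D : ℝ) + 2) * l)) = l / ((D : ℝ) + 2) := by
        rw [hk]; push_cast; field_simp
      rw [e1, le_div_iff₀ lK]
      refine le_of_eq_of_le ?_ (h4 l a4)
      rw [pow_add (l : ℝ) K 9]
      field_simp
  rw [← Summable.sum_add_tsum_nat_add' (f := Ret D p lam) (k := k) ENNReal.summable]
  refine (add_le_add head tl).trans (le_of_eq ?_)
  rw [← ENNReal.ofReal_add (by rw [sub_nonneg, div_le_one lK]; exact lK2) (by positivity)]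
  congr 1
  ring

end Pool.Agent.MP_8c549f_pr.L2

end

end Part6

-- ======== part 7: HtS
section Part7

/-! PROJECT L2, row Ht: exponential tail of the height without a cut, polynomial constants. -/

noncomputable section

namespace Pool.Agent.MP_8c549f_pr.L2

open MeasureTheory Finset Real Classical S3
open scoped ENNReal

namespace HtS

theorem rec_bound {u φ θ : ℝ} {R : ℕ → ℝ} (hu : 0 ≤ u) (hφ : 0 ≤ φ) (hR : ∀ i, 0 ≤ R i)
    (h : ∀ m, u * exp θ + φ * ∑ i ∈ range m, R i * exp (θ * (i + 2)) ≤ 1) {A : ℕ → ℝ≥0∞}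
    (h0 : A 0 ≤ 1) (h1 : ∀ m, A (m + 1) ≤ ENNReal.ofReal u * A m +
      ENNReal.ofReal φ * ∑ M ∈ range m, A M * ENNReal.ofReal (R (m - 1 - M))) (m : ℕ) :
    A m ≤ ENNReal.ofReal (exp (-θ * m)) := by
  induction m using Nat.strong_induction_on with
  | _ m ih =>
    rcases m with _ | m
    · simpa using h0
    refine (h1 m).trans ?_
    have e1 : ∑ M ∈ range m, A M * ENNReal.ofReal (R (m - 1 - M)) ≤
        ENNReal.ofReal (∑ M ∈ range m, exp (-θ * M) * R (m - 1 - M)) := by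
      rw [ENNReal.ofReal_sum_of_nonneg fun M _ => mul_nonneg (exp_pos _).le (hR _)]
      refine sum_le_sum fun M hM => ?_
      rw [ENNReal.ofReal_mul (exp_pos _).le]
      exact mul_le_mul_left (ih M (by have := mem_range.1 hM; omega)) _
    have e2 : ∑ M ∈ range m, exp (-θ * M) * R (m - 1 - M) =
        exp (-θ * ((m + 1 : ℕ) : ℝ)) * ∑ i ∈ range m, R i * exp (θ * (i + 2)) := by
      rw [← sum_range_reflect (fun i => R i * exp (θ * (i + 2))), mul_sum]
      refine sum_congr rfl fun M hM => ?_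
      have := mem_range.1 hM
      obtain ⟨k, rfl⟩ : ∃ k, m = M + 1 + k := ⟨m - 1 - M, by omega⟩
      rw [show M + 1 + k - 1 - M = k by omega, mul_left_comm, ← exp_add, mul_comm]
      congr 2
      push_cast
      ring
    have e3 : exp (-θ * m) = exp (-θ * ((m + 1 : ℕ) : ℝ)) * exp θ := by
      rw [← exp_add]; congr 1; push_cast; ring
    have s0 : 0 ≤ ∑ i ∈ range m, R i * exp (θ * (i + 2)) :=
      sum_nonneg fun i _ => mul_nonneg (hR i) (exp_pos _).le
    refine (add_le_add (mul_le_mul_right (ih m m.lt_succ_self) _) (mul_le_mul_right e1 _)).trans ?_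
    rw [← ENNReal.ofReal_mul hu, ← ENNReal.ofReal_mul hφ, e2, e3,
      ← ENNReal.ofReal_add (by positivity) (by positivity)]
    refine ENNReal.ofReal_le_ofReal ?_
    have := mul_le_mul_of_nonneg_left (h m) (exp_pos (-θ * ((m + 1 : ℕ) : ℝ))).le
    linarith

theorem geo {μ : ℝ} (h0 : 0 < μ) (h1 : μ ≤ 1) (m : ℕ) :
    ∑ i ∈ range m, exp (-μ / 2) ^ i ≤ 4 / μ := by
  set z := exp (-μ / 2) with hz
  have z0 : 0 < z := exp_pos _
  have z2 : z ≤ 1 - μ / 4 := by
    have a1 := add_one_le_exp (μ / 2)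
    have a2 : exp (μ / 2) * z = 1 := by rw [hz, ← exp_add]; simp [neg_div]
    nlinarith
  have z1 : z < 1 := by linarith
  have a3 : ∑ i ∈ range m, z ^ i ≤ (1 - z)⁻¹ := by
    rw [← tsum_geometric_of_lt_one z0.le z1]
    exact (summable_geometric_of_lt_one z0.le z1).sum_le_tsum _ fun i _ => pow_nonneg z0.le i
  refine a3.trans ?_
  rw [inv_eq_one_div, div_le_div_iff₀ (by linarith) h0]
  linarith

theorem exp_le {x : ℝ} : exp x ≤ 1 + x * exp x := by
  have a1 := add_one_le_exp (-x)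
  have a2 : exp (-x) * exp x = 1 := by rw [← exp_add]; simp
  have a3 := mul_le_mul_of_nonneg_right a1 (exp_pos x).le
  linarith

theorem exp_half : exp (1 / 2 : ℝ) ≤ 2 := by
  have a1 := @exp_le (1 / 2)
  linarith

theorem term {A μ θ r : ℝ} {i : ℕ} (hA : 0 ≤ A) (h0 : 0 < μ) (h1 : μ ≤ 1) (t0 : 0 ≤ θ)
    (t1 : θ ≤ μ / 4) (r0 : 0 ≤ r) (h : r ≤ A * exp (-(μ * i))) :
    r * exp (θ * (i + 2)) ≤ r + 12 * θ * A / μ * exp (-μ / 2) ^ i := by
  have i0 : (0 : ℝ) ≤ i := i.cast_nonneg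
  have a1 : exp (θ * (i + 2)) ≤ exp (μ * i / 4) * 2 := by
    refine le_trans ?_ (mul_le_mul_of_nonneg_left exp_half (exp_pos _).le)
    rw [← exp_add]
    refine exp_le_exp.2 ?_
    have := mul_le_mul_of_nonneg_right t1 (show (0 : ℝ) ≤ i + 2 by linarith)
    linarith
  have a2 : ((i : ℝ) + 2) ≤ 6 / μ * exp (μ * i / 4) := by
    have b1 := add_one_le_exp (μ * i / 4)
    rw [div_mul_eq_mul_div, le_div_iff₀ h0]
    have b2 := mul_nonneg h0.le i0
    nlinarith
  have a3 : exp (-(μ * i)) * (exp (μ * i / 4) * exp (μ * i / 4)) = exp (-μ / 2) ^ i := by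
    rw [← exp_add, ← exp_add, ← exp_nat_mul]
    congr 1
    ring
  have a4 : ((i : ℝ) + 2) * exp (θ * (i + 2)) ≤
      6 / μ * exp (μ * i / 4) * (exp (μ * i / 4) * 2) :=
    mul_le_mul a2 a1 (exp_pos _).le (by positivity)
  have a5 : r * (((i : ℝ) + 2) * exp (θ * (i + 2))) ≤
      A * exp (-(μ * i)) * (6 / μ * exp (μ * i / 4) * (exp (μ * i / 4) * 2)) :=
    mul_le_mul h a4 (by positivity) (by positivity)
  have a6 := mul_le_mul_of_nonneg_left a5 t0
  have a7 := mul_le_mul_of_nonneg_left (@exp_le (θ * (i + 2))) r0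
  rw [← a3]
  have a8 : 12 * θ * A / μ * (exp (-(μ * i)) * (exp (μ * i / 4) * exp (μ * i / 4))) =
      θ * (A * exp (-(μ * i)) * (6 / μ * exp (μ * i / 4) * (exp (μ * i / 4) * 2))) := by ring
  rw [a8]
  nlinarith

theorem key {A μ q C φ : ℝ} {R : ℕ → ℝ} (hA : 1 ≤ A) (h0 : 0 < μ) (h1 : μ ≤ 1) (q0 : 0 < q)
    (q1 : q ≤ 1) (hC : 4 ≤ C) (hφ : 50 / C ≤ φ) (φ1 : φ ≤ 1) (R0 : ∀ i, 0 ≤ R i)
    (hR : ∀ i : ℕ, R i ≤ A * exp (-(μ * i))) (hs : ∀ m, ∑ i ∈ range m, R i ≤ 1 - q) (m : ℕ) :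
    (1 - φ) * exp (q * μ ^ 2 / (C * A)) +
      φ * ∑ i ∈ range m, R i * exp (q * μ ^ 2 / (C * A) * (i + 2)) ≤ 1 := by
  set θ := q * μ ^ 2 / (C * A) with hθ
  have C0 : 0 < C := by linarith
  have A0 : 0 < A := by linarith
  have t0 : 0 ≤ θ := by positivity
  have m2 : μ ^ 2 ≤ μ := by nlinarith
  have t2 : θ ≤ q / C := by
    rw [hθ, div_le_div_iff₀ (by positivity) C0]
    have : μ ^ 2 ≤ A := by linarith
    have := mul_le_mul_of_nonneg_left this (mul_pos q0 C0).le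
    linarith
  have t1 : θ ≤ μ / 4 := by
    rw [hθ, div_le_div_iff₀ (by positivity) (by norm_num)]
    have b1 : q * μ ^ 2 ≤ μ := by nlinarith [sq_nonneg μ]
    have b2 : 4 ≤ C * A := by nlinarith
    nlinarith
  have φ0 : 0 ≤ φ := le_trans (by positivity) hφ
  have e1 : ∑ i ∈ range m, R i * exp (θ * (i + 2)) ≤ 1 - q + 48 * (q / C) := by
    refine (sum_le_sum fun i _ => term A0.le h0 h1 t0 t1 (R0 i) (hR i)).trans ?_
    rw [sum_add_distrib, ← mul_sum]
    refine add_le_add (hs m) ((mul_le_mul_of_nonneg_left (geo h0 h1 m) (by positivity)).trans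
      (le_of_eq ?_))
    rw [hθ]
    field_simp
    ring
  have e2 : exp θ ≤ 1 + 2 * (q / C) := by
    have b1 := @exp_le θ
    have b2 : exp θ ≤ 2 := (exp_le_exp.2 (by linarith)).trans exp_half
    have b3 := mul_le_mul_of_nonneg_left b2 t0
    linarith
  have e3 := mul_le_mul_of_nonneg_left e1 φ0
  have e4 := mul_le_mul_of_nonneg_left e2 (show 0 ≤ 1 - φ by linarith)
  have e5 : 50 * (q / C) ≤ φ * q := by
    have := mul_le_mul_of_nonneg_right hφ q0.le
    calc 50 * (q / C) = 50 / C * q := by ring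
      _ ≤ _ := this
  have e6 : 0 ≤ q / C := by positivity
  have e7 := mul_le_mul_of_nonneg_right φ1 e6
  have e8 := mul_nonneg φ0 e6
  nlinarith

end HtS

open HtS

theorem htS (hP : PHIStmt) (hR : RECStmt) : HTStmt := by
  intro D hD
  have D0 : (0 : ℝ) ≤ D := D.cast_nonneg
  refine ⟨200 * (D + 1), by linarith, ?_⟩
  intro p lam A q μ p5 p2 l1 _ hA q0 q1 m0 m1 b1 b3 m
  obtain ⟨f1, -⟩ := hP D hD p lam (by linarith) p2 l1
  obtain ⟨r1, r2, -⟩ := hR D p lam (by linarith) p2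
  have w1 := wb_le_one true (by linarith : 0 ≤ p) p2 lam [fwd D]
  have w2 : wb true p lam [fwd D] ≠ ∞ := ne_top_of_le_ne_top ENNReal.one_ne_top w1
  have b2 : ∀ i, Ret D p lam i ≠ ∞ := fun i => ne_top_of_le_ne_top ENNReal.ofReal_ne_top (b1 i)
  set φ := (wb true p lam [fwd D]).toReal with hφ
  have φ0 : 0 ≤ φ := ENNReal.toReal_nonneg
  have φ1 : φ ≤ 1 := by simpa using ENNReal.toReal_mono ENNReal.one_ne_top w1
  have R0 : ∀ i, 0 ≤ (Ret D p lam i).toReal := fun _ => ENNReal.toReal_nonneg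
  have R1 : ∀ i : ℕ, (Ret D p lam i).toReal ≤ A * exp (-(μ * i)) := fun i =>
    ENNReal.toReal_le_of_le_ofReal (by positivity) (b1 i)
  have x1 : exp (-lam) ≤ 1 := exp_le_one_iff.2 (by linarith)
  have x2 : 1 ≤ exp lam := one_le_exp l1
  rw [← neg_mul]
  refine rec_bound (u := 1 - φ) (φ := φ) (R := fun i => (Ret D p lam i).toReal) (by linarith) φ0 R0
    (fun k => ?_) r1 (fun k => ?_) m
  · refine key hA m0 m1 q0 q1 (by linarith) ?_ φ1 R0 R1 (fun n => ?_) k
    · have Z0 : 0 < Zf D lam := by rw [Zf]; positivity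
      have y1 : p * exp lam / Zf D lam ≤ φ := (ENNReal.ofReal_le_iff_le_toReal w2).1 f1
      have y2 : 1 / (4 * D + 4) ≤ p * exp lam / Zf D lam := by
        rw [div_le_div_iff₀ (by positivity) Z0, Zf]
        nlinarith [mul_le_mul_of_nonneg_left x2 D0, mul_le_mul_of_nonneg_left p5
          (show 0 ≤ exp lam * (4 * D + 4) by positivity)]
      refine le_trans (le_of_eq ?_) (y2.trans y1)
      field_simp
      ring
    · rw [← ENNReal.toReal_sum fun i _ => b2 i]
      exact ENNReal.toReal_le_of_le_ofReal (by linarith) ((ENNReal.sum_le_tsum _).trans b3)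
  · simp only [ENNReal.ofReal_toReal (b2 _)]
    rw [ENNReal.ofReal_sub _ φ0, hφ, ENNReal.ofReal_toReal w2, ENNReal.ofReal_one]
    exact r2 k

end Pool.Agent.MP_8c549f_pr.L2

end

end Part7

-- ======== part 8: Rg
section Part8

/-! PROJECT L2, row Rg: the regeneration estimates with polynomial constants, collected. -/

noncomputable section

namespace Pool.Agent.MP_8c549f_pr.L2

open MeasureTheory Finset Real Classical S3
open scoped ENNReal

theorem rg (hS : SLABStmt) (hR : RET1Stmt) (hQ : Q0Stmt) (hH : HTStmt) : RGStmt := by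
  intro D hD
  obtain ⟨e₁, l₁, he₁, h1⟩ := hS D hD
  obtain ⟨e₂, l₂, he₂, h2⟩ := hR D hD
  obtain ⟨e₃, K₀, l₃, he₃, h3⟩ := hQ D hD
  obtain ⟨C, hC, h4⟩ := hH D hD
  refine ⟨min (min e₁ e₂) (min e₃ (1 / 2)), K₀ + 11,
    l₁ + l₂ + l₃ + ⌈C * ((D : ℝ) + 2) ^ 2⌉₊ + 1, by positivity, by omega, ?_⟩
  intro p lam l hp hp1 hl hlam hlam1
  have hpa : 1 - e₁ ≤ p := by
    have := (min_le_left (min e₁ e₂) (min e₃ (1 / 2))).trans (min_le_left e₁ e₂); linarith
  have hpb : 1 - e₂ ≤ p := by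
    have := (min_le_left (min e₁ e₂) (min e₃ (1 / 2))).trans (min_le_right e₁ e₂); linarith
  have hpc : 1 - e₃ ≤ p := by
    have := (min_le_right (min e₁ e₂) (min e₃ (1 / 2))).trans (min_le_left e₃ (1 / 2)); linarith
  have hpd : 1 / 2 ≤ p := by
    have := (min_le_right (min e₁ e₂) (min e₃ (1 / 2))).trans (min_le_right e₃ (1 / 2)); linarith
  have hp0 : 0 ≤ p := by linarith
  have hl1 : 1 ≤ l := by omega
  have ht1 : (1 : ℝ) ≤ l := by exact_mod_cast hl1
  have ht0 : (0 : ℝ) < l := by linarith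
  have hD0 : (0 : ℝ) ≤ D := Nat.cast_nonneg D
  have hCt : C * ((D : ℝ) + 2) ^ 2 ≤ l := by
    have a1 : ⌈C * ((D : ℝ) + 2) ^ 2⌉₊ ≤ l := by omega
    exact (Nat.le_ceil _).trans (by exact_mod_cast a1)
  have hDt : (D : ℝ) + 2 ≤ l := by
    have a1 : (D : ℝ) + 2 ≤ ((D : ℝ) + 2) ^ 2 := by nlinarith
    have a2 : ((D : ℝ) + 2) ^ 2 ≤ C * ((D : ℝ) + 2) ^ 2 :=
      le_mul_of_one_le_left (by positivity) hC
    linarith
  have hlam0 : 0 ≤ lam := le_trans (by positivity) hlam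
  have hK1 : (1 : ℝ) ≤ (l : ℝ) ^ (K₀ + 11) := one_le_pow₀ ht1
  have hK0 : (1 : ℝ) ≤ (l : ℝ) ^ K₀ := one_le_pow₀ ht1
  have hret : ∀ i : ℕ, Ret D p lam i ≤
      ENNReal.ofReal ((l : ℝ) ^ 8 * exp (-(1 / (((D : ℝ) + 2) * l) * i))) := by
    intro i
    have := h2 p lam l i hpb hp1 hp0 (by omega) hlam hlam1
    rwa [show (i : ℝ) / (((D : ℝ) + 2) * l) = 1 / (((D : ℝ) + 2) * l) * i by ring] at this
  have hsum := h3 p lam l hpc hp1 hp0 (by omega) hlam hlam1
  have hmu : 1 / (l : ℝ) ^ (K₀ + 11) ≤ 1 / (((D : ℝ) + 2) * l) := by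
    apply one_div_le_one_div_of_le (by positivity)
    calc ((D : ℝ) + 2) * l ≤ l * l := by gcongr
      _ = (l : ℝ) ^ 2 := by ring
      _ ≤ (l : ℝ) ^ (K₀ + 11) := pow_le_pow_right₀ ht1 (by omega)
  refine ⟨hpd, hp1, hlam0, Nat.one_le_pow _ _ hl1, by positivity, ?_, by positivity, ?_,
    ?_, ?_, ?_, ?_⟩
  · exact (div_le_one (by positivity)).2 hK1
  · exact (div_le_one (by positivity)).2 hK1
  · intro m n hn hm
    exact (h1 p lam l m n hpa hp1 hp0 (by omega) hlam hlam1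
      ((Nat.pow_le_pow_right hl1 (by omega)).trans hn) hm).2
  · intro i
    refine (hret i).trans (ENNReal.ofReal_le_ofReal ?_)
    have hi : (0 : ℝ) ≤ i := Nat.cast_nonneg i
    push_cast
    apply mul_le_mul (pow_le_pow_right₀ ht1 (by omega)) _ (exp_pos _).le (by positivity)
    exact exp_le_exp.2 (neg_le_neg (mul_le_mul_of_nonneg_right hmu hi))
  · refine hsum.trans (ENNReal.ofReal_le_ofReal ?_)
    have : 1 / (l : ℝ) ^ (K₀ + 11) ≤ 1 / (l : ℝ) ^ K₀ :=
      one_div_le_one_div_of_le (by positivity) (pow_le_pow_right₀ ht1 (by omega))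
    linarith
  · intro m
    have hm1 : 1 / (((D : ℝ) + 2) * l) ≤ 1 := by
      apply (div_le_one (by positivity)).2
      nlinarith
    refine (h4 p lam ((l : ℝ) ^ 8) (1 / (l : ℝ) ^ K₀) (1 / (((D : ℝ) + 2) * l)) hpd hp1 hlam0
      hlam1 (one_le_pow₀ ht1) (by positivity) ((div_le_one (by positivity)).2 hK0)
      (by positivity) hm1 hret hsum m).trans (ENNReal.ofReal_le_ofReal ?_)
    have hm : (0 : ℝ) ≤ m := Nat.cast_nonneg m
    refine exp_le_exp.2 (neg_le_neg (mul_le_mul_of_nonneg_right ?_ hm))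
    have hC0 : 0 < C := by linarith
    have e : 1 / (l : ℝ) ^ K₀ * (1 / (((D : ℝ) + 2) * l)) ^ 2 / (C * (l : ℝ) ^ 8) =
        1 / (C * ((D : ℝ) + 2) ^ 2 * (l : ℝ) ^ (K₀ + 10)) := by
      field_simp
      ring
    rw [e]
    apply one_div_le_one_div_of_le (by positivity)
    calc C * ((D : ℝ) + 2) ^ 2 * (l : ℝ) ^ (K₀ + 10) ≤ l * (l : ℝ) ^ (K₀ + 10) := by gcongr
      _ = (l : ℝ) ^ (K₀ + 11) := by ring

end Pool.Agent.MP_8c549f_pr.L2

end

end Part8
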