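import Pool.Agent.MP_8c549f_pr.A7
import Pool.Agent.MP_8c549f_pr.L3.Spec

-- ======== part 0: Mom
section Part0

/-! PROJECT L2: moments of the length of first passages. -/

noncomputable section

namespace Pool.Agent.MP_8c549f_pr.L2

open MeasureTheory Finset Real Classical S3
open scoped ENNReal

namespace Mom

theorem tsum_le {a : ℕ → ℝ} {B : ℝ} (h0 : ∀ i, 0 ≤ a i) (h : ∀ n, ∑ i ∈ range n, a i ≤ B) :
    ∑' i, ENNReal.ofReal (a i) ≤ ENNReal.ofReal B :=
  ENNReal.tsum_le_of_sum_range_le fun n => by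
    rw [← ENNReal.ofReal_sum_of_nonneg fun i _ => h0 i]
    exact ENNReal.ofReal_le_ofReal (h n)

theorem sq_sum (n : ℕ) : ∑ i ∈ range n, 1 / ((i : ℝ) + 1) ^ 2 ≤ 2 := by
  have key : ∀ n : ℕ, ∑ i ∈ range n, 1 / ((i : ℝ) + 1) ^ 2 ≤ 2 - 2 / ((n : ℝ) + 1) := by
    intro n
    induction n with
    | zero => simp
    | succ n ih =>
      rw [sum_range_succ]
      push_cast
      have h0 : (0 : ℝ) ≤ n := Nat.cast_nonneg n
      have h1 : 1 / ((n : ℝ) + 1) ^ 2 ≤ 2 / ((n : ℝ) + 1) - 2 / ((n : ℝ) + 1 + 1) := by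
        rw [div_sub_div _ _ (by positivity) (by positivity), div_le_div_iff₀ (by positivity)
          (by positivity)]
        nlinarith [mul_nonneg h0 h0, mul_nonneg h0 (mul_nonneg h0 h0)]
      linarith
  have := key n
  have h2 : 0 ≤ 2 / ((n : ℝ) + 1) := by positivity
  linarith

theorem geo_sum {μ : ℝ} (h0 : 0 < μ) (h1 : μ ≤ 1) (n : ℕ) :
    ∑ i ∈ range n, exp (-(μ / 2 * i)) ≤ 4 / μ := by
  have hr : exp (-(μ / 2)) ≤ 1 - μ / 4 := by
    have a1 := add_one_le_exp (μ / 2)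
    have a2 : exp (-(μ / 2)) * exp (μ / 2) = 1 := by rw [← exp_add]; simp
    have a3 := exp_pos (-(μ / 2))
    nlinarith
  have key : ∀ n : ℕ, μ / 4 * ∑ i ∈ range n, exp (-(μ / 2 * i)) ≤ 1 - exp (-(μ / 2 * n)) := by
    intro n
    induction n with
    | zero => simp
    | succ n ih =>
      rw [sum_range_succ, mul_add]
      have e : exp (-(μ / 2 * ((n + 1 : ℕ) : ℝ))) = exp (-(μ / 2)) * exp (-(μ / 2 * n)) := by
        rw [← exp_add]; congr 1; push_cast; ring
      rw [e]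
      have := exp_pos (-(μ / 2 * n))
      nlinarith
  have a := key n
  have b := exp_pos (-(μ / 2 * n))
  rw [le_div_iff₀ h0]
  linarith

theorem pow_exp {μ : ℝ} (h0 : 0 < μ) (h1 : μ ≤ 1) (m : ℕ) :
    ((m : ℝ) + 1) ^ 6 * exp (-(μ * m)) ≤ 138240 / μ ^ 6 * exp (-(μ / 2 * m)) := by
  have a1 := Real.pow_div_factorial_le_exp (μ / 2 * ((m : ℝ) + 1)) (by positivity) 6
  have a2 : exp (μ / 2 * ((m : ℝ) + 1)) * exp (-(μ * m)) = exp (μ / 2) * exp (-(μ / 2 * m)) := by
    rw [← exp_add, ← exp_add]; congr 1; ring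
  have a3 : exp (μ / 2) ≤ 3 :=
    (exp_le_exp.2 (by linarith : μ / 2 ≤ 1)).trans (by linarith [exp_one_lt_d9])
  have a4 : ((Nat.factorial 6 : ℕ) : ℝ) = 720 := by norm_num [Nat.factorial]
  rw [a4] at a1
  have a5 := exp_pos (-(μ * m))
  have a6 := exp_pos (-(μ / 2 * m))
  have a7 := mul_le_mul_of_nonneg_right a1 a5.le
  rw [a2] at a7
  have a8 : exp (μ / 2) * exp (-(μ / 2 * m)) ≤ 3 * exp (-(μ / 2 * m)) := by gcongr
  rw [div_mul_eq_mul_div, le_div_iff₀ (by positivity)]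
  have a9 : (μ / 2 * ((m : ℝ) + 1)) ^ 6 / 720 * exp (-(μ * m)) =
      ((m : ℝ) + 1) ^ 6 * exp (-(μ * m)) * μ ^ 6 / 46080 := by ring
  rw [a9] at a7
  linarith

theorem tail (hQ : QFStmt) {D : ℕ} {p lam : ℝ} {n₀ : ℕ} {q μ : ℝ} (h : Reg D p lam n₀ q μ)
    (j k m M : ℕ) (hjk : j + k = 6) (h1 : n₀ ≤ M) (h2 : m ^ 2 ≤ M) :
    (SS {l | l ∈ FPS D m ∧ M < l.length} fun l => (l.length : ℝ≥0∞) ^ j * wb true p lam l) ≤
      ENNReal.ofReal (2 ^ j * 2 / (M : ℝ) ^ k) := by
  have hM : (1 : ℝ) ≤ M := by exact_mod_cast h.n1.trans h1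
  rw [SS_fiber _ fun l => l.length - (M + 1)]
  refine le_trans (ENNReal.tsum_le_tsum fun i => ?_)
    (tsum_le (a := fun i => 2 ^ j / (M : ℝ) ^ k * (1 / ((i : ℝ) + 1) ^ 2))
      (fun i => by positivity) fun n => ?_)
  · have e1 : (SS {l | l ∈ {l | l ∈ FPS D m ∧ M < l.length} ∧ l.length - (M + 1) = i}
        fun l => (l.length : ℝ≥0∞) ^ j * wb true p lam l) ≤
        SS {l | l ∈ FPS D m ∧ M + i < l.length}
          fun l => ((M + i + 1 : ℕ) : ℝ≥0∞) ^ j * wb true p lam l := by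
      refine SS_mono (fun l hl => ⟨hl.1.1, ?_⟩) fun l hl => ?_
      · have a1 := hl.1.2
        have a2 := hl.2
        omega
      · have a1 := hl.1.2
        have a2 := hl.2
        rw [show l.length = M + i + 1 by omega]
    refine e1.trans ?_
    rw [SS_mul_left]
    have e2 := ((hQ D p lam (by linarith [h.p0]) h.p1 m).2.2.2 (M + i)).trans
      (h.slab m (M + i) (by omega) (by omega))
    refine (mul_le_mul_right e2 _).trans ?_
    rw [← ENNReal.ofReal_natCast, ← ENNReal.ofReal_pow (Nat.cast_nonneg _),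
      ← ENNReal.ofReal_mul (by positivity)]
    refine ENNReal.ofReal_le_ofReal ?_
    push_cast
    have i0 : (0 : ℝ) ≤ i := Nat.cast_nonneg i
    have b1 : ((M : ℝ) + i + 1) ^ j ≤ 2 ^ j * ((M : ℝ) + i) ^ j := by
      rw [← mul_pow]; gcongr; linarith
    have b2 : (M : ℝ) ^ k ≤ ((M : ℝ) + i) ^ k := by gcongr; linarith
    have b3 : ((i : ℝ) + 1) ^ 2 ≤ ((M : ℝ) + i) ^ 2 :=
      pow_le_pow_left₀ (by positivity) (by linarith) 2
    have b4 : ((M : ℝ) + i) ^ 8 = ((M : ℝ) + i) ^ j * (((M : ℝ) + i) ^ k * ((M : ℝ) + i) ^ 2) := by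
      rw [← pow_add, ← pow_add]; congr 1; omega
    rw [mul_one_div, div_mul_div_comm, mul_one, div_le_div_iff₀ (by positivity) (by positivity),
      b4, ← mul_assoc (2 ^ j)]
    gcongr
  · rw [← mul_sum]
    refine (mul_le_mul_of_nonneg_left (sq_sum n) (by positivity)).trans (le_of_eq ?_)
    ring

end Mom

theorem mom (hQ : QFStmt) : MOMStmt := by
  refine ⟨2000000, by norm_num, fun D p lam n₀ q μ h => ⟨fun G hG hS => ?_, fun m M h1 h2 => ?_⟩⟩
  · have hn : (1 : ℝ) ≤ n₀ := by exact_mod_cast h.n1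
    have m0 := h.m0
    refine le_trans (ENNReal.tsum_le_tsum fun m => ?_)
      (Mom.tsum_le (a := fun m => 3 * (n₀ : ℝ) ^ 3 * (138240 / μ ^ 6) * exp (-(μ / 2 * m)) +
        16 * (1 / ((m : ℝ) + 1) ^ 2)) (fun i => by positivity) fun n => ?_)
    · have t1 : n₀ ≤ n₀ * (m + 1) ^ 2 := Nat.le_mul_of_pos_right _ (by positivity)
      have t2 : m ^ 2 ≤ n₀ * (m + 1) ^ 2 :=
        (Nat.pow_le_pow_left (Nat.le_succ m) 2).trans (Nat.le_mul_of_pos_left _ h.n1)
      rw [SS_split (G m) {l | l.length ≤ n₀ * (m + 1) ^ 2},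
        ENNReal.ofReal_add (by positivity) (by positivity)]
      refine add_le_add ?_ ?_
      · have e1 : (SS (G m ∩ {l | l.length ≤ n₀ * (m + 1) ^ 2})
            fun l => (l.length : ℝ≥0∞) ^ 3 * wb true p lam l) ≤
            SS (G m) fun l => ((n₀ * (m + 1) ^ 2 : ℕ) : ℝ≥0∞) ^ 3 * wb true p lam l := by
          refine SS_mono Set.inter_subset_left fun l hl => ?_
          have a : l.length ≤ n₀ * (m + 1) ^ 2 := hl.2
          gcongr
        refine e1.trans ?_
        rw [SS_mul_left]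
        refine (mul_le_mul_right (hS m) _).trans ?_
        rw [← ENNReal.ofReal_natCast, ← ENNReal.ofReal_pow (Nat.cast_nonneg _),
          ← ENNReal.ofReal_mul (by positivity)]
        refine ENNReal.ofReal_le_ofReal ?_
        push_cast
        have a := mul_le_mul_of_nonneg_left (Mom.pow_exp h.m0 h.m1 m)
          (show 0 ≤ 3 * (n₀ : ℝ) ^ 3 by positivity)
        refine le_trans (le_of_eq ?_) (a.trans (le_of_eq ?_)) <;> ring
      · refine le_trans (SS_mono (fun l hl => ?_) fun _ _ => le_rfl)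
          ((Mom.tail hQ h 3 3 m _ rfl t1 t2).trans (ENNReal.ofReal_le_ofReal ?_))
        · exact ⟨hG m hl.1, not_le.1 hl.2⟩
        push_cast
        have a0 : (1 : ℝ) ≤ ((m : ℝ) + 1) ^ 2 :=
          one_le_pow₀ (by linarith [Nat.cast_nonneg (α := ℝ) m])
        have a1 : ((m : ℝ) + 1) ^ 2 ≤ n₀ * ((m : ℝ) + 1) ^ 2 := le_mul_of_one_le_left (by positivity) hn
        have a2 : (n₀ : ℝ) * ((m : ℝ) + 1) ^ 2 ≤ (n₀ * ((m : ℝ) + 1) ^ 2) ^ 3 :=
          le_self_pow₀ (a0.trans a1) (by norm_num)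
        rw [mul_one_div, show (2 : ℝ) ^ 3 * 2 = 16 by norm_num]
        exact div_le_div_of_nonneg_left (by norm_num) (by positivity) (a1.trans a2)
    · rw [sum_add_distrib, ← mul_sum, ← mul_sum]
      have a1 := mul_le_mul_of_nonneg_left (Mom.geo_sum h.m0 h.m1 n)
        (show 0 ≤ 3 * (n₀ : ℝ) ^ 3 * (138240 / μ ^ 6) by positivity)
      have a2 := Mom.sq_sum n
      have a3 : 1 ≤ (n₀ : ℝ) ^ 3 / μ ^ 7 := by
        rw [le_div_iff₀ (by positivity), one_mul]
        exact (pow_le_one₀ m0.le h.m1).trans (one_le_pow₀ hn)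
      have a4 : 3 * (n₀ : ℝ) ^ 3 * (138240 / μ ^ 6) * (4 / μ) = 1658880 * ((n₀ : ℝ) ^ 3 / μ ^ 7) := by
        field_simp
        norm_num
      rw [mul_div_assoc]
      linarith
  · have := Mom.tail hQ h 1 5 m M rfl h1 h2
    simp only [pow_one] at this
    rwa [show (2 : ℝ) * 2 = 4 by norm_num] at this

end Pool.Agent.MP_8c549f_pr.L2

end

end Part0

-- ======== part 1: One2
section Part1

/-! PROJECT L2: the blocks have total weight one and polynomially bounded moments. -/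

noncomputable section

namespace Pool.Agent.MP_8c549f_pr.L2

open MeasureTheory Finset Real Classical S3 Filter Topology
open scoped ENNReal

namespace One2

variable {D : ℕ}

theorem block_rec {l : List (Step D)} (h : Block l) : Rec l := by
  obtain ⟨_, ⟨h1, _, h3, h4⟩, _⟩ := h
  intro i hi
  rw [H_length] at h3
  by_cases c : i < l.length - 1
  · have := h4 i c; omega
  · rw [show i = l.length - 1 by omega]; omega

theorem le_cube (n : ℕ) : (n : ℝ≥0∞) ≤ (n : ℝ≥0∞) ^ 3 := by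
  exact_mod_cast Nat.le_self_pow (by norm_num) n

theorem slab_tendsto {p lam : ℝ} {n₀ : ℕ} {q μ : ℝ} (R : Reg D p lam n₀ q μ) (h : ℕ) :
    Tendsto (Sl D p lam h) atTop (𝓝 0) := by
  have t1 : Tendsto (fun n : ℕ => 1 / (n : ℝ) ^ 8) atTop (𝓝 0) :=
    tendsto_const_nhds.div_atTop ((tendsto_pow_atTop (by norm_num)).comp tendsto_natCast_atTop_atTop)
  have t2 := ENNReal.tendsto_ofReal t1
  rw [ENNReal.ofReal_zero] at t2
  refine tendsto_of_tendsto_of_tendsto_of_le_of_le' tendsto_const_nhds t2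
    (Eventually.of_forall fun _ => zero_le) ?_
  filter_upwards [eventually_ge_atTop n₀, eventually_ge_atTop (h ^ 2)] with n h1 h2
  exact R.slab h n h1 h2

theorem blocks_one (hR : RECStmt) {p lam : ℝ} {n₀ : ℕ} {q μ : ℝ} (R : Reg D p lam n₀ q μ) :
    SS {l : List (Step D) | Block l} (wb true p lam) = 1 := by
  have h0 : 0 ≤ p := by linarith [R.p0]
  obtain ⟨_, _, _, r4⟩ := hR D p lam h0 R.p1
  have hρ0 := (exp_pos (-μ)).le
  have hρ1 : exp (-μ) < 1 := by
    rw [← exp_zero]; exact exp_lt_exp.2 (by linarith [R.m0])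
  have e : ∀ m : ℕ, exp (-(μ * m)) = exp (-μ) ^ m := fun m => by
    rw [← exp_nat_mul]; congr 1; ring
  have hA : ∀ m, aa D p lam m ≤ ENNReal.ofReal (exp (-μ)) ^ m := fun m => by
    rw [← ENNReal.ofReal_pow hρ0, ← e]; exact R.ht m
  have hR' : ∀ i, Ret D p lam i ≤ ENNReal.ofReal n₀ * ENNReal.ofReal (exp (-μ)) ^ i := fun i => by
    rw [← ENNReal.ofReal_pow hρ0, ← e, ← ENNReal.ofReal_mul (Nat.cast_nonneg _)]; exact R.ret i
  refine One.blocks_eq_one fa h0 R.p1 (One.qq_ne_zero h0 R.p1 R.q0 R.sum) ?_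
  rw [ENNReal.tendsto_atTop_zero]
  intro ε hε
  obtain ⟨h, hh⟩ := ENNReal.tendsto_atTop_zero.1
    (One.rest_tendsto hρ0 hρ1 ENNReal.ofReal_ne_top hA hR') (ε / 2) (ENNReal.half_pos hε.ne')
  obtain ⟨N, hN⟩ := ENNReal.tendsto_atTop_zero.1 (slab_tendsto R h) (ε / 2)
    (ENNReal.half_pos hε.ne')
  refine ⟨N, fun n hn => (r4 n h).trans ?_⟩
  rw [← ENNReal.add_halves ε, add_assoc]
  exact add_le_add (hN n hn) (hh h le_rfl)

theorem block_wt (hR : RECStmt) {p lam : ℝ} {n₀ : ℕ} {q μ : ℝ} (R : Reg D p lam n₀ q μ) (m : ℕ) :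
    SS {l : List (Step D) | Block l ∧ lev l = m} (wb true p lam) ≤
      ENNReal.ofReal (3 * exp (-(μ * m))) := by
  have h0 : 0 ≤ p := by linarith [R.p0]
  obtain ⟨_, _, r3, _⟩ := hR D p lam h0 R.p1
  cases m with
  | zero =>
    have : {l : List (Step D) | Block l ∧ lev l = (0 : ℕ)} = ∅ :=
      Set.eq_empty_of_forall_notMem fun l hl => by
        have h1 := Block.lev_pos hl.1
        have h2 := hl.2
        omega
    rw [this, SS_empty]; exact zero_le
  | succ m =>
    refine (r3 m).trans ((R.ht m).trans (ENNReal.ofReal_le_ofReal ?_))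
    have h1 : exp μ ≤ 3 := (exp_le_exp.2 R.m1).trans (exp_one_lt_d9.le.trans (by norm_num))
    have h2 : exp (-(μ * m)) = exp μ * exp (-(μ * (m + 1 : ℕ))) := by
      rw [← exp_add]; congr 1; push_cast; ring
    rw [h2]
    exact mul_le_mul_of_nonneg_right h1 (exp_pos _).le

end One2

open One2 in
theorem one2 (hR : RECStmt) (hM : MOMStmt) : ONE2Stmt := by
  obtain ⟨C, hC, HM⟩ := hM
  refine ⟨4 * C, by linarith, fun D p lam n₀ q μ R => ?_⟩
  have h0 : 0 ≤ p := by linarith [R.p0]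
  have hμ := R.m0
  have H1 := (HM D p lam n₀ q μ R).1
  have hb : 0 ≤ C * (n₀ : ℝ) ^ 3 / μ ^ 7 := by positivity
  have hle : C * (n₀ : ℝ) ^ 3 / μ ^ 7 ≤ 4 * C * (n₀ : ℝ) ^ 3 / μ ^ 7 := by
    rw [mul_assoc 4, mul_div_assoc 4]; linarith
  have hone := blocks_one hR R
  have hM3 : M3 D p lam ≤ ENNReal.ofReal (4 * C * (n₀ : ℝ) ^ 3 / μ ^ 7) := by
    refine le_trans ?_ ((H1 (fun m => {l | Block l ∧ lev l = m})
      (fun m l hl => ⟨hl.1.1, block_rec hl.1, hl.2⟩) (block_wt hR R)).trans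
      (ENNReal.ofReal_le_ofReal hle))
    rw [M3, SS_fiber _ fun l => (lev l).toNat]
    refine ENNReal.tsum_le_tsum fun m => SS_mono (fun l hl => ⟨hl.1, ?_⟩) fun _ _ => le_rfl
    have h1 := Block.lev_pos hl.1
    have h2 : (lev l).toNat = m := hl.2
    omega
  have hN1 : ∑' m, N1 D p lam m ≤ ENNReal.ofReal (4 * C * (n₀ : ℝ) ^ 3 / μ ^ 7) := by
    refine le_trans ?_ ((H1 (fun m => {l | l ∈ FPS D m ∧ ∀ t, ¬ Cut l t}) (fun m l hl => hl.1)
      fun m => ?_).trans (ENNReal.ofReal_le_ofReal hle))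
    · exact ENNReal.tsum_le_tsum fun m => SS_mono subset_rfl fun l _ =>
        mul_le_mul' (le_cube _) le_rfl
    · refine le_trans (SS_mono (B := ASet D m) (fun l hl => ⟨hl.1.2.1, hl.1.2.2, hl.2⟩)
        fun _ _ => le_rfl) ((R.ht m).trans (ENNReal.ofReal_le_ofReal ?_))
      linarith [exp_pos (-(μ * m))]
  have hAA : AA D p lam ≤ ENNReal.ofReal (4 * C * (n₀ : ℝ) ^ 3 / μ ^ 7) :=
    le_trans (SS_mono subset_rfl fun l _ => mul_le_mul' (le_cube _) le_rfl) hM3
  have hBA : BB D p lam ≤ AA D p lam := by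
    refine SS_mono subset_rfl fun l _ => mul_le_mul' ?_ le_rfl
    have := lev_le_length l
    exact_mod_cast (by omega : (lev l).toNat ≤ l.length)
  have h1B : 1 ≤ BB D p lam := by
    rw [← hone]
    refine SS_mono subset_rfl fun l hl => le_mul_of_one_le_left' ?_
    have := Block.lev_pos hl
    exact_mod_cast (by omega : 1 ≤ (lev l).toNat)
  have hA := ne_top_of_le_ne_top ENNReal.ofReal_ne_top hAA
  have hB := ne_top_of_le_ne_top hA hBA
  refine ⟨One.qq_ne_zero h0 R.p1 R.q0 R.sum, hone, hM3, hN1, hA, hB, ?_,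
    ENNReal.toReal_mono hA hBA, ENNReal.toReal_le_of_le_ofReal (hb.trans hle) hAA⟩
  simpa [BR] using ENNReal.toReal_mono hB h1B

end Pool.Agent.MP_8c549f_pr.L2

end

end Part1

-- ======== part 2: Ren0
section Part2

/-! PROJECT L2: the renewal equation for the mean length of first passages. -/

noncomputable section

namespace Pool.Agent.MP_8c549f_pr.L2

open MeasureTheory Finset Real Classical S3
open scoped ENNReal

namespace Ren0

variable {D : ℕ}

theorem lev_nonneg {l : List (Step D)} (h : Stay l) : 0 ≤ lev l := by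
  have := h l.length le_rfl
  rwa [H_length] at this

theorem block_rec {b : List (Step D)} (hb : Block b) : Rec b := by
  obtain ⟨_, ⟨h1, _, h3, h4⟩, _⟩ := hb
  intro i hi
  rw [H_length] at h3
  rcases Nat.lt_or_ge i (b.length - 1) with h | h
  · have := h4 i h; omega
  · rw [show i = b.length - 1 by omega]; omega

theorem append_mem {b l : List (Step D)} {k : ℕ} (hb : Block b) (hk : lev b ≤ k)
    (hl : l ∈ FPS D (k - (lev b).toNat)) : b ++ l ∈ FPS D k := by
  obtain ⟨h1, h2, h3⟩ := hl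
  have h0 := hb.lev_pos
  refine ⟨One.stay_append hb.1 h1, fun i hi => ?_, by rw [lev_append]; omega⟩
  rw [lev_append]
  rcases Nat.lt_or_ge i b.length with h | h
  · have := block_rec hb i h
    rw [H_append_left l h.le]; omega
  · obtain ⟨j, rfl⟩ := Nat.exists_eq_add_of_le h
    rw [List.length_append] at hi
    have := h2 j (by omega)
    rw [H_append_right]; omega

theorem of_append {b l : List (Step D)} {k : ℕ} (hb : Block b) (hl : Stay l)
    (h : b ++ l ∈ FPS D k) : lev b ≤ k ∧ l ∈ FPS D (k - (lev b).toNat) := by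
  obtain ⟨_, h2, h3⟩ := h
  have h0 := hb.lev_pos
  have h1 := lev_nonneg hl
  rw [lev_append] at h3
  refine ⟨by omega, hl, fun j hj => ?_, by omega⟩
  have := h2 (b.length + j) (by rw [List.length_append]; omega)
  rw [H_append_right, lev_append] at this
  omega

theorem fibre {p : ℝ} (h0 : 0 ≤ p) (h1 : p ≤ 1) (lam : ℝ) (k : ℕ) :
    (SS (FPS D k \ {l | ∀ t, ¬ Cut l t}) fun l => l.length * wb true p lam l) =
      SS {b : List (Step D) | Block b ∧ lev b ≤ k} fun b =>
        QQ D p lam (k - (lev b).toNat) * (b.length * wb true p lam b) +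
          XX D p lam (k - (lev b).toNat) * wb true p lam b := by
  rw [SS_fiber _ One.fc]
  refine tsum_congr fun b => ?_
  by_cases hb : b ∈ {b : List (Step D) | Block b ∧ lev b ≤ k}
  · have e : {l | l ∈ FPS D k \ {l | ∀ t, ¬ Cut l t} ∧ One.fc l = b} =
        (fun t => b ++ t) '' FPS D (k - (lev b).toNat) := by
      ext l
      constructor
      · rintro ⟨⟨hl, hc⟩, hf⟩
        obtain ⟨b', l', hb', hl', rfl⟩ := One.split_cut hl.1 (by simpa using hc)
        rw [One.fc_append hb' hl'] at hf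
        subst hf
        exact ⟨l', (of_append hb' hl' hl).2, rfl⟩
      · rintro ⟨l', hl', rfl⟩
        exact ⟨⟨append_mem hb.1 hb.2 hl', fun h => h _ (One.cut_append hb.1 hl'.1)⟩,
          One.fc_append hb.1 hl'.1⟩
    rw [Set.indicator_of_mem hb, e, SS_image (List.append_right_injective b), mul_comm (QQ ..),
      mul_comm (XX ..), QQ, XX, ← SS_mul_left, ← SS_mul_left, ← SS_add]
    refine SS_congr fun l hl => ?_
    rw [fa D p lam h0 h1 true b l hb.1.2.1 fun i hi => hl.1 i hi.le, List.length_append]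
    push_cast
    ring
  · have e : {l | l ∈ FPS D k \ {l | ∀ t, ¬ Cut l t} ∧ One.fc l = b} = ∅ := by
      refine Set.eq_empty_of_forall_notMem ?_
      rintro l ⟨⟨hl, hc⟩, hf⟩
      obtain ⟨b', l', hb', hl', rfl⟩ := One.split_cut hl.1 (by simpa using hc)
      rw [One.fc_append hb' hl'] at hf
      subst hf
      exact hb ⟨hb', (of_append hb' hl' hl).1⟩
    rw [Set.indicator_of_notMem hb, e, SS_empty]

end Ren0

theorem ren0 : REN0Stmt := by
  intro D p lam h0 h1 k
  rw [XX, SS_split _ {l | ∀ t, ¬ Cut l t}, Ren0.fibre h0 h1,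
    SS_fiber {b : List (Step D) | Block b ∧ lev b ≤ k} fun b => (lev b).toNat,
    tsum_eq_sum (s := range (k + 1))]
  · congr 1
    refine sum_congr rfl fun m hm => ?_
    have hm' := mem_range.1 hm
    have e : {l | l ∈ {b : List (Step D) | Block b ∧ lev b ≤ k} ∧ (lev l).toNat = m} =
        {l : List (Step D) | Block l ∧ lev l = m} := by
      ext l
      constructor
      · rintro ⟨⟨hb, _⟩, h⟩
        have := hb.lev_pos
        exact ⟨hb, by omega⟩
      · rintro ⟨hb, h⟩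
        exact ⟨⟨hb, by omega⟩, by omega⟩
    rw [e, mul_comm (gB ..), mul_comm (fB ..), gB, fB, ← SS_mul_left, ← SS_mul_left, ← SS_add]
    refine SS_congr fun l hl => ?_
    rw [show (lev l).toNat = m by have := hl.2; omega]
  · intro m hm
    have e : {l | l ∈ {b : List (Step D) | Block b ∧ lev b ≤ k} ∧ (lev l).toNat = m} = ∅ := by
      refine Set.eq_empty_of_forall_notMem ?_
      rintro l ⟨⟨_, h⟩, h'⟩
      exact hm (mem_range.2 (by omega))
    rw [e, SS_empty]

end Pool.Agent.MP_8c549f_pr.L2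

end

end Part2

-- ======== part 3: Rena
section Part3

/-! PROJECT L2, row Rena: the solution of a renewal equation is linear up to a bounded error. -/

noncomputable section

namespace Pool.Agent.MP_8c549f_pr.L2

open MeasureTheory Finset Real Classical S3

namespace Rena

theorem tail_sum (u : ℕ → ℝ) (s : ℝ) (h : HasSum u s) (j : ℕ) :
    HasSum (fun m => if j < m then u m else 0) (s - ∑ m ∈ range (j + 1), u m) := by
  have h1 : HasSum (fun m => if j < m then 0 else u m)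
      (∑ m ∈ range (j + 1), if j < m then 0 else u m) := by
    refine hasSum_sum_of_ne_finset_zero fun m hm => ?_
    rw [Finset.mem_range] at hm
    rw [if_pos (by omega)]
  have h2 : (∑ m ∈ range (j + 1), if j < m then 0 else u m) = ∑ m ∈ range (j + 1), u m := by
    refine Finset.sum_congr rfl fun m hm => ?_
    rw [Finset.mem_range] at hm
    rw [if_neg (by omega)]
  rw [h2] at h1
  have h3 := h.sub h1
  have h4 : (fun m => u m - if j < m then 0 else u m) = fun m => if j < m then u m else 0 := by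
    funext m
    split_ifs <;> simp
  rwa [h4] at h3

theorem tail_nonneg (u : ℕ → ℝ) (s : ℝ) (h : HasSum u s) (j : ℕ) (hu : ∀ m, j < m → 0 ≤ u m) :
    0 ≤ s - ∑ m ∈ range (j + 1), u m := by
  refine (tail_sum u s h j).nonneg fun m => ?_
  split_ifs with hm
  · exact hu m hm
  · exact le_rfl

theorem tails_le (u : ℕ → ℕ → ℝ) (s v : ℕ → ℝ) (a : ℝ) (h : ∀ j, HasSum (u j) (s j))
    (hv : ∀ m, 0 ≤ v m) (huv : ∀ j m, j < m → u j m ≤ v m)
    (ha : ∀ N, ∑ m ∈ range N, m * v m ≤ a) (n : ℕ) :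
    ∑ j ∈ range n, (s j - ∑ m ∈ range (j + 1), u j m) ≤ a := by
  have h1 := hasSum_sum (s := range n) fun j _ => tail_sum (u j) (s j) (h j) j
  refine le_of_tendsto' h1.tendsto_sum_nat fun N => le_trans ?_ (ha N)
  refine Finset.sum_le_sum fun m _ => ?_
  calc ∑ j ∈ range n, (if j < m then u j m else 0)
      ≤ ∑ j ∈ range n, (if j < m then v m else 0) := by
        refine Finset.sum_le_sum fun j _ => ?_
        split_ifs with hj
        · exact huv j m hj
        · exact le_rfl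
    _ = ∑ _j ∈ (range n).filter (fun j => j < m), v m := by rw [Finset.sum_filter]
    _ ≤ ∑ _j ∈ range m, v m := by
        refine Finset.sum_le_sum_of_subset_of_nonneg (fun j hj => ?_) fun _ _ _ => hv m
        exact Finset.mem_range.2 (Finset.mem_filter.1 hj).2
    _ = m * v m := by simp

theorem conv_le (g r : ℕ → ℝ) (A a : ℝ) (hg : ∀ m, 0 ≤ g m) (hA : HasSum g A)
    (ha : ∀ n, ∑ m ∈ range n, r m ≤ a) (n : ℕ) :
    ∑ j ∈ range n, ∑ m ∈ range (j + 1), g m * r (j - m) ≤ A * a := by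
  have h0 : 0 ≤ a := by simpa using ha 0
  rw [Finset.sum_range_diag_flip n fun m k => g m * r k]
  calc ∑ m ∈ range n, ∑ k ∈ range (n - m), g m * r k ≤ ∑ m ∈ range n, g m * a := by
        refine Finset.sum_le_sum fun m _ => ?_
        rw [← Finset.mul_sum]
        exact mul_le_mul_of_nonneg_left (ha _) (hg m)
    _ = (∑ m ∈ range n, g m) * a := by rw [Finset.sum_mul]
    _ ≤ A * a := mul_le_mul_of_nonneg_right (sum_le_hasSum _ (fun m _ => hg m) hA) h0

theorem ind_le (d w f : ℕ → ℝ) (hf : ∀ m, 0 ≤ f m) (hf0 : f 0 = 0) (hs : HasSum f 1)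
    (hw : ∀ k, 0 ≤ w k)
    (h : ∀ k, |d k - ∑ m ∈ range (k + 1), f m * d (k - m)| ≤ w k) (k : ℕ) :
    |d k| ≤ ∑ j ∈ range (k + 1), w j := by
  induction k using Nat.strong_induction_on with
  | _ k ih =>
    have hV : 0 ≤ ∑ j ∈ range k, w j := Finset.sum_nonneg fun j _ => hw j
    have h1 : |∑ m ∈ range (k + 1), f m * d (k - m)| ≤ ∑ j ∈ range k, w j := by
      calc |∑ m ∈ range (k + 1), f m * d (k - m)| ≤ ∑ m ∈ range (k + 1), |f m * d (k - m)| :=
            Finset.abs_sum_le_sum_abs _ _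
        _ ≤ ∑ m ∈ range (k + 1), f m * ∑ j ∈ range k, w j := by
            refine Finset.sum_le_sum fun m hm => ?_
            rw [Finset.mem_range] at hm
            rcases Nat.eq_zero_or_pos m with h0 | h0
            · subst h0
              simp [hf0]
            · rw [abs_mul, abs_of_nonneg (hf m)]
              refine mul_le_mul_of_nonneg_left ((ih (k - m) (by omega)).trans ?_) (hf m)
              refine Finset.sum_le_sum_of_subset_of_nonneg ?_ fun j _ _ => hw j
              exact Finset.range_subset_range.2 (by omega)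
        _ = (∑ m ∈ range (k + 1), f m) * ∑ j ∈ range k, w j := by rw [Finset.sum_mul]
        _ ≤ 1 * ∑ j ∈ range k, w j :=
            mul_le_mul_of_nonneg_right (sum_le_hasSum _ (fun m _ => hf m) hs) hV
        _ = ∑ j ∈ range k, w j := one_mul _
    rw [Finset.sum_range_succ]
    have h2 := h k
    rw [abs_le] at h1 h2 ⊢
    constructor <;> linarith [h1.1, h1.2, h2.1, h2.2]

end Rena

theorem rena : RENAStmt := by
  intro X Q f g e A B κ q a₁ a₂ a₃ a₄ hf hg he hQ hf0 hsf hsB hsg hκB hκ hq0 hq1 h1 h2 h3 h4 hX k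
  have hsu : ∀ j : ℕ, HasSum (fun m : ℕ => ((m : ℝ) - j) * f m) (B - j) := by
    intro j
    have h := hsB.sub (hsf.mul_left (j : ℝ))
    have e1 : (fun m : ℕ => (m : ℝ) * f m - j * f m) = fun m : ℕ => ((m : ℝ) - j) * f m := by
      funext m
      ring
    rwa [e1, mul_one] at h
  set c : ℕ → ℝ := fun j => ∑ m ∈ range (j + 1), g m * (Q (j - m) - q) with hc
  set tg : ℕ → ℝ := fun j => A - ∑ m ∈ range (j + 1), g m with htg
  set t : ℕ → ℝ := fun j => (B - j) - ∑ m ∈ range (j + 1), ((m : ℝ) - j) * f m with ht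
  have c0 : ∀ j, 0 ≤ c j := fun j =>
    Finset.sum_nonneg fun m _ => mul_nonneg (hg m) (sub_nonneg.2 (hQ _))
  have tg0 : ∀ j, 0 ≤ tg j := fun j => Rena.tail_nonneg g A hsg j fun m _ => hg m
  have t0 : ∀ j, 0 ≤ t j := fun j => Rena.tail_nonneg _ _ (hsu j) j fun m hm =>
    mul_nonneg (sub_nonneg.2 (by exact_mod_cast hm.le)) (hf m)
  have hz : ∀ j : ℕ, (X j - κ * q * j) -
      ∑ m ∈ range (j + 1), f m * (X (j - m) - κ * q * ((j - m : ℕ) : ℝ)) =
      e j + c j - q * tg j + κ * q * t j := by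
    intro j
    have e1 : ∑ m ∈ range (j + 1), f m * (X (j - m) - κ * q * ((j - m : ℕ) : ℝ)) =
        ∑ m ∈ range (j + 1), f m * X (j - m) +
          κ * q * ∑ m ∈ range (j + 1), ((m : ℝ) - j) * f m := by
      rw [Finset.mul_sum, ← Finset.sum_add_distrib]
      refine Finset.sum_congr rfl fun m hm => ?_
      rw [Finset.mem_range] at hm
      rw [Nat.cast_sub (by omega)]
      ring
    have e2 : c j = ∑ m ∈ range (j + 1), g m * Q (j - m) - q * ∑ m ∈ range (j + 1), g m := by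
      rw [hc, Finset.mul_sum, ← Finset.sum_sub_distrib]
      exact Finset.sum_congr rfl fun m _ => by ring
    have e3 := hX j
    rw [Finset.sum_add_distrib] at e3
    rw [e1, e2, e3]
    simp only [htg, ht]
    rw [← hκB]
    ring
  have hd := Rena.ind_le (fun j : ℕ => X j - κ * q * j)
    (fun j => e j + c j + tg j + κ * t j) f hf hf0 hsf
    (fun j => by have := he j; have := c0 j; have := tg0 j; have := t0 j; positivity)
    (fun j => by
      rw [hz j, abs_le]
      have b1 := he j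
      have b2 := c0 j
      have b3 := tg0 j
      have b4 := mul_nonneg hκ (t0 j)
      have b5 := mul_nonneg hq0 b3
      have b6 := mul_nonneg hq0 b4
      have b7 := mul_nonneg (sub_nonneg.2 hq1) b3
      have b8 := mul_nonneg (sub_nonneg.2 hq1) b4
      constructor <;> nlinarith) k
  refine hd.trans ?_
  have s2 : ∑ j ∈ range (k + 1), c j ≤ A * a₂ :=
    Rena.conv_le g (fun m => Q m - q) A a₂ hg hsg h2 (k + 1)
  have s3 : ∑ j ∈ range (k + 1), tg j ≤ a₃ :=
    Rena.tails_le (fun _ => g) (fun _ => A) g a₃ (fun _ => hsg) hg (fun _ _ _ => le_rfl) h3 (k + 1)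
  have s4 : ∑ j ∈ range (k + 1), t j ≤ a₄ := by
    refine Rena.tails_le (fun j m : ℕ => ((m : ℝ) - j) * f m) (fun j => B - j)
      (fun m => m * f m) a₄ hsu (fun m => mul_nonneg (Nat.cast_nonneg m) (hf m))
      (fun j m _ => ?_) (fun N => le_trans (le_of_eq ?_) (h4 N)) (k + 1)
    · exact mul_le_mul_of_nonneg_right (sub_le_self _ (Nat.cast_nonneg j)) (hf m)
    · exact Finset.sum_congr rfl fun m _ => by ring
  simp only [Finset.sum_add_distrib, ← Finset.mul_sum]
  have s5 := mul_le_mul_of_nonneg_left s4 hκ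
  linarith [h1 (k + 1)]

end Pool.Agent.MP_8c549f_pr.L2

end

end Part3

-- ======== part 4: Ren
section Part4

/-! PROJECT L2: the renewal estimate for the mean length of the first passages. -/

noncomputable section

namespace Pool.Agent.MP_8c549f_pr.L2

open MeasureTheory Finset Real Classical S3
open scoped ENNReal

namespace Ren

variable {D : ℕ}

theorem fib (F : List (Step D) → ℝ≥0∞) : SS {l : List (Step D) | Block l} F =
    ∑' m : ℕ, SS {l : List (Step D) | Block l ∧ lev l = m} F := by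
  rw [SS_fiber _ fun l => (lev l).toNat]
  refine tsum_congr fun m => ?_
  congr 1
  ext l
  refine and_congr_right fun hl => ?_
  have := Block.lev_pos hl
  omega

theorem fB_zero (p lam : ℝ) : fB D p lam 0 = 0 := by
  rw [fB, Set.eq_empty_of_forall_notMem (s := {l : List (Step D) | Block l ∧ lev l = (0 : ℕ)})
    fun l hl => by have := hl.1.lev_pos; have := hl.2; omega, SS_empty]

theorem sum_mf (p lam : ℝ) : ∑' m : ℕ, (m : ℝ≥0∞) * fB D p lam m = BB D p lam := by
  rw [BB, fib]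
  refine tsum_congr fun m => ?_
  rw [fB, ← SS_mul_left]
  exact SS_congr fun l hl => by rw [hl.2, Int.toNat_natCast]

theorem cube {l : List (Step D)} {m : ℕ} (h : lev l = m) :
    (m : ℝ≥0∞) * l.length ≤ (l.length : ℝ≥0∞) ^ 3 ∧ (m : ℝ≥0∞) ^ 2 ≤ (l.length : ℝ≥0∞) ^ 3 := by
  have h1 : m ≤ l.length := by have := lev_le_length l; omega
  have h2 : l.length * l.length ≤ l.length ^ 3 := by
    rcases Nat.eq_zero_or_pos l.length with e | e
    · simp [e]
    · rw [← sq]; exact Nat.pow_le_pow_right e (by norm_num)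
  constructor
  · exact_mod_cast (Nat.mul_le_mul_right _ h1).trans h2
  · exact_mod_cast (sq m ▸ Nat.mul_le_mul h1 h1).trans h2

theorem sum_mg (p lam : ℝ) : ∑' m : ℕ, (m : ℝ≥0∞) * gB D p lam m ≤ M3 D p lam := by
  rw [M3, fib]
  refine ENNReal.tsum_le_tsum fun m => ?_
  rw [gB, ← SS_mul_left]
  exact SS_mono subset_rfl fun l hl => by
    rw [← mul_assoc]; exact mul_le_mul_left (cube hl.2).1 _

theorem sum_mmf (p lam : ℝ) : ∑' m : ℕ, (m : ℝ≥0∞) ^ 2 * fB D p lam m ≤ M3 D p lam := by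
  rw [M3, fib]
  refine ENNReal.tsum_le_tsum fun m => ?_
  rw [fB, ← SS_mul_left]
  exact SS_mono subset_rfl fun l hl => mul_le_mul_left (cube hl.2).2 _

theorem part_le {u : ℕ → ℝ≥0∞} {a : ℝ} (ha : 0 ≤ a) (h : ∑' m, u m ≤ ENNReal.ofReal a) (n : ℕ) :
    ∑ m ∈ range n, (u m).toReal ≤ a := by
  have h1 : ∀ m, u m ≠ ∞ := ENNReal.ne_top_of_tsum_ne_top (ne_top_of_le_ne_top ENNReal.ofReal_ne_top h)
  rw [← ENNReal.toReal_sum fun m _ => h1 m]
  exact ENNReal.toReal_le_of_le_ofReal ha ((ENNReal.sum_le_tsum _).trans h)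

theorem hs {u : ℕ → ℝ≥0∞} {a : ℝ≥0∞} (ha : a ≠ ∞) (h : ∑' m, u m = a) :
    HasSum (fun m => (u m).toReal) a.toReal := by
  subst h
  rw [ENNReal.tsum_toReal_eq (ENNReal.ne_top_of_tsum_ne_top ha)]
  exact (ENNReal.summable_toReal ha).hasSum

theorem geo {μ : ℝ} (h0 : 0 < μ) (h1 : μ ≤ 1) : ∃ s ≤ 2 / μ,
    HasSum (fun i : ℕ => exp (-(μ * i))) s := by
  have e1 : exp (-μ) ≤ 1 - μ / 2 := by
    rw [exp_neg, inv_le_comm₀ (exp_pos _) (by linarith), inv_eq_one_div,
      div_le_iff₀ (by linarith)]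
    nlinarith [add_one_le_exp μ, mul_le_mul_of_nonneg_right (add_one_le_exp μ)
      (show 0 ≤ 1 - μ / 2 by linarith)]
  refine ⟨(1 - exp (-μ))⁻¹, ?_, ?_⟩
  · rw [← inv_div, inv_le_inv₀ (by linarith) (by positivity)]; linarith
  · have := hasSum_geometric_of_lt_one (exp_pos (-μ)).le (by linarith)
    rwa [show (fun i : ℕ => exp (-μ) ^ i) = fun i : ℕ => exp (-(μ * i)) from funext fun i => by
      rw [← exp_nat_mul]; congr 1; ring] at this

variable {p lam q μ : ℝ} {n₀ : ℕ}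

theorem mass (hQ : QFStmt) (R : Reg D p lam n₀ q μ) (k : ℕ) :
    QQ D p lam k + ∑ i ∈ range k, Ret D p lam i = 1 := by
  obtain ⟨a, b, -, -⟩ := hQ D p lam (by linarith [R.p0]) R.p1 k
  refine le_antisymm a (ENNReal.le_of_forall_pos_le_add fun ε hε _ => ?_)
  obtain ⟨n, hn⟩ := exists_nat_gt (1 / (ε : ℝ))
  have hε' : (0 : ℝ) < ε := hε
  refine (b (n + n₀ + k ^ 2)).trans (add_le_add le_rfl
    ((R.slab k _ (by omega) (by omega)).trans ?_))
  rw [← ENNReal.ofReal_coe_nnreal]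
  refine ENNReal.ofReal_le_ofReal ?_
  have h1 : 1 ≤ n + n₀ + k ^ 2 := by have := R.n1; omega
  have h2 : n ≤ (n + n₀ + k ^ 2) ^ 8 :=
    (show n ≤ n + n₀ + k ^ 2 by omega).trans (Nat.le_self_pow (by norm_num) _)
  have h3 : (n : ℝ) ≤ ((n + n₀ + k ^ 2 : ℕ) : ℝ) ^ 8 := by exact_mod_cast h2
  rw [one_div_le ((one_div_pos.2 hε').trans (hn.trans_le h3)) hε']
  exact hn.le.trans h3

theorem tail (hQ : QFStmt) (R : Reg D p lam n₀ q μ) : ∃ q' : ℝ, q ≤ q' ∧ q' ≤ 1 ∧ ∀ k : ℕ,
    q' ≤ (QQ D p lam k).toReal ∧ (QQ D p lam k).toReal - q' ≤ 2 * n₀ / μ * exp (-(μ * k)) := by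
  have hT : ∑' i, Ret D p lam i ≠ ∞ := ne_top_of_le_ne_top ENNReal.ofReal_ne_top R.sum
  have hf := ENNReal.ne_top_of_tsum_ne_top hT
  have hr := hs hT rfl
  refine ⟨1 - (∑' i, Ret D p lam i).toReal, ?_, ?_, fun k => ?_⟩
  · have := ENNReal.toReal_le_of_le_ofReal (by linarith [R.q1]) R.sum
    linarith
  · linarith [ENNReal.toReal_nonneg (a := ∑' i, Ret D p lam i)]
  have hm := mass hQ R k
  have hq : QQ D p lam k ≠ ∞ := ne_top_of_le_ne_top ENNReal.one_ne_top (le_self_add.trans hm.le)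
  have h1 := congrArg ENNReal.toReal hm
  rw [ENNReal.toReal_add hq (ENNReal.sum_ne_top.2 fun i _ => hf i),
    ENNReal.toReal_sum fun i _ => hf i, ENNReal.toReal_one] at h1
  have h2 := (hasSum_nat_add_iff' k).2 hr
  obtain ⟨s, hs1, hs2⟩ := geo R.m0 R.m1
  have h3 := hasSum_le (fun i => show (Ret D p lam (i + k)).toReal ≤
    n₀ * exp (-(μ * k)) * exp (-(μ * i)) from by
      refine ENNReal.toReal_le_of_le_ofReal (by positivity) ((R.ret _).trans_eq ?_)
      rw [mul_assoc, ← exp_add]; congr 3; push_cast; ring) h2 (hs2.mul_left _)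
  have h4 := h2.nonneg fun i => ENNReal.toReal_nonneg
  have h5 : n₀ * exp (-(μ * k)) * s ≤ n₀ * exp (-(μ * k)) * (2 / μ) :=
    mul_le_mul_of_nonneg_left hs1 (by positivity)
  refine ⟨by linarith, ?_⟩
  have h6 : n₀ * exp (-(μ * k)) * (2 / μ) = 2 * n₀ / μ * exp (-(μ * k)) := by ring
  linarith

end Ren

open Ren in
theorem ren (hQ : QFStmt) (hO : ONE2Stmt) (h0 : REN0Stmt) (hA : RENAStmt) : RENStmt := by
  obtain ⟨C, hC, hO⟩ := hO
  refine ⟨2 * C, by linarith, fun D p lam n₀ q μ R => ?_⟩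
  obtain ⟨-, o1, o2, o3, o4, o5, o6, o7, o8⟩ := hO D p lam n₀ q μ R
  obtain ⟨q', t1, t2, t3⟩ := tail hQ R
  have p0 : 0 ≤ p := by linarith [R.p0]
  have m0 := R.m0
  have n1 : (1 : ℝ) ≤ n₀ := by exact_mod_cast R.n1
  have e2 : 2 * C * (n₀ : ℝ) ^ 3 / μ ^ 7 = 2 * (C * (n₀ : ℝ) ^ 3 / μ ^ 7) := by ring
  have a2 : 2 * n₀ / μ * (2 / μ) ≤ C * (n₀ : ℝ) ^ 3 / μ ^ 7 := by
    rw [show 2 * n₀ / μ * (2 / μ) = 4 * n₀ / μ ^ 2 by ring]
    exact div_le_div₀ (by positivity) (mul_le_mul hC (le_self_pow₀ n1 (by norm_num))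
      (by positivity) (by linarith)) (by positivity) (pow_le_pow_of_le_one m0.le R.m1 (by norm_num))
  have M1 : 1 ≤ C * (n₀ : ℝ) ^ 3 / μ ^ 7 := by
    rw [le_div_iff₀ (by positivity)]
    nlinarith [one_le_pow₀ (n := 3) n1, pow_le_one₀ (n := 7) m0.le R.m1]
  rw [e2]
  generalize C * (n₀ : ℝ) ^ 3 / μ ^ 7 = M at *
  have k0 : 0 ≤ kap D p lam := div_nonneg (by linarith) (by linarith)
  have k1 : kap D p lam ≤ M := (div_le_self (by linarith) o6).trans o8
  refine ⟨q', t1, t2, k0, by linarith, fun k => ⟨?_, ?_⟩⟩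
  swap
  · rw [abs_of_nonneg (by linarith [(t3 k).1])]; exact (t3 k).2
  have sf : ∑' m, fB D p lam m = 1 := (fib _).symm.trans o1
  have sg : ∑' m, gB D p lam m = AA D p lam := (fib _).symm
  have ff := ENNReal.ne_top_of_tsum_ne_top (sf.trans_ne ENNReal.one_ne_top)
  have fg := ENNReal.ne_top_of_tsum_ne_top (sg.trans_ne o4)
  have fN := ENNReal.ne_top_of_tsum_ne_top (ne_top_of_le_ne_top ENNReal.ofReal_ne_top o3)
  have fQ : ∀ k, QQ D p lam k ≠ ∞ := fun k =>
    ne_top_of_le_ne_top ENNReal.one_ne_top (le_self_add.trans (mass hQ R k).le)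
  have fX : ∀ k, XX D p lam k ≠ ∞ := by
    intro k
    induction k using Nat.strong_induction_on with
    | _ k ih =>
      rw [h0 D p lam p0 R.p1 k]
      refine ENNReal.add_ne_top.2 ⟨fN k, ENNReal.sum_ne_top.2 fun m hm =>
        ENNReal.add_ne_top.2 ⟨ENNReal.mul_ne_top (fg m) (fQ _), ?_⟩⟩
      rcases Nat.eq_zero_or_pos m with e | e
      · simp [e, fB_zero]
      · exact ENNReal.mul_ne_top (ff m) (ih _ (by have := mem_range.1 hm; omega))
  obtain ⟨s, hs1, hs2⟩ := geo R.m0 R.m1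
  have key := hA (fun k => (XX D p lam k).toReal) (fun k => (QQ D p lam k).toReal)
    (fun k => (fB D p lam k).toReal) (fun k => (gB D p lam k).toReal)
    (fun k => (N1 D p lam k).toReal) (AR D p lam) (BR D p lam) (kap D p lam) q' M M M M
    (fun _ => ENNReal.toReal_nonneg) (fun _ => ENNReal.toReal_nonneg)
    (fun _ => ENNReal.toReal_nonneg) (fun m => (t3 m).1) (by simp [fB_zero])
    (by simpa using hs ENNReal.one_ne_top sf) (by simpa [BR] using hs o5 (sum_mf p lam))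
    (hs o4 sg) (div_mul_cancel₀ _ (by linarith)) k0 (by linarith [R.q0]) t2
    (part_le (by linarith) o3)
    (fun n => by
      refine (sum_le_sum fun m _ => (t3 m).2).trans ?_
      rw [← mul_sum]
      exact (mul_le_mul_of_nonneg_left ((sum_le_hasSum _ (fun i _ => (exp_pos _).le) hs2).trans hs1)
        (by positivity)).trans a2)
    (fun n => by simpa using part_le (by linarith) ((sum_mg p lam).trans o2) n)
    (fun n => by simpa using part_le (by linarith) ((sum_mmf p lam).trans o2) n)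
    (fun k => by
      have hb : ∀ m, gB D p lam m * QQ D p lam (k - m) ≠ ∞ ∧
          fB D p lam m * XX D p lam (k - m) ≠ ∞ := fun m =>
        ⟨ENNReal.mul_ne_top (fg m) (fQ _), ENNReal.mul_ne_top (ff m) (fX _)⟩
      rw [h0 D p lam p0 R.p1 k, ENNReal.toReal_add (fN k)
        (ENNReal.sum_ne_top.2 fun m _ => ENNReal.add_ne_top.2 (hb m)),
        ENNReal.toReal_sum fun m _ => ENNReal.add_ne_top.2 (hb m)]
      congr 1
      refine sum_congr rfl fun m _ => ?_
      rw [ENNReal.toReal_add (hb m).1 (hb m).2, ENNReal.toReal_mul, ENNReal.toReal_mul]) k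
  refine key.trans ?_
  nlinarith [mul_le_mul_of_nonneg_right o8 (show 0 ≤ M by linarith),
    mul_le_mul_of_nonneg_right k1 (show 0 ≤ M by linarith)]

end Pool.Agent.MP_8c549f_pr.L2

end

end Part4

-- ======== part 5: Small
section Part5

/-! PROJECT L2: the speed is increasing at small bias. -/

noncomputable section

namespace Pool.Agent.MP_8c549f_pr.L2

open MeasureTheory Finset Real Classical S3
open scoped ENNReal

namespace Small

/-- from small increments to all pairs -/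
theorem chain {v : ℝ → ℝ} {a ζ x₀ : ℝ} (hζ : 0 < ζ)
    (h : ∀ x s, x₀ ≤ x → x ≤ a → 0 < s → s ≤ ζ → v x < v (x + s)) {x y : ℝ} (hx : x₀ ≤ x)
    (hxy : x < y) (hy : y ≤ a) : v x < v y := by
  obtain ⟨n, hn⟩ := exists_nat_ge ((y - x) / ζ)
  rw [div_le_iff₀ hζ] at hn
  induction n generalizing x with
  | zero => simp at hn; linarith
  | succ n ih =>
    by_cases c : y - x ≤ ζ
    · simpa using h x (y - x) hx (by linarith) (by linarith) c
    · push Not at c
      exact (h x ζ hx (by linarith) hζ le_rfl).trans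
        (ih (by linarith) (by linarith) (by push_cast at hn; linarith))

end Small

theorem smallR (hF : FINStmt) (hR : REGStmt) (hG : RGStmt) (hO : ONE2Stmt) (D : ℕ) (hD : 1 ≤ D) :
    ∃ a p₀ : ℝ, 0 < a ∧ 0 ≤ p₀ ∧ p₀ < 1 ∧ ∀ p, p₀ < p → p < 1 →
      (∀ x, 0 < x → x ≤ a → qq D p x ≠ 0 ∧ SS {l : List (Step D) | Block l} (wb true p x) = 1 ∧
        AA D p x ≠ ∞ ∧ BB D p x ≠ ∞) ∧
      ∀ x y, 0 < x → x < y → y ≤ a → BR D p x / AR D p x < BR D p y / AR D p y := by
  obtain ⟨c, hc, hF⟩ := hF D hD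
  obtain ⟨e1, K, l1, he1, hl1, hG⟩ := hG D hD
  obtain ⟨C, hC, hO⟩ := hO
  obtain ⟨e2, l2, he2, hF⟩ := hF (20 * K + 2) (by omega)
  obtain ⟨l3, hl3⟩ := exists_nat_gt (96 * C ^ 2 / c)
  set l0 := max (max l1 l2) (max l3 4) with hl0
  have l0p : (4 : ℝ) ≤ l0 := by exact_mod_cast (le_max_right l3 4).trans (le_max_right _ _)
  refine ⟨1 / l0, max 0 (1 - min e1 e2), by positivity, le_max_left _ _,
    max_lt one_pos (by have := lt_min he1 he2; linarith), ?_⟩
  intro p hp hp1
  set v : ℝ → ℝ := fun x => BR D p x / AR D p x with hv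
  have p0 : 0 < p := (le_max_left _ _).trans_lt hp
  have p1 : 1 - e1 ≤ p := by linarith [(le_max_right _ _).trans_lt hp, min_le_left e1 e2]
  have p2 : 1 - e2 ≤ p := by linarith [(le_max_right _ _).trans_lt hp, min_le_right e1 e2]
  have key : ∀ x s : ℝ, 0 < x → x ≤ 1 / l0 → 0 < s → s ≤ 1 / (⌈1 / x⌉₊ : ℝ) ^ (20 * K + 2) →
      v x < v (x + s) ∧ qq D p x ≠ 0 ∧ SS {l : List (Step D) | Block l} (wb true p x) = 1 ∧
        AA D p x ≠ ∞ ∧ BB D p x ≠ ∞ := by
    intro x s hx hxa hs hsz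
    set l := ⌈1 / x⌉₊ with hl
    have a1 : 1 / x ≤ l := Nat.le_ceil _
    have a2 : (l : ℝ) < 1 / x + 1 := Nat.ceil_lt_add_one (by positivity)
    have a3 : (l0 : ℝ) ≤ 1 / x := by
      rw [le_div_iff₀ hx]; rw [le_div_iff₀ (by linarith)] at hxa; linarith
    have a4 : l0 ≤ l := by exact_mod_cast a3.trans a1
    have l4 : (4 : ℝ) ≤ l := l0p.trans (by exact_mod_cast a4)
    have lp : (0 : ℝ) < l := by linarith
    have b1 : 1 / (l : ℝ) ≤ x := by
      rw [div_le_iff₀ lp]; rw [div_le_iff₀ hx] at a1; linarith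
    have b2 : x ≤ 2 / (l : ℝ) := by
      rw [le_div_iff₀ lp]
      have h1 : x * (1 / x) = 1 := mul_one_div_cancel hx.ne'
      have h2 : 1 ≤ 1 / x := by linarith
      nlinarith
    set ζ := 1 / (l : ℝ) ^ (20 * K + 2) with hζ
    have z0 : 0 < ζ := by positivity
    have z1 : ζ ≤ 1 / (l : ℝ) := by
      refine one_div_le_one_div_of_le lp ?_
      exact le_self_pow₀ (by linarith) (by omega)
    have b3 : 1 / (l : ℝ) ≤ 1 / 4 := one_div_le_one_div_of_le (by norm_num) l4
    have b4 : 2 / (l : ℝ) = 2 * (1 / l) := by ring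
    have reg : ∀ lam, x ≤ lam → lam ≤ x + ζ →
        Reg D p lam (l ^ K) (1 / (l : ℝ) ^ K) (1 / (l : ℝ) ^ K) := fun lam h1 h2 =>
      hG p lam l p1 hp1.le (((le_max_left _ _).trans (le_max_left _ _)).trans a4) (b1.trans h1)
        (by linarith)
    have eM : C * ((l ^ K : ℕ) : ℝ) ^ 3 / (1 / (l : ℝ) ^ K) ^ 7 = C * (l : ℝ) ^ (10 * K) := by
      push_cast; field_simp; ring
    have sp : ∀ lam, x ≤ lam → lam ≤ x + ζ → 0 < kap D p lam ∧ v lam = (kap D p lam)⁻¹ := by
      intro lam h1 h2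
      obtain ⟨-, -, -, -, -, -, o7, o8, -⟩ := hO D p lam _ _ _ (reg lam h1 h2)
      refine ⟨div_pos (by linarith) (by linarith), ?_⟩
      rw [kap, inv_div]
    have t1 : (1 : ℝ) ≤ (l : ℝ) ^ (10 * K) := one_le_pow₀ (by linarith)
    have hk : kap D p (x + s) < kap D p x := by
      refine hR D p x s ζ (C * (l : ℝ) ^ (10 * K)) c p0.le hp1.le hs hsz (by linarith)
        (by positivity) (fun lam h => ?_)
        (hF p x l p2 hp1.le (((le_max_right _ _).trans (le_max_left _ _)).trans a4) b1 b2) ?_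
      · have h1 : x ≤ lam ∧ lam ≤ x + ζ := by
          rcases h with rfl | rfl | rfl <;> constructor <;> linarith
        obtain ⟨-, o2, o3, -⟩ := hO D p lam _ _ _ (reg lam h1.1 h1.2)
        exact ⟨o2, eM ▸ o3⟩
      · have h3 : (l3 : ℝ) ≤ l := by
          exact_mod_cast ((le_max_left _ _).trans (le_max_right _ _)).trans a4
        have h4 : 96 * C ^ 2 < c * l := by
          rw [div_lt_iff₀ hc] at hl3; nlinarith
        set t := (l : ℝ) ^ (10 * K) with ht
        have h5 : ζ * (t ^ 2 * (l : ℝ) ^ 2) = 1 := by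
          rw [hζ, ht, ← pow_mul, ← pow_add, show 10 * K * 2 + 2 = 20 * K + 2 by ring]
          field_simp
        have h6 : 1 + C * t ≤ 2 * (C * t) := by nlinarith
        have h7 : 48 * ζ * (C * t) * (1 + C * t) ≤ 48 * ζ * (C * t) * (2 * (C * t)) :=
          mul_le_mul_of_nonneg_left h6 (by positivity)
        have h8 : 48 * ζ * (C * t) * (2 * (C * t)) * (l : ℝ) ^ 2 = 96 * C ^ 2 := by
          rw [← mul_one (96 * C ^ 2), ← h5]; ring
        refine h7.trans_lt (lt_of_mul_lt_mul_right (a := (l : ℝ) ^ 2) ?_ (by positivity))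
        rw [h8]; nlinarith
    obtain ⟨k1, k2⟩ := sp x le_rfl (by linarith)
    obtain ⟨k3, k4⟩ := sp (x + s) (by linarith) (by linarith)
    obtain ⟨o1, o2, -, -, o5, o6, -⟩ := hO D p x _ _ _ (reg x le_rfl (by linarith))
    refine ⟨?_, o1, o2, o5, o6⟩
    rw [k2, k4]
    exact (inv_lt_inv₀ k1 k3).2 hk
  refine ⟨fun x hx hxa => ?_, fun x y hx hxy hy => ?_⟩
  · have c1 : 0 < ⌈1 / x⌉₊ := Nat.ceil_pos.2 (by positivity)
    exact (key x _ hx hxa (by positivity) le_rfl).2
  have c1 : 0 < ⌈1 / x⌉₊ := Nat.ceil_pos.2 (by positivity)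
  refine Small.chain (v := v) (a := 1 / l0) (ζ := 1 / (⌈1 / x⌉₊ : ℝ) ^ (20 * K + 2)) (x₀ := x)
    (by positivity) (fun u s h1 h2 h3 h4 => (key u s (by linarith) h2 h3 (h4.trans ?_)).1)
    le_rfl hxy hy
  have u0 : 0 < u := by linarith
  have c2 : 0 < ⌈1 / u⌉₊ := Nat.ceil_pos.2 (by positivity)
  refine one_div_le_one_div_of_le (by positivity) (pow_le_pow_left₀ (by positivity) ?_ _)
  exact_mod_cast Nat.ceil_mono (one_div_le_one_div_of_le hx h1)

theorem smallS (hF : FINStmt) (hR : REGStmt) (hG : RGStmt) (hO : ONE2Stmt) (hT : TRANSStmt) :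
    SMALLStmt := by
  intro D hD
  obtain ⟨a, p₀, a0, a1, a2, h⟩ := smallR hF hR hG hO D hD
  refine ⟨a, p₀, a0, a2, fun p hp hp1 v hv x y hx hxy hy => ?_⟩
  obtain ⟨h1, h2⟩ := h p hp hp1
  have sp : ∀ u, 0 < u → u ≤ a → v u = BR D p u / AR D p u := fun u u0 ua => by
    obtain ⟨o1, o2, o3, o4⟩ := h1 u u0 ua
    exact (hT D p u (v u) (by linarith) hp1.le u0.le o1 o2 o4 (hv u u0)).1 o3
  rw [sp x hx (by linarith), sp y (by linarith) hy]
  exact h2 x y hx hxy hy

end Pool.Agent.MP_8c549f_pr.L2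

end

end Part5
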