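import Pool.Agent.MP_8c549f_pr.FinalB
import Pool.Agent.MP_8c549f_pr.S3.Small
import Pool.Agent.MP_8c549f_pr.S3.ZY
import Pool.Agent.MP_8c549f_pr.S3.Nash
import Pool.Agent.MP_8c549f_pr.S3.Pei
import Pool.Agent.MP_8c549f_pr.L3.Spec
import Pool.Agent.MP_8c549f_pr.L3.Geo
import Pool.Agent.MP_8c549f_pr.L3.Heat
import Pool.Agent.MP_8c549f_pr.L3.Green
import Pool.Agent.MP_8c549f_pr.L3.Legs
import Pool.Agent.MP_8c549f_pr.L3.Over
import Pool.Agent.MP_8c549f_pr.L3.Chain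
import Pool.Agent.MP_8c549f_pr.L3.Regen
import Pool.Agent.MP_8c549f_pr.L3.Renew

section Part0

/-! PROJECT BWALK3: the speed attains its largest value. -/

namespace Pool.Agent.MP_8c549f_pr.Top

open MeasureTheory Filter Topology Real
open scoped ENNReal NNReal

/-- upper semicontinuity of the speed formula in the critical window -/
theorem usc (D : ℕ) (hD : 2 ≤ D) : ∃ e₀ : ℝ, 0 < e₀ ∧ ∀ p α β, 1 - e₀ ≤ p → Win D p α β →
    1 ≤ α ∧ UpperSemicontinuousOn (fun w => BR D p w / AR D p w) (Set.Icc α β) := by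
  have hD1 : 1 ≤ D := by omega
  obtain ⟨c, hc, hB⟩ := bushS D hD
  obtain ⟨C, hC1, hR⟩ := regbS D hD
  obtain ⟨x₁, h0⟩ := reg0S D hD1
  obtain ⟨e1, he1, hB⟩ := hB 1 one_pos
  obtain ⟨e2, he2, hR⟩ := hR 1 one_pos
  obtain ⟨e3, he3, hA⟩ := regaS D hD 1 one_pos
  obtain ⟨e4, he4, hS⟩ := splitS D hD1
  obtain ⟨e5, he5, hN⟩ := nice D hD1 1 one_pos
  obtain ⟨q₀, e6, hq, he6, hq0⟩ := q0S D hD1 1 one_pos
  obtain ⟨e7, he7, hO⟩ := oneS D hD1 1 one_pos
  obtain ⟨e8, he8, hW⟩ := win_mu hD (max 1 x₁)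
  refine ⟨min (min (min e1 e2) (min e3 e4)) (min (min e5 e6) (min e7 e8)), by positivity, ?_⟩
  intro p α β hp hw
  have k : ∀ {e : ℝ}, min (min (min e1 e2) (min e3 e4)) (min (min e5 e6) (min e7 e8)) ≤ e →
      1 - e ≤ p := fun h => by linarith
  have p1 := hw.1
  have hαβ := hw.2.1
  obtain ⟨μ, m1, -, p0, m2, -⟩ := hW p α (k (by simp)) p1 (hw.mem ⟨le_rfl, hαβ⟩).1
    (hw.mem ⟨le_rfl, hαβ⟩).2
  have a1 : 1 ≤ α := (le_max_left _ _).trans (m1.trans m2)
  have a3 : x₁ ≤ α := (le_max_right _ _).trans (m1.trans m2)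
  refine ⟨a1, ?_⟩
  replace hB := hB p α β (k (by simp)) hw
  obtain ⟨R1, R2, R3⟩ := hR p α β (k (by simp)) hw
  obtain ⟨A1, A2⟩ := hA p α β (k (by simp)) hw
  have hp0 : 0 ≤ p := by linarith
  have key : ∀ w ∈ Set.Icc α β, 0 < (BT D p w).toReal ∧ BT D p w ≤ AT D p w ∧
      BR D p w / AR D p w = (BT D p w).toReal / (AT D p w).toReal ∧
      AT D p w = AReg D p w + ⨆ h, ABu D p w h := fun w hw => by
    have w1 : 1 ≤ w := a1.trans hw.1
    obtain ⟨b1, b2, b3, b4⟩ := qrS D p w hp0 p1.le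
    have q1ne : q1 D p w ≠ 0 := fun h => by
      have := (b4 (hN p w (k (by simp)) p1.le w1).1).trans
        (add_le_add le_rfl (hq0 p w (k (by simp)) p1.le w1))
      rw [h, zero_add, ENNReal.one_le_ofReal] at this
      linarith
    have q1top : q1 D p w ≠ ∞ := ne_top_of_le_ne_top ENNReal.one_ne_top b3
    obtain ⟨-, o2, o3⟩ := hO p w (k (by simp)) p1.le w1
    obtain ⟨-, -, -, -, -, -, s1, s2⟩ := sump D p w hp0 p1.le
    have qp := ENNReal.toReal_pos q1ne q1top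
    refine ⟨ENNReal.toReal_pos ?_ (R1 w hw).1, ?_, ?_, hS p w (k (by simp)) p1 w1⟩
    · rw [← b2]
      exact mul_ne_zero (fun h => by simp [h, o2] at s2) q1ne
    · rw [← b1, ← b2]; exact mul_le_mul' s1 le_rfl
    · rw [← b1, ← b2, ENNReal.toReal_mul, ENNReal.toReal_mul, mul_div_mul_right _ _ qp.ne']
      rfl
  have cB : ContinuousOn (fun w => (BT D p w).toReal) (Set.Icc α β) :=
    (R2.continuousOn.add R3.continuousOn).congr fun w _ => by simp
  have pe : ∀ w ∈ Set.Icc α β, exp w - exp (-w) ≠ 0 := fun w hw =>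
    (sub_pos.2 (exp_lt_exp.2 (by linarith [hw.1]))).ne'
  have cA1 : ContinuousOn (fun w => (AT D 1 w).toReal) (Set.Icc α β) := by
    have c1 : ContinuousOn (fun w => (BT D 1 w).toReal * Zf D w / (exp w - exp (-w)))
        (Set.Icc α β) :=
      (R3.continuousOn.mul (by unfold Zf; fun_prop)).div (by fun_prop) pe
    refine c1.congr fun w hw => ?_
    rw [eq_div_iff (pe w hw)]
    exact (h0 w (a3.trans hw.1) (A1 w hw).2.1 (R1 w hw).2.1).2
  have cA : ContinuousOn (fun w => (AReg D p w).toReal) (Set.Icc α β) :=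
    (A2.continuousOn.add cA1).congr fun w _ => by simp
  intro x hx y hy
  obtain ⟨x1, x2, x3, x4⟩ := key x hx
  simp only [x3] at hy
  have y0 : 0 < y := lt_of_le_of_lt (by positivity) hy
  obtain ⟨h, hh⟩ : ∃ h, (BT D p x).toReal < y * ((AReg D p x).toReal + (ABu D p x h).toReal) := by
    by_contra hn
    push Not at hn
    have hle : AT D p x ≤ ENNReal.ofReal ((BT D p x).toReal / y) := by
      rw [x4, ENNReal.add_iSup]
      refine iSup_le fun h => ?_
      rw [← ENNReal.ofReal_toReal (A1 x hx).1, ← ENNReal.ofReal_toReal ((hB h).1 x hx),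
        ← ENNReal.ofReal_add ENNReal.toReal_nonneg ENNReal.toReal_nonneg]
      exact ENNReal.ofReal_le_ofReal ((le_div_iff₀' y0).2 (hn h))
    have ht : AT D p x ≠ ∞ := ne_top_of_le_ne_top ENNReal.ofReal_ne_top hle
    have xa : 0 < (AT D p x).toReal := x1.trans_le (ENNReal.toReal_mono ht x2)
    have h1 := ENNReal.toReal_le_of_le_ofReal (by positivity) hle
    rw [le_div_iff₀' y0] at h1
    rw [div_lt_iff₀ xa] at hy
    linarith
  have ev : ∀ᶠ w in 𝓝[Set.Icc α β] x,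
      (BT D p w).toReal < y * ((AReg D p w).toReal + (ABu D p w h).toReal) :=
    (cB x hx).eventually_lt (((cA.add (hB h).2.1).const_smul y) x hx) hh
  filter_upwards [ev, self_mem_nhdsWithin] with w h1 hw
  obtain ⟨w1, w2, w3, w4⟩ := key w hw
  rw [w3]
  by_cases ht : AT D p w = ∞
  · simpa [ht] using y0
  · have wa : 0 < (AT D p w).toReal := w1.trans_le (ENNReal.toReal_mono ht w2)
    rw [div_lt_iff₀ wa]
    refine h1.trans_le (mul_le_mul_of_nonneg_left ?_ y0.le)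
    rw [← ENNReal.toReal_add (A1 w hw).1 ((hB h).1 w hw)]
    refine ENNReal.toReal_mono ht ?_
    rw [w4]
    exact add_le_add le_rfl (le_iSup (fun h => ABu D p w h) h)

/-- the largest speed is attained, near the critical bias -/
theorem peak (D : ℕ) (hD : 2 ≤ D) (η : ℝ) (hη : 0 < η) : ∃ p₀ : ℝ, p₀ < 1 ∧
    ∀ p, p₀ < p → p < 1 → ∀ v : ℝ → ℝ, (∀ x, 0 < x → HasSpeed D p x (v x)) →
      ∃ m, 0 < m ∧ |m - D * log (1 / (1 - p))| ≤ η ∧ ∀ x, 0 < x → v x ≤ v m := by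
  have hD1 : 1 ≤ D := by omega
  obtain ⟨e1, he1, h1⟩ := usc D hD
  obtain ⟨e2, he2, h2⟩ := oneS D hD1 1 one_pos
  obtain ⟨p₁, hp₁, h3⟩ := maxStmt D hD1 (min η (1 / 4)) (by positivity)
  have he : 0 < min e1 e2 := by positivity
  refine ⟨max (max 0 p₁) (1 - min e1 e2), max_lt (max_lt one_pos hp₁) (by linarith), ?_⟩
  intro p hp hp1 v hv
  have hp0 : 0 < p := ((le_max_left _ _).trans (le_max_left _ _)).trans_lt hp
  have hp3 : p₁ < p := ((le_max_right _ _).trans (le_max_left _ _)).trans_lt hp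
  have hp2 := (le_max_right _ _).trans_lt hp
  have k : ∀ {e : ℝ}, min e1 e2 ≤ e → 1 - e ≤ p := fun h => by linarith
  have hε : 0 < 1 - p := by linarith
  obtain ⟨-, x₀, -, x1, -, x2⟩ := h3 p hp3 hp1 v hv
  set Λ := D * log (1 / (1 - p)) with hΛ
  set t := min η (1 / 4) with ht
  have t0 : 0 < t := by positivity
  have t1 : t ≤ 1 / 4 := min_le_right _ _
  have hw : Win D p (Λ - t) (Λ + t) := by
    refine ⟨hp1, by linarith, by linarith, ?_, ?_⟩
    · rw [sub_eq_add_neg Λ, exp_Lam hε]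
      linarith [add_one_le_exp (-t)]
    · rw [exp_Lam hε]
      have := add_one_le_exp (-(1 / 4 : ℝ))
      rw [exp_neg, le_inv_comm₀ (by norm_num) (exp_pos _)] at this
      linarith [exp_le_exp.2 t1]
  obtain ⟨a1, u⟩ := h1 p _ _ (k (by simp)) hw
  have sp : ∀ w, 1 ≤ w → v w = BR D p w / AR D p w := fun w hw => by
    obtain ⟨b1, b2, b3⟩ := h2 p w (k (by simp)) hp1.le hw
    obtain ⟨t1, t2⟩ := transS D p w (v w) hp0 hp1.le (by linarith) b1 b2 b3 (hv w (by linarith))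
    by_cases h : AA D p w = ∞
    · rw [t2 h, AR, h]; simp
    · exact t1 h
  obtain ⟨m, hm, hmax⟩ := u.exists_isMaxOn ⟨Λ, by constructor <;> linarith⟩ isCompact_Icc
  have inw : ∀ w, |w - Λ| ≤ t → v w ≤ v m := fun w h => by
    have hw : w ∈ Set.Icc (Λ - t) (Λ + t) := by
      constructor <;> linarith [(abs_le.1 h).1, (abs_le.1 h).2]
    rw [sp w (a1.trans hw.1), sp m (a1.trans hm.1)]
    exact hmax hw
  refine ⟨m, by linarith [hm.1], (abs_le.2 ⟨by linarith [hm.1], by linarith [hm.2]⟩).trans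
    (min_le_left η (1 / 4)), fun x hx => ?_⟩
  by_cases h : |x - Λ| ≤ t
  · exact inw x h
  · exact (x2 x hx (not_le.1 h)).le.trans (inw x₀ x1)

end Pool.Agent.MP_8c549f_pr.Top


end Part0

section Part1

/-! PROJECT L2: composition of the modules. -/

namespace Pool.Agent.MP_8c549f_pr.L2

open Real

theorem cPl : PLStmt := pl cnt
theorem cTh : THStmt := th cnt
theorem cHd : HDStmt := hd idS
theorem cHk : HKStmt := hk1 idS (hk0 (ns idS cnt cPl) (spg idS))
theorem cEx : EXStmt := exS cHk (agm idS)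
theorem cMv : MVStmt := mv cHk cEx
theorem cGb : GBStmt := gb (en2 idS) cHd cTh cMv
theorem cHit : HITStmt := hit cGb cEx
theorem cSur : SURStmt := sur cGb gc
theorem cQu : QUStmt :=
  quS (geoS S3.lu S3.pathE (repS S3.le (upS S3.lu S3.le))) (leg1 dict cSur cHit)
    (q1S dict cSur cGb gc (chiS (en2 idS) cHd (hm cHd cTh d0S) cMv d0S) d0S)
    (ovS dict (ov1 cGb gc cSur cHit (wh idS (lc idS) cPl cMv) cnt) (ov2 cSur cHit))
theorem cFr : FRStmt := frS mp vb
theorem cMix : MIXStmt := mixS vb cFr cpl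
theorem cQs : QSStmt := qs S3.pkS (S3.spec S3.pkS) S3.hardy (S3.extS S3.lu S3.le S3.pathE)
theorem cSlab : SLABStmt := slabS (S3.peiL S3.pei) cQs nicef
theorem cRet : RET1Stmt := ret1 cSlab (ret0 S3.pkS)
theorem cRg : RGStmt :=
  rg cSlab cRet (q0S (S3.fcp S3.fc S3.pei) cQs cSlab last cRet qf) (L2.htS phiS recS)
theorem cOne : ONE2Stmt := one2 recS (mom qf)
theorem cFin : FINStmt :=
  finS cQu (hyp1 btS (goodS nicef)) (hyp2 (cal step) btS d0S) (tel vb cFr cMix)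
    (kapS vb cMix (link vb cFr chnS (lk1 chnS) qf) qf (mom qf) (ren qf cOne ren0 rena)) cRg
    (nicep S3.pei (seg1 cher)) nicef (goodS nicef) arS

theorem small : SMALLStmt := smallS cFin (regS (three step)) cRg cOne transS

/-- the speed increases up to the critical window, in every dimension -/
theorem fullInc (D : ℕ) (hD : 1 ≤ D) (η : ℝ) (hη : 0 < η) : ∃ p₀ : ℝ, p₀ < 1 ∧
    ∀ p : ℝ, p₀ < p → p < 1 → ∀ x y vx vy : ℝ, 0 < x → x < y → y ≤ D * log (1 / (1 - p)) - η →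
      HasSpeed D p x vx → HasSpeed D p y vy → vx < vy := by
  obtain ⟨a, p1, a0, a1, a2, h1⟩ := smallR cFin (regS (three step)) cRg cOne D hD
  obtain ⟨e1, he1, h2⟩ := monoS D hD a η a0 hη
  obtain ⟨e2, he2, h3⟩ := oneS D hD a a0
  obtain ⟨p4, a4, h4⟩ := incStmt D hD a η a0 hη
  refine ⟨max (max p1 p4) (1 - min e1 e2),
    max_lt (max_lt a2 a4) (by have := lt_min he1 he2; linarith), ?_⟩
  intro p hp hp1 x y vx vy hx hxy hy hvx hvy
  simp only [max_lt_iff] at hp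
  obtain ⟨s1, s2⟩ := h1 p hp.1.1 hp1
  have p0 : 0 < p := a1.trans_lt hp.1.1
  by_cases c2 : a ≤ x
  · exact h4 p hp.1.2 hp1 x y _ _ c2 hxy hy hvx hvy
  push Not at c2
  obtain ⟨o1, o2, o3, o4⟩ := s1 x hx c2.le
  rw [(transS D p x vx p0 hp1.le hx.le o1 o2 o4 hvx).1 o3]
  by_cases c1 : y ≤ a
  · obtain ⟨o1, o2, o3, o4⟩ := s1 y (hx.trans hxy) c1
    rw [(transS D p y vy p0 hp1.le (hx.trans hxy).le o1 o2 o4 hvy).1 o3]
    exact s2 x y hx hxy c1
  · push Not at c1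
    obtain ⟨-, b2, b3⟩ := h2 p a y (by linarith [min_le_left e1 e2]) hp1.le le_rfl c1
      (le_Lam (by linarith) (by linarith))
    obtain ⟨d1, d2, d3⟩ := h3 p y (by linarith [min_le_right e1 e2]) hp1.le c1.le
    rw [(transS D p y vy p0 hp1.le (hx.trans hxy).le d1 d2 d3 hvy).1 b2]
    exact (s2 x a hx c2 le_rfl).trans b3

theorem fullUni (D : ℕ) (hD : 2 ≤ D) (η : ℝ) (hη : 0 < η) : ∃ p₀ : ℝ, p₀ < 1 ∧
    ∀ p : ℝ, p₀ < p → p < 1 → ∀ v : ℝ → ℝ, (∀ x, 0 < x → HasSpeed D p x (v x)) →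
      ∃ m : ℝ, 0 < m ∧ MonotoneOn v (Set.Ioc 0 m) ∧ AntitoneOn v (Set.Ici m) ∧
        |m - D * log (1 / (1 - p))| ≤ η := by
  obtain ⟨a, p1, a0, a1, h1⟩ := small D (by omega)
  obtain ⟨p2, a2, h2⟩ := uniStmt D hD a a0
  obtain ⟨p3, a3, h3⟩ := Top.peak D hD η hη
  refine ⟨max (max p1 p2) p3, max_lt (max_lt a1 a2) a3, ?_⟩
  intro p hp hp1 v hv
  simp only [max_lt_iff] at hp
  have sm := h1 p hp.1.1 hp1 v hv
  have un : ∀ x y z, a ≤ x → x < y → y < z → min (v x) (v z) ≤ v y := fun x y z hx hxy hyz =>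
    h2 p hp.1.2 hp1 x y z _ _ _ hx hxy hyz (hv x (by linarith)) (hv y (by linarith))
      (hv z (by linarith))
  have nodip : ∀ x y z, 0 < x → x < y → y < z → min (v x) (v z) ≤ v y := by
    intro x y z hx hxy hyz
    by_cases c1 : y ≤ a
    · exact (min_le_left _ _).trans (sm x y hx hxy c1).le
    by_cases c2 : a ≤ x
    · exact un x y z c2 hxy hyz
    · exact (min_le_min_right _ (sm x a hx (not_le.1 c2) le_rfl).le).trans
        (un a y z le_rfl (not_le.1 c1) hyz)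
  obtain ⟨m, m0, m1, m2⟩ := h3 p hp.2 hp1 v hv
  refine ⟨m, m0, fun x hx y hy hxy => ?_, fun x hx y hy hxy => ?_, m1⟩
  · rcases hxy.eq_or_lt with rfl | hxy
    · exact le_rfl
    rcases hy.2.eq_or_lt with rfl | hym
    · exact m2 x hx.1
    · exact (min_eq_left (m2 x hx.1)).ge.trans (nodip x y m hx.1 hxy hym)
  · rcases hxy.eq_or_lt with rfl | hxy
    · exact le_rfl
    have y0 : 0 < y := m0.trans_le hy
    rcases (Set.mem_Ici.1 hx).eq_or_lt with rfl | hmx
    · exact m2 y y0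
    · exact (min_eq_right (m2 y y0)).ge.trans (nodip m x y m0 hmx hxy)

end Pool.Agent.MP_8c549f_pr.L2

end Part1
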